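import Pool.Agent.Lib.MP_cea156_al.N.Base

/-! A1: words, images of words, the coefficients of a substitution. -/

set_option autoImplicit false

namespace Cea.N

open Finset

variable {A B R : Type} [CommRing R]

theorem mem_wds [Fintype A] {N : ℕ} {w : List A} : w ∈ wds A N ↔ w.length ≤ N := by
  classical
  unfold wds
  rw [mem_biUnion]
  constructor
  · rintro ⟨m, hm, h⟩
    rw [mem_image] at h
    obtain ⟨u, -, rfl⟩ := h
    rw [mem_range] at hm
    rw [List.length_ofFn]
    omega
  · intro h
    refine ⟨w.length, mem_range.2 (by omega), ?_⟩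
    rw [mem_image]
    exact ⟨w.get, mem_univ _, List.ofFn_get w⟩

/-- sums over `wds` -/
theorem A1_sum_wds [Fintype A] {M : Type} [AddCommMonoid M] (N : ℕ) (g : List A → M) :
    ∑ u ∈ wds A N, g u = ∑ m ∈ range (N + 1), ∑ u : Fin m → A, g (List.ofFn u) := by
  classical
  unfold wds
  rw [sum_biUnion]
  · refine sum_congr rfl fun m _ => ?_
    rw [sum_image]
    intro u _ v _ h
    exact List.ofFn_injective h
  · intro m _ m' _ hne
    rw [Function.onFun, Finset.disjoint_left]
    intro w h1 h2
    rw [mem_image] at h1 h2
    obtain ⟨u, -, rfl⟩ := h1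
    obtain ⟨v, -, hv⟩ := h2
    have := congrArg List.length hv
    rw [List.length_ofFn, List.length_ofFn] at this
    exact hne this.symm

theorem A1_cons (φ : A → NC B R) (a : A) (u : List A) :
    wordSub φ (a :: u) = φ a * wordSub φ u := rfl

theorem wordSub_append (φ : A → NC B R) (u v : List A) : wordSub φ (u ++ v) = wordSub φ u * wordSub φ v := by
  induction u with
  | nil =>
    rw [List.nil_append]
    exact (one_mul (wordSub φ v)).symm
  | cons a u ih => rw [List.cons_append, A1_cons, A1_cons, ih, mul_assoc]

theorem wordSub_single (φ : A → NC B R) (a : A) : wordSub φ [a] = φ a := by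
  rw [A1_cons]
  exact mul_one (φ a)

/-- the image of a word of length `n` has only words of length at least `n` -/
theorem wordSub_short {φ : A → NC B R} (hφ : Z0 φ) {u : List A} {w : List B} (h : w.length < u.length) :
    wordSub φ u w = 0 := by
  induction u generalizing w with
  | nil => exact absurd h (Nat.not_lt_zero _)
  | cons a u ih =>
    rw [A1_cons, mul_apply]
    refine sum_eq_zero fun k _ => ?_
    rcases Nat.eq_zero_or_pos k with hk | hk
    · rw [hk, List.take_zero, hφ a, zero_mul]
    · rw [List.length_cons] at h
      by_cases hu : w.length = 0 ∧ u.length = 0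
      · have hw : w = [] := List.length_eq_zero_iff.1 hu.1
        rw [hw, List.take_nil, hφ a, zero_mul]
      · by_cases hw : w.length = 0
        · have hw' : w = [] := List.length_eq_zero_iff.1 hw
          rw [hw', List.take_nil, hφ a, zero_mul]
        · rw [ih (w := w.drop k) (by rw [List.length_drop]; omega), mul_zero]

theorem A1_diag_cons {φ : A → NC B R} (hφ : Z0 φ) (a : A) (b : B) {u : List A} {w : List B}
    (h : w.length ≤ u.length) :
    wordSub φ (a :: u) (b :: w) = φ a [b] * wordSub φ u w := by
  rw [A1_cons, mul_cons, hφ a, zero_mul, zero_add, mul_apply, sum_eq_single 0]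
  · rw [List.take_zero, List.drop_zero]
    rfl
  · intro k _ hk
    by_cases hw : w.length = 0
    · have hw' : w = [] := List.length_eq_zero_iff.1 hw
      subst hw'
      rename_i hk'
      rw [List.length_nil, mem_range] at hk'
      omega
    · rw [wordSub_short hφ (by rw [List.length_drop]; omega), mul_zero]
  · intro h
    exact absurd (mem_range.2 (Nat.succ_pos _)) h

/-- the coefficient of a word of the same length -/
theorem wordSub_diag {φ : A → NC B R} (hφ : Z0 φ) {n : ℕ} (u : Fin n → A) (w : Fin n → B) :
    wordSub φ (List.ofFn u) (List.ofFn w) = ∏ i, φ (u i) [w i] := by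
  induction n with
  | zero =>
    rw [List.ofFn_zero, List.ofFn_zero, Fin.prod_univ_zero]
    rfl
  | succ n ih =>
    rw [List.ofFn_succ, List.ofFn_succ, A1_diag_cons hφ _ _ (by simp), ih, Fin.prod_univ_succ]

/-- the coefficients of a substitution as sums over a large set of words -/
theorem subst_apply [Fintype A] {φ : A → NC B R} (hφ : Z0 φ) (f : NC A R) (w : List B) {N : ℕ} (hN : w.length ≤ N) :
    subst φ f w = ∑ u ∈ wds A N, f u * wordSub φ u w := by
  rw [A1_sum_wds]
  unfold subst
  apply sum_subset
  · intro m hm
    rw [mem_range] at hm ⊢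
    omega
  · intro m _ hm
    rw [mem_range] at hm
    refine sum_eq_zero fun u _ => ?_
    rw [wordSub_short hφ (by rw [List.length_ofFn]; omega), mul_zero]

theorem subst_nil [Fintype A] (φ : A → NC B R) (f : NC A R) : subst φ f [] = f [] := by
  unfold subst
  rw [List.length_nil, zero_add, range_one, sum_singleton, Fintype.sum_unique, List.ofFn_zero]
  have : wordSub φ [] [] = 1 := rfl
  rw [this, mul_one]

theorem subst_add [Fintype A] (φ : A → NC B R) (f g : NC A R) : subst φ (f + g) = subst φ f + subst φ g := by
  ext w
  rw [add_apply]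
  unfold subst
  rw [← sum_add_distrib]
  refine sum_congr rfl fun m _ => ?_
  rw [← sum_add_distrib]
  refine sum_congr rfl fun u _ => ?_
  rw [add_apply, add_mul]

theorem subst_smul [Fintype A] (φ : A → NC B R) (r : R) (f : NC A R) : subst φ (r • f) = r • subst φ f := by
  ext w
  rw [smul_apply]
  unfold subst
  rw [mul_sum]
  refine sum_congr rfl fun m _ => ?_
  rw [mul_sum]
  refine sum_congr rfl fun u _ => ?_
  rw [smul_apply, mul_assoc]

theorem subst_neg [Fintype A] (φ : A → NC B R) (f : NC A R) : subst φ (-f) = -subst φ f := by
  have h : -f = (-1 : R) • f := by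
    ext w
    rw [neg_apply, smul_apply]
    ring
  rw [h, subst_smul]
  ext w
  rw [neg_apply, smul_apply]
  ring

theorem subst_sub [Fintype A] (φ : A → NC B R) (f g : NC A R) : subst φ (f - g) = subst φ f - subst φ g := by
  rw [sub_eq_add_neg, subst_add, subst_neg, ← sub_eq_add_neg]

theorem subst_zero [Fintype A] (φ : A → NC B R) : subst φ (0 : NC A R) = 0 := by
  have h := subst_sub φ (0 : NC A R) 0
  rw [sub_self, sub_self] at h
  exact h

theorem subst_sum [Fintype A] (φ : A → NC B R) {ι : Type} (s : Finset ι) (f : ι → NC A R) :
    subst φ (∑ i ∈ s, f i) = ∑ i ∈ s, subst φ (f i) := by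
  classical
  induction s using Finset.induction_on with
  | empty => rw [sum_empty, sum_empty, subst_zero]
  | insert a s ha ih => rw [sum_insert ha, sum_insert ha, subst_add, ih]

/-- only the words of length at most `|w|` matter -/
theorem subst_congr_len [Fintype A] {φ : A → NC B R} {f g : NC A R} {w : List B}
    (h : ∀ u : List A, u.length ≤ w.length → f u = g u) : subst φ f w = subst φ g w := by
  unfold subst
  refine sum_congr rfl fun m hm => sum_congr rfl fun u _ => ?_
  rw [mem_range] at hm
  rw [h _ (by rw [List.length_ofFn]; omega)]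

theorem A1_wordSub_congr {φ ψ : A → NC B R} {n : ℕ}
    (h : ∀ a (u : List B), u.length ≤ n → φ a u = ψ a u) (u : List A) (v : List B)
    (hv : v.length ≤ n) : wordSub φ u v = wordSub ψ u v := by
  induction u generalizing v with
  | nil => rfl
  | cons a u ih =>
    rw [A1_cons, A1_cons, mul_apply, mul_apply]
    refine sum_congr rfl fun k _ => ?_
    rw [h a _ (by rw [List.length_take]; omega), ih _ (by rw [List.length_drop]; omega)]

theorem A1_wordSub_congr2 {φ ψ : A → NC B R} (hφ : Z0 φ) (hψ : Z0 ψ) {w : List B}
    (h : ∀ a (u : List B), u.length < w.length → φ a u = ψ a u) {u : List A}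
    (hu : 2 ≤ u.length) : wordSub φ u w = wordSub ψ u w := by
  cases u with
  | nil => exact absurd hu (by simp)
  | cons a u =>
    rw [List.length_cons] at hu
    rw [A1_cons, A1_cons, mul_apply, mul_apply]
    refine sum_congr rfl fun k hk => ?_
    rw [mem_range] at hk
    rcases Nat.eq_zero_or_pos k with hk0 | hk0
    · rw [hk0, List.take_zero, hφ a, hψ a, zero_mul, zero_mul]
    · rcases Nat.lt_or_ge k w.length with hk1 | hk1
      · rw [h a _ (by rw [List.length_take]; omega)]
        congr 1
        apply A1_wordSub_congr (n := w.length - 1)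
        · intro a v hv
          exact h a v (by omega)
        · rw [List.length_drop]
          omega
      · have e1 : (w.drop k).length < u.length := by rw [List.length_drop]; omega
        rw [wordSub_short hφ e1, wordSub_short hψ e1, mul_zero, mul_zero]

/-- if all words of `f` have length at least `2`, only the coefficients of `φ` at words shorter than `w` matter -/
theorem subst_congr_short [Fintype A] {φ ψ : A → NC B R} (hφ : Z0 φ) (hψ : Z0 ψ) {f : NC A R} (hf : Len 2 f)
    {w : List B} (h : ∀ a (u : List B), u.length < w.length → φ a u = ψ a u) : subst φ f w = subst ψ f w := by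
  unfold subst
  refine sum_congr rfl fun m _ => sum_congr rfl fun u _ => ?_
  by_cases h0 : f (List.ofFn u) = 0
  · rw [h0, zero_mul, zero_mul]
  · rw [A1_wordSub_congr2 hφ hψ h (hf _ h0)]

/-- `subst φ f` has no words shorter than the words of `f` -/
theorem len_subst [Fintype A] {φ : A → NC B R} (hφ : Z0 φ) {n : ℕ} {f : NC A R} (hf : Len n f) : Len n (subst φ f) := by
  intro w hw
  by_contra hc
  apply hw
  unfold subst
  refine sum_eq_zero fun m hm => sum_eq_zero fun u _ => ?_
  rw [mem_range] at hm
  have h0 : f (List.ofFn u) = 0 := by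
    by_contra h1
    have := hf _ h1
    rw [List.length_ofFn] at this
    omega
  rw [h0, zero_mul]

end Cea.N
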