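import Pool.Agent.Lib.MP_cea156_al.N.A5

/-! A10: everything is functorial in the ring of coefficients. -/

set_option autoImplicit false

namespace Cea.N

open Finset

section words

variable {A B R R' : Type} [CommRing R] [CommRing R'] (h : R →+* R')

theorem mapR_add (f g : NC A R) : mapR h (f + g) = mapR h f + mapR h g := by
  ext w
  exact map_add h (f w) (g w)

theorem mapR_mul (f g : NC A R) : mapR h (f * g) = mapR h f * mapR h g := by
  ext w
  show h ((f * g) w) = _
  rw [mul_apply, mul_apply, map_sum]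
  exact sum_congr rfl fun k _ => map_mul h _ _

theorem mapR_one : mapR h (1 : NC A R) = 1 := by
  ext w
  show h ((1 : NC A R) w) = _
  rw [one_apply, one_apply]
  split_ifs
  · exact map_one h
  · exact map_zero h

theorem mapR_wordSub (φ : A → NC B R) (u : List A) : mapR h (wordSub φ u) = wordSub (fun a => mapR h (φ a)) u := by
  induction u with
  | nil => exact mapR_one h
  | cons a u ih =>
    show mapR h (φ a * wordSub φ u) = mapR h (φ a) * wordSub (fun a => mapR h (φ a)) u
    rw [mapR_mul, ih]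

theorem mapR_subst [Fintype A] (φ : A → NC B R) (f : NC A R) :
    mapR h (subst φ f) = subst (fun a => mapR h (φ a)) (mapR h f) := by
  ext w
  show h (subst φ f w) = _
  unfold subst
  rw [map_sum]
  refine sum_congr rfl fun m _ => ?_
  rw [map_sum]
  refine sum_congr rfl fun u _ => ?_
  rw [map_mul, ← mapR_wordSub]
  rfl

theorem mapR_cyc (f : NC A R) : mapR h (cyc f) = cyc (mapR h f) := by
  ext w
  show h (cyc f w) = _
  unfold cyc
  rw [map_sum]
  rfl

theorem A10_ne {f : NC A R} {w : List A} (hw : mapR h f w ≠ 0) : f w ≠ 0 := by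
  intro e
  apply hw
  show h (f w) = 0
  rw [e, map_zero]

theorem Len.map {n : ℕ} {f : NC A R} (hf : Len n f) : Len n (mapR h f) := fun w hw =>
  hf w (A10_ne h hw)

end words

section quivers

variable {V R R' : Type} [DecidableEq V] [CommRing R] [CommRing R'] (h : R →+* R')

theorem Pot.map {Q : Quiv V} {W : NC Q.A R} (hW : Pot Q W) : Pot Q (mapR h W) := fun w hw =>
  hW w (A10_ne h hw)

theorem Iso.map {Q Q' : Quiv V} {φ : Q.A → NC Q'.A R} (hφ : Iso Q Q' φ) : Iso Q Q' fun a => mapR h (φ a) := by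
  obtain ⟨h1, N, h2, h3⟩ := hφ
  refine ⟨fun a w hw => h1 a w (A10_ne h hw), N.map h, ?_, ?_⟩
  · have e : lin (fun a => mapR h (φ a)) = (lin φ).map h := rfl
    rw [e, ← Matrix.map_mul, h2, Matrix.map_one h (map_zero h) (map_one h)]
  · have e : lin (fun a => mapR h (φ a)) = (lin φ).map h := rfl
    rw [e, ← Matrix.map_mul, h3, Matrix.map_one h (map_zero h) (map_one h)]

theorem RE.map {Q Q' : Quiv V} {W : NC Q.A R} {W' : NC Q'.A R} (hr : RE Q Q' W W') : RE Q Q' (mapR h W) (mapR h W') := by
  obtain ⟨φ, h1, h2⟩ := hr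
  refine ⟨fun a => mapR h (φ a), h1.map h, ?_⟩
  rw [← mapR_subst, ← mapR_cyc, h2, mapR_cyc]

theorem mapR_br (Q : Quiv V) (k : V) (W : NC Q.A R) : mapR h (br Q k W) = br Q k (mapR h W) := by
  ext w
  show h (br Q k W w) = _
  unfold br
  cases Q.expand k w with
  | none => exact map_zero h
  | some l => rfl

theorem mapR_dlt (Q : Quiv V) (k : V) : mapR h (dlt Q k) = dlt Q k := by
  ext w
  show h (dlt Q k w) = _
  unfold dlt
  split_ifs
  · exact map_one h
  · exact map_zero h

theorem mapR_plW (Q : Quiv V) {m : ℕ} (p q : Fin m → V) (W : NC Q.A R) :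
    mapR h (plW Q p q W) = plW Q p q (mapR h W) := by
  ext w
  show h (plW Q p q W w) = _
  unfold plW
  rw [map_add]
  congr 1
  · split_ifs
    · rfl
    · exact map_zero h
  · split_ifs
    · exact map_one h
    · exact map_zero h

theorem Mu.map {k : V} {Q Q' : Quiv V} {W : NC Q.A R} {W' : NC Q'.A R} (hm : Mu k Q Q' W W') :
    Mu k Q Q' (mapR h W) (mapR h W') := by
  obtain ⟨h1, W₁, h2, h3, h4, m, p, q, h5⟩ := hm
  refine ⟨h1.map h, mapR h W₁, h2.map h, ?_, ?_, m, p, q, ?_⟩
  · rw [← mapR_cyc, h3, mapR_cyc]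
  · intro a w hw
    show h (W₁ (a :: w)) = 0
    rw [h4 a w hw, map_zero]
  · have h6 := h5.map h
    rw [mapR_plW, mapR_add, mapR_br, mapR_dlt] at h6
    exact h6

end quivers

end Cea.N
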