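import Pool.Agent.Lib.MP_cea156_al.N.A1

/-! A2: substitutions are ring homomorphisms, composition of substitutions. Hint: both sides are additive and the coefficient
of `w` only depends on finitely many coefficients of `f` (`subst_apply`); `subst_mul`: split words by length, or use
`f = ∑_{u ∈ wds N} f u • mon u` up to words longer than `N`. -/

set_option autoImplicit false

namespace Cea.N

open Finset

variable {A B C R : Type} [CommRing R]

/-- `f` is, up to words longer than `N`, a finite linear combination of words -/
theorem eq_sum_mon [Fintype A] [DecidableEq A] (f : NC A R) (N : ℕ) {w : List A} (hw : w.length ≤ N) :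
    f w = (∑ u ∈ wds A N, f u • (mon u : NC A R)) w := by
  rw [finsetSum_apply, sum_eq_single w]
  · rw [smul_apply, mon, if_pos rfl, mul_one]
  · intro u _ hu
    rw [smul_apply, mon, if_neg (Ne.symm hu), mul_zero]
  · intro h
    exact absurd (mem_wds.2 hw) h

theorem mon_mul_mon [DecidableEq A] (u v : List A) : (mon u * mon v : NC A R) = mon (u ++ v) := by
  induction u with
  | nil =>
    have h : (mon [] : NC A R) = 1 := by
      ext w
      rw [one_apply]
      cases w <;> rfl
    rw [h, one_mul, List.nil_append]
  | cons a u ih =>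
    ext w
    cases w with
    | nil =>
      rw [mul_nil]
      have h1 : (mon (a :: u) : NC A R) [] = 0 := rfl
      have h2 : (mon (a :: u ++ v) : NC A R) [] = 0 := rfl
      rw [h1, h2, zero_mul]
    | cons b w =>
      rw [mul_cons]
      have h1 : (mon (a :: u) : NC A R) [] = 0 := rfl
      rw [h1, zero_mul, zero_add]
      by_cases hb : b = a
      · subst hb
        have h2 : shift b (mon (b :: u) : NC A R) = mon u := by
          ext x
          show (if b :: x = b :: u then (1 : R) else 0) = if x = u then 1 else 0
          simp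
        rw [h2, ih]
        show (if w = u ++ v then (1 : R) else 0) = if b :: w = b :: u ++ v then 1 else 0
        simp
      · have h2 : shift b (mon (a :: u) : NC A R) = 0 := by
          ext x
          show (if b :: x = a :: u then (1 : R) else 0) = 0
          simp [hb]
        rw [h2, zero_mul]
        show (0 : R) = if b :: w = a :: u ++ v then 1 else 0
        simp [hb]

theorem mon_nil [DecidableEq A] : (mon [] : NC A R) = 1 := by
  ext w
  rw [one_apply]
  cases w <;> rfl

theorem subst_mon [Fintype A] [DecidableEq A] {φ : A → NC B R} (hφ : Z0 φ) (u : List A) :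
    subst φ (mon u) = wordSub φ u := by
  ext w
  rw [subst_apply hφ _ w (le_max_left w.length u.length), sum_eq_single u]
  · rw [mon, if_pos rfl, one_mul]
  · intro v _ hv
    rw [mon, if_neg hv, zero_mul]
  · intro h
    exact absurd (mem_wds.2 (le_max_right _ _)) h

theorem subst_one [Fintype A] {φ : A → NC B R} (hφ : Z0 φ) : subst φ (1 : NC A R) = 1 := by
  classical
  rw [← mon_nil, subst_mon hφ]
  rfl

theorem subst_X [Fintype A] [DecidableEq A] {φ : A → NC B R} (hφ : Z0 φ) (a : A) : subst φ (X a) = φ a := by
  rw [X, subst_mon hφ, wordSub_single]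

theorem subst_mul [Fintype A] {φ : A → NC B R} (hφ : Z0 φ) (f g : NC A R) :
    subst φ (f * g) = subst φ f * subst φ g := by
  classical
  ext w
  have hf : ∀ u : List A, u.length ≤ w.length → f u = (∑ u ∈ wds A w.length, f u • (mon u : NC A R)) u :=
    fun u hu => eq_sum_mon f _ hu
  have hg : ∀ u : List A, u.length ≤ w.length → g u = (∑ u ∈ wds A w.length, g u • (mon u : NC A R)) u :=
    fun u hu => eq_sum_mon g _ hu
  have h1 : subst φ (f * g) w = subst φ ((∑ u ∈ wds A w.length, f u • (mon u : NC A R)) *
      ∑ u ∈ wds A w.length, g u • (mon u : NC A R)) w := by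
    refine subst_congr_len fun u hu => ?_
    rw [mul_apply, mul_apply]
    refine sum_congr rfl fun k _ => ?_
    rw [← hf _ (by rw [List.length_take]; omega), ← hg _ (by rw [List.length_drop]; omega)]
  have h2 : (subst φ f * subst φ g) w = (subst φ (∑ u ∈ wds A w.length, f u • (mon u : NC A R)) *
      subst φ (∑ u ∈ wds A w.length, g u • (mon u : NC A R))) w := by
    rw [mul_apply, mul_apply]
    refine sum_congr rfl fun k _ => ?_
    congr 1
    · exact subst_congr_len fun u hu => hf u (hu.trans (by rw [List.length_take]; omega))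
    · exact subst_congr_len fun u hu => hg u (hu.trans (by rw [List.length_drop]; omega))
  rw [h1, h2]
  have key : subst φ ((∑ u ∈ wds A w.length, f u • (mon u : NC A R)) *
      ∑ u ∈ wds A w.length, g u • (mon u : NC A R)) = subst φ (∑ u ∈ wds A w.length, f u • (mon u : NC A R)) *
      subst φ (∑ u ∈ wds A w.length, g u • (mon u : NC A R)) := by
    rw [sum_mul, subst_sum, subst_sum, sum_mul]
    refine sum_congr rfl fun u _ => ?_
    rw [mul_sum, subst_sum, subst_sum, mul_sum]
    refine sum_congr rfl fun v _ => ?_
    rw [smul_mul_assoc, mul_smul_comm, mon_mul_mon, subst_smul, subst_smul, subst_mon hφ, wordSub_append,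
      subst_smul, subst_smul, subst_mon hφ, subst_mon hφ, smul_mul_assoc, mul_smul_comm]
  rw [key]

theorem subst_id [Fintype A] [DecidableEq A] (f : NC A R) : subst (fun a => X a) f = f := by
  have hX : Z0 (fun a => (X a : NC A R)) := fun a => rfl
  have hw : ∀ u : List A, wordSub (fun a => (X a : NC A R)) u = mon u := by
    intro u
    induction u with
    | nil => exact mon_nil.symm
    | cons a u ih =>
      show X a * wordSub (fun a => (X a : NC A R)) u = _
      rw [ih, X, mon_mul_mon]
      rfl
  ext w
  rw [subst_apply hX f w le_rfl, eq_sum_mon f w.length le_rfl, finsetSum_apply]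
  refine sum_congr rfl fun u _ => ?_
  rw [hw, smul_apply]

theorem subst_wordSub [Fintype A] [Fintype B] {φ : A → NC B R} {ψ : B → NC C R} (hψ : Z0 ψ) (u : List A) :
    subst ψ (wordSub φ u) = wordSub (fun a => subst ψ (φ a)) u := by
  induction u with
  | nil => exact subst_one hψ
  | cons a u ih =>
    show subst ψ (φ a * wordSub φ u) = subst ψ (φ a) * wordSub (fun a => subst ψ (φ a)) u
    rw [subst_mul hψ, ih]

theorem Z0_comp [Fintype B] {φ : A → NC B R} (hφ : Z0 φ) (ψ : B → NC C R) : Z0 fun a => subst ψ (φ a) := by
  intro a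
  show subst ψ (φ a) [] = 0
  rw [subst_nil]
  exact hφ a

/-- composition of substitutions -/
theorem subst_subst [Fintype A] [Fintype B] {φ : A → NC B R} {ψ : B → NC C R} (hφ : Z0 φ) (hψ : Z0 ψ) (f : NC A R) :
    subst ψ (subst φ f) = subst (fun a => subst ψ (φ a)) f := by
  ext w
  rw [subst_apply hψ _ w le_rfl, subst_apply (Z0_comp hφ ψ) f w le_rfl]
  have h1 : ∀ v ∈ wds B w.length, subst φ f v * wordSub ψ v w =
      ∑ u ∈ wds A w.length, f u * (wordSub φ u v * wordSub ψ v w) := by
    intro v hv
    rw [subst_apply hφ f v (mem_wds.1 hv), sum_mul]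
    exact sum_congr rfl fun u _ => by ring
  rw [sum_congr rfl h1, sum_comm]
  refine sum_congr rfl fun u _ => ?_
  rw [← mul_sum, ← subst_wordSub hψ, subst_apply hψ _ w le_rfl]

/-- linear part of a composition -/
theorem lin_comp [Fintype A] [Fintype B] [DecidableEq B] {φ : A → NC B R} {ψ : B → NC C R} (hφ : Z0 φ) (hψ : Z0 ψ) :
    lin (fun a => subst ψ (φ a)) = lin φ * lin ψ := by
  ext a c
  rw [Matrix.mul_apply]
  show subst ψ (φ a) [c] = ∑ b, φ a [b] * ψ b [c]
  unfold subst
  rw [List.length_singleton, sum_range_succ, sum_range_one]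
  have h0 : ∑ u : Fin 0 → B, φ a (List.ofFn u) * wordSub ψ (List.ofFn u) [c] = 0 := by
    refine sum_eq_zero fun u _ => ?_
    rw [List.ofFn_zero, hφ a, zero_mul]
  rw [h0, zero_add]
  refine Fintype.sum_equiv (Equiv.funUnique (Fin 1) B) _ _ fun u => ?_
  have hu : List.ofFn u = [u 0] := by simp
  rw [hu, wordSub_single]
  rfl

/-- relabelling of letters: the coefficients -/
theorem subst_relabel [Fintype A] [DecidableEq A] [DecidableEq B] (e : A ≃ B) (f : NC A R) (w : List B) :
    subst (fun a => X (e a)) f w = f (w.map e.symm) := by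
  have hX : Z0 (fun a => (X (e a) : NC B R)) := fun a => rfl
  have hw : ∀ u : List A, wordSub (fun a => (X (e a) : NC B R)) u = mon (u.map e) := by
    intro u
    induction u with
    | nil => exact mon_nil.symm
    | cons a u ih =>
      show X (e a) * wordSub (fun a => (X (e a) : NC B R)) u = _
      rw [ih, X, mon_mul_mon]
      rfl
  have h1 : (w.map e.symm).map e = w := by
    rw [List.map_map, Equiv.self_comp_symm, List.map_id]
  rw [subst_apply hX f w le_rfl, sum_eq_single (w.map e.symm)]
  · rw [hw, h1, mon, if_pos rfl, mul_one]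
  · intro u _ hu
    rw [hw, mon, if_neg, mul_zero]
    rintro rfl
    apply hu
    rw [List.map_map, Equiv.symm_comp_self, List.map_id]
  · intro h
    exact absurd (mem_wds.2 (by rw [List.length_map])) h

end Cea.N
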