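import Pool.Agent.Lib.MP_cea156_al.N.A1

/-! A3: fixed points of operators which are contractions for the length of words. Define `f w` by well-founded recursion
on the length of `w`: `f w = F (fun u => if u.length < w.length then f u else default) w`. -/

set_option autoImplicit false

namespace Cea.N

theorem A3_agree {A M : Type} (F : (List A → M) → List A → M)
    (hF : ∀ (f g : List A → M) (w : List A), (∀ u, u.length < w.length → f u = g u) → F f w = F g w)
    (d : List A → M) : ∀ (n : ℕ) (w : List A), w.length = n → ∀ k l, n < k → n < l →
      F^[k] d w = F^[l] d w := by
  intro n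
  induction n using Nat.strong_induction_on with
  | _ n ih =>
    intro w hw k l hk hl
    obtain ⟨k', rfl⟩ : ∃ k', k = k' + 1 := ⟨k - 1, by omega⟩
    obtain ⟨l', rfl⟩ : ∃ l', l = l' + 1 := ⟨l - 1, by omega⟩
    rw [Function.iterate_succ_apply', Function.iterate_succ_apply']
    apply hF
    intro u hu
    exact ih u.length (by omega) u rfl k' l' (by omega) (by omega)

theorem exists_fix {A M : Type} [Inhabited M] (F : (List A → M) → List A → M)
    (hF : ∀ (f g : List A → M) (w : List A), (∀ u, u.length < w.length → f u = g u) → F f w = F g w) :
    ∃ f, F f = f := by
  refine ⟨fun w => F^[w.length + 1] (fun _ => default) w, ?_⟩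
  funext w
  rw [Function.iterate_succ_apply']
  apply hF
  intro u hu
  exact A3_agree F hF _ u.length u rfl _ _ (by omega) (by omega)

/-- the fixed point is unique -/
theorem fix_unique {A M : Type} (F : (List A → M) → List A → M)
    (hF : ∀ (f g : List A → M) (w : List A), (∀ u, u.length < w.length → f u = g u) → F f w = F g w)
    {f g : List A → M} (hf : F f = f) (hg : F g = g) : f = g := by
  have key : ∀ (n : ℕ) (w : List A), w.length = n → f w = g w := by
    intro n
    induction n using Nat.strong_induction_on with
    | _ n ih =>
      intro w hw
      have h := hF f g w (fun u hu => ih u.length (by omega) u rfl)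
      rwa [hf, hg] at h
  funext w
  exact key w.length w rfl

end Cea.N
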