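import Pool.Agent.Lib.MP_cea156_al.N.A2
import Pool.Agent.Lib.MP_cea156_al.N.A3

/-! A4: inverse of a substitution with invertible linear part. Let `φ⁺ a = φ a - ∑_b φ a [b] X b` (length `≥ 2`).
Left inverse: solve `ψ b = ∑_a N a b (X a - subst ψ° (φ⁺ a))`, where `ψ°` is `ψ` with the constant terms replaced by `0`, by
`exists_fix` with `M = B → R` (contraction by `subst_congr_short`). Then `subst ψ (φ a) = X a`. Apply this again to `ψ`
(linear part `N`): `χ` with `subst χ (ψ b) = X b`; by `subst_subst`, `χ = φ`. -/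

set_option autoImplicit false

namespace Cea.N

open Finset

variable {A B R : Type} [CommRing R] [Fintype A] [DecidableEq A] [Fintype B] [DecidableEq B]

/-- the part of length at least two -/
def A4_plus (φ : A → NC B R) (a : A) : NC B R := φ a - ∑ b, φ a [b] • (X b : NC B R)

theorem A4_X_nil (b : B) : (X b : NC B R) [] = 0 := by
  show (if ([] : List B) = [b] then (1 : R) else 0) = 0
  rw [if_neg (by simp)]

theorem A4_X_single (b c : B) : (X b : NC B R) [c] = if c = b then 1 else 0 := by
  show (if [c] = [b] then (1 : R) else 0) = _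
  by_cases h : c = b
  · rw [if_pos h, if_pos (by rw [h])]
  · rw [if_neg h, if_neg (by simpa using h)]

theorem A4_len {φ : A → NC B R} (hφ : Z0 φ) (a : A) : Len 2 (A4_plus φ a) := by
  intro w hw
  by_contra hlt
  apply hw
  have hs : ∀ w : List B, (∑ b, φ a [b] • (X b : NC B R)) w = ∑ b, φ a [b] * (X b : NC B R) w := by
    intro w
    rw [finsetSum_apply]
    rfl
  match w, hlt with
  | [], _ =>
    show φ a [] - (∑ b, φ a [b] • (X b : NC B R)) [] = 0
    rw [hs, hφ a, zero_sub, neg_eq_zero]
    exact sum_eq_zero fun b _ => by rw [A4_X_nil, mul_zero]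
  | [c], _ =>
    show φ a [c] - (∑ b, φ a [b] • (X b : NC B R)) [c] = 0
    rw [hs, sub_eq_zero]
    simp only [A4_X_single, mul_ite, mul_one, mul_zero, sum_ite_eq, mem_univ, if_true]
  | c :: d :: w, h => exact absurd (by simp) h

theorem exists_left_inv {φ : A → NC B R} (hφ : Z0 φ) {N : Matrix B A R} (h1 : lin φ * N = 1) (h2 : N * lin φ = 1) :
    ∃ ψ : B → NC A R, Z0 ψ ∧ (∀ a, subst ψ (φ a) = X a) ∧ lin ψ = N := by
  classical
  let z : (List A → B → R) → B → NC A R := fun ψ b w => if w = [] then 0 else ψ w b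
  have hz : ∀ ψ, Z0 (z ψ) := fun ψ b => if_pos rfl
  let F : (List A → B → R) → List A → B → R := fun ψ w b =>
    ∑ a, N b a * ((X a : NC A R) w - subst (z ψ) (A4_plus φ a) w)
  have hF : ∀ (f g : List A → B → R) (w : List A), (∀ u, u.length < w.length → f u = g u) → F f w = F g w := by
    intro f g w h
    funext b
    refine sum_congr rfl fun a _ => ?_
    rw [subst_congr_short (hz f) (hz g) (A4_len hφ a) (w := w) fun b u hu => ?_]
    show (if u = [] then 0 else f u b) = if u = [] then 0 else g u b
    rw [h u hu]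
  haveI : Inhabited (B → R) := ⟨fun _ => 0⟩
  obtain ⟨f, hf⟩ := exists_fix F hF
  have hf' : ∀ w b, f w b = ∑ a, N b a * ((X a : NC A R) w - subst (z f) (A4_plus φ a) w) := fun w b => by
    conv_lhs => rw [← hf]
  have h0 : ∀ b, f [] b = 0 := by
    intro b
    rw [hf']
    refine sum_eq_zero fun a _ => ?_
    rw [A4_X_nil, subst_nil]
    have : A4_plus φ a [] = 0 := by
      by_contra hne
      exact absurd (A4_len hφ a [] hne) (by simp)
    rw [this, sub_zero, mul_zero]
  set ψ : B → NC A R := fun b w => f w b with hψ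
  have hzf : z f = ψ := by
    funext b w
    show (if w = [] then 0 else f w b) = f w b
    by_cases hw : w = []
    · rw [if_pos hw, hw, h0]
    · rw [if_neg hw]
  have hψ0 : Z0 ψ := h0
  rw [hzf] at hf'
  have hfix : ∀ b, ψ b = ∑ a, N b a • ((X a : NC A R) - subst ψ (A4_plus φ a)) := by
    intro b
    ext w
    rw [finsetSum_apply]
    exact hf' w b
  have key : ∀ a, subst ψ (φ a) = X a := by
    intro a
    have e : φ a = ∑ b, φ a [b] • (X b : NC B R) + A4_plus φ a := by
      unfold A4_plus
      abel
    have e1 : ∑ b, φ a [b] • ψ b = X a - subst ψ (A4_plus φ a) := by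
      have e2 : ∀ b, φ a [b] • ψ b = ∑ a', (lin φ a b * N b a') • ((X a' : NC A R) - subst ψ (A4_plus φ a')) := by
        intro b
        rw [hfix b, smul_sum]
        refine sum_congr rfl fun a' _ => ?_
        rw [smul_smul]
        rfl
      rw [sum_congr rfl fun b _ => e2 b, sum_comm]
      have e3 : ∀ a', ∑ b, (lin φ a b * N b a') • ((X a' : NC A R) - subst ψ (A4_plus φ a')) =
          (if a = a' then (1 : R) else 0) • ((X a' : NC A R) - subst ψ (A4_plus φ a')) := by
        intro a'
        rw [← sum_smul]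
        congr 1
        have := congrFun (congrFun h1 a) a'
        rw [Matrix.mul_apply, Matrix.one_apply] at this
        exact this
      rw [sum_congr rfl fun a' _ => e3 a']
      simp only [ite_smul, one_smul, zero_smul, sum_ite_eq, mem_univ, if_true]
    calc subst ψ (φ a) = subst ψ (∑ b, φ a [b] • (X b : NC B R) + A4_plus φ a) := by rw [← e]
      _ = ∑ b, φ a [b] • ψ b + subst ψ (A4_plus φ a) := by
        rw [subst_add, subst_sum]
        congr 1
        refine sum_congr rfl fun b _ => ?_
        rw [subst_smul, subst_X hψ0]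
      _ = X a := by rw [e1]; abel
  refine ⟨ψ, hψ0, key, ?_⟩
  ext b a
  show ψ b [a] = N b a
  have : f [a] b = N b a := by
    rw [hf']
    have e : ∀ a', (X a' : NC A R) [a] - subst ψ (A4_plus φ a') [a] = if a = a' then 1 else 0 := by
      intro a'
      have h3 : subst ψ (A4_plus φ a') [a] = 0 := by
        by_contra hne
        exact absurd (len_subst hψ0 (A4_len hφ a') [a] hne) (by simp)
      rw [h3, sub_zero, A4_X_single]
    simp only [e, mul_ite, mul_one, mul_zero, sum_ite_eq, mem_univ, if_true]
  exact this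

theorem exists_inv {φ : A → NC B R} (hφ : Z0 φ) {N : Matrix B A R} (h1 : lin φ * N = 1) (h2 : N * lin φ = 1) :
    ∃ ψ : B → NC A R, Z0 ψ ∧ (∀ a, subst ψ (φ a) = X a) ∧ (∀ b, subst φ (ψ b) = X b) ∧ lin ψ = N := by
  obtain ⟨ψ, hψ, hl, hN⟩ := exists_left_inv hφ h1 h2
  obtain ⟨χ, hχ, hl', -⟩ := exists_left_inv (N := lin φ) hψ (by rw [hN]; exact h2) (by rw [hN]; exact h1)
  have e : ∀ a, χ a = φ a := by
    intro a
    calc χ a = subst χ (X a) := (subst_X hχ a).symm
      _ = subst χ (subst ψ (φ a)) := by rw [hl a]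
      _ = subst (fun b => subst χ (ψ b)) (φ a) := subst_subst hψ hχ _
      _ = subst (fun b => (X b : NC B R)) (φ a) := by
        congr 1
        funext b
        exact hl' b
      _ = φ a := subst_id _
  have e' : χ = φ := funext e
  rw [e'] at hl'
  exact ⟨ψ, hψ, hl, hl', hN⟩

end Cea.N
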