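import Pool.Agent.Lib.MP_cea156_al.N.A2

/-! A6a: cyclic sums, elementary rules. -/

set_option autoImplicit false

namespace Cea.N

open Finset

variable {A B R : Type} [CommRing R]

theorem cyc_add (f g : NC A R) : cyc (f + g) = cyc f + cyc g := by
  ext w
  rw [add_apply]
  unfold cyc
  rw [← sum_add_distrib]
  exact sum_congr rfl fun k _ => add_apply _ _ _

theorem cyc_sub (f g : NC A R) : cyc (f - g) = cyc f - cyc g := by
  ext w
  rw [sub_apply]
  unfold cyc
  rw [← sum_sub_distrib]
  exact sum_congr rfl fun k _ => sub_apply _ _ _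

theorem cyc_neg (f : NC A R) : cyc (-f) = -cyc f := by
  ext w
  rw [neg_apply]
  unfold cyc
  rw [← sum_neg_distrib]
  exact sum_congr rfl fun k _ => neg_apply _ _

theorem cyc_zero : cyc (0 : NC A R) = 0 := by
  ext w
  exact sum_eq_zero fun k _ => zero_apply _

theorem cyc_smul (r : R) (f : NC A R) : cyc (r • f) = r • cyc f := by
  ext w
  rw [smul_apply]
  unfold cyc
  rw [mul_sum]
  exact sum_congr rfl fun k _ => smul_apply _ _ _

theorem cyc_sum {ι : Type} (s : Finset ι) (f : ι → NC A R) : cyc (∑ i ∈ s, f i) = ∑ i ∈ s, cyc (f i) := by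
  classical
  induction s using Finset.induction_on with
  | empty => rw [sum_empty, sum_empty, cyc_zero]
  | insert a s ha ih => rw [sum_insert ha, sum_insert ha, cyc_add, ih]

theorem cyc_nil (f : NC A R) : cyc f [] = 0 := rfl

theorem cyc_rotate (f : NC A R) (w : List A) (n : ℕ) : cyc f (w.rotate n) = cyc f w := by
  have key : ∀ m : ℕ, ∑ k ∈ range w.length, f (w.rotate (m + k)) = ∑ k ∈ range w.length, f (w.rotate k) := by
    intro m
    induction m with
    | zero => exact sum_congr rfl fun k _ => by rw [Nat.zero_add]
    | succ m ih =>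
      rw [← ih]
      have h1 : ∑ k ∈ range (w.length + 1), f (w.rotate (m + k)) =
          ∑ k ∈ range w.length, f (w.rotate (m + 1 + k)) + f (w.rotate m) := by
        rw [sum_range_succ']
        refine congrArg₂ (· + ·) (sum_congr rfl fun k _ => ?_) rfl
        rw [show m + (k + 1) = m + 1 + k by omega]
      have h2 : ∑ k ∈ range (w.length + 1), f (w.rotate (m + k)) =
          ∑ k ∈ range w.length, f (w.rotate (m + k)) + f (w.rotate m) := by
        rw [sum_range_succ]
        refine congrArg₂ (· + ·) rfl ?_
        rw [← List.rotate_mod w (m + w.length), Nat.add_mod_right, List.rotate_mod]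
      exact add_right_cancel (h1.symm.trans h2)
  show ∑ k ∈ range (w.rotate n).length, f ((w.rotate n).rotate k) = ∑ k ∈ range w.length, f (w.rotate k)
  rw [List.length_rotate, ← key n]
  exact sum_congr rfl fun k _ => by rw [List.rotate_rotate]

/-- the cyclic sum of a product, first letter by first letter -/
theorem cyc_apply_cons (f : NC A R) (a : A) (w : List A) :
    cyc f (a :: w) = ∑ k ∈ range (w.length + 1), f (w.drop k ++ a :: w.take k) := by
  show ∑ k ∈ range (a :: w).length, f ((a :: w).rotate k) = _
  rw [List.length_cons, sum_range_succ', sum_range_succ]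
  refine congrArg₂ (· + ·) (sum_congr rfl fun k hk => ?_) ?_
  · have hk' : k + 1 ≤ (a :: w).length := by
      have := mem_range.1 hk
      rw [List.length_cons]
      omega
    rw [List.rotate_eq_drop_append_take hk', List.drop_succ_cons, List.take_succ_cons]
  · rw [List.rotate_zero, List.drop_length, List.take_length, List.nil_append]

theorem cyc_cyc [Algebra ℚ R] (f : NC A R) (w : List A) : cyc (cyc f) w = (w.length : R) * cyc f w := by
  show ∑ k ∈ range w.length, cyc f (w.rotate k) = _
  rw [sum_congr rfl fun k _ => cyc_rotate f w k, sum_const, card_range, nsmul_eq_mul]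

theorem len_cyc {n : ℕ} {f : NC A R} (hf : Len n f) : Len n (cyc f) := by
  intro w hw
  obtain ⟨k, _, hk⟩ := exists_ne_zero_of_sum_ne_zero (s := range w.length) (f := fun k => f (w.rotate k)) hw
  have := hf _ hk
  rwa [List.length_rotate] at this

theorem der_congr {f g : NC A R} (h : cyc f = cyc g) (a : A) : der a f = der a g := by
  unfold der
  rw [h]

theorem der_nil (a : A) (f : NC A R) : der a f [] = f [a] := by
  show ∑ k ∈ range ([a] : List A).length, f (([a] : List A).rotate k) = f [a]
  rw [List.length_singleton, range_one, sum_singleton, List.rotate_zero]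

end Cea.N
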