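import Pool.Agent.Lib.MP_cea156_al.N.A2
import Pool.Agent.Lib.MP_cea156_al.N.A6a

/-! A5a: supports of series on paths. Hints: `Sup_wordSub` by induction on the path; `Sup_subst` by `subst_apply`. -/

set_option autoImplicit false

namespace Cea.N

open Finset

variable {V R : Type} [DecidableEq V] [CommRing R]

theorem isPath_append (Q : Quiv V) (i j : V) (u v : List Q.A) :
    Q.IsPath i (u ++ v) j ↔ ∃ l, Q.IsPath i u l ∧ Q.IsPath l v j := by
  induction u generalizing i with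
  | nil =>
    constructor
    · intro h
      exact ⟨i, rfl, h⟩
    · rintro ⟨l, h1, h2⟩
      have h1' : i = l := h1
      subst h1'
      exact h2
  | cons a u ih =>
    constructor
    · intro h
      have h' : Q.s a = i ∧ Q.IsPath (Q.t a) (u ++ v) j := h
      obtain ⟨l, h1, h2⟩ := (ih (Q.t a)).1 h'.2
      exact ⟨l, ⟨h'.1, h1⟩, h2⟩
    · rintro ⟨l, h1, h2⟩
      have h1' : Q.s a = i ∧ Q.IsPath (Q.t a) u l := h1
      have h3 : Q.IsPath (Q.t a) (u ++ v) j := (ih (Q.t a)).2 ⟨l, h1'.2, h2⟩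
      exact ⟨h1'.1, h3⟩

/-- the end of a path is determined by its beginning -/
theorem isPath_right (Q : Quiv V) {i j j' : V} {w : List Q.A} (h : Q.IsPath i w j) (h' : Q.IsPath i w j') : j = j' := by
  induction w generalizing i with
  | nil =>
    have h1 : i = j := h
    have h2 : i = j' := h'
    rw [← h1, ← h2]
  | cons a w ih =>
    have h1 : Q.s a = i ∧ Q.IsPath (Q.t a) w j := h
    have h2 : Q.s a = i ∧ Q.IsPath (Q.t a) w j' := h'
    exact ih h1.2 h2.2

/-- the ends of a nonempty path are determined by the path -/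
theorem isPath_left (Q : Quiv V) {i j i' j' : V} {w : List Q.A} (hw : w ≠ []) (h : Q.IsPath i w j)
    (h' : Q.IsPath i' w j') : i = i' ∧ j = j' := by
  cases w with
  | nil => exact absurd rfl hw
  | cons a w =>
    have h1 : Q.s a = i ∧ Q.IsPath (Q.t a) w j := h
    have h2 : Q.s a = i' ∧ Q.IsPath (Q.t a) w j' := h'
    exact ⟨h1.1.symm.trans h2.1, isPath_right Q h1.2 h2.2⟩

/-- a rotation of a cycle is a cycle -/
theorem isCycle_rotate (Q : Quiv V) {w : List Q.A} (h : Q.IsCycle w) (n : ℕ) : Q.IsCycle (w.rotate n) := by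
  obtain ⟨hne, i, hi⟩ := h
  refine ⟨fun h0 => hne (List.rotate_eq_nil_iff.1 h0), ?_⟩
  rw [List.rotate_eq_drop_append_take_mod]
  rw [← List.take_append_drop (n % w.length) w] at hi
  obtain ⟨l, h1, h2⟩ := (isPath_append Q i i _ _).1 hi
  exact ⟨l, (isPath_append Q l l _ _).2 ⟨i, h2, h1⟩⟩

theorem Sup_mul {Q : Quiv V} {i j l : V} {f g : NC Q.A R} (hf : Sup Q i j f) (hg : Sup Q j l g) : Sup Q i l (f * g) := by
  intro w hw
  rw [mul_apply] at hw
  obtain ⟨k, _, hk⟩ := Finset.exists_ne_zero_of_sum_ne_zero hw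
  have h1 : f (w.take k) ≠ 0 := left_ne_zero_of_mul hk
  have h2 : g (w.drop k) ≠ 0 := right_ne_zero_of_mul hk
  have h3 := (isPath_append Q i l (w.take k) (w.drop k)).2 ⟨j, hf _ h1, hg _ h2⟩
  rwa [List.take_append_drop] at h3

theorem Sup_add {Q : Quiv V} {i j : V} {f g : NC Q.A R} (hf : Sup Q i j f) (hg : Sup Q i j g) : Sup Q i j (f + g) := by
  intro w hw
  rw [add_apply] at hw
  by_cases h : f w = 0
  · refine hg w fun h' => hw ?_
    rw [h, h', add_zero]
  · exact hf w h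

theorem Sup_neg {Q : Quiv V} {i j : V} {f : NC Q.A R} (hf : Sup Q i j f) : Sup Q i j (-f) := by
  intro w hw
  rw [neg_apply] at hw
  exact hf w fun h => hw (by rw [h, neg_zero])

theorem Sup_sum {Q : Quiv V} {i j : V} {ι : Type} (s : Finset ι) {f : ι → NC Q.A R} (hf : ∀ k ∈ s, Sup Q i j (f k)) :
    Sup Q i j (∑ k ∈ s, f k) := by
  intro w hw
  rw [finsetSum_apply] at hw
  obtain ⟨k, hk, h⟩ := Finset.exists_ne_zero_of_sum_ne_zero hw
  exact hf k hk w h

theorem Sup_one (Q : Quiv V) (i : V) : Sup Q i i (1 : NC Q.A R) := by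
  intro w hw
  cases w with
  | nil => exact rfl
  | cons a w => exact absurd (one_cons a w) hw

theorem Sup_X (Q : Quiv V) (a : Q.A) : Sup Q (Q.s a) (Q.t a) (X a : NC Q.A R) := by
  intro w hw
  by_cases h : w = [a]
  · rw [h]
    exact ⟨rfl, rfl⟩
  · exact absurd (if_neg h) hw

/-- path supported substitutions -/
def PS (Q Q' : Quiv V) (φ : Q.A → NC Q'.A R) : Prop := ∀ a, Sup Q' (Q.s a) (Q.t a) (φ a)

theorem Sup_wordSub {Q Q' : Quiv V} {φ : Q.A → NC Q'.A R} (hφ : PS Q Q' φ) {i j : V} {u : List Q.A}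
    (hu : Q.IsPath i u j) : Sup Q' i j (wordSub φ u) := by
  induction u generalizing i with
  | nil =>
    have h : i = j := hu
    subst h
    exact Sup_one Q' i
  | cons a u ih =>
    have h : Q.s a = i ∧ Q.IsPath (Q.t a) u j := hu
    have h1 : Sup Q' (Q.s a) j (φ a * wordSub φ u) := Sup_mul (hφ a) (ih h.2)
    rw [h.1] at h1
    exact h1

theorem Sup_subst {Q Q' : Quiv V} {φ : Q.A → NC Q'.A R} (hz : Z0 φ) (hφ : PS Q Q' φ) {i j : V} {f : NC Q.A R}
    (hf : Sup Q i j f) : Sup Q' i j (subst φ f) := by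
  intro w hw
  rw [subst_apply hz f w le_rfl] at hw
  obtain ⟨u, _, h⟩ := Finset.exists_ne_zero_of_sum_ne_zero hw
  exact Sup_wordSub hφ (hf u (left_ne_zero_of_mul h)) w (right_ne_zero_of_mul h)

theorem Pot_subst {Q Q' : Quiv V} {φ : Q.A → NC Q'.A R} (hz : Z0 φ) (hφ : PS Q Q' φ) {W : NC Q.A R} (hW : Pot Q W) :
    Pot Q' (subst φ W) := by
  intro w hw
  have hw0 := hw
  rw [subst_apply hz W w le_rfl] at hw
  obtain ⟨u, _, h⟩ := Finset.exists_ne_zero_of_sum_ne_zero hw
  obtain ⟨hne, i, hi⟩ := hW u (left_ne_zero_of_mul h)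
  refine ⟨?_, i, Sup_wordSub hφ hi w (right_ne_zero_of_mul h)⟩
  intro hnil
  apply hw0
  rw [hnil, subst_nil]
  by_contra h0
  exact (hW [] h0).1 rfl

theorem Pot_cyc {Q : Quiv V} {W : NC Q.A R} (hW : Pot Q W) : Pot Q (cyc W) := by
  intro w hw
  obtain ⟨k, hk, h⟩ := Finset.exists_ne_zero_of_sum_ne_zero (show ∑ k ∈ range w.length, W (w.rotate k) ≠ 0 from hw)
  have h1 : Q.IsCycle ((w.rotate k).rotate (w.length - k)) := isCycle_rotate Q (hW _ h) _
  rwa [List.rotate_rotate, Nat.add_sub_cancel' (Finset.mem_range.1 hk).le, List.rotate_length] at h1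

end Cea.N
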