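import Pool.Agent.Lib.MP_cea156_al.N.A4
import Pool.Agent.Lib.MP_cea156_al.N.A5a

/-! A5: isomorphisms of complete path algebras. `Iso.inv`: the inverse `ψ` of `exists_inv`, restricted to the words which are nonempty
paths from `s b` to `t b` (call it `ψ'`), also satisfies `subst φ (ψ' b) = X b`: compare the two sides on paths from `s b` to `t b` and on
the other words; hence `ψ b = subst ψ (subst φ (ψ b)) = subst ψ (subst φ (ψ' b)) = ψ' b`. -/

set_option autoImplicit false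

namespace Cea.N

open Finset

variable {V R : Type} [DecidableEq V] [CommRing R]

theorem Iso.z0 {Q Q' : Quiv V} {φ : Q.A → NC Q'.A R} (h : Iso Q Q' φ) : Z0 φ := by
  intro a
  by_contra h0
  exact (h.1 a [] h0).1 rfl

theorem Iso.ps {Q Q' : Quiv V} {φ : Q.A → NC Q'.A R} (h : Iso Q Q' φ) : PS Q Q' φ :=
  fun a w hw => (h.1 a w hw).2

theorem Iso.comp {Q Q' Q'' : Quiv V} {φ : Q.A → NC Q'.A R} {ψ : Q'.A → NC Q''.A R} (h : Iso Q Q' φ) (h' : Iso Q' Q'' ψ) :
    Iso Q Q'' fun a => subst ψ (φ a) := by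
  obtain ⟨N, hN1, hN2⟩ := h.2
  obtain ⟨M, hM1, hM2⟩ := h'.2
  refine ⟨fun a w hw => ⟨?_, Sup_subst h'.z0 h'.ps (h.ps a) w hw⟩, M * N, ?_, ?_⟩
  · rintro rfl
    exact hw ((subst_nil ψ (φ a)).trans (h.z0 a))
  · rw [lin_comp h.z0 h'.z0, Matrix.mul_assoc, ← Matrix.mul_assoc (lin ψ), hM1, Matrix.one_mul, hN1]
  · rw [lin_comp h.z0 h'.z0, Matrix.mul_assoc, ← Matrix.mul_assoc N, hN2, Matrix.one_mul, hM2]

theorem A5_X_ne {A : Type} [DecidableEq A] {a : A} {w : List A} (h : (X a : NC A R) w ≠ 0) : w = [a] := by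
  by_contra hne
  apply h
  show (if w = [a] then (1 : R) else 0) = 0
  rw [if_neg hne]

theorem A5_lin_X {A : Type} [DecidableEq A] : lin (fun a => (X a : NC A R)) = 1 := by
  ext a b
  show (if [b] = [a] then (1 : R) else 0) = (1 : Matrix A A R) a b
  rw [Matrix.one_apply]
  by_cases h : a = b
  · subst h
    rw [if_pos rfl, if_pos rfl]
  · rw [if_neg (fun h' => h (List.cons.inj h').1.symm), if_neg h]

theorem Iso.id (Q : Quiv V) : Iso Q Q (fun a => (X a : NC Q.A R)) := by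
  refine ⟨fun a w hw => ?_, 1, ?_, ?_⟩
  · rw [A5_X_ne hw]
    exact ⟨List.cons_ne_nil _ _, rfl, rfl⟩
  · rw [A5_lin_X, Matrix.one_mul]
  · rw [A5_lin_X, Matrix.one_mul]

/-- a word whose image contains a path is a path with the same ends -/
theorem A5_path {Q Q' : Quiv V} {φ : Q.A → NC Q'.A R}
    (hφ : ∀ a w, φ a w ≠ 0 → w ≠ [] ∧ Q'.IsPath (Q.s a) w (Q.t a)) :
    ∀ (u : List Q.A) (i j : V) (w : List Q'.A), wordSub φ u w ≠ 0 → Q'.IsPath i w j → Q.IsPath i u j := by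
  intro u
  induction u with
  | nil =>
    intro i j w hw hp
    cases w with
    | nil => exact hp
    | cons b w => exact absurd (one_cons b w) hw
  | cons a u ih =>
    intro i j w hw hp
    have h1 : (φ a * wordSub φ u) w ≠ 0 := hw
    rw [mul_apply] at h1
    obtain ⟨k, _, hk⟩ := exists_ne_zero_of_sum_ne_zero h1
    have hk1 : φ a (w.take k) ≠ 0 := left_ne_zero_of_mul hk
    have hk2 : wordSub φ u (w.drop k) ≠ 0 := right_ne_zero_of_mul hk
    rw [← List.take_append_drop k w, isPath_append] at hp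
    obtain ⟨l, hp1, hp2⟩ := hp
    obtain ⟨h3, h4⟩ := hφ a _ hk1
    obtain ⟨h5, h6⟩ := isPath_left Q' h3 h4 hp1
    subst h5
    subst h6
    exact ⟨rfl, ih _ _ _ hk2 hp2⟩

/-- the inverse of an isomorphism -/
theorem Iso.inv {Q Q' : Quiv V} {φ : Q.A → NC Q'.A R} (h : Iso Q Q' φ) :
    ∃ ψ : Q'.A → NC Q.A R, Iso Q' Q ψ ∧ (∀ a, subst ψ (φ a) = X a) ∧ (∀ b, subst φ (ψ b) = X b) ∧
      lin φ * lin ψ = 1 ∧ lin ψ * lin φ = 1 := by
  classical
  obtain ⟨N, hN1, hN2⟩ := h.2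
  obtain ⟨ψ, hz, h1, h2, h3⟩ := exists_inv h.z0 hN1 hN2
  have hinv : ∀ f : NC Q.A R, subst ψ (subst φ f) = f := by
    intro f
    rw [subst_subst h.z0 hz]
    have e : (fun a => subst ψ (φ a)) = fun a => (X a : NC Q.A R) := funext h1
    rw [e, subst_id]
  let ψ' : Q'.A → NC Q.A R := fun b w => if Q.IsPath (Q'.s b) w (Q'.t b) then ψ b w else 0
  have hψ' : ∀ b, Sup Q (Q'.s b) (Q'.t b) (ψ' b) := by
    intro b w hw
    by_contra hn
    exact hw (if_neg hn)
  have h4 : ∀ b, subst φ (ψ' b) = X b := by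
    intro b
    have hsup : Sup Q' (Q'.s b) (Q'.t b) (subst φ (ψ' b)) := Sup_subst h.z0 h.ps (hψ' b)
    ext w
    by_cases hw : Q'.IsPath (Q'.s b) w (Q'.t b)
    · rw [← h2 b, subst_apply h.z0 _ w le_rfl, subst_apply h.z0 _ w le_rfl]
      refine sum_congr rfl fun u _ => ?_
      by_cases hu : wordSub φ u w = 0
      · rw [hu, mul_zero, mul_zero]
      · have h5 : Q.IsPath (Q'.s b) u (Q'.t b) := A5_path h.1 u _ _ w hu hw
        have h6 : ψ' b u = ψ b u := if_pos h5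
        rw [h6]
    · have e1 : subst φ (ψ' b) w = 0 := by
        by_contra hne
        exact hw (hsup w hne)
      have e2 : (X b : NC Q'.A R) w = 0 := by
        by_contra hne
        apply hw
        rw [A5_X_ne hne]
        exact ⟨rfl, rfl⟩
      rw [e1, e2]
  have h5 : ∀ b, ψ b = ψ' b := by
    intro b
    rw [← hinv (ψ b), ← hinv (ψ' b), h2, h4]
  refine ⟨ψ, ⟨fun b w hw => ⟨?_, ?_⟩, lin φ, ?_, ?_⟩, h1, h2, ?_, ?_⟩
  · rintro rfl
    exact hw (hz b)
  · rw [h5] at hw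
    exact hψ' b w hw
  · rw [h3, hN2]
  · rw [h3, hN1]
  · rw [h3, hN1]
  · rw [h3, hN2]

/-- the ideal substitutions: identity plus terms of length at least two -/
theorem Iso_of_id_add {Q : Quiv V} {φ : Q.A → NC Q.A R} (hφ : PS Q Q φ) (hl : ∀ a, Len 2 (φ a - X a)) : Iso Q Q φ := by
  have hs : ∀ a (w : List Q.A), w.length < 2 → φ a w = (X a : NC Q.A R) w := by
    intro a w hw
    by_contra hne
    have h1 : (φ a - X a : NC Q.A R) w ≠ 0 := by
      rw [sub_apply]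
      exact sub_ne_zero.2 hne
    have h2 := hl a w h1
    omega
  have hlin : lin φ = 1 := by
    rw [← A5_lin_X]
    ext a b
    exact hs a [b] (by simp)
  refine ⟨fun a w hw => ⟨?_, hφ a w hw⟩, 1, ?_, ?_⟩
  · rintro rfl
    apply hw
    rw [hs a [] (by simp)]
    by_contra h0
    exact List.cons_ne_nil _ _ (A5_X_ne h0).symm
  · rw [hlin, Matrix.one_mul]
  · rw [hlin, Matrix.one_mul]

end Cea.N
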