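import Pool.Agent.Lib.MP_cea156_al.N.A6a

/-! A6: cyclic sums. `cyc_mul_comm`: split the rotations of `w` by the two factors. `cyc_subst_congr`: with `h = f - g`, `cyc h = 0`:
`cyc (subst φ h) w = ∑_{u ∈ wds |w|} h u * cyc (wordSub φ u) w`, and `cyc (wordSub φ (u.rotate k)) = cyc (wordSub φ u)`; for words of
length `m` average over the `m` rotations of `u` (`R` is a `ℚ`-algebra). -/

set_option autoImplicit false

namespace Cea.N

open Finset

variable {A B R : Type} [CommRing R]

theorem A6_cyc_apply (f : NC A R) (w : List A) : cyc f w = ∑ k ∈ range w.length, f (w.rotate k) := rfl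

theorem cyc_mul_comm (f g : NC A R) : cyc (f * g) = cyc (g * f) := by
  ext w
  rw [A6_cyc_apply, A6_cyc_apply]
  simp only [mul_apply, List.length_rotate]
  rw [sum_comm, sum_comm (s := range w.length) (t := range (w.length + 1))]
  rw [← sum_range_reflect (fun j => ∑ k ∈ range w.length, g ((w.rotate k).take j) * f ((w.rotate k).drop j))]
  refine sum_congr rfl fun j hj => ?_
  have hj' : j ≤ w.length := by
    have := mem_range.1 hj
    omega
  set F : NC A R := fun v => g (v.take (w.length + 1 - 1 - j)) * f (v.drop (w.length + 1 - 1 - j)) with hF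
  have h1 : ∑ k ∈ range w.length, g ((w.rotate k).take (w.length + 1 - 1 - j)) * f ((w.rotate k).drop (w.length + 1 - 1 - j)) =
      cyc F w := rfl
  rw [h1, ← cyc_rotate F w j, A6_cyc_apply, List.length_rotate]
  refine sum_congr rfl fun k _ => ?_
  have h2 : (w.rotate j).rotate k = (w.rotate k).rotate j := by
    rw [List.rotate_rotate, List.rotate_rotate, add_comm]
  rw [h2]
  have hlen : (w.rotate k).length = w.length := List.length_rotate ..
  have h3 : (w.rotate k).rotate j = (w.rotate k).drop j ++ (w.rotate k).take j :=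
    List.rotate_eq_drop_append_take (by rw [hlen]; exact hj')
  have h4 : ((w.rotate k).drop j).length = w.length + 1 - 1 - j := by
    rw [List.length_drop, hlen]
    omega
  rw [h3]
  show _ = g (((w.rotate k).drop j ++ (w.rotate k).take j).take (w.length + 1 - 1 - j)) *
    f (((w.rotate k).drop j ++ (w.rotate k).take j).drop (w.length + 1 - 1 - j))
  rw [List.take_left' h4, List.drop_left' h4, mul_comm]

/-- the words of length `m` -/
noncomputable def A6_L (A : Type) [Fintype A] (m : ℕ) : Finset (List A) :=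
  (univ : Finset (Fin m → A)).map ⟨List.ofFn, List.ofFn_injective⟩

theorem A6_mem_L [Fintype A] {m : ℕ} {w : List A} : w ∈ A6_L A m ↔ w.length = m := by
  unfold A6_L
  rw [mem_map]
  constructor
  · rintro ⟨u, _, rfl⟩
    exact List.length_ofFn
  · rintro rfl
    exact ⟨w.get, mem_univ _, List.ofFn_get w⟩

theorem A6_sum_L [Fintype A] {m : ℕ} (F : List A → R) : ∑ u : Fin m → A, F (List.ofFn u) = ∑ w ∈ A6_L A m, F w := by
  unfold A6_L
  rw [sum_map]
  rfl

theorem A6_sum_rot [Fintype A] {m : ℕ} (hm : 1 ≤ m) (F : List A → R) (k : ℕ) :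
    ∑ w ∈ A6_L A m, F (w.rotate k) = ∑ w ∈ A6_L A m, F w := by
  have hk : k ≤ m * k := Nat.le_mul_of_pos_left k hm
  refine sum_nbij' (fun w => w.rotate k) (fun w => w.rotate (m * k - k)) ?_ ?_ ?_ ?_ ?_
  · intro w hw
    rw [A6_mem_L] at hw ⊢
    rw [List.length_rotate, hw]
  · intro w hw
    rw [A6_mem_L] at hw ⊢
    rw [List.length_rotate, hw]
  · intro w hw
    rw [A6_mem_L] at hw
    show (w.rotate k).rotate (m * k - k) = w
    rw [List.rotate_rotate, Nat.add_sub_cancel' hk, ← hw, List.rotate_length_mul]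
  · intro w hw
    rw [A6_mem_L] at hw
    show (w.rotate (m * k - k)).rotate k = w
    rw [List.rotate_rotate, Nat.sub_add_cancel hk, ← hw, List.rotate_length_mul]
  · intro w _
    rfl

theorem A6_cyc_wordSub_rot (φ : A → NC B R) (u : List A) (k : ℕ) :
    cyc (wordSub φ (u.rotate k)) = cyc (wordSub φ u) := by
  have h : ∀ v : List A, cyc (wordSub φ (v.rotate 1)) = cyc (wordSub φ v) := by
    intro v
    cases v with
    | nil => rfl
    | cons a v =>
      rw [List.rotate_cons_succ, List.rotate_zero, wordSub_append, wordSub_single, cyc_mul_comm]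
      rfl
  induction k with
  | zero => rw [List.rotate_zero]
  | succ k ih => rw [← List.rotate_rotate, h, ih]

theorem A6_nil (φ : A → NC B R) : cyc (wordSub φ []) = 0 := by
  ext w
  cases w with
  | nil => exact cyc_nil _
  | cons b w =>
    rw [A6_cyc_apply]
    refine sum_eq_zero fun k _ => ?_
    have h : ((b :: w).rotate k) ≠ [] := by
      intro h
      have := congrArg List.length h
      rw [List.length_rotate] at this
      simp at this
    obtain ⟨c, v, hv⟩ := List.exists_cons_of_ne_nil h
    rw [hv]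
    exact one_cons c v

theorem A6_zero [Algebra ℚ R] [Fintype A] {φ : A → NC B R} {h : NC A R} (hc : cyc h = 0) (w : List B) (m : ℕ) :
    ∑ u ∈ A6_L A m, h u * cyc (wordSub φ u) w = 0 := by
  rcases Nat.eq_zero_or_pos m with rfl | hm
  · refine sum_eq_zero fun u hu => ?_
    rw [A6_mem_L, List.length_eq_zero_iff] at hu
    rw [hu, A6_nil, zero_apply, mul_zero]
  have key : (m : R) * ∑ u ∈ A6_L A m, h u * cyc (wordSub φ u) w = 0 := by
    have h1 : (m : R) * ∑ u ∈ A6_L A m, h u * cyc (wordSub φ u) w =
        ∑ k ∈ range m, ∑ u ∈ A6_L A m, h (u.rotate k) * cyc (wordSub φ (u.rotate k)) w := by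
      rw [sum_congr rfl fun k _ => A6_sum_rot hm (fun v => h v * cyc (wordSub φ v) w) k, sum_const, card_range, nsmul_eq_mul]
    rw [h1, sum_comm]
    refine sum_eq_zero fun u hu => ?_
    rw [A6_mem_L] at hu
    have h2 : ∀ k ∈ range m, h (u.rotate k) * cyc (wordSub φ (u.rotate k)) w = h (u.rotate k) * cyc (wordSub φ u) w := by
      intro k _
      rw [A6_cyc_wordSub_rot]
    rw [sum_congr rfl h2, ← sum_mul]
    have h3 : ∑ k ∈ range m, h (u.rotate k) = 0 := by
      rw [← hu, ← A6_cyc_apply, hc, zero_apply]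
    rw [h3, zero_mul]
  have hinv : (algebraMap ℚ R (m : ℚ)⁻¹) * (m : R) = 1 := by
    have h4 : (m : R) = algebraMap ℚ R (m : ℚ) := by rw [map_natCast]
    rw [h4, ← map_mul, inv_mul_cancel₀ (Nat.cast_ne_zero.2 hm.ne'), map_one]
  calc _ = (algebraMap ℚ R (m : ℚ)⁻¹) * (m : R) * ∑ u ∈ A6_L A m, h u * cyc (wordSub φ u) w := by rw [hinv, one_mul]
    _ = 0 := by rw [mul_assoc, key, mul_zero]

theorem cyc_subst_congr [Algebra ℚ R] [Fintype A] {φ : A → NC B R} (hφ : Z0 φ) {f g : NC A R} (h : cyc f = cyc g) :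
    cyc (subst φ f) = cyc (subst φ g) := by
  have h0 : cyc (f - g) = 0 := by rw [cyc_sub, h, sub_self]
  have h1 : cyc (subst φ (f - g)) = 0 := by
    ext w
    rw [A6_cyc_apply, zero_apply]
    have h2 : ∀ k ∈ range w.length, subst φ (f - g) (w.rotate k) =
        ∑ m ∈ range (w.length + 1), ∑ u ∈ A6_L A m, (f - g) u * wordSub φ u (w.rotate k) := by
      intro k _
      have e : subst φ (f - g) (w.rotate k) = ∑ m ∈ range ((w.rotate k).length + 1), ∑ u : Fin m → A,
        (f - g) (List.ofFn u) * wordSub φ (List.ofFn u) (w.rotate k) := rfl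
      rw [e, List.length_rotate]
      exact sum_congr rfl fun m _ => A6_sum_L (fun v => (f - g) v * wordSub φ v (w.rotate k))
    rw [sum_congr rfl h2, sum_comm]
    refine sum_eq_zero fun m _ => ?_
    rw [sum_comm]
    have h3 : ∀ u ∈ A6_L A m, ∑ k ∈ range w.length, (f - g) u * wordSub φ u (w.rotate k) = (f - g) u * cyc (wordSub φ u) w := by
      intro u _
      rw [← mul_sum]
      rfl
    rw [sum_congr rfl h3]
    exact A6_zero h0 w m
  rw [subst_sub, cyc_sub] at h1
  exact sub_eq_zero.1 h1

end Cea.N
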