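import Pool.Agent.Lib.MP_cea156_al.N.A5
import Pool.Agent.Lib.MP_cea156_al.N.A6

/-! A7: right equivalence is an equivalence relation. -/

set_option autoImplicit false

namespace Cea.N

variable {V R : Type} [DecidableEq V] [CommRing R] [Algebra ℚ R]

theorem RE_of_cyc {Q : Quiv V} {W W' : NC Q.A R} (h : cyc W = cyc W') : RE Q Q W W' :=
  ⟨fun a => X a, Iso.id Q, by rw [subst_id, h]⟩

theorem RE.refl {Q : Quiv V} (W : NC Q.A R) : RE Q Q W W := RE_of_cyc rfl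

theorem RE.symm {Q Q' : Quiv V} {W : NC Q.A R} {W' : NC Q'.A R} (h : RE Q Q' W W') : RE Q' Q W' W := by
  obtain ⟨φ, hφ, hW⟩ := h
  obtain ⟨ψ, hψ, h1, -, -, -⟩ := hφ.inv
  refine ⟨ψ, hψ, ?_⟩
  rw [← cyc_subst_congr hψ.z0 hW, subst_subst hφ.z0 hψ.z0]
  have e : (fun a => subst ψ (φ a)) = fun a => (X a : NC Q.A R) := funext h1
  rw [e, subst_id]

theorem RE.trans {Q Q' Q'' : Quiv V} {W : NC Q.A R} {W' : NC Q'.A R} {W'' : NC Q''.A R} (h : RE Q Q' W W')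
    (h' : RE Q' Q'' W' W'') : RE Q Q'' W W'' := by
  obtain ⟨φ, hφ, hW⟩ := h
  obtain ⟨ψ, hψ, hW'⟩ := h'
  refine ⟨fun a => subst ψ (φ a), hφ.comp hψ, ?_⟩
  rw [← subst_subst hφ.z0 hψ.z0, cyc_subst_congr hψ.z0 hW, hW']

/-- a substitution with path support and invertible linear part gives a right equivalence -/
theorem RE_of_iso {Q Q' : Quiv V} {φ : Q.A → NC Q'.A R} (h : Iso Q Q' φ) (W : NC Q.A R) : RE Q Q' W (subst φ W) :=
  ⟨φ, h, rfl⟩

end Cea.N
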