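import Pool.Agent.Lib.MP_cea156_al.N.A6

/-! A8: decomposition of a series, modulo cyclic equivalence, with respect to marked letters `mk i`. Proof of `cyc_dec`: if `w` has
`n > 0` marked letters then `cyc (∑_i X (mk i) * Dec F i) w` is the sum, over the `n` rotations of `w` which start with a marked
letter, of `cyc F (rotation) / n = cyc F w / n`. -/

set_option autoImplicit false

namespace Cea.N

open Finset

variable {A I R : Type} [CommRing R] [Algebra ℚ R]

open Classical in
/-- number of the letters of `w` which are marked -/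
noncomputable def nmk (mk : I → A) (w : List A) : ℕ := (w.filter fun a => decide (∃ i, mk i = a)).length

/-- `Dec F i w = cyc F (mk i :: w) / (number of marked letters)` -/
noncomputable def Dec (mk : I → A) (F : NC A R) (i : I) : NC A R := fun w =>
  algebraMap ℚ R ((nmk mk (mk i :: w) : ℚ)⁻¹) * cyc F (mk i :: w)

theorem A8_X_mul_nil [DecidableEq A] (a : A) (f : NC A R) : (X a * f : NC A R) [] = 0 := by
  rw [mul_nil]
  have h0 : (X a : NC A R) [] = 0 := by
    unfold X mon
    rw [if_neg (by simp)]
  rw [h0, zero_mul]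

theorem A8_X_mul_cons [DecidableEq A] (a b : A) (f : NC A R) (w : List A) :
    (X a * f : NC A R) (b :: w) = if b = a then f w else 0 := by
  rw [mul_cons]
  have h0 : (X a : NC A R) [] = 0 := by
    unfold X mon
    rw [if_neg (by simp)]
  rw [h0, zero_mul, zero_add]
  by_cases h : b = a
  · subst h
    have e : shift b (X b : NC A R) = 1 := by
      ext u
      show (if b :: u = [b] then (1 : R) else 0) = (if u.isEmpty then 1 else 0)
      cases u <;> simp
    rw [e, one_mul', if_pos rfl]
  · have e : shift b (X a : NC A R) = 0 := by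
      ext u
      show (if b :: u = [a] then (1 : R) else 0) = 0
      rw [if_neg (by simp [h])]
    rw [e, zero_mul, if_neg h]
    rfl

open Classical in
theorem A8_nmk_cons (mk : I → A) (a : A) (w : List A) :
    nmk mk (a :: w) = nmk mk w + if ∃ i, mk i = a then 1 else 0 := by
  unfold nmk
  by_cases h : ∃ i, mk i = a
  · rw [List.filter_cons_of_pos (by simpa using h), List.length_cons, if_pos h]
  · rw [List.filter_cons_of_neg (by simpa using h), if_neg h, add_zero]

open Classical in
/-- `1` if the letter is marked -/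
noncomputable def A8_ind (mk : I → A) (o : Option A) : ℕ := if ∃ i, o = some (mk i) then 1 else 0

theorem A8_count (mk : I → A) (w : List A) :
    nmk mk w = ∑ k ∈ range w.length, A8_ind mk w[k]? := by
  classical
  induction w with
  | nil => simp [nmk]
  | cons a w ih =>
    rw [A8_nmk_cons, ih, List.length_cons, sum_range_succ']
    simp only [List.getElem?_cons_succ, List.getElem?_cons_zero]
    congr 1
    unfold A8_ind
    refine if_congr ?_ rfl rfl
    simp only [Option.some.injEq, eq_comm]

theorem A8_nmk_append (mk : I → A) (u v : List A) : nmk mk (u ++ v) = nmk mk u + nmk mk v := by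
  unfold nmk
  rw [List.filter_append, List.length_append]

theorem A8_nmk_rotate (mk : I → A) (w : List A) (n : ℕ) : nmk mk (w.rotate n) = nmk mk w := by
  unfold nmk
  exact ((List.rotate_perm w n).filter _).length_eq

theorem A8_term [DecidableEq A] [Fintype I] {mk : I → A} (hmk : Function.Injective mk) (F : NC A R) (v : List A) :
    (∑ i, X (mk i) * Dec mk F i : NC A R) v =
      (A8_ind mk v.head? : R) * (algebraMap ℚ R ((nmk mk v : ℚ)⁻¹) * cyc F v) := by
  rw [finsetSum_apply]
  unfold A8_ind
  cases v with
  | nil =>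
    rw [if_neg (by simp), Nat.cast_zero, zero_mul]
    exact sum_eq_zero fun i _ => A8_X_mul_nil _ _
  | cons a u =>
    by_cases h : ∃ i, (a :: u).head? = some (mk i)
    · rw [if_pos h, Nat.cast_one, one_mul]
      obtain ⟨i0, hi0⟩ := h
      have ha : a = mk i0 := by simpa using hi0
      subst ha
      rw [sum_eq_single i0]
      · rw [A8_X_mul_cons, if_pos rfl]
        rfl
      · intro i _ hi
        rw [A8_X_mul_cons, if_neg (fun h => hi (hmk h).symm)]
      · intro h
        exact absurd (mem_univ _) h
    · rw [if_neg h, Nat.cast_zero, zero_mul]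
      refine sum_eq_zero fun i _ => ?_
      rw [A8_X_mul_cons, if_neg]
      rintro rfl
      exact h ⟨i, rfl⟩

theorem cyc_dec [DecidableEq A] [Fintype I] {mk : I → A} (hmk : Function.Injective mk) (F : NC A R)
    (hF : ∀ w, nmk mk w = 0 → cyc F w = 0) : cyc (∑ i, X (mk i) * Dec mk F i) = cyc F := by
  ext w
  have h1 : cyc (∑ i, X (mk i) * Dec mk F i) w = ∑ k ∈ range w.length,
      (A8_ind mk w[k]? : R) * (algebraMap ℚ R ((nmk mk w : ℚ)⁻¹) * cyc F w) := by
    show ∑ k ∈ range w.length, (∑ i, X (mk i) * Dec mk F i : NC A R) (w.rotate k) = _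
    refine sum_congr rfl fun k hk => ?_
    rw [A8_term hmk, A8_nmk_rotate, cyc_rotate, List.head?_rotate (mem_range.1 hk)]
  rw [h1, ← sum_mul, ← Nat.cast_sum, ← A8_count]
  by_cases h : nmk mk w = 0
  · rw [hF w h, mul_zero, mul_zero]
  · have h2 : ((nmk mk w : ℕ) : R) = algebraMap ℚ R (nmk mk w : ℚ) := by simp
    have h3 : (nmk mk w : ℚ) ≠ 0 := by exact_mod_cast h
    rw [h2, ← mul_assoc, ← map_mul, mul_inv_cancel₀ h3, map_one, one_mul]

theorem nmk_append (mk : I → A) (u v : List A) : nmk mk (u ++ v) = nmk mk u + nmk mk v := A8_nmk_append mk u v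

theorem nmk_rotate (mk : I → A) (w : List A) (n : ℕ) : nmk mk (w.rotate n) = nmk mk w := A8_nmk_rotate mk w n

/-- at least `n` marked letters in every word -/
def Mk (mk : I → A) (n : ℕ) (F : NC A R) : Prop := ∀ w, F w ≠ 0 → n ≤ nmk mk w

theorem Mk_cyc {mk : I → A} {n : ℕ} {F : NC A R} (h : Mk mk n F) : Mk mk n (cyc F) := by
  intro w hw
  obtain ⟨k, _, hk⟩ := exists_ne_zero_of_sum_ne_zero hw
  have := h _ hk
  rwa [nmk_rotate] at this

theorem Mk_mul {mk : I → A} {m n : ℕ} {F G : NC A R} (hF : Mk mk m F) (hG : Mk mk n G) : Mk mk (m + n) (F * G) := by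
  intro w hw
  rw [mul_apply] at hw
  obtain ⟨k, _, hk⟩ := exists_ne_zero_of_sum_ne_zero hw
  have h1 := hF _ (left_ne_zero_of_mul hk)
  have h2 := hG _ (right_ne_zero_of_mul hk)
  have h3 := nmk_append mk (w.take k) (w.drop k)
  rw [List.take_append_drop] at h3
  omega

theorem Mk_dec {mk : I → A} {n : ℕ} {F : NC A R} (h : Mk mk (n + 1) F) (i : I) : Mk mk n (Dec mk F i) := by
  classical
  intro w hw
  have h1 := Mk_cyc h _ (right_ne_zero_of_mul hw)
  rw [A8_nmk_cons, if_pos ⟨i, rfl⟩] at h1
  omega

/-- `Dec` only depends on the cyclic class; local dependence on the length -/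
theorem dec_congr (mk : I → A) {F G : NC A R} (i : I) (w : List A)
    (h : ∀ u : List A, u.length = w.length + 1 → F u = G u) : Dec mk F i w = Dec mk G i w := by
  unfold Dec
  congr 1
  refine sum_congr rfl fun k _ => h _ ?_
  rw [List.length_rotate, List.length_cons]

theorem len_dec (mk : I → A) {n : ℕ} {F : NC A R} (h : Len (n + 1) F) (i : I) : Len n (Dec mk F i) := by
  intro w hw
  have h1 := len_cyc h _ (right_ne_zero_of_mul hw)
  rw [List.length_cons] at h1
  omega

end Cea.N
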