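import Pool.Agent.Lib.MP_cea156_al.N.A5

/-! A9: invertible matrices over noncommutative power series. `mat_inv`: `N * U = 1 + T` (constants as `r • 1`) where `T` has
no constant terms; a right inverse `Y` of `1 + T` is a fixed point of `Y ↦ 1 - T * Y` (`exists_fix` with `M = J → I → R` or the like), a
left inverse a fixed point of `Y ↦ 1 - Y * T`; hence `U` has a left and a right inverse. `mat_inv_sup`: the entries of `X`
restricted to paths from `τ j` to `σ i` form a matrix `X'` which also satisfies `U * X' = 1`. -/

set_option autoImplicit false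

namespace Cea.N

open Finset

variable {A R : Type} [CommRing R] {I J : Type} [Fintype I] [DecidableEq I] [Fintype J] [DecidableEq J]

/-- the matrix of the constant terms -/
def cst (U : Matrix I J (NC A R)) : Matrix I J R := Matrix.of fun i j => U i j []

omit [Fintype I] [DecidableEq I] [DecidableEq J] in
private theorem A9_mul_apply {K : Type} (U : Matrix I J (NC A R)) (X : Matrix J K (NC A R)) (i : I) (k : K)
    (w : List A) : (U * X) i k w = ∑ j, (U i j * X j k) w := by
  rw [Matrix.mul_apply, finsetSum_apply]

theorem cst_mul {K : Type} (U : Matrix I J (NC A R)) (X : Matrix J K (NC A R)) : cst (U * X) = cst U * cst X := by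
  ext i k
  rw [Matrix.mul_apply]
  show (U * X) i k [] = _
  rw [A9_mul_apply]
  exact sum_congr rfl fun j _ => mul_nil _ _

private theorem A9_cst_one : cst (1 : Matrix I I (NC A R)) = 1 := by
  ext i j
  show (1 : Matrix I I (NC A R)) i j [] = _
  by_cases h : i = j
  · subst h
    rw [Matrix.one_apply_eq, Matrix.one_apply_eq, one_nil]
  · rw [Matrix.one_apply_ne h, Matrix.one_apply_ne h, zero_apply]

/-- right inverse of a matrix with constant term `1` -/
private theorem A9_right (T : Matrix I I (NC A R)) (hT : cst T = 1) : ∃ Y : Matrix I I (NC A R), T * Y = 1 := by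
  classical
  have hT0 : ∀ i j, (T - 1) i j [] = 0 := by
    intro i j
    have h1 : cst T i j = cst (1 : Matrix I I (NC A R)) i j := by rw [hT, A9_cst_one]
    have h2 : T i j [] = (1 : Matrix I I (NC A R)) i j [] := h1
    show T i j [] - (1 : Matrix I I (NC A R)) i j [] = 0
    rw [h2, sub_self]
  let mk : (List A → I → I → R) → Matrix I I (NC A R) := fun f i j => fun w => f w i j
  have : Inhabited (I → I → R) := ⟨fun _ _ => 0⟩
  obtain ⟨f, hf⟩ := exists_fix (A := A) (M := I → I → R)
    (fun f w i j => ((1 : Matrix I I (NC A R)) - (T - 1) * mk f) i j w) (by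
      intro f g w h
      funext i j
      show (1 : Matrix I I (NC A R)) i j w - ((T - 1) * mk f) i j w =
        (1 : Matrix I I (NC A R)) i j w - ((T - 1) * mk g) i j w
      have e : ((T - 1) * mk f) i j w = ((T - 1) * mk g) i j w := by
        rw [A9_mul_apply, A9_mul_apply]
        refine sum_congr rfl fun l _ => ?_
        rw [mul_apply, mul_apply]
        refine sum_congr rfl fun k hk => ?_
        rcases Nat.eq_zero_or_pos k with hk0 | hk0
        · subst hk0
          rw [List.take_zero, hT0, zero_mul, zero_mul]
        · have hk1 : k ≤ w.length := Nat.lt_succ_iff.1 (mem_range.1 hk)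
          have hlen : (w.drop k).length < w.length := by
            rw [List.length_drop]
            omega
          show (T - 1) i l (w.take k) * f (w.drop k) l j = (T - 1) i l (w.take k) * g (w.drop k) l j
          rw [h _ hlen]
      rw [e])
  refine ⟨mk f, ?_⟩
  have h1 : (1 : Matrix I I (NC A R)) - (T - 1) * mk f = mk f := by
    ext i j w
    exact congrFun (congrFun (congrFun hf w) i) j
  rw [sub_mul, one_mul, sub_sub_eq_add_sub] at h1
  have h2 := sub_eq_iff_eq_add.1 h1
  rw [add_comm (1 : Matrix I I (NC A R)) (mk f)] at h2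
  exact (add_left_cancel h2).symm

/-- a matrix with constant term `1` is invertible -/
private theorem A9_unit (T : Matrix I I (NC A R)) (hT : cst T = 1) :
    ∃ Y : Matrix I I (NC A R), T * Y = 1 ∧ Y * T = 1 ∧ cst Y = 1 := by
  obtain ⟨Y, hY⟩ := A9_right T hT
  have hc : cst Y = 1 := by
    have h := cst_mul T Y
    rw [hY, hT, one_mul, A9_cst_one] at h
    exact h.symm
  obtain ⟨Z, hZ⟩ := A9_right Y hc
  have hTZ : T = Z := by
    calc T = T * (Y * Z) := by rw [hZ, mul_one]
      _ = Z := by rw [← mul_assoc, hY, one_mul]
  exact ⟨Y, hY, by rw [hTZ, hZ], hc⟩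

theorem mat_inv (U : Matrix I J (NC A R)) {N : Matrix J I R} (h1 : cst U * N = 1) (h2 : N * cst U = 1) :
    ∃ X : Matrix J I (NC A R), U * X = 1 ∧ X * U = 1 ∧ cst X = N := by
  let N' : Matrix J I (NC A R) := fun j i => N j i • (1 : NC A R)
  have hN : cst N' = N := by
    ext j i
    show (N j i • (1 : NC A R)) [] = N j i
    rw [smul_apply, one_nil, mul_one]
  obtain ⟨Y, hY1, _, hY3⟩ := A9_unit (U * N') (by rw [cst_mul, hN, h1])
  obtain ⟨Z, _, hZ2, _⟩ := A9_unit (N' * U) (by rw [cst_mul, hN, h2])
  have hr : U * (N' * Y) = 1 := by rw [← Matrix.mul_assoc, hY1]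
  have hl : Z * N' * U = 1 := by rw [Matrix.mul_assoc, hZ2]
  have he : N' * Y = Z * N' := by
    calc N' * Y = Z * N' * U * (N' * Y) := by rw [hl, Matrix.one_mul]
      _ = Z * N' := by rw [Matrix.mul_assoc (Z * N') U (N' * Y), hr, Matrix.mul_one]
  refine ⟨N' * Y, hr, by rw [he, hl], ?_⟩
  rw [cst_mul, hN, hY3, Matrix.mul_one]

theorem mat_inv_sup {V : Type} [DecidableEq V] {Q : Quiv V} {σ : I → V} {τ : J → V} {U : Matrix I J (NC Q.A R)}
    (hU : ∀ i j, Sup Q (σ i) (τ j) (U i j)) {X : Matrix J I (NC Q.A R)} (h1 : U * X = 1) (h2 : X * U = 1) :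
    ∀ j i, Sup Q (τ j) (σ i) (X j i) := by
  classical
  let X' : Matrix J I (NC Q.A R) := fun j i => fun w => if Q.IsPath (τ j) w (σ i) then X j i w else 0
  have hX' : ∀ j i w, X' j i w = if Q.IsPath (τ j) w (σ i) then X j i w else 0 := fun _ _ _ => rfl
  have h3 : U * X' = 1 := by
    ext i i' w
    by_cases hp : Q.IsPath (σ i) w (σ i')
    · have e : (U * X') i i' w = (U * X) i i' w := by
        rw [A9_mul_apply, A9_mul_apply]
        refine sum_congr rfl fun j _ => ?_
        rw [mul_apply, mul_apply]
        refine sum_congr rfl fun k _ => ?_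
        by_cases h0 : U i j (w.take k) = 0
        · rw [h0, zero_mul, zero_mul]
        · have hp1 := hU i j _ h0
          have hp' := hp
          rw [← List.take_append_drop k w, isPath_append] at hp'
          obtain ⟨l, hl1, hl2⟩ := hp'
          have hl := isPath_right Q hl1 hp1
          subst hl
          rw [hX', if_pos hl2]
      rw [e, h1]
    · have e : (U * X') i i' w = 0 := by
        rw [A9_mul_apply]
        refine sum_eq_zero fun j _ => ?_
        rw [mul_apply]
        refine sum_eq_zero fun k _ => ?_
        by_cases h0 : U i j (w.take k) = 0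
        · rw [h0, zero_mul]
        · rw [hX']
          have hp1 := hU i j _ h0
          rw [if_neg, mul_zero]
          intro hp2
          apply hp
          rw [← List.take_append_drop k w, isPath_append]
          exact ⟨_, hp1, hp2⟩
      rw [e]
      by_cases hi : i = i'
      · subst hi
        rw [Matrix.one_apply_eq]
        cases w with
        | nil => exact absurd rfl hp
        | cons a w => rw [one_cons]
      · rw [Matrix.one_apply_ne hi, zero_apply]
  have h4 : X = X' := by
    calc X = X * (U * X') := by rw [h3, Matrix.mul_one]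
      _ = X' := by rw [← Matrix.mul_assoc, h2, Matrix.one_mul]
  intro j i w hw
  by_contra hp
  apply hw
  rw [h4, hX', if_neg hp]

end Cea.N
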