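import Pool.Agent.Lib.MP_cea156_al.Defs

/-!
# Noncommutative formal power series

`NC A R` : formal power series in the noncommuting letters `A` over `R` (functions on words), with the
product `conv`. All the notions of `Defs` over a commutative ring `R` instead of `ℂ`.
-/

set_option autoImplicit false

namespace Cea.N

open Finset

/-- noncommutative formal power series in the letters `A` -/
def NC (A R : Type) : Type := List A → R

section ring

variable {A R : Type} [CommRing R]

instance : AddCommGroup (NC A R) := inferInstanceAs (AddCommGroup (List A → R))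
instance : Module R (NC A R) := inferInstanceAs (Module R (List A → R))

/-- product of power series -/
def conv (f g : NC A R) : NC A R := fun w => ∑ k ∈ range (w.length + 1), f (w.take k) * g (w.drop k)

instance : Mul (NC A R) := ⟨conv⟩
instance : One (NC A R) := ⟨fun w => if w.isEmpty then 1 else 0⟩

theorem add_apply (f g : NC A R) (w : List A) : (f + g) w = f w + g w := rfl
theorem sub_apply (f g : NC A R) (w : List A) : (f - g) w = f w - g w := rfl
theorem neg_apply (f : NC A R) (w : List A) : (-f) w = -f w := rfl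
theorem zero_apply (w : List A) : (0 : NC A R) w = 0 := rfl
theorem smul_apply (r : R) (f : NC A R) (w : List A) : (r • f) w = r * f w := rfl
theorem mul_apply (f g : NC A R) (w : List A) :
    (f * g) w = ∑ k ∈ range (w.length + 1), f (w.take k) * g (w.drop k) := rfl
theorem one_apply (w : List A) : (1 : NC A R) w = if w.isEmpty then 1 else 0 := rfl
theorem one_nil : (1 : NC A R) [] = 1 := rfl
theorem one_cons (a : A) (w : List A) : (1 : NC A R) (a :: w) = 0 := rfl

@[ext] theorem ext {f g : NC A R} (h : ∀ w, f w = g w) : f = g := funext h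

/-- the series `w ↦ f (a :: w)` -/
def shift (a : A) (f : NC A R) : NC A R := fun w => f (a :: w)

theorem mul_nil (f g : NC A R) : (f * g) [] = f [] * g [] := by
  rw [mul_apply]
  simp

theorem mul_cons (f g : NC A R) (a : A) (w : List A) :
    (f * g) (a :: w) = f [] * g (a :: w) + (shift a f * g) w := by
  rw [mul_apply, mul_apply, List.length_cons, sum_range_succ']
  simp only [List.take_zero, List.drop_zero, List.take_succ_cons, List.drop_succ_cons]
  rw [add_comm]
  rfl

theorem add_mul' (f g h : NC A R) : (f + g) * h = f * h + g * h := by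
  ext w
  rw [add_apply, mul_apply, mul_apply, mul_apply, ← sum_add_distrib]
  exact sum_congr rfl fun k _ => add_mul _ _ _

theorem mul_add' (f g h : NC A R) : f * (g + h) = f * g + f * h := by
  ext w
  rw [add_apply, mul_apply, mul_apply, mul_apply, ← sum_add_distrib]
  exact sum_congr rfl fun k _ => mul_add _ _ _

theorem smul_mul' (r : R) (f g : NC A R) : (r • f) * g = r • (f * g) := by
  ext w
  rw [smul_apply, mul_apply, mul_apply, mul_sum]
  exact sum_congr rfl fun k _ => by rw [smul_apply, mul_assoc]

theorem mul_smul' (r : R) (f g : NC A R) : f * (r • g) = r • (f * g) := by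
  ext w
  rw [smul_apply, mul_apply, mul_apply, mul_sum]
  exact sum_congr rfl fun k _ => by rw [smul_apply]; ring

theorem mul_assoc_aux (w : List A) : ∀ f g h : NC A R, (f * g * h) w = (f * (g * h)) w := by
  induction w with
  | nil => intro f g h; simp only [mul_nil]; ring
  | cons a w ih =>
    intro f g h
    rw [mul_cons, mul_cons f, mul_nil, mul_cons g, ← ih]
    have e : shift a (f * g) = f [] • shift a g + shift a f * g := by
      ext v
      rw [add_apply, smul_apply]
      exact mul_cons f g a v
    rw [e, add_mul', add_apply, smul_mul', smul_apply]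
    ring

theorem one_mul' (f : NC A R) : 1 * f = f := by
  ext w
  induction w with
  | nil => rw [mul_nil, one_nil, one_mul]
  | cons a w _ =>
    rw [mul_cons, one_nil, one_mul]
    have e : shift a (1 : NC A R) = 0 := by
      ext v
      rfl
    rw [e]
    have h0 : ((0 : NC A R) * f) w = 0 := by
      rw [mul_apply]
      exact sum_eq_zero fun k _ => by rw [zero_apply, zero_mul]
    rw [h0, add_zero]

theorem mul_one' (f : NC A R) : f * 1 = f := by
  ext w
  induction w generalizing f with
  | nil => rw [mul_nil, one_nil, mul_one]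
  | cons a w ih =>
    rw [mul_cons, one_cons, mul_zero, zero_add, ih]
    rfl

instance : Ring (NC A R) where
  __ := (inferInstance : AddCommGroup (NC A R))
  mul := (· * ·)
  one := 1
  left_distrib := mul_add'
  right_distrib := add_mul'
  zero_mul f := by
    ext w
    rw [mul_apply]
    exact sum_eq_zero fun k _ => by rw [zero_apply, zero_mul]
  mul_zero f := by
    ext w
    rw [mul_apply]
    exact sum_eq_zero fun k _ => by rw [zero_apply, mul_zero]
  mul_assoc f g h := ext fun w => mul_assoc_aux w f g h
  one_mul := one_mul'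
  mul_one := mul_one'

instance : Algebra R (NC A R) := Algebra.ofModule smul_mul' mul_smul'

theorem finsetSum_apply {ι : Type} (s : Finset ι) (f : ι → NC A R) (w : List A) :
    (∑ i ∈ s, f i) w = ∑ i ∈ s, f i w := by
  classical
  induction s using Finset.induction_on with
  | empty => rfl
  | insert a s ha ih => rw [sum_insert ha, sum_insert ha, add_apply, ih]

end ring

section defs

variable {A B R : Type} [CommRing R]

/-- the monomial of a word -/
def mon [DecidableEq A] (u : List A) : NC A R := fun w => if w = u then 1 else 0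

/-- the letter `a` as a power series -/
def X [DecidableEq A] (a : A) : NC A R := mon [a]

/-- sum of the coefficients of all rotations of the word `w` -/
def cyc (W : NC A R) : NC A R := fun w => ∑ k ∈ range w.length, W (w.rotate k)

/-- cyclic derivative -/
def der (a : A) (W : NC A R) : NC A R := fun w => cyc W (a :: w)

/-- image of a word under the substitution `a ↦ φ a` -/
def wordSub (φ : A → NC B R) : List A → NC B R
  | [] => 1
  | a :: u => φ a * wordSub φ u

/-- image of `W` under the substitution `a ↦ φ a` -/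
def subst [Fintype A] (φ : A → NC B R) (W : NC A R) : NC B R := fun w =>
  ∑ m ∈ range (w.length + 1), ∑ u : Fin m → A, W (List.ofFn u) * wordSub φ (List.ofFn u) w

/-- no constant terms -/
def Z0 (φ : A → NC B R) : Prop := ∀ a, φ a [] = 0

/-- words of length at most `N` -/
noncomputable def wds (A : Type) [Fintype A] (N : ℕ) : Finset (List A) :=
  open Classical in (range (N + 1)).biUnion fun m => (univ : Finset (Fin m → A)).image List.ofFn

/-- coefficientwise image under a ring homomorphism -/
def mapR {R' : Type} [CommRing R'] (h : R →+* R') (f : NC A R) : NC A R' := fun w => h (f w)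

end defs

section quiver

variable {V R : Type} [DecidableEq V] [CommRing R]

/-- supported on paths from `i` to `j` -/
def Sup (Q : Quiv V) (i j : V) (f : NC Q.A R) : Prop := ∀ w, f w ≠ 0 → Q.IsPath i w j

/-- potentials over `R` -/
def Pot (Q : Quiv V) (W : NC Q.A R) : Prop := ∀ w, W w ≠ 0 → Q.IsCycle w

/-- the linear part of a substitution -/
def lin {A B : Type} (φ : A → NC B R) : Matrix A B R := Matrix.of fun a b => φ a [b]

/-- isomorphisms of complete path algebras over `R` -/
def Iso (Q Q' : Quiv V) (φ : Q.A → NC Q'.A R) : Prop :=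
  (∀ a w, φ a w ≠ 0 → w ≠ [] ∧ Q'.IsPath (Q.s a) w (Q.t a)) ∧
    ∃ N : Matrix Q'.A Q.A R, lin φ * N = 1 ∧ N * lin φ = 1

/-- right equivalence over `R` -/
def RE (Q Q' : Quiv V) (W : NC Q.A R) (W' : NC Q'.A R) : Prop :=
  ∃ φ, Iso Q Q' φ ∧ cyc (subst φ W) = cyc W'

/-- `[W]` over `R` -/
def br (Q : Quiv V) (k : V) (W : NC Q.A R) : NC (Q.pre k).A R := fun w =>
  match Q.expand k w with
  | some l => W l
  | none => 0

open Classical in
/-- `Δ = ∑ [ab] b* a*` over `R` -/
noncomputable def dlt (Q : Quiv V) (k : V) : NC (Q.pre k).A R := fun w =>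
  if ∃ (a : Q.In k) (b : Q.Out k), w = [Q.cmp a b, Q.revOut b, Q.revIn a] then 1 else 0

open Classical in
/-- the potential `W + ∑ x_i y_i` on `Q.plus p q` over `R` -/
noncomputable def plW (Q : Quiv V) {m : ℕ} (p q : Fin m → V) (W : NC Q.A R) : NC (Q.plus p q).A R := fun w =>
  (if ∃ l : List Q.A, w = l.map Sum.inl then W (w.filterMap Sum.getLeft?) else 0) +
    if ∃ i : Fin m, w = [Sum.inr (Sum.inl i), Sum.inr (Sum.inr i)] then 1 else 0

/-- no cycle starts at `k` -/
def NoStart (Q : Quiv V) (k : V) (W : NC Q.A R) : Prop := ∀ a w, Q.s a = k → W (a :: w) = 0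

/-- all words have length at least `n` -/
def Len {A : Type} (n : ℕ) (W : NC A R) : Prop := ∀ w, W w ≠ 0 → n ≤ w.length

/-- no loops at `k` -/
def NoLoop (Q : Quiv V) (k : V) : Prop := ∀ a, ¬(Q.s a = k ∧ Q.t a = k)

/-- mutation over `R` -/
def Mu (k : V) (Q Q' : Quiv V) (W : NC Q.A R) (W' : NC Q'.A R) : Prop :=
  Len 3 W' ∧ ∃ W₁ : NC Q.A R, Pot Q W₁ ∧ cyc W₁ = cyc W ∧ NoStart Q k W₁ ∧
    ∃ (m : ℕ) (p q : Fin m → V), RE (Q.pre k) (Q'.plus p q) (br Q k W₁ + dlt Q k) (plW Q' p q W')

end quiver

section compare

variable {V : Type} [DecidableEq V]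

theorem wordSub_eq {A B : Type} (φ : A → NC B ℂ) (u : List A) : wordSub φ u = Cea.wordSub φ u := by
  induction u with
  | nil => rfl
  | cons a u ih =>
    have h : wordSub φ (a :: u) = conv (φ a) (wordSub φ u) := rfl
    rw [h, ih]
    rfl

theorem subst_eq {A B : Type} [Fintype A] (φ : A → NC B ℂ) (W : NC A ℂ) : subst φ W = Cea.subst φ W := by
  funext w
  unfold subst Cea.subst
  simp only [wordSub_eq]

theorem RE_iff (Q Q' : Quiv V) (W : NC Q.A ℂ) (W' : NC Q'.A ℂ) : RE Q Q' W W' ↔ REq Q Q' W W' := by
  unfold RE REq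
  constructor
  · rintro ⟨φ, h1, h2⟩
    refine ⟨φ, h1, fun w => ?_⟩
    rw [subst_eq] at h2
    exact congrFun h2 w
  · rintro ⟨φ, h1, h2⟩
    refine ⟨φ, h1, ?_⟩
    have e := subst_eq (φ : Q.A → NC Q'.A ℂ) W
    show cyc (subst (φ : Q.A → NC Q'.A ℂ) W) = cyc W'
    rw [e]
    exact funext h2

theorem br_eq (Q : Quiv V) (k : V) (W : NC Q.A ℂ) : br Q k W = Q.bracket k W := by
  funext w
  unfold br Quiv.bracket
  cases Q.expand k w <;> rfl

theorem dlt_eq (Q : Quiv V) (k : V) : (dlt Q k : NC (Q.pre k).A ℂ) = Q.delta k := rfl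

theorem plW_eq (Q : Quiv V) {m : ℕ} (p q : Fin m → V) (W : NC Q.A ℂ) : plW Q p q W = Q.plusW p q W := rfl

theorem Mut_iff (k : V) (P P' : QP V) : QP.Mut k P P' ↔ Mu k P.Q P'.Q P.W P'.W := by
  unfold QP.Mut Mu
  refine and_congr Iff.rfl (exists_congr fun W₁ => and_congr Iff.rfl (and_congr ?_ (and_congr Iff.rfl ?_)))
  · exact ⟨fun h => funext h, fun h w => congrFun h w⟩
  · refine exists_congr fun m => exists_congr fun p => exists_congr fun q => ?_
    rw [RE_iff]
    have e : (br P.Q k W₁ + dlt P.Q k : NC (P.Q.pre k).A ℂ) =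
        fun w => P.Q.bracket k W₁ w + P.Q.delta k w := by
      funext w
      show br P.Q k W₁ w + dlt P.Q k w = _
      rw [br_eq, dlt_eq]
    rw [e, plW_eq]

end compare

end Cea.N
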