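import Pool.Agent.Lib.MP_cea156_al.N.F2b

/-! F3: in a polynomial family of potentials through a non-degenerate one all but countably many members are non-degenerate. Apply `good_family` with `f = 1` to
every `κ : List V` (`V` countable), `nondeg_iff_good`, `finite_zeros`. -/

set_option autoImplicit false

namespace Cea.N

open Polynomial

private theorem F3_fib {A : Type} (W : NC A ℂ[X]) (s : ℂ) (hs : (1 : ℂ[X]).eval s ≠ 0) :
    mapR (evF 1 s hs) (mapR (algebraMap ℂ[X] (Fam 1)) W) = mapR (evalRingHom s) W := by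
  funext w
  show evF 1 s hs (algebraMap ℂ[X] (Fam 1) (W w)) = (evalRingHom s) (W w)
  rw [evF_poly, coe_evalRingHom]

private theorem F3_pot {V : Type} [DecidableEq V] {Q : Quiv V} {W : NC Q.A ℂ[X]} (hW : Pot Q W) :
    Pot Q (mapR (algebraMap ℂ[X] (Fam 1)) W) := by
  intro w hw
  apply hW w
  intro h0
  apply hw
  show algebraMap ℂ[X] (Fam 1) (W w) = 0
  rw [h0, map_zero]

private theorem F3_good {V : Type} [DecidableEq V] {κ : List V} {Q : Quiv V} {W W' : List Q.A → ℂ}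
    {h : IsPot Q W} {h' : IsPot Q W'} (e : W = W') (hg : Good κ ⟨Q, W, h⟩) : Good κ ⟨Q, W', h'⟩ := by
  subst e
  exact hg

theorem nondeg_family {V : Type} [DecidableEq V] [Countable V] {Q : Quiv V} {W : NC Q.A ℂ[X]} (hW : Pot Q W)
    (hn : Nondeg ⟨Q, mapR (evalRingHom 0) W, pot_map hW _⟩) :
    {s : ℂ | ¬ Nondeg ⟨Q, mapR (evalRingHom s) W, pot_map hW _⟩}.Countable := by
  have h1 : ∀ s : ℂ, (1 : ℂ[X]).eval s ≠ 0 := fun s => by
    rw [eval_one]
    exact one_ne_zero
  have h2 : Q.TwoAcyclic := hn ⟨Q, _, _⟩ Relation.ReflTransGen.refl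
  have key : ∀ κ : List V, ∃ g : ℂ[X], g.eval 0 ≠ 0 ∧ ∀ s, g.eval s ≠ 0 →
      Good κ ⟨Q, mapR (evalRingHom s) W, pot_map hW _⟩ := by
    intro κ
    have hg0 : Good κ ⟨Q, mapR (evF 1 0 (h1 0)) (mapR (algebraMap ℂ[X] (Fam 1)) W),
        pot_map (F3_pot hW) _⟩ :=
      F3_good (F3_fib W 0 (h1 0)).symm ((nondeg_iff_good _).1 hn κ)
    obtain ⟨g, hg, hs⟩ := good_family κ h2 (h1 0) (F3_pot hW) hg0
    refine ⟨g, hg, fun s h => ?_⟩
    obtain ⟨hf, hgood⟩ := hs s h
    exact F3_good (F3_fib W s hf) hgood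
  choose g hg0 hg using key
  refine Set.Countable.mono (s₂ := ⋃ κ : List V, {s : ℂ | (g κ).eval s = 0}) ?_ ?_
  · intro s hs
    rw [Set.mem_iUnion]
    by_contra hcon
    apply hs
    rw [nondeg_iff_good]
    intro κ
    apply hg κ s
    intro h0
    exact hcon ⟨κ, h0⟩
  · exact Set.countable_iUnion fun κ => (finite_zeros (hg0 κ)).countable

end Cea.N
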