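import Pool.Agent.Lib.MP_cea156_al.N.R1
import Pool.Agent.Lib.MP_cea156_al.N.F3

/-! R2: generic rigidity. `RG P W`: in every polynomial family `W + X(s)` with `X(0) = 0` all but countably many members are right equivalent to `W`.
`RG_of_unique`: let `W` be the unique non-degenerate potential of `Q`, `W₀ = res ι W`; for a family `X` on `P` extend its coefficients by zero to `Y` on `Q`
(`exists_ext_pot` over `ℂ[X]`) and apply `nondeg_family` to `W + Y`; then `RE_res`. `RG_congr`: transport the family with the inverse isomorphism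
(`subst` over `ℂ[X]` of the constant substitution, `mapR_subst`). -/

set_option autoImplicit false

namespace Cea.N

open Polynomial

def RG {V : Type} [DecidableEq V] (P : Quiv V) (W : NC P.A ℂ) : Prop :=
  ∀ X : NC P.A ℂ[X], Pot P X → mapR (evalRingHom (0 : ℂ)) X = 0 →
    {s : ℂ | ¬ RE P P W (W + mapR (evalRingHom s) X)}.Countable

private theorem R2_eval_C (s : ℂ) {A : Type} (f : NC A ℂ) :
    mapR (evalRingHom s) (mapR (C : ℂ →+* ℂ[X]) f) = f := by
  funext w
  show (evalRingHom s) (C (f w)) = f w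
  rw [coe_evalRingHom, eval_C]

private theorem R2_subst {V : Type} [DecidableEq V] {P : Quiv V} (φ : P.A → NC P.A ℂ) (X : NC P.A ℂ[X]) (s : ℂ) :
    mapR (evalRingHom s) (subst (fun a => mapR (C : ℂ →+* ℂ[X]) (φ a)) X) = subst φ (mapR (evalRingHom s) X) := by
  have h := mapR_subst (evalRingHom s) (fun a => mapR (C : ℂ →+* ℂ[X]) (φ a)) X
  rw [h]
  have e : (fun a => mapR (evalRingHom s) (mapR (C : ℂ →+* ℂ[X]) (φ a))) = φ := by
    funext a
    exact R2_eval_C s (φ a)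
  rw [e]

private theorem R2_nd {V : Type} [DecidableEq V] {Q : Quiv V} {W W' : List Q.A → ℂ}
    {h : IsPot Q W} {h' : IsPot Q W'} (e : W = W') (hg : Nondeg ⟨Q, W, h⟩) : Nondeg ⟨Q, W', h'⟩ := by
  subst e
  exact hg

private theorem R2_Pot_add {V R : Type} [DecidableEq V] [CommRing R] {Q : Quiv V} {f g : NC Q.A R}
    (hf : Pot Q f) (hg : Pot Q g) : Pot Q (f + g) := by
  intro w hw
  rw [add_apply] at hw
  by_cases h : f w = 0
  · refine hg w fun h' => hw ?_
    rw [h, h', add_zero]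
  · exact hf w h

theorem RG_congr {V : Type} [DecidableEq V] {P : Quiv V} {W W' : NC P.A ℂ} (hW : Pot P W) (hW' : Pot P W')
    (h : RE P P W W') (hg : RG P W) : RG P W' := by
  intro X hX h0
  have hs := h.symm
  obtain ⟨φ, hφ, hcyc⟩ := id hs
  have hφC : Iso P P fun a => mapR (C : ℂ →+* ℂ[X]) (φ a) := hφ.map C
  have hYpot : Pot P (subst (fun a => mapR (C : ℂ →+* ℂ[X]) (φ a)) X) := Pot_subst hφC.z0 hφC.ps hX
  have hY0 : mapR (evalRingHom (0 : ℂ)) (subst (fun a => mapR (C : ℂ →+* ℂ[X]) (φ a)) X) = 0 := by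
    rw [R2_subst, h0, subst_zero]
  refine (hg _ hYpot hY0).mono ?_
  intro s hs1 hs2
  apply hs1
  have h1 : RE P P (W' + mapR (evalRingHom s) X)
      (W + mapR (evalRingHom s) (subst (fun a => mapR (C : ℂ →+* ℂ[X]) (φ a)) X)) := by
    refine ⟨φ, hφ, ?_⟩
    rw [R2_subst, subst_add, cyc_add, cyc_add, hcyc]
  exact (hs.trans hs2).trans h1.symm

private theorem R2_main {n : ℕ} {P Q : Quiv (Fin n)} {ι : P.A → Q.A} {S : Set (Fin n)}
    (hf : FullSub P Q ι S) (W : NC Q.A ℂ) (hWP : Pot Q W) (hnd : Nondeg ⟨Q, W, hWP⟩)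
    (huniq : ∀ (W' : List Q.A → ℂ) (hW' : IsPot Q W'), Nondeg ⟨Q, W', hW'⟩ → REq Q Q W' W) :
    RG P (res ι W) := by
  intro X hX h0
  obtain ⟨Y, hY, hres, hsupp⟩ := exists_ext_pot hf hX
  have hY0 : mapR (evalRingHom (0 : ℂ)) Y = 0 := by
    funext w
    show (evalRingHom (0 : ℂ)) (Y w) = 0
    by_cases hw : Y w = 0
    · rw [hw, map_zero]
    · obtain ⟨u, rfl⟩ := hsupp w hw
      have h1 : Y (u.map ι) = X u := congrFun hres u
      rw [h1]
      exact congrFun h0 u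
  have hZ : Pot Q (mapR (C : ℂ →+* ℂ[X]) W + Y) := R2_Pot_add (hWP.map C) hY
  have hev : ∀ s : ℂ, mapR (evalRingHom s) (mapR (C : ℂ →+* ℂ[X]) W + Y) =
      W + mapR (evalRingHom s) Y := by
    intro s
    rw [mapR_add, R2_eval_C]
  have hn0 : Nondeg ⟨Q, mapR (evalRingHom 0) (mapR (C : ℂ →+* ℂ[X]) W + Y), pot_map hZ _⟩ := by
    refine R2_nd ?_ hnd
    rw [hev, hY0, add_zero]
  refine (nondeg_family hZ hn0).mono ?_
  intro s hs1 hs2
  apply hs1
  have h1 := huniq _ _ hs2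
  have h2 : RE Q Q (mapR (evalRingHom s) (mapR (C : ℂ →+* ℂ[X]) W + Y)) W :=
    (RE_iff Q Q _ _).2 h1
  have h3 := RE_res hf h2.symm
  rw [hev] at h3
  have h4 : res ι (W + mapR (evalRingHom s) Y) =
      res ι W + mapR (evalRingHom s) X := by
    funext u
    show W (u.map ι) + (evalRingHom s) (Y (u.map ι)) = W (u.map ι) + (evalRingHom s) (X u)
    have h5 : Y (u.map ι) = X u := congrFun hres u
    rw [h5]
  rw [h4] at h3
  exact h3

theorem RG_of_unique {n : ℕ} {P Q : Quiv (Fin n)} (hu : UniquePot Q) {ι : P.A → Q.A} {S : Set (Fin n)}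
    (hf : FullSub P Q ι S) : ∃ W₀ : NC P.A ℂ, Pot P W₀ ∧ RG P W₀ := by
  obtain ⟨W, hW, hnd, huniq⟩ := hu
  exact ⟨res ι W, Pot_res hf hW, R2_main hf W hW hnd huniq⟩

end Cea.N
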