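import Pool.Agent.Lib.MP_cea156_al.N.M3b
import Pool.Agent.Lib.MP_cea156_al.N.R2

/-! C0: uniqueness of the non-degenerate potential only depends on the matrix and is invariant in the mutation class; the unique potential is generically rigid.
`uniquePot_of_B`: `transport` (in both directions), `nondeg_congr`. `RG_nondeg`: `nondeg_family` for `W + X(s)`, as in `RG_of_unique` with `ι = id`. -/

set_option autoImplicit false

namespace Cea.N

open Relation

variable {n : ℕ}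

private theorem C0_nd {V : Type} [DecidableEq V] {Q : Quiv V} {W W' : List Q.A → ℂ}
    {h : IsPot Q W} {h' : IsPot Q W'} (e : W = W') (hg : Nondeg ⟨Q, W, h⟩) : Nondeg ⟨Q, W', h'⟩ := by
  subst e
  exact hg

private theorem C0_add {V R : Type} [DecidableEq V] [CommRing R] {Q : Quiv V} {f g : NC Q.A R}
    (hf : Pot Q f) (hg : Pot Q g) : Pot Q (f + g) := by
  intro w hw
  rw [add_apply] at hw
  by_cases h : f w = 0
  · refine hg w fun h' => hw ?_
    rw [h, h', add_zero]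
  · exact hf w h

theorem uniquePot_two {Q : Quiv (Fin n)} (h : UniquePot Q) : Q.TwoAcyclic := by
  obtain ⟨W, hW, hn, -⟩ := h
  exact Nondeg.two hn

theorem uniquePot_of_B {Q Q' : Quiv (Fin n)} (h : UniquePot Q) (h2 : Q'.TwoAcyclic) (hB : Q'.B = Q.B) :
    UniquePot Q' := by
  obtain ⟨W, hW, hn, hu⟩ := h
  have hQ : Q.TwoAcyclic := Nondeg.two hn
  obtain ⟨P', hP', hRE⟩ := transport ⟨Q, W, hW⟩ hQ h2 hB.symm
  have hn' : Nondeg P' := nondeg_congr hRE hn
  obtain ⟨Q₁, W₁, hW₁⟩ := P'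
  change Q₁ = Q' at hP'
  subst hP'
  refine ⟨W₁, hW₁, hn', fun W₂ hW₂ hn₂ => ?_⟩
  obtain ⟨P'', hP'', hRE'⟩ := transport ⟨Q₁, W₂, hW₂⟩ h2 hQ hB
  have hn'' : Nondeg P'' := nondeg_congr hRE' hn₂
  obtain ⟨Q₃, W₃, hW₃⟩ := P''
  change Q₃ = Q at hP''
  subst hP''
  have h4 : RE Q₃ Q₃ W₃ W := (RE_iff _ _ _ _).mpr (hu W₃ hW₃ hn'')
  exact (RE_iff _ _ _ _).mp ((hRE'.trans h4).trans hRE)

theorem uniquePot_class {Q Q' : Quiv (Fin n)} (h : UniquePot Q) (h2 : Q'.TwoAcyclic)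
    (hB : ReflTransGen (fun a b => ∃ k, b = mutB k a) Q.B Q'.B) : UniquePot Q' := by
  have key : ∀ B, ReflTransGen (fun a b => ∃ k, b = mutB k a) Q.B B →
      ∃ Q₁ : Quiv (Fin n), Q₁.B = B ∧ UniquePot Q₁ := by
    intro B hB
    induction hB with
    | refl => exact ⟨Q, rfl, h⟩
    | tail _ hbc ih =>
      obtain ⟨Q₁, hQ₁, hu⟩ := ih
      obtain ⟨k, hk⟩ := hbc
      obtain ⟨Q₂, -, hQ₂, hu₂⟩ := uniquePot_mut hu k
      exact ⟨Q₂, by rw [hQ₂, hQ₁, hk], hu₂⟩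
  obtain ⟨Q₁, hQ₁, hu⟩ := key _ hB
  exact uniquePot_of_B hu h2 hQ₁.symm

theorem RG_nondeg {Q : Quiv (Fin n)} (h : UniquePot Q) {W : NC Q.A ℂ} (hW : Pot Q W) (hn : Nondeg ⟨Q, W, hW⟩) :
    RG Q W := by
  obtain ⟨W₀, hW₀, -, hu⟩ := h
  have h0 : RE Q Q W W₀ := (RE_iff _ _ _ _).mpr (hu W hW hn)
  intro X hX hX0
  have hev : ∀ s : ℂ, mapR (Polynomial.evalRingHom s) (mapR (Polynomial.C : ℂ →+* Polynomial ℂ) W + X) =
      W + mapR (Polynomial.evalRingHom s) X := by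
    intro s
    rw [mapR_add]
    congr 1
    funext w
    show (Polynomial.evalRingHom s) (Polynomial.C (W w)) = W w
    rw [Polynomial.coe_evalRingHom, Polynomial.eval_C]
  have hZ : Pot Q (mapR (Polynomial.C : ℂ →+* Polynomial ℂ) W + X) := C0_add (hW.map Polynomial.C) hX
  have hn0 : Nondeg ⟨Q, mapR (Polynomial.evalRingHom 0) (mapR (Polynomial.C : ℂ →+* Polynomial ℂ) W + X),
      pot_map hZ _⟩ := by
    refine C0_nd ?_ hn
    rw [hev, hX0, add_zero]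
  refine (nondeg_family hZ hn0).mono ?_
  intro s hs1 hs2
  apply hs1
  have h1 := (RE_iff Q Q _ _).2 (hu _ _ hs2)
  rw [hev] at h1
  exact h0.trans h1.symm

end Cea.N
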