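import Pool.Agent.Lib.MP_cea156_al.N.J4

/-! C1: dimension count. Let `d ≥ 3`. The linear map which sends `(ξ a w)` (parameters in `Pa P (d - 2)`) to the values of `cyc (∑ ξ a * der a W)` at the representatives of the cyclic
words of length at most `d` is surjective: given `y`, take a potential `Y` with `cyc Y (rep q) = y q` (as in J3), `ξ` from `rigid_mod`, and restrict `ξ a` to words
of length `≤ d - 2`: as `der a W` has length at least 2 (`len_der`, cycles of a 2-acyclic quiver have length at least 3), this does not change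
`cyc (∑ ξ a * der a W) u` for `|u| ≤ d`. Compare dimensions. -/

set_option autoImplicit false

namespace Cea.N

open Finset

open Classical in
/-- extension by zero -/
noncomputable def C1_ext {V : Type} [DecidableEq V] {P : Quiv V} (d : ℕ) (x : Pa P d → ℂ) : P.A → NC P.A ℂ :=
  fun a w => if h : w.length ≤ d ∧ w ≠ [] ∧ P.IsPath (P.s a) w (P.t a) then x ⟨(a, w), h⟩ else 0

theorem C1_ext_add {V : Type} [DecidableEq V] {P : Quiv V} (d : ℕ) (x y : Pa P d → ℂ) (a : P.A) :
    C1_ext d (x + y) a = C1_ext d x a + C1_ext d y a := by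
  ext w
  rw [add_apply]
  unfold C1_ext
  split_ifs
  · rfl
  · rw [add_zero]

theorem C1_ext_smul {V : Type} [DecidableEq V] {P : Quiv V} (d : ℕ) (r : ℂ) (x : Pa P d → ℂ) (a : P.A) :
    C1_ext d (r • x) a = r • C1_ext d x a := by
  ext w
  rw [smul_apply]
  unfold C1_ext
  split_ifs
  · rfl
  · rw [mul_zero]

theorem C1_len {V : Type} [DecidableEq V] {P : Quiv V} (h2 : P.TwoAcyclic) {u : List P.A} (hu : P.IsCycle u) :
    3 ≤ u.length := by
  obtain ⟨h0, i, hi⟩ := hu
  match u, h0, hi with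
  | [], h0, _ => exact absurd rfl h0
  | [a], _, hi =>
    obtain ⟨h3, h4⟩ := hi
    have h5 : P.t a = i := h4
    exact absurd ⟨h5.trans h3.symm, h5.trans h3.symm⟩ (h2 a a)
  | [a, b], _, hi =>
    obtain ⟨h3, h4, h5⟩ := hi
    have h6 : P.t b = i := h5
    exact absurd ⟨h4.symm, h6.trans h3.symm⟩ (h2 a b)
  | a :: b :: c :: v, _, _ =>
    simp only [List.length_cons]
    omega

theorem C1_der_len {V : Type} [DecidableEq V] {P : Quiv V} (h2 : P.TwoAcyclic) {W : NC P.A ℂ} (hW : Pot P W)
    (a : P.A) : Len 2 (der a W) := by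
  intro w hw
  have h3 := C1_len h2 (Pot_cyc hW (a :: w) hw)
  rw [List.length_cons] at h3
  omega

theorem C1_mul_congr {A : Type} {d : ℕ} {f f' g : NC A ℂ} (hg : Len 2 g) (hf : ∀ w, w.length ≤ d → f w = f' w)
    {v : List A} (hv : v.length ≤ d + 2) : (f * g) v = (f' * g) v := by
  rw [mul_apply, mul_apply]
  refine sum_congr rfl fun k hk => ?_
  by_cases h0 : g (v.drop k) = 0
  · rw [h0, mul_zero, mul_zero]
  · have h1 := hg _ h0
    rw [List.length_drop] at h1
    rw [hf _ (by rw [List.length_take]; omega)]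

theorem C1_cyc_congr {A : Type} {f g : NC A ℂ} {u : List A} (h : ∀ v, v.length = u.length → f v = g v) :
    cyc f u = cyc g u :=
  sum_congr rfl fun k _ => h _ (List.length_rotate u k)

theorem C1_rep_inj {V : Type} [DecidableEq V] {P : Quiv V} {D : ℕ} {q q' : Cy P D} (h : rep q ~r rep q') :
    q = q' := by
  have h1 : Quotient.mk (cySet P D) (Quotient.out q) = Quotient.mk (cySet P D) (Quotient.out q') :=
    Quotient.sound h
  exact (Quotient.out_eq q).symm.trans (h1.trans (Quotient.out_eq q'))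

theorem C1_pot {V : Type} [DecidableEq V] (P : Quiv V) (D : ℕ) (y : Cy P D → ℂ) :
    ∃ Y : NC P.A ℂ, Pot P Y ∧ ∀ q, cyc Y (rep q) = y q := by
  classical
  have hfin := finite_Cy P D
  let inst : Fintype (Cy P D) := Fintype.ofFinite _
  have hc : ∀ q : Cy P D, cyc (mon (rep q) : NC P.A ℂ) (rep q) ≠ 0 := by
    intro q
    have h1 : cyc (mon (rep q) : NC P.A ℂ) (rep q) =
        (((range (rep q).length).filter fun k => (rep q).rotate k = rep q).card : ℂ) := by
      unfold cyc mon
      rw [sum_boole]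
    rw [h1, Nat.cast_ne_zero, ← Nat.pos_iff_ne_zero, card_pos]
    refine ⟨0, mem_filter.2 ⟨mem_range.2 ?_, List.rotate_zero _⟩⟩
    exact List.length_pos_iff.2 (rep_cycle q).1.1
  have h0 : ∀ q q' : Cy P D, q ≠ q' → cyc (mon (rep q) : NC P.A ℂ) (rep q') = 0 := by
    intro q q' hne
    refine sum_eq_zero fun k _ => ?_
    unfold mon
    rw [if_neg]
    intro h
    exact hne (C1_rep_inj (List.IsRotated.symm ⟨k, h⟩))
  refine ⟨∑ q, (y q / cyc (mon (rep q) : NC P.A ℂ) (rep q)) • (mon (rep q) : NC P.A ℂ), ?_, fun q' => ?_⟩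
  · intro w hw
    rw [finsetSum_apply] at hw
    obtain ⟨q, _, hq⟩ := exists_ne_zero_of_sum_ne_zero hw
    rw [smul_apply] at hq
    have h1 : (mon (rep q) : NC P.A ℂ) w ≠ 0 := fun h => hq (by rw [h, mul_zero])
    have h2 : w = rep q := by
      by_contra hne
      exact h1 (if_neg hne)
    rw [h2]
    exact (rep_cycle q).1
  · rw [cyc_sum, finsetSum_apply, sum_eq_single q']
    · rw [cyc_smul, smul_apply, div_mul_cancel₀ _ (hc q')]
    · intro q _ hne
      rw [cyc_smul, smul_apply, h0 q q' hne, mul_zero]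
    · intro h
      exact absurd (mem_univ q') h

/-- the linear map -/
noncomputable def C1_map {V : Type} [DecidableEq V] {P : Quiv V} (W : NC P.A ℂ) (d : ℕ) :
    (Pa P d → ℂ) →ₗ[ℂ] (Cy P (d + 2) → ℂ) where
  toFun x q := cyc (∑ a, C1_ext d x a * der a W) (rep q)
  map_add' x y := by
    funext q
    show cyc (∑ a, C1_ext d (x + y) a * der a W) (rep q) =
      cyc (∑ a, C1_ext d x a * der a W) (rep q) + cyc (∑ a, C1_ext d y a * der a W) (rep q)
    simp only [C1_ext_add, add_mul, sum_add_distrib, cyc_add, add_apply]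
  map_smul' r x := by
    funext q
    show cyc (∑ a, C1_ext d (r • x) a * der a W) (rep q) = r * cyc (∑ a, C1_ext d x a * der a W) (rep q)
    have h1 : ∑ a, C1_ext d (r • x) a * der a W = r • ∑ a, C1_ext d x a * der a W := by
      rw [smul_sum]
      refine sum_congr rfl fun a _ => ?_
      rw [C1_ext_smul]
      exact smul_mul' r _ _
    rw [h1, cyc_smul, smul_apply]

theorem C1_surj {V : Type} [DecidableEq V] {P : Quiv V} (h2 : P.TwoAcyclic) {W : NC P.A ℂ} (hW : Pot P W)
    (hg : RG P W) (d : ℕ) : Function.Surjective (C1_map W d) := by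
  intro y
  obtain ⟨Y, hY, hYy⟩ := C1_pot P (d + 2) y
  obtain ⟨ξ, hξ1, hξ2⟩ := rigid_mod h2 hW hg (d + 2) hY
  refine ⟨fun p => ξ p.1.1 p.1.2, ?_⟩
  funext q
  show cyc (∑ a, C1_ext d (fun p : Pa P d => ξ p.1.1 p.1.2) a * der a W) (rep q) = y q
  have hq := (rep_cycle q).2
  rw [← hYy q, ← hξ2 (rep q) hq]
  refine C1_cyc_congr fun v hv => ?_
  rw [finsetSum_apply, finsetSum_apply]
  refine sum_congr rfl fun a _ => ?_
  refine C1_mul_congr (d := d) (C1_der_len h2 hW a) (fun w hw => ?_) (by omega)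
  unfold C1_ext
  split_ifs with h
  · rfl
  · by_contra hne
    exact h ⟨hw, hξ1 a w fun h3 => hne h3.symm⟩

theorem count_le {V : Type} [DecidableEq V] {P : Quiv V} (h2 : P.TwoAcyclic) {W : NC P.A ℂ} (hW : Pot P W)
    (hg : RG P W) (d : ℕ) : Nat.card (Cy P (d + 2)) ≤ Nat.card (Pa P d) := by
  have hf1 := finite_Cy P (d + 2)
  have hf2 := finite_Pa P d
  let i1 : Fintype (Cy P (d + 2)) := Fintype.ofFinite _
  let i2 : Fintype (Pa P d) := Fintype.ofFinite _
  have h3 := LinearMap.finrank_le_finrank_of_surjective (f := C1_map W d) (C1_surj h2 hW hg d)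
  rwa [Module.finrank_fintype_fun_eq_card, Module.finrank_fintype_fun_eq_card, ← Nat.card_eq_fintype_card,
    ← Nat.card_eq_fintype_card] at h3

end Cea.N
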