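import Pool.Agent.Lib.MP_cea156_al.N.E1a

/-! E1: the splitting theorem (Derksen-Weyman-Zelevinsky, Theorem 4.6), by completing the square. `split_fix` for `Z₃ = Z - ∑ x_i y_i`; the substitution
`φ`: `x_i ↦ x_i + W i`, `y_i ↦ y_i + U i` (`Iso_of_id_add`) transforms `plW S` into a potential cyclically equivalent to `Z` (`subst_plW`). -/

set_option autoImplicit false

namespace Cea.N

open Finset

variable {V R : Type} [DecidableEq V] [CommRing R] [Algebra ℚ R] {Q : Quiv V} {m : ℕ} {p q : Fin m → V}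

theorem E1_pot_xy : Pot (Q.plus p q) (∑ i, (X (Sum.inr (Sum.inl i)) : NC (Q.plus p q).A R) *
      (X (Sum.inr (Sum.inr i)) : NC (Q.plus p q).A R)) := by
  have h0 : Pot Q (0 : NC Q.A R) := fun w hw => absurd rfl hw
  have h := Pot_plW (p := p) (q := q) h0
  rw [plW_eq_sum, subst_zero, zero_add] at h
  exact h

theorem E1_pot_sub {Q' : Quiv V} {f g : NC Q'.A R} (hf : Pot Q' f) (hg : Pot Q' g) : Pot Q' (f - g) := by
  intro w hw
  by_cases h : f w = 0
  · apply hg w
    intro h'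
    apply hw
    rw [sub_apply, h, h', sub_zero]
  · exact hf w h

theorem E1_sup_add_X {Q' : Quiv V} {a : Q'.A} {i j : V} (hi : Q'.s a = i) (hj : Q'.t a = j) {f : NC Q'.A R}
    (hf : Sup Q' i j f) : Sup Q' i j ((X a : NC Q'.A R) + f) := by
  subst hi hj
  exact Sup_add (Sup_X Q' a) hf

theorem split {Z : NC (Q.plus p q).A R} (hZ : Pot (Q.plus p q) Z)
    (h3 : Len 3 (Z - ∑ i, (X (Sum.inr (Sum.inl i)) : NC (Q.plus p q).A R) *
      (X (Sum.inr (Sum.inr i)) : NC (Q.plus p q).A R))) :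
    ∃ S : NC Q.A R, Pot Q S ∧ Len 3 S ∧ RE (Q.plus p q) (Q.plus p q) Z (plW Q p q S) := by
  obtain ⟨U, W, S, hU2, hW2, hU, hW, hS, hS3, hc⟩ := split_fix (E1_pot_sub hZ E1_pot_xy) h3
  refine ⟨S, hS, hS3, ?_⟩
  let φ : (Q.plus p q).A → NC (Q.plus p q).A R :=
    Sum.elim (fun a => (X (Sum.inl a) : NC (Q.plus p q).A R))
      (Sum.elim (fun i => (X (Sum.inr (Sum.inl i)) : NC (Q.plus p q).A R) + W i)
        (fun i => (X (Sum.inr (Sum.inr i)) : NC (Q.plus p q).A R) + U i))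
  have e1 : ∀ a : Q.A, φ (Sum.inl a) = (X (Sum.inl a) : NC (Q.plus p q).A R) := fun a => rfl
  have e2 : ∀ i, φ (Sum.inr (Sum.inl i)) = (X (Sum.inr (Sum.inl i)) : NC (Q.plus p q).A R) + W i := fun i => rfl
  have e3 : ∀ i, φ (Sum.inr (Sum.inr i)) = (X (Sum.inr (Sum.inr i)) : NC (Q.plus p q).A R) + U i := fun i => rfl
  have hps : PS (Q.plus p q) (Q.plus p q) φ := by
    rintro (a | i | i)
    · exact Sup_X (Q.plus p q) (Sum.inl a)
    · exact E1_sup_add_X (Q' := Q.plus p q) (a := Sum.inr (Sum.inl i)) rfl rfl (hW i)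
    · exact E1_sup_add_X (Q' := Q.plus p q) (a := Sum.inr (Sum.inr i)) rfl rfl (hU i)
  have hl : ∀ a, Len 2 (φ a - X a) := by
    rintro (a | i | i)
    · have e : φ (Sum.inl a) - (X (Sum.inl a) : NC (Q.plus p q).A R) = 0 := by
        rw [e1]
        exact sub_self _
      rw [e]
      exact fun w hw => absurd rfl hw
    · have e : φ (Sum.inr (Sum.inl i)) - (X (Sum.inr (Sum.inl i)) : NC (Q.plus p q).A R) = W i := by
        rw [e2]
        exact add_sub_cancel_left _ _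
      rw [e]
      exact hW2 i
    · have e : φ (Sum.inr (Sum.inr i)) - (X (Sum.inr (Sum.inr i)) : NC (Q.plus p q).A R) = U i := by
        rw [e3]
        exact add_sub_cancel_left _ _
      rw [e]
      exact hU2 i
  have hiso : Iso (Q.plus p q) (Q.plus p q) φ := Iso_of_id_add hps hl
  refine RE.symm ⟨φ, hiso, ?_⟩
  rw [subst_plW (Iso.z0 hiso) S]
  have hsum : (∑ i, φ (Sum.inr (Sum.inl i)) * φ (Sum.inr (Sum.inr i))) =
      (∑ i, (X (Sum.inr (Sum.inl i)) : NC (Q.plus p q).A R) * (X (Sum.inr (Sum.inr i)) : NC (Q.plus p q).A R)) +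
        ∑ i, ((X (Sum.inr (Sum.inl i)) : NC (Q.plus p q).A R) * U i +
          W i * (X (Sum.inr (Sum.inr i)) : NC (Q.plus p q).A R) + W i * U i) := by
    rw [← sum_add_distrib]
    refine sum_congr rfl fun i _ => ?_
    rw [e2, e3]
    noncomm_ring
  have hs : subst (fun a => φ (Sum.inl a)) S = subst (fun a => (X (Sum.inl a) : NC (Q.plus p q).A R)) S := rfl
  rw [hsum, hs]
  rw [cyc_add, cyc_sub] at hc
  rw [cyc_add, cyc_add]
  have hc' : cyc (subst (fun a => (X (Sum.inl a) : NC (Q.plus p q).A R)) S) =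
    cyc Z - cyc (∑ i, (X (Sum.inr (Sum.inl i)) : NC (Q.plus p q).A R) *
      (X (Sum.inr (Sum.inr i)) : NC (Q.plus p q).A R)) -
      cyc (∑ i, ((X (Sum.inr (Sum.inl i)) : NC (Q.plus p q).A R) * U i +
          W i * (X (Sum.inr (Sum.inr i)) : NC (Q.plus p q).A R) + W i * U i)) := by
    rw [← hc]
    abel
  rw [hc']
  abel

end Cea.N
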