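import Pool.Agent.Lib.MP_cea156_al.N.U4a
import Pool.Agent.Lib.MP_cea156_al.N.A8

/-! E1a: fixed point for the splitting theorem. Put
`F = Z₃ - ∑ W i * U i` and solve `U i = Dec F (x_i)`, `W i = Dec F (y_i)` with the marked letters `mk = Sum.inr` (all `x_i` and `y_i`), by `exists_fix` with
`M = Fin m ⊕ Fin m → R`; to have an honest contraction use the operator which first replaces `U i`, `W i` by their restrictions to words of length at
least 2 which are paths `q i → p i`, `p i → q i`. Take `S = kil F`; the part of `F` with at least one marked letter is handled by `cyc_dec`. -/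

set_option autoImplicit false

namespace Cea.N

open Finset

variable {V R : Type} [DecidableEq V] [CommRing R] [Algebra ℚ R] {Q : Quiv V} {m : ℕ} {p q : Fin m → V}

/-- the marked letters -/
def E1a_mk (Q : Quiv V) {m : ℕ} (p q : Fin m → V) (z : Fin m ⊕ Fin m) : (Q.plus p q).A := Sum.inr z

theorem E1a_mk_inj : Function.Injective (E1a_mk Q p q) := fun _ _ h => Sum.inr_injective h

theorem E1a_nmk_map (l : List Q.A) :
    nmk (E1a_mk Q p q) (l.map Sum.inl : List (Q.plus p q).A) = 0 := by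
  classical
  unfold nmk
  rw [List.length_eq_zero_iff, List.filter_eq_nil_iff]
  intro a ha
  obtain ⟨b, _, rfl⟩ := List.mem_map.1 ha
  simp only [decide_eq_true_eq, not_exists]
  intro z hz
  exact absurd hz (by unfold E1a_mk; exact Sum.inr_ne_inl)

theorem E1a_nmk_zero {w : List (Q.plus p q).A} (h : nmk (E1a_mk Q p q) w = 0) :
    ∃ l : List Q.A, w = l.map Sum.inl := by
  classical
  induction w with
  | nil => exact ⟨[], rfl⟩
  | cons a w ih =>
    have h1 : nmk (E1a_mk Q p q) (a :: w) = nmk (E1a_mk Q p q) [a] + nmk (E1a_mk Q p q) w :=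
      nmk_append _ [a] w
    obtain ⟨l, hl⟩ := ih (by omega)
    have h2 : nmk (E1a_mk Q p q) [a] = 0 := by omega
    unfold nmk at h2
    rw [List.length_eq_zero_iff, List.filter_eq_nil_iff] at h2
    have h3 := h2 a (List.mem_singleton.2 rfl)
    simp only [decide_eq_true_eq, not_exists] at h3
    rcases a with b | z
    · exact ⟨b :: l, by rw [hl]; rfl⟩
    · exact absurd rfl (h3 z)

theorem E1a_nmk_cons (z : Fin m ⊕ Fin m) (w : List (Q.plus p q).A) :
    nmk (E1a_mk Q p q) (E1a_mk Q p q z :: w) ≠ 0 := by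
  classical
  have h1 : nmk (E1a_mk Q p q) (E1a_mk Q p q z :: w) =
      nmk (E1a_mk Q p q) [E1a_mk Q p q z] + nmk (E1a_mk Q p q) w := nmk_append _ [E1a_mk Q p q z] w
  have h2 : nmk (E1a_mk Q p q) [E1a_mk Q p q z] = 1 := by
    unfold nmk
    rw [List.filter_cons_of_pos (by simp only [decide_eq_true_eq]; exact ⟨z, rfl⟩)]
    rfl
  omega

theorem E1a_wordSub (u : List Q.A) :
    wordSub (fun a => (X (Sum.inl a) : NC (Q.plus p q).A R)) u =
      mon (u.map Sum.inl : List (Q.plus p q).A) := by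
  induction u with
  | nil => exact mon_nil.symm
  | cons a u ih =>
    show (X (Sum.inl a) : NC (Q.plus p q).A R) * wordSub _ u = _
    rw [ih]
    exact mon_mul_mon [Sum.inl a] (u.map Sum.inl : List (Q.plus p q).A)

theorem E1a_mon_self {A : Type} [DecidableEq A] (u : List A) : (mon u : NC A R) u = 1 := if_pos rfl

theorem E1a_mon_ne {A : Type} [DecidableEq A] {u w : List A} (h : w ≠ u) : (mon u : NC A R) w = 0 :=
  if_neg h

theorem E1a_z0 : Z0 (fun a => (X (Sum.inl a) : NC (Q.plus p q).A R)) := by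
  intro a
  exact E1a_mon_ne (by simp)

theorem E1a_iota_map (S : NC Q.A R) (l : List Q.A) :
    subst (fun a => (X (Sum.inl a) : NC (Q.plus p q).A R)) S (l.map Sum.inl) = S l := by
  classical
  rw [subst_apply E1a_z0 S (l.map Sum.inl : List (Q.plus p q).A) (N := l.length) (by simp)]
  rw [Finset.sum_eq_single l]
  · rw [E1a_wordSub, E1a_mon_self, mul_one]
  · intro u _ hu
    rw [E1a_wordSub, E1a_mon_ne, mul_zero]
    intro h
    exact hu (List.map_injective_iff.2 Sum.inl_injective h).symm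
  · intro h
    exact absurd (mem_wds.2 le_rfl) h

theorem E1a_iota_zero (S : NC Q.A R) {w : List (Q.plus p q).A} (h : nmk (E1a_mk Q p q) w ≠ 0) :
    subst (fun a => (X (Sum.inl a) : NC (Q.plus p q).A R)) S w = 0 := by
  classical
  rw [subst_apply E1a_z0 S w (N := w.length) le_rfl]
  refine Finset.sum_eq_zero fun u _ => ?_
  rw [E1a_wordSub, E1a_mon_ne, mul_zero]
  rintro rfl
  exact h (E1a_nmk_map u)

theorem E1a_isPath_map (u : List Q.A) : ∀ i j : V,
    (Q.plus p q).IsPath i (u.map Sum.inl : List (Q.plus p q).A) j ↔ Q.IsPath i u j := by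
  induction u with
  | nil => intro i j; exact Iff.rfl
  | cons a u ih =>
    intro i j
    show ((Q.s a = i) ∧ (Q.plus p q).IsPath (Q.t a) (u.map Sum.inl : List (Q.plus p q).A) j) ↔
      (Q.s a = i ∧ Q.IsPath (Q.t a) u j)
    rw [ih]

open Classical in
/-- the truncated series -/
noncomputable def E1a_Tr (Q : Quiv V) {m : ℕ} (p q : Fin m → V)
    (f : List (Q.plus p q).A → (Fin m ⊕ Fin m → R)) (z : Fin m ⊕ Fin m) : NC (Q.plus p q).A R :=
  fun w => if 2 ≤ w.length ∧ (Q.plus p q).IsPath ((Q.plus p q).t (E1a_mk Q p q z)) w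
    ((Q.plus p q).s (E1a_mk Q p q z)) then f w z else 0

theorem E1a_Tr_len (f : List (Q.plus p q).A → (Fin m ⊕ Fin m → R)) (z : Fin m ⊕ Fin m) :
    Len 2 (E1a_Tr Q p q f z) := by
  intro w hw
  by_contra hlt
  apply hw
  unfold E1a_Tr
  rw [if_neg]
  exact fun h => hlt h.1

theorem E1a_Tr_sup (f : List (Q.plus p q).A → (Fin m ⊕ Fin m → R)) (z : Fin m ⊕ Fin m) :
    Sup (Q.plus p q) ((Q.plus p q).t (E1a_mk Q p q z)) ((Q.plus p q).s (E1a_mk Q p q z))
      (E1a_Tr Q p q f z) := by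
  intro w hw
  by_contra hlt
  apply hw
  unfold E1a_Tr
  rw [if_neg]
  exact fun h => hlt h.2

theorem E1a_Tr_congr {f g : List (Q.plus p q).A → (Fin m ⊕ Fin m → R)} (z : Fin m ⊕ Fin m)
    {w : List (Q.plus p q).A} (h : f w = g w) : E1a_Tr Q p q f z w = E1a_Tr Q p q g z w := by
  unfold E1a_Tr
  rw [h]

/-- the series `F` of the docstring -/
noncomputable def E1a_G (Z₃ : NC (Q.plus p q).A R)
    (f : List (Q.plus p q).A → (Fin m ⊕ Fin m → R)) : NC (Q.plus p q).A R :=
  Z₃ - ∑ i, E1a_Tr Q p q f (Sum.inr i) * E1a_Tr Q p q f (Sum.inl i)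

theorem E1a_G_congr (Z₃ : NC (Q.plus p q).A R) {f g : List (Q.plus p q).A → (Fin m ⊕ Fin m → R)}
    {n : ℕ} (h : ∀ u, u.length < n → f u = g u) {u : List (Q.plus p q).A} (hu : u.length = n + 1) :
    E1a_G Z₃ f u = E1a_G Z₃ g u := by
  unfold E1a_G
  rw [sub_apply, sub_apply, finsetSum_apply, finsetSum_apply]
  congr 1
  refine Finset.sum_congr rfl fun i _ => ?_
  rw [mul_apply, mul_apply]
  refine Finset.sum_congr rfl fun k hk => ?_
  have hk' : k ≤ u.length := Nat.lt_succ_iff.1 (Finset.mem_range.1 hk)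
  have hshort : ∀ (f' : List (Q.plus p q).A → (Fin m ⊕ Fin m → R)) (z : Fin m ⊕ Fin m)
      (v : List (Q.plus p q).A), v.length < 2 → E1a_Tr Q p q f' z v = 0 := by
    intro f' z v hv
    by_contra hne
    exact absurd (E1a_Tr_len f' z v hne) (not_le.2 hv)
  have ht : (u.take k).length = k := by rw [List.length_take]; exact min_eq_left hk'
  have hd : (u.drop k).length = u.length - k := List.length_drop
  by_cases h1 : k < 2
  · rw [hshort f _ _ (ht.trans_lt h1), hshort g _ _ (ht.trans_lt h1), zero_mul, zero_mul]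
  by_cases h2 : u.length - k < 2
  · rw [hshort f _ _ (hd.trans_lt h2), hshort g _ _ (hd.trans_lt h2), mul_zero, mul_zero]
  rw [E1a_Tr_congr _ (h (u.take k) (by omega)), E1a_Tr_congr _ (h (u.drop k) (by omega))]

theorem E1a_G_len {Z₃ : NC (Q.plus p q).A R} (h3 : Len 3 Z₃)
    (f : List (Q.plus p q).A → (Fin m ⊕ Fin m → R)) : Len 3 (E1a_G Z₃ f) := by
  intro w hw
  by_contra hlt
  apply hw
  unfold E1a_G
  rw [sub_apply, finsetSum_apply]
  have h1 : Z₃ w = 0 := by
    by_contra hne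
    exact hlt (h3 w hne)
  rw [h1, Finset.sum_eq_zero, sub_zero]
  intro i _
  rw [mul_apply]
  refine Finset.sum_eq_zero fun k hk => ?_
  have hk' : k ≤ w.length := Nat.lt_succ_iff.1 (Finset.mem_range.1 hk)
  have ht : (w.take k).length = k := by rw [List.length_take]; exact min_eq_left hk'
  have hd : (w.drop k).length = w.length - k := List.length_drop
  by_contra hne
  have e1 := E1a_Tr_len f _ _ (left_ne_zero_of_mul hne)
  have e2 := E1a_Tr_len f _ _ (right_ne_zero_of_mul hne)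
  omega

theorem E1a_G_pot {Z₃ : NC (Q.plus p q).A R} (hZ : Pot (Q.plus p q) Z₃)
    (f : List (Q.plus p q).A → (Fin m ⊕ Fin m → R)) : Pot (Q.plus p q) (E1a_G Z₃ f) := by
  intro w hw
  by_cases h1 : Z₃ w = 0
  · unfold E1a_G at hw
    rw [sub_apply, finsetSum_apply, h1, zero_sub, neg_ne_zero] at hw
    obtain ⟨i, _, hi⟩ := Finset.exists_ne_zero_of_sum_ne_zero hw
    have h2 := Sup_mul (E1a_Tr_sup f (Sum.inr i)) (E1a_Tr_sup f (Sum.inl i)) w hi
    refine ⟨?_, _, h2⟩
    rintro rfl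
    rw [mul_nil] at hi
    exact absurd (E1a_Tr_len f _ _ (left_ne_zero_of_mul hi)) (by simp)
  · exact hZ w h1

/-- `Dec` of a potential is supported on paths -/
theorem E1a_dec_sup {G : NC (Q.plus p q).A R} (hG : Pot (Q.plus p q) G) (z : Fin m ⊕ Fin m) :
    Sup (Q.plus p q) ((Q.plus p q).t (E1a_mk Q p q z)) ((Q.plus p q).s (E1a_mk Q p q z))
      (Dec (E1a_mk Q p q) G z) := by
  intro w hw
  have h1 : cyc G (E1a_mk Q p q z :: w) ≠ 0 := right_ne_zero_of_mul hw
  obtain ⟨_, i, h2, h3⟩ := Pot_cyc hG _ h1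
  rw [← h2] at h3
  exact h3

theorem split_fix {Z₃ : NC (Q.plus p q).A R} (hZ : Pot (Q.plus p q) Z₃) (h3 : Len 3 Z₃) :
    ∃ (U W : Fin m → NC (Q.plus p q).A R) (S : NC Q.A R), (∀ i, Len 2 (U i)) ∧ (∀ i, Len 2 (W i)) ∧
      (∀ i, Sup (Q.plus p q) (q i) (p i) (U i)) ∧ (∀ i, Sup (Q.plus p q) (p i) (q i) (W i)) ∧ Pot Q S ∧ Len 3 S ∧
      cyc (∑ i, ((X (Sum.inr (Sum.inl i)) : NC (Q.plus p q).A R) * U i +
          W i * (X (Sum.inr (Sum.inr i)) : NC (Q.plus p q).A R) + W i * U i) +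
        subst (fun a => (X (Sum.inl a) : NC (Q.plus p q).A R)) S) = cyc Z₃ := by
  classical
  have hinh : Inhabited (Fin m ⊕ Fin m → R) := ⟨0⟩
  -- the fixed point
  obtain ⟨f, hf⟩ := exists_fix (M := Fin m ⊕ Fin m → R)
    (fun (f : List (Q.plus p q).A → (Fin m ⊕ Fin m → R)) (w : List (Q.plus p q).A) z =>
      Dec (E1a_mk Q p q) (E1a_G Z₃ f) z w) (by
    intro f g w h
    funext z
    exact dec_congr _ z w fun u hu => E1a_G_congr Z₃ h hu)
  have hfz : ∀ w z, Dec (E1a_mk Q p q) (E1a_G Z₃ f) z w = f w z := fun w z =>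
    congrFun (congrFun hf w) z
  have hGlen := E1a_G_len h3 f
  have hGpot := E1a_G_pot hZ f
  have hDlen : ∀ z, Len 2 (Dec (E1a_mk Q p q) (E1a_G Z₃ f) z) := fun z => len_dec _ hGlen z
  have hDsup := E1a_dec_sup (Q := Q) (p := p) (q := q) hGpot
  have hTr : ∀ z, E1a_Tr Q p q f z = Dec (E1a_mk Q p q) (E1a_G Z₃ f) z := by
    intro z
    refine ext fun w => ?_
    unfold E1a_Tr
    split_ifs with hc
    · exact (hfz w z).symm
    · by_contra hne
      exact hc ⟨hDlen z w (Ne.symm hne), hDsup z w (Ne.symm hne)⟩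
  have hG : E1a_G Z₃ f = Z₃ - ∑ i, Dec (E1a_mk Q p q) (E1a_G Z₃ f) (Sum.inr i) *
      Dec (E1a_mk Q p q) (E1a_G Z₃ f) (Sum.inl i) := by
    conv_lhs => unfold E1a_G
    simp only [hTr]
  generalize E1a_G Z₃ f = G at hGlen hGpot hDlen hDsup hG
  refine ⟨fun i => Dec (E1a_mk Q p q) G (Sum.inl i), fun i => Dec (E1a_mk Q p q) G (Sum.inr i),
    kil G, fun i => hDlen _, fun i => hDlen _, fun i => hDsup (Sum.inl i),
    fun i => hDsup (Sum.inr i), ?_, ?_, ?_⟩
  · intro w hw
    obtain ⟨h1, i, h2⟩ := hGpot _ hw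
    refine ⟨?_, i, (E1a_isPath_map w i i).1 h2⟩
    rintro rfl
    exact h1 rfl
  · intro w hw
    have h1 := hGlen _ hw
    have h2 : (w.map (Sum.inl : Q.A → Q.A ⊕ (Fin m ⊕ Fin m))).length = w.length := List.length_map _
    exact le_of_le_of_eq h1 h2
  · -- the part with marked letters
    let H : NC (Q.plus p q).A R := fun w => if nmk (E1a_mk Q p q) w = 0 then 0 else G w
    have hH : G = H + subst (fun a => (X (Sum.inl a) : NC (Q.plus p q).A R)) (kil G) := by
      refine ext fun w => ?_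
      rw [add_apply]
      by_cases h0 : nmk (E1a_mk Q p q) w = 0
      · have h1 : H w = 0 := if_pos h0
        obtain ⟨l, hl⟩ := E1a_nmk_zero h0
        rw [h1, zero_add, hl]
        exact (E1a_iota_map (kil G) l).symm
      · have h1 : H w = G w := if_neg h0
        rw [h1, E1a_iota_zero _ h0, add_zero]
    have hcH : ∀ w, nmk (E1a_mk Q p q) w = 0 → cyc H w = 0 := by
      intro w hw
      refine Finset.sum_eq_zero fun k _ => ?_
      exact if_pos (by rw [nmk_rotate]; exact hw)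
    have hDec : ∀ z, Dec (E1a_mk Q p q) H z = Dec (E1a_mk Q p q) G z := by
      intro z
      refine ext fun w => ?_
      unfold Dec
      congr 1
      refine Finset.sum_congr rfl fun k _ => ?_
      exact if_neg (by rw [nmk_rotate]; exact E1a_nmk_cons z w)
    have hmain := cyc_dec (E1a_mk_inj (Q := Q) (p := p) (q := q)) H hcH
    rw [Fintype.sum_sum_type] at hmain
    simp only [hDec] at hmain
    have hcomm : cyc (∑ i, (X (E1a_mk Q p q (Sum.inr i)) : NC (Q.plus p q).A R) *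
        Dec (E1a_mk Q p q) G (Sum.inr i)) = cyc (∑ i, Dec (E1a_mk Q p q) G (Sum.inr i) *
          (X (E1a_mk Q p q (Sum.inr i)) : NC (Q.plus p q).A R)) := by
      rw [cyc_sum, cyc_sum]
      exact Finset.sum_congr rfl fun i _ => cyc_mul_comm _ _
    rw [cyc_add, hcomm] at hmain
    have hZ3 : Z₃ = G + ∑ i, Dec (E1a_mk Q p q) G (Sum.inr i) * Dec (E1a_mk Q p q) G (Sum.inl i) :=
      (eq_sub_iff_add_eq.1 hG).symm
    have e1 : cyc G = cyc H + cyc (subst (fun a => (X (Sum.inl a) : NC (Q.plus p q).A R)) (kil G)) := by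
      rw [← cyc_add, ← hH]
    have e2 : cyc Z₃ = cyc G + cyc (∑ i, Dec (E1a_mk Q p q) G (Sum.inr i) *
        Dec (E1a_mk Q p q) G (Sum.inl i)) := by
      rw [← cyc_add, ← hZ3]
    rw [e2, e1, ← hmain, sum_add_distrib, sum_add_distrib, cyc_add, cyc_add, cyc_add]
    unfold E1a_mk
    abel

end Cea.N
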