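import Mathlib

/-! E2a: normal form of a pairing `M : C × O → R` with an invertible block `M₀₀` (rows `f i`, columns `g j`, inverse `N`) and vanishing Schur complement.
Write `C₀ = range f`, `C₁` its complement, `O₀ = range g`, `O₁` its complement. `L` (rows: old letters, columns: new letters):
`f i ↦ x_i - ∑_{c ∈ C₁} (∑_j M c (g j) N j i) c`, `c ↦ c` (`c ∈ C₁`), `g j ↦ ∑_i N j i y_i - ∑_{o ∈ O₁} (∑_i N j i M (f i) o) o`, `o ↦ o` (`o ∈ O₁`), `t ↦ t`.
Inverse: `x_i ↦ f i + ∑_{c ∈ C₁} (∑_j M c (g j) N j i) c`, `y_i ↦ ∑_o M (f i) o o`, the other letters to themselves. Types: `N j i ≠ 0` implies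
`ty (g j) = swap (ty (f i))`, because `N` restricted to such pairs is also an inverse of `M₀₀`. -/

set_option autoImplicit false

namespace Cea.N

open Finset Matrix

variable {R V : Type} [CommRing R] {O C T : Type} [Fintype O] [DecidableEq O] [Fintype C] [DecidableEq C]
  [Fintype T] [DecidableEq T]

/-- the symmetric pairing of `O` and `C` -/
def pairM (T : Type) (M : Matrix C O R) : Matrix (O ⊕ C ⊕ T) (O ⊕ C ⊕ T) R := Matrix.of fun u v =>
  match u, v with
  | Sum.inl o, Sum.inr (Sum.inl c) => M c o
  | Sum.inr (Sum.inl c), Sum.inl o => M c o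
  | _, _ => 0

/-- the symmetric pairing of the `x_i` and the `y_i` -/
def pairJ (A : Type) (r : ℕ) : Matrix (A ⊕ (Fin r ⊕ Fin r)) (A ⊕ (Fin r ⊕ Fin r)) R := Matrix.of fun u v =>
  match u, v with
  | Sum.inr (Sum.inl i), Sum.inr (Sum.inr j) => if i = j then 1 else 0
  | Sum.inr (Sum.inr i), Sum.inr (Sum.inl j) => if i = j then 1 else 0
  | _, _ => 0

/-- the letters which are not in the ranges of `f` and `g` -/
abbrev Rest {r : ℕ} (T : Type) (f : Fin r → C) (g : Fin r → O) : Type :=
  {x : O ⊕ C ⊕ T // (∀ i, x ≠ Sum.inr (Sum.inl (f i))) ∧ ∀ i, x ≠ Sum.inl (g i)}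

/-- types (source, target) of the new letters -/
def ty' {r : ℕ} (ty : O ⊕ C ⊕ T → V × V) (f : Fin r → C) (g : Fin r → O) : Rest T f g ⊕ (Fin r ⊕ Fin r) → V × V :=
  Sum.elim (fun x => ty x.1) (Sum.elim (fun i => ty (Sum.inr (Sum.inl (f i)))) fun i => (ty (Sum.inr (Sum.inl (f i)))).swap)

/-- the inverse of the block respects the types -/
theorem N_ty {r : ℕ} (ty : O ⊕ C ⊕ T → V × V) (f : Fin r → C) (g : Fin r → O) (M : Matrix C O R)
    (N : Matrix (Fin r) (Fin r) R) (h1 : (Matrix.of fun i j => M (f i) (g j)) * N = 1)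
    (h2 : N * (Matrix.of fun i j => M (f i) (g j)) = 1)
    (hM : ∀ c o, M c o ≠ 0 → ty (Sum.inl o) = (ty (Sum.inr (Sum.inl c))).swap) (i j : Fin r) (h : N j i ≠ 0) :
    ty (Sum.inl (g j)) = (ty (Sum.inr (Sum.inl (f i)))).swap := by
  classical
  let N' : Matrix (Fin r) (Fin r) R := Matrix.of fun j i =>
    if ty (Sum.inl (g j)) = (ty (Sum.inr (Sum.inl (f i)))).swap then N j i else 0
  have e1 : (Matrix.of fun i j => M (f i) (g j)) * N' = 1 := by
    ext i k
    by_cases hik : ty (Sum.inr (Sum.inl (f i))) = ty (Sum.inr (Sum.inl (f k)))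
    · rw [← h1, Matrix.mul_apply, Matrix.mul_apply]
      refine Finset.sum_congr rfl fun j _ => ?_
      by_cases hz : M (f i) (g j) = 0
      · simp only [Matrix.of_apply, hz, zero_mul]
      · have : N' j k = N j k := by
          show (if ty (Sum.inl (g j)) = (ty (Sum.inr (Sum.inl (f k)))).swap then N j k else 0) = N j k
          rw [if_pos]
          rw [hM _ _ hz, hik]
        rw [this]
    · have hne : i ≠ k := fun h => hik (by rw [h])
      rw [Matrix.one_apply_ne hne, Matrix.mul_apply]
      refine Finset.sum_eq_zero fun j _ => ?_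
      by_cases hz : M (f i) (g j) = 0
      · simp only [Matrix.of_apply, hz, zero_mul]
      · have : N' j k = 0 := by
          show (if ty (Sum.inl (g j)) = (ty (Sum.inr (Sum.inl (f k)))).swap then N j k else 0) = 0
          rw [if_neg]
          intro h3
          rw [hM _ _ hz] at h3
          exact hik (Prod.swap_injective h3)
        rw [this, mul_zero]
  have e2 : N' = N := by
    calc N' = (N * (Matrix.of fun i j => M (f i) (g j))) * N' := by rw [h2, one_mul]
      _ = N * ((Matrix.of fun i j => M (f i) (g j)) * N') := by rw [Matrix.mul_assoc]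
      _ = N := by rw [e1, mul_one]
  by_contra hc
  apply h
  rw [← e2]
  show (if ty (Sum.inl (g j)) = (ty (Sum.inr (Sum.inl (f i)))).swap then N j i else 0) = 0
  rw [if_neg hc]

/-- the row of `x_i` -/
def E2a_K {r : ℕ} (T : Type) (g : Fin r → O) (M : Matrix C O R) (N : Matrix (Fin r) (Fin r) R) (i : Fin r) :
    O ⊕ C ⊕ T → R := Sum.elim (fun _ => 0) (Sum.elim (fun c => ∑ j, M c (g j) * N j i) fun _ => 0)

/-- the correction of `g j` -/
def E2a_H {r : ℕ} (T : Type) (f : Fin r → C) (M : Matrix C O R) (N : Matrix (Fin r) (Fin r) R) (j : Fin r) :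
    O ⊕ C ⊕ T → R := Sum.elim (fun o => ∑ i, N j i * M (f i) o) fun _ => 0

/-- the matrix of the inverse substitution -/
def E2a_L' {r : ℕ} (T : Type) [DecidableEq T] (f : Fin r → C) (g : Fin r → O) (M : Matrix C O R)
    (N : Matrix (Fin r) (Fin r) R) : Matrix (Rest T f g ⊕ (Fin r ⊕ Fin r)) (O ⊕ C ⊕ T) R := Matrix.of fun u' u =>
  Sum.elim (fun x => if x.1 = u then 1 else 0)
    (Sum.elim (fun i => E2a_K T g M N i u) fun i => Sum.elim (fun o => M (f i) o) (fun _ => 0) u) u'

/-- the matrix of the substitution -/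
def E2a_L {r : ℕ} (T : Type) [DecidableEq T] (f : Fin r → C) (g : Fin r → O) (M : Matrix C O R)
    (N : Matrix (Fin r) (Fin r) R) : Matrix (O ⊕ C ⊕ T) (Rest T f g ⊕ (Fin r ⊕ Fin r)) R := Matrix.of fun u u' =>
  Sum.elim (fun x => (if x.1 = u then 1 else 0) -
      Sum.elim (fun o => ∑ j, if o = g j then E2a_H T f M N j x.1 else 0)
        (Sum.elim (fun c => ∑ i, if c = f i then E2a_K T g M N i x.1 else 0) fun _ => 0) u)
    (Sum.elim (fun i => Sum.elim (fun _ => 0) (Sum.elim (fun c => if c = f i then 1 else 0) fun _ => 0) u)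
      fun i => Sum.elim (fun o => ∑ j, if o = g j then N j i else 0) (fun _ => 0) u) u'

theorem E2a_sum {α : Type} [Fintype α] [DecidableEq α] {r : ℕ} (F : α → R) (h : Fin r → α) (G : Fin r → R) :
    ∑ a, F a * ∑ i, (if a = h i then G i else 0) = ∑ i, F (h i) * G i := by
  simp only [Finset.mul_sum]
  rw [Finset.sum_comm]
  refine Finset.sum_congr rfl fun i _ => ?_
  rw [Finset.sum_eq_single (h i)]
  · rw [if_pos rfl]
  · intro b _ hb
    rw [if_neg hb, mul_zero]
  · intro hn
    exact absurd (Finset.mem_univ _) hn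

theorem E2a_K_f {r : ℕ} (f : Fin r → C) (g : Fin r → O) (M : Matrix C O R)
    (N : Matrix (Fin r) (Fin r) R) (h1 : (Matrix.of fun i j => M (f i) (g j)) * N = 1) (i i' : Fin r) :
    ∑ j, M (f i) (g j) * N j i' = (1 : Matrix (Fin r) (Fin r) R) i i' := by
  rw [← h1, Matrix.mul_apply]
  rfl

theorem E2a_mul {r : ℕ} (f : Fin r → C) (g : Fin r → O) (M : Matrix C O R)
    (N : Matrix (Fin r) (Fin r) R) (h1 : (Matrix.of fun i j => M (f i) (g j)) * N = 1) :
    E2a_L' T f g M N * E2a_L T f g M N = 1 := by
  ext u' v'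
  rw [Matrix.mul_apply]
  rcases u' with x | i | i
  · -- rows of the remaining letters
    have e1 : ∑ u, E2a_L' T f g M N (Sum.inl x) u * E2a_L T f g M N u v' = E2a_L T f g M N x.1 v' := by
      rw [Finset.sum_eq_single x.1]
      · show (if x.1 = x.1 then (1 : R) else 0) * _ = _
        rw [if_pos rfl, one_mul]
      · intro b _ hb
        show (if x.1 = b then (1 : R) else 0) * _ = _
        rw [if_neg (Ne.symm hb), zero_mul]
      · intro hn
        exact absurd (Finset.mem_univ _) hn
    rw [e1]
    obtain ⟨x, hx1, hx2⟩ := x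
    rcases v' with y | i | i
    · have e2 : Sum.elim (fun o => ∑ j, if o = g j then E2a_H T f M N j y.1 else 0)
          (Sum.elim (fun c => ∑ i, if c = f i then E2a_K T g M N i y.1 else 0) fun _ => 0) x = 0 := by
        rcases x with o | c | t
        · show ∑ j, (if o = g j then E2a_H T f M N j y.1 else 0) = 0
          refine Finset.sum_eq_zero fun j _ => ?_
          have hj : o ≠ g j := fun h => hx2 j (by rw [h])
          rw [if_neg hj]
        · show ∑ j, (if c = f j then E2a_K T g M N j y.1 else 0) = 0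
          refine Finset.sum_eq_zero fun j _ => ?_
          have hj : c ≠ f j := fun h => hx1 j (by rw [h])
          rw [if_neg hj]
        · rfl
      show (if y.1 = x then (1 : R) else 0) - _ = _
      rw [e2, sub_zero, Matrix.one_apply]
      by_cases h : y.1 = x
      · rw [if_pos h, if_pos]
        congr 1
        exact Subtype.ext h.symm
      · rw [if_neg h, if_neg]
        intro h3
        apply h
        have := Sum.inl_injective h3
        rw [← this]
    · rw [Matrix.one_apply_ne (by simp)]
      rcases x with o | c | t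
      · rfl
      · show (if c = f i then (1 : R) else 0) = 0
        exact if_neg fun h => hx1 i (by rw [h])
      · rfl
    · rw [Matrix.one_apply_ne (by simp)]
      rcases x with o | c | t
      · show ∑ j, (if o = g j then N j i else 0) = 0
        exact Finset.sum_eq_zero fun j _ => if_neg fun h => hx2 j (by rw [h])
      · rfl
      · rfl
  · -- rows of the `x_i`
    rw [Fintype.sum_sum_type, Fintype.sum_sum_type]
    have z1 : ∑ o : O, E2a_L' T f g M N (Sum.inr (Sum.inl i)) (Sum.inl o) * E2a_L T f g M N (Sum.inl o) v' = 0 :=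
      Finset.sum_eq_zero fun o _ => by
        show (0 : R) * _ = 0
        rw [zero_mul]
    have z2 : ∑ t : T, E2a_L' T f g M N (Sum.inr (Sum.inl i)) (Sum.inr (Sum.inr t)) *
        E2a_L T f g M N (Sum.inr (Sum.inr t)) v' = 0 :=
      Finset.sum_eq_zero fun o _ => by
        show (0 : R) * _ = 0
        rw [zero_mul]
    rw [z1, z2, zero_add, add_zero]
    rcases v' with y | i' | i'
    · rw [Matrix.one_apply_ne (by simp)]
      have e1 : ∀ c : C, E2a_L' T f g M N (Sum.inr (Sum.inl i)) (Sum.inr (Sum.inl c)) *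
          E2a_L T f g M N (Sum.inr (Sum.inl c)) (Sum.inl y) =
          (if y.1 = Sum.inr (Sum.inl c) then ∑ j, M c (g j) * N j i else 0) -
            (∑ j, M c (g j) * N j i) * ∑ i', (if c = f i' then E2a_K T g M N i' y.1 else 0) := by
        intro c
        show (∑ j, M c (g j) * N j i) * ((if y.1 = Sum.inr (Sum.inl c) then (1 : R) else 0) -
          ∑ i', (if c = f i' then E2a_K T g M N i' y.1 else 0)) = _
        rw [mul_sub, mul_ite, mul_one, mul_zero]
      rw [Finset.sum_congr rfl fun c _ => e1 c, Finset.sum_sub_distrib,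
        E2a_sum (fun c => ∑ j, M c (g j) * N j i) f]
      simp only [E2a_K_f f g M N h1]
      have e2 : ∑ i', (1 : Matrix (Fin r) (Fin r) R) i' i * E2a_K T g M N i' y.1 = E2a_K T g M N i y.1 := by
        rw [Finset.sum_eq_single i]
        · rw [Matrix.one_apply_eq, one_mul]
        · intro b _ hb
          rw [Matrix.one_apply_ne hb, zero_mul]
        · intro hn
          exact absurd (Finset.mem_univ _) hn
      rw [e2]
      obtain ⟨y, hy1, hy2⟩ := y
      rcases y with o | c | t
      · have : ∑ c : C, (if (Sum.inl o : O ⊕ C ⊕ T) = Sum.inr (Sum.inl c) then ∑ j, M c (g j) * N j i else 0) = 0 :=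
          Finset.sum_eq_zero fun c _ => if_neg (by simp)
        show ∑ c : C, (if (Sum.inl o : O ⊕ C ⊕ T) = Sum.inr (Sum.inl c) then ∑ j, M c (g j) * N j i else 0) - 0 = 0
        rw [this, sub_zero]
      · have : ∑ c' : C, (if (Sum.inr (Sum.inl c) : O ⊕ C ⊕ T) = Sum.inr (Sum.inl c') then
            ∑ j, M c' (g j) * N j i else 0) = ∑ j, M c (g j) * N j i := by
          rw [Finset.sum_eq_single c]
          · rw [if_pos rfl]
          · intro b _ hb
            rw [if_neg]
            intro h3
            exact hb (Sum.inl_injective (Sum.inr_injective h3)).symm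
          · intro hn
            exact absurd (Finset.mem_univ _) hn
        show ∑ c' : C, (if (Sum.inr (Sum.inl c) : O ⊕ C ⊕ T) = Sum.inr (Sum.inl c') then
            ∑ j, M c' (g j) * N j i else 0) - ∑ j, M c (g j) * N j i = 0
        rw [this, sub_self]
      · have : ∑ c : C, (if (Sum.inr (Sum.inr t) : O ⊕ C ⊕ T) = Sum.inr (Sum.inl c) then
            ∑ j, M c (g j) * N j i else 0) = 0 :=
          Finset.sum_eq_zero fun c _ => if_neg (by simp)
        show ∑ c : C, (if (Sum.inr (Sum.inr t) : O ⊕ C ⊕ T) = Sum.inr (Sum.inl c) then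
            ∑ j, M c (g j) * N j i else 0) - 0 = 0
        rw [this, sub_zero]
    · have e1 : ∀ c : C, E2a_L' T f g M N (Sum.inr (Sum.inl i)) (Sum.inr (Sum.inl c)) *
          E2a_L T f g M N (Sum.inr (Sum.inl c)) (Sum.inr (Sum.inl i')) =
          if c = f i' then ∑ j, M c (g j) * N j i else 0 := by
        intro c
        show (∑ j, M c (g j) * N j i) * (if c = f i' then (1 : R) else 0) = _
        rw [mul_ite, mul_one, mul_zero]
      rw [Finset.sum_congr rfl fun c _ => e1 c, Finset.sum_ite_eq' Finset.univ (f i'), if_pos (Finset.mem_univ _),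
        E2a_K_f f g M N h1, Matrix.one_apply, Matrix.one_apply]
      by_cases h : i' = i
      · rw [if_pos h, if_pos (by rw [h])]
      · rw [if_neg h, if_neg (fun h3 => h (Sum.inl_injective (Sum.inr_injective h3)).symm)]
    · rw [Matrix.one_apply_ne (by simp)]
      refine Finset.sum_eq_zero fun c _ => ?_
      show _ * (0 : R) = 0
      rw [mul_zero]
  · -- rows of the `y_i`
    rw [Fintype.sum_sum_type, Fintype.sum_sum_type]
    have z1 : ∑ c : C, E2a_L' T f g M N (Sum.inr (Sum.inr i)) (Sum.inr (Sum.inl c)) *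
        E2a_L T f g M N (Sum.inr (Sum.inl c)) v' = 0 :=
      Finset.sum_eq_zero fun o _ => by
        show (0 : R) * _ = 0
        rw [zero_mul]
    have z2 : ∑ t : T, E2a_L' T f g M N (Sum.inr (Sum.inr i)) (Sum.inr (Sum.inr t)) *
        E2a_L T f g M N (Sum.inr (Sum.inr t)) v' = 0 :=
      Finset.sum_eq_zero fun o _ => by
        show (0 : R) * _ = 0
        rw [zero_mul]
    rw [z1, z2, add_zero, add_zero]
    rcases v' with y | i' | i'
    · rw [Matrix.one_apply_ne (by simp)]
      have e1 : ∀ o : O, E2a_L' T f g M N (Sum.inr (Sum.inr i)) (Sum.inl o) *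
          E2a_L T f g M N (Sum.inl o) (Sum.inl y) =
          (if y.1 = Sum.inl o then M (f i) o else 0) -
            M (f i) o * ∑ j, (if o = g j then E2a_H T f M N j y.1 else 0) := by
        intro o
        show M (f i) o * ((if y.1 = Sum.inl o then (1 : R) else 0) -
          ∑ j, (if o = g j then E2a_H T f M N j y.1 else 0)) = _
        rw [mul_sub, mul_ite, mul_one, mul_zero]
      rw [Finset.sum_congr rfl fun c _ => e1 c, Finset.sum_sub_distrib,
        E2a_sum (fun o => M (f i) o) g]
      obtain ⟨y, hy1, hy2⟩ := y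
      rcases y with o | c
      · have e2 : ∑ o' : O, (if (Sum.inl o : O ⊕ C ⊕ T) = Sum.inl o' then M (f i) o' else 0) = M (f i) o := by
          rw [Finset.sum_eq_single o]
          · rw [if_pos rfl]
          · intro b _ hb
            rw [if_neg]
            intro h3
            exact hb (Sum.inl_injective h3).symm
          · intro hn
            exact absurd (Finset.mem_univ _) hn
        have e3 : ∑ j, M (f i) (g j) * ∑ i', N j i' * M (f i') o = M (f i) o := by
          simp only [Finset.mul_sum]
          rw [Finset.sum_comm]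
          have e4 : ∀ i' : Fin r, ∑ j, M (f i) (g j) * (N j i' * M (f i') o) =
              (1 : Matrix (Fin r) (Fin r) R) i i' * M (f i') o := by
            intro i'
            rw [← E2a_K_f f g M N h1 i i', Finset.sum_mul]
            refine Finset.sum_congr rfl fun j _ => ?_
            ring
          rw [Finset.sum_congr rfl fun i' _ => e4 i', Finset.sum_eq_single i]
          · rw [Matrix.one_apply_eq, one_mul]
          · intro b _ hb
            rw [Matrix.one_apply_ne (Ne.symm hb), zero_mul]
          · intro hn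
            exact absurd (Finset.mem_univ _) hn
        show ∑ o' : O, (if (Sum.inl o : O ⊕ C ⊕ T) = Sum.inl o' then M (f i) o' else 0) -
          ∑ j, M (f i) (g j) * ∑ i', N j i' * M (f i') o = 0
        rw [e2, e3, sub_self]
      · have e2 : ∑ o' : O, (if (Sum.inr c : O ⊕ C ⊕ T) = Sum.inl o' then M (f i) o' else 0) = 0 :=
          Finset.sum_eq_zero fun c _ => if_neg (by simp)
        have e3 : ∑ j, M (f i) (g j) * (0 : R) = 0 :=
          Finset.sum_eq_zero fun j _ => mul_zero _
        show ∑ o' : O, (if (Sum.inr c : O ⊕ C ⊕ T) = Sum.inl o' then M (f i) o' else 0) -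
          ∑ j, M (f i) (g j) * (0 : R) = 0
        rw [e2, e3, sub_self]
    · rw [Matrix.one_apply_ne (by simp)]
      refine Finset.sum_eq_zero fun c _ => ?_
      show _ * (0 : R) = 0
      rw [mul_zero]
    · have e1 : ∀ o : O, E2a_L' T f g M N (Sum.inr (Sum.inr i)) (Sum.inl o) *
          E2a_L T f g M N (Sum.inl o) (Sum.inr (Sum.inr i')) =
          M (f i) o * ∑ j, (if o = g j then N j i' else 0) := by
        intro o
        rfl
      rw [Finset.sum_congr rfl fun c _ => e1 c, E2a_sum (fun o => M (f i) o) g, E2a_K_f f g M N h1,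
        Matrix.one_apply, Matrix.one_apply]
      by_cases h : i = i'
      · rw [if_pos h, if_pos (by rw [h])]
      · rw [if_neg h, if_neg (fun h3 => h (Sum.inr_injective (Sum.inr_injective h3)))]

theorem E2a_equiv {r : ℕ} (f : Fin r → C) (g : Fin r → O)
    (hf : Function.Injective f) (hg : Function.Injective g) :
    Nonempty (Rest T f g ⊕ (Fin r ⊕ Fin r) ≃ O ⊕ C ⊕ T) := by
  let F : Rest T f g ⊕ (Fin r ⊕ Fin r) → O ⊕ C ⊕ T :=
    Sum.elim (fun x => x.1) (Sum.elim (fun i => Sum.inr (Sum.inl (f i))) fun i => Sum.inl (g i))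
  refine ⟨Equiv.ofBijective F ⟨?_, ?_⟩⟩
  · rintro (x | i | i) (y | j | j) h
    · have h' : x.1 = y.1 := h
      rw [Subtype.ext h']
    · exact absurd h (x.2.1 j)
    · exact absurd h (x.2.2 j)
    · exact absurd h.symm (y.2.1 i)
    · have h' : (Sum.inr (Sum.inl (f i)) : O ⊕ C ⊕ T) = Sum.inr (Sum.inl (f j)) := h
      rw [hf (Sum.inl_injective (Sum.inr_injective h'))]
    · have h' : (Sum.inr (Sum.inl (f i)) : O ⊕ C ⊕ T) = Sum.inl (g j) := h
      exact absurd h' (by simp)
    · exact absurd h.symm (y.2.2 i)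
    · have h' : (Sum.inl (g i) : O ⊕ C ⊕ T) = Sum.inr (Sum.inl (f j)) := h
      exact absurd h' (by simp)
    · have h' : (Sum.inl (g i) : O ⊕ C ⊕ T) = Sum.inl (g j) := h
      rw [hg (Sum.inl_injective h')]
  · intro u
    by_cases h1 : ∃ i, u = Sum.inr (Sum.inl (f i))
    · obtain ⟨i, rfl⟩ := h1
      exact ⟨Sum.inr (Sum.inl i), rfl⟩
    · by_cases h2 : ∃ i, u = Sum.inl (g i)
      · obtain ⟨i, rfl⟩ := h2
        exact ⟨Sum.inr (Sum.inr i), rfl⟩
      · exact ⟨Sum.inl ⟨u, fun i h => h1 ⟨i, h⟩, fun i h => h2 ⟨i, h⟩⟩, rfl⟩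

theorem E2a_pair {r : ℕ} (f : Fin r → C) (g : Fin r → O) (M : Matrix C O R)
    (N : Matrix (Fin r) (Fin r) R)
    (hs : ∀ c o, M c o = ∑ i, ∑ j, M c (g j) * N j i * M (f i) o) :
    (E2a_L' T f g M N)ᵀ * (pairJ (Rest T f g) r : Matrix _ _ R) * E2a_L' T f g M N = pairM T M := by
  have key : ∀ u v, ((E2a_L' T f g M N)ᵀ * (pairJ (Rest T f g) r : Matrix _ _ R) * E2a_L' T f g M N) u v =
      ∑ i, (E2a_K T g M N i u * Sum.elim (fun o => M (f i) o) (fun _ => 0) v +
        Sum.elim (fun o => M (f i) o) (fun _ => 0) u * E2a_K T g M N i v) := by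
    intro u v
    rw [Matrix.mul_apply, Fintype.sum_sum_type, Fintype.sum_sum_type]
    have z1 : ∀ x : Rest T f g, ((E2a_L' T f g M N)ᵀ * (pairJ (Rest T f g) r : Matrix _ _ R)) u (Sum.inl x) = 0 := by
      intro x
      rw [Matrix.mul_apply]
      refine Finset.sum_eq_zero fun w _ => ?_
      rcases w with w | w | w
      · show _ * (0 : R) = 0
        rw [mul_zero]
      · show _ * (0 : R) = 0
        rw [mul_zero]
      · show _ * (0 : R) = 0
        rw [mul_zero]
    have z2 : ∀ i : Fin r, ((E2a_L' T f g M N)ᵀ * (pairJ (Rest T f g) r : Matrix _ _ R)) u (Sum.inr (Sum.inl i)) =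
        Sum.elim (fun o => M (f i) o) (fun _ => 0) u := by
      intro i
      rw [Matrix.mul_apply, Finset.sum_eq_single (Sum.inr (Sum.inr i))]
      · show Sum.elim (fun o => M (f i) o) (fun _ => 0) u * (if i = i then (1 : R) else 0) = _
        rw [if_pos rfl, mul_one]
      · intro w _ hw
        rcases w with w | w | w
        · show _ * (0 : R) = 0
          rw [mul_zero]
        · show _ * (0 : R) = 0
          rw [mul_zero]
        · show _ * (if w = i then (1 : R) else 0) = 0
          rw [if_neg (fun h => hw (by rw [h])), mul_zero]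
      · intro hn
        exact absurd (Finset.mem_univ _) hn
    have z3 : ∀ i : Fin r, ((E2a_L' T f g M N)ᵀ * (pairJ (Rest T f g) r : Matrix _ _ R)) u (Sum.inr (Sum.inr i)) =
        E2a_K T g M N i u := by
      intro i
      rw [Matrix.mul_apply, Finset.sum_eq_single (Sum.inr (Sum.inl i))]
      · show E2a_K T g M N i u * (if i = i then (1 : R) else 0) = _
        rw [if_pos rfl, mul_one]
      · intro w _ hw
        rcases w with w | w | w
        · show _ * (0 : R) = 0
          rw [mul_zero]
        · show _ * (if w = i then (1 : R) else 0) = 0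
          rw [if_neg (fun h => hw (by rw [h])), mul_zero]
        · show _ * (0 : R) = 0
          rw [mul_zero]
      · intro hn
        exact absurd (Finset.mem_univ _) hn
    simp only [z1, z2, z3, zero_mul, Finset.sum_const_zero, zero_add]
    rw [add_comm, ← Finset.sum_add_distrib]
    rfl
  have hs' : ∀ c o, ∑ i, (∑ j, M c (g j) * N j i) * M (f i) o = M c o := by
    intro c o
    rw [hs c o]
    refine Finset.sum_congr rfl fun i _ => ?_
    rw [Finset.sum_mul]
  ext u v
  rw [key]
  rcases u with o | c | t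
  · rcases v with o' | c' | t'
    · show ∑ i, ((0 : R) * _ + _ * (0 : R)) = 0
      simp
    · show ∑ i, ((0 : R) * (0 : R) + M (f i) o * ∑ j, M c' (g j) * N j i) = M c' o
      rw [← hs' c' o]
      refine Finset.sum_congr rfl fun i _ => ?_
      ring
    · show ∑ i, ((0 : R) * _ + _ * (0 : R)) = 0
      simp
  · rcases v with o' | c' | t'
    · show ∑ i, ((∑ j, M c (g j) * N j i) * M (f i) o' + (0 : R) * (0 : R)) = M c o'
      rw [← hs' c o']
      refine Finset.sum_congr rfl fun i _ => ?_
      ring
    · show ∑ i, (_ * (0 : R) + (0 : R) * _) = 0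
      simp
    · show ∑ i, (_ * (0 : R) + (0 : R) * _) = 0
      simp
  · show ∑ i, ((0 : R) * _ + (0 : R) * _) = _
    have : ∀ i : Fin r, ((0 : R) * Sum.elim (fun o => M (f i) o) (fun _ => 0) v + (0 : R) * E2a_K T g M N i v) = 0 := by
      intro i
      ring
    rw [Finset.sum_congr rfl fun i _ => this i, Finset.sum_const_zero]
    rcases v with o' | c' | t' <;> rfl

theorem lin_alg {r : ℕ} (ty : O ⊕ C ⊕ T → V × V) (f : Fin r → C) (g : Fin r → O)
    (hf : Function.Injective f) (hg : Function.Injective g) (M : Matrix C O R)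
    (N : Matrix (Fin r) (Fin r) R) (h1 : (Matrix.of fun i j => M (f i) (g j)) * N = 1)
    (h2 : N * (Matrix.of fun i j => M (f i) (g j)) = 1)
    (hs : ∀ c o, M c o = ∑ i, ∑ j, M c (g j) * N j i * M (f i) o)
    (hM : ∀ c o, M c o ≠ 0 → ty (Sum.inl o) = (ty (Sum.inr (Sum.inl c))).swap) :
    ∃ (L : Matrix (O ⊕ C ⊕ T) (Rest T f g ⊕ (Fin r ⊕ Fin r)) R)
      (L' : Matrix (Rest T f g ⊕ (Fin r ⊕ Fin r)) (O ⊕ C ⊕ T) R), L * L' = 1 ∧ L' * L = 1 ∧
        Lᵀ * pairM T M * L = pairJ (Rest T f g) r ∧ ∀ a u, L a u ≠ 0 → ty' ty f g u = ty a := by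
  obtain ⟨e⟩ := E2a_equiv (T := T) f g hf hg
  have hLL : E2a_L' T f g M N * E2a_L T f g M N = 1 := E2a_mul f g M N h1
  have hN := N_ty ty f g M N h1 h2 hM
  have hK : ∀ c i, ∑ j, M c (g j) * N j i ≠ 0 →
      ty (Sum.inr (Sum.inl c)) = ty (Sum.inr (Sum.inl (f i))) := by
    intro c i h
    obtain ⟨j, -, hj⟩ := Finset.exists_ne_zero_of_sum_ne_zero h
    have a1 := hM _ _ (left_ne_zero_of_mul hj)
    have a2 := hN i j (right_ne_zero_of_mul hj)
    rw [a1] at a2
    exact Prod.swap_injective a2
  have hH : ∀ j o, ∑ i, N j i * M (f i) o ≠ 0 → ty (Sum.inl o) = ty (Sum.inl (g j)) := by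
    intro j o h
    obtain ⟨i, -, hi⟩ := Finset.exists_ne_zero_of_sum_ne_zero h
    have a1 := hM _ _ (right_ne_zero_of_mul hi)
    have a2 := hN i j (left_ne_zero_of_mul hi)
    rw [a1, a2]
  refine ⟨E2a_L T f g M N, E2a_L' T f g M N, (Matrix.mul_eq_one_comm_of_equiv e).1 hLL, hLL, ?_, ?_⟩
  · rw [← E2a_pair f g M N hs]
    calc (E2a_L T f g M N)ᵀ * ((E2a_L' T f g M N)ᵀ * (pairJ (Rest T f g) r : Matrix _ _ R) *
          E2a_L' T f g M N) * E2a_L T f g M N
        = ((E2a_L T f g M N)ᵀ * (E2a_L' T f g M N)ᵀ) * (pairJ (Rest T f g) r : Matrix _ _ R) *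
          (E2a_L' T f g M N * E2a_L T f g M N) := by
          simp only [Matrix.mul_assoc]
      _ = pairJ (Rest T f g) r := by
          rw [hLL, ← Matrix.transpose_mul, hLL, Matrix.transpose_one, Matrix.one_mul, Matrix.mul_one]
  · intro a u h
    rcases u with x | i | i
    · show ty x.1 = ty a
      by_cases hxa : x.1 = a
      · rw [hxa]
      · have h3 : (if x.1 = a then (1 : R) else 0) -
            Sum.elim (fun o => ∑ j, if o = g j then E2a_H T f M N j x.1 else 0)
            (Sum.elim (fun c => ∑ i, if c = f i then E2a_K T g M N i x.1 else 0) fun _ => 0) a ≠ 0 := h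
        rw [if_neg hxa, zero_sub, neg_ne_zero] at h3
        rcases a with o | c | t
        · have h4 : ∑ j, (if o = g j then E2a_H T f M N j x.1 else 0) ≠ 0 := h3
          obtain ⟨j, -, hj⟩ := Finset.exists_ne_zero_of_sum_ne_zero h4
          have hoj : o = g j := by
            by_contra hne
            rw [if_neg hne] at hj
            exact hj rfl
          rw [if_pos hoj] at hj
          obtain ⟨x, hx⟩ := x
          rcases x with o' | c'
          · show ty (Sum.inl o') = _
            rw [hH j o' hj, hoj]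
          · exact absurd rfl hj
        · have h4 : ∑ i, (if c = f i then E2a_K T g M N i x.1 else 0) ≠ 0 := h3
          obtain ⟨i, -, hi⟩ := Finset.exists_ne_zero_of_sum_ne_zero h4
          have hci : c = f i := by
            by_contra hne
            rw [if_neg hne] at hi
            exact hi rfl
          rw [if_pos hci] at hi
          obtain ⟨x, hx⟩ := x
          rcases x with o' | c' | t'
          · exact absurd rfl hi
          · show ty (Sum.inr (Sum.inl c')) = _
            rw [hK c' i hi, hci]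
          · exact absurd rfl hi
        · exact absurd rfl h3
    · rcases a with o | c | t
      · exact absurd rfl h
      · have h3 : (if c = f i then (1 : R) else 0) ≠ 0 := h
        have hci : c = f i := by
          by_contra hne
          rw [if_neg hne] at h3
          exact h3 rfl
        show ty (Sum.inr (Sum.inl (f i))) = _
        rw [hci]
      · exact absurd rfl h
    · rcases a with o | c | t
      · have h3 : ∑ j, (if o = g j then N j i else 0) ≠ 0 := h
        obtain ⟨j, -, hj⟩ := Finset.exists_ne_zero_of_sum_ne_zero h3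
        have hoj : o = g j := by
          by_contra hne
          rw [if_neg hne] at hj
          exact hj rfl
        rw [if_pos hoj] at hj
        show (ty (Sum.inr (Sum.inl (f i)))).swap = _
        rw [hoj, hN i j hj]
      · exact absurd rfl h
      · exact absurd rfl h

end Cea.N
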