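import Pool.Agent.Lib.MP_cea156_al.N.A6

/-! E2b: linear substitutions. -/

set_option autoImplicit false

namespace Cea.N

open Finset

variable {A B R : Type} [CommRing R] [Fintype A] [DecidableEq A] [Fintype B] [DecidableEq B]

/-- the linear substitution of a matrix -/
def linS (L : Matrix A B R) : A → NC B R := fun a => ∑ b, L a b • (X b : NC B R)

theorem E2b_apply (L : Matrix A B R) (a : A) (w : List B) :
    linS L a w = ∑ b, L a b * (if w = [b] then 1 else 0) := by
  unfold linS
  rw [finsetSum_apply]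
  rfl

theorem E2b_single (L : Matrix A B R) (a : A) (b : B) : linS L a [b] = L a b := by
  rw [E2b_apply, sum_eq_single b]
  · rw [if_pos rfl, mul_one]
  · intro c _ hc
    rw [if_neg, mul_zero]
    intro h
    exact hc (List.singleton_inj.1 h).symm
  · intro h
    exact absurd (mem_univ _) h

theorem lin_linS (L : Matrix A B R) : lin (linS L) = L := by
  ext a b
  exact E2b_single L a b

theorem linS_ne_zero {L : Matrix A B R} {a : A} {w : List B} (h : linS L a w ≠ 0) : ∃ b, w = [b] ∧ L a b ≠ 0 := by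
  rw [E2b_apply] at h
  obtain ⟨b, _, hb⟩ := exists_ne_zero_of_sum_ne_zero h
  have h1 := right_ne_zero_of_mul hb
  have hw : w = [b] := by
    by_contra hne
    rw [if_neg hne] at h1
    exact h1 rfl
  exact ⟨b, hw, left_ne_zero_of_mul hb⟩

theorem Z0_linS (L : Matrix A B R) : Z0 (linS L) := by
  intro a
  by_contra h
  obtain ⟨b, hb, _⟩ := linS_ne_zero h
  exact absurd hb (by simp)

theorem E2b_subst (L : Matrix A B R) {Z : NC A R} (hZ : Len 2 Z) (u v : B) :
    subst (linS L) Z [u, v] = ∑ a, ∑ b, L a u * Z [a, b] * L b v := by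
  have h0 : ∀ w : List A, w.length < 2 → Z w = 0 := by
    intro w hw
    by_contra hne
    have := hZ w hne
    omega
  show ∑ m ∈ range 3, ∑ w : Fin m → A, Z (List.ofFn w) * wordSub (linS L) (List.ofFn w) [u, v] = _
  rw [sum_range_succ, sum_range_succ, sum_range_succ, sum_range_zero]
  have e0 : ∑ w : Fin 0 → A, Z (List.ofFn w) * wordSub (linS L) (List.ofFn w) [u, v] = 0 :=
    sum_eq_zero fun w _ => by rw [h0 _ (by simp), zero_mul]
  have e1 : ∑ w : Fin 1 → A, Z (List.ofFn w) * wordSub (linS L) (List.ofFn w) [u, v] = 0 :=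
    sum_eq_zero fun w _ => by rw [h0 _ (by simp), zero_mul]
  rw [e0, e1, zero_add, zero_add, zero_add]
  have e2 : ∑ a, ∑ b, L a u * Z [a, b] * L b v =
      ∑ x : A × A, L x.1 u * Z [x.1, x.2] * L x.2 v :=
    (Fintype.sum_prod_type' (fun a b => L a u * Z [a, b] * L b v)).symm
  rw [e2]
  refine Fintype.sum_equiv (finTwoArrowEquiv A)
    (fun w : Fin 2 → A => Z (List.ofFn w) * wordSub (linS L) (List.ofFn w) [u, v])
    (fun x : A × A => L x.1 u * Z [x.1, x.2] * L x.2 v) fun w => ?_
  have h1 : ([u, v] : List B) = List.ofFn ![u, v] := by simp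
  have h2 : List.ofFn w = [w 0, w 1] := by simp
  rw [h1, wordSub_diag (Z0_linS L) w ![u, v], Fin.prod_univ_two, h2]
  show Z [w 0, w 1] * (linS L (w 0) [u] * linS L (w 1) [v]) = L (w 0) u * Z [w 0, w 1] * L (w 1) v
  rw [E2b_single, E2b_single]
  ring

theorem E2b_cyc {D : Type} (F : NC D R) (u v : D) : cyc F [u, v] = F [u, v] + F [v, u] := by
  show ∑ k ∈ range 2, F ([u, v].rotate k) = _
  rw [sum_range_succ, sum_range_succ, sum_range_zero, zero_add]
  rfl

/-- coefficients at words of length two -/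
theorem cyc_subst_linS (L : Matrix A B R) {Z : NC A R} (hZ : Len 2 Z) (u v : B) :
    cyc (subst (linS L) Z) [u, v] = ∑ a, ∑ b, L a u * cyc Z [a, b] * L b v := by
  have e : ∑ a, ∑ b, L a v * Z [a, b] * L b u = ∑ a, ∑ b, L b v * Z [b, a] * L a u := sum_comm
  rw [E2b_cyc, E2b_subst L hZ, E2b_subst L hZ, e, ← sum_add_distrib]
  refine sum_congr rfl fun a _ => ?_
  rw [← sum_add_distrib]
  refine sum_congr rfl fun b _ => ?_
  rw [E2b_cyc]
  ring

end Cea.N
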