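import Pool.Agent.Lib.MP_cea156_al.N.A8
import Pool.Agent.Lib.MP_cea156_al.N.A5a

/-! E3: representatives of a potential no cycle of which starts at `k`. Mark the letters `a` with `s a ≠ k`: `W₁ = ∑ X a * Dec W a` (`cyc_dec`); a cycle all letters of
which start at `k` consists of loops at `k`. -/

set_option autoImplicit false

namespace Cea.N

variable {V R : Type} [DecidableEq V] [CommRing R] [Algebra ℚ R] {Q : Quiv V} {k : V}

theorem E3_X_nil {A S : Type} [CommRing S] [DecidableEq A] (a : A) (f : NC A S) : (X a * f : NC A S) [] = 0 := by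
  rw [mul_nil]
  have : (X a : NC A S) [] = 0 := by
    unfold X mon
    rw [if_neg (by simp)]
  rw [this, zero_mul]

theorem E3_X_cons {A S : Type} [CommRing S] [DecidableEq A] (a b : A) (f : NC A S) (u : List A) :
    (X a * f : NC A S) (b :: u) = if b = a then f u else 0 := by
  rw [mul_cons]
  have h0 : (X a : NC A S) [] = 0 := by
    unfold X mon
    rw [if_neg (by simp)]
  rw [h0, zero_mul, zero_add]
  by_cases h : b = a
  · rw [if_pos h]
    have e : shift b (X a : NC A S) = 1 := by
      ext v
      unfold shift X mon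
      rw [one_apply]
      cases v with
      | nil => simp [h]
      | cons c v => simp
    rw [e, one_mul]
  · rw [if_neg h]
    have e : shift b (X a : NC A S) = 0 := by
      ext v
      unfold shift X mon
      rw [zero_apply, if_neg]
      intro h1
      exact h (List.cons.inj h1).1
    rw [e, zero_mul, zero_apply]

theorem exists_noStart (hk : NoLoop Q k) {W : NC Q.A R} (hW : Pot Q W) :
    ∃ W₁ : NC Q.A R, Pot Q W₁ ∧ cyc W₁ = cyc W ∧ NoStart Q k W₁ := by
  classical
  set mk : {a : Q.A // Q.s a ≠ k} → Q.A := Subtype.val with hmk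
  have hinj : Function.Injective mk := Subtype.val_injective
  -- words without marked letters
  have hF : ∀ w, nmk mk w = 0 → cyc W w = 0 := by
    intro w hw
    have hall : ∀ a ∈ w, Q.s a = k := by
      intro a ha
      by_contra hne
      unfold nmk at hw
      rw [List.length_eq_zero_iff, List.filter_eq_nil_iff] at hw
      exact hw a ha (by simpa using ⟨a, hne, rfl⟩)
    unfold cyc
    refine Finset.sum_eq_zero fun j _ => ?_
    by_contra hne
    obtain ⟨hnil, i, hp⟩ := hW _ hne
    have hall' : ∀ a ∈ w.rotate j, Q.s a = k := fun a ha => hall a (List.mem_rotate.1 ha)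
    generalize w.rotate j = v at hnil hp hall'
    cases v with
    | nil => exact hnil rfl
    | cons a u =>
      have ha : Q.s a = k := hall' a List.mem_cons_self
      obtain ⟨h1, h2⟩ := hp
      cases u with
      | nil =>
        have h3 : Q.t a = i := h2
        exact hk a ⟨ha, by rw [h3, ← h1, ha]⟩
      | cons b u =>
        have h3 : Q.s b = Q.t a := h2.1
        exact hk a ⟨ha, by rw [← h3]; exact hall' b (by simp)⟩
  have hval : ∀ (b : Q.A) (u : List Q.A), (∑ i, X (mk i) * Dec mk W i : NC Q.A R) (b :: u) ≠ 0 →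
      Q.s b ≠ k ∧ cyc W (b :: u) ≠ 0 := by
    intro b u h
    rw [finsetSum_apply] at h
    obtain ⟨i, -, hi⟩ := Finset.exists_ne_zero_of_sum_ne_zero h
    rw [E3_X_cons] at hi
    by_cases hb : b = mk i
    · rw [if_pos hb] at hi
      refine ⟨by rw [hb]; exact i.2, ?_⟩
      intro h0
      apply hi
      unfold Dec
      rw [← hb, h0, mul_zero]
    · rw [if_neg hb] at hi
      exact absurd rfl hi
  refine ⟨∑ i, X (mk i) * Dec mk W i, ?_, cyc_dec hinj W hF, ?_⟩
  · intro w hw
    cases w with
    | nil =>
      rw [finsetSum_apply] at hw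
      exact absurd (Finset.sum_eq_zero fun i _ => E3_X_nil (mk i) (Dec mk W i)) hw
    | cons b u => exact Pot_cyc hW _ (hval b u hw).2
  · intro a w ha
    by_contra h
    exact (hval a w h).1 ha

/-- in a 2-acyclic quiver all cycles have length at least 3 -/
theorem len_pot (h2 : Q.TwoAcyclic) {W : NC Q.A R} (hW : Pot Q W) : Len 3 W := by
  intro w hw
  obtain ⟨hnil, i, hp⟩ := hW w hw
  match w, hnil, hp with
  | [a], _, hp =>
    have h1 : Q.t a = Q.s a := by rw [hp.1]; exact hp.2
    exact absurd ⟨h1, h1⟩ (h2 a a)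
  | [a, b], _, hp =>
    have h1 : Q.t a = Q.s b := hp.2.1.symm
    have h3 : Q.t b = Q.s a := by rw [hp.1]; exact hp.2.2
    exact absurd ⟨h1, h3⟩ (h2 a b)
  | a :: b :: c :: u, _, _ =>
    simp only [List.length_cons]
    omega

theorem noLoop (h2 : Q.TwoAcyclic) (k : V) : NoLoop Q k := by
  rintro a ⟨h1, h3⟩
  exact h2 a a ⟨by rw [h1, h3], by rw [h1, h3]⟩

end Cea.N
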