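import Pool.Agent.Lib.MP_cea156_al.N.P2
import Pool.Agent.Lib.MP_cea156_al.N.E3
import Pool.Agent.Lib.MP_cea156_al.N.E2a

/-! E4a: the part of degree two of the premutation. `cyc_br`; a word `[u, v]` of two composites expands to a cycle `a b a' b'`, where `b`, `a'` are opposite arrows;
a word of two old arrows is a 2-cycle. -/

set_option autoImplicit false

namespace Cea.N

/-- the pairing of composites `[ab]` and old arrows `o`: the coefficient of the 3-cycle `a b o` -/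
def mm {V R : Type} [DecidableEq V] [CommRing R] (Q : Quiv V) (k : V) (W : NC Q.A R) :
    Matrix (Q.In k × Q.Out k) (Q.Old k) R :=
  Matrix.of fun c o => cyc W [c.1.1, c.2.1, o.1]

/-- source and target -/
def tyQ {V : Type} [DecidableEq V] (Q : Quiv V) (k : V) : (Q.pre k).A → V × V :=
  fun x => ((Q.pre k).s x, (Q.pre k).t x)

variable {V R : Type} [DecidableEq V] [CommRing R] {Q : Quiv V} {k : V}

omit [DecidableEq V] in
theorem E4a_len (h2 : Q.TwoAcyclic) {l : List Q.A} (h : Q.IsCycle l) : 3 ≤ l.length := by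
  obtain ⟨hne, i, hp⟩ := h
  match l, hne, hp with
  | [], hne, _ => exact absurd rfl hne
  | [a], _, hp =>
    exfalso
    obtain ⟨h1, h3⟩ := hp
    have h4 : Q.t a = i := h3
    exact h2 a a ⟨by rw [h4, h1], by rw [h4, h1]⟩
  | [a, b], _, hp =>
    exfalso
    obtain ⟨h1, h3, h4⟩ := hp
    have h5 : Q.t b = i := h4
    exact h2 a b ⟨h3.symm, by rw [h5, h1]⟩
  | a :: b :: c :: w, _, _ =>
    simp only [List.length_cons]
    omega

theorem mm_ty {W : NC Q.A R} (hW : Pot Q W) (c : Q.In k × Q.Out k) (o : Q.Old k) (h : mm Q k W c o ≠ 0) :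
    tyQ Q k (Sum.inl o) = (tyQ Q k (Sum.inr (Sum.inl c))).swap := by
  obtain ⟨-, i, h1, h3, h4, h5⟩ := Pot_cyc hW _ h
  have h6 : Q.t o.1 = i := h5
  show (Q.s o.1, Q.t o.1) = (Q.t c.2.1, Q.s c.1.1)
  rw [h4, h6, h1]

theorem E4a_br_ne {W₁ : NC Q.A R} {w : List (Q.pre k).A} (h : br Q k W₁ w ≠ 0) :
    ∃ l, Q.expand k w = some l ∧ W₁ l ≠ 0 := by
  unfold br at h
  cases he : Q.expand k w with
  | none =>
    rw [he] at h
    exact absurd rfl h
  | some l =>
    rw [he] at h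
    exact ⟨l, rfl, h⟩

theorem E4a_dlt {w : List (Q.pre k).A} (h : (dlt Q k : NC (Q.pre k).A R) w ≠ 0) : w.length = 3 := by
  unfold dlt at h
  split_ifs at h with h1
  · obtain ⟨a, b, rfl⟩ := h1
    rfl
  · exact absurd rfl h

theorem len_pre (h2 : Q.TwoAcyclic) {W₁ : NC Q.A R} (hW : Pot Q W₁) : Len 2 (br Q k W₁ + dlt Q k) := by
  intro w hw
  by_cases hb : br Q k W₁ w = 0
  · have hd : (dlt Q k : NC (Q.pre k).A R) w ≠ 0 := by
      intro hd
      apply hw
      rw [add_apply, hb, hd, add_zero]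
    rw [E4a_dlt hd]
    omega
  · obtain ⟨l, hl, hl0⟩ := E4a_br_ne hb
    have h3 := E4a_len h2 (hW l hl0)
    have h4 := (length_expand Q k hl).2
    omega

theorem cyc_pre_two (h2 : Q.TwoAcyclic) {W W₁ : NC Q.A R} (hW : Pot Q W₁) (hc : cyc W₁ = cyc W) (hn : NoStart Q k W₁)
    (u v : (Q.pre k).A) :
    cyc (br Q k W₁ + dlt Q k) [u, v] = pairM (Q.Tch k) (mm Q k W) u v := by
  have hP : Pot Q (cyc W₁) := Pot_cyc hW
  have hd : cyc (dlt Q k : NC (Q.pre k).A R) [u, v] = 0 := by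
    by_contra h
    unfold cyc at h
    obtain ⟨n, -, hn0⟩ := Finset.exists_ne_zero_of_sum_ne_zero h
    have h3 := E4a_dlt hn0
    rw [List.length_rotate] at h3
    simp at h3
  rw [cyc_add, add_apply, hd, add_zero, cyc_br Q k hn, hc]
  rw [hc] at hP
  match u, v with
  | Sum.inl o, Sum.inl o' =>
    show cyc W [o.1, o'.1] = 0
    by_contra h
    have h3 := E4a_len h2 (hP _ h)
    simp at h3
  | Sum.inl o, Sum.inr (Sum.inl c) =>
    show cyc W [o.1, c.1.1, c.2.1] = cyc W [c.1.1, c.2.1, o.1]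
    exact (cyc_rotate W [o.1, c.1.1, c.2.1] 1).symm
  | Sum.inr (Sum.inl c), Sum.inl o => rfl
  | Sum.inr (Sum.inl c), Sum.inr (Sum.inl c') =>
    show cyc W [c.1.1, c.2.1, c'.1.1, c'.2.1] = 0
    by_contra h
    obtain ⟨-, i, h1, h3, h4, h5, h6⟩ := hP _ h
    exact h2 c.2.1 c'.1.1 ⟨h4.symm, by rw [c'.1.2, c.2.2]⟩
  | Sum.inl o, Sum.inr (Sum.inr x) => rfl
  | Sum.inr (Sum.inl c), Sum.inr (Sum.inr x) => rfl
  | Sum.inr (Sum.inr x), Sum.inl o => rfl
  | Sum.inr (Sum.inr x), Sum.inr (Sum.inl c) => rfl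
  | Sum.inr (Sum.inr x), Sum.inr (Sum.inr y) => rfl

end Cea.N
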