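import Pool.Agent.Lib.MP_cea156_al.N.E4a
import Pool.Agent.Lib.MP_cea156_al.N.E2b
import Pool.Agent.Lib.MP_cea156_al.N.E1

/-! E4b: existence of mutations over a ring. `W₁` from `exists_noStart`; `Z = br W₁ + Δ`; `L` from `lin_alg` with `ty = tyQ Q k`, `M = mm Q k W`;
`φ = linS L` is an isomorphism `Q.pre k → (redQ Q k f g).plus p q`; `Z' = subst φ Z` satisfies `cyc Z' [u, v] = pairJ u v` (`cyc_subst_linS`, `cyc_pre_two`);
`Z'' = ∑ x_i y_i + (part of Z' of length ≥ 3)` is cyclically equivalent to `Z'`; apply `split` to `Z''`. -/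

set_option autoImplicit false

namespace Cea.N

variable {V R : Type} [DecidableEq V] [CommRing R] [Algebra ℚ R] {Q : Quiv V} {k : V}

/-- the premutation without the composites `f i` and the old arrows `g i` -/
noncomputable def redQ (Q : Quiv V) (k : V) {r : ℕ} (f : Fin r → Q.In k × Q.Out k) (g : Fin r → Q.Old k) : Quiv V where
  A := Rest (Q.Tch k) f g
  fin := inferInstance
  dec := inferInstance
  s := fun x => (Q.pre k).s x.1
  t := fun x => (Q.pre k).t x.1

omit [DecidableEq V] [Algebra ℚ R] in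
theorem E4b_iso {Q₀ Q₁ : Quiv V} (L : Matrix Q₀.A Q₁.A R) (L' : Matrix Q₁.A Q₀.A R) (h : L * L' = 1)
    (h' : L' * L = 1) (hty : ∀ a u, L a u ≠ 0 → Q₁.s u = Q₀.s a ∧ Q₁.t u = Q₀.t a) : Iso Q₀ Q₁ (linS L) := by
  refine ⟨fun a w hw => ?_, L', ?_, ?_⟩
  · obtain ⟨b, rfl, hb⟩ := linS_ne_zero hw
    exact ⟨List.cons_ne_nil _ _, (hty a b hb).1, (hty a b hb).2⟩
  · rw [lin_linS]
    exact h
  · rw [lin_linS]
    exact h'

omit [DecidableEq V] [Algebra ℚ R] in
theorem E4b_Pot_add {Q : Quiv V} {f g : NC Q.A R} (hf : Pot Q f) (hg : Pot Q g) : Pot Q (f + g) := by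
  intro w hw
  rw [add_apply] at hw
  by_cases h : f w = 0
  · rw [h, zero_add] at hw
    exact hg w hw
  · exact hf w h

omit [DecidableEq V] [Algebra ℚ R] in
theorem E4b_J_one {Q' : Quiv V} {m : ℕ} (p q : Fin m → V) (w : List (Q'.plus p q).A) (i : Fin m)
    (h : w = [Sum.inr (Sum.inl i), Sum.inr (Sum.inr i)]) : plW Q' p q (0 : NC Q'.A R) w = 1 := by
  unfold plW
  rw [zero_apply, ite_self, zero_add]
  exact if_pos ⟨i, h⟩

omit [DecidableEq V] [Algebra ℚ R] in
theorem E4b_J_zero {Q' : Quiv V} {m : ℕ} (p q : Fin m → V) (w : List (Q'.plus p q).A)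
    (h : ∀ i : Fin m, w ≠ [Sum.inr (Sum.inl i), Sum.inr (Sum.inr i)]) : plW Q' p q (0 : NC Q'.A R) w = 0 := by
  unfold plW
  rw [zero_apply, ite_self, zero_add]
  exact if_neg fun ⟨i, hi⟩ => h i hi

omit [Algebra ℚ R] in
theorem E4b_cyc_two {A : Type} (f : NC A R) (u v : A) : cyc f [u, v] = f [u, v] + f [v, u] := by
  unfold cyc
  simp [Finset.sum_range_succ]

omit [Algebra ℚ R] in
theorem E4b_J_xy {Q' : Quiv V} {m : ℕ} (p q : Fin m → V) (i j : Fin m) :
    plW Q' p q (0 : NC Q'.A R) [Sum.inr (Sum.inl i), Sum.inr (Sum.inr j)] = if i = j then 1 else 0 := by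
  by_cases h : i = j
  · rw [if_pos h]
    subst h
    exact E4b_J_one p q _ i rfl
  · rw [if_neg h]
    refine E4b_J_zero p q _ fun l hl => h ?_
    have e1 := Sum.inl.inj (Sum.inr.inj (List.cons.inj hl).1)
    have e2 := Sum.inr.inj (Sum.inr.inj (List.cons.inj (List.cons.inj hl).2).1)
    exact e1.trans e2.symm

omit [Algebra ℚ R] in
theorem E4b_J_two {Q' : Quiv V} {m : ℕ} (p q : Fin m → V) (u v : (Q'.plus p q).A)
    (h : ∀ i : Fin m, u ≠ Sum.inr (Sum.inl i) ∨ v ≠ Sum.inr (Sum.inr i)) :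
    plW Q' p q (0 : NC Q'.A R) [u, v] = 0 := by
  refine E4b_J_zero p q _ fun l hl => ?_
  rcases h l with h | h
  · exact h (List.cons.inj hl).1
  · exact h (List.cons.inj (List.cons.inj hl).2).1

omit [Algebra ℚ R] in
theorem E4b_cyc_J {Q' : Quiv V} {m : ℕ} (p q : Fin m → V) (u v : (Q'.plus p q).A) :
    cyc (plW Q' p q (0 : NC Q'.A R)) [u, v] = pairJ Q'.A m u v := by
  rw [E4b_cyc_two]
  rcases u with u | u | u
  · exact (congrArg₂ (· + ·) (E4b_J_two p q _ _ fun i => Or.inl fun h => by cases h)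
      (E4b_J_two p q _ _ fun i => Or.inr fun h => by cases h)).trans (add_zero _)
  · rcases v with v | v | v
    · exact (congrArg₂ (· + ·) (E4b_J_two p q _ _ fun i => Or.inr fun h => by cases h)
        (E4b_J_two p q _ _ fun i => Or.inl fun h => by cases h)).trans (add_zero _)
    · exact (congrArg₂ (· + ·) (E4b_J_two p q _ _ fun i => Or.inr fun h => by cases h)
        (E4b_J_two p q _ _ fun i => Or.inr fun h => by cases h)).trans (add_zero _)
    · exact (congrArg₂ (· + ·) (E4b_J_xy p q u v)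
        (E4b_J_two p q _ _ fun i => Or.inl fun h => by cases h)).trans (add_zero _)
  · rcases v with v | v | v
    · exact (congrArg₂ (· + ·) (E4b_J_two p q _ _ fun i => Or.inl fun h => by cases h)
        (E4b_J_two p q _ _ fun i => Or.inl fun h => by cases h)).trans (add_zero _)
    · refine (congrArg₂ (· + ·) (E4b_J_two p q _ _ fun i => Or.inl fun h => by cases h)
        (E4b_J_xy p q v u)).trans ((zero_add _).trans ?_)
      show (if v = u then (1 : R) else 0) = if u = v then 1 else 0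
      simp only [eq_comm]
    · exact (congrArg₂ (· + ·) (E4b_J_two p q _ _ fun i => Or.inl fun h => by cases h)
        (E4b_J_two p q _ _ fun i => Or.inl fun h => by cases h)).trans (add_zero _)

omit [Algebra ℚ R] in
theorem E4b_short {A : Type} {n : ℕ} {f : NC A R} (hf : Len n f) {w : List A} (hw : w.length < n) : f w = 0 := by
  by_contra h
  exact absurd (hf w h) (not_le.2 hw)

omit [Algebra ℚ R] in
theorem E4b_J_long {Q' : Quiv V} {m : ℕ} (p q : Fin m → V) (w : List (Q'.plus p q).A) (h : 3 ≤ w.length) :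
    plW Q' p q (0 : NC Q'.A R) w = 0 := by
  refine E4b_J_zero p q _ fun i hi => ?_
  have h' : w.length = 2 := by rw [hi]; rfl
  omega

omit [Algebra ℚ R] in
theorem E4b_len_J {Q' : Quiv V} {m : ℕ} (p q : Fin m → V) : Len 2 (plW Q' p q (0 : NC Q'.A R)) := by
  intro w hw
  by_contra h
  refine hw (E4b_J_zero p q _ fun i hi => h ?_)
  have h' : w.length = 2 := by rw [hi]; rfl
  exact h'.ge

omit [Algebra ℚ R] in
theorem E4b_cyc_congr {A : Type} {f g : NC A R} {w : List A} (h : ∀ u : List A, u.length = w.length → f u = g u) :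
    cyc f w = cyc g w := by
  unfold cyc
  exact Finset.sum_congr rfl fun k _ => h _ (List.length_rotate ..)

theorem E4b_main {Q₀ Q' : Quiv V} {m : ℕ} {p q : Fin m → V} {Z : NC Q₀.A R} (hZ : Pot Q₀ Z) (h2 : Len 2 Z)
    (L : Matrix Q₀.A (Q'.plus p q).A R) (L' : Matrix (Q'.plus p q).A Q₀.A R) (h : L * L' = 1) (h' : L' * L = 1)
    (hty : ∀ a u, L a u ≠ 0 → (Q'.plus p q).s u = Q₀.s a ∧ (Q'.plus p q).t u = Q₀.t a)
    (hpair : ∀ u v : (Q'.plus p q).A, ∑ a, ∑ b, L a u * cyc Z [a, b] * L b v = pairJ Q'.A m u v) :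
    ∃ S : NC Q'.A R, Pot Q' S ∧ Len 3 S ∧ RE Q₀ (Q'.plus p q) Z (plW Q' p q S) := by
  have hiso : Iso Q₀ (Q'.plus p q) (linS L) := E4b_iso L L' h h' hty
  have hZ' : Pot (Q'.plus p q) (subst (linS L) Z) := Pot_subst (Z0_linS L) hiso.ps hZ
  have hl : Len 2 (subst (linS L) Z) := len_subst (Z0_linS L) h2
  have hc2 : ∀ u v, cyc (subst (linS L) Z) [u, v] = pairJ Q'.A m u v := by
    intro u v
    rw [cyc_subst_linS L h2, hpair]
  refine ?_
  have hre : RE Q₀ (Q'.plus p q) Z (subst (linS L) Z) := RE_of_iso hiso Z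
  generalize subst (linS L) Z = Z' at hZ' hl hc2 hre
  let T : NC (Q'.plus p q).A R := fun w => if 3 ≤ w.length then Z' w else 0
  have hTlong : ∀ w : List (Q'.plus p q).A, 3 ≤ w.length → T w = Z' w := fun w hw => if_pos hw
  have hTshort : ∀ w : List (Q'.plus p q).A, ¬3 ≤ w.length → T w = 0 := fun w hw => if_neg hw
  have hT3 : Len 3 T := fun w hw => by
    by_contra hn
    exact hw (hTshort w hn)
  have hTpot : Pot (Q'.plus p q) T := fun w hw => by
    have := hT3 w hw
    exact hZ' w (by rw [← hTlong w this]; exact hw)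
  have hJpot : Pot (Q'.plus p q) (plW Q' p q (0 : NC Q'.A R)) :=
    Pot_plW fun w hw => absurd (zero_apply w) hw
  have hcyc : cyc (plW Q' p q (0 : NC Q'.A R) + T) = cyc Z' := by
    ext w
    rcases lt_trichotomy w.length 2 with hw | hw | hw
    · rw [cyc_add, add_apply, E4b_short (len_cyc (E4b_len_J p q)) hw, E4b_short (len_cyc hT3) (by omega),
        E4b_short (len_cyc hl) hw, add_zero]
    · obtain ⟨u, v, rfl⟩ := List.length_eq_two.1 hw
      rw [cyc_add, add_apply, E4b_cyc_J, E4b_short (len_cyc hT3) (by simp), hc2, add_zero]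
    · refine E4b_cyc_congr fun u hu => ?_
      rw [add_apply, E4b_J_long p q u (by omega), hTlong u (by omega), zero_add]
  have hJ : plW Q' p q (0 : NC Q'.A R) = ∑ i, (X (Sum.inr (Sum.inl i)) : NC (Q'.plus p q).A R) *
      (X (Sum.inr (Sum.inr i)) : NC (Q'.plus p q).A R) := by
    rw [plW_eq_sum, subst_zero, zero_add]
  obtain ⟨S, hS, h3, hS'⟩ := split (E4b_Pot_add hJpot hTpot) (by
    rw [← hJ, add_sub_cancel_left]
    exact hT3)
  exact ⟨S, hS, h3, hre.trans ((RE_of_cyc hcyc.symm).trans hS')⟩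

omit [Algebra ℚ R] in
theorem E4b_tmul {A B : Type} [Fintype A] (L : Matrix A B R) (P : Matrix A A R) (u v : B) :
    (L.transpose * P * L) u v = ∑ a, ∑ b, L a u * P a b * L b v := by
  rw [Matrix.mul_apply, Finset.sum_comm]
  refine Finset.sum_congr rfl fun b _ => ?_
  rw [Matrix.mul_apply, Finset.sum_mul]
  rfl

theorem ex_mut (h2 : Q.TwoAcyclic) {W : NC Q.A R} (hW : Pot Q W) {r : ℕ} {f : Fin r → Q.In k × Q.Out k}
    {g : Fin r → Q.Old k} (hf : Function.Injective f) (hg : Function.Injective g) {N : Matrix (Fin r) (Fin r) R}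
    (h1 : (Matrix.of fun i j => mm Q k W (f i) (g j)) * N = 1)
    (h1' : N * (Matrix.of fun i j => mm Q k W (f i) (g j)) = 1)
    (hs : ∀ c o, mm Q k W c o = ∑ i, ∑ j, mm Q k W c (g j) * N j i * mm Q k W (f i) o) :
    ∃ S : NC (redQ Q k f g).A R, Pot (redQ Q k f g) S ∧ Mu k Q (redQ Q k f g) W S := by
  obtain ⟨W₁, hW₁, hc, hn⟩ := exists_noStart (noLoop h2 k) hW
  obtain ⟨L, L', hLL', hL'L, hpair, hty⟩ := lin_alg (tyQ Q k) f g hf hg (mm Q k W) N h1 h1' hs
    (fun c o h => mm_ty hW c o h)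
  let p : Fin r → V := fun i => (Q.pre k).s (Sum.inr (Sum.inl (f i)))
  let q : Fin r → V := fun i => (Q.pre k).t (Sum.inr (Sum.inl (f i)))
  have hZ : Pot (Q.pre k) (br Q k W₁ + dlt Q k) := E4b_Pot_add (Pot_br Q k hW₁) (Pot_dlt Q k)
  have hty' : ∀ (a : (Q.pre k).A) (u : ((redQ Q k f g).plus p q).A), L a u ≠ 0 →
      ((redQ Q k f g).plus p q).s u = (Q.pre k).s a ∧ ((redQ Q k f g).plus p q).t u = (Q.pre k).t a := by
    intro a u hau
    have h := hty a u hau
    rcases u with u | u | u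
    · exact ⟨congrArg Prod.fst h, congrArg Prod.snd h⟩
    · exact ⟨congrArg Prod.fst h, congrArg Prod.snd h⟩
    · exact ⟨congrArg Prod.fst h, congrArg Prod.snd h⟩
  have hp : ∀ u v : ((redQ Q k f g).plus p q).A,
      ∑ a, ∑ b, L a u * cyc (br Q k W₁ + dlt Q k) [a, b] * L b v = pairJ (redQ Q k f g).A r u v := by
    intro u v
    have e := congrFun (congrFun hpair u) v
    refine Eq.trans ?_ ((E4b_tmul L _ u v).symm.trans e)
    refine Finset.sum_congr rfl fun a _ => Finset.sum_congr rfl fun b _ => ?_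
    exact congrArg (fun x => L a u * x * L b v) (cyc_pre_two h2 hW₁ hc hn a b)
  obtain ⟨S, hS, h3, hre⟩ := E4b_main (Q' := redQ Q k f g) (p := p) (q := q) hZ (len_pre h2 hW₁) L L' hLL' hL'L hty' hp
  exact ⟨S, hS, h3, W₁, hW₁, hc, hn, r, p, q, hre⟩

end Cea.N
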