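import Mathlib

/-! E5: maximal minors. Take `r` maximal such that there are `f`, `g` with `det (M (f i) (g j)) ≠ 0` (`r ≤ card C`, because `f` is then injective). For `c`, `o` the
bordered minor of size `r + 1` vanishes: `det_fromBlocks₁₁`. -/

set_option autoImplicit false

namespace Cea.N

open Finset Matrix

theorem max_minor {K C O : Type} [Field K] [Fintype C] [DecidableEq C] [Fintype O] [DecidableEq O] (M : Matrix C O K) :
    ∃ (r : ℕ) (f : Fin r → C) (g : Fin r → O) (N : Matrix (Fin r) (Fin r) K), Function.Injective f ∧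
      Function.Injective g ∧ (Matrix.of fun i j => M (f i) (g j)) * N = 1 ∧
      N * (Matrix.of fun i j => M (f i) (g j)) = 1 ∧ ∀ c o, M c o = ∑ i, ∑ j, M c (g j) * N j i * M (f i) o := by
  classical
  let P : ℕ → Prop := fun r => ∃ (f : Fin r → C) (g : Fin r → O),
    (Matrix.of fun i j => M (f i) (g j)).det ≠ 0
  have hinj : ∀ (r : ℕ) (f : Fin r → C) (g : Fin r → O),
      (Matrix.of fun i j => M (f i) (g j)).det ≠ 0 → Function.Injective f ∧ Function.Injective g := by
    intro r f g h
    constructor
    · intro i i' hi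
      by_contra hne
      apply h
      refine Matrix.det_zero_of_row_eq hne ?_
      funext j
      simp only [Matrix.of_apply]
      rw [hi]
    · intro i i' hi
      by_contra hne
      apply h
      refine Matrix.det_zero_of_column_eq hne ?_
      intro j
      simp only [Matrix.of_apply]
      rw [hi]
  have h0 : P 0 := ⟨Fin.elim0, Fin.elim0, by simp⟩
  have hb : ∀ r, P r → r ≤ Fintype.card C := by
    rintro r ⟨f, g, h⟩
    have := Fintype.card_le_of_injective f (hinj r f g h).1
    rwa [Fintype.card_fin] at this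
  have hspec : P (Nat.findGreatest P (Fintype.card C)) :=
    Nat.findGreatest_spec (P := P) (Nat.zero_le _) h0
  obtain ⟨r, hr⟩ : ∃ r, r = Nat.findGreatest P (Fintype.card C) := ⟨_, rfl⟩
  have hmax : ¬ P (r + 1) := by
    intro h
    exact Nat.findGreatest_is_greatest (P := P) (by omega) (hb _ h) h
  rw [← hr] at hspec
  obtain ⟨f, g, hdet⟩ := hspec
  obtain ⟨hf, hg⟩ := hinj r f g hdet
  obtain ⟨A, hA⟩ : ∃ A : Matrix (Fin r) (Fin r) K, A = Matrix.of fun i j => M (f i) (g j) := ⟨_, rfl⟩
  rw [← hA] at hdet
  have hu : IsUnit A.det := isUnit_iff_ne_zero.2 hdet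
  refine ⟨r, f, g, A⁻¹, hf, hg, ?_, ?_, ?_⟩
  · rw [← hA]
    exact Matrix.mul_nonsing_inv A hu
  · rw [← hA]
    exact Matrix.nonsing_inv_mul A hu
  · intro c o
    let B : Matrix (Fin r) (Fin 1) K := Matrix.of fun i _ => M (f i) o
    let C' : Matrix (Fin 1) (Fin r) K := Matrix.of fun _ j => M c (g j)
    let D : Matrix (Fin 1) (Fin 1) K := Matrix.of fun _ _ => M c o
    let _ : Invertible A := Matrix.invertibleOfIsUnitDet A hu
    have h1 : (Matrix.fromBlocks A B C' D).det = 0 := by
      by_contra hne
      apply hmax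
      refine ⟨fun i => Sum.elim f (fun _ => c) (finSumFinEquiv.symm i),
        fun i => Sum.elim g (fun _ => o) (finSumFinEquiv.symm i), ?_⟩
      have h2 : (Matrix.of fun i j => M (Sum.elim f (fun _ => c) ((finSumFinEquiv (m := r) (n := 1)).symm i))
          (Sum.elim g (fun _ => o) ((finSumFinEquiv (m := r) (n := 1)).symm j))) =
          (Matrix.fromBlocks A B C' D).submatrix finSumFinEquiv.symm finSumFinEquiv.symm := by
        ext i j
        simp only [Matrix.of_apply, Matrix.submatrix_apply]
        rcases finSumFinEquiv.symm i with a | a <;> rcases finSumFinEquiv.symm j with b | b <;>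
          simp [hA, B, C', D]
      rw [h2, Matrix.det_submatrix_equiv_self]
      exact hne
    rw [Matrix.det_fromBlocks₁₁] at h1
    have h3 : (D - C' * ⅟A * B).det = 0 := by
      rcases mul_eq_zero.1 h1 with h | h
      · exact absurd h hdet
      · exact h
    rw [Matrix.det_fin_one, Matrix.sub_apply, sub_eq_zero] at h3
    have h4 : D 0 0 = M c o := rfl
    rw [h4, Matrix.invOf_eq_nonsing_inv, Matrix.mul_apply] at h3
    rw [h3]
    refine Finset.sum_congr rfl fun i _ => ?_
    rw [Matrix.mul_apply, Finset.sum_mul]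
    rfl

end Cea.N
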