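import Pool.Agent.Lib.MP_cea156_al.N.E2a

/-! E6: the Schur condition is automatic if the block is of maximal size for every type. If `c`, `o` have opposite types then `c = f i₀` or `o = g j₀`, and
`M₀₀ N = 1` or `N M₀₀ = 1`. Otherwise `M c o = 0` and all terms of the sum vanish (`N_ty`). -/

set_option autoImplicit false

namespace Cea.N

open Finset Matrix

variable {R V : Type} [CommRing R] {O C T : Type} [Fintype O] [DecidableEq O] [Fintype C] [DecidableEq C]
  [Fintype T] [DecidableEq T]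

theorem schur_of_full {r : ℕ} (ty : O ⊕ C ⊕ T → V × V) (f : Fin r → C) (g : Fin r → O) (M : Matrix C O R)
    (N : Matrix (Fin r) (Fin r) R) (h1 : (Matrix.of fun i j => M (f i) (g j)) * N = 1)
    (h2 : N * (Matrix.of fun i j => M (f i) (g j)) = 1)
    (hM : ∀ c o, M c o ≠ 0 → ty (Sum.inl o) = (ty (Sum.inr (Sum.inl c))).swap)
    (hfull : ∀ c o, (∀ i, f i ≠ c) → (∀ j, g j ≠ o) → ty (Sum.inl o) ≠ (ty (Sum.inr (Sum.inl c))).swap) (c : C) (o : O) :
    M c o = ∑ i, ∑ j, M c (g j) * N j i * M (f i) o := by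
  by_cases hc : ∃ i, f i = c
  · obtain ⟨i₀, rfl⟩ := hc
    have e : ∀ i, ∑ j, M (f i₀) (g j) * N j i * M (f i) o = (1 : Matrix (Fin r) (Fin r) R) i₀ i * M (f i) o := by
      intro i
      rw [← h1, Matrix.mul_apply, Finset.sum_mul]
      rfl
    rw [Finset.sum_congr rfl fun i _ => e i, Finset.sum_eq_single i₀]
    · rw [Matrix.one_apply_eq, one_mul]
    · intro i _ hi
      rw [Matrix.one_apply_ne (Ne.symm hi), zero_mul]
    · intro h
      exact absurd (Finset.mem_univ i₀) h
  by_cases ho : ∃ j, g j = o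
  · obtain ⟨j₀, rfl⟩ := ho
    rw [Finset.sum_comm]
    have e : ∀ j, ∑ i, M c (g j) * N j i * M (f i) (g j₀) = M c (g j) * (1 : Matrix (Fin r) (Fin r) R) j j₀ := by
      intro j
      rw [← h2, Matrix.mul_apply, Finset.mul_sum]
      refine Finset.sum_congr rfl fun i _ => ?_
      rw [mul_assoc]
      rfl
    rw [Finset.sum_congr rfl fun j _ => e j, Finset.sum_eq_single j₀]
    · rw [Matrix.one_apply_eq, mul_one]
    · intro j _ hj
      rw [Matrix.one_apply_ne hj, mul_zero]
    · intro h
      exact absurd (Finset.mem_univ j₀) h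
  push Not at hc ho
  have hne := hfull c o hc ho
  have h0 : M c o = 0 := by
    by_contra h
    exact hne (hM c o h)
  rw [h0]
  symm
  refine Finset.sum_eq_zero fun i _ => Finset.sum_eq_zero fun j _ => ?_
  by_contra h
  have h3 : M c (g j) ≠ 0 := fun h' => h (by rw [h', zero_mul, zero_mul])
  have h4 : N j i ≠ 0 := fun h' => h (by rw [h', mul_zero, zero_mul])
  have h5 : M (f i) o ≠ 0 := fun h' => h (by rw [h', mul_zero])
  apply hne
  rw [hM _ _ h5, ← N_ty ty f g M N h1 h2 hM i j h4, hM _ _ h3]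

end Cea.N
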