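import Pool.Agent.Lib.MP_cea156_al.N.M3a

/-! F0: non-degeneracy along a sequence of mutations. -/

set_option autoImplicit false

namespace Cea.N

open Relation

variable {V : Type} [DecidableEq V]

/-- all mutations along initial segments of `κ` are 2-acyclic -/
def Good : List V → QP V → Prop
  | [], P => P.Q.TwoAcyclic
  | k :: κ, P => P.Q.TwoAcyclic ∧ ∀ P', QP.Mut k P P' → Good κ P'

theorem Good.two {κ : List V} {P : QP V} (h : Good κ P) : P.Q.TwoAcyclic := by
  cases κ with
  | nil => exact h
  | cons k κ => exact h.1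

theorem nondeg_iff_good (P : QP V) : Nondeg P ↔ ∀ κ, Good κ P := by
  constructor
  · intro h κ
    induction κ generalizing P with
    | nil => exact Nondeg.two h
    | cons k κ ih => exact ⟨Nondeg.two h, fun P' hm => ih P' (Nondeg.mut h hm)⟩
  · intro h P' hP'
    have key : ∀ κ, Good κ P' := by
      induction hP' with
      | refl => exact h
      | tail _ hbc ih =>
        obtain ⟨k, hk⟩ := hbc
        intro κ
        exact (ih (k :: κ)).2 _ hk
    exact (key []).two

theorem Good_congr {κ : List V} {P P' : QP V} (h : RE P.Q P'.Q P.W P'.W) (hg : Good κ P) : Good κ P' := by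
  cases κ with
  | nil => exact RE_twoAcyclic h hg
  | cons k κ =>
    have h2 : P'.Q.TwoAcyclic := RE_twoAcyclic h hg.1
    refine ⟨h2, fun R hm => hg.2 R ?_⟩
    rw [Mut_iff] at hm ⊢
    exact mu_congr (noLoop hg.1 k) (noLoop h2 k) P.pot h hm

end Cea.N
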