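import Mathlib

/-! F1: rational functions of `s` with denominators a power of `f`, where `f 0 ≠ 0`. `exists_ext`: `u = P / f ^ n`, `g = f * P`. -/

set_option autoImplicit false

namespace Cea.N

open Polynomial

/-- fractions with denominator a power of `f` -/
abbrev Fam (f : ℂ[X]) : Type := Localization.Away f

theorem isUnit_ev {f : ℂ[X]} {s : ℂ} (hs : f.eval s ≠ 0) : IsUnit ((Polynomial.evalRingHom s) f) := by
  rw [Polynomial.coe_evalRingHom]
  exact isUnit_iff_ne_zero.mpr hs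

/-- the value at `s` -/
noncomputable def evF (f : ℂ[X]) (s : ℂ) (hs : f.eval s ≠ 0) : Fam f →+* ℂ :=
  IsLocalization.Away.lift f (isUnit_ev hs)

theorem evF_poly (f : ℂ[X]) (s : ℂ) (hs : f.eval s ≠ 0) (P : ℂ[X]) : evF f s hs (algebraMap ℂ[X] (Fam f) P) = P.eval s :=
  IsLocalization.Away.lift_eq f (isUnit_ev hs) P

theorem exists_ext {f : ℂ[X]} (h0 : f.eval 0 ≠ 0) (u : Fam f) (hu : evF f 0 h0 u ≠ 0) :
    ∃ (g : ℂ[X]) (h : Fam f →+* Fam g), g.eval 0 ≠ 0 ∧ IsUnit (h u) ∧
      ∀ (s : ℂ) (hg : g.eval s ≠ 0), ∃ hf : f.eval s ≠ 0, (evF g s hg).comp h = evF f s hf := by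
  obtain ⟨n, P, hP⟩ := IsLocalization.Away.surj f u
  have hP0 : P.eval 0 ≠ 0 := by
    have h1 := congrArg (evF f 0 h0) hP
    rw [map_mul, map_pow, evF_poly, evF_poly] at h1
    rw [← h1]
    exact mul_ne_zero hu (pow_ne_zero n h0)
  have hg : IsUnit (algebraMap ℂ[X] (Fam (f * P)) (f * P)) :=
    IsLocalization.Away.algebraMap_isUnit (f * P)
  rw [map_mul] at hg
  have hgf : IsUnit (algebraMap ℂ[X] (Fam (f * P)) f) := isUnit_of_mul_isUnit_left hg
  have hgP : IsUnit (algebraMap ℂ[X] (Fam (f * P)) P) := isUnit_of_mul_isUnit_right hg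
  have hlift : ∀ Q : ℂ[X], (IsLocalization.Away.lift f hgf : Fam f →+* Fam (f * P))
      (algebraMap ℂ[X] (Fam f) Q) = algebraMap ℂ[X] (Fam (f * P)) Q :=
    fun Q => IsLocalization.Away.lift_eq f hgf Q
  refine ⟨f * P, IsLocalization.Away.lift f hgf, ?_, ?_, ?_⟩
  · rw [Polynomial.eval_mul]
    exact mul_ne_zero h0 hP0
  · have h1 := congrArg (IsLocalization.Away.lift f hgf : Fam f →+* Fam (f * P)) hP
    rw [map_mul, map_pow, hlift, hlift] at h1
    rw [← h1] at hgP
    exact isUnit_of_mul_isUnit_left hgP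
  · intro s hs
    have hfs : f.eval s ≠ 0 := by
      intro h
      apply hs
      rw [Polynomial.eval_mul, h, zero_mul]
    refine ⟨hfs, IsLocalization.ringHom_ext (Submonoid.powers f) (RingHom.ext fun Q => ?_)⟩
    rw [RingHom.comp_apply, RingHom.comp_apply, RingHom.comp_apply, hlift, evF_poly, evF_poly]

/-- the zeros of a polynomial which does not vanish at `0` -/
theorem finite_zeros {g : ℂ[X]} (h0 : g.eval 0 ≠ 0) : {s : ℂ | g.eval s = 0}.Finite := by
  have hg : g ≠ 0 := by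
    rintro rfl
    exact h0 Polynomial.eval_zero
  exact (g.roots.toFinset.finite_toSet).subset fun s hs => by
    rw [Finset.mem_coe, Multiset.mem_toFinset, Polynomial.mem_roots hg]
    exact hs

end Cea.N
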