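import Pool.Agent.Lib.MP_cea156_al.N.E4b
import Pool.Agent.Lib.MP_cea156_al.N.E5

/-! M2a: mutations exist (over `ℂ`): `max_minor` for `mm P.Q k P.W`, then `ex_mut` and `Mut_iff`. -/

set_option autoImplicit false

namespace Cea.N

theorem exists_mut {V : Type} [DecidableEq V] (P : QP V) (h2 : P.Q.TwoAcyclic) (k : V) :
    ∃ P' : QP V, QP.Mut k P P' ∧ ∃ (r : ℕ) (f : Fin r → P.Q.In k × P.Q.Out k) (g : Fin r → P.Q.Old k),
      P'.Q = redQ P.Q k f g := by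
  obtain ⟨r, f, g, N, hf, hg, h1, h1', hs⟩ :=
    max_minor (K := ℂ) (C := P.Q.In k × P.Q.Out k) (O := P.Q.Old k) (mm P.Q k P.W)
  obtain ⟨S, hS, hM⟩ := ex_mut (R := ℂ) (W := P.W) h2 P.pot hf hg h1 h1' hs
  exact ⟨⟨redQ P.Q k f g, S, hS⟩, (Mut_iff k P _).2 hM, r, f, g, rfl⟩

end Cea.N
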