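import Pool.Agent.Lib.MP_cea156_al.N.F0
import Pool.Agent.Lib.MP_cea156_al.N.F1
import Pool.Agent.Lib.MP_cea156_al.N.A10
import Pool.Agent.Lib.MP_cea156_al.N.M2a
import Pool.Agent.Lib.MP_cea156_al.N.E6

/-! F2a: a mutation of a family. Let `W₀` be the fibre at `0`; `max_minor` for `mm Q k W₀` gives `f`, `g`, and `ex_mut` a mutation of `(Q, W₀)` with quiver
`redQ Q k f g`, 2-acyclic by hypothesis. So there is no composite outside `range f` opposite to an old arrow outside `range g` (`hfull` of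
`schur_of_full`). The determinant of the block over `Fam f₀` does not vanish at `0`; `exists_ext` makes it invertible over `Fam g₀`; then
`schur_of_full` and `ex_mut` over `Fam g₀`. (`mapR` commutes with `cyc`, `mapR_cyc`.) -/

set_option autoImplicit false

namespace Cea.N

open Polynomial

/-- the pairing commutes with homomorphisms of the coefficients -/
theorem F2a_mm {V R R' : Type} [DecidableEq V] [CommRing R] [CommRing R'] (h : R →+* R') {Q : Quiv V} {k : V}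
    (W : NC Q.A R) (c : Q.In k × Q.Out k) (o : Q.Old k) : mm Q k (mapR h W) c o = h (mm Q k W c o) := by
  show cyc (mapR h W) [c.1.1, c.2.1, o.1] = h (cyc W [c.1.1, c.2.1, o.1])
  rw [← mapR_cyc]
  rfl

/-- the block commutes with homomorphisms of the coefficients -/
theorem F2a_block {V R R' : Type} [DecidableEq V] [CommRing R] [CommRing R'] (h : R →+* R') {Q : Quiv V} {k : V}
    (W : NC Q.A R) {r : ℕ} (f : Fin r → Q.In k × Q.Out k) (g : Fin r → Q.Old k) :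
    (Matrix.of fun i j => mm Q k (mapR h W) (f i) (g j)) = h.mapMatrix (Matrix.of fun i j => mm Q k W (f i) (g j)) := by
  ext i j
  rw [RingHom.mapMatrix_apply, Matrix.map_apply, Matrix.of_apply, Matrix.of_apply, F2a_mm]

/-- if the reduced quiver is 2-acyclic, the composites and old arrows which are left are never opposite -/
theorem F2a_full {V : Type} [DecidableEq V] {Q : Quiv V} {k : V} {r : ℕ} {f : Fin r → Q.In k × Q.Out k}
    {g : Fin r → Q.Old k} (h : (redQ Q k f g).TwoAcyclic) (c : Q.In k × Q.Out k) (o : Q.Old k)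
    (hc : ∀ i, f i ≠ c) (ho : ∀ j, g j ≠ o) :
    tyQ Q k (Sum.inl o) ≠ (tyQ Q k (Sum.inr (Sum.inl c))).swap := by
  intro he
  have h1 : (∀ i, (Sum.inl o : Q.Old k ⊕ (Q.In k × Q.Out k) ⊕ Q.Tch k) ≠ Sum.inr (Sum.inl (f i))) ∧
      ∀ i, (Sum.inl o : Q.Old k ⊕ (Q.In k × Q.Out k) ⊕ Q.Tch k) ≠ Sum.inl (g i) :=
    ⟨fun i => Sum.inl_ne_inr, fun i hi => ho i (Sum.inl_injective hi).symm⟩
  have h2 : (∀ i, (Sum.inr (Sum.inl c) : Q.Old k ⊕ (Q.In k × Q.Out k) ⊕ Q.Tch k) ≠ Sum.inr (Sum.inl (f i))) ∧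
      ∀ i, (Sum.inr (Sum.inl c) : Q.Old k ⊕ (Q.In k × Q.Out k) ⊕ Q.Tch k) ≠ Sum.inl (g i) :=
    ⟨fun i hi => hc i (Sum.inl_injective (Sum.inr_injective hi)).symm, fun i => Sum.inr_ne_inl⟩
  have e1 : (Q.pre k).s (Sum.inl o) = (Q.pre k).t (Sum.inr (Sum.inl c)) := congrArg Prod.fst he
  have e2 : (Q.pre k).t (Sum.inl o) = (Q.pre k).s (Sum.inr (Sum.inl c)) := congrArg Prod.snd he
  exact h ⟨Sum.inl o, h1⟩ ⟨Sum.inr (Sum.inl c), h2⟩ ⟨e2, e1.symm⟩

theorem fam_step {V : Type} [DecidableEq V] {Q : Quiv V} {k : V} {κ : List V} (h2 : Q.TwoAcyclic) {f : ℂ[X]}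
    (h0 : f.eval 0 ≠ 0) {W : NC Q.A (Fam f)} (hW : Pot Q W) (hp : IsPot Q (mapR (evF f 0 h0) W))
    (hg : Good (k :: κ) ⟨Q, mapR (evF f 0 h0) W, hp⟩) :
    ∃ (g : ℂ[X]) (h : Fam f →+* Fam g), g.eval 0 ≠ 0 ∧
      (∀ (s : ℂ) (hg : g.eval s ≠ 0), ∃ hf : f.eval s ≠ 0, (evF g s hg).comp h = evF f s hf) ∧
      ∃ (Q₁ : Quiv V) (S : NC Q₁.A (Fam g)), Q₁.TwoAcyclic ∧ Pot Q₁ S ∧ Mu k Q Q₁ (mapR h W) S := by
  obtain ⟨r, fr, gr, N0, hfr, hgr, h1, h1', hs0⟩ := max_minor (mm Q k (mapR (evF f 0 h0) W))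
  obtain ⟨S₀, hS₀, hm₀⟩ := ex_mut h2 (W := mapR (evF f 0 h0) W) hp hfr hgr h1 h1' hs0
  have hred : (redQ Q k fr gr).TwoAcyclic := by
    have hm := (Mut_iff k ⟨Q, mapR (evF f 0 h0) W, hp⟩ ⟨redQ Q k fr gr, S₀, hS₀⟩).mpr hm₀
    exact (hg.2 _ hm).two
  have hu : evF f 0 h0 (Matrix.of fun i j => mm Q k W (fr i) (gr j)).det ≠ 0 := by
    rw [RingHom.map_det, ← F2a_block]
    intro hz
    have h3 := congrArg Matrix.det h1
    rw [Matrix.det_mul, hz, zero_mul, Matrix.det_one] at h3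
    exact zero_ne_one h3
  obtain ⟨g, h, hg0, hunit, hcomp⟩ := exists_ext h0 _ hu
  rw [RingHom.map_det, ← F2a_block] at hunit
  have hD1 := Matrix.mul_nonsing_inv _ hunit
  have hD2 := Matrix.nonsing_inv_mul _ hunit
  have hpot : Pot Q (mapR h W) := hW.map h
  obtain ⟨S, hS, hm⟩ := ex_mut h2 hpot hfr hgr hD1 hD2 fun c o =>
    schur_of_full (tyQ Q k) fr gr (mm Q k (mapR h W)) _ hD1 hD2 (fun c o => mm_ty hpot c o)
      (fun c o hc ho => F2a_full hred c o hc ho) c o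
  exact ⟨g, h, hg0, hcomp, redQ Q k fr gr, S, hred, hS, hm⟩

end Cea.N
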