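import Pool.Agent.Lib.MP_cea156_al.N.F2a

/-! F2b: generic members of a family are as good as the member at `0`. Induction on `κ`: `fam_step` gives a family `S` on `Q₁` with fibre at `0` a mutation of the fibre
of `W` at `0` (`Mu.map`), hence `Good κ`; by induction `Good κ` for the fibre of `S` at `s` if `g' s ≠ 0`; every mutation of the fibre of `W` at `s` is
right equivalent to it (`mu_unique`), `Good_congr`. -/

set_option autoImplicit false

namespace Cea.N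

open Polynomial

theorem pot_map {V : Type} [DecidableEq V] {Q : Quiv V} {R : Type} [CommRing R] {W : NC Q.A R} (hW : Pot Q W)
    (h : R →+* ℂ) : IsPot Q (mapR h W) := hW.map h

private theorem F2b_noLoop {V : Type} [DecidableEq V] {Q : Quiv V} (h2 : Q.TwoAcyclic) (k : V) :
    NoLoop Q k := fun a ha => h2 a a ⟨ha.2.trans ha.1.symm, ha.2.trans ha.1.symm⟩

private theorem F2b_comp {V : Type} [DecidableEq V] {Q : Quiv V} {R R' : Type} [CommRing R] [CommRing R']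
    (h : R →+* R') (h' : R' →+* ℂ) (h'' : R →+* ℂ) (hc : h'.comp h = h'') (W : NC Q.A R) :
    mapR h' (mapR h W) = mapR h'' W := by
  subst hc
  rfl

theorem good_family {V : Type} [DecidableEq V] (κ : List V) {Q : Quiv V} (h2 : Q.TwoAcyclic) {f : ℂ[X]}
    (h0 : f.eval 0 ≠ 0) {W : NC Q.A (Fam f)} (hW : Pot Q W)
    (hg : Good κ ⟨Q, mapR (evF f 0 h0) W, pot_map hW _⟩) :
    ∃ g : ℂ[X], g.eval 0 ≠ 0 ∧ ∀ s, g.eval s ≠ 0 → ∃ hf : f.eval s ≠ 0,
      Good κ ⟨Q, mapR (evF f s hf) W, pot_map hW _⟩ := by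
  induction κ generalizing Q f with
  | nil => exact ⟨f, h0, fun s hs => ⟨hs, h2⟩⟩
  | cons k κ ih =>
    obtain ⟨g, h, hg0, hcomp, Q₁, S, h2', hS, hMu⟩ := fam_step h2 h0 hW _ hg
    have hfib : ∀ (s : ℂ) (hgs : g.eval s ≠ 0) (hfs : f.eval s ≠ 0)
        (_ : (evF g s hgs).comp h = evF f s hfs),
        QP.Mut k ⟨Q, mapR (evF f s hfs) W, pot_map hW _⟩ ⟨Q₁, mapR (evF g s hgs) S, pot_map hS _⟩ := by
      intro s hgs hfs hc
      have h1 := hMu.map (evF g s hgs)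
      rw [F2b_comp h _ _ hc W] at h1
      exact (Mut_iff k _ _).2 h1
    obtain ⟨hf0, hc0⟩ := hcomp 0 hg0
    have hgood : Good κ ⟨Q₁, mapR (evF g 0 hg0) S, pot_map hS _⟩ := hg.2 _ (hfib 0 hg0 hf0 hc0)
    obtain ⟨g', hg'0, hg'⟩ := ih h2' hg0 hS hgood
    refine ⟨g', hg'0, fun s hs => ?_⟩
    obtain ⟨hgs, hgs'⟩ := hg' s hs
    obtain ⟨hfs, hcs⟩ := hcomp s hgs
    refine ⟨hfs, h2, fun P' hP' => ?_⟩
    have m1 := (Mut_iff k _ _).1 (hfib s hgs hfs hcs)
    have m2 := (Mut_iff k _ _).1 hP'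
    have hr := mu_unique (F2b_noLoop h2 k) (F2b_noLoop h2 k) (hS.map (evF g s hgs)) P'.pot
      (RE.refl _) m1 m2
    exact Good_congr hr hgs'

end Cea.N
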