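import Pool.Agent.Lib.MP_cea156_al.N.HDefs
import Pool.Agent.Lib.MP_cea156_al.B06

/-! H1: relatively prime pairs (Muller). Work in the ring `clA M s`. Exchange relation at `j`: `x_j x_j' = P + N`, `P = ∏ x_k ^ (B k j)₊` is divisible by `x_i`,
`N = ∏ x_k ^ (B j k)₊`; so `N` is in the ideal `(x_i, x_j)`. Induction on `FinFrom M B j` (`Acc.rec`): for `k ∈ M` with `B j k > 0`, `x_j` and `x_k` are
coprime by induction; for `k ∉ M`, `x_k` is a unit; so `x_j` and `N` are coprime (`IsCoprime.prod_right`, `IsCoprime.pow_right`), hence `x_i` and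
`x_j` are coprime. `pair_to` is dual (exchange relation at `i`). Compare `B06.glue`. -/

set_option autoImplicit false

namespace Cea

variable {n : ℕ} {K : Type} [Field K] [Algebra ℂ K]

theorem x_mem (M : Finset (Fin n)) (s : Seed n K) (k : Fin n) : s.x k ∈ clA M s :=
  Algebra.subset_adjoin (Or.inl ⟨s, Relation.ReflTransGen.refl, k, rfl⟩)

private theorem H1_inv (M : Finset (Fin n)) (s : Seed n K) {k : Fin n} (hk : k ∉ M) : (s.x k)⁻¹ ∈ clA M s :=
  Algebra.subset_adjoin (Or.inr ⟨k, hk, rfl⟩)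

private theorem H1_exch (M : Finset (Fin n)) (s : Seed n K) {k : Fin n} (hk : k ∈ M) : s.exch k / s.x k ∈ clA M s := by
  have h3 : ReachM M s (s.mut k) := Relation.ReflTransGen.single ⟨k, hk, rfl⟩
  have h4 : (s.mut k).x k ∈ clA M s := Algebra.subset_adjoin (Or.inl ⟨s.mut k, h3, k, rfl⟩)
  simpa [Seed.mut] using h4

/-- a monomial whose variables are coprime to `x_j` is coprime to `x_j` -/
private theorem H1_mon (M : Finset (Fin n)) (s : Seed n K) (h : s.Ok) (j : Fin n) (m : Fin n → ℕ)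
    (hm : ∀ k ∈ M, m k ≠ 0 → IsCoprime (⟨s.x j, x_mem M s j⟩ : clA M s) ⟨s.x k, x_mem M s k⟩) :
    IsCoprime (⟨s.x j, x_mem M s j⟩ : clA M s) (∏ k, (⟨s.x k, x_mem M s k⟩ : clA M s) ^ m k) := by
  refine IsCoprime.prod_right fun k _ => ?_
  by_cases h0 : m k = 0
  · rw [h0, pow_zero]
    exact isCoprime_one_right
  · refine IsCoprime.pow_right ?_
    by_cases hk : k ∈ M
    · exact hm k hk h0
    · refine ⟨0, ⟨(s.x k)⁻¹, H1_inv M s hk⟩, ?_⟩
      apply Subtype.ext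
      show (0 : K) * s.x j + (s.x k)⁻¹ * s.x k = 1
      rw [zero_mul, zero_add, inv_mul_cancel₀ (Ok_ne h k)]

/-- the exchange relation in the ring `clA M s` -/
private theorem H1_rel (M : Finset (Fin n)) (s : Seed n K) (h : s.Ok) {j : Fin n} (hj : j ∈ M) :
    ∃ y : clA M s, (⟨s.x j, x_mem M s j⟩ : clA M s) * y =
      ∏ k, (⟨s.x k, x_mem M s k⟩ : clA M s) ^ (s.B k j).toNat +
        ∏ k, (⟨s.x k, x_mem M s k⟩ : clA M s) ^ (-s.B k j).toNat := by
  refine ⟨⟨s.exch j / s.x j, H1_exch M s hj⟩, ?_⟩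
  apply Subtype.ext
  push_cast
  rw [mul_div_cancel₀ _ (Ok_ne h j)]
  rfl

/-- a variable divides a monomial -/
private theorem H1_dvd (M : Finset (Fin n)) (s : Seed n K) (i : Fin n) (m : Fin n → ℕ) (hm : m i ≠ 0) :
    ∃ v : clA M s, ∏ k, (⟨s.x k, x_mem M s k⟩ : clA M s) ^ m k = ⟨s.x i, x_mem M s i⟩ * v := by
  have h1 : (⟨s.x i, x_mem M s i⟩ : clA M s) ∣ ∏ k, (⟨s.x k, x_mem M s k⟩ : clA M s) ^ m k :=
    (dvd_pow_self _ hm).trans (Finset.dvd_prod_of_mem (fun k => (⟨s.x k, x_mem M s k⟩ : clA M s) ^ m k)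
      (Finset.mem_univ i))
  exact h1

theorem pair_from (M : Finset (Fin n)) (s : Seed n K) (h : s.Ok) {j : Fin n} (hf : FinFrom M s.B j) :
    ∀ i, i ∈ M → j ∈ M → 0 < s.B i j →
      IsCoprime (⟨s.x i, x_mem M s i⟩ : clA M s) ⟨s.x j, x_mem M s j⟩ := by
  induction hf with
  | intro j _ ih =>
    intro i hi hj hij
    obtain ⟨y, hy⟩ := H1_rel M s h hj
    obtain ⟨v, hv⟩ := H1_dvd M s i (fun k => (s.B k j).toNat) (by omega)
    obtain ⟨a, b, hab⟩ := H1_mon M s h j (fun k => (-s.B k j).toNat) (fun k hk h0 => by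
      have h1 := h.2 j k
      have h2 : 0 < s.B j k := by omega
      exact ih k ⟨hk, h2⟩ j hj hk h2)
    refine ⟨-(b * v), a + b * y, ?_⟩
    rw [hv] at hy
    linear_combination hab + b * hy

theorem pair_to (M : Finset (Fin n)) (s : Seed n K) (h : s.Ok) {i : Fin n} (hf : FinTo M s.B i) :
    ∀ j, i ∈ M → j ∈ M → 0 < s.B i j →
      IsCoprime (⟨s.x i, x_mem M s i⟩ : clA M s) ⟨s.x j, x_mem M s j⟩ := by
  induction hf with
  | intro i _ ih =>
    intro j hi hj hij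
    obtain ⟨y, hy⟩ := H1_rel M s h hi
    obtain ⟨v, hv⟩ := H1_dvd M s j (fun k => (-s.B k i).toNat) (by
      have h1 := h.2 i j
      show (-s.B j i).toNat ≠ 0
      omega)
    obtain ⟨a, b, hab⟩ := H1_mon M s h i (fun k => (s.B k i).toNat) (fun k hk h0 => by
      have h2 : 0 < s.B k i := by omega
      exact (ih k ⟨hk, h2⟩ i hk hi h2).symm)
    refine ⟨a + b * y, -(b * v), ?_⟩
    rw [hv] at hy
    linear_combination hab + b * hy

end Cea
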