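import Pool.Agent.Lib.MP_cea156_al.N.H1
import Pool.Agent.Lib.MP_cea156_al.B07

/-! H2: glueing along a relatively prime pair (copy the end of the proof of `B06.glue`; the private lemmas of B06 have to be copied), invariance under
mutations in `M` (`mut_mut`, `mut_ok`), acyclic sets (copy the proof of `B07.upA_le_clA` with the rank function only used on `M`). -/

set_option autoImplicit false

namespace Cea

open Relation

variable {n : ℕ} {K : Type} [Field K] [Algebra ℂ K]

omit [Algebra ℂ K] in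
private theorem H2_reach {M : Finset (Fin n)} {i : Fin n} {s s' : Seed n K} (h : ReachM (M.erase i) s s') :
    ReachM M s s' := by
  induction h with
  | refl => exact Relation.ReflTransGen.refl
  | tail _ h2 ih =>
    obtain ⟨k, hk, e⟩ := h2
    exact Relation.ReflTransGen.tail ih ⟨k, Finset.mem_of_mem_erase hk, e⟩

private theorem H2_up (M : Finset (Fin n)) (i : Fin n) (s : Seed n K) : upA M s ≤ upA (M.erase i) s := by
  unfold upA
  refine le_iInf₂ fun s' hs' => ?_
  exact iInf₂_le s' (H2_reach hs')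

private theorem H2_var (M : Finset (Fin n)) (s : Seed n K) {s' : Seed n K} (h : ReachM M s s') (k : Fin n) :
    s'.x k ∈ clA M s :=
  Algebra.subset_adjoin (Or.inl ⟨s', h, k, rfl⟩)

private theorem H2_inv (M : Finset (Fin n)) (s : Seed n K) {k : Fin n} (hk : k ∉ M) : (s.x k)⁻¹ ∈ clA M s :=
  Algebra.subset_adjoin (Or.inr ⟨k, hk, rfl⟩)

/-- a power of `x_i` clears the denominators -/
private theorem H2_clear (M : Finset (Fin n)) (s : Seed n K) {i : Fin n} (hx : s.x i ≠ 0) {f : K}
    (hf : f ∈ clA (M.erase i) s) : ∃ a : ℕ, s.x i ^ a * f ∈ clA M s := by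
  unfold clA at hf
  induction hf using Algebra.adjoin_induction with
  | mem z hz =>
    rcases hz with ⟨s', hs', k, rfl⟩ | ⟨k, hk, rfl⟩
    · exact ⟨0, by rw [pow_zero, one_mul]; exact H2_var M s (H2_reach hs') k⟩
    · by_cases hki : k = i
      · subst hki
        refine ⟨1, ?_⟩
        rw [pow_one, mul_inv_cancel₀ hx]
        exact one_mem _
      · refine ⟨0, ?_⟩
        rw [pow_zero, one_mul]
        refine H2_inv M s fun hkM => hk (Finset.mem_erase.mpr ⟨hki, hkM⟩)
  | algebraMap r => exact ⟨0, by rw [pow_zero, one_mul]; exact Subalgebra.algebraMap_mem _ r⟩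
  | add x y _ _ hx' hy' =>
    obtain ⟨a, ha⟩ := hx'
    obtain ⟨b, hb⟩ := hy'
    refine ⟨a + b, ?_⟩
    have e : s.x i ^ (a + b) * (x + y) = s.x i ^ b * (s.x i ^ a * x) + s.x i ^ a * (s.x i ^ b * y) := by ring
    rw [e]
    exact add_mem (mul_mem (pow_mem (x_mem M s i) b) ha) (mul_mem (pow_mem (x_mem M s i) a) hb)
  | mul x y _ _ hx' hy' =>
    obtain ⟨a, ha⟩ := hx'
    obtain ⟨b, hb⟩ := hy'
    refine ⟨a + b, ?_⟩
    have e : s.x i ^ (a + b) * (x * y) = (s.x i ^ a * x) * (s.x i ^ b * y) := by ring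
    rw [e]
    exact mul_mem ha hb

theorem glue_pair (M : Finset (Fin n)) (s : Seed n K) (h : s.Ok) {i j : Fin n}
    (hc : IsCoprime (⟨s.x i, x_mem M s i⟩ : clA M s) ⟨s.x j, x_mem M s j⟩)
    (h1 : upA (M.erase i) s ≤ clA (M.erase i) s) (h2 : upA (M.erase j) s ≤ clA (M.erase j) s) :
    upA M s ≤ clA M s := by
  have hxi := Ok_ne h i
  have hxj := Ok_ne h j
  intro f hf
  obtain ⟨a, ha⟩ := H2_clear M s hxi (h1 (H2_up M i s hf))
  obtain ⟨b, hb⟩ := H2_clear M s hxj (h2 (H2_up M j s hf))
  obtain ⟨α, β, hαβ⟩ := hc.pow (m := a) (n := b)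
  have h8 : (α : K) * s.x i ^ a + (β : K) * s.x j ^ b = 1 := by
    have := congrArg (Subtype.val) hαβ
    simpa using this
  have h9 : f = (α : K) * (s.x i ^ a * f) + (β : K) * (s.x j ^ b * f) := by
    linear_combination (-f) * h8
  rw [h9]
  exact add_mem (mul_mem α.2 ha) (mul_mem β.2 hb)

private theorem H2_iff {M : Finset (Fin n)} {s : Seed n K} (h : s.Ok) {k : Fin n} (hk : k ∈ M) (s' : Seed n K) :
    ReachM M (s.mut k) s' ↔ ReachM M s s' := by
  unfold ReachM
  constructor
  · intro h1
    exact ReflTransGen.head ⟨k, hk, rfl⟩ h1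
  · intro h1
    exact ReflTransGen.head ⟨k, hk, (mut_mut h k).symm⟩ h1

theorem clA_mut (M : Finset (Fin n)) (s : Seed n K) (h : s.Ok) {k : Fin n} (hk : k ∈ M) :
    clA M (s.mut k) = clA M s := by
  have hx : ∀ i, i ∉ M → (s.mut k).x i = s.x i := by
    intro i hi
    have hik : i ≠ k := fun e => hi (e ▸ hk)
    simp [Seed.mut, Function.update_of_ne hik]
  unfold clA
  congr 1
  ext z
  simp only [Set.mem_union, Set.mem_ofPred_eq, H2_iff h hk]
  refine or_congr Iff.rfl (exists_congr fun i => and_congr_right fun hi => ?_)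
  rw [hx i hi]

theorem upA_mut (M : Finset (Fin n)) (s : Seed n K) (h : s.Ok) {k : Fin n} (hk : k ∈ M) :
    upA M (s.mut k) = upA M s := by
  unfold upA
  simp only [Set.mem_ofPred_eq, H2_iff h hk]

private theorem H2_acyc (s : Seed n K) (h : s.Ok) (r : Fin n → ℕ) :
    ∀ (m : ℕ) (M : Finset (Fin n)), M.card = m → (∀ i ∈ M, ∀ j ∈ M, 0 < s.B i j → r i < r j) →
      upA M s ≤ clA M s := by
  classical
  intro m
  induction m with
  | zero =>
    intro M hM _
    rw [Finset.card_eq_zero] at hM
    subst hM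
    exact (upA_le_isoA _ s h (by simp)).trans (isoA_le_clA _ s h)
  | succ m ih =>
    intro M hM hr
    by_cases h0 : ∀ i ∈ M, ∀ j ∈ M, s.B i j = 0
    · exact (upA_le_isoA _ s h h0).trans (isoA_le_clA _ s h)
    · let N := M.filter fun i => ∃ j ∈ M, s.B i j ≠ 0
      have hN : N.Nonempty := by
        push Not at h0
        obtain ⟨i, hi, j, hj, hij⟩ := h0
        exact ⟨i, Finset.mem_filter.2 ⟨hi, j, hj, hij⟩⟩
      obtain ⟨i, hiN, hmin⟩ := N.exists_min_image r hN
      obtain ⟨hi, j, hj, hij⟩ := Finset.mem_filter.1 hiN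
      have hsrc : ∀ k ∈ M, 0 ≤ s.B i k := by
        intro k hk
        by_contra hneg
        push Not at hneg
        have h1 : 0 < s.B k i := by
          have := h.2 k i
          omega
        have h2 := hmin k (Finset.mem_filter.2 ⟨hk, i, hi, by omega⟩)
        have h3 := hr k hk i hi h1
        omega
      have hpos : 0 < s.B i j := lt_of_le_of_ne (hsrc j hj) (Ne.symm hij)
      exact glue M s h hi hj hpos hsrc
        (ih _ (by rw [Finset.card_erase_of_mem hi]; omega)
          fun a ha b hb => hr a (Finset.mem_of_mem_erase ha) b (Finset.mem_of_mem_erase hb))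
        (ih _ (by rw [Finset.card_erase_of_mem hj]; omega)
          fun a ha b hb => hr a (Finset.mem_of_mem_erase ha) b (Finset.mem_of_mem_erase hb))

theorem le_of_acycM (M : Finset (Fin n)) (s : Seed n K) (h : s.Ok) (ha : AcycM M s.B) : upA M s ≤ clA M s := by
  obtain ⟨r, hr⟩ := ha
  exact H2_acyc s h r _ M rfl hr

theorem le_of_mutAcycM (M : Finset (Fin n)) (s : Seed n K) (h : s.Ok) (ha : MutAcycM M s.B) : upA M s ≤ clA M s := by
  obtain ⟨B', h1, h2⟩ := ha
  have key : ∀ a, ReflTransGen (fun a b => ∃ k ∈ M, b = mutB k a) a B' →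
      ∀ s : Seed n K, s.Ok → s.B = a → upA M s ≤ clA M s := by
    intro a ha
    induction ha using ReflTransGen.head_induction_on with
    | refl =>
      intro s hs e
      exact le_of_acycM M s hs (by rw [e]; exact h2)
    | head hk _ ih =>
      obtain ⟨k, hk, e⟩ := hk
      intro s hs e'
      rw [← upA_mut M s hs hk, ← clA_mut M s hs hk]
      refine ih (s.mut k) (mut_ok hs k) ?_
      rw [e, ← e']
      rfl
  exact key s.B h1 s h rfl

end Cea
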