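import Pool.Agent.Lib.MP_cea156_al.N.H2

/-! H4: `A = U` for reducible sets, if all sets of at most three vertices are mutation-acyclic in the whole mutation class. Induction on `Red`. -/

set_option autoImplicit false

namespace Cea

open Relation

variable {n : ℕ} {K : Type} [Field K] [Algebra ℂ K]

/-- all subsets of at most three vertices are mutation-acyclic, in the whole mutation class -/
def Loc (B : Matrix (Fin n) (Fin n) ℤ) : Prop :=
  ∀ B', ReflTransGen (fun a b => ∃ k, b = mutB k a) B B' → ∀ M : Finset (Fin n), M.card ≤ 3 → MutAcycM M B'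

theorem H4_loc {B B' : Matrix (Fin n) (Fin n) ℤ} (h : ReflTransGen (fun a b => ∃ k, b = mutB k a) B B')
    (hl : Loc B) : Loc B' := fun B'' h' M hM => hl B'' (h.trans h') M hM

omit [Algebra ℂ K] in
theorem H4_reachB {s s' : Seed n K} (h : Reach s s') :
    ReflTransGen (fun a b => ∃ k, b = mutB k a) s.B s'.B := by
  induction h with
  | refl => exact ReflTransGen.refl
  | tail _ hk ih =>
    obtain ⟨k, rfl⟩ := hk
    exact ih.tail ⟨k, rfl⟩

omit [Algebra ℂ K] in
theorem H4_reachM {M : Finset (Fin n)} {s s' : Seed n K} (h : ReachM M s s') : Reach s s' := by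
  induction h with
  | refl => exact ReflTransGen.refl
  | tail _ hk ih =>
    obtain ⟨k, -, rfl⟩ := hk
    exact ih.tail ⟨k, rfl⟩

theorem le_of_red {M : Finset (Fin n)} {B : Matrix (Fin n) (Fin n) ℤ} (hr : Red M B) :
    Loc B → ∀ s : Seed n K, s.Ok → s.B = B → upA M s ≤ clA M s := by
  induction hr with
  | small hM =>
    intro hl s h hs
    subst hs
    exact le_of_mutAcycM _ s h (hl s.B ReflTransGen.refl _ hM)
  | disc h0 =>
    intro _ s h hs
    subst hs
    exact (upA_le_isoA _ s h h0).trans (isoA_le_clA _ s h)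
  | mutate hk _ ih =>
    intro hl s h hs
    subst hs
    have h1 := ih (H4_loc (ReflTransGen.single ⟨_, rfl⟩) hl) (s.mut _) (mut_ok h _) rfl
    rwa [upA_mut _ s h hk, clA_mut _ s h hk] at h1
  | cover hi hj hij hf _ _ ih1 ih2 =>
    intro hl s h hs
    subst hs
    refine glue_pair _ s h ?_ (ih1 hl s h rfl) (ih2 hl s h rfl)
    rcases hf with hf | hf
    · exact pair_from _ s h hf _ hi hj hij
    · exact pair_to _ s h hf _ hi hj hij

/-- from the algebras with frozen variables to the algebras of the initial seed -/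
theorem upper_le_adjoin {s₀ s : Seed n K} (h : s₀.Ok) (hs : Reach s₀ s) (M : Finset (Fin n))
    (hM : upA M s ≤ clA M s) :
    upperAlg s₀ ≤ Algebra.adjoin ℂ ((clusterAlg s₀ : Set K) ∪ {z | ∃ i, i ∉ M ∧ z = (s.x i)⁻¹}) := by
  rw [upperAlg_eq h hs, clusterAlg_eq h hs]
  have h1 : upperAlg s ≤ upA M s := by
    unfold upperAlg upA
    exact le_iInf₂ fun s' hs' => iInf₂_le s' (H4_reachM hs')
  refine (h1.trans hM).trans ?_
  unfold clA
  rw [Algebra.adjoin_le_iff]
  rintro z (⟨s', hs', i, rfl⟩ | hz)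
  · refine Algebra.subset_adjoin (Or.inl ?_)
    exact Algebra.subset_adjoin ⟨s', H4_reachM hs', i, rfl⟩
  · exact Algebra.subset_adjoin (Or.inr hz)

theorem main_red {B : Matrix (Fin n) (Fin n) ℤ} (hB : ∀ i j, B i j = -B j i) (hl : Loc B)
    {s : Seed n (FractionRing (MvPolynomial (Fin n) ℂ))} (hs : Reach (initSeed B) s) {M : Finset (Fin n)}
    (hM : Red M s.B) :
    upperAlg (initSeed B) ≤ Algebra.adjoin ℂ ((clusterAlg (initSeed B) : Set (FractionRing (MvPolynomial (Fin n) ℂ))) ∪
      {z | ∃ i, i ∉ M ∧ z = (s.x i)⁻¹}) := by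
  have hok := initSeed_ok B hB
  have hB' : ReflTransGen (fun a b => ∃ k, b = mutB k a) B s.B := H4_reachB hs
  exact upper_le_adjoin hok hs M (le_of_red hM (H4_loc hB' hl) s (reach_ok hok hs) rfl)

end Cea
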