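import Pool.Agent.Lib.MP_cea156_al.Defs

/-! Muller's reduction (Banff algorithm) with base sets of at most three vertices. -/

namespace Cea

open Relation

variable {n : ℕ}

/-- the full subquiver on `M` is acyclic -/
def AcycM (M : Finset (Fin n)) (B : Matrix (Fin n) (Fin n) ℤ) : Prop :=
  ∃ r : Fin n → ℕ, ∀ i ∈ M, ∀ j ∈ M, 0 < B i j → r i < r j

/-- some sequence of mutations at vertices in `M` makes the full subquiver on `M` acyclic -/
def MutAcycM (M : Finset (Fin n)) (B : Matrix (Fin n) (Fin n) ℤ) : Prop :=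
  ∃ B', ReflTransGen (fun a b => ∃ k ∈ M, b = mutB k a) B B' ∧ AcycM M B'

/-- no infinite path in `M` starts at `j` -/
def FinFrom (M : Finset (Fin n)) (B : Matrix (Fin n) (Fin n) ℤ) (j : Fin n) : Prop :=
  Acc (fun k l => k ∈ M ∧ 0 < B l k) j

/-- no infinite path in `M` ends at `i` -/
def FinTo (M : Finset (Fin n)) (B : Matrix (Fin n) (Fin n) ℤ) (i : Fin n) : Prop :=
  Acc (fun k l => k ∈ M ∧ 0 < B k l) i

/-- the full subquiver on `M` is reducible to subquivers with at most three vertices and to sets without arrows, by mutations at vertices in `M` and by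
covers: for an arrow `i → j` in `M` which is not contained in a bi-infinite path in `M`, pass to `M ∖ i` and `M ∖ j` -/
inductive Red : Finset (Fin n) → Matrix (Fin n) (Fin n) ℤ → Prop
  | small {M : Finset (Fin n)} {B : Matrix (Fin n) (Fin n) ℤ} : M.card ≤ 3 → Red M B
  | disc {M : Finset (Fin n)} {B : Matrix (Fin n) (Fin n) ℤ} : (∀ i ∈ M, ∀ j ∈ M, B i j = 0) → Red M B
  | mutate {M : Finset (Fin n)} {B : Matrix (Fin n) (Fin n) ℤ} {k : Fin n} : k ∈ M → Red M (mutB k B) → Red M B
  | cover {M : Finset (Fin n)} {B : Matrix (Fin n) (Fin n) ℤ} {i j : Fin n} : i ∈ M → j ∈ M → 0 < B i j →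
      (FinFrom M B j ∨ FinTo M B i) → Red (M.erase i) B → Red (M.erase j) B → Red M B

end Cea
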