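import Mathlib

/-! J1: Jacobian criterion (Mathlib only). `A = MvPolynomial σ ℂ`, `L` its fraction field. Let `B` be a transcendence basis of `A` over `ℂ` between `range f` and
`range f ∪ {X i}` (`exists_isTranscendenceBasis_between`); `B` has `card σ` elements. For `c : σ → L` let `D_c : A → L` be the derivation with `D_c (X i) = c i`
(`MvPolynomial.mkDerivation`). If `D_c` kills `B`, it kills `Algebra.adjoin ℂ B`, hence every element `z` which is algebraic over it (minimal relation
`p(z) = 0`: `p'(z) D z = 0`, `p'(z) ≠ 0` in characteristic 0), so `c = 0`. So `c ↦ (D_c b)_b` is injective, hence bijective `L^σ → L^B`, and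
`c ↦ (D_c (f t))_t` is surjective onto `τ → L`. Clearing denominators: there are polynomials `C s t` and `δ ≠ 0` with
`∑ s, pderiv s (f t) * C s t' = δ` if `t = t'` and `0` otherwise. Take `x` with `eval x (h * δ) ≠ 0`. -/

set_option autoImplicit false

namespace Cea.N

open MvPolynomial

/-- a derivation which kills a subalgebra kills the elements which are algebraic over it -/
private theorem J1_alg {σ L : Type} [Field L] [Algebra (MvPolynomial σ ℂ) L] [Algebra ℂ L]
    [IsScalarTower ℂ (MvPolynomial σ ℂ) L]
    (hinj : Function.Injective (algebraMap (MvPolynomial σ ℂ) L))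
    (S : Subalgebra ℂ (MvPolynomial σ ℂ)) (D : Derivation ℂ (MvPolynomial σ ℂ) L)
    (hS : ∀ x ∈ S, D x = 0) (z : MvPolynomial σ ℂ) (hz : IsAlgebraic S z) : D z = 0 := by
  have key : ∀ p : Polynomial S, D (Polynomial.aeval z p) =
      Polynomial.aeval z (Polynomial.derivative p) • D z := by
    intro p
    induction p using Polynomial.induction_on' with
    | add p q hp hq => rw [map_add, map_add, hp, hq, map_add, map_add, add_smul]
    | monomial n a =>
      rw [Polynomial.aeval_monomial, Polynomial.derivative_monomial, Polynomial.aeval_monomial,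
        Derivation.leibniz]
      have h1 : D (algebraMap S (MvPolynomial σ ℂ) a) = 0 := hS _ a.2
      rw [h1, smul_zero, add_zero, Derivation.leibniz_pow, map_mul, map_natCast, mul_assoc,
        mul_smul, mul_smul, Nat.cast_smul_eq_nsmul]
  have ind : ∀ (n : ℕ) (p : Polynomial S), p.natDegree ≤ n → p ≠ 0 → Polynomial.aeval z p = 0 →
      D z = 0 := by
    intro n
    induction n with
    | zero =>
      intro p hp hp0 hz
      exfalso
      rw [Polynomial.eq_C_of_natDegree_le_zero hp, Polynomial.aeval_C] at hz
      apply hp0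
      rw [Polynomial.eq_C_of_natDegree_le_zero hp]
      have h1 : p.coeff 0 = 0 := Subtype.ext hz
      rw [h1, map_zero]
    | succ n ih =>
      intro p hp hp0 hz
      by_cases hd : p.natDegree = 0
      · exfalso
        rw [Polynomial.eq_C_of_natDegree_eq_zero hd, Polynomial.aeval_C] at hz
        apply hp0
        rw [Polynomial.eq_C_of_natDegree_eq_zero hd]
        have h1 : p.coeff 0 = 0 := Subtype.ext hz
        rw [h1, map_zero]
      · have h1 := key p
        rw [hz, map_zero, Algebra.smul_def] at h1
        rcases mul_eq_zero.1 h1.symm with h2 | h2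
        · refine ih (Polynomial.derivative p) ?_ ?_ ?_
          · exact (Polynomial.natDegree_derivative_le p).trans (by omega)
          · intro h3
            exact hd (Polynomial.derivative_eq_zero.1 h3)
          · exact hinj (by rw [h2, map_zero])
        · exact h2
  obtain ⟨p, hp0, hp⟩ := hz
  exact ind p.natDegree p le_rfl hp0 hp

theorem jac_surj {σ τ : Type} [Fintype σ] [Fintype τ] [DecidableEq τ] (f : τ → MvPolynomial σ ℂ)
    (hf : AlgebraicIndependent ℂ f) (h : MvPolynomial σ ℂ) (hh : h ≠ 0) :
    ∃ x : σ → ℂ, eval x h ≠ 0 ∧ ∀ y : τ → ℂ, ∃ v : σ → ℂ, ∀ t, ∑ s, v s * eval x (pderiv s (f t)) = y t := by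
  classical
  let L := FractionRing (MvPolynomial σ ℂ)
  have hinj : Function.Injective (algebraMap (MvPolynomial σ ℂ) L) := IsFractionRing.injective _ _
  have hs : AlgebraicIndepOn ℂ id (Set.range f) := hf.to_subtype_range
  have hadj : Algebra.adjoin ℂ (Set.range f ∪ Set.range (X : σ → MvPolynomial σ ℂ)) = ⊤ := by
    rw [eq_top_iff, ← MvPolynomial.adjoin_range_X]
    exact Algebra.adjoin_mono Set.subset_union_right
  have halg : Algebra.IsAlgebraic
      (Algebra.adjoin ℂ (Set.range f ∪ Set.range (X : σ → MvPolynomial σ ℂ)))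
      (MvPolynomial σ ℂ) := by
    refine ⟨fun x => ?_⟩
    have hx : x ∈ Algebra.adjoin ℂ (Set.range f ∪ Set.range (X : σ → MvPolynomial σ ℂ)) := by
      rw [hadj]
      trivial
    exact isAlgebraic_algebraMap
      (⟨x, hx⟩ : Algebra.adjoin ℂ (Set.range f ∪ Set.range (X : σ → MvPolynomial σ ℂ)))
  obtain ⟨u, hfu, hut, hu⟩ :=
    exists_isTranscendenceBasis_between (Set.range f)
      (Set.range f ∪ Set.range (X : σ → MvPolynomial σ ℂ)) Set.subset_union_left hs
  have hufin : u.Finite := ((Set.finite_range f).union (Set.finite_range _)).subset hut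
  let _ := hufin.fintype
  have hcard : Fintype.card σ = Fintype.card u := by
    have h1 := hu.cardinalMk_eq (IsTranscendenceBasis.mvPolynomial σ ℂ)
    rw [Cardinal.mk_fintype, Cardinal.mk_fintype] at h1
    exact_mod_cast h1.symm
  let J : Matrix u σ L := fun b s => algebraMap (MvPolynomial σ ℂ) L (pderiv s (b : MvPolynomial σ ℂ))
  have hJinj : Function.Injective J.mulVecLin := by
    rw [injective_iff_map_eq_zero]
    intro c hc
    let D0 : MvPolynomial σ ℂ →ₗ[ℂ] L :=
      { toFun := fun p => ∑ s, algebraMap (MvPolynomial σ ℂ) L (pderiv s p) * c s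
        map_add' := fun p q => by
          rw [← Finset.sum_add_distrib]
          refine Finset.sum_congr rfl fun s _ => ?_
          rw [map_add, map_add, add_mul]
        map_smul' := fun r p => by
          rw [RingHom.id_apply, Finset.smul_sum]
          refine Finset.sum_congr rfl fun s _ => ?_
          rw [Derivation.map_smul, Algebra.smul_def r (pderiv s p), map_mul,
            ← IsScalarTower.algebraMap_apply, Algebra.smul_def, mul_assoc] }
    let D : Derivation ℂ (MvPolynomial σ ℂ) L := Derivation.mk' D0 (fun p q => by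
      change ∑ s, _ = p • ∑ s, _ + q • ∑ s, _
      rw [Finset.smul_sum, Finset.smul_sum, ← Finset.sum_add_distrib]
      refine Finset.sum_congr rfl fun s _ => ?_
      rw [Derivation.leibniz, smul_eq_mul, smul_eq_mul, map_add, map_mul, map_mul,
        Algebra.smul_def, Algebra.smul_def]
      ring)
    have hDu : ∀ b : u, D (b : MvPolynomial σ ℂ) = 0 := by
      intro b
      have h1 := congrFun hc b
      exact h1
    have hDS : ∀ x ∈ Algebra.adjoin ℂ (Set.range ((↑) : u → MvPolynomial σ ℂ)), D x = 0 := by
      intro x hx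
      have h1 := Derivation.eqOn_adjoin (D1 := D) (D2 := 0)
        (s := Set.range ((↑) : u → MvPolynomial σ ℂ)) (by
          rintro _ ⟨b, rfl⟩
          rw [hDu b]
          rfl) hx
      rw [h1]
      rfl
    funext i
    have h1 := J1_alg hinj _ D hDS (X i) (hu.isAlgebraic.isAlgebraic (X i))
    have h2 : D (X i) = ∑ s, algebraMap (MvPolynomial σ ℂ) L (pderiv s (X i)) * c s := rfl
    rw [h2, Finset.sum_eq_single i] at h1
    · rw [pderiv_X_self, map_one, one_mul] at h1
      exact h1
    · intro s _ hs
      rw [pderiv_X_of_ne (Ne.symm hs), map_zero, zero_mul]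
    · intro hi
      exact absurd (Finset.mem_univ _) hi
  have hJsurj : Function.Surjective J.mulVecLin := by
    refine (LinearMap.injective_iff_surjective_of_finrank_eq_finrank ?_).1 hJinj
    rw [Module.finrank_fintype_fun_eq_card, Module.finrank_fintype_fun_eq_card, hcard]
  choose C hC using fun t' : τ => hJsurj (Pi.single (⟨f t', hfu ⟨t', rfl⟩⟩ : u) 1)
  have hC' : ∀ t t' : τ, ∑ s, algebraMap (MvPolynomial σ ℂ) L (pderiv s (f t)) * C t' s =
      if t = t' then 1 else 0 := by
    intro t t'
    have h1 := congrFun (hC t') ⟨f t, hfu ⟨t, rfl⟩⟩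
    have h2 : J.mulVecLin (C t') ⟨f t, hfu ⟨t, rfl⟩⟩ =
      ∑ s, algebraMap (MvPolynomial σ ℂ) L (pderiv s (f t)) * C t' s := rfl
    rw [← h2, h1]
    by_cases ht : t = t'
    · subst ht
      rw [Pi.single_eq_same, if_pos rfl]
    · rw [if_neg ht, Pi.single_eq_of_ne]
      intro h3
      exact ht (hf.injective (congrArg Subtype.val h3))
  obtain ⟨b, hb⟩ := IsLocalization.exist_integer_multiples_of_finite
    (nonZeroDivisors (MvPolynomial σ ℂ)) (fun p : τ × σ => C p.1 p.2)
  choose E hE using hb
  have hb0 : (b : MvPolynomial σ ℂ) ≠ 0 := nonZeroDivisors.ne_zero b.2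
  have hE' : ∀ t t' : τ, ∑ s, pderiv s (f t) * E (t', s) =
      if t = t' then (b : MvPolynomial σ ℂ) else 0 := by
    intro t t'
    apply hinj
    have h1 : algebraMap (MvPolynomial σ ℂ) L (∑ s, pderiv s (f t) * E (t', s)) =
        algebraMap (MvPolynomial σ ℂ) L b *
          ∑ s, algebraMap (MvPolynomial σ ℂ) L (pderiv s (f t)) * C t' s := by
      rw [map_sum, Finset.mul_sum]
      refine Finset.sum_congr rfl fun s _ => ?_
      rw [map_mul, hE (t', s), Algebra.smul_def]
      ring
    rw [h1, hC' t t']
    split_ifs with ht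
    · rw [mul_one]
    · rw [mul_zero, map_zero]
  obtain ⟨x, hx⟩ : ∃ x : σ → ℂ, eval x (h * b) ≠ 0 := by
    by_contra hc
    push Not at hc
    have h1 : h * (b : MvPolynomial σ ℂ) = 0 := MvPolynomial.funext fun x => by
      rw [hc x, map_zero]
    exact (mul_ne_zero hh hb0) h1
  rw [map_mul] at hx
  have hxb : eval x (b : MvPolynomial σ ℂ) ≠ 0 := right_ne_zero_of_mul hx
  refine ⟨x, left_ne_zero_of_mul hx, fun y => ?_⟩
  refine ⟨fun s => ∑ t', y t' * eval x (E (t', s)) / eval x (b : MvPolynomial σ ℂ), fun t => ?_⟩
  have h1 : ∀ t', ∑ s, eval x (pderiv s (f t)) * eval x (E (t', s)) =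
      if t = t' then eval x (b : MvPolynomial σ ℂ) else 0 := by
    intro t'
    have h2 := congrArg (eval x) (hE' t t')
    rw [map_sum] at h2
    simp only [map_mul] at h2
    rw [h2]
    split_ifs
    · rfl
    · rw [map_zero]
  calc ∑ s, (∑ t', y t' * eval x (E (t', s)) / eval x (b : MvPolynomial σ ℂ)) *
        eval x (pderiv s (f t))
      = ∑ t', y t' / eval x (b : MvPolynomial σ ℂ) *
          ∑ s, eval x (pderiv s (f t)) * eval x (E (t', s)) := by
        simp only [Finset.sum_mul, Finset.mul_sum]
        rw [Finset.sum_comm]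
        refine Finset.sum_congr rfl fun t' _ => Finset.sum_congr rfl fun s _ => ?_
        ring
    _ = y t := by
        simp only [h1]
        rw [Finset.sum_eq_single t]
        · rw [if_pos rfl, div_mul_cancel₀ _ hxb]
        · intro t' _ ht'
          rw [if_neg (Ne.symm ht'), mul_zero]
        · intro ht
          exact absurd (Finset.mem_univ _) ht

end Cea.N
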