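import Pool.Agent.Lib.MP_cea156_al.N.U2a
import Pool.Agent.Lib.MP_cea156_al.N.A10

/-! J2: derivative of a substitution with respect to parameters. Ring homomorphism `θ : MvPolynomial E ℂ → DualNumber ℂ`, `X e ↦ x e + ε v e`: `θ P = P(x) + ε ∑ v e ∂_e P (x)`.
Apply `mapR θ` to `cyc (subst φ (mapR C S))` (`mapR_cyc`, `mapR_subst`): the substitution becomes `φ_x + ε η`; use `taylor` over `R = DualNumber ℂ` with `ψ = ε η`: the
last sum vanishes because `ε² = 0` (every word of `K a` contains a letter `inr`). Compare the coefficients of `ε`. -/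

set_option autoImplicit false

namespace Cea.N

open Finset MvPolynomial

/-- directional derivative of the coefficients -/
noncomputable def dPhi {A B E : Type} [Fintype E] (φ : A → NC B (MvPolynomial E ℂ)) (x v : E → ℂ) : A → NC B ℂ :=
  fun a w => ∑ e, v e * eval x (pderiv e (φ a w))

/-- the dual numbers -/
abbrev J2_D : Type := TrivSqZeroExt ℂ ℂ

/-- the constants -/
noncomputable def J2_inl : ℂ →+* J2_D := TrivSqZeroExt.inlHom ℂ ℂ

/-- the value at the point with `ε = 0` -/
noncomputable def J2_fst : J2_D →+* ℂ := (TrivSqZeroExt.fstHom ℂ ℂ ℂ).toRingHom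

/-- the evaluation at `x + ε v` -/
noncomputable def J2_th {E : Type} (x v : E → ℂ) : MvPolynomial E ℂ →+* J2_D :=
  eval₂Hom J2_inl fun e => TrivSqZeroExt.inl (x e) + TrivSqZeroExt.inr (v e)

theorem J2_th_fst {E : Type} (x v : E → ℂ) (P : MvPolynomial E ℂ) : (J2_th x v P).fst = eval x P := by
  have h : J2_fst.comp (J2_th x v) = eval x := by
    apply MvPolynomial.ringHom_ext
    · intro r
      simp [J2_th, J2_fst, J2_inl]
    · intro e
      simp [J2_th, J2_fst, J2_inl]
  exact congrArg (fun g => g P) h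

theorem J2_th_snd {E : Type} [Fintype E] (x v : E → ℂ) (P : MvPolynomial E ℂ) :
    (J2_th x v P).snd = ∑ e, v e * eval x (pderiv e P) := by
  classical
  induction P using MvPolynomial.induction_on with
  | C r => simp [J2_th, J2_inl]
  | add P Q hP hQ =>
    rw [map_add, TrivSqZeroExt.snd_add, hP, hQ, ← sum_add_distrib]
    exact sum_congr rfl fun e _ => by rw [map_add, map_add, mul_add]
  | mul_X P n hP =>
    rw [map_mul, TrivSqZeroExt.snd_mul, hP, J2_th_fst]
    have h1 : (J2_th x v (MvPolynomial.X n)).fst = x n := by rw [J2_th_fst, eval_X]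
    have h2 : (J2_th x v (MvPolynomial.X n)).snd = v n := by simp [J2_th]
    rw [h1, h2]
    have h3 : ∀ e, v e * eval x (pderiv e (P * MvPolynomial.X n)) =
        x n * (v e * eval x (pderiv e P)) + if e = n then eval x P * v e else 0 := by
      intro e
      rw [Derivation.leibniz, pderiv_X]
      by_cases he : e = n
      · subst he
        simp
        ring
      · rw [if_neg he, Pi.single_eq_of_ne (fun h => he h.symm)]
        simp
        ring
    rw [sum_congr rfl fun e _ => h3 e, sum_add_distrib, ← mul_sum, sum_ite_eq' univ n]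
    simp
    ring

/-- multiplication by `ε` of a series of constants -/
noncomputable def J2_ep {B : Type} (f : NC B ℂ) : NC B J2_D := fun w => TrivSqZeroExt.inr (f w)

theorem J2_ep_mul {B : Type} (f g : NC B ℂ) : J2_ep f * mapR J2_inl g = J2_ep (f * g) := by
  refine Cea.N.ext fun w => ?_
  rw [mul_apply]
  show ∑ k ∈ range (w.length + 1), (TrivSqZeroExt.inr (f (w.take k)) * TrivSqZeroExt.inl (g (w.drop k)) : J2_D) =
    (TrivSqZeroExt.inr ((f * g) w) : J2_D)
  rw [mul_apply]
  rw [← TrivSqZeroExt.inrHom_apply ℂ ℂ, map_sum]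
  refine sum_congr rfl fun k _ => ?_
  rw [TrivSqZeroExt.inrHom_apply, TrivSqZeroExt.inr_mul_inl]
  rfl

theorem J2_ep_mul_zero {B : Type} (f : NC B ℂ) (g : NC B J2_D) (hg : mapR J2_fst g = 0) : J2_ep f * g = 0 := by
  refine Cea.N.ext fun w => ?_
  rw [mul_apply]
  refine Finset.sum_eq_zero fun k _ => ?_
  have h : (g (w.drop k)).fst = 0 := congrFun hg (w.drop k)
  show (TrivSqZeroExt.inr (f (w.take k)) : J2_D) * g (w.drop k) = 0
  apply TrivSqZeroExt.ext
  · simp
  · simp [h]

theorem J2_ep_sum {B I : Type} [Fintype I] (f : I → NC B ℂ) : ∑ i, J2_ep (f i) = J2_ep (∑ i, f i) := by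
  refine Cea.N.ext fun w => ?_
  rw [finsetSum_apply]
  show ∑ i, (TrivSqZeroExt.inr (f i w) : J2_D) = (TrivSqZeroExt.inr ((∑ i, f i) w) : J2_D)
  rw [finsetSum_apply, ← TrivSqZeroExt.inrHom_apply ℂ ℂ, map_sum]
  rfl

theorem J2_ep_cyc {B : Type} (f : NC B ℂ) : cyc (J2_ep f) = J2_ep (cyc f) := by
  refine Cea.N.ext fun w => ?_
  show ∑ k ∈ range w.length, (TrivSqZeroExt.inr (f (w.rotate k)) : J2_D) = (TrivSqZeroExt.inr (cyc f w) : J2_D)
  unfold cyc
  rw [← TrivSqZeroExt.inrHom_apply ℂ ℂ, map_sum]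
  rfl

theorem J2_wordSub_zero {A B R : Type} [CommRing R] (φ : A → NC B R) (u : List (A ⊕ A))
    (hu : 1 ≤ nmk (Sum.inr : A → A ⊕ A) u) :
    wordSub (Sum.elim φ fun _ => (0 : NC B R)) u = 0 := by
  induction u with
  | nil => simp [nmk] at hu
  | cons b u ih =>
    rcases b with b | b
    · rw [U2a_nmk_cons_inl] at hu
      show φ b * wordSub (Sum.elim φ fun _ => (0 : NC B R)) u = 0
      rw [ih hu, mul_zero]
    · show 0 * wordSub (Sum.elim φ fun _ => (0 : NC B R)) u = 0
      rw [zero_mul]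

theorem J2_subst_zero {A B R : Type} [Fintype A] [CommRing R] (φ : A → NC B R) (F : NC (A ⊕ A) R)
    (hF : Mk (Sum.inr : A → A ⊕ A) 1 F) : subst (Sum.elim φ fun _ => (0 : NC B R)) F = 0 := by
  refine Cea.N.ext fun w => ?_
  show subst (Sum.elim φ fun _ => (0 : NC B R)) F w = 0
  unfold subst
  refine sum_eq_zero fun m _ => sum_eq_zero fun u _ => ?_
  by_cases h : F (List.ofFn u) = 0
  · rw [h, zero_mul]
  · rw [J2_wordSub_zero φ _ (hF _ h), zero_apply, mul_zero]

theorem J2_Mk_map {A I R R' : Type} [CommRing R] [CommRing R'] (h : R →+* R') {mk : I → A} {n : ℕ} {F : NC A R}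
    (hF : Mk mk n F) : Mk mk n (mapR h F) := fun w hw => hF w (A10_ne h hw)

theorem J2_der_map {A R R' : Type} [CommRing R] [CommRing R'] (h : R →+* R') (a : A) (F : NC A R) :
    der a (mapR h F) = mapR h (der a F) := by
  refine Cea.N.ext fun w => ?_
  show cyc (mapR h F) (a :: w) = mapR h (der a F) w
  rw [← mapR_cyc]
  rfl

theorem deriv_subst {V E : Type} [DecidableEq V] [Fintype E] {Q : Quiv V} {S : NC Q.A ℂ} (hS : Pot Q S) (h3 : Len 3 S)
    {φ : Q.A → NC Q.A (MvPolynomial E ℂ)} (hφ : Z0 φ) (x v : E → ℂ) (u : List Q.A) :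
    ∑ e, v e * eval x (pderiv e (cyc (subst φ (mapR MvPolynomial.C S)) u)) =
      cyc (∑ a, dPhi φ x v a * subst (fun a => mapR (eval x) (φ a)) (der a S)) u := by
  rw [← J2_th_snd]
  have e1 : J2_th x v (cyc (subst φ (mapR MvPolynomial.C S)) u) =
      mapR (J2_th x v) (cyc (subst φ (mapR MvPolynomial.C S))) u := rfl
  have e2 : mapR (J2_th x v) (mapR MvPolynomial.C S) = mapR J2_inl S := by
    refine Cea.N.ext fun w => ?_
    show J2_th x v (MvPolynomial.C (S w)) = J2_inl (S w)
    simp [J2_th]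
  have e3 : (fun a => mapR (J2_th x v) (φ a)) =
      fun a => mapR J2_inl (mapR (eval x) (φ a)) + J2_ep (dPhi φ x v a) := by
    funext a
    refine Cea.N.ext fun w => ?_
    rw [add_apply]
    show J2_th x v (φ a w) = (TrivSqZeroExt.inl (eval x (φ a w)) + TrivSqZeroExt.inr (dPhi φ x v a w) : J2_D)
    apply TrivSqZeroExt.ext
    · rw [J2_th_fst]; simp
    · rw [J2_th_snd]; simp [dPhi]
  rw [e1, mapR_cyc, mapR_subst, e2, e3]
  obtain ⟨K, hK1, -, -, hK⟩ := taylor (hS.map J2_inl) (h3.map J2_inl)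
  have z1 : Z0 fun a => mapR J2_inl (mapR (eval x) (φ a)) := by
    intro a
    show J2_inl (eval x (φ a [])) = 0
    rw [hφ a, map_zero, map_zero]
  have z2 : Z0 fun a => J2_ep (dPhi φ x v a) := by
    intro a
    show (TrivSqZeroExt.inr (dPhi φ x v a []) : J2_D) = 0
    unfold dPhi
    rw [hφ a]
    simp
  rw [hK Q.A _ _ z1 z2]
  have e4 : ∑ a, J2_ep (dPhi φ x v a) *
      subst (Sum.elim (fun a => mapR J2_inl (mapR (eval x) (φ a))) fun a => J2_ep (dPhi φ x v a)) (K a) = 0 := by
    refine sum_eq_zero fun a _ => J2_ep_mul_zero _ _ ?_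
    rw [mapR_subst]
    have e5 : (fun b => mapR J2_fst (Sum.elim (fun a => mapR J2_inl (mapR (eval x) (φ a)))
        (fun a => J2_ep (dPhi φ x v a)) b)) =
        Sum.elim (fun a => mapR J2_fst (mapR J2_inl (mapR (eval x) (φ a)))) fun _ => (0 : NC Q.A ℂ) := by
      funext b
      rcases b with b | b
      · rfl
      · refine Cea.N.ext fun w => ?_
        rfl
    rw [e5]
    exact J2_subst_zero _ _ (J2_Mk_map J2_fst (hK1 a))
  rw [e4, add_zero, cyc_add]
  have e6 : ∀ a, J2_ep (dPhi φ x v a) *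
      subst (fun a => mapR J2_inl (mapR (eval x) (φ a))) (der a (mapR J2_inl S)) =
      J2_ep (dPhi φ x v a * subst (fun a => mapR (eval x) (φ a)) (der a S)) := by
    intro a
    rw [J2_der_map, ← mapR_subst, J2_ep_mul]
  rw [sum_congr rfl fun a _ => e6 a, J2_ep_sum, J2_ep_cyc, ← mapR_subst, ← mapR_cyc, add_apply,
    TrivSqZeroExt.snd_add]
  show (TrivSqZeroExt.inl _ : J2_D).snd + (TrivSqZeroExt.inr _ : J2_D).snd = _
  rw [TrivSqZeroExt.snd_inl, TrivSqZeroExt.snd_inr, zero_add]

end Cea.N
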