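import Pool.Agent.Lib.MP_cea156_al.N.R2

/-! J3: for a generically rigid potential the coefficients of the general transform of `W` are algebraically independent. Parameters: the coefficients at the words of length at most `d`
which are paths parallel to `a`; coordinates: one cycle of length at most `d` for every rotation class. Let `F ≠ 0` be a relation. For `T : Cy Q d → ℂ` let `X_T` be the potential
with `cyc X_T (rep q) = T q` (`∑ T q / m q • mon (rep q)`, `m q` = number of rotations of `rep q` equal to it). For all but countably many `s`,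
`W + s X_T` is right equivalent to `W` by some `φ`; its coefficients give a point `x` with values `cyc W (rep q) + s T q` (only coefficients at words of length
`≤ d` matter, `subst_congr_infix`). So `F (cyc W (rep ·) + s T) = 0` for infinitely many `s`, hence for `s = 1`, all `T`; so `F = 0`. -/

set_option autoImplicit false

namespace Cea.N

open MvPolynomial

variable {V : Type} [DecidableEq V]

/-- parameters: pairs of an arrow `a` and a nonempty path of length at most `d` parallel to it -/
def Pa (Q : Quiv V) (d : ℕ) : Type :=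
  {p : Q.A × List Q.A // p.2.length ≤ d ∧ p.2 ≠ [] ∧ Q.IsPath (Q.s p.1) p.2 (Q.t p.1)}

/-- cycles of length at most `d` -/
def CyW (Q : Quiv V) (d : ℕ) : Type := {u : List Q.A // u.length ≤ d ∧ Q.IsCycle u}

/-- rotation classes -/
def cySet (Q : Quiv V) (d : ℕ) : Setoid (CyW Q d) where
  r u v := u.1 ~r v.1
  iseqv := ⟨fun u => List.IsRotated.refl u.1, fun h => h.symm, fun h h' => h.trans h'⟩

/-- cyclic words which are cycles of length at most `d` -/
def Cy (Q : Quiv V) (d : ℕ) : Type := Quotient (cySet Q d)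

/-- representative -/
noncomputable def rep {Q : Quiv V} {d : ℕ} (q : Cy Q d) : List Q.A := (Quotient.out q).1

theorem rep_cycle {Q : Quiv V} {d : ℕ} (q : Cy Q d) : Q.IsCycle (rep q) ∧ (rep q).length ≤ d :=
  ⟨(Quotient.out q).2.2, (Quotient.out q).2.1⟩

theorem exists_rep {Q : Quiv V} {d : ℕ} {u : List Q.A} (hu : Q.IsCycle u) (hd : u.length ≤ d) :
    ∃ q : Cy Q d, rep q ~r u := by
  refine ⟨(Quotient.mk (cySet Q d) ⟨u, hd, hu⟩ : Cy Q d), ?_⟩
  exact Quotient.mk_out (s := cySet Q d) ⟨u, hd, hu⟩

/-- different classes have representatives which are not rotated -/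
theorem J3_rep_inj {Q : Quiv V} {d : ℕ} {q q' : Cy Q d} (h : rep q ~r rep q') : q = q' :=
  Quotient.out_equiv_out.1 h

theorem finite_Pa (Q : Quiv V) (d : ℕ) : Finite (Pa Q d) := by
  have h1 : Finite {l : List Q.A // l.length ≤ d} := (List.finite_length_le Q.A d).to_subtype
  refine Finite.of_injective (fun p : Pa Q d =>
    ((p.1.1, ⟨p.1.2, p.2.1⟩) : Q.A × {l : List Q.A // l.length ≤ d})) ?_
  rintro ⟨⟨a, w⟩, h⟩ ⟨⟨a', w'⟩, h'⟩ he
  have e1 : a = a' := congrArg Prod.fst he
  have e2 : w = w' := congrArg Subtype.val (congrArg Prod.snd he)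
  subst e1 e2
  rfl

theorem J3_finite_CyW (Q : Quiv V) (d : ℕ) : Finite (CyW Q d) := by
  have h1 : Finite {l : List Q.A // l.length ≤ d} := (List.finite_length_le Q.A d).to_subtype
  refine Finite.of_injective (fun p : CyW Q d => (⟨p.1, p.2.1⟩ : {l : List Q.A // l.length ≤ d})) ?_
  rintro ⟨w, h⟩ ⟨w', h'⟩ he
  have e2 : w = w' := congrArg Subtype.val he
  subst e2
  rfl

theorem finite_Cy (Q : Quiv V) (d : ℕ) : Finite (Cy Q d) := by
  have h := J3_finite_CyW Q d
  exact Quotient.finite (cySet Q d)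

open Classical in
/-- the general substitution of degree `d` -/
noncomputable def gen (Q : Quiv V) (d : ℕ) : Q.A → NC Q.A (MvPolynomial (Pa Q d) ℂ) := fun a w =>
  if h : w.length ≤ d ∧ w ≠ [] ∧ Q.IsPath (Q.s a) w (Q.t a) then MvPolynomial.X ⟨(a, w), h⟩ else 0

/-- the general transform at the point given by the coefficients of `φ` -/
theorem J3_gen {Q : Quiv V} (d : ℕ) (φ : Q.A → NC Q.A ℂ)
    (hφ : ∀ a w, φ a w ≠ 0 → w ≠ [] ∧ Q.IsPath (Q.s a) w (Q.t a)) (W : NC Q.A ℂ) {w : List Q.A}
    (hw : w.length ≤ d) :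
    MvPolynomial.eval (fun p : Pa Q d => φ p.1.1 p.1.2)
      (cyc (subst (gen Q d) (mapR MvPolynomial.C W)) w) = cyc (subst φ W) w := by
  set h : MvPolynomial (Pa Q d) ℂ →+* ℂ :=
    MvPolynomial.eval (fun p : Pa Q d => φ p.1.1 p.1.2) with hh
  have h1 : h (cyc (subst (gen Q d) (mapR MvPolynomial.C W)) w) =
      cyc (mapR h (subst (gen Q d) (mapR MvPolynomial.C W))) w := congrFun (mapR_cyc h _) w
  have h2 : mapR h (mapR MvPolynomial.C W) = W := by
    ext u
    exact MvPolynomial.eval_C _
  rw [h1, mapR_subst, h2]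
  unfold cyc
  refine Finset.sum_congr rfl fun k _ => ?_
  refine subst_congr_infix W fun a u hu => ?_
  have hud : u.length ≤ d := by
    have h3 := hu.length_le
    rw [List.length_rotate] at h3
    omega
  show h (gen Q d a u) = φ a u
  unfold gen
  by_cases hc : u.length ≤ d ∧ u ≠ [] ∧ Q.IsPath (Q.s a) u (Q.t a)
  · rw [dif_pos hc]
    exact MvPolynomial.eval_X _
  · rw [dif_neg hc, map_zero]
    by_contra h0
    exact hc ⟨hud, hφ a u (Ne.symm h0)⟩

theorem J3_cyc_mon_self {A : Type} [DecidableEq A] {u : List A} (hu : u ≠ []) :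
    cyc (mon u : NC A ℂ) u ≠ 0 := by
  have h1 : cyc (mon u : NC A ℂ) u =
      (((Finset.range u.length).filter fun k => u.rotate k = u).card : ℂ) := by
    rw [Finset.card_filter, Nat.cast_sum]
    refine Finset.sum_congr rfl fun k _ => ?_
    show (if u.rotate k = u then (1 : ℂ) else 0) = _
    split_ifs
    · exact Nat.cast_one.symm
    · exact Nat.cast_zero.symm
  rw [h1, Nat.cast_ne_zero, Finset.card_ne_zero]
  exact ⟨0, Finset.mem_filter.2 ⟨Finset.mem_range.2 (List.length_pos_of_ne_nil hu),
    List.rotate_zero u⟩⟩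

theorem J3_cyc_mon_ne {A : Type} [DecidableEq A] {u w : List A} (h : ¬ w ~r u) :
    cyc (mon u : NC A ℂ) w = 0 := by
  refine Finset.sum_eq_zero fun k _ => ?_
  have h1 : w.rotate k ≠ u := fun e => h ⟨k, e⟩
  exact if_neg h1

/-- potentials with prescribed cyclic coefficients -/
theorem J3_pot {Q : Quiv V} {d : ℕ} (T : Cy Q d → ℂ) :
    ∃ Y : NC Q.A ℂ, Pot Q Y ∧ ∀ q, cyc Y (rep q) = T q := by
  classical
  have hfin := finite_Cy Q d
  have hft : Fintype (Cy Q d) := Fintype.ofFinite (Cy Q d)
  refine ⟨∑ q : Cy Q d, (T q / cyc (mon (rep q) : NC Q.A ℂ) (rep q)) • (mon (rep q) : NC Q.A ℂ),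
    fun w hw => ?_, fun q => ?_⟩
  · rw [finsetSum_apply] at hw
    obtain ⟨q, _, hq⟩ := Finset.exists_ne_zero_of_sum_ne_zero hw
    rw [smul_apply] at hq
    have h1 : w = rep q := by
      by_contra hne
      apply hq
      have h2 : (mon (rep q) : NC Q.A ℂ) w = 0 := if_neg hne
      rw [h2, mul_zero]
    rw [h1]
    exact (rep_cycle q).1
  · rw [cyc_sum, finsetSum_apply, Finset.sum_eq_single q]
    · rw [cyc_smul, smul_apply, div_mul_cancel₀]
      exact J3_cyc_mon_self (rep_cycle q).1.1
    · intro q' _ hne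
      have h0 : cyc (mon (rep q') : NC Q.A ℂ) (rep q) = 0 :=
        J3_cyc_mon_ne fun h => hne (J3_rep_inj h).symm
      rw [cyc_smul, smul_apply, h0, mul_zero]
    · intro h
      exact absurd (Finset.mem_univ q) h

theorem indep_of_RG {Q : Quiv V} {W : NC Q.A ℂ} (hW : Pot Q W) (hg : RG Q W) (d : ℕ) :
    AlgebraicIndependent ℂ fun q : Cy Q d => cyc (subst (gen Q d) (mapR MvPolynomial.C W)) (rep q) := by
  rw [algebraicIndependent_iff]
  intro F hF
  have key : ∀ φ : Q.A → NC Q.A ℂ, (∀ a w, φ a w ≠ 0 → w ≠ [] ∧ Q.IsPath (Q.s a) w (Q.t a)) →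
      MvPolynomial.aeval (fun q : Cy Q d => cyc (subst φ W) (rep q)) F = (0 : ℂ) := by
    intro φ hφ
    have h1 : MvPolynomial.aeval (R := ℂ) (S₁ := ℂ) (fun p : Pa Q d => φ p.1.1 p.1.2)
        (MvPolynomial.aeval (fun q : Cy Q d =>
          cyc (subst (gen Q d) (mapR MvPolynomial.C W)) (rep q)) F) = 0 := by
      rw [hF, map_zero]
    rw [MvPolynomial.comp_aeval_apply] at h1
    have h2 : (fun q : Cy Q d => cyc (subst φ W) (rep q)) = fun q : Cy Q d =>
        MvPolynomial.aeval (R := ℂ) (S₁ := ℂ) (fun p : Pa Q d => φ p.1.1 p.1.2)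
          (cyc (subst (gen Q d) (mapR MvPolynomial.C W)) (rep q)) := by
      funext q
      exact (J3_gen d φ hφ W (rep_cycle q).2).symm
    rw [h2]
    exact h1
  have hT : ∀ T : Cy Q d → ℂ,
      MvPolynomial.aeval (fun q : Cy Q d => cyc W (rep q) + T q) F = (0 : ℂ) := by
    intro T
    obtain ⟨Y, hY, hYT⟩ := J3_pot T
    let Z : NC Q.A (Polynomial ℂ) := fun w => Polynomial.X * Polynomial.C (Y w)
    have hZ : Pot Q Z := by
      intro w hw
      refine hY w fun h0 => hw ?_
      show Polynomial.X * Polynomial.C (Y w) = 0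
      rw [h0, map_zero, mul_zero]
    have hZs : ∀ s : ℂ, mapR (Polynomial.evalRingHom s) Z = s • Y := by
      intro s
      ext w
      show Polynomial.eval s (Polynomial.X * Polynomial.C (Y w)) = s * Y w
      rw [Polynomial.eval_mul, Polynomial.eval_X, Polynomial.eval_C]
    have hZ0 : mapR (Polynomial.evalRingHom (0 : ℂ)) Z = 0 := by
      rw [hZs, zero_smul]
    have hc := hg Z hZ hZ0
    set p : Polynomial ℂ := MvPolynomial.aeval
      (fun q : Cy Q d => Polynomial.C (cyc W (rep q)) + Polynomial.C (T q) * Polynomial.X) F with hpdef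
    have hp : ∀ s : ℂ, p.eval s =
        MvPolynomial.aeval (fun q : Cy Q d => cyc W (rep q) + T q * s) F := by
      intro s
      rw [hpdef, ← Polynomial.coe_aeval_eq_eval, MvPolynomial.comp_aeval_apply]
      congr 2
      funext q
      rw [Polynomial.coe_aeval_eq_eval, Polynomial.eval_add, Polynomial.eval_mul,
        Polynomial.eval_X, Polynomial.eval_C, Polynomial.eval_C]
    have hz : {s : ℂ | p.eval s = 0}ᶜ ⊆
        {s : ℂ | ¬ RE Q Q W (W + mapR (Polynomial.evalRingHom s) Z)} := by
      intro s hs hre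
      apply hs
      obtain ⟨φ, hφ, he⟩ := hre
      show p.eval s = 0
      rw [hp, ← key φ hφ.1]
      congr 2
      funext q
      rw [he, cyc_add, add_apply, hZs, cyc_smul, smul_apply, hYT, mul_comm]
    have hp0 : p = 0 := by
      by_contra h0
      have h1 : {s : ℂ | p.eval s = 0}.Finite := Polynomial.finite_setOfPred_isRoot h0
      refine not_countable_complex ?_
      rw [← Set.union_compl_self {s : ℂ | p.eval s = 0}]
      exact h1.countable.union (hc.mono hz)
    have h1 := hp 1
    rw [hp0, Polynomial.eval_zero] at h1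
    have h2 : (fun q : Cy Q d => cyc W (rep q) + T q) = fun q : Cy Q d => cyc W (rep q) + T q * 1 := by
      funext q
      rw [mul_one]
    rw [h2]
    exact h1.symm
  apply MvPolynomial.funext
  intro x
  have h1 := hT fun q => x q - cyc W (rep q)
  have h2 : (fun q : Cy Q d => cyc W (rep q) + (x q - cyc W (rep q))) = x := by
    funext q
    ring
  rw [h2] at h1
  rw [map_zero]
  exact h1

end Cea.N
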