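import Pool.Agent.Lib.MP_cea156_al.N.J1
import Pool.Agent.Lib.MP_cea156_al.N.J2
import Pool.Agent.Lib.MP_cea156_al.N.J3

/-! J4: infinitesimal rigidity up to degree `d` (`d ≥ 1`). `jac_surj` for the family of `indep_of_RG` and `h = det (gen a [b])` (not zero: at the parameters of the identity it is 1) gives a point
`x`; `φ = φ_x` is an isomorphism, `ψ` its inverse (`Iso.inv`). Take `y q = cyc (subst φ Y) (rep q)`; with `deriv_subst`: `η a w = v (a, w)` (0 if `(a, w)` is not a
parameter) satisfies `cyc (∑ η a * subst φ (der a W)) u = cyc (subst φ Y) u` for all `|u| ≤ d` (both sides are rotation invariant and vanish on words which are not cycles).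
Apply `subst ψ`: `ξ a = subst ψ (η a)`. Two series whose cyclic sums agree up to length `d` have images under `ψ` with the same property (split off the
words of length `> d`, `cyc_subst_congr`, `len_subst`). -/

set_option autoImplicit false

namespace Cea.N

open Finset MvPolynomial

/-- series whose cyclic sums agree up to length `d` -/
theorem J4_agree {A B : Type} [Fintype A] {ψ : A → NC B ℂ} (hψ : Z0 ψ) {F G : NC A ℂ} {d : ℕ}
    (h : ∀ u : List A, u.length ≤ d → cyc F u = cyc G u) (u : List B) (hu : u.length ≤ d) :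
    cyc (subst ψ F) u = cyc (subst ψ G) u := by
  let F' : NC A ℂ := fun w => if w.length ≤ d then F w else G w
  have h1 : cyc F' = cyc G := by
    ext w
    by_cases hw : w.length ≤ d
    · rw [← h w hw]
      show ∑ k ∈ range w.length, F' (w.rotate k) = ∑ k ∈ range w.length, F (w.rotate k)
      refine sum_congr rfl fun k _ => ?_
      show (if (w.rotate k).length ≤ d then F (w.rotate k) else G (w.rotate k)) = _
      rw [List.length_rotate, if_pos hw]
    · show ∑ k ∈ range w.length, F' (w.rotate k) = ∑ k ∈ range w.length, G (w.rotate k)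
      refine sum_congr rfl fun k _ => ?_
      show (if (w.rotate k).length ≤ d then F (w.rotate k) else G (w.rotate k)) = _
      rw [List.length_rotate, if_neg hw]
  rw [← cyc_subst_congr hψ h1]
  show ∑ k ∈ range u.length, subst ψ F (u.rotate k) = ∑ k ∈ range u.length, subst ψ F' (u.rotate k)
  refine sum_congr rfl fun k _ => subst_congr_len fun z hz => ?_
  rw [List.length_rotate] at hz
  show F z = if z.length ≤ d then F z else G z
  rw [if_pos (hz.trans hu)]

theorem J4_cyc_zero {V : Type} [DecidableEq V] {Q : Quiv V} {F : NC Q.A ℂ} (hF : Pot Q F) {u : List Q.A}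
    (hu : ¬ Q.IsCycle u) : cyc F u = 0 := by
  by_contra h
  exact hu (Pot_cyc hF u h)

theorem J4_gen_ne {V : Type} [DecidableEq V] {Q : Quiv V} {d : ℕ} {a : Q.A} {w : List Q.A}
    (h : gen Q d a w ≠ 0) : w ≠ [] ∧ Q.IsPath (Q.s a) w (Q.t a) := by
  unfold gen at h
  split_ifs at h with h1
  · exact h1.2
  · exact absurd rfl h

theorem J4_det {V : Type} [DecidableEq V] (Q : Quiv V) {d : ℕ} (hd : 1 ≤ d) :
    (lin (gen Q d)).det ≠ 0 := by
  classical
  intro h
  let x0 : Pa Q d → ℂ := fun p => if p.1.2 = [p.1.1] then 1 else 0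
  have h1 := congrArg (eval x0) h
  rw [map_zero, RingHom.map_det] at h1
  have h2' : (eval x0).mapMatrix (lin (gen Q d)) = 1 := by
    ext a b
    rw [RingHom.mapMatrix_apply, Matrix.map_apply]
    show eval x0 (gen Q d a [b]) = _
    unfold gen
    by_cases hab : a = b
    · subst hab
      have hc : ([a] : List Q.A).length ≤ d ∧ [a] ≠ [] ∧ Q.IsPath (Q.s a) [a] (Q.t a) :=
        ⟨by simpa using hd, by simp, rfl, rfl⟩
      rw [dif_pos hc, Matrix.one_apply_eq]
      have e : eval x0 (MvPolynomial.X (⟨(a, [a]), hc⟩ : Pa Q d)) = x0 ⟨(a, [a]), hc⟩ := eval_X _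
      exact e.trans (if_pos rfl)
    · rw [Matrix.one_apply_ne hab]
      split_ifs with hc
      · have e : eval x0 (MvPolynomial.X (⟨(a, [b]), hc⟩ : Pa Q d)) = x0 ⟨(a, [b]), hc⟩ := eval_X _
        exact e.trans (if_neg (fun h : [b] = [a] => hab (List.singleton_inj.1 h).symm))
      · exact map_zero _
  rw [h2', Matrix.det_one] at h1
  exact one_ne_zero h1

theorem J4_main {V : Type} [DecidableEq V] {Q : Quiv V} (h2 : Q.TwoAcyclic) {W : NC Q.A ℂ} (hW : Pot Q W)
    (hg : RG Q W) (d : ℕ) (hd : 1 ≤ d) {Y : NC Q.A ℂ} (hY : Pot Q Y) :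
    ∃ ξ : Q.A → NC Q.A ℂ, (∀ a w, ξ a w ≠ 0 → w ≠ [] ∧ Q.IsPath (Q.s a) w (Q.t a)) ∧
      ∀ u, u.length ≤ d → cyc (∑ a, ξ a * der a W) u = cyc Y u := by
  classical
  have : Finite (Pa Q d) := finite_Pa Q d
  have : Finite (Cy Q d) := finite_Cy Q d
  let _ : Fintype (Pa Q d) := Fintype.ofFinite _
  let _ : Fintype (Cy Q d) := Fintype.ofFinite _
  have h3 : Len 3 W := len_pot h2 hW
  obtain ⟨x, hx, hjac⟩ := jac_surj _ (indep_of_RG hW hg d) _ (J4_det Q hd)
  set φ : Q.A → NC Q.A ℂ := fun a => mapR (eval x) (gen Q d a) with hφ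
  have hφne : ∀ a w, φ a w ≠ 0 → w ≠ [] ∧ Q.IsPath (Q.s a) w (Q.t a) := by
    intro a w h
    refine J4_gen_ne (d := d) fun h0 => h ?_
    show eval x (gen Q d a w) = 0
    rw [h0, map_zero]
  have hlin : lin φ = (eval x).mapMatrix (lin (gen Q d)) := rfl
  have hunit : IsUnit (lin φ).det := by
    rw [hlin, ← RingHom.map_det]
    exact isUnit_iff_ne_zero.2 hx
  have hI : Iso Q Q φ :=
    ⟨hφne, (lin φ)⁻¹, Matrix.mul_nonsing_inv _ hunit, Matrix.nonsing_inv_mul _ hunit⟩
  obtain ⟨ψ, hψI, hψ1, -, -, -⟩ := hI.inv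
  have hgz : Z0 (gen Q d) := by
    intro a
    by_contra h
    exact (J4_gen_ne h).1 rfl
  obtain ⟨v, hv⟩ := hjac fun q => cyc (subst φ Y) (rep q)
  set η : Q.A → NC Q.A ℂ := fun a => dPhi (gen Q d) x v a with hη
  have hηne : ∀ a w, η a w ≠ 0 → w ≠ [] ∧ Q.IsPath (Q.s a) w (Q.t a) := by
    intro a w h
    refine J4_gen_ne (d := d) fun h0 => h ?_
    show ∑ e, v e * eval x (pderiv e (gen Q d a w)) = 0
    refine sum_eq_zero fun e _ => ?_
    rw [h0, map_zero, map_zero, mul_zero]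
  have hFpot : Pot Q (∑ a, η a * subst φ (der a W)) := by
    intro w hw
    rw [finsetSum_apply] at hw
    obtain ⟨a, -, ha⟩ := exists_ne_zero_of_sum_ne_zero hw
    have hs1 : Sup Q (Q.s a) (Q.t a) (η a) := fun z hz => (hηne a z hz).2
    have hs2 : Sup Q (Q.t a) (Q.s a) (subst φ (der a W)) :=
      Sup_subst hI.z0 hI.ps (Sup_der hW a)
    have hs3 := Sup_mul hs1 hs2 w ha
    refine ⟨?_, Q.s a, hs3⟩
    rintro rfl
    rw [mul_nil] at ha
    exact (hηne a [] (left_ne_zero_of_mul ha)).1 rfl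
  have hGpot : Pot Q (subst φ Y) := Pot_subst hI.z0 hI.ps hY
  have hagree : ∀ u : List Q.A, u.length ≤ d →
      cyc (∑ a, η a * subst φ (der a W)) u = cyc (subst φ Y) u := by
    intro u hu
    by_cases hc : Q.IsCycle u
    · obtain ⟨q, n, hq⟩ := exists_rep hc hu
      rw [← hq, cyc_rotate, cyc_rotate]
      rw [← hv q]
      exact (deriv_subst hW h3 hgz x v (rep q)).symm
    · rw [J4_cyc_zero hFpot hc, J4_cyc_zero hGpot hc]
  refine ⟨fun a => subst ψ (η a), ?_, ?_⟩
  · intro a w hw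
    have hs1 : Sup Q (Q.s a) (Q.t a) (η a) := fun z hz => (hηne a z hz).2
    refine ⟨?_, Sup_subst hψI.z0 hψI.ps hs1 w hw⟩
    rintro rfl
    have hw' : subst ψ (η a) [] ≠ 0 := hw
    rw [subst_nil] at hw'
    exact (hηne a [] hw').1 rfl
  · intro u hu
    have hinv : ∀ f : NC Q.A ℂ, subst ψ (subst φ f) = f := by
      intro f
      rw [subst_subst hI.z0 hψI.z0]
      have e : (fun a => subst ψ (φ a)) = fun a => (X a : NC Q.A ℂ) := funext hψ1
      rw [e, subst_id]
    have h4 := J4_agree hψI.z0 hagree u hu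
    rw [hinv, subst_sum] at h4
    rw [← h4]
    have h5 : (∑ a, subst ψ (η a) * der a W) = ∑ a, subst ψ (η a * subst φ (der a W)) :=
      sum_congr rfl fun a _ => by rw [subst_mul hψI.z0, hinv]
    rw [← h5]

theorem rigid_mod {V : Type} [DecidableEq V] {Q : Quiv V} (h2 : Q.TwoAcyclic) {W : NC Q.A ℂ} (hW : Pot Q W)
    (hg : RG Q W) (d : ℕ) {Y : NC Q.A ℂ} (hY : Pot Q Y) :
    ∃ ξ : Q.A → NC Q.A ℂ, (∀ a w, ξ a w ≠ 0 → w ≠ [] ∧ Q.IsPath (Q.s a) w (Q.t a)) ∧
      ∀ u, u.length ≤ d → cyc (∑ a, ξ a * der a W) u = cyc Y u := by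
  obtain ⟨ξ, h1, h3⟩ := J4_main h2 hW hg (d + 1) (by omega) hY
  exact ⟨ξ, h1, fun u hu => h3 u (by omega)⟩

end Cea.N
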