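import Pool.Agent.Lib.MP_cea156_al.N.J4

/-! J5: from all finite degrees to the complete path algebra. `lin_compact`: a linear system in which every equation has finitely many unknowns and every finite subsystem is
solvable is solvable: the linear functional `∑ r j • c j ↦ ∑ r j * b j` on the span of the `c j` is well defined, extend it to `I →₀ K` (`LinearMap.exists_extend`).
`rigid_exact`: unknowns `ξ a w`, `(a, w)` with `w ≠ []` a path parallel to `a`; one equation for every word `u`; `cyc (∑ ξ a * der a W) u` only involves `ξ a w` with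
`|w| ≤ |u|`. -/

set_option autoImplicit false

namespace Cea.N

theorem lin_compact {K I J : Type} [Field K] (c : J → I →₀ K) (b : J → K)
    (h : ∀ s : Finset J, ∃ x : I → K, ∀ j ∈ s, ((c j).sum fun i r => r * x i) = b j) :
    ∃ x : I → K, ∀ j, ((c j).sum fun i r => r * x i) = b j := by
  classical
  set C : (J →₀ K) →ₗ[K] (I →₀ K) := Finsupp.linearCombination K c with hC
  set B : (J →₀ K) →ₗ[K] K := Finsupp.linearCombination K b with hB
  have hx : ∀ (x : I → K) (v : I →₀ K),
      (v.sum fun i r => r * x i) = Finsupp.linearCombination K x v := by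
    intro x v
    rw [Finsupp.linearCombination_apply]
    rfl
  have hker : LinearMap.ker C ≤ LinearMap.ker B := by
    intro r hr
    rw [LinearMap.mem_ker] at hr ⊢
    obtain ⟨x, hx1⟩ := h r.support
    have h1 : B r = Finsupp.linearCombination K x (C r) := by
      rw [hB, hC, Finsupp.linearCombination_apply, Finsupp.linearCombination_apply K r,
        Finsupp.sum, Finsupp.sum, map_sum]
      refine Finset.sum_congr rfl fun j hj => ?_
      rw [map_smul, ← hx, hx1 j hj]
    rw [h1, hr, map_zero]
  obtain ⟨G, hG⟩ := LinearMap.exists_extend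
    (((LinearMap.ker C).liftQ B hker).comp C.quotKerEquivRange.symm.toLinearMap)
  refine ⟨fun i => G (Finsupp.single i 1), fun j => ?_⟩
  have h1 : ((c j).sum fun i r => r * G (Finsupp.single i 1)) = G (c j) := by
    conv_rhs => rw [← Finsupp.sum_single (c j)]
    rw [Finsupp.sum, Finsupp.sum, map_sum]
    refine Finset.sum_congr rfl fun i _ => ?_
    rw [← smul_eq_mul, ← map_smul, Finsupp.smul_single, smul_eq_mul, mul_one]
  rw [h1]
  have h2 : C (Finsupp.single j 1) = c j := by
    rw [hC, Finsupp.linearCombination_single, one_smul]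
  have h3 : B (Finsupp.single j 1) = b j := by
    rw [hB, Finsupp.linearCombination_single, one_smul]
  have h4 := LinearMap.congr_fun hG ⟨C (Finsupp.single j 1), LinearMap.mem_range_self C _⟩
  have h5 : C.quotKerEquivRange.symm ⟨C (Finsupp.single j 1), LinearMap.mem_range_self C _⟩ =
      Submodule.Quotient.mk (Finsupp.single j 1) := by
    rw [LinearEquiv.symm_apply_eq]
    rfl
  rw [LinearMap.comp_apply, LinearMap.comp_apply, LinearEquiv.coe_coe, h5, Submodule.liftQ_apply,
    h3, Submodule.subtype_apply] at h4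
  have h6 : G (C (Finsupp.single j 1)) = b j := h4
  rw [h2] at h6
  exact h6

theorem rigid_exact {V : Type} [DecidableEq V] {Q : Quiv V} (h2 : Q.TwoAcyclic) {W : NC Q.A ℂ} (hW : Pot Q W)
    (hg : RG Q W) {Y : NC Q.A ℂ} (hY : Pot Q Y) :
    ∃ ξ : Q.A → NC Q.A ℂ, (∀ a w, ξ a w ≠ 0 → w ≠ [] ∧ Q.IsPath (Q.s a) w (Q.t a)) ∧
      cyc (∑ a, ξ a * der a W) = cyc Y := by
  classical
  set I : Type := {p : Q.A × List Q.A // p.2 ≠ [] ∧ Q.IsPath (Q.s p.1) p.2 (Q.t p.1)} with hI
  set S : (I → ℂ) → Q.A → NC Q.A ℂ := fun x a w =>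
    if hh : w ≠ [] ∧ Q.IsPath (Q.s a) w (Q.t a) then x ⟨(a, w), hh⟩ else 0 with hS
  set c : List Q.A → I →₀ ℂ := fun u => ∑ k ∈ Finset.range u.length, ∑ a : Q.A,
    ∑ l ∈ Finset.range ((u.rotate k).length + 1),
      if hh : (u.rotate k).take l ≠ [] ∧ Q.IsPath (Q.s a) ((u.rotate k).take l) (Q.t a) then
        Finsupp.single (⟨(a, (u.rotate k).take l), hh⟩ : I) (der a W ((u.rotate k).drop l)) else 0 with hc
  have key : ∀ (x : I → ℂ) (u : List Q.A), ((c u).sum fun i r => r * x i) =
      cyc (∑ a, S x a * der a W) u := by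
    intro x u
    have e1 : ((c u).sum fun i r => r * x i) = Finsupp.linearCombination ℂ x (c u) := by
      rw [Finsupp.linearCombination_apply]
      rfl
    rw [e1, hc, map_sum, cyc]
    refine Finset.sum_congr rfl fun k _ => ?_
    rw [map_sum, finsetSum_apply]
    refine Finset.sum_congr rfl fun a _ => ?_
    rw [map_sum, mul_apply]
    refine Finset.sum_congr rfl fun l _ => ?_
    rw [hS]
    dsimp only
    by_cases hh : (u.rotate k).take l ≠ [] ∧ Q.IsPath (Q.s a) ((u.rotate k).take l) (Q.t a)
    · rw [dif_pos hh, dif_pos hh, Finsupp.linearCombination_single, smul_eq_mul, mul_comm]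
    · rw [dif_neg hh, dif_neg hh, map_zero, zero_mul]
  obtain ⟨x, hx⟩ := lin_compact c (fun u => cyc Y u) (fun s => by
    obtain ⟨ξ, hξ1, hξ2⟩ := rigid_mod h2 hW hg (s.sup List.length) hY
    refine ⟨fun i => ξ i.1.1 i.1.2, fun u hu => ?_⟩
    rw [key]
    have e : S (fun i => ξ i.1.1 i.1.2) = ξ := by
      funext a w
      rw [hS]
      dsimp only
      by_cases hh : w ≠ [] ∧ Q.IsPath (Q.s a) w (Q.t a)
      · rw [dif_pos hh]
      · rw [dif_neg hh]
        by_contra h0
        exact hh (hξ1 a w (fun h => h0 h.symm))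
    rw [e]
    exact hξ2 u (Finset.le_sup (f := List.length) hu))
  refine ⟨S x, ?_, ?_⟩
  · intro a w h0
    by_contra hh
    apply h0
    rw [hS]
    exact dif_neg hh
  · ext u
    rw [← key, hx]

end Cea.N
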