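import Pool.Agent.Lib.MP_cea156_al.TDefs

/-! K1: the orbit of the tensor `Gb b` (`b = 2, 3`) under `GL × GL × GL` contains a neighbourhood of it. `actL (Gb b)` is surjective: given `S`, for `j ≠ k` solve
`Y j k * lv k + Z k j * lv j = S · j k` (`lv j`, `lv k` are a basis); for `j = k` solve `X (lv j) + y j * lv j = S · j j` (for `b = 3`: `X e₀ = S · 0 0 - y₀ e₀`,
`X e₁ = S · 1 1 - y₁ e₁`, `y₂ = 0`, `(y₀, y₁) = S · 0 0 + S · 1 1 - S · 2 2`). It is the derivative at `(1, 1, 1)` of the polynomial map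
`(P, Q, R) ↦ ∑ P i i' Q j j' R k k' G i' j' k'`; `HasStrictFDerivAt.map_nhds_eq_of_surj`; matrices close to `1` are invertible. -/

set_option autoImplicit false

namespace Cea.N

open Filter Topology

/-- three linear forms in two variables: `x`, `y`, `x + y` -/
def lv (j : ℕ) (i : Fin 2) : ℂ := if j = 0 then (if i = 0 then 1 else 0) else if j = 1 then (if i = 1 then 1 else 0) else 1

/-- the normal form -/
def Gb (b : ℕ) : Ten 2 b b := fun i j k => if j = k then lv j.1 i else 0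

theorem actL_surj {b : ℕ} (hb : b = 2 ∨ b = 3) : Function.Surjective (actL (Gb b)) := by
  rcases hb with rfl | rfl
  · intro S
    refine ⟨(!![S 0 0 0, S 0 1 1; S 1 0 0, S 1 1 1], !![0, S 1 0 1; S 0 1 0, 0],
      !![0, S 1 1 0; S 0 0 1, 0]), ?_⟩
    funext i j k
    fin_cases i <;> fin_cases j <;> fin_cases k <;> simp [actL, act, Gb, lv]
  · intro S
    refine ⟨(!![S 0 2 2 - S 0 1 1, S 0 1 1; S 1 0 0, S 1 2 2 - S 1 0 0],
      !![S 0 0 0 + S 0 1 1 - S 0 2 2, S 1 0 1, S 1 0 2; S 0 1 0, S 1 0 0 + S 1 1 1 - S 1 2 2, S 0 1 2;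
        S 0 2 0 - S 1 2 0, S 1 2 1 - S 0 2 1, 0],
      !![0, S 1 1 0, S 1 2 0; S 0 0 1, 0, S 0 2 1; S 0 0 2 - S 1 0 2, S 1 1 2 - S 0 1 2, 0]), ?_⟩
    funext i j k
    fin_cases i <;> fin_cases j <;> fin_cases k <;>
      simp [actL, act, Gb, lv, Fin.sum_univ_two]

/-- arguments of the orbit map -/
abbrev K1_E (a b c : ℕ) : Type := (Fin a → Fin a → ℂ) × (Fin b → Fin b → ℂ) × (Fin c → Fin c → ℂ)

/-- the identity matrix -/
def K1_one (a : ℕ) : Fin a → Fin a → ℂ := fun i i' => if i = i' then 1 else 0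

/-- the orbit map -/
def K1_phi {a b c : ℕ} (G : Ten a b c) (g : K1_E a b c) : Ten a b c := fun i j k =>
  ∑ i', ∑ j', ∑ k', g.1 i i' * g.2.1 j j' * g.2.2 k k' * G i' j' k'

/-- its derivative -/
def K1_lin {a b c : ℕ} (G : Ten a b c) : K1_E a b c →ₗ[ℂ] Ten a b c where
  toFun g := act g.1 g.2.1 g.2.2 G
  map_add' g h := by
    funext i j k
    simp only [act, Pi.add_apply, Prod.fst_add, Prod.snd_add, add_mul, Finset.sum_add_distrib]
    ring
  map_smul' r g := by
    funext i j k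
    simp only [act, Pi.smul_apply, Prod.smul_fst, Prod.smul_snd, smul_eq_mul, mul_assoc,
      ← Finset.mul_sum, RingHom.id_apply]
    ring

theorem K1_strict {a b c : ℕ} (G : Ten a b c) :
    HasStrictFDerivAt (K1_phi G) (LinearMap.toContinuousLinearMap (K1_lin G))
      (K1_one a, K1_one b, K1_one c) := by
  rw [hasStrictFDerivAt_pi']; intro i
  rw [hasStrictFDerivAt_pi']; intro j
  rw [hasStrictFDerivAt_pi']; intro k
  obtain ⟨LP, hLP⟩ : ∃ LP : Fin a → (K1_E a b c →L[ℂ] ℂ), ∀ i' g, LP i' g = g.1 i i' :=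
    ⟨fun i' => (ContinuousLinearMap.proj (R := ℂ) (φ := fun _ : Fin a => ℂ) i').comp
      ((ContinuousLinearMap.proj (R := ℂ) (φ := fun _ : Fin a => Fin a → ℂ) i).comp
        (ContinuousLinearMap.fst ℂ _ _)), fun _ _ => rfl⟩
  obtain ⟨LQ, hLQ⟩ : ∃ LQ : Fin b → (K1_E a b c →L[ℂ] ℂ), ∀ j' g, LQ j' g = g.2.1 j j' :=
    ⟨fun j' => (ContinuousLinearMap.proj (R := ℂ) (φ := fun _ : Fin b => ℂ) j').comp
      ((ContinuousLinearMap.proj (R := ℂ) (φ := fun _ : Fin b => Fin b → ℂ) j).comp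
        ((ContinuousLinearMap.fst ℂ _ _).comp (ContinuousLinearMap.snd ℂ _ _))), fun _ _ => rfl⟩
  obtain ⟨LR, hLR⟩ : ∃ LR : Fin c → (K1_E a b c →L[ℂ] ℂ), ∀ k' g, LR k' g = g.2.2 k k' :=
    ⟨fun k' => (ContinuousLinearMap.proj (R := ℂ) (φ := fun _ : Fin c => ℂ) k').comp
      ((ContinuousLinearMap.proj (R := ℂ) (φ := fun _ : Fin c => Fin c → ℂ) k).comp
        ((ContinuousLinearMap.snd ℂ _ _).comp (ContinuousLinearMap.snd ℂ _ _))), fun _ _ => rfl⟩
  have hP : ∀ i', HasStrictFDerivAt (fun g : K1_E a b c => g.1 i i') (LP i')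
      (K1_one a, K1_one b, K1_one c) := fun i' => by
    have h := (LP i').hasStrictFDerivAt (x := (K1_one a, K1_one b, K1_one c))
    have e : (LP i' : K1_E a b c → ℂ) = fun g => g.1 i i' := funext (hLP i')
    rwa [e] at h
  have hQ : ∀ j', HasStrictFDerivAt (fun g : K1_E a b c => g.2.1 j j') (LQ j')
      (K1_one a, K1_one b, K1_one c) := fun j' => by
    have h := (LQ j').hasStrictFDerivAt (x := (K1_one a, K1_one b, K1_one c))
    have e : (LQ j' : K1_E a b c → ℂ) = fun g => g.2.1 j j' := funext (hLQ j')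
    rwa [e] at h
  have hR : ∀ k', HasStrictFDerivAt (fun g : K1_E a b c => g.2.2 k k') (LR k')
      (K1_one a, K1_one b, K1_one c) := fun k' => by
    have h := (LR k').hasStrictFDerivAt (x := (K1_one a, K1_one b, K1_one c))
    have e : (LR k' : K1_E a b c → ℂ) = fun g => g.2.2 k k' := funext (hLR k')
    rwa [e] at h
  have h := HasStrictFDerivAt.fun_sum (u := Finset.univ) (fun i' _ =>
    HasStrictFDerivAt.fun_sum (u := Finset.univ) (fun j' _ =>
      HasStrictFDerivAt.fun_sum (u := Finset.univ) (fun k' _ =>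
        (((hP i').fun_mul (hQ j')).fun_mul (hR k')).mul_const (G i' j' k'))))
  refine h.congr_fderiv ?_
  refine ContinuousLinearMap.ext fun g => ?_
  simp only [sum_apply, smul_apply, add_apply, hLP, hLQ, hLR, K1_one, smul_eq_mul,
    ContinuousLinearMap.comp_apply, ContinuousLinearMap.proj_apply]
  have e : (LinearMap.toContinuousLinearMap (K1_lin G)) g i j k = ∑ i', g.1 i i' * G i' j k
      + ∑ j', g.2.1 j j' * G i j' k + ∑ k', g.2.2 k k' * G i j k' := rfl
  rw [e]
  simp only [mul_add, Finset.sum_add_distrib, mul_ite, ite_mul, mul_one, one_mul, zero_mul,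
    mul_zero, Finset.sum_ite_irrel, Finset.sum_const_zero, Finset.sum_ite_eq, Finset.mem_univ,
    if_true]
  simp only [mul_comm (G _ _ _)]
  ring

theorem K1_det (a : ℕ) : Matrix.det (K1_one a) = 1 := by
  have e : Matrix.of (K1_one a) = (1 : Matrix (Fin a) (Fin a) ℂ) := by
    refine Matrix.ext fun i i' => ?_
    rw [Matrix.of_apply, K1_one, Matrix.one_apply]
  have e2 : Matrix.det (Matrix.of (K1_one a)) = 1 := by rw [e, Matrix.det_one]
  exact e2

theorem K1_phi_one {a b c : ℕ} (G : Ten a b c) : K1_phi G (K1_one a, K1_one b, K1_one c) = G := by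
  funext i j k
  simp only [K1_phi, K1_one, mul_ite, ite_mul, mul_one, one_mul, zero_mul,
    mul_zero, Finset.sum_ite_eq, Finset.mem_univ, if_true]

theorem open_orbit {b : ℕ} (hb : b = 2 ∨ b = 3) : ∀ᶠ T in 𝓝 (Gb b), GLeq (Gb b) T := by
  have hr : (LinearMap.toContinuousLinearMap (K1_lin (Gb b))).range = ⊤ := by
    rw [LinearMap.range_eq_top]
    intro S
    obtain ⟨g, hg⟩ := actL_surj hb S
    exact ⟨g, hg⟩
  have h := (K1_strict (Gb b)).map_nhds_eq_of_surj hr
  rw [K1_phi_one] at h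
  rw [← h]
  change ∀ᶠ g in 𝓝 (K1_one 2, K1_one b, K1_one b), GLeq (Gb b) (K1_phi (Gb b) g)
  have hc1 : Continuous fun g : K1_E 2 b b => Matrix.det g.1 := Continuous.matrix_det continuous_fst
  have hc2 : Continuous fun g : K1_E 2 b b => Matrix.det g.2.1 :=
    Continuous.matrix_det (continuous_fst.comp continuous_snd)
  have hc3 : Continuous fun g : K1_E 2 b b => Matrix.det g.2.2 :=
    Continuous.matrix_det (continuous_snd.comp continuous_snd)
  have n1 : ∀ᶠ g in 𝓝 (K1_one 2, K1_one b, K1_one b), Matrix.det g.1 ≠ 0 :=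
    hc1.continuousAt.eventually_ne (by dsimp only; rw [K1_det]; exact one_ne_zero)
  have n2 : ∀ᶠ g in 𝓝 (K1_one 2, K1_one b, K1_one b), Matrix.det g.2.1 ≠ 0 :=
    hc2.continuousAt.eventually_ne (by dsimp only; rw [K1_det]; exact one_ne_zero)
  have n3 : ∀ᶠ g in 𝓝 (K1_one 2, K1_one b, K1_one b), Matrix.det g.2.2 ≠ 0 :=
    hc3.continuousAt.eventually_ne (by dsimp only; rw [K1_det]; exact one_ne_zero)
  filter_upwards [n1, n2, n3] with g h1 h2 h3
  exact ⟨g.1, g.2.1, g.2.2, h1.isUnit, h2.isUnit, h3.isUnit, fun i j k => rfl⟩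

end Cea.N
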