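import Pool.Agent.Lib.MP_cea156_al.N.R3

/-! R3b: see R3. The coefficient of a word of length 3 in `subst φ W`. -/

set_option autoImplicit false

namespace Cea.N

open Finset

variable {V : Type} [DecidableEq V]

private theorem R3b_three {A B : Type} [Fintype A] {φ : A → NC B ℂ} (hφ : Z0 φ) {Z : NC A ℂ}
    (hZ : Len 3 Z) (p q r : B) :
    subst φ Z [p, q, r] = ∑ x, ∑ y, ∑ z, Z [x, y, z] * (φ x [p] * φ y [q] * φ z [r]) := by
  have h0 : ∀ w : List A, w.length < 3 → Z w = 0 := by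
    intro w hw
    by_contra hne
    have := hZ w hne
    omega
  show ∑ m ∈ range 4, ∑ w : Fin m → A, Z (List.ofFn w) * wordSub φ (List.ofFn w) [p, q, r] = _
  rw [sum_range_succ, sum_range_succ, sum_range_succ, sum_range_succ, sum_range_zero]
  have e0 : ∑ w : Fin 0 → A, Z (List.ofFn w) * wordSub φ (List.ofFn w) [p, q, r] = 0 :=
    sum_eq_zero fun w _ => by rw [h0 _ (by simp), zero_mul]
  have e1 : ∑ w : Fin 1 → A, Z (List.ofFn w) * wordSub φ (List.ofFn w) [p, q, r] = 0 :=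
    sum_eq_zero fun w _ => by rw [h0 _ (by simp), zero_mul]
  have e2 : ∑ w : Fin 2 → A, Z (List.ofFn w) * wordSub φ (List.ofFn w) [p, q, r] = 0 :=
    sum_eq_zero fun w _ => by rw [h0 _ (by simp), zero_mul]
  rw [e0, e1, e2, zero_add, zero_add, zero_add, zero_add]
  have h1 : ([p, q, r] : List B) = List.ofFn ![p, q, r] := by simp
  have h2 : ∀ w : Fin 3 → A, Z (List.ofFn w) * wordSub φ (List.ofFn w) [p, q, r] =
      Z [w 0, w 1, w 2] * (φ (w 0) [p] * φ (w 1) [q] * φ (w 2) [r]) := by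
    intro w
    have h3 : List.ofFn w = [w 0, w 1, w 2] := by simp [List.ofFn_succ]
    rw [h1, wordSub_diag hφ w ![p, q, r], Fin.prod_univ_three, h3]
    rfl
  rw [sum_congr rfl fun w _ => h2 w]
  rw [← (Fin.consEquiv fun _ : Fin 3 => A).sum_comp, Fintype.sum_prod_type]
  refine sum_congr rfl fun x _ => ?_
  rw [← (finTwoArrowEquiv A).symm.sum_comp, Fintype.sum_prod_type]
  refine sum_congr rfl fun y _ => sum_congr rfl fun z _ => ?_
  rfl

private theorem R3b_sel {A : Type} [Fintype A] {φ : A → NC A ℂ} (hφ : Z0 φ) {Z : NC A ℂ}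
    (hZ : Len 3 Z) {l m n : ℕ} (α : Fin l → A) (β : Fin m → A) (γ : Fin n → A)
    (hα : ∀ (g : A → ℂ) i, ∑ x, g x * φ x [α i] = ∑ i', g (α i') * φ (α i') [α i])
    (hβ : ∀ (g : A → ℂ) i, ∑ x, g x * φ x [β i] = ∑ i', g (β i') * φ (β i') [β i])
    (hγ : ∀ (g : A → ℂ) i, ∑ x, g x * φ x [γ i] = ∑ i', g (γ i') * φ (γ i') [γ i])
    (i : Fin l) (j : Fin m) (k : Fin n) :
    subst φ Z [α i, β j, γ k] = ∑ i', ∑ j', ∑ k', Z [α i', β j', γ k'] *
      (φ (α i') [α i] * φ (β j') [β j] * φ (γ k') [γ k]) := by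
  rw [R3b_three hφ hZ]
  have h1 : ∀ x y z, Z [x, y, z] * (φ x [α i] * φ y [β j] * φ z [γ k]) =
      Z [x, y, z] * φ z [γ k] * φ y [β j] * φ x [α i] := fun x y z => by ring
  simp only [h1, ← sum_mul]
  rw [hα]
  refine sum_congr rfl fun i' _ => ?_
  rw [hβ (fun y => ∑ z, Z [α i', y, z] * φ z [γ k])]
  congr 1
  refine sum_congr rfl fun j' _ => ?_
  rw [hγ (fun z => Z [α i', β j', z])]

private theorem R3b_kind {u v w : V} {a b c : ℕ}
    {φ : (Tq u v w a b c).A → NC (Tq u v w a b c).A ℂ} (hφ : Iso _ _ φ)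
    {x p : (Tq u v w a b c).A} (h : φ x [p] ≠ 0) :
    (Tq u v w a b c).s p = (Tq u v w a b c).s x ∧ (Tq u v w a b c).t p = (Tq u v w a b c).t x :=
  (hφ.1 x [p] h).2

private theorem R3b_sums {u v w : V} (huv : u ≠ v) (hvw : v ≠ w) (hwu : w ≠ u) {a b c : ℕ}
    {φ : (Tq u v w a b c).A → NC (Tq u v w a b c).A ℂ} (hφ : Iso _ _ φ) :
    (∀ (g : (Tq u v w a b c).A → ℂ) (i : Fin a), ∑ x, g x * φ x [Sum.inl i] =
      ∑ i', g (Sum.inl i') * φ (Sum.inl i') [Sum.inl i]) ∧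
    (∀ (g : (Tq u v w a b c).A → ℂ) (i : Fin b), ∑ x, g x * φ x [Sum.inr (Sum.inl i)] =
      ∑ i', g (Sum.inr (Sum.inl i')) * φ (Sum.inr (Sum.inl i')) [Sum.inr (Sum.inl i)]) ∧
    (∀ (g : (Tq u v w a b c).A → ℂ) (i : Fin c), ∑ x, g x * φ x [Sum.inr (Sum.inr i)] =
      ∑ i', g (Sum.inr (Sum.inr i')) * φ (Sum.inr (Sum.inr i')) [Sum.inr (Sum.inr i)]) := by
  have z : ∀ x p : (Tq u v w a b c).A, ((Tq u v w a b c).s p ≠ (Tq u v w a b c).s x) →
      φ x [p] = 0 := by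
    intro x p h
    by_contra hne
    exact h (R3b_kind hφ hne).1
  refine ⟨?_, ?_, ?_⟩
  · intro g i
    rw [Fintype.sum_sum_type, Fintype.sum_sum_type]
    have e1 : ∑ j : Fin b, g (Sum.inr (Sum.inl j)) * φ (Sum.inr (Sum.inl j)) [Sum.inl i] = 0 :=
      sum_eq_zero fun j _ => by rw [z (Sum.inr (Sum.inl j)) (Sum.inl i) huv, mul_zero]
    have e2 : ∑ k : Fin c, g (Sum.inr (Sum.inr k)) * φ (Sum.inr (Sum.inr k)) [Sum.inl i] = 0 :=
      sum_eq_zero fun k _ => by rw [z (Sum.inr (Sum.inr k)) (Sum.inl i) hwu.symm, mul_zero]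
    rw [e1, e2, add_zero, add_zero]
  · intro g i
    rw [Fintype.sum_sum_type, Fintype.sum_sum_type]
    have e1 : ∑ j : Fin a, g (Sum.inl j) * φ (Sum.inl j) [Sum.inr (Sum.inl i)] = 0 :=
      sum_eq_zero fun j _ => by rw [z (Sum.inl j) (Sum.inr (Sum.inl i)) huv.symm, mul_zero]
    have e2 : ∑ k : Fin c, g (Sum.inr (Sum.inr k)) * φ (Sum.inr (Sum.inr k)) [Sum.inr (Sum.inl i)] =
        0 := sum_eq_zero fun k _ => by rw [z (Sum.inr (Sum.inr k)) (Sum.inr (Sum.inl i)) hvw, mul_zero]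
    rw [e1, e2, add_zero, zero_add]
  · intro g i
    rw [Fintype.sum_sum_type, Fintype.sum_sum_type]
    have e1 : ∑ j : Fin a, g (Sum.inl j) * φ (Sum.inl j) [Sum.inr (Sum.inr i)] = 0 :=
      sum_eq_zero fun j _ => by rw [z (Sum.inl j) (Sum.inr (Sum.inr i)) hwu, mul_zero]
    have e2 : ∑ k : Fin b, g (Sum.inr (Sum.inl k)) * φ (Sum.inr (Sum.inl k)) [Sum.inr (Sum.inr i)] =
        0 := sum_eq_zero fun k _ => by rw [z (Sum.inr (Sum.inl k)) (Sum.inr (Sum.inr i)) hvw.symm, mul_zero]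
    rw [e1, e2, zero_add, zero_add]

private theorem R3b_cyc {D : Type} (F : NC D ℂ) (x y z : D) :
    cyc F [x, y, z] = F [x, y, z] + F [y, z, x] + F [z, x, y] := by
  show ∑ k ∈ range 3, F ([x, y, z].rotate k) = _
  rw [sum_range_succ, sum_range_succ, sum_range_succ, sum_range_zero, zero_add]
  rfl

theorem tenq_subst {u v w : V} (huv : u ≠ v) (hvw : v ≠ w) (hwu : w ≠ u) {a b c : ℕ} {W : NC (Tq u v w a b c).A ℂ}
    (hW : Pot _ W) {φ : (Tq u v w a b c).A → NC (Tq u v w a b c).A ℂ} (hφ : Iso _ _ φ) (i : Fin a) (j : Fin b)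
    (k : Fin c) :
    tenq (subst φ W) i j k = ∑ i', ∑ j', ∑ k', lin φ (Sum.inl i') (Sum.inl i) *
      lin φ (Sum.inr (Sum.inl j')) (Sum.inr (Sum.inl j)) * lin φ (Sum.inr (Sum.inr k')) (Sum.inr (Sum.inr k)) *
      tenq W i' j' k' := by
  have hL : Len 3 W := fun w hw => (cycle_len huv hvw hwu (hW w hw)).2
  obtain ⟨hα, hβ, hγ⟩ := R3b_sums huv hvw hwu hφ
  have h1 := R3b_sel hφ.z0 hL (fun i : Fin a => (Sum.inl i : (Tq u v w a b c).A))
    (fun i : Fin b => Sum.inr (Sum.inl i)) (fun i : Fin c => Sum.inr (Sum.inr i)) hα hβ hγ i j k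
  have h2 := R3b_sel hφ.z0 hL (fun i : Fin b => (Sum.inr (Sum.inl i) : (Tq u v w a b c).A))
    (fun i : Fin c => Sum.inr (Sum.inr i)) (fun i : Fin a => Sum.inl i) hβ hγ hα j k i
  have h3 := R3b_sel hφ.z0 hL (fun i : Fin c => (Sum.inr (Sum.inr i) : (Tq u v w a b c).A))
    (fun i : Fin a => Sum.inl i) (fun i : Fin b => Sum.inr (Sum.inl i)) hγ hα hβ k i j
  simp only at h1 h2 h3
  show cyc (subst φ W) [Sum.inl i, Sum.inr (Sum.inl j), Sum.inr (Sum.inr k)] = _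
  rw [R3b_cyc, h1, h2, h3]
  have c2 : ∀ f : Fin b → Fin c → Fin a → ℂ, ∑ j', ∑ k', ∑ i', f j' k' i' =
      ∑ i', ∑ j', ∑ k', f j' k' i' := by
    intro f
    rw [sum_comm (s := (univ : Finset (Fin a)))]
    exact sum_congr rfl fun j' _ => sum_comm
  have c3 : ∀ f : Fin c → Fin a → Fin b → ℂ, ∑ k', ∑ i', ∑ j', f k' i' j' =
      ∑ i', ∑ j', ∑ k', f k' i' j' := by
    intro f
    rw [sum_comm]
    exact sum_congr rfl fun i' _ => sum_comm
  rw [c2, c3, ← sum_add_distrib, ← sum_add_distrib]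
  refine sum_congr rfl fun i' _ => ?_
  rw [← sum_add_distrib, ← sum_add_distrib]
  refine sum_congr rfl fun j' _ => ?_
  rw [← sum_add_distrib, ← sum_add_distrib]
  refine sum_congr rfl fun k' _ => ?_
  have h4 : tenq W i' j' k' = W [Sum.inl i', Sum.inr (Sum.inl j'), Sum.inr (Sum.inr k')] +
      W [Sum.inr (Sum.inl j'), Sum.inr (Sum.inr k'), Sum.inl i'] +
      W [Sum.inr (Sum.inr k'), Sum.inl i', Sum.inr (Sum.inl j')] := R3b_cyc W _ _ _
  have h5 : ∀ x y, lin φ x y = φ x [y] := fun x y => rfl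
  rw [h4, h5, h5, h5]
  ring

/-- the three blocks of the linear part are invertible, all other entries vanish -/
theorem lin_blocks {u v w : V} (huv : u ≠ v) (hvw : v ≠ w) (hwu : w ≠ u) {a b c : ℕ}
    {φ : (Tq u v w a b c).A → NC (Tq u v w a b c).A ℂ} (hφ : Iso _ _ φ) :
    IsUnit (Matrix.of fun i i' : Fin a => lin φ (Sum.inl i) (Sum.inl i')).det ∧
    IsUnit (Matrix.of fun i i' : Fin b => lin φ (Sum.inr (Sum.inl i)) (Sum.inr (Sum.inl i'))).det ∧
    IsUnit (Matrix.of fun i i' : Fin c => lin φ (Sum.inr (Sum.inr i)) (Sum.inr (Sum.inr i'))).det ∧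
    ∀ x y : (Tq u v w a b c).A, lin φ x y ≠ 0 →
      (Tq u v w a b c).s x = (Tq u v w a b c).s y ∧ (Tq u v w a b c).t x = (Tq u v w a b c).t y := by
  obtain ⟨ψ, hψ, -, -, hl, -⟩ := hφ.inv
  obtain ⟨hα, hβ, hγ⟩ := R3b_sums huv hvw hwu hψ
  have key : ∀ {n : ℕ} (ι : Fin n → (Tq u v w a b c).A), Function.Injective ι →
      (∀ (g : (Tq u v w a b c).A → ℂ) (i : Fin n), ∑ x, g x * ψ x [ι i] =
        ∑ i', g (ι i') * ψ (ι i') [ι i]) →
      IsUnit (Matrix.of fun i i' : Fin n => lin φ (ι i) (ι i')).det := by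
    intro n ι hι hs
    have h1 : (Matrix.of fun i i' : Fin n => lin φ (ι i) (ι i')) *
        (Matrix.of fun i i' : Fin n => lin ψ (ι i) (ι i')) = 1 := by
      ext i k
      rw [Matrix.mul_apply]
      have h2 := hs (fun x => lin φ (ι i) x) k
      have h3 : (lin φ * lin ψ) (ι i) (ι k) = (1 : Matrix _ _ ℂ) (ι i) (ι k) := by rw [hl]
      rw [Matrix.mul_apply] at h3
      have h4 : ∑ j, lin φ (ι i) j * lin ψ j (ι k) = ∑ x, lin φ (ι i) x * ψ x [ι k] := rfl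
      rw [h4, h2] at h3
      have h5 : (1 : Matrix (Tq u v w a b c).A (Tq u v w a b c).A ℂ) (ι i) (ι k) =
          (1 : Matrix (Fin n) (Fin n) ℂ) i k := by
        rw [Matrix.one_apply, Matrix.one_apply]
        simp only [hι.eq_iff]
      rw [h5] at h3
      exact h3
    have h2 := congrArg Matrix.det h1
    rw [Matrix.det_mul, Matrix.det_one] at h2
    exact IsUnit.of_mul_eq_one _ h2
  refine ⟨key (fun i => Sum.inl i) (fun i j h => Sum.inl_injective h) hα,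
    key (fun i => Sum.inr (Sum.inl i)) (fun i j h => Sum.inl_injective (Sum.inr_injective h)) hβ,
    key (fun i => Sum.inr (Sum.inr i)) (fun i j h => Sum.inr_injective (Sum.inr_injective h)) hγ, ?_⟩
  intro x y h
  obtain ⟨h1, h2⟩ := R3b_kind hφ (x := x) (p := y) h
  exact ⟨h1.symm, h2.symm⟩

theorem tenq_RE {u v w : V} (huv : u ≠ v) (hvw : v ≠ w) (hwu : w ≠ u) {a b c : ℕ} {W W' : NC (Tq u v w a b c).A ℂ}
    (hW : Pot _ W) (h : RE _ _ W W') : GLeq (tenq W) (tenq W') := by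
  obtain ⟨φ, hφ, hc⟩ := h
  obtain ⟨h1, h2, h3, -⟩ := lin_blocks huv hvw hwu hφ
  refine ⟨(Matrix.of fun i i' : Fin a => lin φ (Sum.inl i) (Sum.inl i')).transpose,
    (Matrix.of fun i i' : Fin b => lin φ (Sum.inr (Sum.inl i)) (Sum.inr (Sum.inl i'))).transpose,
    (Matrix.of fun i i' : Fin c => lin φ (Sum.inr (Sum.inr i)) (Sum.inr (Sum.inr i'))).transpose,
    ?_, ?_, ?_, ?_⟩
  · rwa [Matrix.det_transpose]
  · rwa [Matrix.det_transpose]
  · rwa [Matrix.det_transpose]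
  · intro i j k
    have h4 : tenq W' i j k = tenq (subst φ W) i j k := by
      show cyc W' _ = cyc (subst φ W) _
      rw [hc]
    rw [h4, tenq_subst huv hvw hwu hW hφ]
    rfl

/-- the block diagonal matrix -/
private def R3b_L {a b c : ℕ} (P : Matrix (Fin a) (Fin a) ℂ) (Q : Matrix (Fin b) (Fin b) ℂ)
    (R : Matrix (Fin c) (Fin c) ℂ) : Matrix (Fin a ⊕ Fin b ⊕ Fin c) (Fin a ⊕ Fin b ⊕ Fin c) ℂ :=
  Matrix.fromBlocks P 0 0 (Matrix.fromBlocks Q 0 0 R)

private theorem R3b_L_mul {a b c : ℕ} (P P' : Matrix (Fin a) (Fin a) ℂ)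
    (Q Q' : Matrix (Fin b) (Fin b) ℂ) (R R' : Matrix (Fin c) (Fin c) ℂ) (hP : P * P' = 1)
    (hQ : Q * Q' = 1) (hR : R * R' = 1) : R3b_L P Q R * R3b_L P' Q' R' = 1 := by
  rw [R3b_L, R3b_L, Matrix.fromBlocks_multiply, Matrix.fromBlocks_multiply, hP, hQ, hR]
  simp

theorem exists_RE_ten {u v w : V} (huv : u ≠ v) (hvw : v ≠ w) (hwu : w ≠ u) {a b c : ℕ} {W : NC (Tq u v w a b c).A ℂ}
    (hW : Pot _ W) {T : Ten a b c} (h : GLeq (tenq W) T) :
    ∃ W' : NC (Tq u v w a b c).A ℂ, Pot _ W' ∧ RE _ _ W W' ∧ tenq W' = T := by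
  obtain ⟨P, Q, R, hP, hQ, hR, h⟩ := h
  let L : Matrix (Tq u v w a b c).A (Tq u v w a b c).A ℂ :=
    R3b_L P.transpose Q.transpose R.transpose
  let L' : Matrix (Tq u v w a b c).A (Tq u v w a b c).A ℂ :=
    R3b_L P.transpose⁻¹ Q.transpose⁻¹ R.transpose⁻¹
  have hP' : IsUnit P.transpose.det := by rwa [Matrix.det_transpose]
  have hQ' : IsUnit Q.transpose.det := by rwa [Matrix.det_transpose]
  have hR' : IsUnit R.transpose.det := by rwa [Matrix.det_transpose]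
  have hφ : Iso (Tq u v w a b c) (Tq u v w a b c) (linS L) := by
    refine ⟨?_, L', ?_, ?_⟩
    · intro x p hp
      obtain ⟨y, rfl, hy⟩ := linS_ne_zero hp
      refine ⟨List.cons_ne_nil _ _, ?_⟩
      rcases x with x | x | x <;> rcases y with y | y | y
      · exact ⟨rfl, rfl⟩
      · exact absurd rfl hy
      · exact absurd rfl hy
      · exact absurd rfl hy
      · exact ⟨rfl, rfl⟩
      · exact absurd rfl hy
      · exact absurd rfl hy
      · exact absurd rfl hy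
      · exact ⟨rfl, rfl⟩
    · rw [lin_linS]
      exact R3b_L_mul _ _ _ _ _ _ (Matrix.mul_nonsing_inv _ hP') (Matrix.mul_nonsing_inv _ hQ')
        (Matrix.mul_nonsing_inv _ hR')
    · rw [lin_linS]
      exact R3b_L_mul _ _ _ _ _ _ (Matrix.nonsing_inv_mul _ hP') (Matrix.nonsing_inv_mul _ hQ')
        (Matrix.nonsing_inv_mul _ hR')
  refine ⟨subst (linS L) W, Pot_subst hφ.z0 hφ.ps hW, RE_of_iso hφ W, ?_⟩
  funext i j k
  rw [tenq_subst huv hvw hwu hW hφ, h i j k, lin_linS]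
  rfl

end Cea.N
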