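import Pool.Agent.Lib.MP_cea156_al.N.K1
import Pool.Agent.Lib.MP_cea156_al.N.R3b
import Pool.Agent.Lib.MP_cea156_al.N.R2

/-! K2: a generically rigid potential on the triangle `(2, b, b)`, `b = 2, 3`, can be brought to normal cubic part. Let `T₀ = tenq W`; family `W + cub (s (Gb b - T₀))`. For `s` close
to `1` the cubic part is in the orbit of `Gb b` (`open_orbit`); a neighbourhood of `1` in `ℂ` is uncountable; so `GLeq T₀ (Gb b)` by `tenq_RE`; then `exists_RE_ten`,
`RG_congr`. -/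

set_option autoImplicit false

namespace Cea.N

open Filter Topology

theorem K2_cub_zero {V : Type} [DecidableEq V] (u v w : V) {a b c : ℕ} {R : Type} [CommRing R] :
    (cub u v w (fun _ _ _ => (0 : R)) : NC (Tq u v w a b c).A R) = 0 := by
  unfold cub
  simp

theorem exists_normal {V : Type} [DecidableEq V] {u v w : V} (huv : u ≠ v) (hvw : v ≠ w) (hwu : w ≠ u) {b : ℕ}
    (hb : b = 2 ∨ b = 3) {W : NC (Tq u v w 2 b b).A ℂ} (hW : Pot _ W) (hg : RG (Tq u v w 2 b b) W) :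
    ∃ W₁ : NC (Tq u v w 2 b b).A ℂ, Pot _ W₁ ∧ RG (Tq u v w 2 b b) W₁ ∧ tenq W₁ = Gb b := by
  obtain ⟨T₀, hT₀⟩ : ∃ T₀ : Ten 2 b b, T₀ = tenq W := ⟨_, rfl⟩
  obtain ⟨Y, hY⟩ : ∃ Y : NC (Tq u v w 2 b b).A (Polynomial ℂ), Y = cub u v w (fun i j k =>
    (Polynomial.X : Polynomial ℂ) * Polynomial.C (Gb b i j k - T₀ i j k)) := ⟨_, rfl⟩
  have hs : ∀ s : ℂ, mapR (Polynomial.evalRingHom s) Y =
      cub u v w (fun i j k => s * (Gb b i j k - T₀ i j k)) := by
    intro s
    rw [hY, mapR_cub]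
    congr 1
    funext i j k
    simp
  have hc := hg Y (by rw [hY]; exact Pot_cub _) (by
    rw [hs]
    simp only [zero_mul]
    exact K2_cub_zero u v w)
  have hcont : Tendsto (fun s : ℂ => (fun i j k => T₀ i j k + s * (Gb b i j k - T₀ i j k) : Ten 2 b b)) (𝓝 1)
      (𝓝 (Gb b)) := by
    have h1 : Continuous (fun s : ℂ => (fun i j k => T₀ i j k + s * (Gb b i j k - T₀ i j k) : Ten 2 b b)) := by
      refine continuous_pi fun i => continuous_pi fun j => continuous_pi fun k => ?_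
      fun_prop
    have h2 := h1.tendsto 1
    have h3 : (fun i j k => T₀ i j k + 1 * (Gb b i j k - T₀ i j k) : Ten 2 b b) = Gb b := by
      funext i j k
      ring
    rwa [h3] at h2
  obtain ⟨s, hs1, hs2⟩ := (hc.dense_compl ℂ).inter_nhds_nonempty (hcont.eventually (open_orbit hb))
  have hRE : RE _ _ W (W + mapR (Polynomial.evalRingHom s) Y) := not_not.1 hs1
  have h1 := tenq_RE huv hvw hwu hW hRE
  rw [hs, tenq_add, tenq_cub, ← hT₀] at h1
  have h2 : GLeq (tenq W) (Gb b) := by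
    rw [← hT₀]
    exact GLeq_trans h1 (GLeq_symm hs2)
  obtain ⟨W₁, hW₁, hr, ht⟩ := exists_RE_ten huv hvw hwu hW h2
  exact ⟨W₁, hW₁, RG_congr hW hW₁ hr hg, ht⟩

end Cea.N
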