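import Pool.Agent.Lib.MP_cea156_al.N.K1

/-! K3: the stabiliser of `Gb b`. Put `m j i' = ∑ i, lv j i * A i i'`. The hypothesis says: `Bᵀ * diag (m · · x) * C = diag (lv · · x)` for all `x : Fin 2 → ℂ`. For
`x = perp (lv j')` the right-hand side has rank `b - 1` (only the entry `j'` vanishes), so exactly one `m j · x` vanishes: this `j` is `π j'`, and
`m (π j') = α j' * lv j'`. `C` maps the kernel `e_{j'}` of the right-hand side into the kernel `e_{π j'}` of the diagonal matrix: `C k j' = 0` for `k ≠ π j'`;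
similarly for `B` (transpose). -/

set_option autoImplicit false

namespace Cea.N

open Finset

/-- orthogonal vector -/
def perp (l : Fin 2 → ℂ) (p : Fin 2) : ℂ := if p = 0 then l 1 else -l 0

/-- the determinants of two of the three forms are `±1` -/
theorem det_lv {b : ℕ} (hb : b = 2 ∨ b = 3) {j j' : Fin b} (h : j ≠ j') :
    (lv j.1 0 * lv j'.1 1 - lv j.1 1 * lv j'.1 0) ^ 2 = 1 := by
  rcases hb with rfl | rfl
  · fin_cases j <;> fin_cases j' <;> simp [lv] at h ⊢
  · fin_cases j <;> fin_cases j' <;> simp [lv] at h ⊢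

theorem K3_lv_ne {b : ℕ} (j : Fin b) : ∃ i, lv j.1 i = 1 := by
  unfold lv
  by_cases h0 : j.1 = 0
  · exact ⟨0, by rw [if_pos h0, if_pos rfl]⟩
  · by_cases h1 : j.1 = 1
    · exact ⟨1, by rw [if_neg h0, if_pos h1, if_pos rfl]⟩
    · exact ⟨0, by rw [if_neg h0, if_neg h1]⟩

/-- two linear forms with nonzero determinant -/
theorem K3_zero {b : ℕ} (hb : b = 2 ∨ b = 3) {j j' : Fin b} (h : j ≠ j') {y : Fin 2 → ℂ}
    (h1 : ∑ i, lv j.1 i * y i = 0) (h2 : ∑ i, lv j'.1 i * y i = 0) (i : Fin 2) : y i = 0 := by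
  have hd := det_lv hb h
  rw [Fin.sum_univ_two] at h1 h2
  have hd0 : lv j.1 0 * lv j'.1 1 - lv j.1 1 * lv j'.1 0 ≠ 0 := by
    intro h0
    rw [h0] at hd
    norm_num at hd
  have e0 : (lv j.1 0 * lv j'.1 1 - lv j.1 1 * lv j'.1 0) * y 0 = 0 := by
    linear_combination lv j'.1 1 * h1 - lv j.1 1 * h2
  have e1 : (lv j.1 0 * lv j'.1 1 - lv j.1 1 * lv j'.1 0) * y 1 = 0 := by
    linear_combination lv j.1 0 * h2 - lv j'.1 0 * h1
  have f0 : y 0 = 0 := (mul_eq_zero.1 e0).resolve_left hd0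
  have f1 : y 1 = 0 := (mul_eq_zero.1 e1).resolve_left hd0
  rcases Fin.exists_fin_two.1 ⟨i, rfl⟩ with hi | hi
  · rw [hi]
    exact f0
  · rw [hi]
    exact f1

theorem K3_perp_ne {b : ℕ} (j : Fin b) : ∃ i, perp (lv j.1) i ≠ 0 := by
  obtain ⟨i, hi⟩ := K3_lv_ne j
  rcases Fin.exists_fin_two.1 ⟨i, rfl⟩ with h | h
  · refine ⟨1, ?_⟩
    rw [h] at hi
    simp [perp, hi]
  · refine ⟨0, ?_⟩
    rw [h] at hi
    simp [perp, hi]

/-- proportional to `l` if orthogonal to `perp l` -/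
theorem K3_prop {b : ℕ} (j : Fin b) {m : Fin 2 → ℂ} (h : ∑ i, m i * perp (lv j.1) i = 0) :
    ∃ α : ℂ, ∀ i, m i = α * lv j.1 i := by
  rw [Fin.sum_univ_two] at h
  have h' : m 0 * lv j.1 1 = m 1 * lv j.1 0 := by
    have e1 : perp (lv j.1) 0 = lv j.1 1 := by simp [perp]
    have e2 : perp (lv j.1) 1 = - lv j.1 0 := by simp [perp]
    rw [e1, e2] at h
    linear_combination h
  obtain ⟨i, hi⟩ := K3_lv_ne j
  rcases Fin.exists_fin_two.1 ⟨i, rfl⟩ with hh | hh
  · rw [hh] at hi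
    refine ⟨m 0, fun i' => ?_⟩
    rcases Fin.exists_fin_two.1 ⟨i', rfl⟩ with hi' | hi'
    · rw [hi', hi, mul_one]
    · rw [hi', h', hi, mul_one]
  · rw [hh] at hi
    refine ⟨m 1, fun i' => ?_⟩
    rcases Fin.exists_fin_two.1 ⟨i', rfl⟩ with hi' | hi'
    · rw [hi', ← h', hi, mul_one]
    · rw [hi', hi, mul_one]

/-- the columns of `C` -/
theorem K3_col {b : ℕ} {B C : Matrix (Fin b) (Fin b) ℂ} (hB : IsUnit B.det) {D : Fin b → ℂ} {E : Fin b → ℂ}
    (h : ∀ j' k', ∑ l, D l * B l j' * C l k' = if j' = k' then E j' else 0) {j : Fin b} (hE : E j = 0) (l : Fin b) :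
    D l * C l j = 0 := by
  have hv : (fun l => D l * C l j) = 0 := by
    refine Matrix.eq_zero_of_vecMul_eq_zero hB.ne_zero ?_
    funext j'
    show ∑ l, (D l * C l j) * B l j' = 0
    have h1 := h j' j
    have h2 : (if j' = j then E j' else 0) = 0 := by
      split_ifs with hj
      · rw [hj]
        exact hE
      · rfl
    rw [h2] at h1
    rw [← h1]
    exact Finset.sum_congr rfl fun l _ => by ring
  exact congrFun hv l

theorem K3_ne {b : ℕ} {C : Matrix (Fin b) (Fin b) ℂ} (hC : IsUnit C.det) (j : Fin b) : ∃ l, C l j ≠ 0 := by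
  by_contra hcon
  push Not at hcon
  exact hC.ne_zero (Matrix.det_eq_zero_of_column_eq_zero j hcon)

theorem stab_struct {b : ℕ} (hb : b = 2 ∨ b = 3) {A : Matrix (Fin 2) (Fin 2) ℂ} {B C : Matrix (Fin b) (Fin b) ℂ}
    (hA : IsUnit A.det) (hB : IsUnit B.det) (hC : IsUnit C.det)
    (h : ∀ i' j' k', ∑ i, ∑ j, ∑ k, A i i' * B j j' * C k k' * Gb b i j k = Gb b i' j' k') :
    ∃ (π : Fin b → Fin b) (α : Fin b → ℂ), Function.Injective π ∧ (∀ j, α j ≠ 0) ∧
      (∀ j i', ∑ i, lv (π j).1 i * A i i' = α j * lv j.1 i') ∧ (∀ j k, k ≠ π j → C k j = 0) ∧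
      (∀ j k, k ≠ π j → B k j = 0) ∧ ∀ j, α j * (B (π j) j * C (π j) j) = 1 := by

  have hH : ∀ (x : Fin 2 → ℂ) (j' k' : Fin b),
      ∑ l : Fin b, (∑ i', (∑ i, lv l.1 i * A i i') * x i') * B l j' * C l k' =
        if j' = k' then ∑ i', lv j'.1 i' * x i' else 0 := by
    intro x j' k'
    have h1 : ∀ i', (∑ l : Fin b, (∑ i, lv l.1 i * A i i') * B l j' * C l k') =
        if j' = k' then lv j'.1 i' else 0 := by
      intro i'
      have h2 := h i' j' k'
      have h3 : Gb b i' j' k' = if j' = k' then lv j'.1 i' else 0 := rfl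
      rw [← h3, ← h2, Finset.sum_comm]
      refine Finset.sum_congr rfl fun l _ => ?_
      rw [Finset.sum_mul, Finset.sum_mul]
      refine Finset.sum_congr rfl fun i _ => ?_
      rw [Finset.sum_eq_single l]
      · have h4 : Gb b i l l = lv l.1 i := if_pos rfl
        rw [h4]
        ring
      · intro k _ hk
        have h4 : Gb b i l k = 0 := if_neg (fun h5 => hk h5.symm)
        rw [h4, mul_zero]
      · intro h4
        exact absurd (Finset.mem_univ l) h4
    have h2 : ∑ l : Fin b, (∑ i', (∑ i, lv l.1 i * A i i') * x i') * B l j' * C l k' =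
        ∑ i', (∑ l : Fin b, (∑ i, lv l.1 i * A i i') * B l j' * C l k') * x i' := by
      simp only [Finset.sum_mul]
      rw [Finset.sum_comm]
      refine Finset.sum_congr rfl fun i' _ => Finset.sum_congr rfl fun l _ =>
        Finset.sum_congr rfl fun i _ => ?_
      ring
    rw [h2]
    simp only [h1]
    split_ifs
    · rfl
    · simp
  have hperp : ∀ j : Fin b, ∑ i', lv j.1 i' * perp (lv j.1) i' = 0 := by
    intro j
    rw [Fin.sum_univ_two]
    have e1 : perp (lv j.1) 0 = lv j.1 1 := by simp [perp]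
    have e2 : perp (lv j.1) 1 = - lv j.1 0 := by simp [perp]
    rw [e1, e2]
    ring
  have hAx : ∀ (l : Fin b) (x : Fin 2 → ℂ), ∑ i', (∑ i, lv l.1 i * A i i') * x i' =
      ∑ i, lv l.1 i * (A.mulVec x) i := by
    intro l x
    have e : ∀ i, (A.mulVec x) i = ∑ i', A i i' * x i' := fun i => rfl
    simp only [e, Finset.sum_mul, Finset.mul_sum]
    rw [Finset.sum_comm]
    refine Finset.sum_congr rfl fun i _ => Finset.sum_congr rfl fun i' _ => ?_
    ring
  choose π hπ using fun j => K3_ne hC j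
  have hC0 : ∀ j l, (∑ i', (∑ i, lv l.1 i * A i i') * perp (lv j.1) i') * C l j = 0 := fun j l =>
    K3_col hB (hH (perp (lv j.1))) (hperp j) l
  have hB0 : ∀ j l, (∑ i', (∑ i, lv l.1 i * A i i') * perp (lv j.1) i') * B l j = 0 := fun j l =>
    K3_col hC (D := fun l => ∑ i', (∑ i, lv l.1 i * A i i') * perp (lv j.1) i')
      (E := fun j' => ∑ i', lv j'.1 i' * perp (lv j.1) i')
      (fun j' k' => by
        have h1 := hH (perp (lv j.1)) k' j'
        have h2 : (if k' = j' then ∑ i', lv k'.1 i' * perp (lv j.1) i' else 0) =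
            if j' = k' then ∑ i', lv j'.1 i' * perp (lv j.1) i' else 0 := by
          by_cases hjk : j' = k'
          · rw [if_pos hjk, if_pos hjk.symm, hjk]
          · rw [if_neg hjk, if_neg (fun h3 => hjk h3.symm)]
        rw [← h2, ← h1]
        exact Finset.sum_congr rfl fun l _ => by ring) (hperp j) l
  have hm : ∀ j, ∑ i', (∑ i, lv (π j).1 i * A i i') * perp (lv j.1) i' = 0 := fun j =>
    (mul_eq_zero.1 (hC0 j (π j))).resolve_right (hπ j)
  have hm' : ∀ j k, k ≠ π j → ∑ i', (∑ i, lv k.1 i * A i i') * perp (lv j.1) i' ≠ 0 := by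
    intro j k hk h0
    have h1 := hm j
    rw [hAx] at h0 h1
    have h2 : A.mulVec (perp (lv j.1)) = 0 := funext fun i => K3_zero hb hk h0 h1 i
    have h3 := Matrix.eq_zero_of_mulVec_eq_zero hA.ne_zero h2
    obtain ⟨i, hi⟩ := K3_perp_ne j
    exact hi (congrFun h3 i)
  choose α hα using fun j => K3_prop j (hm j)
  have hCz : ∀ j k, k ≠ π j → C k j = 0 := fun j k hk =>
    (mul_eq_zero.1 (hC0 j k)).resolve_left (hm' j k hk)
  have hBz : ∀ j k, k ≠ π j → B k j = 0 := fun j k hk =>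
    (mul_eq_zero.1 (hB0 j k)).resolve_left (hm' j k hk)
  have hlast : ∀ j, α j * (B (π j) j * C (π j) j) = 1 := by
    intro j
    obtain ⟨i, hi⟩ := K3_lv_ne j
    have h1 := hH (Pi.single i 1) j j
    rw [if_pos rfl] at h1
    rw [Finset.sum_eq_single (π j)] at h1
    · have h2 : ∑ i', (∑ i, lv (π j).1 i * A i i') * (Pi.single i (1 : ℂ) : Fin 2 → ℂ) i' = α j * lv j.1 i := by
        rw [← hα j i, Finset.sum_eq_single i]
        · rw [Pi.single_eq_same, mul_one]
        · intro i' _ hi'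
          rw [Pi.single_eq_of_ne hi', mul_zero]
        · intro h4
          exact absurd (Finset.mem_univ i) h4
      have h3 : ∑ i', lv j.1 i' * (Pi.single i (1 : ℂ) : Fin 2 → ℂ) i' = lv j.1 i := by
        rw [Finset.sum_eq_single i]
        · rw [Pi.single_eq_same, mul_one]
        · intro i' _ hi'
          rw [Pi.single_eq_of_ne hi', mul_zero]
        · intro h4
          exact absurd (Finset.mem_univ i) h4
      rw [h2, h3, hi, mul_one, mul_assoc] at h1
      exact h1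
    · intro l _ hl
      rw [hCz j l hl, mul_zero]
    · intro h4
      exact absurd (Finset.mem_univ (π j)) h4
  have hα0 : ∀ j, α j ≠ 0 := by
    intro j h0
    have h1 := hlast j
    rw [h0, zero_mul] at h1
    exact zero_ne_one h1
  refine ⟨π, α, ?_, hα0, hα, hCz, hBz, hlast⟩
  intro j j' hjj
  by_contra hne
  have hd := det_lv hb hne
  have h1 : ∀ i, α j * lv j.1 i = α j' * lv j'.1 i := by
    intro i
    rw [← hα j i, ← hα j' i]
    have h3 : π j = π j' := hjj
    rw [h3]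
  have h2 : α j * α j' * (lv j.1 0 * lv j'.1 1 - lv j.1 1 * lv j'.1 0) = 0 := by
    linear_combination α j' * lv j'.1 1 * h1 0 - α j' * lv j'.1 0 * h1 1
  have h3 := (mul_eq_zero.1 h2).resolve_left (mul_ne_zero (hα0 j) (hα0 j'))
  rw [h3] at hd
  norm_num at hd

/-- action on the orthogonal vectors -/
theorem perp_act {A : Matrix (Fin 2) (Fin 2) ℂ} {l m : Fin 2 → ℂ} {α : ℂ} (h : ∀ i', ∑ i, m i * A i i' = α * l i')
    (p : Fin 2) : α * ∑ p', A p p' * perp l p' = A.det * perp m p := by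
  have h0 := h 0
  have h1 := h 1
  rw [Fin.sum_univ_two] at h0 h1
  rw [Matrix.det_fin_two, Fin.sum_univ_two]
  rcases Fin.exists_fin_two.1 ⟨p, rfl⟩ with hp | hp
  · rw [hp]
    simp only [perp, if_true, one_ne_zero, if_false]
    linear_combination -A 0 0 * h1 + A 0 1 * h0
  · rw [hp]
    simp only [perp, if_true, one_ne_zero, if_false]
    linear_combination -A 1 0 * h1 + A 1 1 * h0

/-- the square of the determinant -/
theorem det_sq {b : ℕ} (hb : b = 2 ∨ b = 3) {A : Matrix (Fin 2) (Fin 2) ℂ} {π : Fin b → Fin b} {α : Fin b → ℂ}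
    (hπ : Function.Injective π) (h : ∀ j i', ∑ i, lv (π j).1 i * A i i' = α j * lv j.1 i') {j j' : Fin b}
    (hj : j ≠ j') : A.det ^ 2 = (α j * α j') ^ 2 := by
  have e1 := det_lv hb hj
  have e2 := det_lv hb (fun h0 => hj (hπ h0) : π j ≠ π j')
  have a0 := h j 0
  have a1 := h j 1
  have b0 := h j' 0
  have b1 := h j' 1
  rw [Fin.sum_univ_two] at a0 a1 b0 b1
  have key : (lv (π j).1 0 * lv (π j').1 1 - lv (π j).1 1 * lv (π j').1 0) * A.det =
      α j * α j' * (lv j.1 0 * lv j'.1 1 - lv j.1 1 * lv j'.1 0) := by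
    have e : α j * α j' * (lv j.1 0 * lv j'.1 1 - lv j.1 1 * lv j'.1 0) =
        (α j * lv j.1 0) * (α j' * lv j'.1 1) - (α j * lv j.1 1) * (α j' * lv j'.1 0) := by ring
    rw [e, ← a0, ← a1, ← b0, ← b1, Matrix.det_fin_two]
    ring
  calc A.det ^ 2 = ((lv (π j).1 0 * lv (π j').1 1 - lv (π j).1 1 * lv (π j').1 0) * A.det) ^ 2 := by
        rw [mul_pow, e2, one_mul]
    _ = (α j * α j' * (lv j.1 0 * lv j'.1 1 - lv j.1 1 * lv j'.1 0)) ^ 2 := by rw [key]
    _ = (α j * α j') ^ 2 := by rw [mul_pow, e1, mul_one]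

end Cea.N
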