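import Pool.Agent.Lib.MP_cea156_al.N.A7
import Pool.Agent.Lib.MP_cea156_al.N.A10
import Pool.Agent.Lib.MP_cea156_al.N.E2b
import Pool.Agent.Lib.MP_cea156_al.T01

/-! R3: the triangle quiver `u → v → w → u` with `a`, `b`, `c` arrows and the cubic parts of its potentials. `tenq_RE`: all cycles have length at least 3, so
`cyc (subst φ W) [x, y, z] = ∑ cyc W [x', y', z'] * φ x' [x] * φ y' [y] * φ z' [z]` (reindex the rotations; `wordSub_diag`), and `lin φ x' x ≠ 0` only for arrows of the same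
kind; the blocks of `lin φ` are invertible. `exists_RE_ten`: a linear substitution. -/

set_option autoImplicit false

namespace Cea.N

open Finset

variable {V : Type} [DecidableEq V]

/-- the triangle quiver -/
abbrev Tq (u v w : V) (a b c : ℕ) : Quiv V where
  A := Fin a ⊕ Fin b ⊕ Fin c
  fin := inferInstance
  dec := inferInstance
  s := Sum.elim (fun _ => u) (Sum.elim (fun _ => v) fun _ => w)
  t := Sum.elim (fun _ => v) (Sum.elim (fun _ => w) fun _ => u)

/-- the cubic part -/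
def tenq {u v w : V} {a b c : ℕ} (W : NC (Tq u v w a b c).A ℂ) : Ten a b c :=
  fun i j k => cyc W [Sum.inl i, Sum.inr (Sum.inl j), Sum.inr (Sum.inr k)]

/-- the cubic potential of a tensor -/
def cub (u v w : V) {a b c : ℕ} {R : Type} [CommRing R] (T : Fin a → Fin b → Fin c → R) : NC (Tq u v w a b c).A R :=
  ∑ i, ∑ j, ∑ k, T i j k • ((X (Sum.inl i) : NC (Fin a ⊕ Fin b ⊕ Fin c) R) * X (Sum.inr (Sum.inl j)) *
    X (Sum.inr (Sum.inr k)))

/-- numbering of the vertices -/
def R3_pi (u v : V) (z : V) : ℕ := if z = u then 0 else if z = v then 1 else 2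

theorem R3_arrow {u v w : V} (huv : u ≠ v) (hvw : v ≠ w) (hwu : w ≠ u) {a b c : ℕ} (x : (Tq u v w a b c).A) :
    (R3_pi u v ((Tq u v w a b c).s x) + 1) % 3 = R3_pi u v ((Tq u v w a b c).t x) % 3 := by
  rcases x with i | i | i
  · show (R3_pi u v u + 1) % 3 = R3_pi u v v % 3
    unfold R3_pi
    rw [if_pos rfl, if_neg (Ne.symm huv), if_pos rfl]
  · show (R3_pi u v v + 1) % 3 = R3_pi u v w % 3
    unfold R3_pi
    rw [if_neg (Ne.symm huv), if_pos rfl, if_neg hwu, if_neg (Ne.symm hvw)]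
  · show (R3_pi u v w + 1) % 3 = R3_pi u v u % 3
    unfold R3_pi
    rw [if_pos rfl, if_neg hwu, if_neg (Ne.symm hvw)]

theorem R3_path {u v w : V} (huv : u ≠ v) (hvw : v ≠ w) (hwu : w ≠ u) {a b c : ℕ} :
    ∀ (p : List (Tq u v w a b c).A) (i j : V), (Tq u v w a b c).IsPath i p j →
      (R3_pi u v i + p.length) % 3 = R3_pi u v j % 3
  | [], i, j, h => by
    have e : i = j := h
    rw [e, List.length_nil, Nat.add_zero]
  | x :: p, i, j, h => by
    obtain ⟨h1, h2⟩ := h
    have e := R3_path huv hvw hwu p _ j h2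
    have e1 := R3_arrow huv hvw hwu x
    rw [h1] at e1
    rw [List.length_cons]
    omega

/-- lengths of paths -/
theorem path_len {u v w : V} (huv : u ≠ v) (hvw : v ≠ w) (hwu : w ≠ u) {a b c : ℕ} {x : (Tq u v w a b c).A}
    {p : List (Tq u v w a b c).A} (h : (Tq u v w a b c).IsPath ((Tq u v w a b c).s x) p ((Tq u v w a b c).t x)) :
    p.length % 3 = 1 := by
  have e := R3_path huv hvw hwu p _ _ h
  have e1 := R3_arrow huv hvw hwu x
  omega

theorem cycle_len {u v w : V} (huv : u ≠ v) (hvw : v ≠ w) (hwu : w ≠ u) {a b c : ℕ}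
    {p : List (Tq u v w a b c).A} (h : (Tq u v w a b c).IsCycle p) : p.length % 3 = 0 ∧ 3 ≤ p.length := by
  obtain ⟨h0, i, h1⟩ := h
  have e := R3_path huv hvw hwu p _ _ h1
  have h2 : 0 < p.length := List.length_pos_iff.2 h0
  omega

theorem R3_mon {A R : Type} [CommRing R] [DecidableEq A] (x y z : A) :
    ((X x : NC A R) * X y * X z) = mon [x, y, z] := by
  show (mon [x] : NC A R) * mon [y] * mon [z] = mon [x, y, z]
  rw [mon_mul_mon, mon_mul_mon]
  rfl

theorem R3_cub {u v w : V} {a b c : ℕ} {R : Type} [CommRing R] (T : Fin a → Fin b → Fin c → R)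
    (p : List (Tq u v w a b c).A) : cub u v w T p =
      ∑ i, ∑ j, ∑ k, T i j k * (if p = [Sum.inl i, Sum.inr (Sum.inl j), Sum.inr (Sum.inr k)] then 1 else 0) := by
  unfold cub
  rw [finsetSum_apply]
  refine sum_congr rfl fun i _ => ?_
  rw [finsetSum_apply]
  refine sum_congr rfl fun j _ => ?_
  rw [finsetSum_apply]
  refine sum_congr rfl fun k _ => ?_
  rw [R3_mon]
  rfl

theorem R3_cub_ne {u v w : V} {a b c : ℕ} {R : Type} [CommRing R] {T : Fin a → Fin b → Fin c → R}
    {p : List (Tq u v w a b c).A} (h : cub u v w T p ≠ 0) :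
    ∃ i j k, p = [Sum.inl i, Sum.inr (Sum.inl j), Sum.inr (Sum.inr k)] := by
  rw [R3_cub] at h
  obtain ⟨i, _, h1⟩ := exists_ne_zero_of_sum_ne_zero h
  obtain ⟨j, _, h2⟩ := exists_ne_zero_of_sum_ne_zero h1
  obtain ⟨k, _, h3⟩ := exists_ne_zero_of_sum_ne_zero h2
  refine ⟨i, j, k, ?_⟩
  by_contra hp
  exact h3 (by rw [if_neg hp, mul_zero])

theorem Pot_cub {u v w : V} {a b c : ℕ} {R : Type} [CommRing R] (T : Fin a → Fin b → Fin c → R) :
    Pot (Tq u v w a b c) (cub u v w T) := by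
  intro p hp
  obtain ⟨i, j, k, rfl⟩ := R3_cub_ne hp
  exact ⟨List.cons_ne_nil _ _, u, rfl, rfl, rfl, rfl⟩

theorem R3_val {u v w : V} {a b c : ℕ} {R : Type} [CommRing R] (T : Fin a → Fin b → Fin c → R) (i : Fin a) (j : Fin b)
    (k : Fin c) : cub u v w T [Sum.inl i, Sum.inr (Sum.inl j), Sum.inr (Sum.inr k)] = T i j k := by
  rw [R3_cub, sum_eq_single i, sum_eq_single j, sum_eq_single k, if_pos rfl, mul_one]
  · intro k' _ hk
    rw [if_neg, mul_zero]
    intro e
    simp only [List.cons.injEq, Sum.inl.injEq, Sum.inr.injEq, and_true, true_and] at e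
    exact hk e.symm
  · intro h
    exact absurd (mem_univ k) h
  · intro j' _ hj
    refine sum_eq_zero fun k' _ => ?_
    rw [if_neg, mul_zero]
    intro e
    simp only [List.cons.injEq, Sum.inl.injEq, Sum.inr.injEq, and_true, true_and] at e
    exact hj e.1.symm
  · intro h
    exact absurd (mem_univ j) h
  · intro i' _ hi
    refine sum_eq_zero fun j' _ => sum_eq_zero fun k' _ => ?_
    rw [if_neg, mul_zero]
    intro e
    simp only [List.cons.injEq, Sum.inl.injEq, Sum.inr.injEq, and_true, true_and] at e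
    exact hi e.1.symm
  · intro h
    exact absurd (mem_univ i) h

theorem tenq_cub {u v w : V} {a b c : ℕ} (T : Ten a b c) : tenq (cub u v w T) = T := by
  funext i j k
  show ∑ m ∈ range 3, cub u v w T
    (([Sum.inl i, Sum.inr (Sum.inl j), Sum.inr (Sum.inr k)] : List (Tq u v w a b c).A).rotate m) = T i j k
  rw [sum_range_succ, sum_range_succ, sum_range_succ, sum_range_zero, zero_add]
  have h0 : ([Sum.inl i, Sum.inr (Sum.inl j), Sum.inr (Sum.inr k)] : List (Tq u v w a b c).A).rotate 0 =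
    [Sum.inl i, Sum.inr (Sum.inl j), Sum.inr (Sum.inr k)] := rfl
  have h1 : ([Sum.inl i, Sum.inr (Sum.inl j), Sum.inr (Sum.inr k)] : List (Tq u v w a b c).A).rotate 1 =
    [Sum.inr (Sum.inl j), Sum.inr (Sum.inr k), Sum.inl i] := rfl
  have h2 : ([Sum.inl i, Sum.inr (Sum.inl j), Sum.inr (Sum.inr k)] : List (Tq u v w a b c).A).rotate 2 =
    [Sum.inr (Sum.inr k), Sum.inl i, Sum.inr (Sum.inl j)] := rfl
  have e1 : cub u v w T [Sum.inr (Sum.inl j), Sum.inr (Sum.inr k), Sum.inl i] = 0 := by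
    by_contra h
    obtain ⟨i', j', k', e⟩ := R3_cub_ne h
    simp at e
  have e2 : cub u v w T [Sum.inr (Sum.inr k), Sum.inl i, Sum.inr (Sum.inl j)] = 0 := by
    by_contra h
    obtain ⟨i', j', k', e⟩ := R3_cub_ne h
    simp at e
  rw [h0, h1, h2, e1, e2, add_zero, add_zero, R3_val]

theorem tenq_add {u v w : V} {a b c : ℕ} (W W' : NC (Tq u v w a b c).A ℂ) :
    tenq (W + W') = fun i j k => tenq W i j k + tenq W' i j k := by
  funext i j k
  show ∑ m ∈ range 3, (W + W') (([Sum.inl i, Sum.inr (Sum.inl j), Sum.inr (Sum.inr k)] :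
      List (Tq u v w a b c).A).rotate m) =
    ∑ m ∈ range 3, W (([Sum.inl i, Sum.inr (Sum.inl j), Sum.inr (Sum.inr k)] : List (Tq u v w a b c).A).rotate m) +
    ∑ m ∈ range 3, W' (([Sum.inl i, Sum.inr (Sum.inl j), Sum.inr (Sum.inr k)] : List (Tq u v w a b c).A).rotate m)
  rw [← sum_add_distrib]
  exact sum_congr rfl fun m _ => add_apply W W' _

theorem mapR_cub {u v w : V} {a b c : ℕ} {R R' : Type} [CommRing R] [CommRing R'] (h : R →+* R')
    (T : Fin a → Fin b → Fin c → R) : mapR h (cub u v w T) = cub u v w fun i j k => h (T i j k) := by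
  ext p
  show h (cub u v w T p) = _
  rw [R3_cub, R3_cub, map_sum]
  refine sum_congr rfl fun i _ => ?_
  rw [map_sum]
  refine sum_congr rfl fun j _ => ?_
  rw [map_sum]
  refine sum_congr rfl fun k _ => ?_
  rw [map_mul]
  split_ifs
  · rw [map_one]
  · rw [map_zero]

end Cea.N
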