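import Pool.Agent.Lib.MP_cea156_al.N.A6

/-! U1: the chain rule for cyclic derivatives. `rot b f` is the sum of `f (v b u) • (u θ v)` over all words `u, v`. Proof of `der_subst`:
both sides are additive in `F` and only depend on finitely many coefficients of `F` (the coefficient of a word `w` only on words of
length at most `|w| + 1`), so take `F = mon u` with `|u| ≥ 2`; then `cyc (wordSub φ u) (b :: w)` counts the occurrences of `b`
in the images of the letters of `u` (`cyc_apply_cons`, `wordSub_append`). -/

set_option autoImplicit false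

namespace Cea.N

open Finset

variable {A B C R : Type} [CommRing R]

/-- `∑ f (v b u) • (u θ v)`, where `θ = inr ()` -/
def rot (b : B) (f : NC B R) : NC (B ⊕ Unit) R := fun w =>
  let u := w.takeWhile Sum.isLeft
  let v := (w.dropWhile Sum.isLeft).tail
  if u.length < w.length ∧ v.all Sum.isLeft then f (v.filterMap Sum.getLeft? ++ b :: u.filterMap Sum.getLeft?) else 0

theorem U1_filterMap (u : List B) : (u.map (Sum.inl : B → B ⊕ Unit)).filterMap Sum.getLeft? = u := by
  induction u with
  | nil => rfl
  | cons a u ih =>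
    rw [List.map_cons, List.filterMap_cons]
    simp only [Sum.getLeft?_inl]
    rw [ih]

theorem U1_all (u : List B) : (u.map (Sum.inl : B → B ⊕ Unit)).all Sum.isLeft = true := by
  simp

theorem U1_take (u : List B) (z : List (B ⊕ Unit)) :
    (u.map (Sum.inl : B → B ⊕ Unit) ++ Sum.inr () :: z).takeWhile Sum.isLeft = u.map Sum.inl := by
  induction u with
  | nil => rfl
  | cons a u ih =>
    rw [List.map_cons, List.cons_append, List.takeWhile_cons, ih]
    rfl

theorem U1_drop (u : List B) (z : List (B ⊕ Unit)) :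
    (u.map (Sum.inl : B → B ⊕ Unit) ++ Sum.inr () :: z).dropWhile Sum.isLeft = Sum.inr () :: z := by
  induction u with
  | nil => rfl
  | cons a u ih =>
    rw [List.map_cons, List.cons_append, List.dropWhile_cons, ih]
    rfl

theorem rot_apply (b : B) (f : NC B R) (u v : List B) :
    rot b f (u.map Sum.inl ++ Sum.inr () :: v.map Sum.inl) = f (v ++ b :: u) := by
  unfold rot
  simp only [U1_take, U1_drop, List.tail_cons]
  rw [if_pos, U1_filterMap, U1_filterMap]
  refine ⟨?_, U1_all v⟩
  simp

theorem U1_map (z : List (B ⊕ Unit)) (h : z.all Sum.isLeft = true) :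
    (z.filterMap Sum.getLeft?).map (Sum.inl : B → B ⊕ Unit) = z := by
  induction z with
  | nil => rfl
  | cons a z ih =>
    rw [List.all_cons, Bool.and_eq_true] at h
    rcases a with a | a
    · rw [List.filterMap_cons]
      simp only [Sum.getLeft?_inl, List.map_cons]
      rw [ih h.2]
    · exact absurd h.1 (by simp)

theorem rot_ne_zero {b : B} {f : NC B R} {w : List (B ⊕ Unit)} (h : rot b f w ≠ 0) :
    ∃ u v : List B, w = u.map Sum.inl ++ Sum.inr () :: v.map Sum.inl ∧ f (v ++ b :: u) ≠ 0 := by
  unfold rot at h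
  dsimp only at h
  split_ifs at h with h1
  · obtain ⟨h2, h3⟩ := h1
    refine ⟨(w.takeWhile Sum.isLeft).filterMap Sum.getLeft?, ((w.dropWhile Sum.isLeft).tail).filterMap Sum.getLeft?,
      ?_, h⟩
    rw [U1_map _ h3, U1_map _ (List.all_takeWhile)]
    have e : w.takeWhile Sum.isLeft ++ w.dropWhile Sum.isLeft = w := List.takeWhile_append_dropWhile
    rcases hd : w.dropWhile Sum.isLeft with _ | ⟨a, z⟩
    · exfalso
      rw [hd, List.append_nil] at e
      rw [e] at h2
      exact lt_irrefl _ h2
    · have ha : a.isLeft = false := by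
        have hne : w.dropWhile Sum.isLeft ≠ [] := by rw [hd]; simp
        have := List.head_dropWhile_not Sum.isLeft hne
        simpa [hd] using this
      rcases a with a | a
      · exact absurd ha (by simp)
      · rw [List.tail_cons]
        conv_lhs => rw [← e, hd]
  · exact absurd rfl h

/-- sums over the ways to cut a word in two -/
def U1_D (w : List B) (K : List B → List B → R) : R := ∑ k ∈ range (w.length + 1), K (w.take k) (w.drop k)

theorem U1_D_nil (K : List B → List B → R) : U1_D [] K = K [] [] := by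
  unfold U1_D
  simp

theorem U1_D_cons (a : B) (w : List B) (K : List B → List B → R) :
    U1_D (a :: w) K = K [] (a :: w) + U1_D w fun p q => K (a :: p) q := by
  unfold U1_D
  rw [List.length_cons, sum_range_succ']
  simp only [List.take_zero, List.drop_zero, List.take_succ_cons, List.drop_succ_cons]
  rw [add_comm]

theorem U1_D_add (w : List B) (K L : List B → List B → R) :
    U1_D w (fun p q => K p q + L p q) = U1_D w K + U1_D w L := by
  unfold U1_D
  exact sum_add_distrib

theorem U1_D_mul (w : List B) (K : List B → List B → R) (r : R) :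
    U1_D w (fun p q => r * K p q) = r * U1_D w K := by
  unfold U1_D
  rw [mul_sum]

theorem U1_D_sum {ι : Type} (s : Finset ι) (w : List B) (K : ι → List B → List B → R) :
    U1_D w (fun p q => ∑ i ∈ s, K i p q) = ∑ i ∈ s, U1_D w (K i) := by
  unfold U1_D
  exact sum_comm

theorem U1_D_congr (w : List B) {K L : List B → List B → R} (h : ∀ p q, w = p ++ q → K p q = L p q) :
    U1_D w K = U1_D w L := by
  unfold U1_D
  exact sum_congr rfl fun k _ => h _ _ (List.take_append_drop k w).symm

/-- cutting in three parts -/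
theorem U1_D_assoc (w : List B) : ∀ H : List B → List B → List B → R,
    U1_D w (fun p q => U1_D p fun x y => H x y q) = U1_D w fun x q => U1_D q fun y z => H x y z := by
  induction w with
  | nil => intro H; simp only [U1_D_nil]
  | cons a w ih =>
    intro H
    rw [U1_D_cons, U1_D_nil, U1_D_cons, U1_D_cons]
    simp only [U1_D_cons]
    rw [U1_D_add, ih fun x y q => H (a :: x) y q]
    ring

theorem U1_mul (f g : NC B R) (w : List B) : (f * g) w = U1_D w fun p q => f p * g q := rfl

/-- the product rule for the coefficient of a word with a marked letter -/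
theorem U1_mul_mid (f g : NC B R) (b : B) (q : List B) : ∀ p : List B, (f * g) (p ++ b :: q) =
    (U1_D p fun x y => f x * g (y ++ b :: q)) + U1_D q fun x y => f (p ++ b :: x) * g y := by
  intro p
  rw [U1_mul]
  induction p generalizing f with
  | nil =>
    rw [List.nil_append, U1_D_cons, U1_D_nil]
    rfl
  | cons a p ih =>
    rw [List.cons_append, U1_D_cons, U1_D_cons]
    have := ih (shift a f)
    unfold shift at this
    rw [this, add_assoc]
    rfl

/-- all words `u z v = w` with the coefficient `f (v b u) * G z` -/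
def U1_T (b : B) (f G : NC B R) (w : List B) : R :=
  U1_D w fun q v => U1_D q fun u z => f (v ++ b :: u) * G z

theorem U1_T_eq (b : B) (f G : NC B R) (w : List B) :
    U1_T b f G w = U1_D w fun u q => U1_D q fun z v => f (v ++ b :: u) * G z :=
  U1_D_assoc w fun u z v => f (v ++ b :: u) * G z

theorem U1_T_mul (b : B) (f g G : NC B R) (w : List B) :
    U1_T b (f * g) G w = U1_T b f (g * G) w + U1_T b g (G * f) w := by
  have e1 : U1_T b f (g * G) w =
      U1_D w fun q v => U1_D q fun p z => (U1_D p fun x y => f (v ++ b :: x) * g y) * G z := by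
    unfold U1_T
    apply U1_D_congr
    intro q v _
    have := U1_D_assoc q fun x y z => f (v ++ b :: x) * (g y * G z)
    simp only [U1_D_mul] at this
    simp only [U1_mul]
    rw [← this]
    apply U1_D_congr
    intro p z _
    rw [mul_comm (U1_D p _), ← U1_D_mul]
    apply U1_D_congr
    intro x y _
    ring
  have e2 : U1_T b g (G * f) w =
      U1_D w fun u q => U1_D q fun z v => (U1_D v fun x y => f x * g (y ++ b :: u)) * G z := by
    rw [U1_T_eq]
    apply U1_D_congr
    intro u q _
    have := U1_D_assoc q fun z x y => (G z * f x) * g (y ++ b :: u)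
    have h1 : (U1_D q fun p y => g (y ++ b :: u) * (G * f) p) =
        U1_D q fun p y => U1_D p fun z x => (G z * f x) * g (y ++ b :: u) := by
      apply U1_D_congr
      intro p y _
      rw [U1_mul, ← U1_D_mul]
      apply U1_D_congr
      intro z x _
      ring
    rw [h1, this]
    apply U1_D_congr
    intro z v _
    rw [mul_comm (U1_D v _), ← U1_D_mul]
    apply U1_D_congr
    intro x y _
    ring
  have e3 : U1_T b (f * g) G w =
      (U1_D w fun q v => U1_D q fun p z => (U1_D p fun x y => f (v ++ b :: x) * g y) * G z) +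
      U1_D w fun q v => U1_D q fun u z => (U1_D v fun x y => f x * g (y ++ b :: u)) * G z := by
    rw [← U1_D_add]
    unfold U1_T
    apply U1_D_congr
    intro q v _
    rw [← U1_D_add]
    apply U1_D_congr
    intro u z _
    rw [U1_mul_mid, ← add_mul, add_comm (U1_D v _)]
  rw [e3, e1, e2, U1_D_assoc w fun u z v => (U1_D v fun x y => f x * g (y ++ b :: u)) * G z]

/-- the part of `f` after `v b` -/
def U1_R (v : List B) (b : B) (f : NC B R) : NC B R := fun u => f (v ++ b :: u)

theorem U1_cyc (b : B) (f : NC B R) (w : List B) : cyc f (b :: w) = U1_T b f 1 w := by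
  rw [cyc_apply_cons]
  unfold U1_T
  have h : ∀ q v : List B, (U1_D q fun u z => f (v ++ b :: u) * (1 : NC B R) z) = f (v ++ b :: q) := by
    intro q v
    have h1 : (U1_R v b f * 1) q = U1_R v b f q := by rw [mul_one]
    exact h1
  simp only [h]
  rfl

/-- the term of the word `x` whose first letter contains the marked letter -/
def U1_TT (φ : A → NC B R) (b : B) (w : List B) : List A → NC B R → R
  | [], _ => 0
  | a :: y, H => U1_T b (φ a) (wordSub φ y * H) w

theorem U1_T_one (b : B) (G : NC B R) (w : List B) : U1_T b 1 G w = 0 := by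
  unfold U1_T
  have h : ∀ q v : List B, (U1_D q fun u z => (1 : NC B R) (v ++ b :: u) * G z) = 0 := by
    intro q v
    have h1 : ∀ u : List B, (1 : NC B R) (v ++ b :: u) = 0 := by
      intro u
      rw [one_apply]
      simp
    simp only [h1, zero_mul]
    unfold U1_D
    simp
  simp only [h]
  unfold U1_D
  simp

theorem U1_T_word (φ : A → NC B R) (b : B) (w : List B) (x : List A) : ∀ G : NC B R,
    U1_T b (wordSub φ x) G w = ∑ i ∈ range x.length, U1_TT φ b w (x.drop i) (G * wordSub φ (x.take i)) := by
  induction x with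
  | nil =>
    intro G
    rw [List.length_nil, range_zero, sum_empty]
    exact U1_T_one b G w
  | cons a x ih =>
    intro G
    rw [List.length_cons, sum_range_succ']
    simp only [List.take_zero, List.drop_zero, List.take_succ_cons, List.drop_succ_cons]
    have h1 : wordSub φ (a :: x) = φ a * wordSub φ x := rfl
    have h2 : ∀ i, G * wordSub φ (a :: x.take i) = G * φ a * wordSub φ (x.take i) := fun i => by
      have : wordSub φ (a :: x.take i) = φ a * wordSub φ (x.take i) := rfl
      rw [this, mul_assoc]
    simp only [h2]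
    rw [← ih (G * φ a), h1, U1_T_mul, add_comm]
    congr 1
    show _ = U1_T b (φ a) (wordSub φ x * (G * 1)) w
    rw [mul_one]

theorem U1_cyc_word (φ : A → NC B R) (b : B) (w : List B) (x : List A) :
    cyc (wordSub φ x) (b :: w) = ∑ i ∈ range x.length, U1_TT φ b w (x.rotate i) 1 := by
  rw [U1_cyc, U1_T_word]
  refine sum_congr rfl fun i hi => ?_
  have hi' : i < x.length := mem_range.1 hi
  rw [List.rotate_eq_drop_append_take hi'.le, one_mul]
  rcases hd : x.drop i with _ | ⟨a, y⟩
  · exfalso
    have := congrArg List.length hd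
    rw [List.length_drop, List.length_nil] at this
    omega
  · rw [List.cons_append]
    show U1_T b (φ a) (wordSub φ y * wordSub φ (x.take i)) w =
      U1_T b (φ a) (wordSub φ (y ++ x.take i) * 1) w
    rw [mul_one, wordSub_append]

theorem U1_rot_back (x : List A) {i : ℕ} (hi : i < x.length) :
    (x.rotate i).rotate ((x.length - i) % x.length) = x := by
  rw [List.rotate_rotate]
  have h : (x.rotate (i + (x.length - i) % x.length)) = x.rotate ((i + (x.length - i) % x.length) % x.length) := by
    rw [List.rotate_mod]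
  rw [h, Nat.add_mod_mod, Nat.add_sub_cancel' hi.le, Nat.mod_self, List.rotate_zero]

theorem U1_idx_back {n i : ℕ} (hi : i < n) : (n - (n - i) % n) % n = i := by
  rcases Nat.eq_zero_or_pos i with rfl | h
  · simp
  · rw [Nat.mod_eq_of_lt (show n - i < n by omega), Nat.sub_sub_self hi.le, Nat.mod_eq_of_lt hi]

theorem U1_rot_inv (x : List A) {i : ℕ} (hi : i < x.length) :
    (⟨(x.rotate i).rotate ((x.length - i) % x.length), ((x.rotate i).length - (x.length - i) % x.length) %
      (x.rotate i).length⟩ : (_ : List A) × ℕ) = ⟨x, i⟩ := by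
  rw [U1_rot_back x hi, List.length_rotate, U1_idx_back hi]

theorem U1_rotate_sum [Fintype A] (N : ℕ) (F T : List A → R) :
    ∑ x ∈ wds A N, ∑ i ∈ range x.length, F x * T (x.rotate i) =
      ∑ x ∈ wds A N, ∑ i ∈ range x.length, F (x.rotate i) * T x := by
  rw [sum_sigma', sum_sigma']
  refine sum_nbij' (fun p => ⟨p.1.rotate p.2, (p.1.length - p.2) % p.1.length⟩)
    (fun p => ⟨p.1.rotate p.2, (p.1.length - p.2) % p.1.length⟩) ?_ ?_ ?_ ?_ ?_
  · rintro ⟨x, i⟩ h
    rw [mem_sigma] at h ⊢
    obtain ⟨h1, h2⟩ := h
    have h2' : i < x.length := mem_range.1 h2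
    refine ⟨?_, ?_⟩
    · rw [mem_wds] at h1 ⊢
      rwa [List.length_rotate]
    · rw [mem_range]
      show (x.length - i) % x.length < (x.rotate i).length
      rw [List.length_rotate]
      exact Nat.mod_lt _ (by omega)
  · rintro ⟨x, i⟩ h
    rw [mem_sigma] at h ⊢
    obtain ⟨h1, h2⟩ := h
    have h2' : i < x.length := mem_range.1 h2
    refine ⟨?_, ?_⟩
    · rw [mem_wds] at h1 ⊢
      rwa [List.length_rotate]
    · rw [mem_range]
      show (x.length - i) % x.length < (x.rotate i).length
      rw [List.length_rotate]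
      exact Nat.mod_lt _ (by omega)
  · rintro ⟨x, i⟩ h
    rw [mem_sigma] at h
    have h2' : i < x.length := mem_range.1 h.2
    exact U1_rot_inv x h2'
  · rintro ⟨x, i⟩ h
    rw [mem_sigma] at h
    have h2' : i < x.length := mem_range.1 h.2
    exact U1_rot_inv x h2'
  · rintro ⟨x, i⟩ h
    rw [mem_sigma] at h
    have h2' : i < x.length := mem_range.1 h.2
    show F x * T (x.rotate i) = F ((x.rotate i).rotate ((x.length - i) % x.length)) * T (x.rotate i)
    rw [U1_rot_back x h2']

theorem U1_sum_cons [Fintype A] (N : ℕ) (h : List A → R) (h0 : h [] = 0) :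
    ∑ x ∈ wds A (N + 1), h x = ∑ a, ∑ y ∈ wds A N, h (a :: y) := by
  classical
  rw [← sum_product']
  have e1 : ∑ x ∈ (wds A (N + 1)).filter (fun x => x ≠ []), h x = ∑ x ∈ wds A (N + 1), h x := by
    apply sum_filter_of_ne
    rintro x _ hx rfl
    exact hx h0
  rw [← e1]
  symm
  refine sum_nbij (fun p : A × List A => p.1 :: p.2) ?_ ?_ ?_ ?_
  · rintro ⟨a, y⟩ hp
    rw [mem_product, mem_wds] at hp
    rw [mem_filter, mem_wds]
    refine ⟨?_, by simp⟩
    rw [List.length_cons]
    exact Nat.succ_le_succ hp.2
  · rintro ⟨a, y⟩ _ ⟨a', y'⟩ _ he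
    have he' : a :: y = a' :: y' := he
    rw [List.cons.injEq] at he'
    rw [he'.1, he'.2]
  · rintro x hx
    rw [mem_coe, mem_filter, mem_wds] at hx
    rcases x with _ | ⟨a, y⟩
    · exact absurd rfl hx.2
    · refine ⟨(a, y), ?_, rfl⟩
      rw [mem_coe, mem_product, mem_wds]
      refine ⟨mem_univ _, ?_⟩
      have := hx.1
      rw [List.length_cons] at this
      exact Nat.le_of_succ_le_succ this
  · rintro ⟨a, y⟩ _
    rfl

theorem U1_T_sum (b : B) (f : NC B R) {ι : Type} (s : Finset ι) (c : ι → R) (g : ι → NC B R) {G : NC B R} {w : List B}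
    (hG : ∀ z : List B, z.length ≤ w.length → G z = ∑ i ∈ s, c i * g i z) :
    U1_T b f G w = ∑ i ∈ s, c i * U1_T b f (g i) w := by
  have h1 : U1_T b f G w = U1_D w fun q v => U1_D q fun u z => ∑ i ∈ s, c i * (f (v ++ b :: u) * g i z) := by
    unfold U1_T
    apply U1_D_congr
    intro q v hqv
    apply U1_D_congr
    intro u z huz
    rw [hG z, mul_sum]
    · exact sum_congr rfl fun i _ => by ring
    · rw [hqv, huz, List.length_append, List.length_append]
      omega
  rw [h1]
  simp only [U1_D_sum, U1_D_mul]
  rfl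

theorem U1_wordSub_inl [DecidableEq B] (Ψ : B ⊕ Unit → NC B R) (hΨ : ∀ c, Ψ (Sum.inl c) = X c) (u : List B) :
    wordSub Ψ (u.map Sum.inl) = mon u := by
  induction u with
  | nil => exact mon_nil.symm
  | cons a u ih =>
    have h : wordSub Ψ ((a :: u).map Sum.inl) = Ψ (Sum.inl a) * wordSub Ψ (u.map Sum.inl) := rfl
    rw [h, ih, hΨ]
    exact mon_mul_mon [a] u

theorem U1_inj {u v p t : List B} (h : (u.map (Sum.inl : B → B ⊕ Unit) ++ Sum.inr () :: v.map Sum.inl) =
    p.map Sum.inl ++ Sum.inr () :: t.map Sum.inl) : u = p ∧ v = t := by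
  have h1 := congrArg (List.takeWhile Sum.isLeft) h
  have h2 := congrArg (List.dropWhile Sum.isLeft) h
  rw [U1_take, U1_take] at h1
  rw [U1_drop, U1_drop, List.cons.injEq] at h2
  exact ⟨List.map_injective_iff.2 Sum.inl_injective h1, List.map_injective_iff.2 Sum.inl_injective h2.2⟩

/-- the coefficients of the substitution `θ ↦ G` in `rot b f` -/
theorem U1_subst_rot [Fintype B] [DecidableEq B] (b : B) (f G : NC B R) (hG : G [] = 0) (w : List B) :
    subst (Sum.elim X fun _ => G) (rot b f) w = U1_T b f G w := by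
  classical
  have hz : Z0 (Sum.elim X fun _ => G : B ⊕ Unit → NC B R) := by
    rintro (c | c)
    · show (mon [c] : NC B R) [] = 0
      unfold mon
      simp
    · exact hG
  rw [subst_apply hz _ _ (Nat.le_succ w.length)]
  have key : ∀ y : List (B ⊕ Unit), rot b f y * wordSub (Sum.elim X fun _ => G : B ⊕ Unit → NC B R) y w =
      U1_D w fun u q => U1_D q fun z v =>
        if y = u.map Sum.inl ++ Sum.inr () :: v.map Sum.inl then f (v ++ b :: u) * G z else 0 := by
    intro y
    by_cases hy : rot b f y = 0
    · rw [hy, zero_mul]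
      symm
      have h1 : ∀ u z v : List B, (if y = u.map Sum.inl ++ Sum.inr () :: v.map Sum.inl then
          f (v ++ b :: u) * G z else 0) = 0 := by
        intro u z v
        split_ifs with h
        · rw [h, rot_apply] at hy
          rw [hy, zero_mul]
        · rfl
      simp only [h1]
      unfold U1_D
      simp
    · obtain ⟨u, v, rfl, -⟩ := rot_ne_zero hy
      rw [rot_apply, wordSub_append]
      have h1 : wordSub (Sum.elim X fun _ => G : B ⊕ Unit → NC B R) (Sum.inr () :: v.map Sum.inl) =
          G * wordSub (Sum.elim X fun _ => G : B ⊕ Unit → NC B R) (v.map Sum.inl) := rfl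
      rw [h1, U1_wordSub_inl _ (fun c => rfl), U1_wordSub_inl _ (fun c => rfl), U1_mul, ← U1_D_mul]
      apply U1_D_congr
      intro p q _
      rw [U1_mul, ← U1_D_mul, ← U1_D_mul]
      apply U1_D_congr
      intro z t _
      unfold mon
      by_cases h2 : p = u
      · by_cases h3 : t = v
        · rw [if_pos h2, if_pos h3, if_pos (by rw [h2, h3]), h2, h3]
          ring
        · rw [if_neg h3, if_neg (fun h => h3 (U1_inj h).2.symm)]
          ring
      · rw [if_neg h2, if_neg (fun h => h2 (U1_inj h).1.symm)]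
        ring
  simp only [key]
  rw [← U1_D_sum]
  rw [U1_T_eq]
  apply U1_D_congr
  intro u q hw
  rw [← U1_D_sum]
  apply U1_D_congr
  intro z v hq
  rw [sum_ite_eq' , if_pos]
  rw [mem_wds, hw, hq]
  simp only [List.length_append, List.length_map, List.length_cons]
  omega

theorem der_subst [Fintype A] [Fintype B] [DecidableEq B] {φ : A → NC B R} (hφ : Z0 φ) {F : NC A R} (hF : Len 2 F)
    (b : B) :
    der b (subst φ F) = ∑ a, subst (Sum.elim X fun _ => subst φ (der a F)) (rot b (φ a)) := by
  ext w
  rw [finsetSum_apply]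
  have hG : ∀ a : A, (subst φ (der a F)) [] = 0 := by
    intro a
    rw [subst_nil, der_nil]
    by_contra h
    have := hF [a] h
    simp at this
  have e1 : ∀ a : A, subst (Sum.elim X fun _ => subst φ (der a F)) (rot b (φ a)) w =
      ∑ y ∈ wds A (w.length), cyc F (a :: y) * U1_TT φ b w (a :: y) 1 := by
    intro a
    rw [U1_subst_rot b (φ a) _ (hG a)]
    rw [U1_T_sum b (φ a) (wds A w.length) (fun y => cyc F (a :: y)) (fun y => wordSub φ y)]
    · refine sum_congr rfl fun y _ => ?_
      have h2 : U1_TT φ b w (a :: y) 1 = U1_T b (φ a) (wordSub φ y * 1) w := rfl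
      rw [h2, mul_one]
    · intro z hz
      rw [subst_apply hφ _ _ hz]
      rfl
  simp only [e1]
  rw [← U1_sum_cons w.length (fun x => cyc F x * U1_TT φ b w x 1)]
  · have e2 : ∀ x : List A, cyc F x * U1_TT φ b w x 1 =
        ∑ i ∈ range x.length, F (x.rotate i) * U1_TT φ b w x 1 := by
      intro x
      rw [← sum_mul]
      rfl
    simp only [e2]
    rw [← U1_rotate_sum (w.length + 1) F (fun x => U1_TT φ b w x 1)]
    have e3 : der b (subst φ F) w = ∑ x ∈ wds A (w.length + 1), F x * cyc (wordSub φ x) (b :: w) := by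
      show cyc (subst φ F) (b :: w) = _
      unfold cyc
      have h3 : ∀ k, subst φ F ((b :: w).rotate k) =
          ∑ x ∈ wds A (w.length + 1), F x * wordSub φ x ((b :: w).rotate k) := by
        intro k
        apply subst_apply hφ
        rw [List.length_rotate, List.length_cons]
      simp only [h3]
      rw [sum_comm]
      simp only [mul_sum]
    rw [e3]
    refine sum_congr rfl fun x _ => ?_
    rw [U1_cyc_word, mul_sum]
  · show cyc F [] * _ = 0
    rw [cyc_nil, zero_mul]

theorem U1_path_append {V : Type} [DecidableEq V] (Q : Quiv V) (u : List Q.A) : ∀ (v : List Q.A) (i j : V),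
    Q.IsPath i (u ++ v) j ↔ ∃ l, Q.IsPath i u l ∧ Q.IsPath l v j := by
  induction u with
  | nil =>
    intro v i j
    constructor
    · intro h
      exact ⟨i, rfl, h⟩
    · rintro ⟨l, h1, h2⟩
      have h1' : i = l := h1
      rw [h1']
      exact h2
  | cons a u ih =>
    intro v i j
    constructor
    · rintro ⟨h1, h2⟩
      obtain ⟨l, h3, h4⟩ := (ih v _ _).1 h2
      exact ⟨l, ⟨h1, h3⟩, h4⟩
    · rintro ⟨l, ⟨h1, h3⟩, h4⟩
      exact ⟨h1, (ih v _ _).2 ⟨l, h3, h4⟩⟩

theorem U1_path_rotate {V : Type} [DecidableEq V] (Q : Quiv V) (w : List Q.A) (n : ℕ) (hn : n ≤ w.length)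
    (h : Q.IsCycle (w.rotate n)) : Q.IsCycle w := by
  obtain ⟨h0, i, hi⟩ := h
  refine ⟨fun hw => h0 (by rw [hw]; rfl), ?_⟩
  rw [List.rotate_eq_drop_append_take hn, U1_path_append] at hi
  obtain ⟨l, h1, h2⟩ := hi
  refine ⟨l, ?_⟩
  have := (U1_path_append Q (w.take n) (w.drop n) l l).2 ⟨i, h2, h1⟩
  rwa [List.take_append_drop] at this

/-- the derivative of a potential is supported on paths -/
theorem Sup_der {V : Type} [DecidableEq V] {Q : Quiv V} {W : NC Q.A R} (hW : ∀ w, W w ≠ 0 → Q.IsCycle w) (a : Q.A) :
    ∀ w, der a W w ≠ 0 → Q.IsPath (Q.t a) w (Q.s a) := by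
  intro w hw
  have h1 : cyc W (a :: w) ≠ 0 := hw
  unfold cyc at h1
  obtain ⟨k, hk, hk'⟩ := exists_ne_zero_of_sum_ne_zero h1
  obtain ⟨-, i, hi⟩ := U1_path_rotate Q (a :: w) k (mem_range.1 hk).le (hW _ hk')
  have h2 : Q.s a = i := hi.1
  rw [h2]
  exact hi.2

theorem len_der {n : ℕ} {F : NC A R} (hF : Len (n + 1) F) (a : A) : Len n (der a F) := by
  intro w hw
  have h1 : cyc F (a :: w) ≠ 0 := hw
  have := len_cyc hF (a :: w) h1
  rw [List.length_cons] at this
  exact Nat.le_of_succ_le_succ this

end Cea.N
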