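import Pool.Agent.Lib.MP_cea156_al.N.K3
import Pool.Agent.Lib.MP_cea156_al.N.R3
import Pool.Agent.Lib.MP_cea156_al.N.U1

/-! K4: the functionals `tau j j'` on the part of degree six. `tau_kill`: for a word `x` of length 6, `cyc (h y * der y W) x` is the sum over the rotations of `x` of
`h y (first four letters) * cyc W (y :: last two letters)`; the last two letters are `a_p b_j` (with `y = c_k`, value `Gb b p j k`), `b_j c_j'` (with `y = a_i`, value
`Gb b i j j' = 0`), `c_j' a_q` (with `y = b_m`, value `Gb b q m j'`), etc.; `∑_p perp (lv j) p * lv j p = 0`. -/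

set_option autoImplicit false

namespace Cea.N

open Finset

variable {V : Type} [DecidableEq V] {u v w : V} {b : ℕ}

def tau (j j' : Fin b) (W : NC (Tq u v w 2 b b).A ℂ) : ℂ :=
  ∑ p : Fin 2, ∑ q : Fin 2, perp (lv j.1) p * perp (lv j'.1) q *
    cyc W [Sum.inl p, Sum.inr (Sum.inl j), Sum.inr (Sum.inr j'), Sum.inl q, Sum.inr (Sum.inl j'), Sum.inr (Sum.inr j)]

theorem tau_congr {j j' : Fin b} {W W' : NC (Tq u v w 2 b b).A ℂ} (h : cyc W = cyc W') : tau j j' W = tau j j' W' := by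
  unfold tau
  rw [h]

theorem tau_add (j j' : Fin b) (W W' : NC (Tq u v w 2 b b).A ℂ) : tau j j' (W + W') = tau j j' W + tau j j' W' := by
  unfold tau
  simp only [cyc_add, add_apply, mul_add, sum_add_distrib]

theorem tau_smul (j j' : Fin b) (r : ℂ) (W : NC (Tq u v w 2 b b).A ℂ) : tau j j' (r • W) = r * tau j j' W := by
  unfold tau
  simp only [cyc_smul, smul_apply, mul_sum]
  refine sum_congr rfl fun p _ => sum_congr rfl fun q _ => ?_
  ring

/-- long words do not contribute -/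
theorem tau_long {j j' : Fin b} {W : NC (Tq u v w 2 b b).A ℂ} (h : Len 7 W) : tau j j' W = 0 := by
  unfold tau
  refine sum_eq_zero fun p _ => sum_eq_zero fun q _ => ?_
  have h1 : cyc W [Sum.inl p, Sum.inr (Sum.inl j), Sum.inr (Sum.inr j'), Sum.inl q, Sum.inr (Sum.inl j'),
      Sum.inr (Sum.inr j)] = 0 := by
    by_contra hne
    have h2 := len_cyc h _ hne
    simp only [List.length_cons, List.length_nil] at h2
    omega
  rw [h1, mul_zero]

theorem K4_zero {W : NC (Tq u v w 2 b b).A ℂ} (hW : Pot _ W) {l : List (Tq u v w 2 b b).A}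
    (hl : ¬ (Tq u v w 2 b b).IsCycle l) : cyc W l = 0 := by
  by_contra h
  exact hl (Pot_cyc hW l h)

theorem K4_term (huv : u ≠ v) (hvw : v ≠ w) (hwu : w ≠ u) {W : NC (Tq u v w 2 b b).A ℂ} (hW : Pot _ W)
    {h : (Tq u v w 2 b b).A → NC (Tq u v w 2 b b).A ℂ} (hL : ∀ y, Len 4 (h y))
    (z0 z1 z2 z3 z4 z5 : (Tq u v w 2 b b).A) :
    (∑ y, h y * der y W) [z0, z1, z2, z3, z4, z5] = ∑ y, h y [z0, z1, z2, z3] * cyc W [y, z4, z5] := by
  rw [finsetSum_apply]
  refine sum_congr rfl fun y _ => ?_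
  have h1 : ∀ l : List (Tq u v w 2 b b).A, l.length < 4 → h y l = 0 := by
    intro l hl
    by_contra hne
    exact absurd (hL y l hne) (by omega)
  have h2 : ∀ l : List (Tq u v w 2 b b).A, l.length % 3 ≠ 0 → cyc W l = 0 := by
    intro l hl
    exact K4_zero hW fun hc => hl (cycle_len huv hvw hwu hc).1
  rw [mul_apply]
  have h3 : (List.length [z0, z1, z2, z3, z4, z5]) + 1 = 7 := rfl
  rw [h3]
  simp only [sum_range_succ, sum_range_zero, zero_add]
  simp only [List.take_zero, List.take_succ_cons, List.drop_zero, List.drop_succ_cons]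
  have e5 : der y W [z5] = 0 := h2 [y, z5] (by simp)
  have e6 : der y W [] = 0 := h2 [y] (by simp)
  rw [h1 [] (by simp), h1 [z0] (by simp), h1 [z0, z1] (by simp), h1 [z0, z1, z2] (by simp), e5, e6]
  simp only [zero_mul, mul_zero, zero_add, add_zero]
  rfl

section values

variable (huv : u ≠ v) (hvw : v ≠ w) (hwu : w ≠ u) {W : NC (Tq u v w 2 b b).A ℂ} (hW : Pot _ W)
  (hG : tenq W = Gb b) (g : (Tq u v w 2 b b).A → ℂ)

include huv hvw hwu hW hG

theorem K4_bc (j j' : Fin b) (hj : j ≠ j') :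
    ∑ y, g y * cyc W [y, Sum.inr (Sum.inl j), Sum.inr (Sum.inr j')] = 0 := by
  refine sum_eq_zero fun y _ => ?_
  rcases y with i | m | k
  · have h1 : cyc W [Sum.inl i, Sum.inr (Sum.inl j), Sum.inr (Sum.inr j')] = Gb b i j j' := by
      rw [← hG]
      rfl
    rw [h1]
    unfold Gb
    rw [if_neg hj, mul_zero]
  · rw [K4_zero hW, mul_zero]
    rintro ⟨-, i, h1, h2, -⟩
    exact hvw h2
  · rw [K4_zero hW, mul_zero]
    rintro ⟨-, i, h1, h2, -⟩
    exact huv h2.symm

theorem K4_ca (k : Fin b) (p : Fin 2) :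
    ∑ y, g y * cyc W [y, Sum.inr (Sum.inr k), Sum.inl p] = g (Sum.inr (Sum.inl k)) * lv k.1 p := by
  rw [sum_eq_single (Sum.inr (Sum.inl k) : (Tq u v w 2 b b).A)]
  · have h0 : cyc W [Sum.inr (Sum.inl k), Sum.inr (Sum.inr k), Sum.inl p] = Gb b p k k := by
      have h1 := cyc_rotate W [Sum.inl p, Sum.inr (Sum.inl k), Sum.inr (Sum.inr k)] 1
      have h2 : ([Sum.inl p, Sum.inr (Sum.inl k), Sum.inr (Sum.inr k)] : List (Tq u v w 2 b b).A).rotate 1 =
        [Sum.inr (Sum.inl k), Sum.inr (Sum.inr k), Sum.inl p] := rfl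
      rw [h2] at h1
      rw [h1, ← hG]
      rfl
    rw [h0]
    unfold Gb
    rw [if_pos rfl]
  · intro y _ hy
    rcases y with i | m | k'
    · rw [K4_zero hW, mul_zero]
      rintro ⟨-, i, h1, h2, -⟩
      exact hvw h2.symm
    · have h0 : cyc W [Sum.inr (Sum.inl m), Sum.inr (Sum.inr k), Sum.inl p] = Gb b p m k := by
        have h1 := cyc_rotate W [Sum.inl p, Sum.inr (Sum.inl m), Sum.inr (Sum.inr k)] 1
        have h2 : ([Sum.inl p, Sum.inr (Sum.inl m), Sum.inr (Sum.inr k)] : List (Tq u v w 2 b b).A).rotate 1 =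
          [Sum.inr (Sum.inl m), Sum.inr (Sum.inr k), Sum.inl p] := rfl
        rw [h2] at h1
        rw [h1, ← hG]
        rfl
      rw [h0]
      unfold Gb
      rw [if_neg, mul_zero]
      intro hm
      exact hy (by rw [hm])
    · rw [K4_zero hW, mul_zero]
      rintro ⟨-, i, h1, h2, -⟩
      exact hwu h2
  · intro h
    exact absurd (mem_univ _) h

theorem K4_ab (p : Fin 2) (j : Fin b) :
    ∑ y, g y * cyc W [y, Sum.inl p, Sum.inr (Sum.inl j)] = g (Sum.inr (Sum.inr j)) * lv j.1 p := by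
  rw [sum_eq_single (Sum.inr (Sum.inr j) : (Tq u v w 2 b b).A)]
  · have h0 : cyc W [Sum.inr (Sum.inr j), Sum.inl p, Sum.inr (Sum.inl j)] = Gb b p j j := by
      have h1 := cyc_rotate W [Sum.inl p, Sum.inr (Sum.inl j), Sum.inr (Sum.inr j)] 2
      have h2 : ([Sum.inl p, Sum.inr (Sum.inl j), Sum.inr (Sum.inr j)] : List (Tq u v w 2 b b).A).rotate 2 =
        [Sum.inr (Sum.inr j), Sum.inl p, Sum.inr (Sum.inl j)] := rfl
      rw [h2] at h1
      rw [h1, ← hG]
      rfl
    rw [h0]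
    unfold Gb
    rw [if_pos rfl]
  · intro y _ hy
    rcases y with i | m | k
    · rw [K4_zero hW, mul_zero]
      rintro ⟨-, i, h1, h2, -⟩
      exact huv h2
    · rw [K4_zero hW, mul_zero]
      rintro ⟨-, i, h1, h2, -⟩
      exact hwu h2.symm
    · have h0 : cyc W [Sum.inr (Sum.inr k), Sum.inl p, Sum.inr (Sum.inl j)] = Gb b p j k := by
        have h1 := cyc_rotate W [Sum.inl p, Sum.inr (Sum.inl j), Sum.inr (Sum.inr k)] 2
        have h2 : ([Sum.inl p, Sum.inr (Sum.inl j), Sum.inr (Sum.inr k)] : List (Tq u v w 2 b b).A).rotate 2 =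
          [Sum.inr (Sum.inr k), Sum.inl p, Sum.inr (Sum.inl j)] := rfl
        rw [h2] at h1
        rw [h1, ← hG]
        rfl
      rw [h0]
      unfold Gb
      rw [if_neg, mul_zero]
      intro hm
      exact hy (by rw [hm])
  · intro h
    exact absurd (mem_univ _) h

end values

theorem tau_kill (huv : u ≠ v) (hvw : v ≠ w) (hwu : w ≠ u) {W : NC (Tq u v w 2 b b).A ℂ} (hW : Pot _ W)
    (hG : tenq W = Gb b) {h : (Tq u v w 2 b b).A → NC (Tq u v w 2 b b).A ℂ} (hL : ∀ y, Len 4 (h y)) {j j' : Fin b}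
    (hj : j ≠ j') : tau j j' (∑ y, h y * der y W) = 0 := by
  set F := ∑ y, h y * der y W with hF
  have key : ∀ p q : Fin 2, cyc F [Sum.inl p, Sum.inr (Sum.inl j), Sum.inr (Sum.inr j'), Sum.inl q,
      Sum.inr (Sum.inl j'), Sum.inr (Sum.inr j)] =
      h (Sum.inr (Sum.inl j)) [Sum.inr (Sum.inl j), Sum.inr (Sum.inr j'), Sum.inl q, Sum.inr (Sum.inl j')] *
        lv j.1 p +
      h (Sum.inr (Sum.inr j)) [Sum.inr (Sum.inr j'), Sum.inl q, Sum.inr (Sum.inl j'), Sum.inr (Sum.inr j)] *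
        lv j.1 p +
      h (Sum.inr (Sum.inl j')) [Sum.inr (Sum.inl j'), Sum.inr (Sum.inr j), Sum.inl p, Sum.inr (Sum.inl j)] *
        lv j'.1 q +
      h (Sum.inr (Sum.inr j')) [Sum.inr (Sum.inr j), Sum.inl p, Sum.inr (Sum.inl j), Sum.inr (Sum.inr j')] *
        lv j'.1 q := by
    intro p q
    have e : cyc F [Sum.inl p, Sum.inr (Sum.inl j), Sum.inr (Sum.inr j'), Sum.inl q,
        Sum.inr (Sum.inl j'), Sum.inr (Sum.inr j)] =
        F [Sum.inl p, Sum.inr (Sum.inl j), Sum.inr (Sum.inr j'), Sum.inl q, Sum.inr (Sum.inl j'),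
          Sum.inr (Sum.inr j)] +
        F [Sum.inr (Sum.inl j), Sum.inr (Sum.inr j'), Sum.inl q, Sum.inr (Sum.inl j'), Sum.inr (Sum.inr j),
          Sum.inl p] +
        F [Sum.inr (Sum.inr j'), Sum.inl q, Sum.inr (Sum.inl j'), Sum.inr (Sum.inr j), Sum.inl p,
          Sum.inr (Sum.inl j)] +
        F [Sum.inl q, Sum.inr (Sum.inl j'), Sum.inr (Sum.inr j), Sum.inl p, Sum.inr (Sum.inl j),
          Sum.inr (Sum.inr j')] +
        F [Sum.inr (Sum.inl j'), Sum.inr (Sum.inr j), Sum.inl p, Sum.inr (Sum.inl j), Sum.inr (Sum.inr j'),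
          Sum.inl q] +
        F [Sum.inr (Sum.inr j), Sum.inl p, Sum.inr (Sum.inl j), Sum.inr (Sum.inr j'), Sum.inl q,
          Sum.inr (Sum.inl j')] := by
      show ∑ k ∈ range 6, F (([Sum.inl p, Sum.inr (Sum.inl j), Sum.inr (Sum.inr j'), Sum.inl q,
        Sum.inr (Sum.inl j'), Sum.inr (Sum.inr j)] : List (Tq u v w 2 b b).A).rotate k) = _
      simp only [sum_range_succ, sum_range_zero, zero_add]
      rfl
    rw [e, hF]
    rw [K4_term huv hvw hwu hW hL, K4_term huv hvw hwu hW hL, K4_term huv hvw hwu hW hL,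
      K4_term huv hvw hwu hW hL, K4_term huv hvw hwu hW hL, K4_term huv hvw hwu hW hL]
    rw [K4_bc huv hvw hwu hW hG _ j' j hj.symm, K4_ca huv hvw hwu hW hG, K4_ab huv hvw hwu hW hG,
      K4_bc huv hvw hwu hW hG _ j j' hj, K4_ca huv hvw hwu hW hG, K4_ab huv hvw hwu hW hG]
    ring
  unfold tau
  simp only [key, Fin.sum_univ_two, perp]
  simp only [if_true, one_ne_zero, if_false]
  ring

end Cea.N
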