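import Pool.Agent.Lib.MP_cea156_al.N.K4
import Pool.Agent.Lib.MP_cea156_al.N.E2b
import Pool.Agent.Lib.MP_cea156_al.N.A6

/-! K5: `tau` under linear substitutions which preserve the normal form. For a word `x` of length 6, `cyc (subst (linS L) W) x = ∑_y cyc W y * ∏ L (y i) (x i)` over the words `y` of length 6
(a linear substitution preserves the length). With `stab_struct`: only `y = [a_p', b_{π j}, c_{π j'}, a_q', b_{π j'}, c_{π j}]` contribute, and by `perp_act`
`tau j j' (subst (linS L) W) = B (π j) j * C (π j) j * B (π j') j' * C (π j') j' * (det A ^ 2 / (α j * α j')) * tau (π j) (π j') W`; `det_sq`. -/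

set_option autoImplicit false

namespace Cea.N

open Finset

variable {V : Type} [DecidableEq V] {u v w : V} {b : ℕ}

/-- a linear substitution preserves the length -/
theorem K5_len {A B : Type} [Fintype A] [DecidableEq A] [Fintype B] [DecidableEq B] (L : Matrix A B ℂ) :
    ∀ (y : List A) (x : List B), wordSub (linS L) y x ≠ 0 → x.length = y.length := by
  intro y
  induction y with
  | nil =>
    intro x h
    cases x with
    | nil => rfl
    | cons c x => exact absurd (one_cons c x) h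
  | cons a y ih =>
    intro x h
    have e : wordSub (linS L) (a :: y) x =
        ∑ k ∈ range (x.length + 1), linS L a (x.take k) * wordSub (linS L) y (x.drop k) := rfl
    rw [e] at h
    obtain ⟨k, _, hk⟩ := exists_ne_zero_of_sum_ne_zero h
    obtain ⟨c, hc, _⟩ := linS_ne_zero (left_ne_zero_of_mul hk)
    have h2 := ih _ (right_ne_zero_of_mul hk)
    have h3 := congrArg List.length hc
    have h4 : (x.take k).length + (x.drop k).length = x.length := by
      rw [← List.length_append, List.take_append_drop]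
    rw [List.length_singleton] at h3
    rw [List.length_cons]
    omega

/-- the coefficients of the image of a word -/
theorem K5_word {A B : Type} [Fintype A] [DecidableEq A] [Fintype B] [DecidableEq B] (L : Matrix A B ℂ) :
    ∀ (y : List A) (x : List B), x.length = y.length →
      wordSub (linS L) y x = (List.zipWith (fun a c => L a c) y x).prod := by
  intro y
  induction y with
  | nil =>
    intro x h
    rw [List.length_nil, List.length_eq_zero_iff] at h
    subst h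
    rfl
  | cons a y ih =>
    intro x h
    cases x with
    | nil => simp at h
    | cons c x =>
      rw [List.length_cons, List.length_cons] at h
      have h' : x.length = y.length := by omega
      rw [A1_diag_cons (Z0_linS L) a c h'.le, E2b_single, ih x h', List.zipWith_cons_cons,
        List.prod_cons]

theorem K5_subst {A B : Type} [Fintype A] [DecidableEq A] [Fintype B] [DecidableEq B] (L : Matrix A B ℂ)
    (W : NC A ℂ) (x : List B) :
    subst (linS L) W x =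
      ∑ y ∈ A6_L A x.length, W y * (List.zipWith (fun a c => L a c) y x).prod := by
  have e : subst (linS L) W x = ∑ m ∈ range (x.length + 1), ∑ y : Fin m → A,
      W (List.ofFn y) * wordSub (linS L) (List.ofFn y) x := rfl
  rw [e, sum_eq_single x.length]
  · rw [A6_sum_L (fun y => W y * wordSub (linS L) y x)]
    refine sum_congr rfl fun y hy => ?_
    rw [A6_mem_L] at hy
    rw [K5_word L y x hy.symm]
  · intro m _ hm
    refine sum_eq_zero fun y _ => ?_
    by_contra h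
    have := K5_len L _ _ (right_ne_zero_of_mul h)
    rw [List.length_ofFn] at this
    exact hm this.symm
  · intro h
    exact absurd (mem_range.2 (Nat.lt_succ_self _)) h

theorem K5_cyc {A B : Type} [Fintype A] [DecidableEq A] [Fintype B] [DecidableEq B] (L : Matrix A B ℂ)
    (W : NC A ℂ) (x : List B) (hx : 1 ≤ x.length) :
    cyc (subst (linS L) W) x =
      ∑ y ∈ A6_L A x.length, cyc W y * (List.zipWith (fun a c => L a c) y x).prod := by
  rw [A6_cyc_apply]
  have h1 : ∀ k ∈ range x.length, subst (linS L) W (x.rotate k) =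
      ∑ y ∈ A6_L A x.length, W (y.rotate k) * (List.zipWith (fun a c => L a c) y x).prod := by
    intro k _
    rw [K5_subst, List.length_rotate,
      ← A6_sum_rot hx (fun y => W y * (List.zipWith (fun a c => L a c) y (x.rotate k)).prod) k]
    refine sum_congr rfl fun y hy => ?_
    rw [A6_mem_L] at hy
    show W (y.rotate k) * (List.zipWith (fun a c => L a c) (y.rotate k) (x.rotate k)).prod = _
    rw [← List.zipWith_rotate_distrib _ _ _ _ hy, (List.rotate_perm _ k).prod_eq]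
  rw [sum_congr rfl h1, sum_comm]
  refine sum_congr rfl fun y hy => ?_
  rw [A6_mem_L] at hy
  rw [← sum_mul, A6_cyc_apply, hy]

theorem K5_cons {A : Type} [Fintype A] (m : ℕ) (F : List A → ℂ) :
    ∑ y ∈ A6_L A (m + 1), F y = ∑ a, ∑ y ∈ A6_L A m, F (a :: y) := by
  rw [← sum_product']
  symm
  refine sum_nbij (fun z => z.1 :: z.2) ?_ ?_ ?_ ?_
  · intro z hz
    rw [mem_product, A6_mem_L] at hz
    rw [A6_mem_L, List.length_cons, hz.2]
  · intro z _ z' _ h
    obtain ⟨h1, h2⟩ := List.cons_eq_cons.1 h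
    exact Prod.ext h1 h2
  · intro y hy
    rw [mem_coe, A6_mem_L] at hy
    cases y with
    | nil => simp at hy
    | cons a y =>
      refine ⟨(a, y), ?_, rfl⟩
      rw [mem_coe, mem_product, A6_mem_L]
      rw [List.length_cons] at hy
      have hy' : y.length = m := by omega
      exact ⟨mem_univ _, hy'⟩
  · intro z _
    rfl

theorem K5_nil {A : Type} [Fintype A] (F : List A → ℂ) : ∑ y ∈ A6_L A 0, F y = F [] := by
  refine sum_eq_single_of_mem [] ?_ ?_
  · rw [A6_mem_L]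
    rfl
  · intro y hy hne
    rw [A6_mem_L, List.length_eq_zero_iff] at hy
    exact absurd hy hne

theorem cyc_subst_linS_six {A B : Type} [Fintype A] [DecidableEq A] [Fintype B] [DecidableEq B] (L : Matrix A B ℂ)
    (W : NC A ℂ) (x₁ x₂ x₃ x₄ x₅ x₆ : B) :
    cyc (subst (linS L) W) [x₁, x₂, x₃, x₄, x₅, x₆] =
      ∑ y₁, ∑ y₂, ∑ y₃, ∑ y₄, ∑ y₅, ∑ y₆, cyc W [y₁, y₂, y₃, y₄, y₅, y₆] *
        (L y₁ x₁ * L y₂ x₂ * L y₃ x₃ * L y₄ x₄ * L y₅ x₅ * L y₆ x₆) := by
  rw [K5_cyc L W _ (by simp)]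
  have e : ([x₁, x₂, x₃, x₄, x₅, x₆] : List B).length = 5 + 1 := rfl
  rw [e, K5_cons 5]
  refine sum_congr rfl fun y₁ _ => ?_
  rw [K5_cons 4]
  refine sum_congr rfl fun y₂ _ => ?_
  rw [K5_cons 3]
  refine sum_congr rfl fun y₃ _ => ?_
  rw [K5_cons 2]
  refine sum_congr rfl fun y₄ _ => ?_
  rw [K5_cons 1]
  refine sum_congr rfl fun y₅ _ => ?_
  rw [K5_cons 0]
  refine sum_congr rfl fun y₆ _ => ?_
  rw [K5_nil]
  simp only [List.zipWith_cons_cons, List.zipWith_nil_left, List.prod_cons, List.prod_nil]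
  ring

/-- sums over the three kinds of arrows against a column of `L` -/
theorem K5_a {b : ℕ} {L : Matrix (Fin 2 ⊕ Fin b ⊕ Fin b) (Fin 2 ⊕ Fin b ⊕ Fin b) ℂ} {A : Matrix (Fin 2) (Fin 2) ℂ}
    (hA : ∀ i i', L (Sum.inl i) (Sum.inl i') = A i i') (h : ∀ y i, L (Sum.inr y) (Sum.inl i) = 0)
    (f : Fin 2 ⊕ Fin b ⊕ Fin b → ℂ) (p : Fin 2) :
    ∑ y, f y * L y (Sum.inl p) = ∑ p', f (Sum.inl p') * A p' p := by
  rw [Fintype.sum_sum_type]
  have h0 : ∑ y : Fin b ⊕ Fin b, f (Sum.inr y) * L (Sum.inr y) (Sum.inl p) = 0 :=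
    sum_eq_zero fun y _ => by rw [h, mul_zero]
  rw [h0, add_zero]
  exact sum_congr rfl fun p' _ => by rw [hA]

theorem K5_b {b : ℕ} {L : Matrix (Fin 2 ⊕ Fin b ⊕ Fin b) (Fin 2 ⊕ Fin b ⊕ Fin b) ℂ} {B : Matrix (Fin b) (Fin b) ℂ}
    (hB : ∀ i i', L (Sum.inr (Sum.inl i)) (Sum.inr (Sum.inl i')) = B i i')
    (h : ∀ y i, L (Sum.inl y) (Sum.inr (Sum.inl i)) = 0)
    (h' : ∀ y i, L (Sum.inr (Sum.inr y)) (Sum.inr (Sum.inl i)) = 0)
    {π : Fin b → Fin b} (h3 : ∀ j k, k ≠ π j → B k j = 0)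
    (f : Fin 2 ⊕ Fin b ⊕ Fin b → ℂ) (j : Fin b) :
    ∑ y, f y * L y (Sum.inr (Sum.inl j)) = f (Sum.inr (Sum.inl (π j))) * B (π j) j := by
  rw [Fintype.sum_sum_type, Fintype.sum_sum_type]
  have h0 : ∑ y : Fin 2, f (Sum.inl y) * L (Sum.inl y) (Sum.inr (Sum.inl j)) = 0 :=
    sum_eq_zero fun y _ => by rw [h, mul_zero]
  have h1 : ∑ y : Fin b, f (Sum.inr (Sum.inr y)) * L (Sum.inr (Sum.inr y)) (Sum.inr (Sum.inl j)) = 0 :=
    sum_eq_zero fun y _ => by rw [h', mul_zero]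
  rw [h0, h1, add_zero, zero_add, sum_eq_single (π j)]
  · rw [hB]
  · intro k _ hk
    rw [hB, h3 j k hk, mul_zero]
  · intro hn
    exact absurd (mem_univ _) hn

theorem K5_c {b : ℕ} {L : Matrix (Fin 2 ⊕ Fin b ⊕ Fin b) (Fin 2 ⊕ Fin b ⊕ Fin b) ℂ} {C : Matrix (Fin b) (Fin b) ℂ}
    (hC : ∀ i i', L (Sum.inr (Sum.inr i)) (Sum.inr (Sum.inr i')) = C i i')
    (h : ∀ y i, L (Sum.inl y) (Sum.inr (Sum.inr i)) = 0)
    (h' : ∀ y i, L (Sum.inr (Sum.inl y)) (Sum.inr (Sum.inr i)) = 0)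
    {π : Fin b → Fin b} (h2 : ∀ j k, k ≠ π j → C k j = 0)
    (f : Fin 2 ⊕ Fin b ⊕ Fin b → ℂ) (j : Fin b) :
    ∑ y, f y * L y (Sum.inr (Sum.inr j)) = f (Sum.inr (Sum.inr (π j))) * C (π j) j := by
  rw [Fintype.sum_sum_type, Fintype.sum_sum_type]
  have h0 : ∑ y : Fin 2, f (Sum.inl y) * L (Sum.inl y) (Sum.inr (Sum.inr j)) = 0 :=
    sum_eq_zero fun y _ => by rw [h, mul_zero]
  have h1 : ∑ y : Fin b, f (Sum.inr (Sum.inl y)) * L (Sum.inr (Sum.inl y)) (Sum.inr (Sum.inr j)) = 0 :=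
    sum_eq_zero fun y _ => by rw [h', mul_zero]
  rw [h0, h1, zero_add, zero_add, sum_eq_single (π j)]
  · rw [hC]
  · intro k _ hk
    rw [hC, h2 j k hk, mul_zero]
  · intro hn
    exact absurd (mem_univ _) hn

/-- pull the factors of a six-fold sum apart -/
theorem K5_pull {A : Type} [Fintype A] (F : A → A → A → A → A → A → ℂ) (g₁ g₂ g₃ g₄ g₅ g₆ : A → ℂ) :
    ∑ y₁, ∑ y₂, ∑ y₃, ∑ y₄, ∑ y₅, ∑ y₆, F y₁ y₂ y₃ y₄ y₅ y₆ *
        (g₁ y₁ * g₂ y₂ * g₃ y₃ * g₄ y₄ * g₅ y₅ * g₆ y₆) =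
      ∑ y₁, (∑ y₂, (∑ y₃, (∑ y₄, (∑ y₅, (∑ y₆, F y₁ y₂ y₃ y₄ y₅ y₆ * g₆ y₆) * g₅ y₅) * g₄ y₄) * g₃ y₃) *
        g₂ y₂) * g₁ y₁ := by
  simp only [sum_mul]
  refine sum_congr rfl fun y₁ _ => sum_congr rfl fun y₂ _ => sum_congr rfl fun y₃ _ =>
    sum_congr rfl fun y₄ _ => sum_congr rfl fun y₅ _ => sum_congr rfl fun y₆ _ => ?_
  ring

theorem tau_lin (hb : b = 2 ∨ b = 3) (W : NC (Tq u v w 2 b b).A ℂ)
    (L : Matrix (Fin 2 ⊕ Fin b ⊕ Fin b) (Fin 2 ⊕ Fin b ⊕ Fin b) ℂ) {A : Matrix (Fin 2) (Fin 2) ℂ}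
    {B C : Matrix (Fin b) (Fin b) ℂ} (hA : ∀ i i', L (Sum.inl i) (Sum.inl i') = A i i')
    (hB : ∀ i i', L (Sum.inr (Sum.inl i)) (Sum.inr (Sum.inl i')) = B i i')
    (hC : ∀ i i', L (Sum.inr (Sum.inr i)) (Sum.inr (Sum.inr i')) = C i i')
    (h0 : ∀ x y, L x y ≠ 0 → (Tq u v w 2 b b).s x = (Tq u v w 2 b b).s y ∧ (Tq u v w 2 b b).t x = (Tq u v w 2 b b).t y)
    (huv : u ≠ v) (hvw : v ≠ w) (hwu : w ≠ u)
    {π : Fin b → Fin b} {α : Fin b → ℂ} (hπ : Function.Injective π) (hα : ∀ j, α j ≠ 0)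
    (h1 : ∀ j i', ∑ i, lv (π j).1 i * A i i' = α j * lv j.1 i') (h2 : ∀ j k, k ≠ π j → C k j = 0)
    (h3 : ∀ j k, k ≠ π j → B k j = 0) (h4 : ∀ j, α j * (B (π j) j * C (π j) j) = 1) {j j' : Fin b} (hj : j ≠ j') :
    tau j j' (subst (linS L) W : NC (Tq u v w 2 b b).A ℂ) = tau (π j) (π j') W := by
  have z1 : ∀ y i, L (Sum.inr y) (Sum.inl i) = 0 := by
    intro y i
    by_contra h
    have h5 := (h0 _ _ h).1
    rcases y with y | y
    · exact huv.symm h5
    · exact hwu h5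
  have z2 : ∀ y i, L (Sum.inl y) (Sum.inr (Sum.inl i)) = 0 := by
    intro y i
    by_contra h
    exact huv (h0 _ _ h).1
  have z3 : ∀ y i, L (Sum.inr (Sum.inr y)) (Sum.inr (Sum.inl i)) = 0 := by
    intro y i
    by_contra h
    exact hvw.symm (h0 _ _ h).1
  have z4 : ∀ y i, L (Sum.inl y) (Sum.inr (Sum.inr i)) = 0 := by
    intro y i
    by_contra h
    exact hwu.symm (h0 _ _ h).1
  have z5 : ∀ y i, L (Sum.inr (Sum.inl y)) (Sum.inr (Sum.inr i)) = 0 := by
    intro y i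
    by_contra h
    exact hvw (h0 _ _ h).1
  -- the coefficient
  have key : ∀ p q : Fin 2, cyc (subst (linS L) W : NC (Tq u v w 2 b b).A ℂ)
      [Sum.inl p, Sum.inr (Sum.inl j), Sum.inr (Sum.inr j'), Sum.inl q, Sum.inr (Sum.inl j'), Sum.inr (Sum.inr j)] =
      ∑ p', (∑ q', cyc W [Sum.inl p', Sum.inr (Sum.inl (π j)), Sum.inr (Sum.inr (π j')), Sum.inl q',
        Sum.inr (Sum.inl (π j')), Sum.inr (Sum.inr (π j))] * C (π j) j * B (π j') j' * A q' q) *
        C (π j') j' * B (π j) j * A p' p := by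
    intro p q
    rw [cyc_subst_linS_six L W, K5_pull (fun y₁ y₂ y₃ y₄ y₅ y₆ => cyc W [y₁, y₂, y₃, y₄, y₅, y₆])
      (fun y => L y (Sum.inl p)) (fun y => L y (Sum.inr (Sum.inl j))) (fun y => L y (Sum.inr (Sum.inr j')))
      (fun y => L y (Sum.inl q)) (fun y => L y (Sum.inr (Sum.inl j'))) (fun y => L y (Sum.inr (Sum.inr j)))]
    rw [K5_a hA z1]
    refine sum_congr rfl fun p' _ => ?_
    rw [K5_b hB z2 z3 h3, K5_c hC z4 z5 h2, K5_a hA z1]
    congr 3
    refine sum_congr rfl fun q' _ => ?_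
    rw [K5_b hB z2 z3 h3, K5_c hC z4 z5 h2]
  -- the sums over `p` and `q`
  have p1 := fun p' => perp_act (h1 j) p'
  have p2 := fun q' => perp_act (h1 j') q'
  have hd := det_sq hb hπ h1 hj
  have e1 : tau j j' (subst (linS L) W : NC (Tq u v w 2 b b).A ℂ) =
      ∑ p', ∑ q', cyc W [Sum.inl p', Sum.inr (Sum.inl (π j)), Sum.inr (Sum.inr (π j')), Sum.inl q',
        Sum.inr (Sum.inl (π j')), Sum.inr (Sum.inr (π j))] *
        ((∑ p, A p' p * perp (lv j.1) p) * (∑ q, A q' q * perp (lv j'.1) q)) *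
        ((B (π j) j * C (π j) j) * (B (π j') j' * C (π j') j')) := by
    unfold tau
    rw [sum_congr rfl fun p _ => sum_congr rfl fun q _ => by rw [key p q]]
    simp only [Fin.sum_univ_two]
    ring
  have e2 : (α j * α j') * tau j j' (subst (linS L) W : NC (Tq u v w 2 b b).A ℂ) =
      A.det ^ 2 * ((B (π j) j * C (π j) j) * (B (π j') j' * C (π j') j')) * tau (π j) (π j') W := by
    rw [e1]
    unfold tau
    rw [mul_sum, mul_sum]
    refine sum_congr rfl fun p' _ => ?_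
    rw [mul_sum, mul_sum]
    refine sum_congr rfl fun q' _ => ?_
    have q1 := p1 p'
    have q2 := p2 q'
    linear_combination (cyc W [Sum.inl p', Sum.inr (Sum.inl (π j)), Sum.inr (Sum.inr (π j')), Sum.inl q',
        Sum.inr (Sum.inl (π j')), Sum.inr (Sum.inr (π j))] * ((B (π j) j * C (π j) j) *
        (B (π j') j' * C (π j') j')) * (α j' * ∑ q, A q' q * perp (lv j'.1) q)) * q1 +
      (cyc W [Sum.inl p', Sum.inr (Sum.inl (π j)), Sum.inr (Sum.inr (π j')), Sum.inl q',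
        Sum.inr (Sum.inl (π j')), Sum.inr (Sum.inr (π j))] * ((B (π j) j * C (π j) j) *
        (B (π j') j' * C (π j') j')) * (A.det * perp (lv (π j).1) p')) * q2
  have h5 : α j * α j' ≠ 0 := mul_ne_zero (hα j) (hα j')
  refine mul_left_cancel₀ (pow_ne_zero 2 h5) ?_
  have h6 := h4 j
  have h7 := h4 j'
  have e3 : (α j * α j') ^ 2 * tau j j' (subst (linS L) W : NC (Tq u v w 2 b b).A ℂ) =
      A.det ^ 2 * ((α j * (B (π j) j * C (π j) j)) * (α j' * (B (π j') j' * C (π j') j'))) *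
        tau (π j) (π j') W := by
    linear_combination (α j * α j') * e2
  rw [e3, h6, h7, hd]
  ring

end Cea.N
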