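import Pool.Agent.Lib.MP_cea156_al.N.A8
import Pool.Agent.Lib.MP_cea156_al.N.A7
import Pool.Agent.Lib.MP_cea156_al.N.U1

/-! U2a: Taylor expansion of `subst (φ + ψ) S`. Let `dup S` be `subst (X inl + X inr) S`; its coefficient at `w` is `S` at `w` with
the marks `inl`, `inr` removed. The part of `dup S` with no letter `inr` gives `subst φ S`; the part with exactly one letter `inr` is
cyclically equivalent to `∑ X (inr a) * (der a S)` (`cyc_dec`), and for the rest `p` take `K a = Dec inr p a`. -/

set_option autoImplicit false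

namespace Cea.N

open Finset

/-- two copies of every arrow -/
abbrev dq {V : Type} (Q : Quiv V) : Quiv V where
  A := Q.A ⊕ Q.A
  fin := inferInstance
  dec := inferInstance
  s := Sum.elim Q.s Q.s
  t := Sum.elim Q.t Q.t

/-- every arrow and its reverse -/
abbrev th {V : Type} (Q : Quiv V) : Quiv V where
  A := Q.A ⊕ Q.A
  fin := inferInstance
  dec := inferInstance
  s := Sum.elim Q.s Q.t
  t := Sum.elim Q.t Q.s

variable {A B C R : Type} [CommRing R]

/-- the words with marks `inl`, `inr` put on the letters in all possible ways -/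
def dup (S : NC A R) : NC (A ⊕ A) R := fun w => S (w.map (Sum.elim id id))

theorem U2a_wordSub_two [DecidableEq A] (u : List A) : ∀ w : List (A ⊕ A),
    wordSub (fun a => (X (Sum.inl a) + X (Sum.inr a) : NC (A ⊕ A) R)) u w =
      if w.map (Sum.elim id id) = u then 1 else 0 := by
  induction u with
  | nil =>
    intro w
    show (1 : NC (A ⊕ A) R) w = _
    rw [one_apply]
    cases w <;> simp
  | cons a u ih =>
    intro w
    show ((X (Sum.inl a) + X (Sum.inr a) : NC (A ⊕ A) R) *
      wordSub (fun a => (X (Sum.inl a) + X (Sum.inr a) : NC (A ⊕ A) R)) u) w = _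
    cases w with
    | nil =>
      rw [mul_nil, add_apply]
      simp [X, mon]
    | cons b w =>
      rw [mul_cons]
      have e0 : (X (Sum.inl a) + X (Sum.inr a) : NC (A ⊕ A) R) [] = 0 := by
        rw [add_apply]
        simp [X, mon]
      rw [e0, zero_mul, zero_add]
      by_cases hb : (Sum.elim id id b : A) = a
      · have e1 : shift b (X (Sum.inl a) + X (Sum.inr a) : NC (A ⊕ A) R) = 1 := by
          ext v
          show (X (Sum.inl a) + X (Sum.inr a) : NC (A ⊕ A) R) (b :: v) = _
          rw [add_apply, one_apply]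
          rcases b with b | b
          · have : b = a := hb
            subst this
            cases v <;> simp [X, mon]
          · have : b = a := hb
            subst this
            cases v <;> simp [X, mon]
        rw [e1, one_mul, ih w]
        simp [hb]
      · have e1 : shift b (X (Sum.inl a) + X (Sum.inr a) : NC (A ⊕ A) R) = 0 := by
          ext v
          show (X (Sum.inl a) + X (Sum.inr a) : NC (A ⊕ A) R) (b :: v) = _
          rw [add_apply, zero_apply]
          rcases b with b | b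
          · have : b ≠ a := hb
            cases v <;> simp [X, mon, this]
          · have : b ≠ a := hb
            cases v <;> simp [X, mon, this]
        rw [e1, zero_mul, zero_apply]
        simp [hb]

theorem U2a_wordSub_map [DecidableEq B] (g : A → B) (u : List A) :
    wordSub (fun a => (X (g a) : NC B R)) u = mon (u.map g) := by
  induction u with
  | nil => exact mon_nil.symm
  | cons a u ih =>
    show (X (g a) : NC B R) * wordSub (fun a => (X (g a) : NC B R)) u = _
    rw [ih]
    exact mon_mul_mon [g a] (u.map g)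

theorem U2a_Z0_two [DecidableEq A] : Z0 (fun a => (X (Sum.inl a) + X (Sum.inr a) : NC (A ⊕ A) R)) := by
  intro a
  show (X (Sum.inl a) + X (Sum.inr a) : NC (A ⊕ A) R) [] = 0
  rw [add_apply]
  simp [X, mon]

theorem U2a_Z0_X [DecidableEq B] (g : A → B) : Z0 (fun a => (X (g a) : NC B R)) := by
  intro a
  show (X (g a) : NC B R) [] = 0
  simp [X, mon]

theorem U2a_Z0_elim {φ ψ : A → NC B R} (hφ : Z0 φ) (hψ : Z0 ψ) : Z0 (Sum.elim φ ψ) := by
  rintro (a | a)
  · exact hφ a
  · exact hψ a

theorem U2a_dup_eq [Fintype A] [DecidableEq A] (S : NC A R) :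
    dup S = subst (fun a => (X (Sum.inl a) + X (Sum.inr a) : NC (A ⊕ A) R)) S := by
  ext w
  rw [subst_apply U2a_Z0_two S w le_rfl]
  rw [Finset.sum_eq_single (w.map (Sum.elim id id))]
  · rw [U2a_wordSub_two, if_pos rfl, mul_one]
    rfl
  · intro u _ hu
    rw [U2a_wordSub_two, if_neg (fun h => hu h.symm), mul_zero]
  · intro h
    exact absurd (mem_wds.2 (by rw [List.length_map])) h

theorem subst_dup [Fintype A] [DecidableEq A] {φ ψ : A → NC B R} (hφ : Z0 φ) (hψ : Z0 ψ) (S : NC A R) :
    subst (Sum.elim φ ψ) (dup S) = subst (fun a => φ a + ψ a) S := by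
  rw [U2a_dup_eq, subst_subst U2a_Z0_two (U2a_Z0_elim hφ hψ)]
  congr 1
  funext a
  rw [subst_add, subst_X (U2a_Z0_elim hφ hψ), subst_X (U2a_Z0_elim hφ hψ)]
  rfl

open Classical in
/-- the part of `F` with exactly `n` letters `inr` -/
noncomputable def part (n : ℕ) (F : NC (A ⊕ A) R) : NC (A ⊕ A) R := fun w =>
  if nmk (Sum.inr : A → A ⊕ A) w = n then F w else 0

theorem U2a_nmk_cons_inl (a : A) (w : List (A ⊕ A)) :
    nmk (Sum.inr : A → A ⊕ A) (Sum.inl a :: w) = nmk (Sum.inr : A → A ⊕ A) w := by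
  unfold nmk
  rw [List.filter_cons_of_neg]
  simp

theorem U2a_nmk_cons_inr (a : A) (w : List (A ⊕ A)) :
    nmk (Sum.inr : A → A ⊕ A) (Sum.inr a :: w) = nmk (Sum.inr : A → A ⊕ A) w + 1 := by
  unfold nmk
  rw [List.filter_cons_of_pos]
  · rfl
  · simp

theorem U2a_nmk_zero {w : List (A ⊕ A)} (h : nmk (Sum.inr : A → A ⊕ A) w = 0) :
    w = (w.map (Sum.elim id id)).map Sum.inl := by
  induction w with
  | nil => rfl
  | cons b w ih =>
    rcases b with b | b
    · rw [U2a_nmk_cons_inl] at h
      have := ih h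
      simp only [List.map_cons, Sum.elim_inl, id]
      rw [← this]
    · rw [U2a_nmk_cons_inr] at h
      omega

theorem U2a_nmk_map_inl (u : List A) : nmk (Sum.inr : A → A ⊕ A) (u.map Sum.inl) = 0 := by
  induction u with
  | nil => rfl
  | cons a u ih =>
    rw [List.map_cons, U2a_nmk_cons_inl, ih]

open Classical in
theorem U2a_subst_inl [Fintype A] [DecidableEq A] (S : NC A R) (w : List (A ⊕ A)) :
    subst (fun c => (X (Sum.inl c) : NC (A ⊕ A) R)) S w =
      if nmk (Sum.inr : A → A ⊕ A) w = 0 then S (w.map (Sum.elim id id)) else 0 := by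
  rw [subst_apply (U2a_Z0_X Sum.inl) S w le_rfl]
  by_cases h : nmk (Sum.inr : A → A ⊕ A) w = 0
  · rw [if_pos h, Finset.sum_eq_single (w.map (Sum.elim id id))]
    · rw [U2a_wordSub_map, ← U2a_nmk_zero h]
      simp [mon]
    · intro u _ hu
      rw [U2a_wordSub_map]
      have : (mon (u.map Sum.inl) : NC (A ⊕ A) R) w = 0 := by
        unfold mon
        rw [if_neg]
        intro hw
        apply hu
        rw [hw, List.map_map]
        simp
      rw [this, mul_zero]
    · intro h
      exact absurd (mem_wds.2 (by rw [List.length_map])) h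
  · rw [if_neg h]
    refine Finset.sum_eq_zero fun u _ => ?_
    rw [U2a_wordSub_map]
    have : (mon (u.map Sum.inl) : NC (A ⊕ A) R) w = 0 := by
      unfold mon
      rw [if_neg]
      intro hw
      apply h
      rw [hw]
      exact U2a_nmk_map_inl u
    rw [this, mul_zero]

theorem U2a_part0 [Fintype A] [DecidableEq A] (S : NC A R) :
    part 0 (dup S) = subst (fun c => (X (Sum.inl c) : NC (A ⊕ A) R)) S := by
  ext w
  rw [U2a_subst_inl]
  rfl

theorem subst_part0 [Fintype A] [DecidableEq A] {φ ψ : A → NC B R} (hφ : Z0 φ) (hψ : Z0 ψ) (S : NC A R) :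
    subst (Sum.elim φ ψ) (part 0 (dup S)) = subst φ S := by
  rw [U2a_part0, subst_subst (U2a_Z0_X Sum.inl) (U2a_Z0_elim hφ hψ)]
  congr 1
  funext a
  rw [subst_X (U2a_Z0_elim hφ hψ)]
  rfl

theorem U2a_Mk_part (n : ℕ) (F : NC (A ⊕ A) R) : Mk (Sum.inr : A → A ⊕ A) n (part n F) := by
  intro w hw
  unfold part at hw
  split_ifs at hw with h
  · exact h.ge
  · exact absurd rfl hw

theorem U2a_dec_part1 [Algebra ℚ R] [Fintype A] [DecidableEq A] (S : NC A R) (a : A) :
    Dec (Sum.inr : A → A ⊕ A) (part 1 (dup S)) a = subst (fun c => X (Sum.inl c)) (der a S) := by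
  ext w
  rw [U2a_subst_inl]
  unfold Dec
  rw [cyc_apply_cons]
  by_cases h : nmk (Sum.inr : A → A ⊕ A) w = 0
  · rw [if_pos h]
    have e1 : ((nmk (Sum.inr : A → A ⊕ A) (Sum.inr a :: w) : ℚ)⁻¹) = 1 := by
      rw [U2a_nmk_cons_inr, h]
      norm_num
    rw [e1, map_one, one_mul]
    show _ = cyc S (a :: w.map (Sum.elim id id))
    rw [cyc_apply_cons, List.length_map]
    refine Finset.sum_congr rfl fun k _ => ?_
    have e2 : nmk (Sum.inr : A → A ⊕ A) (w.drop k ++ Sum.inr a :: w.take k) = 1 := by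
      rw [nmk_append, U2a_nmk_cons_inr]
      have : nmk (Sum.inr : A → A ⊕ A) (w.take k ++ w.drop k) = 0 := by
        rw [List.take_append_drop, h]
      rw [nmk_append] at this
      omega
    unfold part
    rw [if_pos e2]
    show S ((w.drop k ++ Sum.inr a :: w.take k).map (Sum.elim id id)) = _
    rw [List.map_append, List.map_cons, List.map_drop, List.map_take]
    rfl
  · rw [if_neg h]
    have : ∑ k ∈ range (w.length + 1), part 1 (dup S) (w.drop k ++ Sum.inr a :: w.take k) = 0 := by
      refine Finset.sum_eq_zero fun k _ => ?_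
      have e2 : nmk (Sum.inr : A → A ⊕ A) (w.drop k ++ Sum.inr a :: w.take k) ≠ 1 := by
        rw [nmk_append, U2a_nmk_cons_inr]
        have : nmk (Sum.inr : A → A ⊕ A) (w.take k ++ w.drop k) ≠ 0 := by
          rw [List.take_append_drop]
          exact h
        rw [nmk_append] at this
        omega
      unfold part
      rw [if_neg e2]
    rw [this, mul_zero]

theorem U2a_cyc_dec [Algebra ℚ R] [Fintype A] [DecidableEq A] {n : ℕ} {F : NC (A ⊕ A) R}
    (h : Mk (Sum.inr : A → A ⊕ A) (n + 1) F) :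
    cyc (∑ i, X (Sum.inr i) * Dec (Sum.inr : A → A ⊕ A) F i) = cyc F := by
  refine cyc_dec Sum.inr_injective F fun w hw => ?_
  by_contra hc
  have := Mk_cyc h w hc
  omega

theorem cyc_part1 [Algebra ℚ R] [Fintype A] [DecidableEq A] (S : NC A R) :
    cyc (part 1 (dup S)) = cyc (∑ a, X (Sum.inr a) * subst (fun c => X (Sum.inl c)) (der a S)) := by
  rw [← U2a_cyc_dec (U2a_Mk_part 1 (dup S))]
  simp only [U2a_dec_part1]

open Classical in
/-- the part with at least two letters `inr` -/
noncomputable def U2a_rest (F : NC (A ⊕ A) R) : NC (A ⊕ A) R := fun w =>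
  if 2 ≤ nmk (Sum.inr : A → A ⊕ A) w then F w else 0

theorem U2a_split (F : NC (A ⊕ A) R) : F = part 0 F + part 1 F + U2a_rest F := by
  ext w
  rw [add_apply, add_apply]
  unfold part U2a_rest
  rcases Nat.lt_or_ge (nmk (Sum.inr : A → A ⊕ A) w) 2 with h | h
  · rcases Nat.lt_or_ge (nmk (Sum.inr : A → A ⊕ A) w) 1 with h1 | h1
    · have h0 : nmk (Sum.inr : A → A ⊕ A) w = 0 := by omega
      rw [if_pos h0, if_neg (by omega), if_neg (by omega), add_zero, add_zero]
    · have h0 : nmk (Sum.inr : A → A ⊕ A) w = 1 := by omega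
      rw [if_neg (by omega), if_pos h0, if_neg (by omega), zero_add, add_zero]
  · rw [if_neg (by omega), if_neg (by omega), if_pos h, zero_add, zero_add]

theorem U2a_path {V : Type} [DecidableEq V] (Q : Quiv V) (i j : V) (w : List (Q.A ⊕ Q.A))
    (h : Q.IsPath i (w.map (Sum.elim id id)) j) : (dq Q).IsPath i w j := by
  induction w generalizing i with
  | nil => exact h
  | cons b w ih =>
    rcases b with b | b
    · exact ⟨h.1, ih _ h.2⟩
    · exact ⟨h.1, ih _ h.2⟩

theorem U2a_pot {V : Type} [DecidableEq V] {Q : Quiv V} {S : NC Q.A R} (hS : Pot Q S) :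
    Pot (dq Q) (U2a_rest (dup S)) := by
  intro w hw
  have h1 : S (w.map (Sum.elim id id)) ≠ 0 := by
    intro h0
    apply hw
    unfold U2a_rest
    split_ifs with h
    · exact h0
    · rfl
  obtain ⟨h2, i, h3⟩ := hS _ h1
  refine ⟨fun h => h2 (by rw [h]; rfl), i, U2a_path Q i i w h3⟩

theorem U2a_len {n : ℕ} {S : NC A R} (hS : Len n S) : Len n (U2a_rest (dup S)) := by
  intro w hw
  have h1 : S (w.map (Sum.elim id id)) ≠ 0 := by
    intro h0
    apply hw
    unfold U2a_rest
    split_ifs with h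
    · exact h0
    · rfl
  have := hS _ h1
  rwa [List.length_map] at this

theorem U2a_Mk_rest (F : NC (A ⊕ A) R) : Mk (Sum.inr : A → A ⊕ A) 2 (U2a_rest F) := by
  intro w hw
  unfold U2a_rest at hw
  split_ifs at hw with h
  · exact h
  · exact absurd rfl hw

/-- Taylor expansion; `hS` may be any potential -/
theorem taylor [Algebra ℚ R] {V : Type} [DecidableEq V] {Q : Quiv V} {S : NC Q.A R} (hS : Pot Q S) (h3 : Len 3 S) :
    ∃ K : Q.A → NC (Q.A ⊕ Q.A) R, (∀ a, Mk (Sum.inr : Q.A → Q.A ⊕ Q.A) 1 (K a)) ∧ (∀ a, Len 2 (K a)) ∧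
      (∀ a, Sup (dq Q) (Q.t a) (Q.s a) (K a)) ∧
      ∀ (C : Type) (φ ψ : Q.A → NC C R), Z0 φ → Z0 ψ →
        cyc (subst (fun a => φ a + ψ a) S) =
          cyc (subst φ S + ∑ a, ψ a * subst φ (der a S) + ∑ a, ψ a * subst (Sum.elim φ ψ) (K a)) := by
  refine ⟨fun a => Dec (Sum.inr : Q.A → Q.A ⊕ Q.A) (U2a_rest (dup S)) a, ?_, ?_, ?_, ?_⟩
  · intro a
    exact Mk_dec (U2a_Mk_rest (dup S)) a
  · intro a
    exact len_dec _ (U2a_len h3) a
  · intro a w hw
    have h1 : cyc (U2a_rest (dup S)) (Sum.inr a :: w) ≠ 0 := by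
      intro h0
      apply hw
      show algebraMap ℚ R _ * cyc (U2a_rest (dup S)) (Sum.inr a :: w) = 0
      rw [h0, mul_zero]
    obtain ⟨_, i, h2, h4⟩ := Pot_cyc (U2a_pot hS) _ h1
    have h5 : Q.s a = i := h2
    rw [h5]
    exact h4
  · intro C φ ψ hφ hψ
    have hE : Z0 (Sum.elim φ ψ) := U2a_Z0_elim hφ hψ
    rw [← subst_dup hφ hψ S]
    conv_lhs => rw [U2a_split (dup S)]
    rw [subst_add, subst_add, cyc_add, cyc_add, subst_part0 hφ hψ, cyc_add, cyc_add]
    congr 1
    · congr 1
      rw [cyc_subst_congr hE (cyc_part1 S), subst_sum]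
      congr 1
      refine Finset.sum_congr rfl fun a _ => ?_
      rw [subst_mul hE, subst_X hE, subst_subst (U2a_Z0_X Sum.inl) hE]
      congr 1
      congr 1
      funext c
      rw [subst_X hE]
      rfl
    · rw [← cyc_subst_congr hE (U2a_cyc_dec (U2a_Mk_rest (dup S))), subst_sum]
      congr 1
      refine Finset.sum_congr rfl fun a _ => ?_
      rw [subst_mul hE, subst_X hE]
      rfl

end Cea.N
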