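import Pool.Agent.Lib.MP_cea156_al.N.K4
import Pool.Agent.Lib.MP_cea156_al.N.R3b
import Pool.Agent.Lib.MP_cea156_al.N.U2a

/-! K6a: the part of degree six of the image of a potential. Let `L = lin φ`, `N` its inverse, `ψ x = φ x - linS L x`; `ψ x` has words of length at least 4 (`path_len`).
By `taylor` with `φ := linS L`: `cyc (subst φ W) = cyc (W₂ + ∑ ψ y * subst (linS L) (der y W) + (length ≥ 9))`, `W₂ = subst (linS L) W`. By `der_subst`,
`der z W₂ = ∑_y L y z • subst (linS L) (der y W)`, so `∑_y ψ y * subst (linS L) (der y W) = ∑_z h z * der z W₂`, `h z = ∑_y N z y • ψ y`; `tau_kill` for `W₂`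
(`tenq W₂ = tenq (subst φ W) = Gb b`: the other terms have length at least 6). -/

set_option autoImplicit false

namespace Cea.N

open Finset

variable {V : Type} [DecidableEq V] {u v w : V} {b : ℕ}

theorem K6a_rot {A B : Type} [Fintype A] [DecidableEq A] [Fintype B] [DecidableEq B] (L : Matrix A B ℂ) (a : A) (c : B) :
    rot c (linS L a) = L a c • (X (Sum.inr ()) : NC (B ⊕ Unit) ℂ) := by
  ext z
  rw [smul_apply]
  by_cases hz : z = [Sum.inr ()]
  · subst hz
    have h1 := rot_apply c (linS L a) [] []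
    simp only [List.map_nil, List.nil_append] at h1
    rw [h1, E2b_single]
    show L a c = L a c * (if [Sum.inr ()] = [Sum.inr ()] then 1 else 0)
    rw [if_pos rfl, mul_one]
  · have h2 : (X (Sum.inr ()) : NC (B ⊕ Unit) ℂ) z = 0 := if_neg hz
    rw [h2, mul_zero]
    by_contra h3
    obtain ⟨p, q, rfl, h4⟩ := rot_ne_zero h3
    obtain ⟨d, h5, -⟩ := linS_ne_zero h4
    have h6 := congrArg List.length h5
    simp only [List.length_append, List.length_cons, List.length_nil] at h6
    have hp : p = [] := List.length_eq_zero_iff.1 (by omega)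
    have hq : q = [] := List.length_eq_zero_iff.1 (by omega)
    apply hz
    rw [hp, hq]
    rfl

theorem K6a_der {A B : Type} [Fintype A] [DecidableEq A] [Fintype B] [DecidableEq B]
    (L : Matrix A B ℂ) {F : NC A ℂ} (hF : Len 2 F) (hL : Z0 (linS L)) (c : B) :
    der c (subst (linS L) F) = ∑ a, L a c • subst (linS L) (der a F) := by
  rw [der_subst hL hF]
  refine sum_congr rfl fun a _ => ?_
  rw [K6a_rot, subst_smul, subst_X]
  · rfl
  · rintro (d | d)
    · show (if ([] : List B) = [d] then (1 : ℂ) else 0) = 0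
      exact if_neg (fun h : ([] : List B) = [d] => List.cons_ne_nil _ _ h.symm)
    · show subst (linS L) (der a F) [] = 0
      rw [subst_nil]
      show cyc F [a] = 0
      by_contra h
      have h1 := len_cyc hF _ h
      simp at h1

theorem K6a_len_mul {A : Type} {m n : ℕ} {f g : NC A ℂ} (hf : Len m f) (hg : Len n g) :
    Len (m + n) (f * g) := by
  intro z hz
  rw [mul_apply] at hz
  obtain ⟨k, hk, h1⟩ := exists_ne_zero_of_sum_ne_zero hz
  have h2 := hf _ (left_ne_zero_of_mul h1)
  have h3 := hg _ (right_ne_zero_of_mul h1)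
  have h4 : (z.take k).length + (z.drop k).length = z.length := by
    rw [← List.length_append, List.take_append_drop]
  omega

theorem K6a_len_sum {A ι : Type} {n : ℕ} (s : Finset ι) {f : ι → NC A ℂ} (hf : ∀ i, Len n (f i)) :
    Len n (∑ i ∈ s, f i) := by
  intro z hz
  rw [finsetSum_apply] at hz
  obtain ⟨i, _, h1⟩ := exists_ne_zero_of_sum_ne_zero hz
  exact hf i z h1

theorem K6a_len_zero {A : Type} (f : NC A ℂ) : Len 0 f := fun _ _ => Nat.zero_le _

/-- words with a marked letter have long images -/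
theorem K6a_wordSub {A B : Type} {φ ψ : A → NC B ℂ} (hψ : ∀ a, Len 4 (ψ a)) (z : List (A ⊕ A))
    (hz : 1 ≤ nmk (Sum.inr : A → A ⊕ A) z) : Len 4 (wordSub (Sum.elim φ ψ) z) := by
  induction z with
  | nil => exact absurd hz (by simp [nmk])
  | cons a z ih =>
    show Len 4 (Sum.elim φ ψ a * wordSub (Sum.elim φ ψ) z)
    rcases a with a | a
    · rw [U2a_nmk_cons_inl] at hz
      have h1 := K6a_len_mul (K6a_len_zero (φ a)) (ih hz)
      rw [zero_add] at h1
      exact h1
    · exact K6a_len_mul (hψ a) (K6a_len_zero (wordSub (Sum.elim φ ψ) z))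

theorem K6a_subst {A B : Type} [Fintype A] {φ ψ : A → NC B ℂ} (hψ : ∀ a, Len 4 (ψ a))
    (f : NC (A ⊕ A) ℂ) (hf : Mk (Sum.inr : A → A ⊕ A) 1 f) : Len 4 (subst (Sum.elim φ ψ) f) := by
  intro z hz
  unfold subst at hz
  obtain ⟨m, _, h1⟩ := exists_ne_zero_of_sum_ne_zero hz
  obtain ⟨x, _, h2⟩ := exists_ne_zero_of_sum_ne_zero h1
  exact K6a_wordSub hψ _ (hf _ (left_ne_zero_of_mul h2)) z (right_ne_zero_of_mul h2)

theorem tau_subst (huv : u ≠ v) (hvw : v ≠ w) (hwu : w ≠ u) {W : NC (Tq u v w 2 b b).A ℂ} (hW : Pot _ W)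
    {φ : (Tq u v w 2 b b).A → NC (Tq u v w 2 b b).A ℂ} (hφ : Iso _ _ φ) (hG : tenq (subst φ W) = Gb b) {j j' : Fin b}
    (hj : j ≠ j') :
    tau j j' (subst φ W) = tau j j' (subst (linS (lin φ)) W : NC (Tq u v w 2 b b).A ℂ) := by
  obtain ⟨N, hN1, hN2⟩ := hφ.2
  set L := lin φ with hL
  have h3 : Len 3 W := fun z hz => (cycle_len huv hvw hwu (hW z hz)).2
  have h2 : Len 2 W := fun z hz => le_trans (by norm_num) (h3 z hz)
  have hz : Z0 (linS L : (Tq u v w 2 b b).A → NC (Tq u v w 2 b b).A ℂ) := Z0_linS L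
  have hI : Iso (Tq u v w 2 b b) (Tq u v w 2 b b) (linS L) := by
    refine ⟨fun a z h => ?_, N, ?_⟩
    · obtain ⟨c, rfl, h1⟩ := linS_ne_zero h
      exact hφ.1 a [c] h1
    · rw [lin_linS]
      exact ⟨hN1, hN2⟩
  set ψ : (Tq u v w 2 b b).A → NC (Tq u v w 2 b b).A ℂ := fun x => φ x - linS L x with hψ
  have hψ4 : ∀ x, Len 4 (ψ x) := by
    intro x z hzz
    have hv : ψ x z = φ x z - linS L x z := rfl
    rw [hv] at hzz
    have hne : z.length ≠ 1 := by
      intro h1
      obtain ⟨c, rfl⟩ := List.length_eq_one_iff.1 h1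
      rw [E2b_single] at hzz
      exact hzz (sub_self _)
    have hl0 : linS L x z = 0 := by
      by_contra h1
      obtain ⟨c, rfl, -⟩ := linS_ne_zero h1
      exact hne rfl
    rw [hl0, sub_zero] at hzz
    have h1 := path_len huv hvw hwu (hφ.1 x z hzz).2
    omega
  have hψ0 : Z0 ψ := by
    intro x
    by_contra h1
    have h4 := hψ4 x _ h1
    simp at h4
  obtain ⟨K, hK1, -, -, hK⟩ := taylor hW h3
  have hT := hK _ (linS L) ψ hz hψ0
  have hsum : (fun a => linS L a + ψ a) = φ := by
    funext a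
    rw [hψ]
    exact add_sub_cancel _ _
  rw [hsum] at hT
  have hlong : Len 7 (∑ a, ψ a * subst (Sum.elim (linS L) ψ) (K a)) := by
    refine K6a_len_sum _ fun a => ?_
    intro z hzz
    have h1 := K6a_len_mul (hψ4 a) (K6a_subst (φ := linS L) hψ4 (K a) (hK1 a)) z hzz
    omega
  have hP : Pot (Tq u v w 2 b b) (subst (linS L) W) := Pot_subst hz hI.ps hW
  have hten : tenq (subst (linS L) W : NC (Tq u v w 2 b b).A ℂ) = Gb b := by
    rw [← hG]
    funext i j k
    rw [tenq_subst huv hvw hwu hW hφ, tenq_subst huv hvw hwu hW hI, lin_linS]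
  have hmid : (∑ a, ψ a * subst (linS L) (der a W)) =
      ∑ z, (∑ y, N z y • ψ y) * der z (subst (linS L) W) := by
    have e1 : ∀ z, (∑ y, N z y • ψ y) * der z (subst (linS L) W) =
        ∑ y, ∑ y', (L y' z * N z y) • (ψ y * subst (linS L) (der y' W)) := by
      intro z
      rw [K6a_der L h2 hz, sum_mul]
      refine sum_congr rfl fun y _ => ?_
      rw [mul_sum]
      refine sum_congr rfl fun y' _ => ?_
      rw [smul_mul_smul_comm, mul_comm (N z y)]
    rw [sum_congr rfl fun z _ => e1 z, sum_comm]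
    refine sum_congr rfl fun y _ => ?_
    rw [sum_comm]
    have e2 : ∀ y', (∑ z, (L y' z * N z y) • (ψ y * subst (linS L) (der y' W))) =
        (if y' = y then 1 else 0 : ℂ) • (ψ y * subst (linS L) (der y' W)) := by
      intro y'
      rw [← sum_smul]
      congr 1
      have e3 := congrFun (congrFun hN1 y') y
      rw [Matrix.mul_apply, Matrix.one_apply] at e3
      exact e3
    rw [sum_congr rfl fun y' _ => e2 y', sum_eq_single y]
    · rw [if_pos rfl, one_smul]
    · intro y' _ hy
      rw [if_neg hy, zero_smul]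
    · intro h
      exact absurd (mem_univ _) h
  have hkill : tau j j' (∑ a, ψ a * subst (linS L) (der a W)) = 0 := by
    rw [hmid]
    refine tau_kill huv hvw hwu hP hten (fun z => ?_) hj
    refine K6a_len_sum _ fun y => ?_
    intro x hx
    rw [smul_apply] at hx
    exact hψ4 y x (right_ne_zero_of_mul hx)
  rw [tau_congr hT, tau_add, tau_add, hkill, tau_long hlong, add_zero, add_zero]

end Cea.N
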