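import Pool.Agent.Lib.MP_cea156_al.N.K6a
import Pool.Agent.Lib.MP_cea156_al.N.K5
import Pool.Agent.Lib.MP_cea156_al.N.K2

/-! K6b: the triangles `(2, 2, 2)` and `(2, 3, 3)` are not generically rigid. `tau_RE`: `lin_blocks`, `tenq_subst`, `stab_struct`, `tau_lin`, `tau_subst`.
`not_RG_two`: `exists_normal`; the family `W₁ + s κ` with the word `κ = a₁ b₀ c₁ a₀ b₁ c₀`: `tau 0 1 κ = -1`; by `tau_RE` for all but countably many `s`, `tau 0 1 W₁ - s` is one of the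
finitely many numbers `tau m m' W₁`. -/

set_option autoImplicit false

namespace Cea.N

open Finset

variable {V : Type} [DecidableEq V] {u v w : V} {b : ℕ}

theorem tau_RE (hb : b = 2 ∨ b = 3) (huv : u ≠ v) (hvw : v ≠ w) (hwu : w ≠ u) {W W' : NC (Tq u v w 2 b b).A ℂ}
    (hW : Pot _ W) (h : RE _ _ W W') (hG : tenq W = Gb b) (hG' : tenq W' = Gb b) {j j' : Fin b} (hj : j ≠ j') :
    ∃ m m' : Fin b, tau j j' W' = tau m m' W := by
  obtain ⟨φ, hφ, hc⟩ := h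
  have hG2 : tenq (subst φ W) = Gb b := by
    rw [← hG']
    unfold tenq
    rw [hc]
  obtain ⟨hA, hB, hC, h0⟩ := lin_blocks huv hvw hwu hφ
  have hs : ∀ i' j' k', ∑ i, ∑ j, ∑ k, (Matrix.of fun i i' : Fin 2 => lin φ (Sum.inl i) (Sum.inl i')) i i' *
      (Matrix.of fun i i' : Fin b => lin φ (Sum.inr (Sum.inl i)) (Sum.inr (Sum.inl i'))) j j' *
      (Matrix.of fun i i' : Fin b => lin φ (Sum.inr (Sum.inr i)) (Sum.inr (Sum.inr i'))) k k' * Gb b i j k =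
        Gb b i' j' k' := by
    intro i' j' k'
    have h1 := tenq_subst huv hvw hwu hW hφ i' j' k'
    rw [hG2, hG] at h1
    exact h1.symm
  obtain ⟨π, α, hπ, hα, h1, h2, h3, h4⟩ := stab_struct hb hA hB hC hs
  refine ⟨π j, π j', ?_⟩
  rw [← tau_congr hc, tau_subst huv hvw hwu hW hφ hG2 hj]
  exact tau_lin hb W (lin φ) (fun _ _ => rfl) (fun _ _ => rfl) (fun _ _ => rfl) h0 huv hvw hwu hπ hα h1 h2
    h3 h4 hj

/-- the word of length six -/
def K6b_w (j0 j1 : Fin b) : List (Fin 2 ⊕ Fin b ⊕ Fin b) :=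
  [Sum.inl 1, Sum.inr (Sum.inl j0), Sum.inr (Sum.inr j1), Sum.inl 0, Sum.inr (Sum.inl j1), Sum.inr (Sum.inr j0)]

theorem K6b_pot (j0 j1 : Fin b) {R : Type} [CommRing R] :
    Pot (Tq u v w 2 b b) (mon (K6b_w j0 j1) : NC (Fin 2 ⊕ Fin b ⊕ Fin b) R) := by
  intro x hx
  unfold mon at hx
  split_ifs at hx with h
  · rw [h]
    exact ⟨by simp [K6b_w], u, rfl, rfl, rfl, rfl, rfl, rfl, rfl⟩
  · exact absurd rfl hx

theorem K6b_cyc {j0 j1 : Fin b} (h01 : j0 ≠ j1) :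
    cyc (mon (K6b_w j0 j1) : NC (Fin 2 ⊕ Fin b ⊕ Fin b) ℂ) (K6b_w j0 j1) = 1 := by
  unfold cyc
  rw [Finset.sum_eq_single 0]
  · simp [mon]
  · intro k hk hk0
    have h6 : (K6b_w j0 j1).length = 6 := rfl
    rw [h6, mem_range] at hk
    unfold mon
    rw [if_neg]
    interval_cases k
    · exact absurd rfl hk0
    · simp [K6b_w]
    · simp [K6b_w]
    · simp [K6b_w]
    · simp [K6b_w]
    · simp [K6b_w]
  · intro h
    exact absurd (mem_range.2 (by simp [K6b_w])) h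

theorem K6b_tau (hb0 : 0 < b) (hb1 : 1 < b) :
    tau (V := V) (u := u) (v := v) (w := w) (⟨0, hb0⟩ : Fin b) ⟨1, hb1⟩
      (mon (K6b_w (⟨0, hb0⟩ : Fin b) ⟨1, hb1⟩) : NC (Fin 2 ⊕ Fin b ⊕ Fin b) ℂ) = -1 := by
  have h01 : (⟨0, hb0⟩ : Fin b) ≠ ⟨1, hb1⟩ := by
    intro h
    have := congrArg Fin.val h
    simp at this
  have h1 := K6b_cyc h01
  unfold K6b_w at h1 ⊢
  unfold tau
  simp only [Fin.sum_univ_two]
  have e0 : perp (lv 0) 0 = 0 := by simp [perp, lv]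
  have e1 : perp (lv 0) 1 = -1 := by simp [perp, lv]
  have e2 : perp (lv 1) 0 = 1 := by simp [perp, lv]
  have e3 : perp (lv 1) 1 = 0 := by simp [perp, lv]
  rw [e0, e1, e2, e3, h1]
  ring

theorem K6b_tenq (j0 j1 : Fin b) :
    tenq (V := V) (u := u) (v := v) (w := w) (mon (K6b_w j0 j1) : NC (Fin 2 ⊕ Fin b ⊕ Fin b) ℂ) =
      fun _ _ _ => 0 := by
  funext i j k
  unfold tenq cyc
  refine sum_eq_zero fun m _ => ?_
  unfold mon
  rw [if_neg]
  intro h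
  have := congrArg List.length h
  simp [K6b_w] at this

theorem not_RG_two (hb : b = 2 ∨ b = 3) (huv : u ≠ v) (hvw : v ≠ w) (hwu : w ≠ u) {W : NC (Tq u v w 2 b b).A ℂ}
    (hW : Pot _ W) : ¬ RG (Tq u v w 2 b b) W := by
  intro hg
  obtain ⟨W₁, hP1, hRG1, hG1⟩ := exists_normal huv hvw hwu hb hW hg
  have hb1 : 1 < b := by omega
  have hb0 : 0 < b := by omega
  obtain ⟨j0, hj0⟩ : ∃ j0 : Fin b, j0 = ⟨0, hb0⟩ := ⟨_, rfl⟩
  obtain ⟨j1, hj1⟩ : ∃ j1 : Fin b, j1 = ⟨1, hb1⟩ := ⟨_, rfl⟩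
  have h01 : j0 ≠ j1 := by
    rw [hj0, hj1]
    intro h
    have := congrArg Fin.val h
    simp at this
  have hτ : tau (V := V) (u := u) (v := v) (w := w) j0 j1
      (mon (K6b_w j0 j1) : NC (Fin 2 ⊕ Fin b ⊕ Fin b) ℂ) = -1 := by
    rw [hj0, hj1]
    exact K6b_tau hb0 hb1
  have hfam : ∀ s : ℂ, mapR (Polynomial.evalRingHom s)
      ((Polynomial.X : Polynomial ℂ) • (mon (K6b_w j0 j1) : NC (Fin 2 ⊕ Fin b ⊕ Fin b) (Polynomial ℂ))) =
      s • (mon (K6b_w j0 j1) : NC (Fin 2 ⊕ Fin b ⊕ Fin b) ℂ) := by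
    intro s
    refine ext fun x => ?_
    rw [smul_apply]
    show Polynomial.evalRingHom s (Polynomial.X * (mon (K6b_w j0 j1) : NC (Fin 2 ⊕ Fin b ⊕ Fin b) (Polynomial ℂ)) x) = _
    unfold mon
    rw [map_mul]
    split_ifs
    · simp
    · simp
  have hc := hRG1 ((Polynomial.X : Polynomial ℂ) • (mon (K6b_w j0 j1) : NC (Fin 2 ⊕ Fin b ⊕ Fin b) (Polynomial ℂ)))
    (by
      intro x hx
      rw [smul_apply] at hx
      exact K6b_pot j0 j1 x (right_ne_zero_of_mul hx))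
    (by rw [hfam 0, zero_smul])
  have hfin : (Set.range fun p : Fin b × Fin b => tau j0 j1 W₁ - tau p.1 p.2 W₁).Countable :=
    (Set.finite_range _).countable
  refine not_countable_complex ((hc.union hfin).mono fun s _ => ?_)
  by_cases hs : RE (Tq u v w 2 b b) (Tq u v w 2 b b) W₁ (W₁ + mapR (Polynomial.evalRingHom s)
      ((Polynomial.X : Polynomial ℂ) • (mon (K6b_w j0 j1) : NC (Fin 2 ⊕ Fin b ⊕ Fin b) (Polynomial ℂ))))
  · right
    rw [hfam s] at hs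
    have hG' : tenq (W₁ + s • (mon (K6b_w j0 j1) : NC (Fin 2 ⊕ Fin b ⊕ Fin b) ℂ)) = Gb b := by
      rw [tenq_add, hG1]
      funext i j k
      have h1 : tenq (V := V) (u := u) (v := v) (w := w)
          (s • (mon (K6b_w j0 j1) : NC (Fin 2 ⊕ Fin b ⊕ Fin b) ℂ)) i j k = 0 := by
        have h2 := congrFun (congrFun (congrFun (K6b_tenq (V := V) (u := u) (v := v) (w := w) j0 j1) i) j) k
        unfold tenq cyc at h2 ⊢
        simp only [smul_apply]
        rw [← mul_sum, h2, mul_zero]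
      rw [h1, add_zero]
    obtain ⟨m, m', hm⟩ := tau_RE hb huv hvw hwu hP1 hs hG1 hG' h01
    rw [tau_add, tau_smul, hτ] at hm
    exact ⟨(m, m'), by linear_combination hm⟩
  · left
    exact hs

end Cea.N
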