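import Pool.Agent.Lib.MP_cea156_al.N.U4b

/-! U4c: cancellation of trivial parts (Derksen-Weyman-Zelevinsky, uniqueness of the reduced part). Let `φ` be the isomorphism, `ψ` its
inverse (`Iso.inv`), `χ c = kil (φ (inl c))`, an isomorphism by `red_iso`. Apply `kil` to `cyc (subst φ (plW S)) = cyc (plW S')`:
`cyc (subst χ S) = cyc (S' - ∑ kil (φ x_i) * kil (φ y_i)) = cyc (S' + subst (ev S') E)`, where
`E = -∑ hatX y_i * hatX x_i`; then `moser`. -/

set_option autoImplicit false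

namespace Cea.N

open Finset

theorem U4c_z0 {A P R : Type} [CommRing R] [DecidableEq A] :
    Z0 (Sum.elim (fun a : A => (X a : NC A R)) fun _ : P => 0) := by
  rintro (a | a)
  · show (mon [a] : NC A R) [] = 0
    unfold mon
    rw [if_neg (by simp)]
  · rfl

theorem U4c_ev0 {A R : Type} [CommRing R] [DecidableEq A] {S : NC A R} (h3 : Len 3 S) : Z0 (ev S) := by
  rintro (a | a)
  · show (mon [a] : NC A R) [] = 0
    unfold mon
    rw [if_neg (by simp)]
  · show der a S [] = 0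
    rw [der_nil]
    by_contra hne
    have := h3 [a] hne
    simp at this

theorem U4c_kil_subst {A B P R : Type} [CommRing R] [Fintype A] [Fintype B] [Fintype P] [DecidableEq B]
    {φ : A → NC (B ⊕ P) R} (hφ : Z0 φ) (f : NC A R) :
    kil (subst φ f) = subst (fun a => kil (φ a)) f := by
  rw [kil_eq_subst, subst_subst hφ U4c_z0]
  congr 1
  funext a
  rw [kil_eq_subst]

theorem U4c_kil_mul {B P R : Type} [CommRing R] [Fintype B] [Fintype P] [DecidableEq B]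
    (f g : NC (B ⊕ P) R) : kil (f * g) = kil f * kil g := by
  rw [kil_eq_subst, kil_eq_subst, kil_eq_subst, subst_mul U4c_z0]

theorem U4c_kil_sum {B P R : Type} [CommRing R] {ι : Type} (s : Finset ι) (f : ι → NC (B ⊕ P) R) :
    kil (∑ i ∈ s, f i) = ∑ i ∈ s, kil (f i) := by
  ext w
  show (∑ i ∈ s, f i) (w.map Sum.inl) = _
  rw [finsetSum_apply, finsetSum_apply]
  rfl

theorem U4c_kil_add {B P R : Type} [CommRing R] (f g : NC (B ⊕ P) R) : kil (f + g) = kil f + kil g := rfl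

theorem cancel {V R : Type} [DecidableEq V] [CommRing R] [Algebra ℚ R] {Q Q' : Quiv V} {m m' : ℕ} {p q : Fin m → V}
    {p' q' : Fin m' → V} {S : NC Q.A R} {S' : NC Q'.A R} (hS : Pot Q S) (hS' : Pot Q' S') (h3 : Len 3 S)
    (h3' : Len 3 S') (h : RE (Q.plus p q) (Q'.plus p' q') (plW Q p q S) (plW Q' p' q' S')) : RE Q Q' S S' := by
  obtain ⟨φ, hφ, hc⟩ := h
  obtain ⟨ψ, hψ, hψφ, hφψ, -, -⟩ := hφ.inv
  have hc' : cyc (subst ψ (plW Q' p' q' S')) = cyc (plW Q p q S) := by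
    rw [← cyc_subst_congr hψ.z0 hc, subst_subst hφ.z0 hψ.z0]
    have e : (fun a => subst ψ (φ a)) = fun a => (X a : NC (Q.plus p q).A R) := funext hψφ
    rw [e, subst_id]
  have hχ : Iso Q Q' fun a => kil (φ (Sum.inl a)) := red_iso h3 h3' hφ hc
  set E : NC (th Q').A R := -∑ i : Fin m, hatX φ ψ (Sum.inr (Sum.inr i)) * hatX φ ψ (Sum.inr (Sum.inl i)) with hE
  have hmk : ∀ i : Fin m, Mk (Sum.inr : Q'.A → Q'.A ⊕ Q'.A) (1 + 1)
      (hatX φ ψ (Sum.inr (Sum.inr i)) * hatX φ ψ (Sum.inr (Sum.inl i))) := fun i =>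
    Mk_mul (Mk_hatX hφ.z0 ψ _) (Mk_hatX hφ.z0 ψ _)
  have hsup : ∀ i : Fin m, Sup (th Q') (p i) (p i)
      (hatX φ ψ (Sum.inr (Sum.inr i)) * hatX φ ψ (Sum.inr (Sum.inl i))) := fun i =>
    Sup_mul (Sup_hatX hφ hψ (Sum.inr (Sum.inr i))) (Sup_hatX hφ hψ (Sum.inr (Sum.inl i)))
  have hex : ∀ w, E w ≠ 0 → ∃ i : Fin m,
      (hatX φ ψ (Sum.inr (Sum.inr i)) * hatX φ ψ (Sum.inr (Sum.inl i)) : NC (th Q').A R) w ≠ 0 := by
    intro w hw
    by_contra hcon
    push Not at hcon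
    apply hw
    rw [hE, neg_apply, finsetSum_apply, Finset.sum_eq_zero fun i _ => hcon i, neg_zero]
  have hE2 : Mk (Sum.inr : Q'.A → Q'.A ⊕ Q'.A) 2 E := by
    intro w hw
    obtain ⟨i, hi⟩ := hex w hw
    exact hmk i w hi
  have hEP : Pot (th Q') E := by
    intro w hw
    obtain ⟨i, hi⟩ := hex w hw
    refine ⟨?_, p i, hsup i w hi⟩
    rintro rfl
    have := hE2 [] hw
    simp [nmk] at this
  have hmo := moser hS' h3' hEP hE2
  refine RE.trans (W' := S' + subst (ev S') E) ⟨_, hχ, ?_⟩ (RE.symm hmo)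
  have e1 : kil (subst φ (plW Q p q S)) = subst (fun a => kil (φ (Sum.inl a))) S +
      ∑ i : Fin m, kil (φ (Sum.inr (Sum.inl i))) * kil (φ (Sum.inr (Sum.inr i))) := by
    have e0 : subst φ (plW Q p q S) = subst (fun a => φ (Sum.inl a)) S +
      ∑ i, φ (Sum.inr (Sum.inl i)) * φ (Sum.inr (Sum.inr i)) := subst_plW hφ.z0 S
    have e2 := U4c_kil_subst (B := Q'.A) (P := Fin m' ⊕ Fin m') (φ := fun a => φ (Sum.inl a))
      (fun a => hφ.z0 (Sum.inl a)) S
    have e3 : kil (A := Q'.A) (P := Fin m' ⊕ Fin m') (∑ i : Fin m, φ (Sum.inr (Sum.inl i)) * φ (Sum.inr (Sum.inr i))) =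
        ∑ i : Fin m, kil (φ (Sum.inr (Sum.inl i))) * kil (φ (Sum.inr (Sum.inr i))) := by
      refine (U4c_kil_sum (B := Q'.A) (P := Fin m' ⊕ Fin m') _ _).trans ?_
      exact Finset.sum_congr rfl fun i _ => U4c_kil_mul (B := Q'.A) (P := Fin m' ⊕ Fin m') _ _
    refine (congrArg (kil (A := Q'.A) (P := Fin m' ⊕ Fin m')) e0).trans ?_
    rw [← e2, ← e3]
    rfl
  have e4 : cyc (kil (subst φ (plW Q p q S))) = cyc S' := by
    refine (cyc_kil (A := Q'.A) (P := Fin m' ⊕ Fin m') _).trans ?_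
    refine (congrArg (kil (A := Q'.A) (P := Fin m' ⊕ Fin m')) hc).trans ?_
    refine (cyc_kil (A := Q'.A) (P := Fin m' ⊕ Fin m') _).symm.trans ?_
    exact congrArg cyc (kil_plW S')
  have e7 : subst (ev S') E = -∑ i : Fin m, kil (φ (Sum.inr (Sum.inl i))) * kil (φ (Sum.inr (Sum.inr i))) := by
    rw [hE, subst_neg, subst_sum]
    congr 1
    refine Finset.sum_congr rfl fun i _ => ?_
    rw [subst_mul (U4c_ev0 h3'), kil_x hφ hψ hφψ h3' hc' i, kil_y hφ hψ hφψ h3' hc' i]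
  rw [e1, cyc_add] at e4
  rw [cyc_add, e7, cyc_neg, ← e4]
  abel

end Cea.N
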