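import Pool.Agent.Lib.MP_cea156_al.N.P6
import Pool.Agent.Lib.MP_cea156_al.N.U4c
import Pool.Agent.Lib.MP_cea156_al.N.E3

/-! M1: mutation is well defined on right equivalence classes. `mu_unique`: `RE_pre`, `RE.symm`, `RE.trans`, `cancel`. `mu_congr`: `exists_noStart`, `RE_pre`.
`mu_congr_right`: `RE.plus`. -/

set_option autoImplicit false

namespace Cea.N

variable {V R : Type} [DecidableEq V] [CommRing R] [Algebra ℚ R] {k : V} {Q Q' Q₁ Q₁' : Quiv V}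

theorem mu_unique {W : NC Q.A R} {W' : NC Q'.A R} {W₁ : NC Q₁.A R} {W₁' : NC Q₁'.A R} (hk : NoLoop Q k)
    (hk' : NoLoop Q' k) (hW₁ : Pot Q₁ W₁) (hW₁' : Pot Q₁' W₁') (h : RE Q Q' W W') (hm : Mu k Q Q₁ W W₁)
    (hm' : Mu k Q' Q₁' W' W₁') : RE Q₁ Q₁' W₁ W₁' := by
  obtain ⟨h3, Z, hZ, hc, hn, m, p, q, hr⟩ := hm
  obtain ⟨h3', Z', hZ', hc', hn', m', p', q', hr'⟩ := hm'
  exact cancel hW₁ hW₁' h3 h3'
    ((hr.symm.trans (RE_pre hk hk' h hZ hc hn hZ' hc' hn')).trans hr')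

theorem mu_congr {W : NC Q.A R} {W' : NC Q'.A R} {W₁ : NC Q₁.A R} (hk : NoLoop Q k) (hk' : NoLoop Q' k)
    (hW : Pot Q W) (h : RE Q Q' W W') (hm : Mu k Q' Q₁ W' W₁) : Mu k Q Q₁ W W₁ := by
  obtain ⟨h3, Z', hZ', hc', hn', m, p, q, hr⟩ := hm
  obtain ⟨Z, hZ, hc, hn⟩ := exists_noStart hk hW
  exact ⟨h3, Z, hZ, hc, hn, m, p, q, (RE_pre hk hk' h hZ hc hn hZ' hc' hn').trans hr⟩

theorem mu_congr_right {W : NC Q.A R} {W₁ : NC Q₁.A R} {W₁' : NC Q₁'.A R} (hm : Mu k Q Q₁ W W₁)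
    (h : RE Q₁ Q₁' W₁ W₁') (h3 : Len 3 W₁') : Mu k Q Q₁' W W₁' := by
  obtain ⟨_, Z, hZ, hc, hn, m, p, q, hr⟩ := hm
  exact ⟨h3, Z, hZ, hc, hn, m, p, q, hr.trans h.plus⟩

end Cea.N
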