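import Pool.Agent.Lib.MP_cea156_al.N.P7

/-! P7b: adding trivial parts twice. -/

set_option autoImplicit false

namespace Cea.N

section plain

variable {R : Type} [CommRing R]

private theorem P7b_filter {α β : Type} (l : List α) :
    (l.map (Sum.inl : α → α ⊕ β)).filterMap Sum.getLeft? = l := by
  induction l with
  | nil => rfl
  | cons a l ih => rw [List.map_cons, List.filterMap_cons, ih]; rfl

/-- the bijection between the arrows -/
private def P7b_e (B : Type) (m m' : ℕ) :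
    (B ⊕ (Fin m ⊕ Fin m)) ⊕ (Fin m' ⊕ Fin m') ≃ B ⊕ (Fin (m + m') ⊕ Fin (m + m')) where
  toFun := Sum.elim (Sum.elim Sum.inl (Sum.elim (fun i => Sum.inr (Sum.inl (Fin.castAdd m' i)))
      (fun i => Sum.inr (Sum.inr (Fin.castAdd m' i)))))
    (Sum.elim (fun i => Sum.inr (Sum.inl (Fin.natAdd m i)))
      (fun i => Sum.inr (Sum.inr (Fin.natAdd m i))))
  invFun := Sum.elim (fun b => Sum.inl (Sum.inl b))
    (Sum.elim (Fin.addCases (fun i => Sum.inl (Sum.inr (Sum.inl i))) (fun i => Sum.inr (Sum.inl i)))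
      (Fin.addCases (fun i => Sum.inl (Sum.inr (Sum.inr i))) (fun i => Sum.inr (Sum.inr i))))
  left_inv := by
    rintro ((b | (i | i)) | (i | i)) <;> simp
  right_inv := by
    rintro (b | (i | i))
    · rfl
    · refine Fin.addCases (fun j => ?_) (fun j => ?_) i <;> simp
    · refine Fin.addCases (fun j => ?_) (fun j => ?_) i <;> simp

private theorem P7b_key (B : Type) (m m' : ℕ) (F1 : List (B ⊕ (Fin m ⊕ Fin m)) → R)
    (F2 : List ((B ⊕ (Fin m ⊕ Fin m)) ⊕ (Fin m' ⊕ Fin m')) → R)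
    (F3 : List (B ⊕ (Fin (m + m') ⊕ Fin (m + m'))) → R) (S : List B → R)
    (h1a : ∀ l : List B, F1 (l.map Sum.inl) = S l)
    (h1b : ∀ i, F1 [Sum.inr (Sum.inl i), Sum.inr (Sum.inr i)] = 1)
    (h1c : ∀ w, (∀ l : List B, w ≠ l.map Sum.inl) →
      (∀ i, w ≠ [Sum.inr (Sum.inl i), Sum.inr (Sum.inr i)]) → F1 w = 0)
    (h2a : ∀ l, F2 (l.map Sum.inl) = F1 l)
    (h2b : ∀ i, F2 [Sum.inr (Sum.inl i), Sum.inr (Sum.inr i)] = 1)
    (h2c : ∀ w, (∀ l : List (B ⊕ (Fin m ⊕ Fin m)), w ≠ l.map Sum.inl) →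
      (∀ i, w ≠ [Sum.inr (Sum.inl i), Sum.inr (Sum.inr i)]) → F2 w = 0)
    (h3a : ∀ l : List B, F3 (l.map Sum.inl) = S l)
    (h3b : ∀ i, F3 [Sum.inr (Sum.inl i), Sum.inr (Sum.inr i)] = 1)
    (h3c : ∀ w, (∀ l : List B, w ≠ l.map Sum.inl) →
      (∀ i, w ≠ [Sum.inr (Sum.inl i), Sum.inr (Sum.inr i)]) → F3 w = 0)
    (w : List ((B ⊕ (Fin m ⊕ Fin m)) ⊕ (Fin m' ⊕ Fin m'))) :
    F2 w = F3 (w.map (P7b_e B m m')) := by
  have e1 : ∀ b : B, P7b_e B m m' (Sum.inl (Sum.inl b)) = Sum.inl b := fun b => rfl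
  have hmap : ∀ w' : List ((B ⊕ (Fin m ⊕ Fin m)) ⊕ (Fin m' ⊕ Fin m')),
      w.map (P7b_e B m m') = w'.map (P7b_e B m m') → w = w' :=
    fun w' h => List.map_injective_iff.2 (P7b_e B m m').injective h
  have hm1 : ∀ l' : List B, l'.map (Sum.inl : B → B ⊕ (Fin (m + m') ⊕ Fin (m + m'))) =
      ((l'.map (Sum.inl : B → B ⊕ (Fin m ⊕ Fin m))).map Sum.inl).map (P7b_e B m m') := by
    intro l'
    rw [List.map_map, List.map_map]
    exact List.map_congr_left fun b _ => (e1 b).symm
  by_cases h1 : ∃ l : List (B ⊕ (Fin m ⊕ Fin m)), w = l.map Sum.inl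
  · obtain ⟨l, hl⟩ := h1
    subst hl
    rw [h2a]
    by_cases h2 : ∃ l' : List B, l = l'.map Sum.inl
    · obtain ⟨l', hl'⟩ := h2
      subst hl'
      rw [h1a, ← hm1, h3a]
    · by_cases h3 : ∃ i : Fin m, l = [Sum.inr (Sum.inl i), Sum.inr (Sum.inr i)]
      · obtain ⟨i, hi⟩ := h3
        subst hi
        rw [h1b]
        exact (h3b (Fin.castAdd m' i)).symm
      · rw [h1c l (fun l' h => h2 ⟨l', h⟩) (fun i h => h3 ⟨i, h⟩), h3c]
        · intro l' h
          rw [hm1] at h
          exact h2 ⟨l', List.map_injective_iff.2 Sum.inl_injective (hmap _ h)⟩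
        · intro i
          refine Fin.addCases (fun j => ?_) (fun j => ?_) i
          · intro h
            have h4 := hmap [Sum.inl (Sum.inr (Sum.inl j)), Sum.inl (Sum.inr (Sum.inr j))] h
            have h5 : l.map (Sum.inl : _ → (B ⊕ (Fin m ⊕ Fin m)) ⊕ (Fin m' ⊕ Fin m')) =
                ([Sum.inr (Sum.inl j), Sum.inr (Sum.inr j)] : List (B ⊕ (Fin m ⊕ Fin m))).map
                  Sum.inl := h4
            exact h3 ⟨j, List.map_injective_iff.2 Sum.inl_injective h5⟩
          · intro h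
            have h4 := hmap [Sum.inr (Sum.inl j), Sum.inr (Sum.inr j)] h
            cases l with
            | nil => cases h4
            | cons a l => cases h4
  · by_cases h3 : ∃ i : Fin m', w = [Sum.inr (Sum.inl i), Sum.inr (Sum.inr i)]
    · obtain ⟨i, hi⟩ := h3
      subst hi
      rw [h2b]
      exact (h3b (Fin.natAdd m i)).symm
    · rw [h2c w (fun l' h => h1 ⟨l', h⟩) (fun i h => h3 ⟨i, h⟩), h3c]
      · intro l' h
        rw [hm1] at h
        exact h1 ⟨_, hmap _ h⟩
      · intro i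
        refine Fin.addCases (fun j => ?_) (fun j => ?_) i
        · intro h
          have h4 := hmap [Sum.inl (Sum.inr (Sum.inl j)), Sum.inl (Sum.inr (Sum.inr j))] h
          exact h1 ⟨[Sum.inr (Sum.inl j), Sum.inr (Sum.inr j)], h4⟩
        · intro h
          have h4 := hmap [Sum.inr (Sum.inl j), Sum.inr (Sum.inr j)] h
          exact h3 ⟨j, h4⟩

end plain

variable {V R : Type} [DecidableEq V] [CommRing R]

private theorem P7b_inl (Q : Quiv V) {m : ℕ} (p q : Fin m → V) (W : NC Q.A R) (l : List Q.A)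
    (w : List (Q.plus p q).A) (hw : w = l.map Sum.inl) : plW Q p q W w = W l := by
  have h2 : ¬ ∃ i : Fin m, w = [Sum.inr (Sum.inl i), Sum.inr (Sum.inr i)] := by
    rintro ⟨i, hi⟩
    rw [hw] at hi
    cases l with
    | nil => cases hi
    | cons a l => cases hi
  have h3 : w.filterMap Sum.getLeft? = l := by
    rw [hw]
    exact P7b_filter l
  unfold plW
  rw [if_pos ⟨l, hw⟩, if_neg h2, add_zero, h3]

private theorem P7b_xy (Q : Quiv V) {m : ℕ} (p q : Fin m → V) (W : NC Q.A R) (i : Fin m)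
    (w : List (Q.plus p q).A) (hw : w = [Sum.inr (Sum.inl i), Sum.inr (Sum.inr i)]) :
    plW Q p q W w = 1 := by
  have h1 : ¬ ∃ l' : List Q.A, w = l'.map Sum.inl := by
    rintro ⟨l', hl'⟩
    rw [hw] at hl'
    cases l' with
    | nil => cases hl'
    | cons a l => cases hl'
  unfold plW
  rw [if_neg h1, if_pos ⟨i, hw⟩, zero_add]

private theorem P7b_other (Q : Quiv V) {m : ℕ} (p q : Fin m → V) (W : NC Q.A R)
    (w : List (Q.plus p q).A) (h1 : ∀ l : List Q.A, w ≠ l.map Sum.inl)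
    (h2 : ∀ i : Fin m, w ≠ [Sum.inr (Sum.inl i), Sum.inr (Sum.inr i)]) :
    plW Q p q W w = 0 := by
  unfold plW
  rw [if_neg (fun h => by obtain ⟨l, hl⟩ := h; exact h1 l hl),
    if_neg (fun h => by obtain ⟨i, hi⟩ := h; exact h2 i hi), add_zero]

theorem plus_plus (Q : Quiv V) {m m' : ℕ} (p q : Fin m → V) (p' q' : Fin m' → V) (S : NC Q.A R) :
    RE ((Q.plus p q).plus p' q') (Q.plus (Fin.append p p') (Fin.append q q'))
      (plW (Q.plus p q) p' q' (plW Q p q S)) (plW Q (Fin.append p p') (Fin.append q q') S) := by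
  obtain ⟨e, he⟩ : ∃ e : ((Q.plus p q).plus p' q').A ≃ (Q.plus (Fin.append p p') (Fin.append q q')).A,
      e = P7b_e Q.A m m' := ⟨_, rfl⟩
  have hs : ∀ a, (Q.plus (Fin.append p p') (Fin.append q q')).s (e a) =
      ((Q.plus p q).plus p' q').s a := by
    rw [he]
    rintro ((b | (i | i)) | (i | i))
    · rfl
    · exact Fin.append_left p p' i
    · exact Fin.append_left q q' i
    · exact Fin.append_right p p' i
    · exact Fin.append_right q q' i
  have ht : ∀ a, (Q.plus (Fin.append p p') (Fin.append q q')).t (e a) =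
      ((Q.plus p q).plus p' q').t a := by
    rw [he]
    rintro ((b | (i | i)) | (i | i))
    · rfl
    · exact Fin.append_left q q' i
    · exact Fin.append_left p p' i
    · exact Fin.append_right q q' i
    · exact Fin.append_right p p' i
  have key : ∀ w, plW (Q.plus p q) p' q' (plW Q p q S) w =
      plW Q (Fin.append p p') (Fin.append q q') S (w.map e) := by
    intro w
    rw [he]
    exact P7b_key Q.A m m' (plW Q p q S) (plW (Q.plus p q) p' q' (plW Q p q S))
      (plW Q (Fin.append p p') (Fin.append q q') S) S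
      (fun l => P7b_inl Q p q S l _ rfl) (fun i => P7b_xy Q p q S i _ rfl)
      (fun w h1 h2 => P7b_other Q p q S w h1 h2)
      (fun l => P7b_inl (Q.plus p q) p' q' (plW Q p q S) l _ rfl)
      (fun i => P7b_xy (Q.plus p q) p' q' (plW Q p q S) i _ rfl)
      (fun w h1 h2 => P7b_other (Q.plus p q) p' q' (plW Q p q S) w h1 h2)
      (fun l => P7b_inl Q _ _ S l _ rfl) (fun i => P7b_xy Q _ _ S i _ rfl)
      (fun w h1 h2 => P7b_other Q _ _ S w h1 h2) w
  have key2 : (fun w => plW (Q.plus p q) p' q' (plW Q p q S) (w.map e.symm)) =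
      plW Q (Fin.append p p') (Fin.append q q') S := by
    funext w
    rw [key, List.map_map, Equiv.self_comp_symm, List.map_id]
  have h := RE_relabel e hs ht (plW (Q.plus p q) p' q' (plW Q p q S))
  rw [key2] at h
  exact h

end Cea.N
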