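import Pool.Agent.Lib.MP_cea156_al.N.P1

/-! P1c: substitutions into brackets. If `expand w = some l` and `l` is a path then `wordSub g w = wordSub χ l` (induction on `w`); compare coefficients with
`subst_apply` (`exists_contract`, `expand_inj`, `length_expand`). -/

set_option autoImplicit false

namespace Cea.N

open Finset

theorem P1c_wordSub_congr {A B R : Type} [CommRing R] {φ ψ : A → NC B R} (u : List A) :
    ∀ (w : List B), (∀ a (v : List B), v <:+: w → φ a v = ψ a v) → wordSub φ u w = wordSub ψ u w := by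
  induction u with
  | nil => intro w _; rfl
  | cons a u ih =>
    intro w h
    show (φ a * wordSub φ u) w = (ψ a * wordSub ψ u) w
    rw [mul_apply, mul_apply]
    refine sum_congr rfl fun k _ => ?_
    rw [h a (w.take k) (List.take_prefix k w).isInfix]
    rw [ih (w.drop k) fun b v hv => h b v (hv.trans (List.drop_suffix k w).isInfix)]

/-- the coefficient of `w` only depends on the coefficients of `φ` at factors of `w` -/
theorem subst_congr_infix {A B R : Type} [CommRing R] [Fintype A] {φ ψ : A → NC B R} (f : NC A R) {w : List B}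
    (h : ∀ a (u : List B), u <:+: w → φ a u = ψ a u) : subst φ f w = subst ψ f w := by
  unfold subst
  refine sum_congr rfl fun m _ => sum_congr rfl fun u _ => ?_
  rw [P1c_wordSub_congr (List.ofFn u) w h]

variable {V R : Type} [DecidableEq V] [CommRing R] {Q : Quiv V} {k : V}

theorem P1c_wordSub_expand {B : Type} {χ : Q.A → NC B R} {g : (Q.pre k).A → NC B R}
    (h1 : ∀ c : Q.Old k, g (Sum.inl c) = χ c.1)
    (h2 : ∀ (a : Q.In k) (b : Q.Out k), g (Q.cmp a b) = χ a.1 * χ b.1) (u : List (Q.pre k).A) :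
    ∀ l : List Q.A, Q.expand k u = some l → wordSub g u = wordSub χ l := by
  induction u with
  | nil =>
    intro l hl
    have e : l = [] := by
      have : Q.expand k [] = some [] := rfl
      rw [this] at hl
      exact (Option.some.inj hl).symm
    rw [e]
    rfl
  | cons x u ih =>
    intro l hl
    rcases x with c | ⟨a, b⟩ | c
    · have e : Q.expand k ((Sum.inl c : (Q.pre k).A) :: u) = (Q.expand k u).map fun l => c.1 :: l := rfl
      rw [e, Option.map_eq_some_iff] at hl
      obtain ⟨l', hl', rfl⟩ := hl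
      show g (Sum.inl c) * wordSub g u = χ c.1 * wordSub χ l'
      rw [h1, ih l' hl']
    · have e : Q.expand k ((Sum.inr (Sum.inl (a, b)) : (Q.pre k).A) :: u) =
          (Q.expand k u).map fun l => a.1 :: b.1 :: l := rfl
      rw [e, Option.map_eq_some_iff] at hl
      obtain ⟨l', hl', rfl⟩ := hl
      show g (Q.cmp a b) * wordSub g u = χ a.1 * (χ b.1 * wordSub χ l')
      rw [h2, ih l' hl', mul_assoc]
    · have e : Q.expand k ((Sum.inr (Sum.inr c) : (Q.pre k).A) :: u) = none := rfl
      rw [e] at hl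
      exact absurd hl (by simp)

theorem P1c_br_ne {f : NC Q.A R} {u : List (Q.pre k).A} (h : br Q k f u ≠ 0) :
    ∃ l, Q.expand k u = some l ∧ br Q k f u = f l := by
  cases hu : Q.expand k u with
  | none =>
    exfalso
    apply h
    unfold br
    rw [hu]
  | some l => exact ⟨l, rfl, br_of_some Q k f hu⟩

theorem subst_of_br (hk : NoLoop Q k) {B : Type} {χ : Q.A → NC B R} (hχ : Z0 χ) {g : (Q.pre k).A → NC B R} (hg : Z0 g)
    (h1 : ∀ c : Q.Old k, g (Sum.inl c) = χ c.1) (h2 : ∀ (a : Q.In k) (b : Q.Out k), g (Q.cmp a b) = χ a.1 * χ b.1)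
    {f : NC Q.A R} (hf : ∀ w, f w ≠ 0 → ∃ i j, i ≠ k ∧ j ≠ k ∧ Q.IsPath i w j) :
    subst g (br Q k f) = subst χ f := by
  ext w
  rw [subst_apply hg (br Q k f) w (le_refl w.length), subst_apply hχ f w (le_refl w.length)]
  have key : ∀ u : List (Q.pre k).A, br Q k f u * wordSub g u w ≠ 0 →
      ∃ l, Q.expand k u = some l ∧ br Q k f u = f l ∧ wordSub g u = wordSub χ l ∧ l.length ≤ w.length := by
    intro u hu
    obtain ⟨l, hl, e⟩ := P1c_br_ne (left_ne_zero_of_mul hu)
    have e2 := P1c_wordSub_expand h1 h2 u l hl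
    refine ⟨l, hl, e, e2, ?_⟩
    by_contra hlt
    push Not at hlt
    apply right_ne_zero_of_mul hu
    rw [e2]
    exact wordSub_short hχ hlt
  refine Finset.sum_bij_ne_zero (fun u _ _ => (Q.expand k u).getD []) ?_ ?_ ?_ ?_
  · intro u _ hu
    obtain ⟨l, hl, _, _, hlen⟩ := key u hu
    rw [hl]
    exact mem_wds.2 hlen
  · intro u _ hu v _ hv huv
    obtain ⟨l, hl, _, _, _⟩ := key u hu
    obtain ⟨l', hl', _, _, _⟩ := key v hv
    simp only [hl, hl', Option.getD_some] at huv
    subst huv
    exact expand_inj Q k hl hl'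
  · intro l hl hne
    obtain ⟨i, j, hi, hj, hp⟩ := hf l (left_ne_zero_of_mul hne)
    obtain ⟨u, hu⟩ := exists_contract Q k hk hi hj hp
    have hlen := (length_expand Q k hu).1
    have hl' := mem_wds.1 hl
    refine ⟨u, mem_wds.2 (hlen.trans hl'), ?_, ?_⟩
    · rw [br_of_some Q k f hu, P1c_wordSub_expand h1 h2 u l hu]
      exact hne
    · rw [hu]
      rfl
  · intro u _ hu
    obtain ⟨l, hl, e, e2, _⟩ := key u hu
    rw [e, e2, hl]
    rfl

end Cea.N
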