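import Pool.Agent.Lib.MP_cea156_al.N.U4a
import Pool.Agent.Lib.MP_cea156_al.N.A8

/-! P8c: absorbing terms which contain an `x` and no `y`. Take `f i = Dec F i` with respect to the marked letters `x_i` (`cyc_dec`), and
`φ`: `y_i ↦ y_i - f i`, all other letters fixed; its inverse is `y_i ↦ y_i + f i` because `f i` contains no `y`. -/

set_option autoImplicit false

namespace Cea.N

open Finset

variable {V R : Type} [DecidableEq V] [CommRing R] [Algebra ℚ R] {Q : Quiv V} {m : ℕ} {p q : Fin m → V}

/-- the letters `x_i` -/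
def P8c_mk (Q : Quiv V) (p q : Fin m → V) : Fin m → (Q.plus p q).A := fun i => Sum.inr (Sum.inl i)

/-- the letters `y_i` -/
def P8c_my (Q : Quiv V) (p q : Fin m → V) : Fin m → (Q.plus p q).A := fun i => Sum.inr (Sum.inr i)

/-- the term subtracted from a letter -/
noncomputable def P8c_sub (F : NC (Q.plus p q).A R) : (Q.plus p q).A → NC (Q.plus p q).A R
  | Sum.inl _ => 0
  | Sum.inr (Sum.inl _) => 0
  | Sum.inr (Sum.inr i) => Dec (P8c_mk Q p q) F i

omit [Algebra ℚ R] in
theorem P8c_cyc_ne {A : Type} {F : NC A R} {w : List A} (h : cyc F w ≠ 0) :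
    ∃ k, F (w.rotate k) ≠ 0 := by
  obtain ⟨k, _, hk⟩ := Finset.exists_ne_zero_of_sum_ne_zero h
  exact ⟨k, hk⟩

theorem P8c_dec_ne {A I : Type} {mk : I → A} {F : NC A R} {i : I} {w : List A}
    (h : Dec mk F i w ≠ 0) : cyc F (mk i :: w) ≠ 0 := by
  intro h0
  apply h
  rw [Dec, h0, mul_zero]

omit [DecidableEq V] [Algebra ℚ R] in
theorem P8c_X_apply {A : Type} [DecidableEq A] (a b : A) :
    (X a : NC A R) [b] = (1 : Matrix A A R) a b := by
  unfold X mon
  rw [Matrix.one_apply]
  by_cases h : a = b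
  · rw [if_pos h, if_pos (by rw [h])]
  · rw [if_neg h, if_neg (fun h1 => h (by simpa using h1.symm))]

omit [Algebra ℚ R] in
/-- a substitution which fixes the letters of all words of `F` -/
theorem P8c_fix {A : Type} [Fintype A] [DecidableEq A] {φ : A → NC A R} {F : NC A R}
    (h : ∀ w : List A, F w ≠ 0 → ∀ a ∈ w, φ a = X a) : subst φ F = F := by
  have key : ∀ u : List A, (∀ a ∈ u, φ a = X a) → wordSub φ u = wordSub (fun a => (X a : NC A R)) u := by
    intro u
    induction u with
    | nil => intro _; rfl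
    | cons a u ih =>
      intro hu
      have h1 := ih fun b hb => hu b (List.mem_cons_of_mem _ hb)
      have h2 := hu a List.mem_cons_self
      show φ a * wordSub φ u = (X a : NC A R) * wordSub (fun a => (X a : NC A R)) u
      rw [h1, h2]
  have e : subst φ F = subst (fun a => (X a : NC A R)) F := by
    ext w
    unfold subst
    refine Finset.sum_congr rfl fun k _ => Finset.sum_congr rfl fun u _ => ?_
    by_cases h0 : F (List.ofFn u) = 0
    · rw [h0, zero_mul, zero_mul]
    · rw [key _ (h _ h0)]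
  rw [e, subst_id]

theorem absorb {S : NC Q.A R} {F : NC (Q.plus p q).A R} (hF : Pot (Q.plus p q) F) (h2 : Len 2 F)
    (hx : ∀ w : List (Q.plus p q).A, F w ≠ 0 → ∃ i : Fin m, (Sum.inr (Sum.inl i) : (Q.plus p q).A) ∈ w)
    (hy : ∀ w : List (Q.plus p q).A, F w ≠ 0 → ∀ i : Fin m, (Sum.inr (Sum.inr i) : (Q.plus p q).A) ∉ w) :
    RE (Q.plus p q) (Q.plus p q) (plW Q p q S + F) (plW Q p q S) := by
  have hinj : Function.Injective (P8c_mk Q p q) := fun i j h => by
    have h1 : (Sum.inl i : Fin m ⊕ Fin m) = Sum.inl j := Sum.inr_injective h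
    exact Sum.inl_injective h1
  -- words of the cyclic sum
  have hcyc : ∀ w, cyc F w ≠ 0 → (Q.plus p q).IsCycle w := fun w h => Pot_cyc hF w h
  have hcy : ∀ (w : List (Q.plus p q).A) (i : Fin m), cyc F w ≠ 0 →
      (Sum.inr (Sum.inr i) : (Q.plus p q).A) ∉ w := by
    intro w i h hmem
    obtain ⟨k, hk⟩ := P8c_cyc_ne h
    exact hy _ hk i (List.mem_rotate.2 hmem)
  have hMk : Mk (P8c_mk Q p q) 1 F := by
    intro w hw
    obtain ⟨i, hi⟩ := hx w hw
    unfold nmk
    rw [Nat.one_le_iff_ne_zero, ← Nat.pos_iff_ne_zero, List.length_pos_iff_exists_mem]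
    exact ⟨_, List.mem_filter.2 ⟨hi, by simpa using ⟨i, rfl⟩⟩⟩
  have hdec : cyc (∑ i, X (P8c_mk Q p q i) * Dec (P8c_mk Q p q) F i) = cyc F := by
    apply cyc_dec hinj
    intro w hw
    by_contra h
    have := Mk_cyc hMk w h
    omega
  have hlen1 : ∀ i, Len 1 (Dec (P8c_mk Q p q) F i) := fun i => len_dec _ h2 i
  -- the substitution
  set φ : (Q.plus p q).A → NC (Q.plus p q).A R := fun a => X a - P8c_sub F a with hφ
  have hsub_path : ∀ a w, P8c_sub F a w ≠ 0 →
      w ≠ [] ∧ (Q.plus p q).IsPath ((Q.plus p q).s a) w ((Q.plus p q).t a) := by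
    intro a w h
    rcases a with c | i | i
    · exact absurd rfl h
    · exact absurd rfl h
    · have h' : Dec (P8c_mk Q p q) F i w ≠ 0 := h
      refine ⟨fun h0 => ?_, ?_⟩
      · have := hlen1 i w h'
        rw [h0] at this
        simp at this
      · obtain ⟨-, j, hj⟩ := hcyc _ (P8c_dec_ne h')
        obtain ⟨h3, h4⟩ := hj
        rw [← h3] at h4
        exact h4
  have hXpath : ∀ a w, (X a : NC (Q.plus p q).A R) w ≠ 0 →
      w ≠ [] ∧ (Q.plus p q).IsPath ((Q.plus p q).s a) w ((Q.plus p q).t a) := by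
    intro a w h
    have hw : w = [a] := by
      by_contra hne
      exact h (if_neg hne)
    rw [hw]
    exact ⟨List.cons_ne_nil _ _, rfl, rfl⟩
  have hpath : ∀ a w, φ a w ≠ 0 →
      w ≠ [] ∧ (Q.plus p q).IsPath ((Q.plus p q).s a) w ((Q.plus p q).t a) := by
    intro a w h
    by_cases h1 : (X a : NC (Q.plus p q).A R) w = 0
    · apply hsub_path
      intro h3
      apply h
      rw [hφ]
      show (X a - P8c_sub F a : NC (Q.plus p q).A R) w = 0
      rw [sub_apply, h1, h3, sub_zero]
    · exact hXpath a w h1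
  have hz : Z0 φ := by
    intro a
    by_contra h
    exact (hpath a [] h).1 rfl
  set M : Matrix (Q.plus p q).A (Q.plus p q).A R := Matrix.of fun a b => P8c_sub F a [b] with hM
  have hlin : lin φ = 1 - M := by
    ext a b
    show (X a - P8c_sub F a : NC (Q.plus p q).A R) [b] = (1 - M) a b
    rw [sub_apply, P8c_X_apply, Matrix.sub_apply]
    rfl
  have hMM : M * M = 0 := by
    ext a b
    rw [Matrix.mul_apply, Matrix.zero_apply]
    apply Finset.sum_eq_zero
    intro c _
    by_contra hne
    have h1 : P8c_sub F a [c] ≠ 0 := fun h => hne (by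
      show P8c_sub F a [c] * P8c_sub F c [b] = 0
      rw [h, zero_mul])
    have h3 : P8c_sub F c [b] ≠ 0 := fun h => hne (by
      show P8c_sub F a [c] * P8c_sub F c [b] = 0
      rw [h, mul_zero])
    rcases c with c | j | j
    · exact h3 rfl
    · exact h3 rfl
    · rcases a with c | i | i
      · exact h1 rfl
      · exact h1 rfl
      · have h1' : Dec (P8c_mk Q p q) F i [Sum.inr (Sum.inr j)] ≠ 0 := h1
        exact hcy _ j (P8c_dec_ne h1') (List.mem_cons_of_mem _ List.mem_cons_self)
  refine ⟨φ, ⟨hpath, 1 + M, ?_, ?_⟩, ?_⟩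
  · rw [hlin]
    have : (1 - M) * (1 + M) = 1 - M * M := by noncomm_ring
    rw [this, hMM, sub_zero]
  · rw [hlin]
    have : (1 + M) * (1 - M) = 1 - M * M := by noncomm_ring
    rw [this, hMM, sub_zero]
  · have e1 : subst φ F = F := by
      apply P8c_fix
      intro w hw a ha
      rcases a with c | i | i
      · exact sub_zero _
      · exact sub_zero _
      · exact absurd ha (hy w hw i)
    have e2 : subst φ (plW Q p q S) = plW Q p q S -
        ∑ i, X (P8c_mk Q p q i) * Dec (P8c_mk Q p q) F i := by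
      rw [subst_plW hz, plW_eq_sum]
      have e3 : (fun a => φ (Sum.inl a)) = fun a => (X (Sum.inl a) : NC (Q.plus p q).A R) := by
        funext a
        exact sub_zero _
      have e4 : ∀ i : Fin m, φ (Sum.inr (Sum.inl i)) * φ (Sum.inr (Sum.inr i)) =
          (X (Sum.inr (Sum.inl i)) : NC (Q.plus p q).A R) * (X (Sum.inr (Sum.inr i)) : NC (Q.plus p q).A R) -
            X (P8c_mk Q p q i) * Dec (P8c_mk Q p q) F i := by
        intro i
        have e5 : φ (Sum.inr (Sum.inl i)) = X (P8c_mk Q p q i) := sub_zero _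
        have e6 : φ (Sum.inr (Sum.inr i)) =
            (X (Sum.inr (Sum.inr i)) : NC (Q.plus p q).A R) - Dec (P8c_mk Q p q) F i := rfl
        rw [e5, e6, mul_sub]
        rfl
      rw [e3, Finset.sum_congr rfl fun i _ => e4 i, Finset.sum_sub_distrib]
      abel
    rw [subst_add, e1, e2, cyc_add, cyc_sub, hdec]
    abel

end Cea.N
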