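import Pool.Agent.Lib.MP_cea156_al.N.P8b
import Pool.Agent.Lib.MP_cea156_al.N.P8c
import Pool.Agent.Lib.MP_cea156_al.N.P1c

/-! P8d: the double premutation (Derksen-Weyman-Zelevinsky, Theorem 5.7). Let `bb`: `x_i ↦ x_i + a_i b_i`, `a ↦ -a` for `t a = k`, all other letters fixed. By
`rel_Z`, `cyc (subst bb Z₂) = cyc (subst g' (br Q k W) + ∑ x_i y_i)`, where `g'`: `c ↦ c`, `[ab] ↦ x + a b`. By `subst_of_br`,
`subst (X ∘ inl) W = subst g₀ (br Q k W)`, `g₀`: `c ↦ c`, `[ab] ↦ a b`. So `F = subst g' (br Q k W) - subst (X ∘ inl) W` only has words which contain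
an `x` (`subst_congr_infix`) and no `y`; it has length at least 2 because the words of `br Q k W` have length at least 2
(`length_expand`). Then `absorb`. -/

set_option autoImplicit false

namespace Cea.N

open Finset

variable {V R : Type} [DecidableEq V] [CommRing R] {Q : Quiv V} {k : V}

noncomputable def bb (Q : Quiv V) (k : V) : (QIO Q k).A → NC (QIO Q k).A R
  | Sum.inl c => if Q.t c = k then -(X (Sum.inl c) : NC (QIO Q k).A R) else (X (Sum.inl c) : NC (QIO Q k).A R)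
  | Sum.inr (Sum.inl i) => (X (Sum.inr (Sum.inl i)) : NC (QIO Q k).A R) +
      (X (Sum.inl ((ioE Q k).symm i).1.1) : NC (QIO Q k).A R) * (X (Sum.inl ((ioE Q k).symm i).2.1) : NC (QIO Q k).A R)
  | Sum.inr (Sum.inr i) => (X (Sum.inr (Sum.inr i)) : NC (QIO Q k).A R)

/-- the sign of a letter -/
def P8d_sg (R : Type) [CommRing R] (Q : Quiv V) (k : V) : (QIO Q k).A → R
  | Sum.inl c => if Q.t c = k then -1 else 1
  | Sum.inr _ => 1

theorem P8d_sg_sq (a : (QIO Q k).A) : P8d_sg R Q k a * P8d_sg R Q k a = 1 := by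
  rcases a with c | c
  · show (if Q.t c = k then (-1 : R) else 1) * (if Q.t c = k then (-1 : R) else 1) = 1
    by_cases h : Q.t c = k
    · rw [if_pos h]; ring
    · rw [if_neg h]; ring
  · exact mul_one 1

theorem P8d_Sup_iff {i j : V} {f : NC Q.A R} (h : Sup Q i j f) (h0 : f [] = 0) (w : List Q.A) (hw : f w ≠ 0) :
    w ≠ [] ∧ Q.IsPath i w j := by
  refine ⟨?_, h w hw⟩
  rintro rfl
  exact hw h0

theorem P8d_X_nil {A : Type} [DecidableEq A] (a : A) : (X a : NC A R) [] = 0 := by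
  show (if ([] : List A) = [a] then (1 : R) else 0) = 0
  rw [if_neg (by simp)]

theorem P8d_bb_sup (a : (QIO Q k).A) :
    Sup (QIO Q k) ((QIO Q k).s a) ((QIO Q k).t a) (bb Q k a : NC (QIO Q k).A R) := by
  match a with
  | Sum.inl c =>
    show Sup (QIO Q k) _ _ (if Q.t c = k then -(X (Sum.inl c) : NC (QIO Q k).A R)
      else (X (Sum.inl c) : NC (QIO Q k).A R))
    by_cases h : Q.t c = k
    · rw [if_pos h]
      exact Sup_neg (Sup_X (QIO Q k) (Sum.inl c))
    · rw [if_neg h]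
      exact Sup_X (QIO Q k) (Sum.inl c)
  | Sum.inr (Sum.inl i) =>
    show Sup (QIO Q k) _ _ ((X (Sum.inr (Sum.inl i)) : NC (QIO Q k).A R) +
      (X (Sum.inl ((ioE Q k).symm i).1.1) : NC (QIO Q k).A R) *
        (X (Sum.inl ((ioE Q k).symm i).2.1) : NC (QIO Q k).A R))
    refine Sup_add (Sup_X (QIO Q k) (Sum.inr (Sum.inl i))) ?_
    have h1 := Sup_X (R := R) (QIO Q k) (Sum.inl ((ioE Q k).symm i).1.1)
    have h2 := Sup_X (R := R) (QIO Q k) (Sum.inl ((ioE Q k).symm i).2.1)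
    have e1 : (QIO Q k).t (Sum.inl ((ioE Q k).symm i).1.1) = k := ((ioE Q k).symm i).1.2
    have e2 : (QIO Q k).s (Sum.inl ((ioE Q k).symm i).2.1) = k := ((ioE Q k).symm i).2.2
    rw [e1] at h1
    rw [e2] at h2
    exact Sup_mul h1 h2
  | Sum.inr (Sum.inr i) => exact Sup_X (QIO Q k) (Sum.inr (Sum.inr i))

theorem P8d_xab_nil {A : Type} [DecidableEq A] (x a b : A) : (X x + X a * X b : NC A R) [] = 0 := by
  rw [add_apply, P8d_X_nil, mul_nil, P8d_X_nil, zero_mul, add_zero]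

theorem P8d_ab_nil {A : Type} [DecidableEq A] (a b : A) : (X a * X b : NC A R) [] = 0 := by
  rw [mul_nil, P8d_X_nil, zero_mul]

theorem P8d_ite_nil {A : Type} [DecidableEq A] (a : A) (p : Prop) [Decidable p] :
    (if p then -(X a : NC A R) else (X a : NC A R) : NC A R) [] = 0 := by
  by_cases h : p
  · rw [if_pos h, neg_apply, P8d_X_nil, neg_zero]
  · rw [if_neg h, P8d_X_nil]

theorem P8d_bb_nil (a : (QIO Q k).A) : (bb Q k a : NC (QIO Q k).A R) [] = 0 := by
  match a with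
  | Sum.inl c => exact P8d_ite_nil _ _
  | Sum.inr (Sum.inl i) => exact P8d_xab_nil _ _ _
  | Sum.inr (Sum.inr i) => exact P8d_X_nil _

theorem P8d_X1 {A : Type} [DecidableEq A] (a b : A) : (X a : NC A R) [b] = if a = b then 1 else 0 := by
  rw [P8c_X_apply, Matrix.one_apply]

theorem P8d_mul1 {A : Type} [DecidableEq A] (a b c : A) : (X a * X b : NC A R) [c] = 0 := by
  rw [P8b_mon2, if_neg (by simp)]

theorem P8d_xab1 {A : Type} [DecidableEq A] (x a b c : A) :
    (X x + X a * X b : NC A R) [c] = if x = c then 1 else 0 := by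
  rw [add_apply, P8d_mul1, add_zero, P8d_X1]

theorem P8d_ite1 {A : Type} [DecidableEq A] (a b : A) (p : Prop) [Decidable p] :
    (if p then -(X a : NC A R) else (X a : NC A R) : NC A R) [b] =
      if a = b then (if p then (-1 : R) else 1) else 0 := by
  by_cases h : p
  · rw [if_pos h, if_pos h, neg_apply, P8d_X1]
    by_cases h1 : a = b
    · rw [if_pos h1, if_pos h1]
    · rw [if_neg h1, if_neg h1, neg_zero]
  · rw [if_neg h, if_neg h, P8d_X1]

theorem P8d_lin (a b : (QIO Q k).A) :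
    (bb Q k a : NC (QIO Q k).A R) [b] = if a = b then P8d_sg R Q k a else 0 := by
  match a with
  | Sum.inl c => exact P8d_ite1 (Sum.inl c : (QIO Q k).A) b _
  | Sum.inr (Sum.inl i) => exact P8d_xab1 (Sum.inr (Sum.inl i) : (QIO Q k).A) _ _ b
  | Sum.inr (Sum.inr i) => exact P8d_X1 (Sum.inr (Sum.inr i) : (QIO Q k).A) b

theorem bb_iso (hk : NoLoop Q k) : Iso (QIO Q k) (QIO Q k) (bb Q k : (QIO Q k).A → NC (QIO Q k).A R) := by
  have hl : lin (bb Q k : (QIO Q k).A → NC (QIO Q k).A R) = Matrix.diagonal (P8d_sg R Q k) := by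
    ext a b
    show (bb Q k a : NC (QIO Q k).A R) [b] = _
    rw [P8d_lin, Matrix.diagonal_apply]
  have hs : Matrix.diagonal (P8d_sg R Q k) * Matrix.diagonal (P8d_sg R Q k) =
      (1 : Matrix (QIO Q k).A (QIO Q k).A R) := by
    rw [Matrix.diagonal_mul_diagonal, ← Matrix.diagonal_one]
    congr 1
    funext a
    exact P8d_sg_sq a
  refine ⟨fun a w hw => P8d_Sup_iff (P8d_bb_sup a) (P8d_bb_nil a) w hw, Matrix.diagonal (P8d_sg R Q k), ?_, ?_⟩
  · rw [hl]; exact hs
  · rw [hl]; exact hs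

/-- `c ↦ c`, `[ab] ↦ x + a b` -/
noncomputable def P8d_g1 (Q : Quiv V) (k : V) : (Q.pre k).A → NC (QIO Q k).A R
  | Sum.inl c => (X (Sum.inl c.1) : NC (QIO Q k).A R)
  | Sum.inr (Sum.inl ab) => (X (Sum.inr (Sum.inl (ioE Q k ab))) : NC (QIO Q k).A R) +
      (X (Sum.inl ab.1.1) : NC (QIO Q k).A R) * (X (Sum.inl ab.2.1) : NC (QIO Q k).A R)
  | Sum.inr (Sum.inr _) => 0

/-- `c ↦ c`, `[ab] ↦ a b` -/
noncomputable def P8d_g0 (Q : Quiv V) (k : V) : (Q.pre k).A → NC (QIO Q k).A R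
  | Sum.inl c => (X (Sum.inl c.1) : NC (QIO Q k).A R)
  | Sum.inr (Sum.inl ab) =>
      (X (Sum.inl ab.1.1) : NC (QIO Q k).A R) * (X (Sum.inl ab.2.1) : NC (QIO Q k).A R)
  | Sum.inr (Sum.inr _) => 0

theorem P8d_Sup_zero (i j : V) : Sup Q i j (0 : NC Q.A R) := fun w hw => absurd (zero_apply w) hw

theorem P8d_ab_sup (ab : Q.In k × Q.Out k) : Sup (QIO Q k) (Q.s ab.1.1) (Q.t ab.2.1)
    ((X (Sum.inl ab.1.1) : NC (QIO Q k).A R) * (X (Sum.inl ab.2.1) : NC (QIO Q k).A R)) := by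
  have h1 := Sup_X (R := R) (QIO Q k) (Sum.inl ab.1.1)
  have h2 := Sup_X (R := R) (QIO Q k) (Sum.inl ab.2.1)
  have e1 : (QIO Q k).t (Sum.inl ab.1.1) = k := ab.1.2
  have e2 : (QIO Q k).s (Sum.inl ab.2.1) = k := ab.2.2
  rw [e1] at h1
  rw [e2] at h2
  exact Sup_mul h1 h2

theorem P8d_g0_ps : PS (Q.pre k) (QIO Q k) (P8d_g0 Q k : (Q.pre k).A → NC (QIO Q k).A R) := by
  intro a
  match a with
  | Sum.inl c => exact Sup_X (QIO Q k) (Sum.inl c.1)
  | Sum.inr (Sum.inl ab) => exact P8d_ab_sup ab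
  | Sum.inr (Sum.inr c) => exact P8d_Sup_zero _ _

theorem P8d_g1_ps : PS (Q.pre k) (QIO Q k) (P8d_g1 Q k : (Q.pre k).A → NC (QIO Q k).A R) := by
  intro a
  match a with
  | Sum.inl c => exact Sup_X (QIO Q k) (Sum.inl c.1)
  | Sum.inr (Sum.inl ab) =>
    refine Sup_add ?_ (P8d_ab_sup ab)
    have h1 := Sup_X (R := R) (QIO Q k) (Sum.inr (Sum.inl (ioE Q k ab)))
    have e1 : (QIO Q k).s (Sum.inr (Sum.inl (ioE Q k ab))) = Q.s ab.1.1 := by
      show Q.s ((ioE Q k).symm (ioE Q k ab)).1.1 = _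
      rw [Equiv.symm_apply_apply]
    have e2 : (QIO Q k).t (Sum.inr (Sum.inl (ioE Q k ab))) = Q.t ab.2.1 := by
      show Q.t ((ioE Q k).symm (ioE Q k ab)).2.1 = _
      rw [Equiv.symm_apply_apply]
    rw [e1, e2] at h1
    exact h1
  | Sum.inr (Sum.inr c) => exact P8d_Sup_zero _ _

theorem P8d_g0_z : Z0 (P8d_g0 Q k : (Q.pre k).A → NC (QIO Q k).A R) := by
  intro a
  match a with
  | Sum.inl c => exact P8d_X_nil _
  | Sum.inr (Sum.inl ab) =>
    exact P8d_ab_nil _ _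
  | Sum.inr (Sum.inr c) => exact zero_apply _

theorem P8d_g1_z : Z0 (P8d_g1 Q k : (Q.pre k).A → NC (QIO Q k).A R) := by
  intro a
  match a with
  | Sum.inl c => exact P8d_X_nil _
  | Sum.inr (Sum.inl ab) =>
    exact P8d_xab_nil _ _ _
  | Sum.inr (Sum.inr c) => exact zero_apply _

theorem P8d_bb_gx (hk : NoLoop Q k) (e : (Q.pre k).A) :
    subst (bb Q k) (gx Q k e : NC (QIO Q k).A R) = (P8d_g1 Q k e : NC (QIO Q k).A R) := by
  have hz : Z0 (bb Q k : (QIO Q k).A → NC (QIO Q k).A R) := fun a => P8d_bb_nil a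
  match e with
  | Sum.inl c =>
    exact (subst_X hz (Sum.inl c.1)).trans (if_neg c.2.2)
  | Sum.inr (Sum.inl ab) =>
    show subst (bb Q k) (X (Sum.inr (Sum.inl (ioE Q k ab))) : NC (QIO Q k).A R) =
      (X (Sum.inr (Sum.inl (ioE Q k ab))) : NC (QIO Q k).A R) +
      (X (Sum.inl ab.1.1) : NC (QIO Q k).A R) * (X (Sum.inl ab.2.1) : NC (QIO Q k).A R)
    refine (subst_X hz (Sum.inr (Sum.inl (ioE Q k ab)))).trans ?_
    show (X (Sum.inr (Sum.inl (ioE Q k ab))) : NC (QIO Q k).A R) +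
      (X (Sum.inl ((ioE Q k).symm (ioE Q k ab)).1.1) : NC (QIO Q k).A R) *
        (X (Sum.inl ((ioE Q k).symm (ioE Q k ab)).2.1) : NC (QIO Q k).A R) = _
    rw [Equiv.symm_apply_apply]
  | Sum.inr (Sum.inr c) =>
    show subst (bb Q k) (0 : NC (QIO Q k).A R) = 0
    exact subst_zero _

/-- all letters of the words of a substitution occur in the images of the letters -/
theorem P8d_wordSub_mem {A B : Type} {φ : A → NC B R} {P : B → Prop}
    (h : ∀ a w, φ a w ≠ 0 → ∀ c ∈ w, P c) (u : List A) :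
    ∀ w : List B, wordSub φ u w ≠ 0 → ∀ c ∈ w, P c := by
  induction u with
  | nil =>
    intro w hw c hc
    have : w = [] := by
      by_contra h1
      apply hw
      show (if w.isEmpty then (1 : R) else 0) = 0
      rw [if_neg]
      intro h2
      exact h1 (List.isEmpty_iff.1 h2)
    rw [this] at hc
    exact absurd hc (List.not_mem_nil)
  | cons a u ih =>
    intro w hw c hc
    have h1 : (φ a * wordSub φ u : NC B R) w ≠ 0 := hw
    rw [mul_apply] at h1
    obtain ⟨n, _, hn⟩ := exists_ne_zero_of_sum_ne_zero h1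
    have h2 := left_ne_zero_of_mul hn
    have h3 := right_ne_zero_of_mul hn
    rw [← List.take_append_drop n w, List.mem_append] at hc
    rcases hc with hc | hc
    · exact h a _ h2 c hc
    · exact ih _ h3 c hc

theorem P8d_subst_mem {A B : Type} [Fintype A] {φ : A → NC B R} {P : B → Prop}
    (h : ∀ a w, φ a w ≠ 0 → ∀ c ∈ w, P c) (f : NC A R) (w : List B) (hw : subst φ f w ≠ 0) :
    ∀ c ∈ w, P c := by
  unfold subst at hw
  obtain ⟨m, _, hm⟩ := exists_ne_zero_of_sum_ne_zero hw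
  obtain ⟨u, _, hu⟩ := exists_ne_zero_of_sum_ne_zero hm
  exact P8d_wordSub_mem h _ w (right_ne_zero_of_mul hu)

/-- the letters different from the `y_i` -/
def P8d_ny (Q : Quiv V) (k : V) (c : (QIO Q k).A) : Prop := ∀ i, c ≠ Sum.inr (Sum.inr i)

theorem P8d_X_mem {A : Type} [DecidableEq A] {P : A → Prop} {a : A} (h : P a) (w : List A)
    (hw : (X a : NC A R) w ≠ 0) : ∀ c ∈ w, P c := by
  have := A5_X_ne hw
  rw [this]
  intro c hc
  rw [List.mem_singleton] at hc
  rw [hc]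
  exact h

theorem P8d_add_ne {A : Type} {f g : NC A R} {w : List A} (h : (f + g : NC A R) w ≠ 0) :
    f w ≠ 0 ∨ g w ≠ 0 := by
  by_contra h1
  rw [not_or, not_not, not_not] at h1
  apply h
  rw [add_apply, h1.1, h1.2, add_zero]

theorem P8d_sub_ne {A : Type} {f g : NC A R} {w : List A} (h : (f - g : NC A R) w ≠ 0) :
    f w ≠ 0 ∨ g w ≠ 0 := by
  by_contra h1
  rw [not_or, not_not, not_not] at h1
  apply h
  rw [sub_apply, h1.1, h1.2, sub_zero]

theorem P8d_XX_ne {A : Type} [DecidableEq A] {a b : A} {w : List A} (h : (X a * X b : NC A R) w ≠ 0) :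
    w = [a, b] := by
  rw [P8b_mon2] at h
  by_contra h1
  exact h (if_neg h1)

theorem P8d_XX_mem {A : Type} [DecidableEq A] {P : A → Prop} {a b : A} (ha : P a) (hb : P b) (w : List A)
    (hw : (X a * X b : NC A R) w ≠ 0) : ∀ c ∈ w, P c := by
  rw [P8d_XX_ne hw]
  intro c hc
  rcases List.mem_cons.1 hc with h | h
  · rw [h]; exact ha
  · rw [List.mem_singleton] at h
    rw [h]; exact hb

theorem P8d_g0_mem (a : (Q.pre k).A) (w : List (QIO Q k).A) (hw : (P8d_g0 Q k a : NC (QIO Q k).A R) w ≠ 0) :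
    ∀ c ∈ w, P8d_ny Q k c := by
  match a with
  | Sum.inl c => exact P8d_X_mem (fun i h => by cases h) w hw
  | Sum.inr (Sum.inl ab) => exact P8d_XX_mem (fun i h => by cases h) (fun i h => by cases h) w hw
  | Sum.inr (Sum.inr c) => exact absurd (zero_apply w) hw

theorem P8d_g1_mem (a : (Q.pre k).A) (w : List (QIO Q k).A) (hw : (P8d_g1 Q k a : NC (QIO Q k).A R) w ≠ 0) :
    ∀ c ∈ w, P8d_ny Q k c := by
  match a with
  | Sum.inl c => exact P8d_X_mem (fun i h => by cases h) w hw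
  | Sum.inr (Sum.inl ab) =>
    rcases P8d_add_ne hw with h | h
    · exact P8d_X_mem (fun i h => by cases h) w h
    · exact P8d_XX_mem (fun i h => by cases h) (fun i h => by cases h) w h
  | Sum.inr (Sum.inr c) => exact absurd (zero_apply w) hw

/-- without letters `x_i` the two substitutions agree -/
theorem P8d_agree (a : (Q.pre k).A) (w : List (QIO Q k).A)
    (hw : ∀ i : Fin (nIO Q k), (Sum.inr (Sum.inl i) : (QIO Q k).A) ∉ w) :
    (P8d_g1 Q k a : NC (QIO Q k).A R) w = (P8d_g0 Q k a : NC (QIO Q k).A R) w := by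
  match a with
  | Sum.inl c => rfl
  | Sum.inr (Sum.inl ab) =>
    show ((X (Sum.inr (Sum.inl (ioE Q k ab))) : NC (QIO Q k).A R) +
      (X (Sum.inl ab.1.1) : NC (QIO Q k).A R) * (X (Sum.inl ab.2.1) : NC (QIO Q k).A R) :
      NC (QIO Q k).A R) w = ((X (Sum.inl ab.1.1) : NC (QIO Q k).A R) *
        (X (Sum.inl ab.2.1) : NC (QIO Q k).A R) : NC (QIO Q k).A R) w
    rw [add_apply]
    have h0 : (X (Sum.inr (Sum.inl (ioE Q k ab))) : NC (QIO Q k).A R) w = 0 := by
      by_contra h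
      have := A5_X_ne h
      exact hw _ (this ▸ List.mem_cons_self)
    rw [h0, zero_add]
  | Sum.inr (Sum.inr c) => rfl

theorem P8d_len2 {W : NC Q.A R} (h3 : Len 3 W) : Len 2 (br Q k W) := by
  intro w hw
  obtain ⟨l, h1, h2⟩ := P1c_br_ne hw
  rw [h2] at hw
  have h4 := h3 l hw
  have h5 := length_expand Q k h1
  omega

theorem P8d_Pot_sub {f g : NC Q.A R} (hf : Pot Q f) (hg : Pot Q g) : Pot Q (f - g) := by
  intro w hw
  rcases P8d_sub_ne hw with h | h
  · exact hf w h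
  · exact hg w h

theorem P8d_W {W : NC Q.A R} (hk : NoLoop Q k) (hW : Pot Q W) (hn : NoStart Q k W) :
    subst (P8d_g0 Q k : (Q.pre k).A → NC (QIO Q k).A R) (br Q k W) =
      subst (fun a => (X (Sum.inl a) : NC (QIO Q k).A R)) W := by
  refine subst_of_br hk (fun a => P8d_X_nil _) P8d_g0_z (fun c => rfl) (fun a b => rfl) ?_
  intro w hw
  obtain ⟨h1, i, h2⟩ := hW w hw
  refine ⟨i, i, ?_, ?_, h2⟩
  all_goals
    rintro rfl
    cases w with
    | nil => exact h1 rfl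
    | cons a w => exact hw (hn a w h2.1)

theorem P8d_term' {A : Type} [Fintype A] [DecidableEq A] {φ : A → NC A R} (hz : Z0 φ) {x y a b : A}
    (ha : φ a = -X a) (hb : φ b = X b) (hx : φ x = X x + X a * X b) (hy : φ y = X y) :
    cyc (subst φ ((X x : NC A R) * (X y : NC A R) + (X y : NC A R) * (X a : NC A R) * (X b : NC A R))) =
      cyc ((X x : NC A R) * (X y : NC A R)) := by
  rw [subst_add, subst_mul hz, subst_mul hz, subst_mul hz, subst_X hz, subst_X hz, subst_X hz, subst_X hz,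
    ha, hb, hx, hy]
  generalize (X x : NC A R) = x
  generalize (X y : NC A R) = y
  generalize (X a : NC A R) = a
  generalize (X b : NC A R) = b
  have e : (x + a * b) * y + y * -a * b = x * y + (a * b * y - y * (a * b)) := by noncomm_ring
  rw [e, cyc_add, cyc_sub, cyc_mul_comm (a * b) y, sub_self, add_zero]

theorem P8d_term (hk : NoLoop Q k) (i : Fin (nIO Q k)) :
    cyc (subst (bb Q k) ((X (Sum.inr (Sum.inl i)) : NC (QIO Q k).A R) * (X (Sum.inr (Sum.inr i)) : NC (QIO Q k).A R) +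
          (X (Sum.inr (Sum.inr i)) : NC (QIO Q k).A R) * (X (Sum.inl ((ioE Q k).symm i).1.1) : NC (QIO Q k).A R) *
            (X (Sum.inl ((ioE Q k).symm i).2.1) : NC (QIO Q k).A R))) =
      cyc ((X (Sum.inr (Sum.inl i)) : NC (QIO Q k).A R) * (X (Sum.inr (Sum.inr i)) : NC (QIO Q k).A R)) := by
  exact P8d_term' (fun a => P8d_bb_nil a) (if_pos ((ioE Q k).symm i).1.2)
    (if_neg fun h => hk _ ⟨((ioE Q k).symm i).2.2, h⟩) rfl rfl

theorem pre_pre [Algebra ℚ R] (hk : NoLoop Q k) {W : NC Q.A R} (hW : Pot Q W) (h3 : Len 3 W) (hn : NoStart Q k W) :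
    ∃ (m : ℕ) (p q : Fin m → V), RE ((Q.pre k).pre k) (Q.plus p q)
      (br (Q.pre k) k (br Q k W + dlt Q k) + dlt (Q.pre k) k) (plW Q p q W) := by
  refine ⟨nIO Q k, pIO Q k, qIO Q k, ?_⟩
  have hz : Z0 (bb Q k : (QIO Q k).A → NC (QIO Q k).A R) := fun a => P8d_bb_nil a
  have h1 := RE_sig hk (br (Q.pre k) k (br Q k W + dlt Q k) + dlt (Q.pre k) k : NC ((Q.pre k).pre k).A R)
  rw [rel_Z hk W] at h1
  refine h1.trans ((RE_of_iso (bb_iso hk) _).trans ?_)
  set F : NC (QIO Q k).A R := subst (P8d_g1 Q k) (br Q k W) - subst (P8d_g0 Q k) (br Q k W) with hF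
  have h2 : cyc (subst (bb Q k) (subst (gx Q k) (br Q k W) +
        ∑ i : Fin (nIO Q k), ((X (Sum.inr (Sum.inl i)) : NC (QIO Q k).A R) * (X (Sum.inr (Sum.inr i)) : NC (QIO Q k).A R) +
          (X (Sum.inr (Sum.inr i)) : NC (QIO Q k).A R) * (X (Sum.inl ((ioE Q k).symm i).1.1) : NC (QIO Q k).A R) *
            (X (Sum.inl ((ioE Q k).symm i).2.1) : NC (QIO Q k).A R)))) =
      cyc (plW Q (pIO Q k) (qIO Q k) W + F) := by
    rw [subst_add, subst_sum, subst_subst P8b_z0 hz, cyc_add, cyc_sum,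
      Finset.sum_congr rfl fun i _ => P8d_term hk i, ← cyc_sum, ← cyc_add, plW_eq_sum, ← P8d_W hk hW hn, hF]
    have e1 : (fun a => subst (bb Q k) (gx Q k a : NC (QIO Q k).A R)) = (P8d_g1 Q k : (Q.pre k).A → NC (QIO Q k).A R) := by
      funext a
      exact P8d_bb_gx hk a
    rw [e1]
    congr 1
    abel
  refine (RE_of_cyc h2).trans ?_
  refine absorb ?_ ?_ ?_ ?_
  · exact P8d_Pot_sub (Pot_subst P8d_g1_z P8d_g1_ps (Pot_br Q k hW)) (Pot_subst P8d_g0_z P8d_g0_ps (Pot_br Q k hW))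
  · intro w hw
    rcases P8d_sub_ne hw with h | h
    · exact len_subst P8d_g1_z (P8d_len2 h3) w h
    · exact len_subst P8d_g0_z (P8d_len2 h3) w h
  · intro w hw
    by_contra hx
    rw [not_exists] at hx
    apply hw
    rw [hF, sub_apply, sub_eq_zero]
    refine subst_congr_infix _ fun a u hu => P8d_agree a u fun i hi => hx i ?_
    exact hu.subset hi
  · intro w hw i hi
    rcases P8d_sub_ne hw with h | h
    · exact P8d_subst_mem (P8d_g1_mem) _ w h _ hi i rfl
    · exact P8d_subst_mem (P8d_g0_mem) _ w h _ hi i rfl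

end Cea.N
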