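import Pool.Agent.Lib.MP_cea156_al.N.A5

/-! Q1: numbers of arrows. `RE_card`: the block of `lin φ` at the arrows from `i` to `j` is invertible. `B_pre`: count the old arrows, the pairs `(a, b)` with `s a = i`,
`t b = j`, and the reversed arrows; `mutB k B i j = B i j + [B i k]₊ [B k j]₊ - [-B i k]₊ [-B k j]₊`, and in a 2-acyclic quiver `[B i k]₊` is the number
of arrows `i → k`. -/

set_option autoImplicit false

namespace Cea.N

/-- number of arrows from `i` to `j` -/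
def na {V : Type} [DecidableEq V] (Q : Quiv V) (i j : V) : ℕ :=
  (Finset.univ.filter fun a => Q.s a = i ∧ Q.t a = j).card

theorem Q1_na_card {V : Type} [DecidableEq V] (Q : Quiv V) (i j : V) :
    na Q i j = Fintype.card {a : Q.A // Q.s a = i ∧ Q.t a = j} := by
  unfold na
  rw [Fintype.card_subtype]

theorem Q1_lin_zero {V R : Type} [DecidableEq V] [CommRing R] {Q Q' : Quiv V} {φ : Q.A → NC Q'.A R}
    (h : Iso Q Q' φ) (a : Q.A) (b : Q'.A) (hne : lin φ a b ≠ 0) : Q'.s b = Q.s a ∧ Q'.t b = Q.t a := by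
  have h1 := (h.1 a [b] hne).2
  exact ⟨h1.1, h1.2⟩

theorem Q1_block {V R : Type} [DecidableEq V] [CommRing R] {Q Q' : Quiv V} {φ : Q.A → NC Q'.A R}
    {ψ : Q'.A → NC Q.A R} (h : Iso Q Q' φ) (h1 : lin φ * lin ψ = 1) (i j : V) :
    ((lin φ).submatrix (fun a : {a : Q.A // Q.s a = i ∧ Q.t a = j} => a.1)
        (fun b : {b : Q'.A // Q'.s b = i ∧ Q'.t b = j} => b.1)) *
      ((lin ψ).submatrix (fun b : {b : Q'.A // Q'.s b = i ∧ Q'.t b = j} => b.1)
        (fun a : {a : Q.A // Q.s a = i ∧ Q.t a = j} => a.1)) = 1 := by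
  ext a a'
  have h2 := congrFun (congrFun h1 a.1) a'.1
  rw [Matrix.mul_apply] at h2
  rw [Matrix.mul_apply]
  have h3 : ∑ b : {b : Q'.A // Q'.s b = i ∧ Q'.t b = j}, lin φ a.1 b.1 * lin ψ b.1 a'.1 =
      ∑ b, lin φ a.1 b * lin ψ b a'.1 := by
    rw [← Finset.sum_subtype (Finset.univ.filter fun b : Q'.A => Q'.s b = i ∧ Q'.t b = j) (by simp)
      (fun b => lin φ a.1 b * lin ψ b a'.1)]
    apply Finset.sum_subset (Finset.filter_subset _ _)
    intro b _ hb
    by_contra hne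
    have h4 : lin φ a.1 b ≠ 0 := fun h0 => hne (by rw [h0, zero_mul])
    have h5 := Q1_lin_zero h a.1 b h4
    exact hb (Finset.mem_filter.2 ⟨Finset.mem_univ _, h5.1.trans a.2.1, h5.2.trans a.2.2⟩)
  show ∑ b : {b : Q'.A // Q'.s b = i ∧ Q'.t b = j}, lin φ a.1 b.1 * lin ψ b.1 a'.1 = _
  rw [h3, h2, Matrix.one_apply, Matrix.one_apply]
  by_cases ha : a = a'
  · rw [if_pos ha, if_pos (congrArg Subtype.val ha)]
  · rw [if_neg ha, if_neg fun hh => ha (Subtype.ext hh)]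

theorem RE_card {V R : Type} [DecidableEq V] [CommRing R] [Nontrivial R] {Q Q' : Quiv V} {W : NC Q.A R}
    {W' : NC Q'.A R} (h : RE Q Q' W W') (i j : V) : na Q i j = na Q' i j := by
  obtain ⟨φ, hφ, _⟩ := h
  obtain ⟨ψ, hψ, _, _, h1, h2⟩ := hφ.inv
  rw [Q1_na_card, Q1_na_card]
  exact Matrix.square_of_invertible _ _ (Q1_block hφ h1 i j) (Q1_block hψ h2 i j)

theorem Q1_na_zero {V : Type} [DecidableEq V] (Q : Quiv V) (i j : V) :
    na Q i j = 0 ↔ ∀ a, ¬(Q.s a = i ∧ Q.t a = j) := by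
  unfold na
  rw [Finset.card_eq_zero, Finset.filter_eq_empty_iff]
  exact ⟨fun h a => h (Finset.mem_univ a), fun h a _ => h a⟩

theorem twoAcyclic_iff {V : Type} [DecidableEq V] (Q : Quiv V) :
    Q.TwoAcyclic ↔ ∀ i j, na Q i j = 0 ∨ na Q j i = 0 := by
  constructor
  · intro h i j
    by_contra hc
    rw [not_or, Q1_na_zero, Q1_na_zero] at hc
    push Not at hc
    obtain ⟨⟨a, ha⟩, ⟨b, hb⟩⟩ := hc
    exact h a b ⟨ha.2.trans hb.1.symm, hb.2.trans ha.1.symm⟩
  · intro h a b hab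
    rcases h (Q.s a) (Q.t a) with h1 | h1
    · rw [Q1_na_zero] at h1
      exact h1 a ⟨rfl, rfl⟩
    · rw [Q1_na_zero] at h1
      exact h1 b ⟨hab.1.symm, hab.2⟩

variable {n : ℕ}

theorem B_eq_na (Q : Quiv (Fin n)) (i j : Fin n) : Q.B i j = (na Q i j : ℤ) - na Q j i := rfl

/-- two 2-acyclic quivers with the same matrix have the same numbers of arrows -/
theorem na_of_B {Q Q' : Quiv (Fin n)} (h : Q.TwoAcyclic) (h' : Q'.TwoAcyclic) (hB : Q.B = Q'.B) (i j : Fin n) :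
    na Q i j = na Q' i j := by
  have h1 := (twoAcyclic_iff Q).1 h i j
  have h2 := (twoAcyclic_iff Q').1 h' i j
  have h3 := congrFun (congrFun hB i) j
  rw [B_eq_na, B_eq_na] at h3
  omega

theorem exists_equiv {V : Type} [DecidableEq V] {Q Q' : Quiv V} (h : ∀ i j, na Q i j = na Q' i j) :
    ∃ e : Q.A ≃ Q'.A, (∀ a, Q'.s (e a) = Q.s a) ∧ ∀ a, Q'.t (e a) = Q.t a := by
  classical
  have h1 : ∀ p : V × V, Nonempty ({a : Q.A // (Q.s a, Q.t a) = p} ≃ {b : Q'.A // (Q'.s b, Q'.t b) = p}) := by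
    rintro ⟨i, j⟩
    have h2 := h i j
    rw [Q1_na_card, Q1_na_card] at h2
    have e := Fintype.equivOfCardEq h2
    refine ⟨((Equiv.subtypeEquivRight fun a => ?_).trans e).trans (Equiv.subtypeEquivRight fun b => ?_)⟩
    · rw [Prod.mk.injEq]
    · rw [Prod.mk.injEq]
  let f : ∀ p : V × V, {a : Q.A // (Q.s a, Q.t a) = p} ≃ {b : Q'.A // (Q'.s b, Q'.t b) = p} := fun p => (h1 p).some
  let e : Q.A ≃ Q'.A := (Equiv.sigmaFiberEquiv fun a => (Q.s a, Q.t a)).symm.trans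
    ((Equiv.sigmaCongrRight f).trans (Equiv.sigmaFiberEquiv fun b => (Q'.s b, Q'.t b)))
  have he : ∀ a, (Q'.s (e a), Q'.t (e a)) = (Q.s a, Q.t a) := fun a =>
    (f (Q.s a, Q.t a) ⟨a, rfl⟩).2
  exact ⟨e, fun a => (Prod.mk.inj (he a)).1, fun a => (Prod.mk.inj (he a)).2⟩

theorem Q1_na_sum {V : Type} [DecidableEq V] (Q : Quiv V) (i j : V) :
    na Q i j = ∑ a, if Q.s a = i ∧ Q.t a = j then 1 else 0 := by
  unfold na
  rw [Finset.card_filter]

theorem B_plus (Q : Quiv (Fin n)) {m : ℕ} (p q : Fin m → Fin n) : (Q.plus p q).B = Q.B := by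
  have key : ∀ i j, na (Q.plus p q) i j = na Q i j + ((∑ x, if p x = i ∧ q x = j then 1 else 0) +
      ∑ x, if q x = i ∧ p x = j then 1 else 0) := by
    intro i j
    rw [Q1_na_sum, Q1_na_sum]
    show ∑ a : Q.A ⊕ (Fin m ⊕ Fin m), (if (Q.plus p q).s a = i ∧ (Q.plus p q).t a = j then 1 else 0) = _
    rw [Fintype.sum_sum_type, Fintype.sum_sum_type]
    rfl
  ext i j
  rw [B_eq_na, B_eq_na, key, key]
  have e1 : (∑ x, if q x = j ∧ p x = i then 1 else 0) = ∑ x, if p x = i ∧ q x = j then 1 else 0 :=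
    Finset.sum_congr rfl fun x _ => if_congr and_comm rfl rfl
  have e2 : (∑ x, if p x = j ∧ q x = i then 1 else 0) = ∑ x, if q x = i ∧ p x = j then 1 else 0 :=
    Finset.sum_congr rfl fun x _ => if_congr and_comm rfl rfl
  rw [e1, e2]
  push_cast
  ring

theorem Q1_pre (Q : Quiv (Fin n)) (k i j : Fin n) :
    na (Q.pre k) i j = (∑ a : Q.Old k, if Q.s a.1 = i ∧ Q.t a.1 = j then 1 else 0) +
      ((∑ a : Q.In k, if Q.s a.1 = i then 1 else 0) * (∑ b : Q.Out k, if Q.t b.1 = j then 1 else 0) +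
        ∑ a : Q.Tch k, if Q.t a.1 = i ∧ Q.s a.1 = j then 1 else 0) := by
  rw [Q1_na_sum]
  show ∑ a : Q.Old k ⊕ (Q.In k × Q.Out k) ⊕ Q.Tch k,
    (if (Q.pre k).s a = i ∧ (Q.pre k).t a = j then 1 else 0) = _
  rw [Fintype.sum_sum_type, Fintype.sum_sum_type, Fintype.sum_mul_sum, ← Finset.sum_product', Finset.univ_product_univ]
  congr 1
  congr 1
  refine Finset.sum_congr rfl fun ab _ => ?_
  show (if Q.s ab.1.1 = i ∧ Q.t ab.2.1 = j then 1 else 0) = _
  by_cases h1 : Q.s ab.1.1 = i <;> by_cases h2 : Q.t ab.2.1 = j <;> simp [h1, h2]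

theorem Q1_sub {A : Type} [Fintype A] (P : A → Prop) [DecidablePred P] (f : A → ℕ) :
    ∑ a : {a // P a}, f a.1 = ∑ a, if P a then f a else 0 := by
  rw [← Finset.sum_filter, Finset.sum_subtype (Finset.univ.filter P) (p := P) (by simp)]

theorem Q1_in (Q : Quiv (Fin n)) (k i : Fin n) : (∑ a : Q.In k, if Q.s a.1 = i then 1 else 0) = na Q i k := by
  rw [Q1_sub (fun a => Q.t a = k) (fun a => if Q.s a = i then 1 else 0), Q1_na_sum]
  refine Finset.sum_congr rfl fun a _ => ?_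
  by_cases h1 : Q.s a = i <;> by_cases h2 : Q.t a = k <;> simp [h1, h2]

theorem Q1_out (Q : Quiv (Fin n)) (k j : Fin n) : (∑ b : Q.Out k, if Q.t b.1 = j then 1 else 0) = na Q k j := by
  rw [Q1_sub (fun a => Q.s a = k) (fun a => if Q.t a = j then 1 else 0), Q1_na_sum]
  refine Finset.sum_congr rfl fun a _ => ?_
  by_cases h1 : Q.s a = k <;> by_cases h2 : Q.t a = j <;> simp [h1, h2]

theorem Q1_old (Q : Quiv (Fin n)) (k i j : Fin n) :
    (∑ a : Q.Old k, if Q.s a.1 = i ∧ Q.t a.1 = j then 1 else 0) = if i ≠ k ∧ j ≠ k then na Q i j else 0 := by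
  rw [Q1_sub (fun a => Q.s a ≠ k ∧ Q.t a ≠ k) (fun a => if Q.s a = i ∧ Q.t a = j then 1 else 0), Q1_na_sum]
  by_cases hij : i ≠ k ∧ j ≠ k
  · rw [if_pos hij]
    refine Finset.sum_congr rfl fun a _ => ?_
    by_cases h : Q.s a = i ∧ Q.t a = j
    · rw [if_pos h, if_pos (by rw [h.1, h.2]; exact hij)]
    · rw [if_neg h]; simp
  · rw [if_neg hij]
    refine Finset.sum_eq_zero fun a _ => ?_
    by_cases h : Q.s a = i ∧ Q.t a = j
    · rw [if_neg (by rw [h.1, h.2]; exact hij)]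
    · rw [if_neg h]; simp

theorem Q1_tch (Q : Quiv (Fin n)) (k i j : Fin n) :
    (∑ a : Q.Tch k, if Q.t a.1 = i ∧ Q.s a.1 = j then 1 else 0) = if i = k ∨ j = k then na Q j i else 0 := by
  rw [Q1_sub (fun a => Q.s a = k ∨ Q.t a = k) (fun a => if Q.t a = i ∧ Q.s a = j then 1 else 0), Q1_na_sum]
  by_cases hij : i = k ∨ j = k
  · rw [if_pos hij]
    refine Finset.sum_congr rfl fun a _ => ?_
    by_cases h : Q.s a = j ∧ Q.t a = i
    · rw [if_pos h, if_pos (by rw [h.1, h.2]; exact hij.symm), if_pos h.symm]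
    · have h' : ¬(Q.t a = i ∧ Q.s a = j) := fun h' => h h'.symm
      rw [if_neg h, if_neg h', ite_self]
  · rw [if_neg hij]
    refine Finset.sum_eq_zero fun a _ => ?_
    by_cases h : Q.t a = i ∧ Q.s a = j
    · rw [if_neg (by rw [h.1, h.2]; exact fun h' => hij h'.symm)]
    · rw [if_neg h]; simp

theorem B_pre {Q : Quiv (Fin n)} (h2 : Q.TwoAcyclic) (k : Fin n) : (Q.pre k).B = mutB k Q.B := by
  have key : ∀ i j, na (Q.pre k) i j = (if i ≠ k ∧ j ≠ k then na Q i j else 0) +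
      (na Q i k * na Q k j + if i = k ∨ j = k then na Q j i else 0) := by
    intro i j
    rw [Q1_pre, Q1_in, Q1_out, Q1_old, Q1_tch]
  have hk : na Q k k = 0 := by
    have := (twoAcyclic_iff Q).1 h2 k k
    simpa using this
  have hpos : ∀ i j, max (Q.B i j) 0 = (na Q i j : ℤ) ∧ max (-Q.B i j) 0 = (na Q j i : ℤ) := by
    intro i j
    have h3 := (twoAcyclic_iff Q).1 h2 i j
    rw [B_eq_na]
    constructor <;> omega
  ext i j
  rw [B_eq_na, key, key]
  unfold mutB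
  rw [(hpos i k).1, (hpos k j).1, (hpos i k).2, (hpos k j).2]
  by_cases hij : i = k ∨ j = k
  · rw [if_pos hij, if_pos hij, if_pos hij.symm, if_neg (by tauto), if_neg (by tauto), B_eq_na]
    rcases hij with rfl | rfl
    · rw [hk]; push_cast; ring
    · rw [hk]; push_cast; ring
  · have hA : i ≠ k ∧ j ≠ k := ⟨fun h => hij (Or.inl h), fun h => hij (Or.inr h)⟩
    rw [if_pos hA, if_pos hA.symm, if_neg hij, if_neg hij, if_neg (fun h' => hij h'.symm), B_eq_na]
    push_cast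
    ring

end Cea.N
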