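import Pool.Agent.Lib.MP_cea156_al.N.M1
import Pool.Agent.Lib.MP_cea156_al.N.M2a
import Pool.Agent.Lib.MP_cea156_al.N.P7b
import Pool.Agent.Lib.MP_cea156_al.N.P8d
import Pool.Agent.Lib.MP_cea156_al.N.Q1

/-! M2b: mutation is an involution (Derksen-Weyman-Zelevinsky, Theorem 5.7). Let `RE (P.Q.pre k) (R.Q.plus p q) (br W₁ + Δ) (plW R.W)`.
1. `p i ≠ k` and `q i ≠ k`: otherwise, by `RE_card`, `P.Q.pre k` has arrows `k → j` and `j → k`, so `P.Q` has opposite arrows at `k`.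
2. `R₁` = representative of `R.W` by `exists_noStart`; `plW R₁` is one for `plW R.W`, and `br W₁ + Δ` is one for itself. `RE_pre`:
   `RE ((P.Q.pre k).pre k) ((R.Q.plus p q).pre k) ..`; with `pre_pre` and `pre_plus`: `RE (P.Q.plus _ _) ((R.Q.pre k).plus p q) (plW W₁) (plW (br R₁ + Δ))`.
3. `exists_mut R`: `Mut k R P₂`, so (`mu_congr`/uniqueness of the representative, or directly `RE_pre` with the identity) `RE (R.Q.pre k) (P₂.Q.plus _ _) (br R₁ + Δ) (plW P₂.W)`;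
   with `RE.plus` and `plus_plus`: `RE (P.Q.plus _ _) (P₂.Q.plus _ _) (plW W₁) (plW P₂.W)`; `cancel`: `RE P₂ P`; `mu_congr_right`. -/

set_option autoImplicit false

namespace Cea.N

theorem M2b_aux {V : Type} [DecidableEq V] {k : V} {Q : Quiv V} (h2 : Q.TwoAcyclic) (u v : (Q.pre k).A) (j : V)
    (hu : (Q.pre k).s u = k) (hu' : (Q.pre k).t u = j) (hv : (Q.pre k).s v = j) (hv' : (Q.pre k).t v = k) : False := by
  rcases u with c | ab | c
  · exact c.2.1 hu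
  · have h1 : Q.s ab.1.1 = k := hu
    exact h2 ab.1.1 ab.1.1 ⟨ab.1.2.trans h1.symm, ab.1.2.trans h1.symm⟩
  · have h1 : Q.t c.1 = k := hu
    have h3 : Q.s c.1 = j := hu'
    rcases v with d | ab | d
    · exact d.2.2 hv'
    · have h4 : Q.t ab.2.1 = k := hv'
      exact h2 ab.2.1 ab.2.1 ⟨h4.trans ab.2.2.symm, h4.trans ab.2.2.symm⟩
    · have h4 : Q.t d.1 = j := hv
      have h5 : Q.s d.1 = k := hv'
      exact h2 c.1 d.1 ⟨h1.trans h5.symm, h4.trans h3.symm⟩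

theorem M2b_na {V : Type} [DecidableEq V] {Q : Quiv V} {i j : V} (h : na Q i j ≠ 0) : ∃ a, Q.s a = i ∧ Q.t a = j := by
  unfold na at h
  obtain ⟨a, ha⟩ := Finset.card_pos.1 (Nat.pos_of_ne_zero h)
  exact ⟨a, (Finset.mem_filter.1 ha).2⟩

theorem M2b_na' {V : Type} [DecidableEq V] {Q : Quiv V} {i j : V} (a : Q.A) (h : Q.s a = i) (h' : Q.t a = j) :
    na Q i j ≠ 0 := by
  unfold na
  exact (Finset.card_pos.2 ⟨a, Finset.mem_filter.2 ⟨Finset.mem_univ _, h, h'⟩⟩).ne'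

theorem pairs_ne {V R : Type} [DecidableEq V] [CommRing R] [Nontrivial R] {k : V} {Q Q' : Quiv V} (h2 : Q.TwoAcyclic)
    {m : ℕ} {p q : Fin m → V} {Z : NC (Q.pre k).A R} {Z' : NC (Q'.plus p q).A R}
    (h : RE (Q.pre k) (Q'.plus p q) Z Z') (i : Fin m) : p i ≠ k ∧ q i ≠ k := by
  have h1 : na (Q.pre k) (p i) (q i) ≠ 0 := by
    rw [RE_card h]
    exact M2b_na' (Q := Q'.plus p q) (Sum.inr (Sum.inl i)) rfl rfl
  have h3 : na (Q.pre k) (q i) (p i) ≠ 0 := by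
    rw [RE_card h]
    exact M2b_na' (Q := Q'.plus p q) (Sum.inr (Sum.inr i)) rfl rfl
  obtain ⟨u, hu, hu'⟩ := M2b_na h1
  obtain ⟨v, hv, hv'⟩ := M2b_na h3
  constructor
  · intro h4
    exact M2b_aux h2 u v (q i) (hu.trans h4) hu' hv (hv'.trans h4)
  · intro h4
    exact M2b_aux h2 v u (p i) (hv.trans h4) hv' hu (hu'.trans h4)

/-- no word of the premutation potential starts at `k` -/
theorem M2b_noStart {V R : Type} [DecidableEq V] [CommRing R] {k : V} {Q : Quiv V} (hk : NoLoop Q k) (W : NC Q.A R) :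
    NoStart (Q.pre k) k (br Q k W + dlt Q k) := by
  intro a w ha
  rcases a with c | ab | c
  · exact absurd ha c.2.1
  · exact absurd ⟨ha, ab.1.2⟩ (hk ab.1.1)
  · rw [add_apply]
    have h1 : br Q k W (Sum.inr (Sum.inr c) :: w) = 0 := rfl
    have h2 : (dlt Q k : NC (Q.pre k).A R) (Sum.inr (Sum.inr c) :: w) = 0 := by
      unfold dlt
      rw [if_neg]
      rintro ⟨a, b, h⟩
      exact absurd (Sum.inr.inj (List.cons.inj h).1) Sum.inr_ne_inl
    rw [h1, h2, add_zero]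

theorem M2b_loopPre {V : Type} [DecidableEq V] {k : V} {Q : Quiv V} (h2 : Q.TwoAcyclic) : NoLoop (Q.pre k) k :=
  fun a ha => M2b_aux h2 a a k ha.1 ha.2 ha.1 ha.2

theorem M2b_loopPlus {V : Type} [DecidableEq V] {k : V} {Q : Quiv V} (hk : NoLoop Q k) {m : ℕ} {p q : Fin m → V}
    (h : ∀ i, p i ≠ k ∧ q i ≠ k) : NoLoop (Q.plus p q) k := by
  rintro (a | i | i) ha
  · exact hk a ha
  · exact (h i).1 ha.1
  · exact (h i).2 ha.1

theorem M2b_noStartPlus {V R : Type} [DecidableEq V] [CommRing R] {k : V} {Q : Quiv V} {m : ℕ} {p q : Fin m → V}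
    (h : ∀ i, p i ≠ k ∧ q i ≠ k) {W : NC Q.A R} (hW : NoStart Q k W) : NoStart (Q.plus p q) k (plW Q p q W) := by
  intro a w ha
  unfold plW
  rcases a with a | i | i
  · have h2 : ¬ ∃ i : Fin m, (Sum.inl a :: w : List (Q.plus p q).A) = [Sum.inr (Sum.inl i), Sum.inr (Sum.inr i)] := by
      rintro ⟨i, hi⟩
      exact absurd (List.cons.inj hi).1 (by simp)
    rw [if_neg h2, add_zero]
    split_ifs with h3
    · have h4 : (Sum.inl a :: w : List (Q.plus p q).A).filterMap Sum.getLeft? = a :: w.filterMap Sum.getLeft? := by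
        rfl
      rw [h4]
      exact hW a _ ha
    · rfl
  · exact absurd ha (h i).1
  · exact absurd ha (h i).2

theorem M2b_cyc {V R : Type} [DecidableEq V] [CommRing R] [Algebra ℚ R] {Q : Quiv V} {m : ℕ} {p q : Fin m → V}
    {S S' : NC Q.A R} (h : cyc S = cyc S') : cyc (plW Q p q S) = cyc (plW Q p q S') := by
  have hz : Z0 (fun a => (X (Sum.inl a) : NC (Q.plus p q).A R)) := fun a => rfl
  have e1 := plW_eq_sum (p := p) (q := q) S
  have e2 := plW_eq_sum (p := p) (q := q) S'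
  rw [e1, e2, cyc_add, cyc_add, cyc_subst_congr hz h]

theorem mut_symm {V : Type} [DecidableEq V] {P R : QP V} {k : V} (hP : P.Q.TwoAcyclic) (hR : R.Q.TwoAcyclic)
    (h : QP.Mut k P R) : QP.Mut k R P := by
  rw [Mut_iff] at h ⊢
  obtain ⟨hlen, W₁, hW1, hc1, hn1, m, p, q, hRE⟩ := h
  have hPl : Len 3 (P.W : NC P.Q.A ℂ) := len_pot hP (W := (P.W : NC P.Q.A ℂ)) P.pot
  have hW1l : Len 3 W₁ := len_pot hP hW1
  have hkP := noLoop hP k
  have hkR := noLoop hR k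
  have hne : ∀ i, p i ≠ k ∧ q i ≠ k := fun i => pairs_ne hP hRE i
  obtain ⟨R₁, hR1, hcR1, hnR1⟩ := exists_noStart hkR (W := (R.W : NC R.Q.A ℂ)) R.pot
  -- the double premutation
  have hcpl : cyc (plW R.Q p q R₁) = cyc (plW R.Q p q (R.W : NC R.Q.A ℂ)) := M2b_cyc hcR1
  have hA1 := RE_pre (M2b_loopPre hP) (M2b_loopPlus hkR hne) hRE
    (fun w hw => by
      rw [add_apply] at hw
      by_cases h5 : br P.Q k W₁ w = 0
      · rw [h5, zero_add] at hw
        exact Pot_dlt P.Q k w hw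
      · exact Pot_br P.Q k hW1 w h5) rfl (M2b_noStart hkP W₁)
    (Pot_plW hR1) hcpl (M2b_noStartPlus hne hnR1)
  obtain ⟨m₁, p₁, q₁, hpp⟩ := pre_pre hkP hW1 hW1l hn1
  have hA2 := pre_plus R.Q k (fun i => (hne i).1) (fun i => (hne i).2) R₁
  have hA := (hpp.symm.trans hA1).trans hA2
  -- a mutation of `R`
  obtain ⟨P₂, hP2, -⟩ := exists_mut R hR k
  rw [Mut_iff] at hP2
  have hP2' := hP2
  obtain ⟨hlen2, R₂, hR2, hcR2, hnR2, m₂, p₂, q₂, hRE2⟩ := hP2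
  have hB0 := RE_pre hkR hkR (RE.refl (R.W : NC R.Q.A ℂ)) hR1 hcR1 hnR1 hR2 hcR2 hnR2
  have hB1 : RE ((R.Q.pre k).plus p q) ((P₂.Q.plus p₂ q₂).plus p q) _ _ := (hB0.trans hRE2).plus
  have hB2 := plus_plus P₂.Q p₂ q₂ p q (P₂.W : NC P₂.Q.A ℂ)
  have hB := (hA.trans hB1).trans hB2
  have hC : RE P.Q P₂.Q W₁ (P₂.W : NC P₂.Q.A ℂ) := cancel hW1 P₂.pot hW1l hlen2 hB
  have hD : RE P₂.Q P.Q (P₂.W : NC P₂.Q.A ℂ) (P.W : NC P.Q.A ℂ) := hC.symm.trans (RE_of_cyc hc1)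
  exact mu_congr_right hP2' hD hPl

end Cea.N
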