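import Pool.Agent.Lib.MP_cea156_al.N.U3
import Pool.Agent.Lib.MP_cea156_al.N.U1

/-! U4a: the potential `S + ∑ x_i y_i`: substitutions, derivatives. -/

set_option autoImplicit false

namespace Cea.N

open Finset

section general

variable {A B R : Type} [CommRing R]

theorem U4a_Z0_X [DecidableEq B] (f : A → B) : Z0 (fun a => (X (f a) : NC B R)) := by
  intro a
  show (if ([] : List B) = [f a] then (1 : R) else 0) = 0
  rw [if_neg (by simp)]

theorem U4a_wordSub [DecidableEq B] [DecidableEq A] (f : A → B) (u : List A) :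
    wordSub (fun a => (X (f a) : NC B R)) u = mon (u.map f) := by
  induction u with
  | nil => exact mon_nil.symm
  | cons a u ih =>
    show X (f a) * wordSub (fun a => (X (f a) : NC B R)) u = _
    rw [ih]
    exact mon_mul_mon [f a] (u.map f)

theorem U4a_mon_apply [DecidableEq B] (u w : List B) : (mon u : NC B R) w = if w = u then 1 else 0 := rfl

theorem U4a_subst_map [Fintype A] [DecidableEq A] [DecidableEq B] {f : A → B} (hf : Function.Injective f)
    (S : NC A R) (l : List A) : subst (fun a => (X (f a) : NC B R)) S (l.map f) = S l := by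
  classical
  rw [subst_apply (U4a_Z0_X f) S (l.map f) (N := l.length) (by simp)]
  rw [sum_eq_single l]
  · rw [U4a_wordSub, U4a_mon_apply, if_pos rfl, mul_one]
  · intro u _ hu
    rw [U4a_wordSub, U4a_mon_apply, if_neg, mul_zero]
    intro h
    exact hu (List.map_injective_iff.2 hf h).symm
  · intro h
    exact absurd (mem_wds.2 le_rfl) h

theorem U4a_subst_not [Fintype A] [DecidableEq A] [DecidableEq B] {f : A → B}
    (S : NC A R) {w : List B} (h : ¬∃ l : List A, w = l.map f) :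
    subst (fun a => (X (f a) : NC B R)) S w = 0 := by
  rw [subst_apply (U4a_Z0_X f) S w (N := w.length) le_rfl]
  refine sum_eq_zero fun u _ => ?_
  rw [U4a_wordSub, U4a_mon_apply, if_neg, mul_zero]
  intro e
  exact h ⟨u, e⟩

theorem U4a_filterMap {P : Type} (l : List A) :
    (l.map (Sum.inl : A → A ⊕ P)).filterMap Sum.getLeft? = l := by
  induction l with
  | nil => rfl
  | cons a l ih =>
    rw [List.map_cons, List.filterMap_cons]
    simp [ih]

variable [Fintype A] [DecidableEq A] {m : ℕ}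

/-- the potential `S + ∑ x_i y_i` on a sum type -/
def U4a_pl (m : ℕ) (S : NC A R) : NC (A ⊕ (Fin m ⊕ Fin m)) R :=
  subst (fun a => X (Sum.inl a)) S + ∑ i, X (Sum.inr (Sum.inl i)) * X (Sum.inr (Sum.inr i))

theorem U4a_pl_apply (S : NC A R) (w : List (A ⊕ (Fin m ⊕ Fin m))) : U4a_pl m S w =
    subst (fun a => (X (Sum.inl a) : NC (A ⊕ (Fin m ⊕ Fin m)) R)) S w +
    ∑ i : Fin m, (if w = [Sum.inr (Sum.inl i), Sum.inr (Sum.inr i)] then (1 : R) else 0) := by
  unfold U4a_pl
  rw [add_apply, finsetSum_apply]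
  congr 1
  refine sum_congr rfl fun i _ => ?_
  have e : (X (Sum.inr (Sum.inl i)) * X (Sum.inr (Sum.inr i)) : NC (A ⊕ (Fin m ⊕ Fin m)) R) =
      mon ([Sum.inr (Sum.inl i)] ++ [Sum.inr (Sum.inr i)]) :=
    mon_mul_mon _ _
  rw [e]
  rfl

theorem U4a_not_xy (l : List A) (i : Fin m) :
    (l.map Sum.inl : List (A ⊕ (Fin m ⊕ Fin m))) ≠ [Sum.inr (Sum.inl i), Sum.inr (Sum.inr i)] := by
  intro h
  cases l with
  | nil => cases h
  | cons a l => cases (List.cons.inj h).1

theorem U4a_pl_map (S : NC A R) (l : List A) : U4a_pl m S (l.map Sum.inl) = S l := by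
  rw [U4a_pl_apply, U4a_subst_map Sum.inl_injective, sum_eq_zero, add_zero]
  intro i _
  rw [if_neg (U4a_not_xy l i)]

theorem U4a_pl_xy (S : NC A R) (i : Fin m) : U4a_pl m S [Sum.inr (Sum.inl i), Sum.inr (Sum.inr i)] = 1 := by
  rw [U4a_pl_apply, U4a_subst_not, zero_add, sum_eq_single i]
  · rw [if_pos rfl]
  · intro j _ hj
    rw [if_neg]
    intro hj'
    have h1 := Sum.inr_injective (List.cons.inj hj').1
    exact hj (Sum.inl_injective h1).symm
  · intro hi'
    exact absurd (mem_univ i) hi'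
  · rintro ⟨l, hl⟩
    exact U4a_not_xy l i hl.symm

theorem U4a_pl_other (S : NC A R) {w : List (A ⊕ (Fin m ⊕ Fin m))} (h1 : ¬∃ l : List A, w = l.map Sum.inl)
    (h2 : ¬∃ i : Fin m, w = [Sum.inr (Sum.inl i), Sum.inr (Sum.inr i)]) : U4a_pl m S w = 0 := by
  rw [U4a_pl_apply, U4a_subst_not S h1, zero_add]
  refine sum_eq_zero fun i _ => ?_
  rw [if_neg]
  intro hi
  exact h2 ⟨i, hi⟩

theorem U4a_pl_cases {S : NC A R} {w : List (A ⊕ (Fin m ⊕ Fin m))} (h : U4a_pl m S w ≠ 0) :
    (∃ l : List A, w = l.map Sum.inl ∧ S l ≠ 0) ∨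
      ∃ i : Fin m, w = [Sum.inr (Sum.inl i), Sum.inr (Sum.inr i)] := by
  by_cases h1 : ∃ i : Fin m, w = [Sum.inr (Sum.inl i), Sum.inr (Sum.inr i)]
  · exact Or.inr h1
  · left
    by_cases h2 : ∃ l : List A, w = l.map Sum.inl
    · obtain ⟨l, rfl⟩ := h2
      rw [U4a_pl_map] at h
      exact ⟨l, rfl, h⟩
    · exact absurd (U4a_pl_other S h2 h1) h

theorem U4a_pl_subst {φ : A ⊕ (Fin m ⊕ Fin m) → NC B R} (hφ : Z0 φ) (S : NC A R) :
    subst φ (U4a_pl m S) = subst (fun a => φ (Sum.inl a)) S +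
      ∑ i, φ (Sum.inr (Sum.inl i)) * φ (Sum.inr (Sum.inr i)) := by
  unfold U4a_pl
  rw [subst_add, subst_subst (U4a_Z0_X _) hφ, subst_sum]
  congr 1
  · congr 1
    funext a
    exact subst_X hφ _
  · refine sum_congr rfl fun i _ => ?_
    rw [subst_mul hφ, subst_X hφ, subst_X hφ]

theorem U4a_pl_der (S : NC A R) (z : Fin m ⊕ Fin m) (w : List (A ⊕ (Fin m ⊕ Fin m))) :
    der (Sum.inr z) (U4a_pl m S) w = ∑ k ∈ range (w.length + 1), ∑ i : Fin m,
      (if w.drop k ++ Sum.inr z :: w.take k = [Sum.inr (Sum.inl i), Sum.inr (Sum.inr i)] then (1 : R) else 0) := by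
  show cyc (U4a_pl m S) (Sum.inr z :: w) = _
  rw [cyc_apply_cons]
  refine sum_congr rfl fun k _ => ?_
  rw [U4a_pl_apply, U4a_subst_not, zero_add]
  rintro ⟨l, hl⟩
  have h1 : (Sum.inr z : A ⊕ (Fin m ⊕ Fin m)) ∈ l.map (Sum.inl : A → A ⊕ (Fin m ⊕ Fin m)) := by
    rw [← hl]
    simp
  obtain ⟨a, _, ha⟩ := List.mem_map.1 h1
  cases ha

theorem U4a_pl_der_long (S : NC A R) (z : Fin m ⊕ Fin m) (w : List (A ⊕ (Fin m ⊕ Fin m))) (hw : w.length ≠ 1) :
    der (Sum.inr z) (U4a_pl m S) w = 0 := by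
  rw [U4a_pl_der]
  refine sum_eq_zero fun k hk => sum_eq_zero fun i _ => ?_
  rw [if_neg]
  intro h
  have h1 := congrArg List.length h
  simp only [List.length_append, List.length_cons, List.length_nil, List.length_drop, List.length_take] at h1
  have h2 := mem_range.1 hk
  omega

theorem U4a_pl_der_x (S : NC A R) (i : Fin m) :
    der (Sum.inr (Sum.inl i)) (U4a_pl m S) = X (Sum.inr (Sum.inr i)) := by
  ext w
  by_cases hw : w.length = 1
  · obtain ⟨c, rfl⟩ := List.length_eq_one_iff.1 hw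
    rw [U4a_pl_der]
    show _ = (if [c] = [(Sum.inr (Sum.inr i) : A ⊕ (Fin m ⊕ Fin m))] then (1 : R) else 0)
    rw [show [c].length + 1 = 2 from rfl, sum_range_succ, sum_range_succ, sum_range_zero,
      zero_add]
    rw [sum_eq_zero, zero_add]
    · rw [sum_eq_single i]
      · refine if_congr ?_ rfl rfl
        show [Sum.inr (Sum.inl i), c] = _ ↔ _
        simp
      · intro j _ hj
        rw [if_neg]
        intro h
        have h1 := (List.cons.inj h).1
        exact hj (Sum.inl_injective (Sum.inr_injective h1)).symm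
      · intro h
        exact absurd (mem_univ i) h
    · intro j _
      rw [if_neg]
      intro h
      have h1 := (List.cons.inj (List.cons.inj h).2).1
      have h2 := Sum.inr_injective h1
      cases h2
  · rw [U4a_pl_der_long S _ w hw]
    show _ = (if w = [(Sum.inr (Sum.inr i) : A ⊕ (Fin m ⊕ Fin m))] then (1 : R) else 0)
    rw [if_neg]
    rintro rfl
    exact hw rfl

theorem U4a_pl_der_y (S : NC A R) (i : Fin m) :
    der (Sum.inr (Sum.inr i)) (U4a_pl m S) = X (Sum.inr (Sum.inl i)) := by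
  ext w
  by_cases hw : w.length = 1
  · obtain ⟨c, rfl⟩ := List.length_eq_one_iff.1 hw
    rw [U4a_pl_der]
    show _ = (if [c] = [(Sum.inr (Sum.inl i) : A ⊕ (Fin m ⊕ Fin m))] then (1 : R) else 0)
    rw [show [c].length + 1 = 2 from rfl, sum_range_succ, sum_range_succ, sum_range_zero,
      zero_add]
    rw [add_comm, sum_eq_zero, zero_add]
    · rw [sum_eq_single i]
      · refine if_congr ?_ rfl rfl
        show [c, Sum.inr (Sum.inr i)] = _ ↔ _
        simp
      · intro j _ hj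
        rw [if_neg]
        intro h
        have h1 := (List.cons.inj (List.cons.inj h).2).1
        exact hj (Sum.inr_injective (Sum.inr_injective h1)).symm
      · intro h
        exact absurd (mem_univ i) h
    · intro j _
      rw [if_neg]
      intro h
      have h1 := (List.cons.inj h).1
      have h2 := Sum.inr_injective h1
      cases h2
  · rw [U4a_pl_der_long S _ w hw]
    show _ = (if w = [(Sum.inr (Sum.inl i) : A ⊕ (Fin m ⊕ Fin m))] then (1 : R) else 0)
    rw [if_neg]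
    rintro rfl
    exact hw rfl

theorem U4a_pl_kil (S : NC A R) : kil (U4a_pl m S) = S := by
  ext w
  exact U4a_pl_map S w

theorem U4a_kil_X (z : Fin m ⊕ Fin m) : kil (X (Sum.inr z) : NC (A ⊕ (Fin m ⊕ Fin m)) R) = 0 := by
  ext w
  show (if (w.map Sum.inl : List (A ⊕ (Fin m ⊕ Fin m))) = [Sum.inr z] then (1 : R) else 0) = 0
  rw [if_neg]
  intro h
  cases w with
  | nil => cases h
  | cons a w => cases (List.cons.inj h).1

theorem U4a_pl_kil_der (S : NC A R) (c : A) : kil (der (Sum.inl c) (U4a_pl m S)) = der c S := by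
  ext w
  show kil (cyc (U4a_pl m S)) (c :: w) = cyc S (c :: w)
  rw [← cyc_kil, U4a_pl_kil]

end general

variable {V R : Type} [DecidableEq V] [CommRing R] {Q : Quiv V} {m : ℕ} {p q : Fin m → V}

theorem U4a_plW (S : NC Q.A R) : plW Q p q S = U4a_pl m S := by
  classical
  ext w
  unfold plW
  by_cases h : ∃ l : List Q.A, w = l.map Sum.inl
  · rw [if_pos h, if_neg, add_zero]
    · obtain ⟨l, rfl⟩ := h
      have e1 : (l.map (Sum.inl : Q.A → Q.A ⊕ (Fin m ⊕ Fin m))).filterMap Sum.getLeft? = l := U4a_filterMap l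
      exact (congrArg S e1).trans (U4a_pl_map S l).symm
    · rintro ⟨i, hi⟩
      obtain ⟨l, rfl⟩ := h
      exact U4a_not_xy l i hi
  · rw [if_neg h, zero_add]
    by_cases h' : ∃ i : Fin m, w = [Sum.inr (Sum.inl i), Sum.inr (Sum.inr i)]
    · rw [if_pos h']
      obtain ⟨i, rfl⟩ := h'
      exact (U4a_pl_xy S i).symm
    · rw [if_neg h']
      exact (U4a_pl_other S h h').symm

/-- `plW` as a sum -/
theorem plW_eq_sum (S : NC Q.A R) :
    plW Q p q S = subst (fun a => (X (Sum.inl a) : NC (Q.plus p q).A R)) S +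
      ∑ i, (X (Sum.inr (Sum.inl i)) : NC (Q.plus p q).A R) * (X (Sum.inr (Sum.inr i)) : NC (Q.plus p q).A R) :=
  U4a_plW S

theorem subst_plW {B : Type} {φ : (Q.plus p q).A → NC B R} (hφ : Z0 φ) (S : NC Q.A R) :
    subst φ (plW Q p q S) = subst (fun a => φ (Sum.inl a)) S +
      ∑ i, φ (Sum.inr (Sum.inl i)) * φ (Sum.inr (Sum.inr i)) := by
  rw [U4a_plW]
  exact U4a_pl_subst hφ S

theorem U4a_isPath (i j : V) (l : List Q.A) (h : Q.IsPath i l j) :
    (Q.plus p q).IsPath i (l.map Sum.inl) j := by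
  induction l generalizing i with
  | nil => exact h
  | cons a l ih => exact ⟨h.1, ih _ h.2⟩

theorem Pot_plW {S : NC Q.A R} (hS : Pot Q S) : Pot (Q.plus p q) (plW Q p q S) := by
  rw [U4a_plW]
  intro w hw
  rcases U4a_pl_cases hw with ⟨l, rfl, hl⟩ | ⟨i, rfl⟩
  · obtain ⟨h1, v, h2⟩ := hS l hl
    refine ⟨fun e => h1 ?_, v, U4a_isPath _ _ _ h2⟩
    exact List.map_eq_nil_iff.1 e
  · exact ⟨fun e => List.cons_ne_nil _ _ e, p i, rfl, rfl, rfl⟩

theorem len_plW {S : NC Q.A R} (hS : Len 3 S) : Len 2 (plW Q p q S) := by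
  rw [U4a_plW]
  intro w hw
  rcases U4a_pl_cases hw with ⟨l, e, hl⟩ | ⟨i, e⟩
  · have h3 := hS l hl
    have h4 : w.length = l.length := by
      have h5 := congrArg List.length e
      exact h5.trans (List.length_map _)
    omega
  · have h4 : w.length = 2 := congrArg List.length e
    omega

theorem kil_plW (S : NC Q.A R) : kil (plW Q p q S) = S := by
  have e : kil (plW Q p q S) = kil (U4a_pl m S) := congrArg _ (U4a_plW S)
  exact e.trans (U4a_pl_kil S)

theorem der_x (S : NC Q.A R) (i : Fin m) :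
    der (Sum.inr (Sum.inl i)) (plW Q p q S) = (X (Sum.inr (Sum.inr i)) : NC (Q.plus p q).A R) := by
  have e : der (Sum.inr (Sum.inl i)) (plW Q p q S) = der (Sum.inr (Sum.inl i)) (U4a_pl m S) :=
    congrArg _ (U4a_plW S)
  exact e.trans (U4a_pl_der_x S i)

theorem der_y (S : NC Q.A R) (i : Fin m) :
    der (Sum.inr (Sum.inr i)) (plW Q p q S) = (X (Sum.inr (Sum.inl i)) : NC (Q.plus p q).A R) := by
  have e : der (Sum.inr (Sum.inr i)) (plW Q p q S) = der (Sum.inr (Sum.inr i)) (U4a_pl m S) :=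
    congrArg _ (U4a_plW S)
  exact e.trans (U4a_pl_der_y S i)

theorem kil_der_inl (S : NC Q.A R) (c : Q.A) : kil (der (Sum.inl c) (plW Q p q S)) = der c S := by
  have e : kil (der (Sum.inl c) (plW Q p q S)) = kil (der (Sum.inl c) (U4a_pl m S)) :=
    congrArg (fun F => kil (der (Sum.inl c) F)) (U4a_plW S)
  exact e.trans (U4a_pl_kil_der S c)

theorem kil_der_inr (S : NC Q.A R) (z : Fin m ⊕ Fin m) : kil (der (Sum.inr z) (plW Q p q S)) = 0 := by
  have e : kil (der (Sum.inr z) (plW Q p q S)) = kil (der (Sum.inr z) (U4a_pl m S)) :=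
    congrArg (fun F => kil (der (Sum.inr z) F)) (U4a_plW S)
  refine e.trans ?_
  rcases z with i | i
  · rw [U4a_pl_der_x]
    exact U4a_kil_X _
  · rw [U4a_pl_der_y]
    exact U4a_kil_X _

section ext

variable {A A' : Type} [Fintype A'] [DecidableEq A'] [DecidableEq A]

/-- the extension of a substitution by the identity on the new letters -/
def U4a_ext (m : ℕ) (φ : A → NC A' R) : A ⊕ (Fin m ⊕ Fin m) → NC (A' ⊕ (Fin m ⊕ Fin m)) R :=
  Sum.elim (fun a => subst (fun b => X (Sum.inl b)) (φ a)) fun z => X (Sum.inr z)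

theorem U4a_lin (φ : A → NC A' R) : lin (U4a_ext m φ) = Matrix.fromBlocks (lin φ) 0 0 1 := by
  ext a b
  rcases a with a | z
  · rcases b with b | y
    · show subst (fun b => (X (Sum.inl b) : NC (A' ⊕ (Fin m ⊕ Fin m)) R)) (φ a) ([b].map Sum.inl) = φ a [b]
      exact U4a_subst_map Sum.inl_injective _ _
    · show subst (fun b => (X (Sum.inl b) : NC (A' ⊕ (Fin m ⊕ Fin m)) R)) (φ a) [Sum.inr y] = 0
      refine U4a_subst_not _ ?_
      rintro ⟨l, hl⟩
      cases l with
      | nil => cases hl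
      | cons c l => cases (List.cons.inj hl).1
  · rcases b with b | y
    · show (if [(Sum.inl b : A' ⊕ (Fin m ⊕ Fin m))] = [Sum.inr z] then (1 : R) else 0) = 0
      rw [if_neg]
      intro h
      cases (List.cons.inj h).1
    · show (if [(Sum.inr y : A' ⊕ (Fin m ⊕ Fin m))] = [Sum.inr z] then (1 : R) else 0) =
        (1 : Matrix (Fin m ⊕ Fin m) (Fin m ⊕ Fin m) R) z y
      by_cases hzy : z = y
      · subst hzy
        rw [if_pos rfl, Matrix.one_apply_eq]
      · rw [Matrix.one_apply_ne hzy, if_neg]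
        intro h
        exact hzy (Sum.inr_injective (List.cons.inj h).1).symm

theorem U4a_lin_inv [Fintype A] {φ : A → NC A' R} {N : Matrix A' A R} (h1 : lin φ * N = 1) (h2 : N * lin φ = 1) :
    lin (U4a_ext m φ) * (Matrix.fromBlocks N 0 0 1 : Matrix (A' ⊕ (Fin m ⊕ Fin m)) (A ⊕ (Fin m ⊕ Fin m)) R) = 1 ∧
    (Matrix.fromBlocks N 0 0 1 : Matrix (A' ⊕ (Fin m ⊕ Fin m)) (A ⊕ (Fin m ⊕ Fin m)) R) * lin (U4a_ext m φ) = 1 := by
  rw [U4a_lin, Matrix.fromBlocks_multiply, Matrix.fromBlocks_multiply, h1, h2]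
  simp

end ext

theorem U4a_iso {Q' : Quiv V} {φ : Q.A → NC Q'.A R} (h : Iso Q Q' φ) :
    Iso (Q.plus p q) (Q'.plus p q) (U4a_ext m φ) := by
  obtain ⟨h1, N, h2, h3⟩ := h
  constructor
  · intro a w hw
    rcases a with a | z
    · have hw' : subst (fun b => (X (Sum.inl b) : NC (Q'.A ⊕ (Fin m ⊕ Fin m)) R)) (φ a) w ≠ 0 := hw
      by_cases h4 : ∃ l : List Q'.A, w = l.map Sum.inl
      · obtain ⟨l, rfl⟩ := h4
        obtain ⟨h5, h6⟩ := h1 a l fun e => hw' ((U4a_subst_map Sum.inl_injective (φ a) l).trans e)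
        exact ⟨fun e => h5 (List.map_eq_nil_iff.1 e), U4a_isPath _ _ _ h6⟩
      · exact absurd (U4a_subst_not (φ a) h4) hw'
    · have h4 : w = [Sum.inr z] := by
        by_contra h5
        exact hw (if_neg h5)
      subst h4
      exact ⟨fun e => List.cons_ne_nil _ _ e, rfl, rfl⟩
  · obtain ⟨h4, h5⟩ := U4a_lin_inv (m := m) h2 h3
    exact ⟨(Matrix.fromBlocks N 0 0 1 : Matrix (Q'.A ⊕ (Fin m ⊕ Fin m)) (Q.A ⊕ (Fin m ⊕ Fin m)) R), h4, h5⟩

/-- right equivalences extend to the sums with the same trivial part -/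
theorem RE.plus [Algebra ℚ R] {Q' : Quiv V} {S : NC Q.A R} {S' : NC Q'.A R} (h : RE Q Q' S S') :
    RE (Q.plus p q) (Q'.plus p q) (plW Q p q S) (plW Q' p q S') := by
  obtain ⟨φ, h1, h2⟩ := h
  have h3 : Iso (Q.plus p q) (Q'.plus p q) (U4a_ext m φ) := U4a_iso h1
  refine ⟨U4a_ext m φ, h3, ?_⟩
  rw [subst_plW h3.z0, plW_eq_sum, cyc_add, cyc_add]
  have h4 : subst (fun a => subst (fun b => (X (Sum.inl b) : NC (Q'.A ⊕ (Fin m ⊕ Fin m)) R)) (φ a)) S =
      subst (fun b => (X (Sum.inl b) : NC (Q'.A ⊕ (Fin m ⊕ Fin m)) R)) (subst φ S) :=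
    (subst_subst h1.z0 (U4a_Z0_X _) S).symm
  have h5 : cyc (subst (fun a => subst (fun b => (X (Sum.inl b) : NC (Q'.A ⊕ (Fin m ⊕ Fin m)) R)) (φ a)) S) =
      cyc (subst (fun b => (X (Sum.inl b) : NC (Q'.A ⊕ (Fin m ⊕ Fin m)) R)) S') := by
    rw [h4]
    exact cyc_subst_congr (U4a_Z0_X _) h2
  exact congrArg₂ (fun f g : NC (Q'.plus p q).A R => f + g) h5 rfl

end Cea.N
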