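import Pool.Agent.Lib.MP_cea156_al.N.P1
import Pool.Agent.Lib.MP_cea156_al.N.U4a

/-! P7: relabelling of arrows. `RE_relabel`: `subst_relabel`. The two other statements: explicit bijections between the arrows which preserve the
ends; the potentials correspond to each other word by word. -/

set_option autoImplicit false

namespace Cea.N

variable {V R : Type} [DecidableEq V] [CommRing R]

theorem Iso_relabel {Q Q' : Quiv V} (e : Q.A ≃ Q'.A) (hs : ∀ a, Q'.s (e a) = Q.s a) (ht : ∀ a, Q'.t (e a) = Q.t a) :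
    Iso Q Q' fun a => (X (e a) : NC Q'.A R) := by
  refine ⟨fun a w hw => ?_, ?_⟩
  · have h : w = [e a] := by
      by_contra hne
      exact hw (if_neg hne)
    subst h
    exact ⟨List.cons_ne_nil _ _, hs a, ht a⟩
  · have hl : lin (fun a => (X (e a) : NC Q'.A R)) = (1 : Matrix Q'.A Q'.A R).submatrix e id := by
      ext a b
      show (if [b] = [e a] then (1 : R) else 0) = (1 : Matrix Q'.A Q'.A R) (e a) b
      rw [Matrix.one_apply]
      by_cases h : e a = b
      · rw [if_pos h, if_pos (by rw [h])]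
      · rw [if_neg h, if_neg]
        intro h'
        exact h (List.cons.inj h').1.symm
    refine ⟨(1 : Matrix Q'.A Q'.A R).submatrix id e, ?_, ?_⟩
    · rw [hl, ← Matrix.submatrix_mul _ _ _ _ _ Function.bijective_id, one_mul, Matrix.submatrix_one_equiv]
    · rw [hl, Matrix.submatrix_mul_equiv, one_mul, Matrix.submatrix_id_id]

theorem RE_relabel {Q Q' : Quiv V} (e : Q.A ≃ Q'.A) (hs : ∀ a, Q'.s (e a) = Q.s a) (ht : ∀ a, Q'.t (e a) = Q.t a)
    (W : NC Q.A R) : RE Q Q' W (fun w => W (w.map e.symm)) := by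
  refine ⟨_, Iso_relabel e hs ht, ?_⟩
  congr 1
  funext w
  exact subst_relabel e W w

section

variable {m : ℕ} {p q : Fin m → V}

/-- the arrows of the premutation of the sum -/
def P7_g (Q : Quiv V) (k : V) (hp : ∀ i, p i ≠ k) (hq : ∀ i, q i ≠ k) :
    ((Q.pre k).plus p q).A → ((Q.plus p q).pre k).A
  | Sum.inl (Sum.inl a) => Sum.inl ⟨Sum.inl a.1, a.2⟩
  | Sum.inl (Sum.inr (Sum.inl ab)) => Sum.inr (Sum.inl (⟨Sum.inl ab.1.1, ab.1.2⟩, ⟨Sum.inl ab.2.1, ab.2.2⟩))
  | Sum.inl (Sum.inr (Sum.inr a)) => Sum.inr (Sum.inr ⟨Sum.inl a.1, a.2⟩)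
  | Sum.inr (Sum.inl i) => Sum.inl ⟨Sum.inr (Sum.inl i), hp i, hq i⟩
  | Sum.inr (Sum.inr i) => Sum.inl ⟨Sum.inr (Sum.inr i), hq i, hp i⟩

/-- a left inverse -/
def P7_f (Q : Quiv V) (k : V) : ((Q.plus p q).pre k).A → Option ((Q.pre k).plus p q).A
  | Sum.inl ⟨Sum.inl a, h⟩ => some (Sum.inl (Sum.inl ⟨a, h⟩))
  | Sum.inl ⟨Sum.inr z, _⟩ => some (Sum.inr z)
  | Sum.inr (Sum.inl (⟨Sum.inl a, ha⟩, ⟨Sum.inl b, hb⟩)) => some (Sum.inl (Sum.inr (Sum.inl (⟨a, ha⟩, ⟨b, hb⟩))))
  | Sum.inr (Sum.inl (⟨Sum.inl _, _⟩, ⟨Sum.inr _, _⟩)) => none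
  | Sum.inr (Sum.inl (⟨Sum.inr _, _⟩, _)) => none
  | Sum.inr (Sum.inr ⟨Sum.inl a, h⟩) => some (Sum.inl (Sum.inr (Sum.inr ⟨a, h⟩)))
  | Sum.inr (Sum.inr ⟨Sum.inr _, _⟩) => none

variable (Q : Quiv V) (k : V) (hp : ∀ i, p i ≠ k) (hq : ∀ i, q i ≠ k)

theorem P7_fg (x : ((Q.pre k).plus p q).A) : P7_f Q k (P7_g Q k hp hq x) = some x := by
  rcases x with ((a | (⟨a, b⟩ | a)) | (i | i)) <;> rfl

theorem P7_inj : Function.Injective (P7_g Q k hp hq) := by
  intro x y h
  have h1 := congrArg (P7_f Q k) h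
  rw [P7_fg, P7_fg] at h1
  exact Option.some.inj h1

include hp hq in
theorem P7_ne (z : Fin m ⊕ Fin m) : (Q.plus p q).s (Sum.inr z) ≠ k ∧ (Q.plus p q).t (Sum.inr z) ≠ k := by
  rcases z with i | i
  · exact ⟨hp i, hq i⟩
  · exact ⟨hq i, hp i⟩

theorem P7_surj : Function.Surjective (P7_g Q k hp hq) := by
  rintro (⟨a | z, ha⟩ | (⟨⟨a | z, ha⟩, ⟨b | z', hb⟩⟩ | ⟨a | z, ha⟩))
  · exact ⟨Sum.inl (Sum.inl ⟨a, ha⟩), rfl⟩
  · rcases z with i | i
    · exact ⟨Sum.inr (Sum.inl i), rfl⟩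
    · exact ⟨Sum.inr (Sum.inr i), rfl⟩
  · exact ⟨Sum.inl (Sum.inr (Sum.inl (⟨a, ha⟩, ⟨b, hb⟩))), rfl⟩
  · exact absurd hb (P7_ne Q k hp hq z').1
  · exact absurd ha (P7_ne Q k hp hq z).2
  · exact absurd ha (P7_ne Q k hp hq z).2
  · exact ⟨Sum.inl (Sum.inr (Sum.inr ⟨a, ha⟩)), rfl⟩
  · exact absurd ha (by rintro (h | h); exacts [(P7_ne Q k hp hq z).1 h, (P7_ne Q k hp hq z).2 h])

theorem P7_s (a : ((Q.pre k).plus p q).A) :
    ((Q.plus p q).pre k).s (P7_g Q k hp hq a) = ((Q.pre k).plus p q).s a := by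
  rcases a with ((a | (⟨a, b⟩ | a)) | (i | i)) <;> rfl

theorem P7_t (a : ((Q.pre k).plus p q).A) :
    ((Q.plus p q).pre k).t (P7_g Q k hp hq a) = ((Q.pre k).plus p q).t a := by
  rcases a with ((a | (⟨a, b⟩ | a)) | (i | i)) <;> rfl

/-- expansion of the words without new arrows -/
theorem P7_expand (l : List (Q.pre k).A) :
    (Q.plus p q).expand k ((l.map Sum.inl).map (P7_g Q k hp hq)) = (Q.expand k l).map (List.map Sum.inl) := by
  induction l with
  | nil => rfl
  | cons a l ih =>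
    rcases a with a | ⟨a, b⟩ | a
    · show ((Q.plus p q).expand k ((l.map Sum.inl).map (P7_g Q k hp hq))).map (fun l => Sum.inl a.1 :: l) =
        ((Q.expand k l).map fun l => a.1 :: l).map (List.map Sum.inl)
      rw [ih]
      cases Q.expand k l <;> rfl
    · show ((Q.plus p q).expand k ((l.map Sum.inl).map (P7_g Q k hp hq))).map
          (fun l => Sum.inl a.1 :: Sum.inl b.1 :: l) =
        ((Q.expand k l).map fun l => a.1 :: b.1 :: l).map (List.map Sum.inl)
      rw [ih]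
      cases Q.expand k l <;> rfl
    · rfl

/-- the words the expansions of which have no new arrows -/
theorem P7_old (w : List ((Q.pre k).plus p q).A) : ∀ l' : List Q.A,
    (Q.plus p q).expand k (w.map (P7_g Q k hp hq)) = some (l'.map Sum.inl) →
      ∃ l : List (Q.pre k).A, w = l.map Sum.inl := by
  induction w with
  | nil => exact fun _ _ => ⟨[], rfl⟩
  | cons c w ih =>
    intro l' h
    rcases c with ((a | (⟨a, b⟩ | a)) | (i | i))
    · have h1 : ((Q.plus p q).expand k (w.map (P7_g Q k hp hq))).map (fun l => Sum.inl a.1 :: l) =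
        some (l'.map Sum.inl) := h
      obtain ⟨u, hu, hu'⟩ := Option.map_eq_some_iff.1 h1
      rcases l' with _ | ⟨c, l'⟩
      · exact absurd hu' (List.cons_ne_nil _ _)
      · have h2 : u = l'.map Sum.inl := (List.cons.inj hu').2
        rw [h2] at hu
        obtain ⟨l, rfl⟩ := ih l' hu
        exact ⟨Sum.inl a :: l, rfl⟩
    · have h1 : ((Q.plus p q).expand k (w.map (P7_g Q k hp hq))).map
          (fun l => Sum.inl a.1 :: Sum.inl b.1 :: l) = some (l'.map Sum.inl) := h
      obtain ⟨u, hu, hu'⟩ := Option.map_eq_some_iff.1 h1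
      rcases l' with _ | ⟨c, _ | ⟨d, l'⟩⟩
      · exact absurd hu' (List.cons_ne_nil _ _)
      · exact absurd (List.cons.inj hu').2 (List.cons_ne_nil _ _)
      · have h2 : u = l'.map Sum.inl := (List.cons.inj (List.cons.inj hu').2).2
        rw [h2] at hu
        obtain ⟨l, rfl⟩ := ih l' hu
        exact ⟨Sum.inr (Sum.inl (a, b)) :: l, rfl⟩
    · exact absurd h (by rintro ⟨⟩)
    · have h1 : ((Q.plus p q).expand k (w.map (P7_g Q k hp hq))).map
          (fun l => Sum.inr (Sum.inl i) :: l) = some (l'.map Sum.inl) := h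
      obtain ⟨u, hu, hu'⟩ := Option.map_eq_some_iff.1 h1
      rcases l' with _ | ⟨c, l'⟩
      · exact absurd hu' (List.cons_ne_nil _ _)
      · exact absurd (List.cons.inj hu').1 (by rintro ⟨⟩)
    · have h1 : ((Q.plus p q).expand k (w.map (P7_g Q k hp hq))).map
          (fun l => Sum.inr (Sum.inr i) :: l) = some (l'.map Sum.inl) := h
      obtain ⟨u, hu, hu'⟩ := Option.map_eq_some_iff.1 h1
      rcases l' with _ | ⟨c, l'⟩
      · exact absurd hu' (List.cons_ne_nil _ _)
      · exact absurd (List.cons.inj hu').1 (by rintro ⟨⟩)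

/-- the triangles of the premutation of the sum -/
theorem P7_tri (w : List ((Q.pre k).plus p q).A) :
    (∃ (a : (Q.plus p q).In k) (b : (Q.plus p q).Out k), w.map (P7_g Q k hp hq) =
      [(Q.plus p q).cmp a b, (Q.plus p q).revOut b, (Q.plus p q).revIn a]) ↔
    ∃ (a : Q.In k) (b : Q.Out k), w = [Q.cmp a b, Q.revOut b, Q.revIn a].map Sum.inl := by
  constructor
  · rintro ⟨⟨a | z, ha⟩, ⟨b | z', hb⟩, h⟩
    · refine ⟨⟨a, ha⟩, ⟨b, hb⟩, ?_⟩
      exact List.map_injective_iff.2 (P7_inj Q k hp hq) h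
    · exact absurd hb (P7_ne Q k hp hq z').1
    · exact absurd ha (P7_ne Q k hp hq z).2
    · exact absurd ha (P7_ne Q k hp hq z).2
  · rintro ⟨a, b, rfl⟩
    exact ⟨⟨Sum.inl a.1, a.2⟩, ⟨Sum.inl b.1, b.2⟩, rfl⟩

open Classical in
theorem P7_plW {Q : Quiv V} (S : NC Q.A R) {w : List (Q.plus p q).A} (hw : ¬∃ l : List Q.A, w = l.map Sum.inl) :
    plW Q p q S w = if ∃ i : Fin m, w = [Sum.inr (Sum.inl i), Sum.inr (Sum.inr i)] then 1 else 0 := by
  unfold plW
  rw [if_neg hw, zero_add]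

theorem P7_pot (S : NC Q.A R) (w : List ((Q.pre k).plus p q).A) :
    (br (Q.plus p q) k (plW Q p q S) + dlt (Q.plus p q) k : NC ((Q.plus p q).pre k).A R)
        (w.map (P7_g Q k hp hq)) =
      plW (Q.pre k) p q (br Q k S + dlt Q k) w := by
  classical
  have hinl : Function.Injective (List.map (Sum.inl : (Q.pre k).A → ((Q.pre k).plus p q).A)) :=
    List.map_injective_iff.2 Sum.inl_injective
  rw [add_apply]
  by_cases hw : ∃ l : List (Q.pre k).A, w = l.map Sum.inl
  · obtain ⟨l, rfl⟩ := hw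
    have h1 : plW (Q.pre k) p q (br Q k S + dlt Q k) (l.map Sum.inl) = br Q k S l + dlt Q k l := by
      have h : kil (plW (Q.pre k) p q (br Q k S + dlt Q k : NC (Q.pre k).A R)) l =
        (br Q k S + dlt Q k : NC (Q.pre k).A R) l := by rw [kil_plW]
      exact h
    have h2 : br (Q.plus p q) k (plW Q p q S) ((l.map Sum.inl).map (P7_g Q k hp hq)) = br Q k S l := by
      unfold br
      rw [P7_expand]
      cases Q.expand k l with
      | none => rfl
      | some l' =>
        have h : kil (plW Q p q S) l' = S l' := by rw [kil_plW]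
        exact h
    have h3 : dlt (Q.plus p q) k ((l.map Sum.inl).map (P7_g Q k hp hq)) = (dlt Q k l : R) := by
      unfold dlt
      exact if_congr ((P7_tri Q k hp hq _).trans
        (exists_congr fun a => exists_congr fun b => hinl.eq_iff)) rfl rfl
    exact (congrArg₂ (· + ·) h2 h3).trans h1.symm
  · have h1 := P7_plW (R := R) (br Q k S + dlt Q k) hw
    have h3 : dlt (Q.plus p q) k (w.map (P7_g Q k hp hq)) = (0 : R) := by
      unfold dlt
      refine if_neg fun h' => ?_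
      obtain ⟨a, b, h⟩ := (P7_tri Q k hp hq _).1 h'
      exact hw ⟨_, h⟩
    rw [h1, h3, add_zero]
    have hE : ∀ i : Fin m, (Q.plus p q).expand k
        (([Sum.inr (Sum.inl i), Sum.inr (Sum.inr i)] : List ((Q.pre k).plus p q).A).map (P7_g Q k hp hq)) =
        some [Sum.inr (Sum.inl i), Sum.inr (Sum.inr i)] := fun i => rfl
    unfold br
    cases h4 : (Q.plus p q).expand k (w.map (P7_g Q k hp hq)) with
    | none =>
      rw [if_neg]
      rintro ⟨i, rfl⟩
      exact absurd ((hE i).symm.trans h4) (by rintro ⟨⟩)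
    | some l =>
      have h5 : ¬∃ l' : List Q.A, l = l'.map Sum.inl := by
        rintro ⟨l', rfl⟩
        exact hw (P7_old Q k hp hq w l' h4)
      refine (P7_plW (R := R) S h5).trans (if_congr (exists_congr fun i => ?_) rfl rfl)
      constructor
      · rintro rfl
        exact List.map_injective_iff.2 (P7_inj Q k hp hq) (expand_inj _ _ h4 (hE i))
      · rintro rfl
        exact (Option.some.inj ((hE i).symm.trans h4)).symm

end

/-- premutation of a direct sum with a trivial part away from `k` -/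
theorem pre_plus (Q : Quiv V) (k : V) {m : ℕ} {p q : Fin m → V} (hp : ∀ i, p i ≠ k) (hq : ∀ i, q i ≠ k) (S : NC Q.A R) :
    RE ((Q.plus p q).pre k) ((Q.pre k).plus p q) (br (Q.plus p q) k (plW Q p q S) + dlt (Q.plus p q) k)
      (plW (Q.pre k) p q (br Q k S + dlt Q k)) := by
  have h := RE_relabel (R := R) (Equiv.ofBijective (P7_g Q k hp hq) ⟨P7_inj Q k hp hq, P7_surj Q k hp hq⟩).symm
    (fun a => by
      obtain ⟨b, rfl⟩ := P7_surj Q k hp hq a
      rw [P7_s]
      congr 1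
      exact Equiv.ofBijective_symm_apply_apply _ _ b)
    (fun a => by
      obtain ⟨b, rfl⟩ := P7_surj Q k hp hq a
      rw [P7_t]
      congr 1
      exact Equiv.ofBijective_symm_apply_apply _ _ b)
    (br (Q.plus p q) k (plW Q p q S) + dlt (Q.plus p q) k)
  have e : (fun w : List ((Q.pre k).plus p q).A =>
      (br (Q.plus p q) k (plW Q p q S) + dlt (Q.plus p q) k : NC ((Q.plus p q).pre k).A R)
        (w.map (Equiv.ofBijective (P7_g Q k hp hq) ⟨P7_inj Q k hp hq, P7_surj Q k hp hq⟩).symm.symm)) =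
      plW (Q.pre k) p q (br Q k S + dlt Q k) := by
    funext w
    exact P7_pot Q k hp hq S w
  rw [e] at h
  exact h

end Cea.N
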