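import Pool.Agent.Lib.MP_cea156_al.N.M1
import Pool.Agent.Lib.MP_cea156_al.N.Q1
import Pool.Agent.Lib.MP_cea156_al.N.P7

/-! M3a: non-degenerate potentials. `mut_B`: `RE_card`, `B_plus`, `B_pre`. `nondeg_congr`: the first mutation of `P'` is a mutation of `P` (`mu_congr`);
`P'.Q` is 2-acyclic by `RE_card` and `twoAcyclic_iff`. -/

set_option autoImplicit false

namespace Cea.N

open Relation

theorem REq_iff {V : Type} [DecidableEq V] (P P' : QP V) : REq P.Q P'.Q P.W P'.W ↔ RE P.Q P'.Q P.W P'.W :=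
  (RE_iff P.Q P'.Q P.W P'.W).symm

theorem RE_twoAcyclic {V : Type} [DecidableEq V] {Q Q' : Quiv V} {W : NC Q.A ℂ} {W' : NC Q'.A ℂ} (h : RE Q Q' W W')
    (h2 : Q.TwoAcyclic) : Q'.TwoAcyclic := by
  rw [twoAcyclic_iff] at h2 ⊢
  intro i j
  rw [← RE_card h i j, ← RE_card h j i]
  exact h2 i j

theorem M3a_noLoop {V : Type} [DecidableEq V] {Q : Quiv V} (h : Q.TwoAcyclic) (k : V) : NoLoop Q k :=
  fun a ha => h a a ⟨ha.2.trans ha.1.symm, ha.2.trans ha.1.symm⟩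

theorem mut_B {n : ℕ} {P R : QP (Fin n)} {k : Fin n} (hP : P.Q.TwoAcyclic) (h : QP.Mut k P R) :
    R.Q.B = mutB k P.Q.B := by
  rw [Mut_iff] at h
  obtain ⟨_, W₁, _, _, _, m, p, q, hRE⟩ := h
  rw [← B_pre hP k, ← B_plus R.Q p q]
  funext i j
  rw [B_eq_na, B_eq_na, RE_card hRE i j, RE_card hRE j i]

theorem Nondeg.two {V : Type} [DecidableEq V] {P : QP V} (h : Nondeg P) : P.Q.TwoAcyclic :=
  h P ReflTransGen.refl

theorem Nondeg.mut {V : Type} [DecidableEq V] {P P' : QP V} {k : V} (h : Nondeg P) (hm : QP.Mut k P P') : Nondeg P' :=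
  fun R hR => h R (ReflTransGen.head ⟨k, hm⟩ hR)

theorem nondeg_congr {V : Type} [DecidableEq V] {P P' : QP V} (h : RE P.Q P'.Q P.W P'.W) (hn : Nondeg P) :
    Nondeg P' := by
  have h2 : P'.Q.TwoAcyclic := RE_twoAcyclic h (Nondeg.two hn)
  intro R hR
  rcases ReflTransGen.cases_head hR with rfl | ⟨P'', ⟨k, hk⟩, hR'⟩
  · exact h2
  · refine hn R (ReflTransGen.head ⟨k, ?_⟩ hR')
    rw [Mut_iff] at hk ⊢
    exact mu_congr (M3a_noLoop (Nondeg.two hn) k) (M3a_noLoop h2 k) P.pot h hk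

theorem M3a_path {V : Type} [DecidableEq V] {Q Q' : Quiv V} (e : Q.A ≃ Q'.A) (hs : ∀ a, Q'.s (e a) = Q.s a)
    (ht : ∀ a, Q'.t (e a) = Q.t a) (w : List Q'.A) : ∀ i j, Q.IsPath i (w.map e.symm) j → Q'.IsPath i w j := by
  induction w with
  | nil => intro i j h; exact h
  | cons a w ih =>
    intro i j h
    have h1 : Q.s (e.symm a) = i ∧ Q.IsPath (Q.t (e.symm a)) (w.map e.symm) j := h
    have h2 := hs (e.symm a)
    have h3 := ht (e.symm a)
    rw [e.apply_symm_apply] at h2 h3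
    exact ⟨h2.trans h1.1, by rw [h3]; exact ih _ _ h1.2⟩

/-- transport of a potential to a 2-acyclic quiver with the same matrix -/
theorem transport {n : ℕ} (P : QP (Fin n)) {Q' : Quiv (Fin n)} (h2 : P.Q.TwoAcyclic) (h2' : Q'.TwoAcyclic)
    (hB : P.Q.B = Q'.B) : ∃ P' : QP (Fin n), P'.Q = Q' ∧ RE P.Q P'.Q P.W P'.W := by
  obtain ⟨e, hs, ht⟩ := exists_equiv fun i j => na_of_B h2 h2' hB i j
  refine ⟨⟨Q', fun w => P.W (w.map e.symm), fun w hw => ?_⟩, rfl, RE_relabel e hs ht P.W⟩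
  obtain ⟨h3, i, h4⟩ := P.pot _ hw
  exact ⟨fun h => h3 (by rw [h]; rfl), i, M3a_path e hs ht w i i h4⟩

end Cea.N
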