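import Pool.Agent.Lib.MP_cea156_al.N.M2b
import Pool.Agent.Lib.MP_cea156_al.N.M3a

/-! M3b: uniqueness of the non-degenerate potential is invariant under mutation. Let `W` be the non-degenerate potential on `Q`, `R` a mutation of `(Q, W)` at
`k` (`exists_mut`), `Q₁ = R.Q`. Let `W'` be non-degenerate on `Q₁`, `P'` a mutation of `(Q₁, W')`. `P'.Q` has the matrix of `Q` (`mutB k (mutB k B) = B`), so
`P'` is transported to a non-degenerate potential on `Q`, right equivalent to `W`; by `mut_symm`, `Mut k P' (Q₁, W')` and `Mut k (Q, W) R`; `mu_unique`. -/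

set_option autoImplicit false

namespace Cea.N

theorem mutB_mutB {n : ℕ} (k : Fin n) (B : Matrix (Fin n) (Fin n) ℤ) (hB : ∀ i j, B i j = -B j i) :
    mutB k (mutB k B) = B := by
  funext i j
  unfold mutB
  by_cases h : i = k ∨ j = k
  · rw [if_pos h, if_pos h, neg_neg]
  · rw [if_neg h, if_neg h, if_pos (Or.inr rfl), if_pos (Or.inl rfl), neg_neg, neg_neg]
    ring

theorem M3b_noLoop {V : Type} [DecidableEq V] {Q : Quiv V} (h : Q.TwoAcyclic) (k : V) : NoLoop Q k :=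
  fun a ha => h a a ⟨ha.2.trans ha.1.symm, ha.2.trans ha.1.symm⟩

theorem uniquePot_mut {n : ℕ} {Q : Quiv (Fin n)} (h : UniquePot Q) (k : Fin n) :
    ∃ Q₁ : Quiv (Fin n), Q₁.TwoAcyclic ∧ Q₁.B = mutB k Q.B ∧ UniquePot Q₁ := by
  obtain ⟨W, hW, hn, hu⟩ := h
  have h2 : Q.TwoAcyclic := Nondeg.two hn
  obtain ⟨R, hR, -⟩ := exists_mut (⟨Q, W, hW⟩ : QP (Fin n)) h2 k
  have hRn : Nondeg R := Nondeg.mut hn hR
  have hRB : R.Q.B = mutB k Q.B := mut_B h2 hR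
  refine ⟨R.Q, Nondeg.two hRn, hRB, R.W, R.pot, hRn, fun W' hW' hn' => ?_⟩
  obtain ⟨P', hP', -⟩ := exists_mut (⟨R.Q, W', hW'⟩ : QP (Fin n)) (Nondeg.two hn') k
  have hPn : Nondeg P' := Nondeg.mut hn' hP'
  have hsk : ∀ i j, Q.B i j = -Q.B j i := fun i j => by
    unfold Quiv.B
    ring
  have hPB : P'.Q.B = Q.B := by
    have h3 : P'.Q.B = mutB k R.Q.B := mut_B (P := ⟨R.Q, W', hW'⟩) (Nondeg.two hn') hP'
    rw [h3, hRB, mutB_mutB k _ hsk]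
  obtain ⟨P₂, hQ, hRE⟩ := transport P' (Nondeg.two hPn) h2 hPB
  have hn₂ : Nondeg P₂ := nondeg_congr hRE hPn
  obtain ⟨Q₂, W₂, hW₂⟩ := P₂
  change Q₂ = Q at hQ
  subst hQ
  have h4 : RE Q₂ Q₂ W₂ W := (RE_iff _ _ _ _).mpr (hu W₂ hW₂ hn₂)
  have h5 : RE P'.Q Q₂ P'.W W := hRE.trans h4
  have h6 : QP.Mut k P' ⟨R.Q, W', hW'⟩ := mut_symm (Nondeg.two hn') (Nondeg.two hPn) hP'
  have h7 : RE R.Q R.Q W' R.W := mu_unique (M3b_noLoop (Nondeg.two hPn) k) (M3b_noLoop h2 k) hW' R.pot h5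
    ((Mut_iff _ _ _).mp h6) ((Mut_iff _ _ _).mp hR)
  exact (RE_iff _ _ _ _).mp h7

end Cea.N
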