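import Pool.Agent.Lib.MP_cea156_al.N.R6
import Pool.Agent.Lib.MP_cea156_al.E02
import Pool.Agent.Lib.MP_cea156_al.E01

/-! R7: all subsets of at most three vertices are mutation-acyclic, in the whole mutation class. `acyc_or_MC3`: a skew-symmetric 3 × 3 matrix without positive 3-cycle is
acyclic (finitely many sign patterns); for a positive 3-cycle use `mutAcyc_of_not_MCN`. `local_acyc`: for `M.card = 3` take `e : Fin 3 ↪ Fin n` with range `M`; `mutB` commutes with restriction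
to the range of `e`; for smaller `M` the restriction is acyclic itself (enlarge `M`, or directly: `r` from the sign of one entry). -/

set_option autoImplicit false

namespace Cea.N

open Relation

/-- acyclic on the subset `M` -/
def AcycOn {n : ℕ} (M : Finset (Fin n)) (B : Matrix (Fin n) (Fin n) ℤ) : Prop :=
  ∃ r : Fin n → ℕ, ∀ i ∈ M, ∀ j ∈ M, 0 < B i j → r i < r j

/-- mutation-acyclic on `M`, by mutations in `M` -/
def MutAcycOn {n : ℕ} (M : Finset (Fin n)) (B : Matrix (Fin n) (Fin n) ℤ) : Prop :=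
  ∃ B', ReflTransGen (fun a b => ∃ k ∈ M, b = mutB k a) B B' ∧ AcycOn M B'

theorem R7_acyc3 {B : Matrix (Fin 3) (Fin 3) ℤ} (hB : ∀ i j, B i j = -B j i)
    (h : ¬ ∃ u v w : Fin 3, 0 < B u v ∧ 0 < B v w ∧ 0 < B w u) : Acyc B := by
  have h1 : ¬ (0 < B 0 1 ∧ 0 < B 1 2 ∧ 0 < B 2 0) := fun h' => h ⟨0, 1, 2, h'⟩
  have h2 : ¬ (0 < B 1 0 ∧ 0 < B 0 2 ∧ 0 < B 2 1) := fun h' => h ⟨1, 0, 2, h'⟩
  have e1 := hB 1 0
  have e2 := hB 0 2
  have e3 := hB 2 1
  have hc1 : ∀ t : Fin 3, t = 0 ∨ t = 1 ∨ t = 2 := by decide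
  have hc2 : ∀ t : Fin 3, t = 1 ∨ t = 2 ∨ t = 0 := by decide
  have hc3 : ∀ t : Fin 3, t = 2 ∨ t = 0 ∨ t = 1 := by decide
  have hc4 : ∀ t : Fin 3, t = 2 ∨ t = 1 ∨ t = 0 := by decide
  have hc5 : ∀ t : Fin 3, t = 0 ∨ t = 2 ∨ t = 1 := by decide
  have hc6 : ∀ t : Fin 3, t = 1 ∨ t = 0 ∨ t = 2 := by decide
  have n01 : (0 : Fin 3) ≠ 1 := by decide
  have n12 : (1 : Fin 3) ≠ 2 := by decide
  have n20 : (2 : Fin 3) ≠ 0 := by decide
  by_cases a1 : 0 ≤ B 0 1 <;> by_cases a2 : 0 ≤ B 1 2 <;> by_cases a3 : 0 ≤ B 2 0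
  · -- all nonnegative: one is zero
    have h3 : B 0 1 = 0 ∨ B 1 2 = 0 ∨ B 2 0 = 0 := by
      by_contra hcon
      simp only [not_or] at hcon
      exact h1 ⟨by omega, by omega, by omega⟩
    rcases h3 with h3 | h3 | h3
    · exact E02_acyc hB n12 n20 n01 hc2 a2 a3 (by omega)
    · exact E02_acyc hB n20 n01 n12 hc3 a3 a1 (by omega)
    · exact E02_acyc hB n01 n12 n20 hc1 a1 a2 (by omega)
  · exact E02_acyc hB n01 n12 n20 hc1 a1 a2 (by omega)
  · exact E02_acyc hB n20 n01 n12 hc3 a3 a1 (by omega)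
  · exact E02_acyc hB n20.symm n12.symm n01.symm hc5 (by omega) (by omega) a1
  · exact E02_acyc hB n12 n20 n01 hc2 a2 a3 (by omega)
  · exact E02_acyc hB n01.symm n20.symm n12.symm hc6 (by omega) (by omega) a2
  · exact E02_acyc hB n12.symm n01.symm n20.symm hc4 (by omega) (by omega) a3
  · exact (h2 ⟨by omega, by omega, by omega⟩).elim

theorem acyc_or_MC3 (B : Matrix (Fin 3) (Fin 3) ℤ) (hB : ∀ i j, B i j = -B j i) :
    MutAcyc B ∨ ∃ (u v w : Fin 3) (a b c : ℕ), u ≠ v ∧ v ≠ w ∧ w ≠ u ∧ B u v = a ∧ B v w = b ∧ B w u = c ∧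
      MC a b c := by
  by_cases h : ∃ u v w : Fin 3, 0 < B u v ∧ 0 < B v w ∧ 0 < B w u
  swap
  · exact Or.inl (E02_of_acyc (R7_acyc3 hB h))
  obtain ⟨u, v, w, h1, h2, h3⟩ := h
  have hd : ∀ i, B i i = 0 := fun i => by have := hB i i; omega
  have hne : ∀ i j, 0 < B i j → i ≠ j := by
    rintro i j h rfl
    rw [hd] at h
    omega
  have huv := hne u v h1
  have hvw := hne v w h2
  have hwu := hne w u h3
  have hc : ∀ z : Fin 3, z = u ∨ z = v ∨ z = w := by
    revert huv hvw hwu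
    clear h1 h2 h3
    revert u v w
    decide
  have k1 : B u v = ((B u v).toNat : ℤ) := (Int.toNat_of_nonneg h1.le).symm
  have k2 : B v w = ((B v w).toNat : ℤ) := (Int.toNat_of_nonneg h2.le).symm
  have k3 : B w u = ((B w u).toNat : ℤ) := (Int.toNat_of_nonneg h3.le).symm
  by_cases hM : MC (B u v).toNat (B v w).toNat (B w u).toNat
  · exact Or.inr ⟨u, v, w, _, _, _, huv, hvw, hwu, k1, k2, k3, hM⟩
  · left
    obtain ⟨m, hm⟩ := not_forall.mp hM
    exact mutAcyc_of_not_MCN huv hvw hwu hc m _ _ _ B hB k1 k2 k3 hm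

theorem R7_sub_mut {n : ℕ} (e : Fin 3 → Fin n) (he : Function.Injective e) (B : Matrix (Fin n) (Fin n) ℤ) (k : Fin 3) :
    (mutB (e k) B).submatrix e e = mutB k (B.submatrix e e) := by
  funext i j
  simp only [Matrix.submatrix_apply, mutB, he.eq_iff]

theorem R7_lift {n : ℕ} {M : Finset (Fin n)} (e : Fin 3 → Fin n) (he : Function.Injective e) (hM : ∀ k, e k ∈ M)
    (B : Matrix (Fin n) (Fin n) ℤ) {C : Matrix (Fin 3) (Fin 3) ℤ}
    (h : ReflTransGen (fun a b => ∃ k, b = mutB k a) (B.submatrix e e) C) :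
    ∃ B', ReflTransGen (fun a b => ∃ k ∈ M, b = mutB k a) B B' ∧ B'.submatrix e e = C := by
  induction h with
  | refl => exact ⟨B, ReflTransGen.refl, rfl⟩
  | tail _ h2 ih =>
    obtain ⟨k, rfl⟩ := h2
    obtain ⟨B', h3, h4⟩ := ih
    refine ⟨mutB (e k) B', h3.tail ⟨e k, hM k, rfl⟩, ?_⟩
    rw [R7_sub_mut e he, h4]

theorem R7_small {n : ℕ} (B : Matrix (Fin n) (Fin n) ℤ) (hB : ∀ i j, B i j = -B j i)
    (M : Finset (Fin n)) (hM : M.card ≤ 2) : AcycOn M B := by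
  classical
  refine ⟨fun i => if ∃ j ∈ M, 0 < B i j then 0 else 1, fun i hi j hj hij => ?_⟩
  have h1 : ∃ j ∈ M, 0 < B i j := ⟨j, hj, hij⟩
  have h2 : ¬ ∃ k ∈ M, 0 < B j k := by
    rintro ⟨k, hk, hjk⟩
    have hd : ∀ i, B i i = 0 := fun i => by have := hB i i; omega
    have n1 : i ≠ j := by
      rintro rfl
      rw [hd] at hij
      omega
    have n2 : j ≠ k := by
      rintro rfl
      rw [hd] at hjk
      omega
    have n3 : i ≠ k := by
      rintro rfl
      have := hB i j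
      omega
    have h3 : ({i, j, k} : Finset (Fin n)) ⊆ M := by
      intro x hx
      simp only [Finset.mem_insert, Finset.mem_singleton] at hx
      rcases hx with rfl | rfl | rfl
      · exact hi
      · exact hj
      · exact hk
    have h4 := Finset.card_le_card h3
    rw [Finset.card_eq_three.mpr ⟨i, j, k, n1, n3, n2, rfl⟩] at h4
    omega
  show (if ∃ j ∈ M, 0 < B i j then 0 else 1) < (if ∃ k ∈ M, 0 < B j k then 0 else 1)
  rw [if_pos h1, if_neg h2]
  exact Nat.zero_lt_one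

theorem local_of_no_MC {n : ℕ} (B : Matrix (Fin n) (Fin n) ℤ) (hB : ∀ i j, B i j = -B j i)
    (h : ∀ (u v w : Fin n) (a b c : ℕ), u ≠ v → v ≠ w → w ≠ u → B u v = a → B v w = b → B w u = c → ¬ MC a b c)
    (M : Finset (Fin n)) (hM : M.card ≤ 3) : MutAcycOn M B := by
  classical
  by_cases h2 : M.card ≤ 2
  · exact ⟨B, ReflTransGen.refl, R7_small B hB M h2⟩
  have h3 : M.card = 3 := by omega
  have he : Function.Injective (M.orderEmbOfFin h3) := (M.orderEmbOfFin h3).injective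
  have hmem : ∀ k, (M.orderEmbOfFin h3) k ∈ M := fun k => M.orderEmbOfFin_mem h3 k
  have hrange : ∀ i ∈ M, ∃ k, (M.orderEmbOfFin h3) k = i := by
    intro i hi
    have := M.range_orderEmbOfFin h3
    have h4 : i ∈ Set.range (M.orderEmbOfFin h3) := by
      rw [this]
      exact hi
    exact h4
  generalize (M.orderEmbOfFin h3 : Fin 3 → Fin n) = e at he hmem hrange
  rcases acyc_or_MC3 (B.submatrix e e) (fun i j => hB (e i) (e j)) with h4 | h4
  · obtain ⟨C, h5, r, hr⟩ := h4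
    obtain ⟨B', h6, h7⟩ := R7_lift e he hmem B h5
    refine ⟨B', h6, Function.extend e r 0, fun i hi j hj hij => ?_⟩
    obtain ⟨i', rfl⟩ := hrange i hi
    obtain ⟨j', rfl⟩ := hrange j hj
    rw [he.extend_apply, he.extend_apply]
    apply hr
    rw [← h7]
    exact hij
  · obtain ⟨u, v, w, a, b, c, n1, n2, n3, k1, k2, k3, k4⟩ := h4
    exact (h (e u) (e v) (e w) a b c (he.ne n1) (he.ne n2) (he.ne n3) k1 k2 k3 k4).elim

/-- the main theorem of the quiver side -/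
theorem local_acyc {n : ℕ} {Q : Quiv (Fin n)} (hu : UniquePot Q) {B : Matrix (Fin n) (Fin n) ℤ}
    (hB : ReflTransGen (fun a b => ∃ k, b = mutB k a) Q.B B) (M : Finset (Fin n)) (hM : M.card ≤ 3) :
    MutAcycOn M B := by
  have h : ∃ Q' : Quiv (Fin n), UniquePot Q' ∧ Q'.B = B := by
    induction hB with
    | refl => exact ⟨Q, hu, rfl⟩
    | tail _ h2 ih =>
      obtain ⟨k, rfl⟩ := h2
      obtain ⟨Q', h3, h4⟩ := ih
      obtain ⟨Q₁, -, h5, h6⟩ := uniquePot_mut h3 k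
      exact ⟨Q₁, h6, by rw [h5, h4]⟩
  obtain ⟨Q', h1, rfl⟩ := h
  exact local_of_no_MC Q'.B (B_skew Q') (fun u v w a b c huv hvw hwu k1 k2 k3 hMC =>
    no_MC (a + b + c) h1 huv hvw hwu le_rfl hMC k1 k2 k3) M hM

end Cea.N
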