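import Pool.Agent.Lib.MP_cea156_al.N.C0
import Pool.Agent.Lib.MP_cea156_al.N.C1
import Pool.Agent.Lib.MP_cea156_al.N.J5
import Pool.Agent.Lib.MP_cea156_al.N.H4
import Pool.Agent.Lib.MP_cea156_al.N.R7

/-! The main theorems. -/

set_option autoImplicit false

namespace Cea.N

open Relation

variable {n : ℕ}

theorem loc_of_unique {Q : Quiv (Fin n)} (h : UniquePot Q) : Loc Q.B :=
  fun _ hB M hM => local_acyc h hB M hM

theorem reduction {Q : Quiv (Fin n)} (h : UniquePot Q) :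
    (∀ B, ReflTransGen (fun a b => ∃ k, b = mutB k a) Q.B B → ∀ M : Finset (Fin n), M.card ≤ 3 → MutAcycM M B) ∧
    ∀ s, Reach (initSeed Q.B) s → ∀ M, Red M s.B →
      upperAlg (initSeed Q.B) ≤ Algebra.adjoin ℂ
        ((clusterAlg (initSeed Q.B) : Set (FractionRing (MvPolynomial (Fin n) ℂ))) ∪ {z | ∃ i, i ∉ M ∧ z = (s.x i)⁻¹}) :=
  ⟨loc_of_unique h, fun _ hs _ hM => main_red (B_skew Q) (loc_of_unique h) hs hM⟩

theorem rigid {Q : Quiv (Fin n)} (h : UniquePot Q) {W : NC Q.A ℂ} (hW : Pot Q W) (hn : Nondeg ⟨Q, W, hW⟩)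
    {Y : NC Q.A ℂ} (hY : Pot Q Y) :
    ∃ ξ : Q.A → NC Q.A ℂ, (∀ a w, ξ a w ≠ 0 → w ≠ [] ∧ Q.IsPath (Q.s a) w (Q.t a)) ∧
      cyc (∑ a, ξ a * der a W) = cyc Y :=
  rigid_exact (uniquePot_two h) hW (RG_nondeg h hW hn) hY

end Cea.N
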