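import Pool.Agent.Lib.MP_cea156_al.N.P1e

/-! P1: the bracket `br Q k f w = f (expand w)`. Products: a cut of `expand w` is a cut of `w`, or it cuts a composite in the middle; in the second
case the left part ends with an arrow `a` with `t a = k` and the right part starts with an arrow `b` with `s b = k`. -/

set_option autoImplicit false

namespace Cea.N

open Finset

variable {V R : Type} [DecidableEq V] [CommRing R]

/-- no word ends with an arrow which ends at `k` -/
def NoEnd (Q : Quiv V) (k : V) (W : NC Q.A R) : Prop := ∀ a w, Q.t a = k → W (w ++ [a]) = 0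

variable (Q : Quiv V) (k : V)

theorem br_of_some (f : NC Q.A R) {w : List (Q.pre k).A} {l : List Q.A} (h : Q.expand k w = some l) :
    br Q k f w = f l := by
  unfold br
  rw [h]

private theorem P1_none (f : NC Q.A R) {w : List (Q.pre k).A} (h : Q.expand k w = none) :
    br Q k f w = 0 := by
  unfold br
  rw [h]

theorem br_add (f g : NC Q.A R) : br Q k (f + g) = br Q k f + br Q k g := by
  ext w
  rw [add_apply]
  cases h : Q.expand k w with
  | none => rw [P1_none Q k _ h, P1_none Q k _ h, P1_none Q k _ h, add_zero]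
  | some l => rw [br_of_some Q k _ h, br_of_some Q k _ h, br_of_some Q k _ h, add_apply]

theorem br_sub (f g : NC Q.A R) : br Q k (f - g) = br Q k f - br Q k g := by
  ext w
  rw [sub_apply]
  cases h : Q.expand k w with
  | none => rw [P1_none Q k _ h, P1_none Q k _ h, P1_none Q k _ h, sub_zero]
  | some l => rw [br_of_some Q k _ h, br_of_some Q k _ h, br_of_some Q k _ h, sub_apply]

theorem br_sum {ι : Type} (s : Finset ι) (f : ι → NC Q.A R) : br Q k (∑ i ∈ s, f i) = ∑ i ∈ s, br Q k (f i) := by
  classical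
  induction s using Finset.induction_on with
  | empty =>
    rw [sum_empty, sum_empty]
    ext w
    rw [zero_apply]
    cases h : Q.expand k w with
    | none => rw [P1_none Q k _ h]
    | some l => rw [br_of_some Q k _ h, zero_apply]
  | insert a s ha ih => rw [sum_insert ha, sum_insert ha, br_add, ih]

private theorem P1_old (f : NC Q.A R) (a : Q.Old k) :
    shift (A := (Q.pre k).A) (Sum.inl a) (br Q k f) = br Q k (shift a.1 f) := by
  ext w
  show br Q k f (Sum.inl a :: w) = _
  cases h : Q.expand k w with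
  | none =>
    rw [P1_none Q k (shift a.1 f) h]
    exact P1_none Q k f (by
      show (Q.expand k w).map _ = none
      rw [h]
      rfl)
  | some l =>
    rw [br_of_some Q k (shift a.1 f) h]
    exact br_of_some Q k f (by
      show (Q.expand k w).map _ = some (a.1 :: l)
      rw [h]
      rfl)

private theorem P1_cmp (f : NC Q.A R) (ab : Q.In k × Q.Out k) :
    shift (A := (Q.pre k).A) (Sum.inr (Sum.inl ab)) (br Q k f) =
      br Q k (shift ab.2.1 (shift ab.1.1 f)) := by
  ext w
  show br Q k f (Sum.inr (Sum.inl ab) :: w) = _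
  cases h : Q.expand k w with
  | none =>
    rw [P1_none Q k (shift ab.2.1 (shift ab.1.1 f)) h]
    exact P1_none Q k f (by
      show (Q.expand k w).map _ = none
      rw [h]
      rfl)
  | some l =>
    rw [br_of_some Q k (shift ab.2.1 (shift ab.1.1 f)) h]
    exact br_of_some Q k f (by
      show (Q.expand k w).map _ = some (ab.1.1 :: ab.2.1 :: l)
      rw [h]
      rfl)

private theorem P1_rev (f : NC Q.A R) (c : Q.Tch k) :
    shift (A := (Q.pre k).A) (Sum.inr (Sum.inr c)) (br Q k f) = 0 := by
  ext w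
  exact P1_none Q k f rfl

theorem br_one : br Q k (1 : NC Q.A R) = 1 := by
  ext w
  rcases w with _ | ⟨c, w⟩
  · exact br_of_some Q k (1 : NC Q.A R) (w := []) (l := []) rfl
  · rw [one_cons]
    show shift (A := (Q.pre k).A) c (br Q k 1) w = 0
    have h1 : ∀ a : Q.A, shift a (1 : NC Q.A R) = 0 := fun a => rfl
    have h0 : br Q k (0 : NC Q.A R) w = 0 := by
      cases h : Q.expand k w with
      | none => rw [P1_none Q k _ h]
      | some l => rw [br_of_some Q k _ h, zero_apply]
    rcases c with a | ab | c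
    · rw [P1_old, h1]
      exact h0
    · rw [P1_cmp, h1]
      exact h0
    · rw [P1_rev]
      rfl

/-- the common step of `br_mul` and `br_mul'` -/
private theorem P1_step (f g : NC Q.A R) (c : (Q.pre k).A) (w : List (Q.pre k).A)
    (hold : ∀ a : Q.Old k, br Q k (shift a.1 f * g) w = (br Q k (shift a.1 f) * br Q k g) w)
    (hcmp : ∀ ab : Q.In k × Q.Out k, br Q k (shift ab.2.1 (shift ab.1.1 f) * g) w =
      (br Q k (shift ab.2.1 (shift ab.1.1 f)) * br Q k g) w)
    (hz : ∀ (ab : Q.In k × Q.Out k) (l : List Q.A), f [ab.1.1] * g (ab.2.1 :: l) = 0) :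
    br Q k (f * g) (c :: w) = (br Q k f * br Q k g) (c :: w) := by
  rw [mul_cons]
  have hnil : br Q k f [] = f [] := br_of_some Q k f rfl
  have e1 : br Q k (f * g) (c :: w) = shift (A := (Q.pre k).A) c (br Q k (f * g)) w := rfl
  have e2 : br Q k g (c :: w) = shift (A := (Q.pre k).A) c (br Q k g) w := rfl
  rw [hnil, e1, e2]
  rcases c with a | ab | c
  · rw [P1_old, P1_old, P1_old, ← hold a]
    cases h : Q.expand k w with
    | none => rw [P1_none Q k _ h, P1_none Q k _ h, P1_none Q k _ h, mul_zero, add_zero]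
    | some l =>
      rw [br_of_some Q k _ h, br_of_some Q k _ h, br_of_some Q k _ h]
      exact mul_cons f g a.1 l
  · rw [P1_cmp, P1_cmp, P1_cmp, ← hcmp ab]
    cases h : Q.expand k w with
    | none => rw [P1_none Q k _ h, P1_none Q k _ h, P1_none Q k _ h, mul_zero, add_zero]
    | some l =>
      rw [br_of_some Q k _ h, br_of_some Q k _ h, br_of_some Q k _ h]
      show (f * g) (ab.1.1 :: ab.2.1 :: l) = f [] * g (ab.1.1 :: ab.2.1 :: l) + _
      rw [mul_cons, mul_cons]
      show _ + (f [ab.1.1] * g (ab.2.1 :: l) + _) = _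
      rw [hz ab l, zero_add]
  · rw [P1_rev, P1_rev, P1_rev, zero_mul, zero_apply, mul_zero, add_zero]

theorem br_mul (f : NC Q.A R) {g : NC Q.A R} (h : NoStart Q k g) : br Q k (f * g) = br Q k f * br Q k g := by
  have key : ∀ (w : List (Q.pre k).A) (f : NC Q.A R), br Q k (f * g) w = (br Q k f * br Q k g) w := by
    intro w
    induction w with
    | nil =>
      intro f
      rw [mul_nil, br_of_some Q k (f * g) (l := []) rfl, br_of_some Q k f (l := []) rfl,
        br_of_some Q k g (l := []) rfl, mul_nil]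
    | cons c w ih =>
      intro f
      exact P1_step Q k f g c w (fun a => ih _) (fun ab => ih _)
        (fun ab l => by rw [h ab.2.1 l ab.2.2, mul_zero])
  exact ext fun w => key w f

theorem br_mul' {f : NC Q.A R} (h : NoEnd Q k f) (g : NC Q.A R) : br Q k (f * g) = br Q k f * br Q k g := by
  have hsh : ∀ (f : NC Q.A R) (c : Q.A), NoEnd Q k f → NoEnd Q k (shift c f) :=
    fun f c hf a w ha => hf a (c :: w) ha
  have key : ∀ (w : List (Q.pre k).A) (f : NC Q.A R), NoEnd Q k f →
      br Q k (f * g) w = (br Q k f * br Q k g) w := by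
    intro w
    induction w with
    | nil =>
      intro f _
      rw [mul_nil, br_of_some Q k (f * g) (l := []) rfl, br_of_some Q k f (l := []) rfl,
        br_of_some Q k g (l := []) rfl, mul_nil]
    | cons c w ih =>
      intro f hf
      refine P1_step Q k f g c w (fun a => ih _ (hsh _ _ hf)) (fun ab => ih _ (hsh _ _ (hsh _ _ hf)))
        (fun ab l => ?_)
      have h1 : f [ab.1.1] = 0 := hf ab.1.1 [] ab.1.2
      rw [h1, zero_mul]
  exact ext fun w => key w f h

private theorem P1_mon {w : List (Q.pre k).A} {l : List Q.A} (h : Q.expand k w = some l) :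
    br Q k (mon l : NC Q.A R) = mon w := by
  ext u
  cases hu : Q.expand k u with
  | none =>
    rw [P1_none Q k _ hu]
    show (0 : R) = if u = w then 1 else 0
    rw [if_neg]
    rintro rfl
    rw [h] at hu
    cases hu
  | some l' =>
    rw [br_of_some Q k _ hu]
    show (if l' = l then (1 : R) else 0) = if u = w then 1 else 0
    by_cases huw : u = w
    · subst huw
      rw [h] at hu
      rw [if_pos rfl, if_pos (Option.some.inj hu).symm]
    · rw [if_neg huw, if_neg]
      rintro rfl
      exact huw (expand_inj Q k hu h)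

theorem br_old (c : Q.Old k) : br Q k (X c.1 : NC Q.A R) = (X (Sum.inl c) : NC (Q.pre k).A R) :=
  P1_mon Q k (w := [Sum.inl c]) (l := [c.1]) rfl

theorem br_cmp (a : Q.In k) (b : Q.Out k) :
    br Q k (X a.1 * X b.1 : NC Q.A R) = (X (Q.cmp a b) : NC (Q.pre k).A R) := by
  have h : (X a.1 * X b.1 : NC Q.A R) = mon [a.1, b.1] := mon_mul_mon [a.1] [b.1]
  rw [h]
  exact P1_mon Q k (w := [Q.cmp a b]) (l := [a.1, b.1]) rfl

private theorem P1_ex {f : NC Q.A R} {w : List (Q.pre k).A} (h : br Q k f w ≠ 0) :
    ∃ l, Q.expand k w = some l ∧ f l ≠ 0 := by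
  cases hw : Q.expand k w with
  | none => exact absurd (P1_none Q k f hw) h
  | some l =>
    rw [br_of_some Q k f hw] at h
    exact ⟨l, rfl, h⟩

theorem Sup_br {i j : V} {f : NC Q.A R} (h : Sup Q i j f) : Sup (Q.pre k) i j (br Q k f) := by
  intro w hw
  obtain ⟨l, h1, h2⟩ := P1_ex Q k hw
  exact (isPath_expand Q k h1).1 (h l h2)

theorem Pot_br {W : NC Q.A R} (h : Pot Q W) : Pot (Q.pre k) (br Q k W) := by
  intro w hw
  obtain ⟨l, h1, h2⟩ := P1_ex Q k hw
  obtain ⟨h3, i, h4⟩ := h l h2
  refine ⟨?_, i, (isPath_expand Q k h1).1 h4⟩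
  rintro rfl
  exact h3 (Option.some.inj h1).symm

theorem Pot_dlt : Pot (Q.pre k) (dlt Q k : NC (Q.pre k).A R) := by
  intro w hw
  by_cases h : ∃ (a : Q.In k) (b : Q.Out k), w = [Q.cmp a b, Q.revOut b, Q.revIn a]
  · obtain ⟨a, b, rfl⟩ := h
    refine ⟨List.cons_ne_nil _ _, Q.s a.1, rfl, rfl, ?_, rfl⟩
    show Q.t a.1 = Q.s b.1
    rw [a.2, b.2]
  · exact absurd (if_neg h) hw

end Cea.N
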