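import Pool.Agent.Lib.MP_cea156_al.N.P1

/-! P1b: products passing through `k`. `f` is supported on nonempty paths which end at `k`: `f = ∑_a (f / a) * a` over `a` with `t a = k`, where
`(f / a) l = f (l ++ [a])` has only paths which end at `s a ≠ k`; similarly for `g`. -/

set_option autoImplicit false

namespace Cea.N

open Finset

section letters

variable {A R : Type} [DecidableEq A] [CommRing R]

theorem P1b_X_nil (a : A) : (X a : NC A R) [] = 0 := by
  show (if ([] : List A) = [a] then (1 : R) else 0) = 0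
  exact if_neg (List.cons_ne_nil a []).symm

theorem P1b_X_cons (a c : A) (w : List A) : (X a : NC A R) (c :: w) = if c = a ∧ w = [] then 1 else 0 := by
  show (if c :: w = [a] then (1 : R) else 0) = _
  simp only [List.cons.injEq]

theorem P1b_shift_X (a c : A) : shift c (X a : NC A R) = if c = a then 1 else 0 := by
  ext w
  show (X a : NC A R) (c :: w) = _
  rw [P1b_X_cons]
  by_cases h : c = a
  · rw [if_pos h, one_apply]
    cases w with
    | nil => simp [h]
    | cons d w => simp
  · rw [if_neg h, zero_apply, if_neg fun h' => h h'.1]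

theorem P1b_X_mul_nil (a : A) (g : NC A R) : (X a * g : NC A R) [] = 0 := by
  rw [mul_nil, P1b_X_nil, zero_mul]

theorem P1b_mul_X_nil (a : A) (g : NC A R) : (g * X a : NC A R) [] = 0 := by
  rw [mul_nil, P1b_X_nil, mul_zero]

theorem P1b_X_mul_cons (a c : A) (g : NC A R) (w : List A) : (X a * g : NC A R) (c :: w) = if c = a then g w else 0 := by
  rw [mul_cons, P1b_X_nil, zero_mul, zero_add, P1b_shift_X]
  by_cases h : c = a
  · rw [if_pos h, if_pos h, one_mul]
  · rw [if_neg h, if_neg h, zero_mul, zero_apply]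

theorem P1b_mul_X_append (a c : A) (l : List A) : ∀ g : NC A R, (g * X a : NC A R) (l ++ [c]) = if c = a then g l else 0 := by
  induction l with
  | nil =>
    intro g
    show (g * X a : NC A R) (c :: []) = _
    rw [mul_cons, P1b_mul_X_nil, add_zero, P1b_X_cons]
    by_cases h : c = a
    · rw [if_pos h, if_pos ⟨h, rfl⟩, mul_one]
    · rw [if_neg h, if_neg fun h' => h h'.1, mul_zero]
  | cons d l ih =>
    intro g
    show (g * X a : NC A R) (d :: (l ++ [c])) = _
    rw [mul_cons, P1b_X_cons, if_neg (fun h' => by simpa using h'.2), mul_zero, zero_add, ih]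
    rfl

/-- the series `l ↦ f (l ++ [a])` -/
def P1b_r (a : A) (f : NC A R) : NC A R := fun l => f (l ++ [a])

end letters

variable {V R : Type} [DecidableEq V] [CommRing R] (Q : Quiv V) (k : V)

theorem P1b_right {i : V} (hi : i ≠ k) {f : NC Q.A R} (hf : Sup Q i k f) :
    f = ∑ a : Q.In k, P1b_r a.1 f * X a.1 := by
  ext w
  rw [finsetSum_apply]
  rcases List.eq_nil_or_concat' w with rfl | ⟨l, c, rfl⟩
  · rw [sum_eq_zero fun a _ => P1b_mul_X_nil a.1 _]
    by_contra h
    exact hi (hf _ h)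
  · by_cases hc : Q.t c = k
    · rw [sum_eq_single_of_mem (⟨c, hc⟩ : Q.In k) (mem_univ _)]
      · rw [P1b_mul_X_append, if_pos rfl]
        rfl
      · intro b _ hb
        rw [P1b_mul_X_append]
        exact if_neg fun h => hb (Subtype.ext h.symm)
    · rw [sum_eq_zero]
      · by_contra h
        obtain ⟨m, -, hm⟩ := (isPath_append Q i k l [c]).1 (hf _ h)
        exact hc hm.2
      · intro b _
        rw [P1b_mul_X_append]
        refine if_neg fun h => hc ?_
        rw [h]
        exact b.2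

theorem P1b_left {j : V} (hj : j ≠ k) {g : NC Q.A R} (hg : Sup Q k j g) :
    g = ∑ b : Q.Out k, X b.1 * shift b.1 g := by
  ext w
  rw [finsetSum_apply]
  cases w with
  | nil =>
    rw [sum_eq_zero fun a _ => P1b_X_mul_nil a.1 _]
    by_contra h
    exact hj (hg _ h).symm
  | cons c l =>
    by_cases hc : Q.s c = k
    · rw [sum_eq_single_of_mem (⟨c, hc⟩ : Q.Out k) (mem_univ _)]
      · rw [P1b_X_mul_cons, if_pos rfl]
        rfl
      · intro b _ hb
        rw [P1b_X_mul_cons]
        exact if_neg fun h => hb (Subtype.ext h.symm)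
    · rw [sum_eq_zero]
      · by_contra h
        exact hc (hg _ h).1
      · intro b _
        rw [P1b_X_mul_cons]
        refine if_neg fun h => hc ?_
        rw [h]
        exact b.2

theorem P1b_noEnd (hk : NoLoop Q k) {i : V} {f : NC Q.A R} (hf : Sup Q i k f) (a : Q.In k) :
    NoEnd Q k (P1b_r a.1 f) := by
  intro c w hc
  show f (w ++ [c] ++ [a.1]) = 0
  by_contra h
  obtain ⟨m, h1, h2⟩ := (isPath_append Q i k (w ++ [c]) [a.1]).1 (hf _ h)
  obtain ⟨m', -, h3⟩ := (isPath_append Q i m w [c]).1 h1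
  refine hk a.1 ⟨?_, a.2⟩
  rw [h2.1, ← hc]
  exact h3.2.symm

theorem P1b_noStart (hk : NoLoop Q k) {j : V} {g : NC Q.A R} (hg : Sup Q k j g) (b : Q.Out k) :
    NoStart Q k (shift b.1 g) := by
  intro c w hc
  show g (b.1 :: c :: w) = 0
  by_contra h
  have h1 := hg _ h
  exact hk b.1 ⟨b.2, h1.2.1.symm.trans hc⟩

theorem br_pass (hk : NoLoop Q k) {i j : V} (hi : i ≠ k) (hj : j ≠ k) {f g : NC Q.A R} (hf : Sup Q i k f)
    (hg : Sup Q k j g) :
    br Q k (f * g) = ∑ a : Q.In k, ∑ b : Q.Out k,
      br Q k (fun l => f (l ++ [a.1])) * (X (Q.cmp a b) : NC (Q.pre k).A R) * br Q k (fun l => g (b.1 :: l)) := by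
  have e : f * g = ∑ a : Q.In k, ∑ b : Q.Out k, P1b_r a.1 f *
      (X a.1 * X b.1 * shift b.1 g) := by
    conv_lhs => rw [P1b_right Q k hi hf, P1b_left Q k hj hg]
    rw [sum_mul]
    refine sum_congr rfl fun a _ => ?_
    rw [mul_sum]
    refine sum_congr rfl fun b _ => ?_
    simp only [mul_assoc]
  rw [e, br_sum]
  refine sum_congr rfl fun a _ => ?_
  rw [br_sum]
  refine sum_congr rfl fun b _ => ?_
  rw [br_mul' Q k (P1b_noEnd Q k hk hf a), br_mul Q k _ (P1b_noStart Q k hk hg b), br_cmp, ← mul_assoc]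
  rfl

theorem dlt_eq_sum (Q : Quiv V) (k : V) : (dlt Q k : NC (Q.pre k).A R) =
    ∑ a : Q.In k, ∑ b : Q.Out k, (X (Q.cmp a b) : NC (Q.pre k).A R) * X (Q.revOut b) * X (Q.revIn a) := by
  have e : ∀ (a : Q.In k) (b : Q.Out k),
      ((X (Q.cmp a b) : NC (Q.pre k).A R) * X (Q.revOut b) * X (Q.revIn a) : NC (Q.pre k).A R) =
        mon [Q.cmp a b, Q.revOut b, Q.revIn a] := by
    intro a b
    show (mon _ * mon _ * mon _ : NC (Q.pre k).A R) = _
    rw [mon_mul_mon, mon_mul_mon]
    rfl
  simp only [e]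
  ext w
  rw [finsetSum_apply]
  simp only [finsetSum_apply]
  by_cases h : ∃ (a : Q.In k) (b : Q.Out k), w = [Q.cmp a b, Q.revOut b, Q.revIn a]
  · have e1 : (dlt Q k : NC (Q.pre k).A R) w = 1 := if_pos h
    obtain ⟨a, b, rfl⟩ := h
    rw [e1, sum_eq_single_of_mem a (mem_univ _), sum_eq_single_of_mem b (mem_univ _)]
    · exact (if_pos rfl).symm
    · intro b' _ hb
      refine if_neg fun h => hb ?_
      have h1 : Q.cmp a b = Q.cmp a b' := (List.cons.inj h).1
      have h2 : (a, b) = (a, b') := Sum.inl.inj (Sum.inr.inj h1)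
      exact (Prod.mk.inj h2).2.symm
    · intro a' _ ha
      refine sum_eq_zero fun b' _ => ?_
      refine if_neg fun h => ha ?_
      have h1 : Q.cmp a b = Q.cmp a' b' := (List.cons.inj h).1
      have h2 : (a, b) = (a', b') := Sum.inl.inj (Sum.inr.inj h1)
      exact (Prod.mk.inj h2).1.symm
  · have e1 : (dlt Q k : NC (Q.pre k).A R) w = 0 := if_neg h
    rw [e1]
    refine (sum_eq_zero fun a _ => sum_eq_zero fun b _ => ?_).symm
    exact if_neg fun h' => h ⟨a, b, h'⟩

end Cea.N
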