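import Pool.Agent.Lib.MP_cea156_al.N.A5

/-! P1e: expansion of words. -/

set_option autoImplicit false

namespace Cea.N

open Finset

variable {V : Type} [DecidableEq V]

variable (Q : Quiv V) (k : V)

theorem P1e_old (a : Q.Old k) (w : List (Q.pre k).A) :
    Q.expand k ((Sum.inl a : Q.PreA k) :: w) = (Q.expand k w).map fun l => a.1 :: l := rfl

theorem P1e_cmp (ab : Q.In k × Q.Out k) (w : List (Q.pre k).A) :
    Q.expand k ((Sum.inr (Sum.inl ab) : Q.PreA k) :: w) =
      (Q.expand k w).map fun l => ab.1.1 :: ab.2.1 :: l := rfl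

theorem P1e_rev (a : Q.Tch k) (w : List (Q.pre k).A) :
    Q.expand k ((Sum.inr (Sum.inr a) : Q.PreA k) :: w) = none := rfl

variable {Q k} in
/-- the first letter of a word which can be expanded -/
theorem P1e_cons {x : (Q.pre k).A} {w : List (Q.pre k).A} {l : List Q.A}
    (h : Q.expand k (x :: w) = some l) :
    (∃ (a : Q.Old k) (l' : List Q.A), x = (Sum.inl a : Q.PreA k) ∧ l = a.1 :: l' ∧
      Q.expand k w = some l') ∨
    (∃ (ab : Q.In k × Q.Out k) (l' : List Q.A), x = (Sum.inr (Sum.inl ab) : Q.PreA k) ∧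
      l = ab.1.1 :: ab.2.1 :: l' ∧ Q.expand k w = some l') := by
  rcases x with a | ab | a
  · left
    have h1 : (Q.expand k w).map (fun l => a.1 :: l) = some l := h
    obtain ⟨l', hl', he⟩ := Option.map_eq_some_iff.1 h1
    exact ⟨a, l', rfl, he.symm, hl'⟩
  · right
    have h1 : (Q.expand k w).map (fun l => ab.1.1 :: ab.2.1 :: l) = some l := h
    obtain ⟨l', hl', he⟩ := Option.map_eq_some_iff.1 h1
    exact ⟨ab, l', rfl, he.symm, hl'⟩
  · have h1 : (none : Option (List Q.A)) = some l := h
    cases h1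

theorem expand_nil : Q.expand k [] = some [] := by
  rfl

theorem expand_append (u v : List (Q.pre k).A) :
    Q.expand k (u ++ v) = (Q.expand k u).bind fun l => (Q.expand k v).map fun l' => l ++ l' := by
  induction u with
  | nil =>
    rw [List.nil_append, expand_nil]
    cases Q.expand k v <;> rfl
  | cons x u ih =>
    rcases x with a | ab | a
    · have e1 : Q.expand k (((Sum.inl a : Q.PreA k) :: u : List (Q.pre k).A) ++ v) =
          (Q.expand k (u ++ v)).map fun l => a.1 :: l := rfl
      have e2 : Q.expand k ((Sum.inl a : Q.PreA k) :: u) =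
          (Q.expand k u).map fun l => a.1 :: l := rfl
      refine e1.trans ?_
      rw [ih]
      refine Eq.trans ?_ (congrArg (fun o : Option (List Q.A) => o.bind fun l =>
        (Q.expand k v).map fun l' => l ++ l') e2.symm)
      cases Q.expand k u <;> cases Q.expand k v <;> rfl
    · have e1 : Q.expand k (((Sum.inr (Sum.inl ab) : Q.PreA k) :: u : List (Q.pre k).A) ++ v) =
          (Q.expand k (u ++ v)).map fun l => ab.1.1 :: ab.2.1 :: l := rfl
      have e2 : Q.expand k ((Sum.inr (Sum.inl ab) : Q.PreA k) :: u) =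
          (Q.expand k u).map fun l => ab.1.1 :: ab.2.1 :: l := rfl
      refine e1.trans ?_
      rw [ih]
      refine Eq.trans ?_ (congrArg (fun o : Option (List Q.A) => o.bind fun l =>
        (Q.expand k v).map fun l' => l ++ l') e2.symm)
      cases Q.expand k u <;> cases Q.expand k v <;> rfl
    · rfl

/-- a word is a path iff its expansion is one -/
theorem isPath_expand {i j : V} {w : List (Q.pre k).A} {l : List Q.A} (h : Q.expand k w = some l) :
    Q.IsPath i l j ↔ (Q.pre k).IsPath i w j := by
  induction w generalizing i l with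
  | nil =>
    rw [expand_nil] at h
    obtain rfl := Option.some.inj h
    exact Iff.rfl
  | cons x w ih =>
    rcases P1e_cons h with ⟨a, l', rfl, rfl, hl⟩ | ⟨ab, l', rfl, rfl, hl⟩
    · have h1 := ih (i := Q.t a.1) hl
      have e1 : Q.IsPath i (a.1 :: l') j ↔ Q.s a.1 = i ∧ Q.IsPath (Q.t a.1) l' j := Iff.rfl
      have e2 : (Q.pre k).IsPath i ((Sum.inl a : Q.PreA k) :: w) j ↔
          Q.s a.1 = i ∧ (Q.pre k).IsPath (Q.t a.1) w j := Iff.rfl
      exact e1.trans ((and_congr Iff.rfl h1).trans e2.symm)
    · have h1 := ih (i := Q.t ab.2.1) hl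
      have e1 : Q.IsPath i (ab.1.1 :: ab.2.1 :: l') j ↔
          Q.s ab.1.1 = i ∧ Q.s ab.2.1 = Q.t ab.1.1 ∧ Q.IsPath (Q.t ab.2.1) l' j := Iff.rfl
      have e2 : (Q.pre k).IsPath i ((Sum.inr (Sum.inl ab) : Q.PreA k) :: w) j ↔
          Q.s ab.1.1 = i ∧ (Q.pre k).IsPath (Q.t ab.2.1) w j := Iff.rfl
      have e3 : Q.s ab.2.1 = Q.t ab.1.1 := by rw [ab.2.2, ab.1.2]
      exact e1.trans ((and_congr Iff.rfl ((and_iff_right e3).trans h1)).trans e2.symm)

theorem expand_inj {w w' : List (Q.pre k).A} {l : List Q.A} (h : Q.expand k w = some l) (h' : Q.expand k w' = some l) :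
    w = w' := by
  induction w generalizing w' l with
  | nil =>
    rw [expand_nil] at h
    obtain rfl := Option.some.inj h
    cases w' with
    | nil => rfl
    | cons x w' =>
      rcases P1e_cons h' with ⟨a, l', -, hl, -⟩ | ⟨ab, l', -, hl, -⟩
      · cases hl
      · cases hl
  | cons x w ih =>
    cases w' with
    | nil =>
      rw [expand_nil] at h'
      obtain rfl := Option.some.inj h'
      rcases P1e_cons h with ⟨a, l', -, hl, -⟩ | ⟨ab, l', -, hl, -⟩
      · cases hl
      · cases hl
    | cons x' w' =>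
      rcases P1e_cons h with ⟨a, l', rfl, rfl, hl⟩ | ⟨ab, l', rfl, rfl, hl⟩
      · rcases P1e_cons h' with ⟨a', m', rfl, hm, hl'⟩ | ⟨ab', m', rfl, hm, hl'⟩
        · obtain ⟨h1, rfl⟩ := List.cons.inj hm
          obtain rfl := Subtype.ext h1
          rw [ih hl hl']
        · obtain ⟨h1, -⟩ := List.cons.inj hm
          exact absurd (h1 ▸ ab'.1.2) a.2.2
      · rcases P1e_cons h' with ⟨a', m', rfl, hm, hl'⟩ | ⟨ab', m', rfl, hm, hl'⟩
        · obtain ⟨h1, -⟩ := List.cons.inj hm
          exact absurd (h1 ▸ ab.1.2) a'.2.2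
        · obtain ⟨h1, h2⟩ := List.cons.inj hm
          obtain ⟨h3, rfl⟩ := List.cons.inj h2
          obtain rfl : ab = ab' := Prod.ext (Subtype.ext h1) (Subtype.ext h3)
          rw [ih hl hl']

theorem P1e_contract (hk : NoLoop Q k) {j : V} (hj : j ≠ k) (n : ℕ) :
    ∀ (l : List Q.A) (i : V), l.length ≤ n → i ≠ k → Q.IsPath i l j →
      ∃ w, Q.expand k w = some l := by
  induction n with
  | zero =>
    intro l i hl _ _
    obtain rfl := List.length_eq_zero_iff.1 (Nat.le_zero.1 hl)
    exact ⟨[], rfl⟩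
  | succ n ih =>
    intro l i hl hi h
    cases l with
    | nil => exact ⟨[], rfl⟩
    | cons a l =>
      obtain ⟨h1, h2⟩ := h
      rw [List.length_cons] at hl
      by_cases ht : Q.t a = k
      · cases l with
        | nil =>
          have h3 : Q.t a = j := h2
          exact absurd (h3.symm.trans ht) hj
        | cons b l =>
          obtain ⟨h3, h4⟩ := h2
          have hb : Q.s b = k := h3.trans ht
          have hb' : Q.t b ≠ k := fun h5 => hk b ⟨hb, h5⟩
          rw [List.length_cons] at hl
          obtain ⟨w, hw⟩ := ih l (Q.t b) (by omega) hb' h4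
          refine ⟨(Sum.inr (Sum.inl (⟨a, ht⟩, ⟨b, hb⟩)) : Q.PreA k) :: w, ?_⟩
          rw [P1e_cmp, hw]
          rfl
      · obtain ⟨w, hw⟩ := ih l (Q.t a) (by omega) ht h2
        refine ⟨(Sum.inl ⟨a, by rw [h1]; exact hi, ht⟩ : Q.PreA k) :: w, ?_⟩
        rw [P1e_old, hw]
        rfl

/-- a path with both ends different from `k` is the expansion of a word (no loops at `k`) -/
theorem exists_contract (hk : NoLoop Q k) {i j : V} (hi : i ≠ k) (hj : j ≠ k) {l : List Q.A} (h : Q.IsPath i l j) :
    ∃ w, Q.expand k w = some l := by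
  exact P1e_contract Q k hk hj l.length l i le_rfl hi h

theorem length_expand {w : List (Q.pre k).A} {l : List Q.A} (h : Q.expand k w = some l) :
    w.length ≤ l.length ∧ l.length ≤ 2 * w.length := by
  induction w generalizing l with
  | nil =>
    rw [expand_nil] at h
    obtain rfl := Option.some.inj h
    exact ⟨le_rfl, le_rfl⟩
  | cons x w ih =>
    rcases P1e_cons h with ⟨a, l', -, rfl, hl⟩ | ⟨ab, l', -, rfl, hl⟩
    · have h1 := ih hl
      simp only [List.length_cons]
      omega
    · have h1 := ih hl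
      simp only [List.length_cons]
      omega

end Cea.N
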