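import Pool.Agent.Lib.MP_cea156_al.N.P1
import Pool.Agent.Lib.MP_cea156_al.N.A6

/-! P2: the cyclic sum of a bracket. Let `expand w = some l`. `expand (w.rotate n) = some (l.rotate n')`, where `n'` is the length of the expansion
of the first `n` letters; the remaining rotations of `l` start in the middle of a composite, with an arrow `b`, `s b = k`. If `expand w = none`
the same holds for all rotations. Write the sum over the rotations of `w` with `cyc_apply_cons`-like sums over cuts `w = u ++ v`, or by induction. -/

set_option autoImplicit false

namespace Cea.N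

open Finset

variable {V R : Type} [DecidableEq V] [CommRing R] (Q : Quiv V) (k : V)

theorem P2_br_none (f : NC Q.A R) {w : List (Q.pre k).A} (h : Q.expand k w = none) : br Q k f w = 0 := by
  unfold br
  rw [h]

theorem P2_cyc_eq {A : Type} (f : NC A R) (w : List A) :
    cyc f w = ∑ n ∈ range w.length, f (w.drop n ++ w.take n) := by
  unfold cyc
  refine sum_congr rfl fun n hn => ?_
  rw [List.rotate_eq_drop_append_take (le_of_lt (mem_range.mp hn))]

theorem P2_append {u v : List (Q.pre k).A} {lu lv : List Q.A} (hu : Q.expand k u = some lu)
    (hv : Q.expand k v = some lv) : Q.expand k (u ++ v) = some (lu ++ lv) := by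
  rw [expand_append, hu, hv]
  rfl

theorem P2_cases (x : (Q.pre k).A) : (∃ a, Q.expand k [x] = some [a]) ∨
    (∃ a b, Q.s b = k ∧ Q.expand k [x] = some [a, b]) ∨ Q.expand k [x] = none := by
  rcases x with c | ab | r
  · exact Or.inl ⟨c.1, rfl⟩
  · exact Or.inr (Or.inl ⟨ab.1.1, ab.2.1, ab.2.2, rfl⟩)
  · exact Or.inr (Or.inr rfl)

theorem P2_cons (x : (Q.pre k).A) (v : List (Q.pre k).A) :
    Q.expand k (x :: v) = (Q.expand k [x]).bind fun l => (Q.expand k v).map fun l' => l ++ l' :=
  expand_append Q k [x] v

theorem P2_main {f : NC Q.A R} (h : NoStart Q k f) (v : List (Q.pre k).A) :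
    ∀ (u : List (Q.pre k).A) (lu lv : List Q.A), Q.expand k u = some lu → Q.expand k v = some lv →
      ∑ n ∈ range v.length, br Q k f (v.drop n ++ (u ++ v.take n)) =
        ∑ m ∈ range lv.length, f (lv.drop m ++ (lu ++ lv.take m)) := by
  induction v with
  | nil =>
    intro u lu lv _ hv
    have : lv = [] := by
      rw [expand_nil] at hv
      exact (Option.some.inj hv).symm
    subst this
    rfl
  | cons x v ih =>
    intro u lu lv hu hv
    rcases P2_cases Q k x with ⟨a, hx⟩ | ⟨a, b, hb, hx⟩ | hx
    · have e1 := hv
      rw [P2_cons, hx, Option.bind_some] at hv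
      obtain ⟨lv', h1, h2⟩ := Option.map_eq_some_iff.mp hv
      simp only [List.singleton_append] at h2
      subst h2
      rw [List.length_cons, List.length_cons, sum_range_succ', sum_range_succ']
      congr 1
      · have := ih (u ++ [x]) (lu ++ [a]) lv' (P2_append Q k hu hx) h1
        simp only [List.append_assoc, List.singleton_append] at this
        simpa only [List.drop_succ_cons, List.take_succ_cons] using this
      · simp only [List.drop_zero, List.take_zero, List.append_nil]
        rw [br_of_some Q k f (P2_append Q k e1 hu)]
    · have e1 := hv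
      rw [P2_cons, hx, Option.bind_some] at hv
      obtain ⟨lv', h1, h2⟩ := Option.map_eq_some_iff.mp hv
      simp only [List.cons_append, List.nil_append] at h2
      subst h2
      rw [List.length_cons, List.length_cons, List.length_cons, sum_range_succ', sum_range_succ', sum_range_succ']
      have e0 : f (List.drop (0 + 1) (a :: b :: lv') ++ (lu ++ List.take (0 + 1) (a :: b :: lv'))) = 0 := by
        simp only [List.drop_succ_cons, List.drop_zero]
        exact h b _ hb
      rw [e0, add_zero]
      congr 1
      · have := ih (u ++ [x]) (lu ++ [a, b]) lv' (P2_append Q k hu hx) h1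
        simp only [List.append_assoc, List.singleton_append, List.cons_append, List.nil_append] at this
        simpa only [List.drop_succ_cons, List.take_succ_cons] using this
      · simp only [List.drop_zero, List.take_zero, List.append_nil]
        rw [br_of_some Q k f (P2_append Q k e1 hu)]
    · rw [P2_cons, hx] at hv
      cases hv

theorem cyc_br {f : NC Q.A R} (h : NoStart Q k f) : cyc (br Q k f) = br Q k (cyc f) := by
  ext w
  rw [P2_cyc_eq]
  cases hw : Q.expand k w with
  | none =>
    rw [P2_br_none Q k _ hw]
    refine sum_eq_zero fun n _ => ?_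
    refine P2_br_none Q k f ?_
    rw [expand_append]
    have h0 : Q.expand k (w.take n ++ w.drop n) = none := by rw [List.take_append_drop]; exact hw
    rw [expand_append] at h0
    cases h1 : Q.expand k (w.take n) with
    | none => cases Q.expand k (w.drop n) <;> rfl
    | some l1 =>
      cases h2 : Q.expand k (w.drop n) with
      | none => rfl
      | some l2 =>
        rw [h1, h2] at h0
        cases h0
  | some l =>
    rw [br_of_some Q k _ hw, P2_cyc_eq]
    have := P2_main Q k h w [] [] l (expand_nil Q k) hw
    simpa only [List.nil_append] using this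

theorem cyc_br_congr {f g : NC Q.A R} (hf : NoStart Q k f) (hg : NoStart Q k g) (h : cyc f = cyc g) :
    cyc (br Q k f) = cyc (br Q k g) := by
  rw [cyc_br Q k hf, cyc_br Q k hg, h]

end Cea.N
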