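import Pool.Agent.Lib.MP_cea156_al.N.P1b
import Pool.Agent.Lib.MP_cea156_al.N.A9

/-! P3a: the matrices `U`, `V` of an isomorphism at the vertex `k` and their inverses. `cst U a a' = lin φ a a'` (`a`, `a'` ending at `k`); as
`lin φ a c ≠ 0` implies that `a`, `c` have the same ends, the blocks of `lin φ`, `lin ψ` at the arrows ending (starting) at `k` are inverse to each
other; then `mat_inv`, `mat_inv_sup`. -/

set_option autoImplicit false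

namespace Cea.N

open Finset

variable {V R : Type} [DecidableEq V] [CommRing R] {Q Q' : Quiv V} {k : V}

/-- `φ a = ∑ U a a' a'` -/
def Umat (k : V) (φ : Q.A → NC Q'.A R) : Matrix (Q.In k) (Q'.In k) (NC (Q'.pre k).A R) :=
  Matrix.of fun a a' => br Q' k fun l => φ a.1 (l ++ [a'.1])

/-- `φ b = ∑ b' V b' b` -/
def Vmat (k : V) (φ : Q.A → NC Q'.A R) : Matrix (Q'.Out k) (Q.Out k) (NC (Q'.pre k).A R) :=
  Matrix.of fun b' b => br Q' k fun l => φ b.1 (b'.1 :: l)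

theorem P3a_path_snoc (Q : Quiv V) {i j : V} {l : List Q.A} {a : Q.A} (h : Q.IsPath i (l ++ [a]) j) :
    Q.IsPath i l (Q.s a) := by
  induction l generalizing i with
  | nil => exact h.1.symm
  | cons b l ih => exact ⟨h.1, ih h.2⟩

theorem P3a_ends {φ : Q.A → NC Q'.A R} (hφ : Iso Q Q' φ) {a : Q.A} {c : Q'.A} (h : lin φ a c ≠ 0) :
    Q'.s c = Q.s a ∧ Q'.t c = Q.t a := by
  obtain ⟨_, h1, h2⟩ := hφ.1 a [c] h
  exact ⟨h1, h2⟩

theorem P3a_block {φ : Q.A → NC Q'.A R} {ψ : Q'.A → NC Q.A R} (hφ : Iso Q Q' φ)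
    (h : lin φ * lin ψ = 1) (p : V → V → Prop) [∀ i j, Decidable (p i j)] :
    (Matrix.of fun (a : {a : Q.A // p (Q.s a) (Q.t a)}) (a' : {a : Q'.A // p (Q'.s a) (Q'.t a)}) =>
      lin φ a.1 a'.1) *
      (Matrix.of fun (a' : {a : Q'.A // p (Q'.s a) (Q'.t a)}) (a : {a : Q.A // p (Q.s a) (Q.t a)}) =>
        lin ψ a'.1 a.1) = 1 := by
  ext a1 a2
  have h1 : (lin φ * lin ψ) a1.1 a2.1 = (1 : Matrix Q.A Q.A R) a1.1 a2.1 := by rw [h]
  rw [Matrix.mul_apply] at h1 ⊢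
  rw [← Fintype.sum_subtype_add_sum_subtype (fun c : Q'.A => p (Q'.s c) (Q'.t c))] at h1
  have h2 : ∑ c : {c : Q'.A // ¬p (Q'.s c) (Q'.t c)}, lin φ a1.1 c.1 * lin ψ c.1 a2.1 = 0 := by
    refine sum_eq_zero fun c _ => ?_
    have h3 : lin φ a1.1 c.1 = 0 := by
      by_contra h4
      obtain ⟨h5, h6⟩ := P3a_ends hφ h4
      exact c.2 (by rw [h5, h6]; exact a1.2)
    rw [h3, zero_mul]
  rw [h2, add_zero] at h1
  have h3 : (1 : Matrix {a : Q.A // p (Q.s a) (Q.t a)} {a : Q.A // p (Q.s a) (Q.t a)} R) a1 a2 =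
      (1 : Matrix Q.A Q.A R) a1.1 a2.1 := by
    rw [Matrix.one_apply, Matrix.one_apply]
    simp only [Subtype.ext_iff]
  rw [h3, ← h1]
  rfl

theorem lin_block_in {φ : Q.A → NC Q'.A R} {ψ : Q'.A → NC Q.A R} (hφ : Iso Q Q' φ) (hψ : Iso Q' Q ψ)
    (h : lin φ * lin ψ = 1) :
    (Matrix.of fun (a : Q.In k) (a' : Q'.In k) => lin φ a.1 a'.1) *
      (Matrix.of fun (a' : Q'.In k) (a : Q.In k) => lin ψ a'.1 a.1) = 1 :=
  P3a_block hφ h fun _ j => j = k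

theorem lin_block_out {φ : Q.A → NC Q'.A R} {ψ : Q'.A → NC Q.A R} (hφ : Iso Q Q' φ) (hψ : Iso Q' Q ψ)
    (h : lin φ * lin ψ = 1) :
    (Matrix.of fun (a : Q.Out k) (a' : Q'.Out k) => lin φ a.1 a'.1) *
      (Matrix.of fun (a' : Q'.Out k) (a : Q.Out k) => lin ψ a'.1 a.1) = 1 :=
  P3a_block hφ h fun i _ => i = k

theorem lin_block_old {φ : Q.A → NC Q'.A R} {ψ : Q'.A → NC Q.A R} (hφ : Iso Q Q' φ) (hψ : Iso Q' Q ψ)
    (h : lin φ * lin ψ = 1) :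
    (Matrix.of fun (a : Q.Old k) (a' : Q'.Old k) => lin φ a.1 a'.1) *
      (Matrix.of fun (a' : Q'.Old k) (a : Q.Old k) => lin ψ a'.1 a.1) = 1 :=
  P3a_block hφ h fun i j => i ≠ k ∧ j ≠ k

theorem exists_Xm (hk' : NoLoop Q' k) {φ : Q.A → NC Q'.A R} {ψ : Q'.A → NC Q.A R}
    (hφ : Iso Q Q' φ) (hψ : Iso Q' Q ψ) (h1 : lin φ * lin ψ = 1) (h2 : lin ψ * lin φ = 1) :
    ∃ Xm : Matrix (Q'.In k) (Q.In k) (NC (Q'.pre k).A R), Umat k φ * Xm = 1 ∧ Xm * Umat k φ = 1 ∧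
      (∀ a' a, Sup (Q'.pre k) (Q'.s a'.1) (Q.s a.1) (Xm a' a)) ∧ ∀ a' a, Xm a' a [] = lin ψ a'.1 a.1 := by
  have hc : cst (Umat k φ) = Matrix.of fun (a : Q.In k) (a' : Q'.In k) => lin φ a.1 a'.1 := by
    ext a a'
    exact br_of_some Q' k (fun l => φ a.1 (l ++ [a'.1])) (expand_nil Q' k)
  obtain ⟨Xm, hX1, hX2, hX3⟩ := mat_inv (Umat k φ)
    (N := Matrix.of fun (a' : Q'.In k) (a : Q.In k) => lin ψ a'.1 a.1)
    (by rw [hc]; exact lin_block_in hφ hψ h1) (by rw [hc]; exact lin_block_in hψ hφ h2)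
  have hU : ∀ (a : Q.In k) (a' : Q'.In k),
      Sup (Q'.pre k) (Q.s a.1) (Q'.s a'.1) (Umat k φ a a') := by
    intro a a'
    refine Sup_br Q' k fun l hl => ?_
    exact P3a_path_snoc Q' (hφ.1 a.1 _ hl).2
  refine ⟨Xm, hX1, hX2, fun a' a => ?_, fun a' a => ?_⟩
  · exact mat_inv_sup (Q := Q'.pre k) (σ := fun a : Q.In k => Q.s a.1)
      (τ := fun a' : Q'.In k => Q'.s a'.1) hU hX1 hX2 a' a
  · exact congrFun (congrFun hX3 a') a

theorem exists_Ym (hk' : NoLoop Q' k) {φ : Q.A → NC Q'.A R} {ψ : Q'.A → NC Q.A R}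
    (hφ : Iso Q Q' φ) (hψ : Iso Q' Q ψ) (h1 : lin φ * lin ψ = 1) (h2 : lin ψ * lin φ = 1) :
    ∃ Ym : Matrix (Q.Out k) (Q'.Out k) (NC (Q'.pre k).A R), Vmat k φ * Ym = 1 ∧ Ym * Vmat k φ = 1 ∧
      (∀ b b', Sup (Q'.pre k) (Q.t b.1) (Q'.t b'.1) (Ym b b')) ∧ ∀ b b', Ym b b' [] = lin ψ b'.1 b.1 := by
  have hc : cst (Vmat k φ) = (Matrix.of fun (a : Q.Out k) (a' : Q'.Out k) => lin φ a.1 a'.1).transpose := by
    ext b' b
    exact br_of_some Q' k (fun l => φ b.1 (b'.1 :: l)) (expand_nil Q' k)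
  obtain ⟨Ym, hY1, hY2, hY3⟩ := mat_inv (Vmat k φ)
    (N := (Matrix.of fun (a' : Q'.Out k) (a : Q.Out k) => lin ψ a'.1 a.1).transpose)
    (by rw [hc, ← Matrix.transpose_mul, lin_block_out hψ hφ h2, Matrix.transpose_one])
    (by rw [hc, ← Matrix.transpose_mul, lin_block_out hφ hψ h1, Matrix.transpose_one])
  have hV : ∀ (b' : Q'.Out k) (b : Q.Out k),
      Sup (Q'.pre k) (Q'.t b'.1) (Q.t b.1) (Vmat k φ b' b) := by
    intro b' b
    refine Sup_br Q' k fun l hl => ?_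
    exact (hφ.1 b.1 _ hl).2.2
  refine ⟨Ym, hY1, hY2, fun b b' => ?_, fun b b' => ?_⟩
  · exact mat_inv_sup (Q := Q'.pre k) (σ := fun b' : Q'.Out k => Q'.t b'.1)
      (τ := fun b : Q.Out k => Q.t b.1) hV hY1 hY2 b b'
  · exact congrFun (congrFun hY3 b) b'

end Cea.N
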