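import Pool.Agent.Lib.MP_cea156_al.N.P3a

/-! P3b: the extension `hat` of a substitution to the premutations, and functoriality of the bracket. `subst_hat_br`: if `expand w = some l` and `l` is a path
with ends different from `k` then `wordSub hat w = br (wordSub φ l)` (induction on `w`; the images of the letters of `w` are `br` of the images of the
letters `c` or pairs of letters `a b` of `l`, which have ends different from `k`, and `br_mul`); then compare the coefficients with `subst_apply`: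
`∑_w br f w * wordSub hat w w' = ∑_l f l * wordSub φ l (expand w')` (`exists_contract`, `expand_inj`, `length_expand`), and both sides vanish if
`expand w' = none`. -/

set_option autoImplicit false

namespace Cea.N

open Finset

variable {V R : Type} [DecidableEq V] [CommRing R] {Q Q' : Quiv V} {k : V}

/-- the substitution on the premutations -/
def hat (φ : Q.A → NC Q'.A R) (Xm : Matrix (Q'.In k) (Q.In k) (NC (Q'.pre k).A R))
    (Ym : Matrix (Q.Out k) (Q'.Out k) (NC (Q'.pre k).A R)) : (Q.pre k).A → NC (Q'.pre k).A R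
  | Sum.inl c => br Q' k (φ c.1)
  | Sum.inr (Sum.inl ab) => br Q' k (φ ab.1.1 * φ ab.2.1)
  | Sum.inr (Sum.inr e) =>
    if h : Q.t e.1 = k then ∑ a' : Q'.In k, (X (Q'.revIn a') : NC (Q'.pre k).A R) * Xm a' ⟨e.1, h⟩
    else ∑ b' : Q'.Out k, Ym ⟨e.1, e.2.resolve_right h⟩ b' * (X (Q'.revOut b') : NC (Q'.pre k).A R)

theorem hat_revIn (φ : Q.A → NC Q'.A R) (Xm : Matrix (Q'.In k) (Q.In k) (NC (Q'.pre k).A R))
    (Ym : Matrix (Q.Out k) (Q'.Out k) (NC (Q'.pre k).A R)) (a : Q.In k) :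
    hat φ Xm Ym (Q.revIn a) = ∑ a' : Q'.In k, (X (Q'.revIn a') : NC (Q'.pre k).A R) * Xm a' a :=
  dif_pos a.2

theorem hat_revOut (hk : NoLoop Q k) (φ : Q.A → NC Q'.A R) (Xm : Matrix (Q'.In k) (Q.In k) (NC (Q'.pre k).A R))
    (Ym : Matrix (Q.Out k) (Q'.Out k) (NC (Q'.pre k).A R)) (b : Q.Out k) :
    hat φ Xm Ym (Q.revOut b) = ∑ b' : Q'.Out k, Ym b b' * (X (Q'.revOut b') : NC (Q'.pre k).A R) :=
  dif_neg fun h => hk b.1 ⟨b.2, h⟩

/-- the image of a composite -/
theorem hat_cmp (hk : NoLoop Q k) (hk' : NoLoop Q' k) {φ : Q.A → NC Q'.A R} (hφ : Iso Q Q' φ)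
    (Xm : Matrix (Q'.In k) (Q.In k) (NC (Q'.pre k).A R))
    (Ym : Matrix (Q.Out k) (Q'.Out k) (NC (Q'.pre k).A R)) (a : Q.In k) (b : Q.Out k) :
    hat φ Xm Ym (Q.cmp a b) = ∑ a' : Q'.In k, ∑ b' : Q'.Out k,
      Umat k φ a a' * (X (Q'.cmp a' b') : NC (Q'.pre k).A R) * Vmat k φ b' b := by
  have hi : Q.s a.1 ≠ k := fun h => hk a.1 ⟨h, a.2⟩
  have hj : Q.t b.1 ≠ k := fun h => hk b.1 ⟨b.2, h⟩
  have hf : Sup Q' (Q.s a.1) k (φ a.1) := by
    have := hφ.ps a.1
    rwa [a.2] at this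
  have hg : Sup Q' k (Q.t b.1) (φ b.1) := by
    have := hφ.ps b.1
    rwa [b.2] at this
  exact br_pass Q' k hk' hi hj hf hg

theorem P3b_X_nil {A : Type} [DecidableEq A] (a : A) : (X a : NC A R) [] = 0 := by
  have h : ¬([] : List A) = [a] := fun h => List.cons_ne_nil a [] h.symm
  show (if ([] : List A) = [a] then (1 : R) else 0) = 0
  rw [if_neg h]

theorem P3b_br_nil (f : NC Q.A R) : br Q k f [] = f [] := br_of_some Q k f (expand_nil Q k)

theorem hat_z0 (hk : NoLoop Q k) {φ : Q.A → NC Q'.A R} (hφ : Iso Q Q' φ)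
    (Xm : Matrix (Q'.In k) (Q.In k) (NC (Q'.pre k).A R))
    (Ym : Matrix (Q.Out k) (Q'.Out k) (NC (Q'.pre k).A R)) : Z0 (hat φ Xm Ym) := by
  have hz := hφ.z0
  rintro (c | ab | e)
  · show br Q' k (φ c.1) [] = 0
    rw [P3b_br_nil, hz]
  · show br Q' k (φ ab.1.1 * φ ab.2.1) [] = 0
    rw [P3b_br_nil, mul_nil, hz, zero_mul]
  · rcases e with ⟨e, he⟩
    by_cases h : Q.t e = k
    · have h1 := hat_revIn φ Xm Ym ⟨e, h⟩
      have h2 : hat φ Xm Ym (Sum.inr (Sum.inr ⟨e, he⟩)) = hat φ Xm Ym (Q.revIn ⟨e, h⟩) := rfl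
      rw [h2, h1, finsetSum_apply]
      exact sum_eq_zero fun a' _ => by rw [mul_nil, P3b_X_nil, zero_mul]
    · have h1 := hat_revOut hk φ Xm Ym ⟨e, he.resolve_right h⟩
      have h2 : hat φ Xm Ym (Sum.inr (Sum.inr ⟨e, he⟩)) = hat φ Xm Ym (Q.revOut ⟨e, he.resolve_right h⟩) := rfl
      rw [h2, h1, finsetSum_apply]
      exact sum_eq_zero fun a' _ => by rw [mul_nil, P3b_X_nil, mul_zero]

/-- a series supported on paths which start at `i ≠ k` has no word starting at `k` -/
theorem P3b_noStart {i j : V} (hi : i ≠ k) {f : NC Q.A R} (hf : Sup Q i j f) : NoStart Q k f := by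
  intro a w ha
  by_contra h
  exact hi ((hf _ h).1.symm.trans ha)

theorem P3b_wordSub (hk : NoLoop Q k) {φ : Q.A → NC Q'.A R} (hφ : Iso Q Q' φ)
    (Xm : Matrix (Q'.In k) (Q.In k) (NC (Q'.pre k).A R))
    (Ym : Matrix (Q.Out k) (Q'.Out k) (NC (Q'.pre k).A R)) {j : V} :
    ∀ (w : List (Q.pre k).A) (l : List Q.A) (i : V), Q.expand k w = some l → i ≠ k → Q.IsPath i l j →
      wordSub (hat φ Xm Ym) w = br Q' k (wordSub φ l) := by
  intro w
  induction w with
  | nil =>
    intro l i h _ _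
    rw [expand_nil] at h
    obtain rfl := Option.some.inj h
    exact (br_one Q' k).symm
  | cons x w ih =>
    intro l i h hi hp
    rcases x with c | ab | e
    · have h' : (Q.expand k w).map (fun l => c.1 :: l) = some l := h
      obtain ⟨l', hl', rfl⟩ := Option.map_eq_some_iff.1 h'
      have hp' : Q.IsPath (Q.t c.1) l' j := hp.2
      have e1 := ih l' (Q.t c.1) hl' c.2.2 hp'
      show br Q' k (φ c.1) * wordSub (hat φ Xm Ym) w = br Q' k (φ c.1 * wordSub φ l')
      rw [e1, br_mul Q' k _ (P3b_noStart c.2.2 (Sup_wordSub hφ.ps hp'))]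
    · have h' : (Q.expand k w).map (fun l => ab.1.1 :: ab.2.1 :: l) = some l := h
      obtain ⟨l', hl', rfl⟩ := Option.map_eq_some_iff.1 h'
      have hp' : Q.IsPath (Q.t ab.2.1) l' j := hp.2.2
      have hb : Q.t ab.2.1 ≠ k := fun h => hk ab.2.1 ⟨ab.2.2, h⟩
      have e1 := ih l' (Q.t ab.2.1) hl' hb hp'
      show br Q' k (φ ab.1.1 * φ ab.2.1) * wordSub (hat φ Xm Ym) w = br Q' k (φ ab.1.1 * (φ ab.2.1 * wordSub φ l'))
      rw [e1, ← mul_assoc, br_mul Q' k _ (P3b_noStart hb (Sup_wordSub hφ.ps hp'))]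
    · exact absurd h (by show ¬ (none : Option (List Q.A)) = some l; exact fun h => nomatch h)

theorem P3b_br_none {f : NC Q.A R} {w : List (Q.pre k).A} (h : Q.expand k w = none) : br Q k f w = 0 := by
  unfold br
  rw [h]

theorem subst_hat_br (hk : NoLoop Q k) (hk' : NoLoop Q' k) {φ : Q.A → NC Q'.A R} (hφ : Iso Q Q' φ)
    (Xm : Matrix (Q'.In k) (Q.In k) (NC (Q'.pre k).A R))
    (Ym : Matrix (Q.Out k) (Q'.Out k) (NC (Q'.pre k).A R)) {f : NC Q.A R}
    (hf : ∀ w, f w ≠ 0 → ∃ i j, i ≠ k ∧ j ≠ k ∧ Q.IsPath i w j) :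
    subst (hat φ Xm Ym) (br Q k f) = br Q' k (subst φ f) := by
  have hz := hat_z0 hk hφ Xm Ym
  have key : ∀ u, br Q k f u ≠ 0 → ∃ l, Q.expand k u = some l ∧ br Q k f u = f l ∧
      wordSub (hat φ Xm Ym) u = br Q' k (wordSub φ l) := by
    intro u hu
    cases hl : Q.expand k u with
    | none => exact absurd (P3b_br_none hl) hu
    | some l =>
      have e := br_of_some Q k f hl
      rw [e] at hu
      obtain ⟨i, j, hi, _, hp⟩ := hf l hu
      exact ⟨l, rfl, e, P3b_wordSub hk hφ Xm Ym u l i hl hi hp⟩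
  ext w'
  cases hw : Q'.expand k w' with
  | none =>
    rw [P3b_br_none hw, subst_apply hz (br Q k f) w' le_rfl]
    refine sum_eq_zero fun u _ => ?_
    by_cases hu : br Q k f u = 0
    · rw [hu, zero_mul]
    · obtain ⟨l, _, _, h3⟩ := key u hu
      rw [h3, P3b_br_none hw, mul_zero]
  | some l' =>
    rw [br_of_some Q' k _ hw]
    have hlen := length_expand Q' k hw
    rw [subst_apply hz (br Q k f) w' hlen.1, subst_apply hφ.z0 f l' (show l'.length ≤ 2 * l'.length by omega)]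
    refine sum_bij_ne_zero (fun u _ _ => (Q.expand k u).getD []) ?_ ?_ ?_ ?_
    · intro u hu h
      obtain ⟨l, h1, _, _⟩ := key u fun h0 => h (by rw [h0, zero_mul])
      rw [h1, Option.getD_some]
      have := length_expand Q k h1
      have := mem_wds.1 hu
      exact mem_wds.2 (by omega)
    · intro u _ h v _ h' e
      obtain ⟨l, h1, _, _⟩ := key u fun h0 => h (by rw [h0, zero_mul])
      obtain ⟨m, h2, _, _⟩ := key v fun h0 => h' (by rw [h0, zero_mul])
      rw [h1, h2, Option.getD_some, Option.getD_some] at e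
      subst e
      exact expand_inj Q k h1 h2
    · intro l _ h
      have h0 : f l ≠ 0 := fun h0 => h (by rw [h0, zero_mul])
      have h0' : wordSub φ l l' ≠ 0 := fun h0 => h (by rw [h0, mul_zero])
      obtain ⟨i, j, hi, hj, hp⟩ := hf l h0
      obtain ⟨u, hu⟩ := exists_contract Q k hk hi hj hp
      have hlu := length_expand Q k hu
      have hll : l.length ≤ l'.length := by
        by_contra hc
        exact h0' (wordSub_short hφ.z0 (not_le.1 hc))
      refine ⟨u, mem_wds.2 (by omega), ?_, ?_⟩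
      · rw [br_of_some Q k f hu, P3b_wordSub hk hφ Xm Ym u l i hu hi hp, br_of_some Q' k _ hw]
        exact h
      · rw [hu, Option.getD_some]
    · intro u _ h
      obtain ⟨l, h1, h2, h3⟩ := key u fun h0 => h (by rw [h0, zero_mul])
      rw [h1, Option.getD_some, h2, h3, br_of_some Q' k _ hw]

end Cea.N
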