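import Pool.Agent.Lib.MP_cea156_al.N.P3b
import Pool.Agent.Lib.MP_cea156_al.N.A6

/-! P4: the image of `Δ` is cyclically equivalent to `Δ'`:
`∑_{a,b} (∑ U a a' [a'b'] V b' b) (∑ Y b b'' b''*) (∑ a''* X a'' a)`, `V Y = 1`, and cyclically `X U = 1`. -/

set_option autoImplicit false

namespace Cea.N

open Finset

variable {V R : Type} [DecidableEq V] [CommRing R] {Q Q' : Quiv V} {k : V}

/-- the algebra: in any ring -/
theorem P4_alg1 {S I I' O O' : Type} [Ring S] [Fintype I] [Fintype I'] [Fintype O] [Fintype O'] [DecidableEq O']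
    (U : Matrix I I' S) (W : Matrix O' O S) (Xm : Matrix I' I S) (Ym : Matrix O O' S) (hY : W * Ym = 1)
    (c : I' → O' → S) (x : I' → S) (y : O' → S) :
    ∑ a : I, ∑ b : O, (∑ a' : I', ∑ b' : O', U a a' * c a' b' * W b' b) * (∑ b' : O', Ym b b' * y b') *
      (∑ a' : I', x a' * Xm a' a) =
    ∑ a : I, ∑ a' : I', U a a' * ((∑ b' : O', c a' b' * y b') * (∑ a'' : I', x a'' * Xm a'' a)) := by
  have key : ∀ a : I, ∑ b : O, (∑ a' : I', ∑ b' : O', U a a' * c a' b' * W b' b) * (∑ b' : O', Ym b b' * y b') =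
      ∑ a' : I', ∑ b' : O', U a a' * c a' b' * y b' := by
    intro a
    have e1 : ∀ b : O, (∑ a' : I', ∑ b' : O', U a a' * c a' b' * W b' b) * (∑ b' : O', Ym b b' * y b') =
        ∑ a' : I', ∑ b' : O', ∑ b'' : O', U a a' * c a' b' * (W b' b * Ym b b'') * y b'' := by
      intro b
      rw [Finset.sum_mul]
      refine Finset.sum_congr rfl fun a' _ => ?_
      rw [Finset.sum_mul]
      refine Finset.sum_congr rfl fun b' _ => ?_
      rw [Finset.mul_sum]
      refine Finset.sum_congr rfl fun b'' _ => ?_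
      simp only [mul_assoc]
    simp only [e1]
    rw [Finset.sum_comm]
    refine Finset.sum_congr rfl fun a' _ => ?_
    rw [Finset.sum_comm]
    refine Finset.sum_congr rfl fun b' _ => ?_
    rw [Finset.sum_comm]
    have e2 : ∀ b'' : O', ∑ b : O, U a a' * c a' b' * (W b' b * Ym b b'') * y b'' =
        if b' = b'' then U a a' * c a' b' * y b'' else 0 := by
      intro b''
      rw [← Finset.sum_mul, ← Finset.mul_sum]
      have := congrFun (congrFun hY b') b''
      rw [Matrix.mul_apply, Matrix.one_apply] at this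
      rw [this]
      split_ifs with h
      · rw [mul_one]
      · rw [mul_zero, zero_mul]
    simp only [e2]
    rw [Finset.sum_ite_eq]
    simp
  refine Finset.sum_congr rfl fun a _ => ?_
  rw [← Finset.sum_mul, key a, Finset.sum_mul]
  refine Finset.sum_congr rfl fun a' _ => ?_
  have e3 : ∑ b' : O', U a a' * c a' b' * y b' = U a a' * ∑ b' : O', c a' b' * y b' := by
    rw [Finset.mul_sum]
    exact Finset.sum_congr rfl fun b' _ => mul_assoc _ _ _
  rw [e3, mul_assoc]

theorem P4_alg2 {S I I' O' : Type} [Ring S] [Fintype I] [Fintype I'] [Fintype O'] [DecidableEq I']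
    (U : Matrix I I' S) (Xm : Matrix I' I S) (hX : Xm * U = 1)
    (c : I' → O' → S) (x : I' → S) (y : O' → S) :
    ∑ a : I, ∑ a' : I', ((∑ b' : O', c a' b' * y b') * (∑ a'' : I', x a'' * Xm a'' a)) * U a a' =
    ∑ a' : I', ∑ b' : O', c a' b' * y b' * x a' := by
  rw [Finset.sum_comm]
  refine Finset.sum_congr rfl fun a' _ => ?_
  have e : ∀ a : I, ((∑ b' : O', c a' b' * y b') * (∑ a'' : I', x a'' * Xm a'' a)) * U a a' =
      (∑ b' : O', c a' b' * y b') * ∑ a'' : I', x a'' * (Xm a'' a * U a a') := by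
    intro a
    have e3 : (∑ a'' : I', x a'' * Xm a'' a) * U a a' = ∑ a'' : I', x a'' * (Xm a'' a * U a a') := by
      rw [Finset.sum_mul]
      exact Finset.sum_congr rfl fun a'' _ => mul_assoc _ _ _
    rw [mul_assoc, e3]
  simp only [e]
  rw [← Finset.mul_sum, Finset.sum_comm]
  have e2 : ∀ a'' : I', ∑ a : I, x a'' * (Xm a'' a * U a a') = if a'' = a' then x a'' else 0 := by
    intro a''
    rw [← Finset.mul_sum]
    have := congrFun (congrFun hX a'') a'
    rw [Matrix.mul_apply, Matrix.one_apply] at this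
    rw [this]
    split_ifs with h
    · rw [mul_one]
    · rw [mul_zero]
  simp only [e2]
  rw [Finset.sum_ite_eq']
  simp [Finset.sum_mul]

theorem cyc_hat_dlt (hk : NoLoop Q k) (hk' : NoLoop Q' k) {φ : Q.A → NC Q'.A R} (hφ : Iso Q Q' φ)
    {Xm : Matrix (Q'.In k) (Q.In k) (NC (Q'.pre k).A R)} {Ym : Matrix (Q.Out k) (Q'.Out k) (NC (Q'.pre k).A R)}
    (hX : Xm * Umat k φ = 1) (hY : Vmat k φ * Ym = 1) :
    cyc (subst (hat φ Xm Ym) (dlt Q k)) = cyc (dlt Q' k) := by
  have hz : Z0 (hat φ Xm Ym) := hat_z0 hk hφ Xm Ym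
  have e1 : subst (hat φ Xm Ym) (dlt Q k) =
      ∑ a : Q.In k, ∑ b : Q.Out k, (∑ a' : Q'.In k, ∑ b' : Q'.Out k,
        Umat k φ a a' * (X (Q'.cmp a' b') : NC (Q'.pre k).A R) * Vmat k φ b' b) *
        (∑ b' : Q'.Out k, Ym b b' * (X (Q'.revOut b') : NC (Q'.pre k).A R)) *
        (∑ a' : Q'.In k, (X (Q'.revIn a') : NC (Q'.pre k).A R) * Xm a' a) := by
    rw [dlt_eq_sum, subst_sum]
    refine Finset.sum_congr rfl fun a _ => ?_
    rw [subst_sum]
    refine Finset.sum_congr rfl fun b _ => ?_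
    rw [subst_mul hz, subst_mul hz, subst_X hz, subst_X hz, subst_X hz, hat_cmp hk hk' hφ, hat_revOut hk, hat_revIn]
  rw [e1, P4_alg1 (Umat k φ) (Vmat k φ) Xm Ym hY (fun a' b' => (X (Q'.cmp a' b') : NC (Q'.pre k).A R))
    (fun a' => (X (Q'.revIn a') : NC (Q'.pre k).A R)) (fun b' => (X (Q'.revOut b') : NC (Q'.pre k).A R))]
  rw [dlt_eq_sum Q' k, ← P4_alg2 (Umat k φ) Xm hX (fun a' b' => (X (Q'.cmp a' b') : NC (Q'.pre k).A R))
    (fun a' => (X (Q'.revIn a') : NC (Q'.pre k).A R)) (fun b' => (X (Q'.revOut b') : NC (Q'.pre k).A R))]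
  rw [cyc_sum, cyc_sum]
  refine Finset.sum_congr rfl fun a _ => ?_
  rw [cyc_sum, cyc_sum]
  refine Finset.sum_congr rfl fun a' _ => ?_
  rw [cyc_mul_comm]

end Cea.N
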