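import Pool.Agent.Lib.MP_cea156_al.N.P3b

/-! P5: `hat φ Xm Ym` is an isomorphism. Supports: `Sup_br`, `Sup_mul`. The linear part is block triangular: old arrows go to old arrows (block of `lin φ`)
and composites; composites `(a, b)` only to composites `(a', b')`, coefficient `lin φ a a' * lin φ b b'`; `e*` only to `e'*`, coefficient
`lin ψ e' e`. The inverse: old block `lin ψ`, composites `lin ψ a' a * lin ψ b' b`, `e'* → e*` with `lin φ e e'`, and the block old → composites
`-(old⁻¹ * M * composites⁻¹)` (`lin_block_*`). -/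

set_option autoImplicit false

namespace Cea.N

open Finset

/-- inverse of a block triangular matrix with two blocks -/
theorem P5_blk {R O X O' X' : Type} [CommRing R] [Fintype O] [DecidableEq O] [Fintype X] [DecidableEq X]
    [Fintype O'] [DecidableEq O'] [Fintype X'] [DecidableEq X'] (L : Matrix (O ⊕ X) (O' ⊕ X') R)
    (NO : Matrix O' O R) (NX : Matrix X' X R)
    (hO : (Matrix.of fun i j => L (Sum.inl i) (Sum.inl j)) * NO = 1)
    (hO' : NO * (Matrix.of fun i j => L (Sum.inl i) (Sum.inl j)) = 1)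
    (hX : (Matrix.of fun i j => L (Sum.inr i) (Sum.inr j)) * NX = 1)
    (hX' : NX * (Matrix.of fun i j => L (Sum.inr i) (Sum.inr j)) = 1)
    (h : ∀ i j, L (Sum.inr i) (Sum.inl j) = 0) :
    ∃ N : Matrix (O' ⊕ X') (O ⊕ X) R, L * N = 1 ∧ N * L = 1 := by
  obtain ⟨P, hP⟩ : ∃ P : Matrix O O' R, P = Matrix.of fun i j => L (Sum.inl i) (Sum.inl j) := ⟨_, rfl⟩
  obtain ⟨M, hM⟩ : ∃ M : Matrix O X' R, M = Matrix.of fun i j => L (Sum.inl i) (Sum.inr j) := ⟨_, rfl⟩
  obtain ⟨S, hS⟩ : ∃ S : Matrix X X' R, S = Matrix.of fun i j => L (Sum.inr i) (Sum.inr j) := ⟨_, rfl⟩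
  have hL : L = Matrix.fromBlocks P M 0 S := by
    ext i j
    rcases i with i | i <;> rcases j with j | j
    · rw [hP]; rfl
    · rw [hM]; rfl
    · rw [h]; rfl
    · rw [hS]; rfl
  rw [← hP] at hO hO'
  rw [← hS] at hX hX'
  refine ⟨Matrix.fromBlocks NO (-(NO * M * NX)) 0 NX, ?_, ?_⟩
  · rw [hL, Matrix.fromBlocks_multiply, ← Matrix.fromBlocks_one]
    congr 1
    · rw [Matrix.mul_zero, add_zero, hO]
    · rw [Matrix.mul_neg, ← Matrix.mul_assoc, ← Matrix.mul_assoc, hO, Matrix.one_mul, neg_add_cancel]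
    · rw [Matrix.zero_mul, Matrix.mul_zero, add_zero]
    · rw [Matrix.zero_mul, zero_add, hX]
  · rw [hL, Matrix.fromBlocks_multiply, ← Matrix.fromBlocks_one]
    congr 1
    · rw [Matrix.mul_zero, add_zero, hO']
    · rw [Matrix.neg_mul, Matrix.mul_assoc (NO * M), hX', Matrix.mul_one, add_neg_cancel]
    · rw [Matrix.zero_mul, Matrix.mul_zero, add_zero]
    · rw [Matrix.zero_mul, zero_add, hX']

/-- inverse of a block triangular matrix -/
theorem blk_inv {R O C T O' C' T' : Type} [CommRing R] [Fintype O] [DecidableEq O] [Fintype C] [DecidableEq C] [Fintype T]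
    [DecidableEq T] [Fintype O'] [DecidableEq O'] [Fintype C'] [DecidableEq C'] [Fintype T'] [DecidableEq T']
    (L : Matrix (O ⊕ C ⊕ T) (O' ⊕ C' ⊕ T') R) (NO : Matrix O' O R) (NC' : Matrix C' C R) (NT : Matrix T' T R)
    (hO : (Matrix.of fun i j => L (Sum.inl i) (Sum.inl j)) * NO = 1)
    (hO' : NO * (Matrix.of fun i j => L (Sum.inl i) (Sum.inl j)) = 1)
    (hC : (Matrix.of fun i j => L (Sum.inr (Sum.inl i)) (Sum.inr (Sum.inl j))) * NC' = 1)
    (hC' : NC' * (Matrix.of fun i j => L (Sum.inr (Sum.inl i)) (Sum.inr (Sum.inl j))) = 1)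
    (hT : (Matrix.of fun i j => L (Sum.inr (Sum.inr i)) (Sum.inr (Sum.inr j))) * NT = 1)
    (hT' : NT * (Matrix.of fun i j => L (Sum.inr (Sum.inr i)) (Sum.inr (Sum.inr j))) = 1)
    (h1 : ∀ i j, L (Sum.inr (Sum.inl i)) (Sum.inl j) = 0) (h2 : ∀ i j, L (Sum.inr (Sum.inr i)) (Sum.inl j) = 0)
    (h3 : ∀ i j, L (Sum.inl i) (Sum.inr (Sum.inr j)) = 0)
    (h4 : ∀ i j, L (Sum.inr (Sum.inl i)) (Sum.inr (Sum.inr j)) = 0)
    (h5 : ∀ i j, L (Sum.inr (Sum.inr i)) (Sum.inr (Sum.inl j)) = 0) :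
    ∃ N : Matrix (O' ⊕ C' ⊕ T') (O ⊕ C ⊕ T) R, L * N = 1 ∧ N * L = 1 := by
  obtain ⟨NX, hX, hX'⟩ := P5_blk (Matrix.of fun i j => L (Sum.inr i) (Sum.inr j)) NC' NT hC hC' hT hT'
    (fun i j => h5 i j)
  exact P5_blk L NO NX hO hO' hX hX' (fun i j => by
    rcases i with i | i
    · exact h1 i j
    · exact h2 i j)

variable {V R : Type} [DecidableEq V] [CommRing R] {Q Q' : Quiv V} {k : V}

/-- restriction of inverse matrices to blocks -/
theorem P5_block {A A' : Type} [Fintype A] [DecidableEq A] [Fintype A'] [DecidableEq A'] (p : A → Prop)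
    (p' : A' → Prop) [DecidablePred p] [DecidablePred p'] (L : Matrix A A' R) (N : Matrix A' A R)
    (hp : ∀ a a', p a → L a a' ≠ 0 → p' a') (h : L * N = 1) :
    (Matrix.of fun (a : {a // p a}) (a' : {a' // p' a'}) => L a.1 a'.1) *
      (Matrix.of fun (a' : {a' // p' a'}) (a : {a // p a}) => N a'.1 a.1) = 1 := by
  ext a b
  rw [Matrix.mul_apply]
  have e : ∑ j : {a' // p' a'}, L a.1 j.1 * N j.1 b.1 = ∑ j, L a.1 j * N j b.1 := by
    rw [← Finset.sum_subtype (Finset.univ.filter p') (p := p') (fun x => by simp)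
      (fun j => L a.1 j * N j b.1)]
    refine Finset.sum_subset (Finset.subset_univ _) fun j _ hj => ?_
    have h1 : ¬ p' j := fun h' => hj (Finset.mem_filter.2 ⟨Finset.mem_univ _, h'⟩)
    by_contra h2
    exact h1 (hp a.1 j a.2 fun h3 => h2 (by rw [h3, zero_mul]))
  show ∑ j : {a' // p' a'}, L a.1 j.1 * N j.1 b.1 = _
  rw [e, ← Matrix.mul_apply, h, Matrix.one_apply, Matrix.one_apply]
  by_cases hab : a = b
  · rw [if_pos hab, if_pos (congrArg Subtype.val hab)]
  · rw [if_neg hab, if_neg (fun h' => hab (Subtype.ext h'))]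

/-- products of inverse matrices on pairs -/
theorem P5_kron {I I' J J' : Type} [Fintype I] [DecidableEq I] [Fintype I'] [DecidableEq I'] [Fintype J] [DecidableEq J]
    [Fintype J'] [DecidableEq J'] (A1 : Matrix I I' R) (B1 : Matrix J J' R) (A2 : Matrix I' I R) (B2 : Matrix J' J R)
    (hA : A1 * A2 = 1) (hB : B1 * B2 = 1) :
    (Matrix.of fun (ab : I × J) (ab' : I' × J') => A1 ab.1 ab'.1 * B1 ab.2 ab'.2) *
      (Matrix.of fun (ab' : I' × J') (ab : I × J) => A2 ab'.1 ab.1 * B2 ab'.2 ab.2) = 1 := by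
  have h := Matrix.mul_kronecker_mul A1 A2 B1 B2
  rw [hA, hB, Matrix.one_kronecker_one] at h
  exact h.symm

theorem hat_iso (hk : NoLoop Q k) (hk' : NoLoop Q' k) {φ : Q.A → NC Q'.A R} {ψ : Q'.A → NC Q.A R} (hφ : Iso Q Q' φ)
    (hψ : Iso Q' Q ψ) (h1 : lin φ * lin ψ = 1) (h2 : lin ψ * lin φ = 1)
    {Xm : Matrix (Q'.In k) (Q.In k) (NC (Q'.pre k).A R)} {Ym : Matrix (Q.Out k) (Q'.Out k) (NC (Q'.pre k).A R)}
    (hX : ∀ a' a, Sup (Q'.pre k) (Q'.s a'.1) (Q.s a.1) (Xm a' a)) (hX0 : ∀ a' a, Xm a' a [] = lin ψ a'.1 a.1)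
    (hY : ∀ b b', Sup (Q'.pre k) (Q.t b.1) (Q'.t b'.1) (Ym b b')) (hY0 : ∀ b b', Ym b b' [] = lin ψ b'.1 b.1) :
    Iso (Q.pre k) (Q'.pre k) (hat φ Xm Ym) := by
  have hz := hφ.z0
  have hzh := hat_z0 hk hφ Xm Ym
  refine ⟨?_, ?_⟩
  · intro x w hw
    have hne : w ≠ [] := by
      rintro rfl
      exact hw (hzh x)
    refine ⟨hne, ?_⟩
    have hS : Sup (Q'.pre k) ((Q.pre k).s x) ((Q.pre k).t x) (hat φ Xm Ym x) := by
      rcases x with c | ab | e
      · exact Sup_br Q' k (hφ.ps c.1)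
      · have h1 := hφ.ps ab.1.1
        have h2 := hφ.ps ab.2.1
        rw [ab.1.2] at h1
        rw [ab.2.2] at h2
        exact Sup_br Q' k (Sup_mul h1 h2)
      · by_cases h : Q.t e.1 = k
        · have e1 : hat φ Xm Ym (Sum.inr (Sum.inr e)) =
              ∑ a' : Q'.In k, (X (Q'.revIn a') : NC (Q'.pre k).A R) * Xm a' ⟨e.1, h⟩ := dif_pos h
          rw [e1]
          refine Sup_sum _ fun a' _ => ?_
          have h3 := Sup_X (R := R) (Q'.pre k) (Q'.revIn a')
          have h4 : (Q'.pre k).s (Q'.revIn a') = k := a'.2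
          rw [h4] at h3
          have h5 : (Q.pre k).s (Sum.inr (Sum.inr e)) = k := h
          rw [h5]
          exact Sup_mul h3 (hX a' ⟨e.1, h⟩)
        · have e1 : hat φ Xm Ym (Sum.inr (Sum.inr e)) =
              ∑ b' : Q'.Out k, Ym ⟨e.1, e.2.resolve_right h⟩ b' *
                (X (Q'.revOut b') : NC (Q'.pre k).A R) := dif_neg h
          rw [e1]
          refine Sup_sum _ fun b' _ => ?_
          have h3 := Sup_X (R := R) (Q'.pre k) (Q'.revOut b')
          have h4 : (Q'.pre k).t (Q'.revOut b') = k := b'.2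
          rw [h4] at h3
          have h5 : (Q.pre k).t (Sum.inr (Sum.inr e)) = k := e.2.resolve_right h
          rw [h5]
          exact Sup_mul (hY ⟨e.1, e.2.resolve_right h⟩ b') h3
    exact hS w hw
  · -- products of two series on words with one letter
    have hone : ∀ {A : Type} (f g : NC A R) (x : A), (f * g) [x] = f [] * g [x] + f [x] * g [] := by
      intro A f g x
      rw [mul_cons, mul_nil]
      rfl
    have hends : ∀ (a : Q.A) (a' : Q'.A), lin φ a a' ≠ 0 → Q'.s a' = Q.s a ∧ Q'.t a' = Q.t a := by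
      intro a a' h
      have h3 := (hφ.1 a [a'] h).2
      exact ⟨h3.1, h3.2⟩
    have hends' : ∀ (a' : Q'.A) (a : Q.A), lin ψ a' a ≠ 0 → Q.s a = Q'.s a' ∧ Q.t a = Q'.t a' := by
      intro a' a h
      have h3 := (hψ.1 a' [a] h).2
      exact ⟨h3.1, h3.2⟩
    have hXx : ∀ (x y : (Q'.pre k).A), (X x : NC (Q'.pre k).A R) [y] = if y = x then 1 else 0 := by
      intro x y
      show (if [y] = [x] then (1 : R) else 0) = _
      by_cases h : y = x
      · rw [if_pos h, if_pos (by rw [h])]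
      · rw [if_neg h, if_neg (fun h' => h (List.singleton_injective h'))]
    have hX0' : ∀ (x : (Q'.pre k).A), (X x : NC (Q'.pre k).A R) [] = 0 := by
      intro x
      show (if ([] : List (Q'.pre k).A) = [x] then (1 : R) else 0) = 0
      exact if_neg (fun h => List.cons_ne_nil _ _ h.symm)
    -- the images of the reversed arrows on words with one letter
    have hrevIn : ∀ (e : Q.Tch k) (h : Q.t e.1 = k) (y : (Q'.pre k).A),
        hat φ Xm Ym (Sum.inr (Sum.inr e)) [y] =
          ∑ a' : Q'.In k, if y = Q'.revIn a' then lin ψ a'.1 e.1 else 0 := by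
      intro e h y
      have e1 : hat φ Xm Ym (Sum.inr (Sum.inr e)) =
          ∑ a' : Q'.In k, (X (Q'.revIn a') : NC (Q'.pre k).A R) * Xm a' ⟨e.1, h⟩ := dif_pos h
      rw [e1, finsetSum_apply]
      refine Finset.sum_congr rfl fun a' _ => ?_
      rw [hone, hX0', zero_mul, zero_add, hXx, hX0]
      split_ifs
      · rw [one_mul]
      · rw [zero_mul]
    have hrevOut : ∀ (e : Q.Tch k) (h : Q.t e.1 ≠ k) (y : (Q'.pre k).A),
        hat φ Xm Ym (Sum.inr (Sum.inr e)) [y] =
          ∑ b' : Q'.Out k, if y = Q'.revOut b' then lin ψ b'.1 e.1 else 0 := by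
      intro e h y
      have e1 : hat φ Xm Ym (Sum.inr (Sum.inr e)) =
          ∑ b' : Q'.Out k, Ym ⟨e.1, e.2.resolve_right h⟩ b' *
            (X (Q'.revOut b') : NC (Q'.pre k).A R) := dif_neg h
      rw [e1, finsetSum_apply]
      refine Finset.sum_congr rfl fun b' _ => ?_
      rw [hone, hX0', mul_zero, add_zero, hXx, hY0]
      split_ifs
      · rw [mul_one]
      · rw [mul_zero]
    have hrev : ∀ (e : Q.Tch k) (e' : Q'.Tch k),
        hat φ Xm Ym (Sum.inr (Sum.inr e)) [Sum.inr (Sum.inr e')] = lin ψ e'.1 e.1 := by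
      intro e e'
      by_cases h : Q.t e.1 = k
      · rw [hrevIn e h]
        by_cases h' : Q'.t e'.1 = k
        · rw [Finset.sum_eq_single (⟨e'.1, h'⟩ : Q'.In k)]
          · exact if_pos rfl
          · intro b _ hb
            refine if_neg fun h3 => hb ?_
            have h4 : e' = ⟨b.1, Or.inr b.2⟩ := Sum.inr_injective (Sum.inr_injective h3)
            exact Subtype.ext (congrArg Subtype.val h4).symm
          · intro h3
            exact absurd (Finset.mem_univ _) h3
        · rw [Finset.sum_eq_zero]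
          · by_contra h3
            have h4 := (hends' e'.1 e.1 (Ne.symm h3)).2
            exact h' (h4 ▸ h)
          · intro b _
            refine if_neg fun h3 => h' ?_
            have h4 : e' = ⟨b.1, Or.inr b.2⟩ := Sum.inr_injective (Sum.inr_injective h3)
            rw [h4]
            exact b.2
      · rw [hrevOut e h]
        by_cases h' : Q'.s e'.1 = k
        · rw [Finset.sum_eq_single (⟨e'.1, h'⟩ : Q'.Out k)]
          · exact if_pos rfl
          · intro b _ hb
            refine if_neg fun h3 => hb ?_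
            have h4 : e' = ⟨b.1, Or.inl b.2⟩ := Sum.inr_injective (Sum.inr_injective h3)
            exact Subtype.ext (congrArg Subtype.val h4).symm
          · intro h3
            exact absurd (Finset.mem_univ _) h3
        · rw [Finset.sum_eq_zero]
          · by_contra h3
            have h4 := (hends' e'.1 e.1 (Ne.symm h3)).1
            exact h' (h4 ▸ e.2.resolve_right h)
          · intro b _
            refine if_neg fun h3 => h' ?_
            have h4 : e' = ⟨b.1, Or.inl b.2⟩ := Sum.inr_injective (Sum.inr_injective h3)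
            rw [h4]
            exact b.2
    have hrev0 : ∀ (e : Q.Tch k) (y : (Q'.pre k).A), (∀ e' : Q'.Tch k, y ≠ Sum.inr (Sum.inr e')) →
        hat φ Xm Ym (Sum.inr (Sum.inr e)) [y] = 0 := by
      intro e y hy
      by_cases h : Q.t e.1 = k
      · rw [hrevIn e h]
        exact Finset.sum_eq_zero fun b _ => if_neg (hy _)
      · rw [hrevOut e h]
        exact Finset.sum_eq_zero fun b _ => if_neg (hy _)
    have hcmp : ∀ (ab : Q.In k × Q.Out k) (f : List (Q'.pre k).A) (l : List Q'.A),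
        Q'.expand k f = some l → hat φ Xm Ym (Sum.inr (Sum.inl ab)) f = (φ ab.1.1 * φ ab.2.1) l :=
      fun ab f l h => br_of_some Q' k _ h
    -- the blocks
    obtain ⟨L, hL⟩ : ∃ L : Matrix (Q.Old k ⊕ (Q.In k × Q.Out k) ⊕ Q.Tch k)
        (Q'.Old k ⊕ (Q'.In k × Q'.Out k) ⊕ Q'.Tch k) R, L = lin (hat φ Xm Ym) := ⟨_, rfl⟩
    have hOO : ∀ (i : Q.Old k) (j : Q'.Old k), L (Sum.inl i) (Sum.inl j) = lin φ i.1 j.1 := by
      intro i j
      rw [hL]
      have he : Q'.expand k [Sum.inl j] = some [j.1] := rfl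
      exact br_of_some Q' k (φ i.1) he
    have hCO : ∀ (i : Q.In k × Q.Out k) (j : Q'.Old k), L (Sum.inr (Sum.inl i)) (Sum.inl j) = 0 := by
      intro i j
      rw [hL]
      have e1 := hcmp i [Sum.inl j] [j.1] rfl
      show hat φ Xm Ym (Sum.inr (Sum.inl i)) [Sum.inl j] = 0
      rw [e1, hone, hz i.1.1, hz i.2.1, zero_mul, mul_zero, add_zero]
    have hCC : ∀ (i : Q.In k × Q.Out k) (j : Q'.In k × Q'.Out k),
        L (Sum.inr (Sum.inl i)) (Sum.inr (Sum.inl j)) = lin φ i.1.1 j.1.1 * lin φ i.2.1 j.2.1 := by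
      intro i j
      rw [hL]
      have e1 := hcmp i [Sum.inr (Sum.inl j)] [j.1.1, j.2.1] rfl
      show hat φ Xm Ym (Sum.inr (Sum.inl i)) [Sum.inr (Sum.inl j)] = _
      have e2 : (φ i.1.1 * φ i.2.1) [j.1.1, j.2.1] =
          φ i.1.1 [] * φ i.2.1 [j.1.1, j.2.1] + (φ i.1.1 [j.1.1] * φ i.2.1 [j.2.1] +
            φ i.1.1 [j.1.1, j.2.1] * φ i.2.1 []) := by
        rw [mul_cons, mul_cons, mul_nil]
        rfl
      rw [e1, e2, hz i.1.1, hz i.2.1, zero_mul, mul_zero, zero_add, add_zero]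
      rfl
    have hTT : ∀ (i : Q.Tch k) (j : Q'.Tch k), L (Sum.inr (Sum.inr i)) (Sum.inr (Sum.inr j)) = lin ψ j.1 i.1 := by
      intro i j
      rw [hL]
      exact hrev i j
    have hTO : ∀ (i : Q.Tch k) (j : Q'.Old k), L (Sum.inr (Sum.inr i)) (Sum.inl j) = 0 := by
      intro i j
      rw [hL]
      exact hrev0 i _ fun e' h => by cases h
    have hTC : ∀ (i : Q.Tch k) (j : Q'.In k × Q'.Out k), L (Sum.inr (Sum.inr i)) (Sum.inr (Sum.inl j)) = 0 := by
      intro i j
      rw [hL]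
      exact hrev0 i _ fun e' h => by cases h
    have hOT : ∀ (i : Q.Old k) (j : Q'.Tch k), L (Sum.inl i) (Sum.inr (Sum.inr j)) = 0 := by
      intro i j
      rw [hL]
      rfl
    have hCT : ∀ (i : Q.In k × Q.Out k) (j : Q'.Tch k), L (Sum.inr (Sum.inl i)) (Sum.inr (Sum.inr j)) = 0 := by
      intro i j
      rw [hL]
      rfl
    have bO : (Matrix.of fun i j => L (Sum.inl i) (Sum.inl j)) =
        Matrix.of fun (i : Q.Old k) (j : Q'.Old k) => lin φ i.1 j.1 := by
      ext i j
      exact hOO i j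
    have bC : (Matrix.of fun i j => L (Sum.inr (Sum.inl i)) (Sum.inr (Sum.inl j))) =
        Matrix.of fun (i : Q.In k × Q.Out k) (j : Q'.In k × Q'.Out k) =>
          lin φ i.1.1 j.1.1 * lin φ i.2.1 j.2.1 := by
      ext i j
      exact hCC i j
    have bT : (Matrix.of fun i j => L (Sum.inr (Sum.inr i)) (Sum.inr (Sum.inr j))) =
        Matrix.of fun (i : Q.Tch k) (j : Q'.Tch k) => lin ψ j.1 i.1 := by
      ext i j
      exact hTT i j
    have hI1 := lin_block_in (k := k) hφ hψ h1
    have hI2 := lin_block_in (k := k) hψ hφ h2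
    have hJ1 := lin_block_out (k := k) hφ hψ h1
    have hJ2 := lin_block_out (k := k) hψ hφ h2
    have hfin := blk_inv L
      (Matrix.of fun (a' : Q'.Old k) (a : Q.Old k) => lin ψ a'.1 a.1)
      (Matrix.of fun (ab' : Q'.In k × Q'.Out k) (ab : Q.In k × Q.Out k) =>
        lin ψ ab'.1.1 ab.1.1 * lin ψ ab'.2.1 ab.2.1)
      (Matrix.of fun (e' : Q'.Tch k) (e : Q.Tch k) => lin φ e.1 e'.1)
      (by rw [bO]; exact lin_block_old hφ hψ h1)
      (by rw [bO]; exact lin_block_old hψ hφ h2)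
      (by rw [bC]; exact P5_kron _ _ _ _ hI1 hJ1)
      (by rw [bC]; exact P5_kron _ _ _ _ hI2 hJ2)
      (by
        rw [bT]
        have h3 := P5_block (fun a => Q.s a = k ∨ Q.t a = k) (fun a' => Q'.s a' = k ∨ Q'.t a' = k)
          (lin φ) (lin ψ) (fun a a' ha hne => by
            obtain ⟨h4, h5⟩ := hends a a' hne
            rw [h4, h5]
            exact ha) h1
        have h4 := congrArg Matrix.transpose h3
        rw [Matrix.transpose_mul, Matrix.transpose_one] at h4
        exact h4)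
      (by
        rw [bT]
        have h3 := P5_block (fun a' => Q'.s a' = k ∨ Q'.t a' = k) (fun a => Q.s a = k ∨ Q.t a = k)
          (lin ψ) (lin φ) (fun a a' ha hne => by
            obtain ⟨h4, h5⟩ := hends' a a' hne
            rw [h4, h5]
            exact ha) h2
        have h4 := congrArg Matrix.transpose h3
        rw [Matrix.transpose_mul, Matrix.transpose_one] at h4
        exact h4)
      hCO hTO hOT hCT hTC
    rw [hL] at hfin
    exact hfin

end Cea.N
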