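import Pool.Agent.Lib.MP_cea156_al.N.P4
import Pool.Agent.Lib.MP_cea156_al.N.P5
import Pool.Agent.Lib.MP_cea156_al.N.P2
import Pool.Agent.Lib.MP_cea156_al.N.A7

/-! P6: premutations of right equivalent potentials are right equivalent (Derksen-Weyman-Zelevinsky, Theorem 5.2). `Iso.inv`, `exists_Xm`, `exists_Ym`, `hat_iso`;
`subst hat (br Z₁ + Δ) = br (subst φ Z₁) + subst hat Δ` (`subst_hat_br`); `subst φ Z₁` and `Z₁'` are cyclically equivalent and no cycle of them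
starts at `k`: `cyc_br_congr`; `cyc_hat_dlt`. -/

set_option autoImplicit false

namespace Cea.N

variable {V R : Type} [DecidableEq V] [CommRing R] [Algebra ℚ R]

omit [Algebra ℚ R] in
/-- the cycles of a potential without cycles starting at `k` have ends different from `k` -/
theorem P6_ends {Q : Quiv V} {k : V} {Z : NC Q.A R} (hZ : Pot Q Z) (hn : NoStart Q k Z) {w : List Q.A}
    (h : Z w ≠ 0) : ∃ i, i ≠ k ∧ Q.IsPath i w i := by
  obtain ⟨hw, i, hi⟩ := hZ w h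
  cases w with
  | nil => exact absurd rfl hw
  | cons a u =>
    refine ⟨i, fun hik => h (hn a u ?_), hi⟩
    rw [hi.1, hik]

omit [Algebra ℚ R] in
/-- the image under an isomorphism of a potential without cycles starting at `k` -/
theorem P6_noStart {Q Q' : Quiv V} {k : V} {φ : Q.A → NC Q'.A R} (hφ : Iso Q Q' φ) {Z : NC Q.A R} (hZ : Pot Q Z)
    (hn : NoStart Q k Z) : NoStart Q' k (subst φ Z) := by
  intro a w ha
  rw [subst_apply hφ.z0 Z (a :: w) (le_refl _)]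
  refine Finset.sum_eq_zero fun u _ => ?_
  by_contra hne
  obtain ⟨i, hik, hi⟩ := P6_ends hZ hn (left_ne_zero_of_mul hne)
  have h1 := Sup_wordSub hφ.ps hi _ (right_ne_zero_of_mul hne)
  exact hik (h1.1.symm.trans ha)

theorem RE_pre {Q Q' : Quiv V} {k : V} (hk : NoLoop Q k) (hk' : NoLoop Q' k) {Z Z₁ : NC Q.A R} {Z' Z₁' : NC Q'.A R}
    (h : RE Q Q' Z Z') (hZ : Pot Q Z₁) (hc : cyc Z₁ = cyc Z) (hn : NoStart Q k Z₁) (hZ' : Pot Q' Z₁')
    (hc' : cyc Z₁' = cyc Z') (hn' : NoStart Q' k Z₁') :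
    RE (Q.pre k) (Q'.pre k) (br Q k Z₁ + dlt Q k) (br Q' k Z₁' + dlt Q' k) := by
  obtain ⟨φ, hφ, hφZ⟩ := h
  obtain ⟨ψ, hψ, _, _, h1, h2⟩ := hφ.inv
  obtain ⟨Xm, _, hXU, hXs, hX0⟩ := exists_Xm (k := k) hk' hφ hψ h1 h2
  obtain ⟨Ym, hVY, _, hYs, hY0⟩ := exists_Ym (k := k) hk' hφ hψ h1 h2
  refine ⟨hat φ Xm Ym, hat_iso hk hk' hφ hψ h1 h2 hXs hX0 hYs hY0, ?_⟩
  have hf : ∀ w, Z₁ w ≠ 0 → ∃ i j, i ≠ k ∧ j ≠ k ∧ Q.IsPath i w j := by
    intro w hw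
    obtain ⟨i, hik, hi⟩ := P6_ends hZ hn hw
    exact ⟨i, i, hik, hik, hi⟩
  rw [subst_add, cyc_add, subst_hat_br hk hk' hφ Xm Ym hf, cyc_hat_dlt hk hk' hφ hXU hVY, cyc_add]
  congr 1
  refine cyc_br_congr Q' k (P6_noStart hφ hZ hn) hn' ?_
  rw [cyc_subst_congr hφ.z0 hc, hφZ, hc']

end Cea.N
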