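import Pool.Agent.Lib.MP_cea156_al.N.P7

/-! P8a: the arrows of the double premutation: the arrows of `Q`, an arrow `x = [ab]` and an arrow `y = [b*a*]` for every `a : i → k`, `b : k → j`. -/

set_option autoImplicit false

namespace Cea.N

variable {V : Type} [DecidableEq V] (Q : Quiv V) (k : V)

/-- number of the pairs `(a, b)` -/
abbrev nIO : ℕ := Fintype.card (Q.In k × Q.Out k)

/-- enumeration of the pairs `(a, b)` -/
noncomputable def ioE : Q.In k × Q.Out k ≃ Fin (nIO Q k) := Fintype.equivFin _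

noncomputable def pIO : Fin (nIO Q k) → V := fun i => Q.s ((ioE Q k).symm i).1.1

noncomputable def qIO : Fin (nIO Q k) → V := fun i => Q.t ((ioE Q k).symm i).2.1

/-- `Q` with one pair `x`, `y` for every pair `(a, b)` -/
noncomputable abbrev QIO : Quiv V := Q.plus (pIO Q k) (qIO Q k)

variable {Q k}

/-- the arrow of the double premutation which corresponds to an arrow of `QIO Q k` -/
noncomputable def sig (hk : NoLoop Q k) : (QIO Q k).A → ((Q.pre k).pre k).A
  | Sum.inl c =>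
    if h : Q.s c = k ∨ Q.t c = k then Sum.inr (Sum.inr ⟨Sum.inr (Sum.inr ⟨c, h⟩), h.symm⟩)
    else Sum.inl ⟨Sum.inl ⟨c, not_or.mp h⟩, not_or.mp h⟩
  | Sum.inr (Sum.inl i) => Sum.inl ⟨Sum.inr (Sum.inl ((ioE Q k).symm i)),
      fun h => hk _ ⟨h, ((ioE Q k).symm i).1.2⟩, fun h => hk _ ⟨((ioE Q k).symm i).2.2, h⟩⟩
  | Sum.inr (Sum.inr i) => Sum.inr (Sum.inl (⟨Q.revOut ((ioE Q k).symm i).2, ((ioE Q k).symm i).2.2⟩,
      ⟨Q.revIn ((ioE Q k).symm i).1, ((ioE Q k).symm i).1.2⟩))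

theorem P8a_pos (hk : NoLoop Q k) (c : Q.A) (h : Q.s c = k ∨ Q.t c = k) :
    sig hk (Sum.inl c) = Sum.inr (Sum.inr ⟨Sum.inr (Sum.inr ⟨c, h⟩), h.symm⟩) := by
  show (if h : Q.s c = k ∨ Q.t c = k then _ else _ : ((Q.pre k).pre k).A) = _
  rw [dif_pos h]

theorem P8a_neg (hk : NoLoop Q k) (c : Q.A) (h : ¬(Q.s c = k ∨ Q.t c = k)) :
    sig hk (Sum.inl c) = Sum.inl ⟨Sum.inl ⟨c, not_or.mp h⟩, not_or.mp h⟩ := by
  show (if h : Q.s c = k ∨ Q.t c = k then _ else _ : ((Q.pre k).pre k).A) = _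
  rw [dif_neg h]

theorem P8a_x (hk : NoLoop Q k) (p : Q.In k × Q.Out k) (h1 : (Q.pre k).s (Sum.inr (Sum.inl p)) ≠ k ∧
    (Q.pre k).t (Sum.inr (Sum.inl p)) ≠ k) :
    sig hk (Sum.inr (Sum.inl (ioE Q k p))) = Sum.inl ⟨Sum.inr (Sum.inl p), h1⟩ := by
  have e : (ioE Q k).symm (ioE Q k p) = p := Equiv.symm_apply_apply _ _
  show (Sum.inl ⟨Sum.inr (Sum.inl ((ioE Q k).symm (ioE Q k p))), _⟩ : ((Q.pre k).pre k).A) = _
  congr 1
  apply Subtype.ext
  show (Sum.inr (Sum.inl ((ioE Q k).symm (ioE Q k p))) : (Q.pre k).A) = Sum.inr (Sum.inl p)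
  rw [e]

theorem P8a_y (hk : NoLoop Q k) (a : Q.In k) (b : Q.Out k) (h1 : (Q.pre k).t (Q.revOut b) = k)
    (h2 : (Q.pre k).s (Q.revIn a) = k) :
    sig hk (Sum.inr (Sum.inr (ioE Q k (a, b)))) =
      Sum.inr (Sum.inl (⟨Q.revOut b, h1⟩, ⟨Q.revIn a, h2⟩)) := by
  have e : (ioE Q k).symm (ioE Q k (a, b)) = (a, b) := Equiv.symm_apply_apply _ _
  show (Sum.inr (Sum.inl (⟨Q.revOut ((ioE Q k).symm (ioE Q k (a, b))).2, _⟩,
      ⟨Q.revIn ((ioE Q k).symm (ioE Q k (a, b))).1, _⟩)) : ((Q.pre k).pre k).A) = _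
  congr 2
  refine Prod.ext (Subtype.ext ?_) (Subtype.ext ?_)
  · show Q.revOut ((ioE Q k).symm (ioE Q k (a, b))).2 = Q.revOut b
    rw [e]
  · show Q.revIn ((ioE Q k).symm (ioE Q k (a, b))).1 = Q.revIn a
    rw [e]

theorem P8a_surj (hk : NoLoop Q k) : Function.Surjective (sig hk) := by
  intro z
  rcases z with ⟨a, ha⟩ | (⟨⟨a, ha⟩, ⟨b, hb⟩⟩ | ⟨a, ha⟩)
  · rcases a with c | (p | c)
    · exact ⟨Sum.inl c.1, P8a_neg hk c.1 (not_or.mpr c.2)⟩
    · exact ⟨_, P8a_x hk p ha⟩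
    · exfalso
      have h1 : Q.t c.1 ≠ k := ha.1
      have h2 : Q.s c.1 ≠ k := ha.2
      rcases c.2 with h | h
      · exact h2 h
      · exact h1 h
  · rcases a with c | (p | c)
    · exact absurd ha c.2.2
    · exact absurd (⟨p.2.2, ha⟩ : Q.s p.2.1 = k ∧ Q.t p.2.1 = k) (hk _)
    · have h1 : Q.s c.1 = k := ha
      rcases b with d | (p | d)
      · exact absurd hb d.2.1
      · exact absurd (⟨hb, p.1.2⟩ : Q.s p.1.1 = k ∧ Q.t p.1.1 = k) (hk _)
      · have h2 : Q.t d.1 = k := hb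
        exact ⟨_, P8a_y hk ⟨d.1, h2⟩ ⟨c.1, h1⟩ h1 h2⟩
  · rcases a with c | (p | c)
    · exfalso
      rcases ha with h | h
      · exact c.2.1 h
      · exact c.2.2 h
    · exfalso
      rcases ha with h | h
      · exact hk p.1.1 ⟨h, p.1.2⟩
      · exact hk p.2.1 ⟨p.2.2, h⟩
    · exact ⟨Sum.inl c.1, P8a_pos hk c.1 c.2⟩

theorem P8a_inj (hk : NoLoop Q k) : Function.Injective (sig hk) := by
  have hx : ∀ i : Fin (nIO Q k), ∃ h, sig hk (Sum.inr (Sum.inl i)) =
      Sum.inl ⟨Sum.inr (Sum.inl ((ioE Q k).symm i)), h⟩ := fun i => ⟨_, rfl⟩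
  have hy : ∀ i : Fin (nIO Q k), ∃ h1 h2, sig hk (Sum.inr (Sum.inr i)) =
      Sum.inr (Sum.inl (⟨Q.revOut ((ioE Q k).symm i).2, h1⟩, ⟨Q.revIn ((ioE Q k).symm i).1, h2⟩)) :=
    fun i => ⟨_, _, rfl⟩
  have key : ∀ c : Q.A, ∀ z : (QIO Q k).A, sig hk (Sum.inl c) = sig hk z → Sum.inl c = z := by
    intro c z hz
    rcases z with c' | (i | i)
    · by_cases h : Q.s c = k ∨ Q.t c = k <;> by_cases h' : Q.s c' = k ∨ Q.t c' = k
      · rw [P8a_pos hk c h, P8a_pos hk c' h'] at hz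
        have h1 := congrArg Subtype.val (Sum.inr.inj (Sum.inr.inj hz))
        have h2 := congrArg Subtype.val (Sum.inr.inj (Sum.inr.inj h1))
        exact congrArg Sum.inl h2
      · rw [P8a_pos hk c h, P8a_neg hk c' h'] at hz
        exact absurd hz (fun h => by cases h)
      · rw [P8a_neg hk c h, P8a_pos hk c' h'] at hz
        exact absurd hz (fun h => by cases h)
      · rw [P8a_neg hk c h, P8a_neg hk c' h'] at hz
        have h1 := congrArg Subtype.val (Sum.inl.inj hz)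
        have h2 := congrArg Subtype.val (Sum.inl.inj h1)
        exact congrArg Sum.inl h2
    · obtain ⟨h3, e⟩ := hx i
      rw [e] at hz
      by_cases h : Q.s c = k ∨ Q.t c = k
      · rw [P8a_pos hk c h] at hz
        exact absurd hz (fun h => by cases h)
      · rw [P8a_neg hk c h] at hz
        have h1 := congrArg Subtype.val (Sum.inl.inj hz)
        exact absurd h1 (fun h => by cases h)
    · obtain ⟨h3, h4, e⟩ := hy i
      rw [e] at hz
      by_cases h : Q.s c = k ∨ Q.t c = k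
      · rw [P8a_pos hk c h] at hz
        have h1 := Sum.inr.inj hz
        exact absurd h1 (fun h => by cases h)
      · rw [P8a_neg hk c h] at hz
        exact absurd hz (fun h => by cases h)
  intro z z' hz
  rcases z with c | (i | i)
  · exact key c z' hz
  · rcases z' with c' | (i' | i')
    · exact (key c' _ hz.symm).symm
    · obtain ⟨h3, e⟩ := hx i
      obtain ⟨h3', e'⟩ := hx i'
      rw [e, e'] at hz
      have h1 := congrArg Subtype.val (Sum.inl.inj hz)
      have h2 := Sum.inl.inj (Sum.inr.inj h1)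
      have h5 := (ioE Q k).symm.injective h2
      rw [h5]
    · obtain ⟨h3, e⟩ := hx i
      obtain ⟨h3', h4', e'⟩ := hy i'
      rw [e, e'] at hz
      exact absurd hz (fun h => by cases h)
  · rcases z' with c' | (i' | i')
    · exact (key c' _ hz.symm).symm
    · obtain ⟨h3, h4, e⟩ := hy i
      obtain ⟨h3', e'⟩ := hx i'
      rw [e, e'] at hz
      exact absurd hz (fun h => by cases h)
    · obtain ⟨h3, h4, e⟩ := hy i
      obtain ⟨h3', h4', e'⟩ := hy i'
      rw [e, e'] at hz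
      have h1 := Sum.inl.inj (Sum.inr.inj hz)
      have h2 := congrArg Subtype.val (congrArg Prod.fst h1)
      have h5 := congrArg Subtype.val (congrArg Prod.snd h1)
      have h6 := congrArg Subtype.val (Sum.inr.inj (Sum.inr.inj h2))
      have h7 := congrArg Subtype.val (Sum.inr.inj (Sum.inr.inj h5))
      have h8 : (ioE Q k).symm i = (ioE Q k).symm i' := Prod.ext (Subtype.ext h7) (Subtype.ext h6)
      rw [(ioE Q k).symm.injective h8]

theorem sig_bij (hk : NoLoop Q k) : Function.Bijective (sig hk) := ⟨P8a_inj hk, P8a_surj hk⟩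

theorem sig_s (hk : NoLoop Q k) (a : (QIO Q k).A) : ((Q.pre k).pre k).s (sig hk a) = (QIO Q k).s a := by
  rcases a with c | (i | i)
  · by_cases h : Q.s c = k ∨ Q.t c = k
    · rw [P8a_pos hk c h]
      rfl
    · rw [P8a_neg hk c h]
      rfl
  · rfl
  · rfl

theorem sig_t (hk : NoLoop Q k) (a : (QIO Q k).A) : ((Q.pre k).pre k).t (sig hk a) = (QIO Q k).t a := by
  rcases a with c | (i | i)
  · by_cases h : Q.s c = k ∨ Q.t c = k
    · rw [P8a_pos hk c h]
      rfl
    · rw [P8a_neg hk c h]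
      rfl
  · rfl
  · rfl

theorem RE_sig {R : Type} [CommRing R] (hk : NoLoop Q k) (W : NC ((Q.pre k).pre k).A R) :
    RE ((Q.pre k).pre k) (QIO Q k) W (fun w => W (w.map (sig hk))) := by
  let e : (QIO Q k).A ≃ ((Q.pre k).pre k).A := Equiv.ofBijective (sig hk) (sig_bij hk)
  have he : ∀ a, sig hk (e.symm a) = a := fun a => e.apply_symm_apply a
  have h := RE_relabel (R := R) (Q := (Q.pre k).pre k) (Q' := QIO Q k) e.symm (fun a => by
    rw [← sig_s hk, he]) (fun a => by rw [← sig_t hk, he]) W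
  exact h

end Cea.N
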