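import Pool.Agent.Lib.MP_cea156_al.N.P8a

/-! P8b: the potential of the double premutation in the letters of `QIO Q k`. -/

set_option autoImplicit false

namespace Cea.N

open Finset

variable {V R : Type} [DecidableEq V] [CommRing R] {Q : Quiv V} {k : V}

/-- old arrows stay, `[ab] ↦ x` -/
noncomputable def gx (Q : Quiv V) (k : V) : (Q.pre k).A → NC (QIO Q k).A R
  | Sum.inl c => (X (Sum.inl c.1) : NC (QIO Q k).A R)
  | Sum.inr (Sum.inl ab) => (X (Sum.inr (Sum.inl (ioE Q k ab))) : NC (QIO Q k).A R)
  | Sum.inr (Sum.inr _) => 0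

/-- the inverse of `gx` on letters -/
noncomputable def P8b_tau (Q : Quiv V) (k : V) : (QIO Q k).A → Option (Q.pre k).A
  | Sum.inl c => if h : Q.s c = k ∨ Q.t c = k then none else some (Sum.inl ⟨c, not_or.mp h⟩)
  | Sum.inr (Sum.inl i) => some (Sum.inr (Sum.inl ((ioE Q k).symm i)))
  | Sum.inr (Sum.inr _) => none

/-- the inverse of `gx` on words -/
noncomputable def P8b_tw (Q : Quiv V) (k : V) : List (QIO Q k).A → Option (List (Q.pre k).A)
  | [] => some []
  | d :: w => (P8b_tau Q k d).bind fun e => (P8b_tw Q k w).map fun l => e :: l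

theorem P8b_X_mul_nil {B : Type} [DecidableEq B] (d : B) (g : NC B R) : (X d * g : NC B R) [] = 0 := by
  rw [mul_nil]
  show (if ([] : List B) = [d] then (1 : R) else 0) * _ = 0
  rw [if_neg (by simp), zero_mul]

theorem P8b_X_mul_cons {B : Type} [DecidableEq B] (d a : B) (g : NC B R) (w : List B) :
    (X d * g : NC B R) (a :: w) = if a = d then g w else 0 := by
  rw [mul_cons]
  have h0 : (X d : NC B R) [] = 0 := by
    show (if ([] : List B) = [d] then (1 : R) else 0) = 0
    rw [if_neg (by simp)]
  rw [h0, zero_mul, zero_add]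
  by_cases h : a = d
  · rw [if_pos h]
    have e : shift a (X d : NC B R) = 1 := by
      ext v
      show (if a :: v = [d] then (1 : R) else 0) = if v.isEmpty then 1 else 0
      cases v with
      | nil => simp [h]
      | cons b v => simp
    rw [e, one_mul]
  · rw [if_neg h]
    have e : shift a (X d : NC B R) = 0 := by
      ext v
      show (if a :: v = [d] then (1 : R) else 0) = 0
      rw [if_neg]
      intro hh
      exact h (List.cons.inj hh).1
    rw [e, zero_mul, zero_apply]

theorem P8b_tau_old (c : Q.A) (hc : ¬(Q.s c = k ∨ Q.t c = k)) :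
    P8b_tau Q k (Sum.inl c) = some (Sum.inl ⟨c, not_or.mp hc⟩) := dif_neg hc

theorem P8b_tau_tch (c : Q.A) (hc : Q.s c = k ∨ Q.t c = k) : P8b_tau Q k (Sum.inl c) = none := dif_pos hc

theorem P8b_gx (e : (Q.pre k).A) (g : NC (QIO Q k).A R) (d : (QIO Q k).A) (w : List (QIO Q k).A) :
    (gx Q k e * g : NC (QIO Q k).A R) (d :: w) = if P8b_tau Q k d = some e then g w else 0 := by
  match e with
  | Sum.inl c =>
    show ((X (Sum.inl c.1) : NC (QIO Q k).A R) * g : NC (QIO Q k).A R) (d :: w) = _
    rw [P8b_X_mul_cons]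
    refine if_congr ?_ rfl rfl
    constructor
    · intro h
      rw [h, P8b_tau_old _ (not_or.mpr c.2)]
      rfl
    · intro h
      match d with
      | Sum.inl c' =>
        by_cases hc : Q.s c' = k ∨ Q.t c' = k
        · rw [P8b_tau_tch _ hc] at h
          cases h
        · rw [P8b_tau_old _ hc] at h
          have h1 := Sum.inl.inj (Option.some.inj h)
          rw [← h1]
      | Sum.inr (Sum.inl i) => cases h
      | Sum.inr (Sum.inr i) => cases h
  | Sum.inr (Sum.inl ab) =>
    show ((X (Sum.inr (Sum.inl (ioE Q k ab))) : NC (QIO Q k).A R) * g : NC (QIO Q k).A R) (d :: w) = _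
    rw [P8b_X_mul_cons]
    refine if_congr ?_ rfl rfl
    constructor
    · intro h
      rw [h]
      show some (Sum.inr (Sum.inl ((ioE Q k).symm (ioE Q k ab)))) = _
      rw [Equiv.symm_apply_apply]
      rfl
    · intro h
      match d with
      | Sum.inl c' =>
        by_cases hc : Q.s c' = k ∨ Q.t c' = k
        · rw [P8b_tau_tch _ hc] at h
          cases h
        · rw [P8b_tau_old _ hc] at h
          cases h
      | Sum.inr (Sum.inl i) =>
        have h1 := Sum.inl.inj (Sum.inr.inj (Option.some.inj h))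
        rw [← h1, Equiv.apply_symm_apply]
      | Sum.inr (Sum.inr i) => cases h
  | Sum.inr (Sum.inr c) =>
    show ((0 : NC (QIO Q k).A R) * g : NC (QIO Q k).A R) (d :: w) = _
    rw [zero_mul, zero_apply, if_neg]
    intro h
    match d with
    | Sum.inl c' =>
      by_cases hc : Q.s c' = k ∨ Q.t c' = k
      · rw [P8b_tau_tch _ hc] at h
        cases h
      · rw [P8b_tau_old _ hc] at h
        cases h
    | Sum.inr (Sum.inl i) => cases h
    | Sum.inr (Sum.inr i) => cases h

theorem P8b_gx_nil (e : (Q.pre k).A) (g : NC (QIO Q k).A R) : (gx Q k e * g : NC (QIO Q k).A R) [] = 0 := by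
  match e with
  | Sum.inl c => exact P8b_X_mul_nil _ g
  | Sum.inr (Sum.inl ab) => exact P8b_X_mul_nil _ g
  | Sum.inr (Sum.inr c) =>
    show ((0 : NC (QIO Q k).A R) * g : NC (QIO Q k).A R) [] = _
    rw [zero_mul, zero_apply]

theorem P8b_wordSub (u : List (Q.pre k).A) (w : List (QIO Q k).A) :
    wordSub (gx Q k : (Q.pre k).A → NC (QIO Q k).A R) u w = if P8b_tw Q k w = some u then 1 else 0 := by
  induction u generalizing w with
  | nil =>
    show (if w.isEmpty then (1 : R) else 0) = _
    cases w with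
    | nil => simp [P8b_tw]
    | cons d w =>
      rw [if_neg (by simp), if_neg]
      show ¬((P8b_tau Q k d).bind fun e => (P8b_tw Q k w).map fun l => e :: l) = some []
      cases P8b_tau Q k d with
      | none => intro h; cases h
      | some e =>
        cases P8b_tw Q k w with
        | none => intro h; cases h
        | some l => intro h; cases h
  | cons e u ih =>
    show (gx Q k e * wordSub (gx Q k) u : NC (QIO Q k).A R) w = _
    cases w with
    | nil =>
      rw [P8b_gx_nil, if_neg]
      intro h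
      cases h
    | cons d w =>
      rw [P8b_gx, ih]
      have hd : P8b_tw Q k (d :: w) =
        (P8b_tau Q k d).bind fun e => (P8b_tw Q k w).map fun l => e :: l := rfl
      rw [hd]
      cases P8b_tau Q k d with
      | none =>
        rw [if_neg (by intro h; cases h), if_neg (by intro h; cases h)]
      | some e' =>
        cases P8b_tw Q k w with
        | none =>
          rw [if_neg (show ¬(none : Option (List (Q.pre k).A)) = some u by intro h; cases h), ite_self, if_neg]
          intro h
          cases h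
        | some l =>
          by_cases h1 : e' = e
          · by_cases h2 : l = u
            · rw [if_pos (by rw [h1]), if_pos (by rw [h2]), if_pos]
              rw [h1, h2]
              rfl
            · rw [if_neg (show ¬some l = some u by intro h; exact h2 (Option.some.inj h)), ite_self, if_neg]
              intro h
              exact h2 (List.cons.inj (Option.some.inj h)).2
          · rw [if_neg (show ¬some e' = some e by intro h; exact h1 (Option.some.inj h)), if_neg]
            intro h
            exact h1 (List.cons.inj (Option.some.inj h)).1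

theorem P8b_z0 : Z0 (gx Q k : (Q.pre k).A → NC (QIO Q k).A R) := by
  intro e
  have := P8b_gx_nil (R := R) e (1 : NC (QIO Q k).A R)
  rw [mul_one] at this
  exact this

theorem P8b_tw_len {w : List (QIO Q k).A} {u : List (Q.pre k).A} (h : P8b_tw Q k w = some u) :
    u.length = w.length := by
  induction w generalizing u with
  | nil =>
    have := Option.some.inj h
    rw [← this]
    rfl
  | cons d w ih =>
    change ((P8b_tau Q k d).bind fun e => (P8b_tw Q k w).map fun l => e :: l) = some u at h
    revert h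
    cases P8b_tau Q k d with
    | none => intro h; cases h
    | some e =>
      cases hl : P8b_tw Q k w with
      | none => intro h; cases h
      | some l =>
        intro h
        have := Option.some.inj h
        rw [← this, List.length_cons, List.length_cons, ih hl]

theorem P8b_subst (f : NC (Q.pre k).A R) (w : List (QIO Q k).A) :
    subst (gx Q k) f w = match P8b_tw Q k w with
      | some u => f u
      | none => 0 := by
  rw [subst_apply P8b_z0 f w le_rfl]
  simp only [P8b_wordSub]
  cases h : P8b_tw Q k w with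
  | none =>
    exact sum_eq_zero fun u _ => by rw [if_neg (by intro h'; cases h'), mul_zero]
  | some u =>
    rw [sum_eq_single u]
    · rw [if_pos rfl, mul_one]
    · intro v _ hv
      rw [if_neg (fun h' => hv (Option.some.inj h').symm), mul_zero]
    · intro h'
      exact absurd (mem_wds.2 (P8b_tw_len h).le) h'

theorem P8b_opt {α β : Type} (o o' : Option α) (f : α → Option β) (h : α → α) (g : β → β)
    (hf : ∀ l, f (h l) = (f l).map g) (he : o.bind f = o'.bind f) : (o.map h).bind f = (o'.map h).bind f := by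
  cases o with
  | none =>
    cases o' with
    | none => rfl
    | some b =>
      have h1 : none = f b := he
      show none = f (h b)
      rw [hf, ← h1]
      rfl
  | some a =>
    cases o' with
    | none =>
      have h1 : f a = none := he
      show f (h a) = none
      rw [hf, h1]
      rfl
    | some b =>
      have h1 : f a = f b := he
      show f (h a) = f (h b)
      rw [hf, hf, h1]

theorem P8b_exp (hk : NoLoop Q k) (w : List (QIO Q k).A) :
    ((Q.pre k).expand k (w.map (sig hk))).bind (Q.expand k) = (P8b_tw Q k w).bind (Q.expand k) := by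
  induction w with
  | nil => rfl
  | cons d w ih =>
    match d with
    | Sum.inl c =>
      by_cases hc : Q.s c = k ∨ Q.t c = k
      · have h1 : sig hk (Sum.inl c : (QIO Q k).A) = Sum.inr (Sum.inr ⟨Sum.inr (Sum.inr ⟨c, hc⟩), hc.symm⟩) :=
          dif_pos hc
        have h2 : P8b_tau Q k (Sum.inl c) = none := dif_pos hc
        have h3 : P8b_tw Q k (Sum.inl c :: w) = none := by
          show ((P8b_tau Q k (Sum.inl c)).bind fun e => (P8b_tw Q k w).map fun l => e :: l) = none
          rw [h2]
          rfl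
        rw [h3, List.map_cons, h1]
        rfl
      · have h1 : sig hk (Sum.inl c : (QIO Q k).A) = Sum.inl ⟨Sum.inl ⟨c, not_or.mp hc⟩, not_or.mp hc⟩ :=
          dif_neg hc
        have h2 : P8b_tau Q k (Sum.inl c) = some (Sum.inl ⟨c, not_or.mp hc⟩) := dif_neg hc
        have h3 : P8b_tw Q k (Sum.inl c :: w) = (P8b_tw Q k w).map fun l => Sum.inl ⟨c, not_or.mp hc⟩ :: l := by
          show ((P8b_tau Q k (Sum.inl c)).bind fun e => (P8b_tw Q k w).map fun l => e :: l) = _
          rw [h2]
          rfl
        rw [h3, List.map_cons, h1]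
        exact P8b_opt _ _ (Q.expand k) (fun l => Sum.inl ⟨c, not_or.mp hc⟩ :: l) (fun l => c :: l) (fun l => rfl) ih
    | Sum.inr (Sum.inl i) =>
      have h3 : P8b_tw Q k (Sum.inr (Sum.inl i) :: w) =
        (P8b_tw Q k w).map fun l => Sum.inr (Sum.inl ((ioE Q k).symm i)) :: l := rfl
      rw [h3, List.map_cons]
      exact P8b_opt _ _ (Q.expand k) (fun l => Sum.inr (Sum.inl ((ioE Q k).symm i)) :: l)
        (fun l => ((ioE Q k).symm i).1.1 :: ((ioE Q k).symm i).2.1 :: l) (fun l => rfl) ih
    | Sum.inr (Sum.inr i) =>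
      have h3 : P8b_tw Q k (Sum.inr (Sum.inr i) :: w) = none := rfl
      rw [h3, List.map_cons]
      show (((Q.pre k).expand k (w.map (sig hk))).map fun l => Q.revOut ((ioE Q k).symm i).2 ::
        Q.revIn ((ioE Q k).symm i).1 :: l).bind (Q.expand k) = none
      rw [Option.bind_map]
      cases (Q.pre k).expand k (w.map (sig hk)) with
      | none => rfl
      | some l => rfl

theorem P8b_part1 (hk : NoLoop Q k) (W : NC Q.A R) (w : List (QIO Q k).A) :
    br (Q.pre k) k (br Q k W) (w.map (sig hk)) = subst (gx Q k) (br Q k W) w := by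
  rw [P8b_subst]
  have h := P8b_exp hk w
  unfold br
  cases h1 : (Q.pre k).expand k (w.map (sig hk)) with
  | none =>
    rw [h1] at h
    cases h2 : P8b_tw Q k w with
    | none => rfl
    | some u =>
      rw [h2] at h
      have h3 : Q.expand k u = none := h.symm
      show (0 : R) = match Q.expand k u with
        | some l => W l
        | none => 0
      rw [h3]
  | some l =>
    rw [h1] at h
    cases h2 : P8b_tw Q k w with
    | none =>
      rw [h2] at h
      have h3 : Q.expand k l = none := h
      show (match Q.expand k l with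
        | some l => W l
        | none => 0) = (0 : R)
      rw [h3]
    | some u =>
      rw [h2] at h
      have h3 : Q.expand k l = Q.expand k u := h
      show (match Q.expand k l with
        | some l => W l
        | none => 0) = match Q.expand k u with
        | some l => W l
        | none => 0
      rw [h3]

theorem P8b_mon2 {B : Type} [DecidableEq B] (a b : B) (w : List B) :
    (X a * X b : NC B R) w = if w = [a, b] then 1 else 0 := by
  have h : (X a * X b : NC B R) = mon ([a] ++ [b]) := mon_mul_mon _ _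
  rw [h]
  rfl

theorem P8b_mon3 {B : Type} [DecidableEq B] (a b c : B) (w : List B) :
    (X a * X b * X c : NC B R) w = if w = [a, b, c] then 1 else 0 := by
  have h : (X a * X b * X c : NC B R) = mon (([a] ++ [b]) ++ [c]) := by
    rw [← mon_mul_mon, ← mon_mul_mon]
    rfl
  rw [h]
  rfl

theorem P8b_sum_ite {I B : Type} [Fintype I] [DecidableEq B] (v : I → List B) (hv : Function.Injective v)
    (w : List B) [Decidable (∃ i, w = v i)] :
    (∑ i, if w = v i then (1 : R) else 0) = if ∃ i, w = v i then 1 else 0 := by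
  by_cases h : ∃ i, w = v i
  · obtain ⟨i, hi⟩ := h
    rw [if_pos ⟨i, hi⟩, sum_eq_single i]
    · rw [if_pos hi]
    · intro j _ hj
      rw [if_neg]
      intro h'
      exact hj (hv (h'.symm.trans hi))
    · intro h'
      exact absurd (mem_univ i) h'
  · rw [if_neg h]
    refine sum_eq_zero fun i _ => ?_
    rw [if_neg]
    intro h'
    exact h ⟨i, h'⟩

/-- the word `x y` -/
def P8b_v (Q : Quiv V) (k : V) (i : Fin (nIO Q k)) : List (QIO Q k).A :=
  [Sum.inr (Sum.inl i), Sum.inr (Sum.inr i)]

/-- the word `y a b` -/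
noncomputable def P8b_u (Q : Quiv V) (k : V) (i : Fin (nIO Q k)) : List (QIO Q k).A :=
  [Sum.inr (Sum.inr i), Sum.inl ((ioE Q k).symm i).1.1, Sum.inl ((ioE Q k).symm i).2.1]

theorem P8b_v_inj : Function.Injective (P8b_v Q k) := by
  intro i j h
  exact Sum.inl.inj (Sum.inr.inj (List.cons.inj h).1)

theorem P8b_u_inj : Function.Injective (P8b_u Q k) := by
  intro i j h
  exact Sum.inr.inj (Sum.inr.inj (List.cons.inj h).1)

theorem P8b_exp_v (hk : NoLoop Q k) (i : Fin (nIO Q k)) :
    (Q.pre k).expand k ((P8b_v Q k i).map (sig hk)) =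
      some [Q.cmp ((ioE Q k).symm i).1 ((ioE Q k).symm i).2, Q.revOut ((ioE Q k).symm i).2,
        Q.revIn ((ioE Q k).symm i).1] := rfl

theorem P8b_part2 (hk : NoLoop Q k) (w : List (QIO Q k).A) :
    br (Q.pre k) k (dlt Q k : NC (Q.pre k).A R) (w.map (sig hk)) =
      ∑ i, ((X (Sum.inr (Sum.inl i)) : NC (QIO Q k).A R) * (X (Sum.inr (Sum.inr i)) : NC (QIO Q k).A R) :
        NC (QIO Q k).A R) w := by
  classical
  have h0 : ∀ i, ((X (Sum.inr (Sum.inl i)) : NC (QIO Q k).A R) * (X (Sum.inr (Sum.inr i)) : NC (QIO Q k).A R) :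
        NC (QIO Q k).A R) w = if w = P8b_v Q k i then 1 else 0 := by
    intro i
    rw [P8b_mon2]
    exact if_congr Iff.rfl rfl rfl
  refine Eq.trans ?_ (Eq.trans (P8b_sum_ite (P8b_v Q k) P8b_v_inj w).symm (sum_congr rfl fun i _ => (h0 i).symm))
  by_cases h : ∃ i, w = P8b_v Q k i
  · rw [if_pos h]
    obtain ⟨i, rfl⟩ := h
    unfold br
    rw [P8b_exp_v]
    show (if ∃ (a : Q.In k) (b : Q.Out k), _ then (1 : R) else 0) = 1
    rw [if_pos]
    exact ⟨_, _, rfl⟩
  · rw [if_neg h]
    unfold br
    cases h1 : (Q.pre k).expand k (w.map (sig hk)) with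
    | none => rfl
    | some l =>
      show (if ∃ (a : Q.In k) (b : Q.Out k), l = [Q.cmp a b, Q.revOut b, Q.revIn a] then (1 : R) else 0) = 0
      rw [if_neg]
      rintro ⟨a, b, hl⟩
      apply h
      refine ⟨ioE Q k (a, b), ?_⟩
      have h2 := P8b_exp_v hk (ioE Q k (a, b))
      rw [Equiv.symm_apply_apply] at h2
      rw [hl] at h1
      have h3 := expand_inj (Q.pre k) k h1 h2
      exact List.map_injective_iff.2 (sig_bij hk).1 h3

theorem P8b_part3 (hk : NoLoop Q k) (w : List (QIO Q k).A) :
    (dlt (Q.pre k) k : NC ((Q.pre k).pre k).A R) (w.map (sig hk)) =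
      ∑ i, ((X (Sum.inr (Sum.inr i)) : NC (QIO Q k).A R) * (X (Sum.inl ((ioE Q k).symm i).1.1) : NC (QIO Q k).A R) *
            (X (Sum.inl ((ioE Q k).symm i).2.1) : NC (QIO Q k).A R) : NC (QIO Q k).A R) w := by
  classical
  have h0 : ∀ i, ((X (Sum.inr (Sum.inr i)) : NC (QIO Q k).A R) *
      (X (Sum.inl ((ioE Q k).symm i).1.1) : NC (QIO Q k).A R) *
        (X (Sum.inl ((ioE Q k).symm i).2.1) : NC (QIO Q k).A R) :
        NC (QIO Q k).A R) w = if w = P8b_u Q k i then 1 else 0 := by
    intro i
    rw [P8b_mon3]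
    exact if_congr Iff.rfl rfl rfl
  refine Eq.trans ?_ (Eq.trans (P8b_sum_ite (P8b_u Q k) P8b_u_inj w).symm (sum_congr rfl fun i _ => (h0 i).symm))
  show (if ∃ (a : (Q.pre k).In k) (b : (Q.pre k).Out k), w.map (sig hk) = [(Q.pre k).cmp a b, (Q.pre k).revOut b,
    (Q.pre k).revIn a] then (1 : R) else 0) = _
  refine if_congr ?_ rfl rfl
  have hsa : ∀ a : Q.In k, sig hk (Sum.inl a.1 : (QIO Q k).A) =
      Sum.inr (Sum.inr ⟨Sum.inr (Sum.inr ⟨a.1, Or.inr a.2⟩), Or.inl a.2⟩) := fun a => dif_pos (Or.inr a.2)
  have hsb : ∀ b : Q.Out k, sig hk (Sum.inl b.1 : (QIO Q k).A) =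
      Sum.inr (Sum.inr ⟨Sum.inr (Sum.inr ⟨b.1, Or.inl b.2⟩), Or.inr b.2⟩) := fun b => dif_pos (Or.inl b.2)
  have hu : ∀ i, (P8b_u Q k i).map (sig hk) =
      [(Q.pre k).cmp ⟨Q.revOut ((ioE Q k).symm i).2, ((ioE Q k).symm i).2.2⟩
        ⟨Q.revIn ((ioE Q k).symm i).1, ((ioE Q k).symm i).1.2⟩,
      (Q.pre k).revOut ⟨Q.revIn ((ioE Q k).symm i).1, ((ioE Q k).symm i).1.2⟩,
      (Q.pre k).revIn ⟨Q.revOut ((ioE Q k).symm i).2, ((ioE Q k).symm i).2.2⟩] := by
    intro i
    show [sig hk (Sum.inr (Sum.inr i)), sig hk (Sum.inl ((ioE Q k).symm i).1.1),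
      sig hk (Sum.inl ((ioE Q k).symm i).2.1)] = _
    rw [hsa, hsb]
    rfl
  constructor
  · rintro ⟨⟨a, ha⟩, ⟨b, hb⟩, hw⟩
    match a, ha, b, hb, hw with
    | Sum.inl c, ha, _, _, _ => exact absurd ha c.2.2
    | Sum.inr (Sum.inl c), ha, _, _, _ => exact absurd ⟨c.2.2, ha⟩ (hk c.2.1)
    | Sum.inr (Sum.inr c), ha, Sum.inl c', hb, _ => exact absurd hb c'.2.1
    | Sum.inr (Sum.inr c), ha, Sum.inr (Sum.inl c'), hb, _ => exact absurd ⟨hb, c'.1.2⟩ (hk c'.1.1)
    | Sum.inr (Sum.inr c), ha, Sum.inr (Sum.inr c'), hb, hw =>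
      refine ⟨ioE Q k (⟨c'.1, hb⟩, ⟨c.1, ha⟩), ?_⟩
      have h2 := hu (ioE Q k (⟨c'.1, hb⟩, ⟨c.1, ha⟩))
      rw [Equiv.symm_apply_apply] at h2
      exact List.map_injective_iff.2 (sig_bij hk).1 (hw.trans h2.symm)
  · rintro ⟨i, rfl⟩
    exact ⟨_, _, hu i⟩

theorem rel_Z (hk : NoLoop Q k) (W : NC Q.A R) :
    (fun w => (br (Q.pre k) k (br Q k W + dlt Q k) + dlt (Q.pre k) k : NC ((Q.pre k).pre k).A R) (w.map (sig hk)) :
        NC (QIO Q k).A R) =
      subst (gx Q k) (br Q k W) +
        ∑ i : Fin (nIO Q k), ((X (Sum.inr (Sum.inl i)) : NC (QIO Q k).A R) * (X (Sum.inr (Sum.inr i)) : NC (QIO Q k).A R) +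
          (X (Sum.inr (Sum.inr i)) : NC (QIO Q k).A R) * (X (Sum.inl ((ioE Q k).symm i).1.1) : NC (QIO Q k).A R) *
            (X (Sum.inl ((ioE Q k).symm i).2.1) : NC (QIO Q k).A R)) := by
  refine Cea.N.ext fun w => ?_
  show (br (Q.pre k) k (br Q k W + dlt Q k) + dlt (Q.pre k) k : NC ((Q.pre k).pre k).A R) (w.map (sig hk)) = _
  rw [br_add, add_apply, add_apply, P8b_part1 hk, P8b_part2 hk, P8b_part3 hk, add_assoc, add_apply,
    sum_add_distrib, add_apply, finsetSum_apply, finsetSum_apply]

end Cea.N
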