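import Pool.Agent.Lib.MP_cea156_al.N.A7
import Pool.Agent.Lib.MP_cea156_al.N.P1c

/-! R1: restriction of potentials and right equivalences to full subquivers. `res_subst`: if `a` is not in the range of `ι` then `φ a (v.map ι) = 0` for all `v`
(otherwise `v.map ι` would be a nonempty path from `s a` to `t a`, so `s a`, `t a` would be in `S`); hence only the words `u = u'.map ι` contribute to the
coefficient of `w.map ι` in `subst φ W`. `Iso_res`: `lin φ a c ≠ 0` only if `a`, `c` have the same ends; take the block of the inverse matrix. -/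

set_option autoImplicit false

namespace Cea.N

variable {V R : Type} [DecidableEq V] [CommRing R] {P Q : Quiv V}

/-- restriction of a series to the words in the letters `ι a` -/
def res (ι : P.A → Q.A) (W : NC Q.A R) : NC P.A R := fun w => W (w.map ι)

/-- `P` is (isomorphic by `ι` to) the full subquiver of `Q` on the vertices in `S` -/
structure FullSub (P Q : Quiv V) (ι : P.A → Q.A) (S : Set V) : Prop where
  inj : Function.Injective ι
  hs : ∀ a, Q.s (ι a) = P.s a
  ht : ∀ a, Q.t (ι a) = P.t a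
  mem : ∀ a, P.s a ∈ S ∧ P.t a ∈ S
  full : ∀ a, Q.s a ∈ S → Q.t a ∈ S → ∃ b, ι b = a

theorem R1_res_apply (ι : P.A → Q.A) (W : NC Q.A R) (w : List P.A) : res ι W w = W (w.map ι) := rfl

theorem cyc_res (ι : P.A → Q.A) (W : NC Q.A R) : cyc (res ι W) = res ι (cyc W) := by
  ext w
  show ∑ k ∈ Finset.range w.length, W ((w.rotate k).map ι) =
    ∑ k ∈ Finset.range (w.map ι).length, W ((w.map ι).rotate k)
  rw [List.length_map]
  exact Finset.sum_congr rfl fun k _ => by rw [List.map_rotate]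

theorem isPath_map {ι : P.A → Q.A} {S : Set V} (h : FullSub P Q ι S) (i j : V) (w : List P.A) :
    Q.IsPath i (w.map ι) j ↔ P.IsPath i w j := by
  induction w generalizing i with
  | nil => exact Iff.rfl
  | cons a w ih =>
    show (Q.s (ι a) = i ∧ Q.IsPath (Q.t (ι a)) (w.map ι) j) ↔ (P.s a = i ∧ P.IsPath (P.t a) w j)
    rw [h.hs, h.ht, ih]

theorem Pot_res {ι : P.A → Q.A} {S : Set V} (h : FullSub P Q ι S) {W : NC Q.A R} (hW : Pot Q W) :
    Pot P (res ι W) := by
  intro w hw
  obtain ⟨h1, i, h2⟩ := hW (w.map ι) hw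
  refine ⟨fun h0 => h1 (by rw [h0]; rfl), i, ?_⟩
  exact (isPath_map h i i w).1 h2

/-- a nonempty path of the subquiver starts and ends in `S` -/
theorem R1_mem {ι : P.A → Q.A} {S : Set V} (h : FullSub P Q ι S) (w : List P.A) :
    ∀ i j, w ≠ [] → P.IsPath i w j → i ∈ S ∧ j ∈ S := by
  induction w with
  | nil => intro i j h0 _; exact absurd rfl h0
  | cons a w ih =>
    rintro i j _ ⟨h1, h2⟩
    refine ⟨h1 ▸ (h.mem a).1, ?_⟩
    cases w with
    | nil =>
      have h3 : P.t a = j := h2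
      exact h3 ▸ (h.mem a).2
    | cons b w => exact (ih (P.t a) j (List.cons_ne_nil _ _) h2).2

theorem R1_range {ι : P.A → Q.A} {S : Set V} (h : FullSub P Q ι S) {φ : Q.A → NC Q.A R}
    (hφ : ∀ a w, φ a w ≠ 0 → w ≠ [] ∧ Q.IsPath (Q.s a) w (Q.t a)) {a : Q.A} {v : List P.A}
    (hv : φ a (v.map ι) ≠ 0) : ∃ b, ι b = a := by
  obtain ⟨h1, h2⟩ := hφ a _ hv
  have h3 : v ≠ [] := fun h0 => h1 (by rw [h0]; rfl)
  have h4 := R1_mem h v _ _ h3 ((isPath_map h _ _ v).1 h2)
  exact h.full a h4.1 h4.2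

theorem R1_wordSub (ι : P.A → Q.A) (φ : Q.A → NC Q.A R) (u : List P.A) :
    ∀ w : List P.A, wordSub φ (u.map ι) (w.map ι) = wordSub (fun a => res ι (φ (ι a))) u w := by
  induction u with
  | nil =>
    intro w
    cases w <;> rfl
  | cons a u ih =>
    intro w
    show (φ (ι a) * wordSub φ (u.map ι)) (w.map ι) =
      (res ι (φ (ι a)) * wordSub (fun a => res ι (φ (ι a))) u) w
    rw [mul_apply, mul_apply, List.length_map]
    refine Finset.sum_congr rfl fun k _ => ?_
    rw [← List.map_take, ← List.map_drop, ih]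
    rfl

theorem R1_zero {ι : P.A → Q.A} {S : Set V} (h : FullSub P Q ι S) {φ : Q.A → NC Q.A R}
    (hφ : ∀ a w, φ a w ≠ 0 → w ≠ [] ∧ Q.IsPath (Q.s a) w (Q.t a)) (u : List Q.A) :
    ∀ w : List P.A, (¬ ∃ u' : List P.A, u'.map ι = u) → wordSub φ u (w.map ι) = 0 := by
  induction u with
  | nil => intro w h0; exact absurd ⟨[], rfl⟩ h0
  | cons a u ih =>
    intro w h0
    show (φ a * wordSub φ u) (w.map ι) = 0
    rw [mul_apply]
    refine Finset.sum_eq_zero fun k _ => ?_
    rw [← List.map_take, ← List.map_drop]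
    by_cases h1 : φ a ((w.take k).map ι) = 0
    · rw [h1, zero_mul]
    · obtain ⟨b, rfl⟩ := R1_range h hφ h1
      rw [ih (w.drop k) (fun ⟨u', hu'⟩ => h0 ⟨b :: u', by rw [List.map_cons, hu']⟩), mul_zero]

theorem res_subst {ι : P.A → Q.A} {S : Set V} (h : FullSub P Q ι S) {φ : Q.A → NC Q.A R} (hφ : Iso Q Q φ)
    (W : NC Q.A R) : res ι (subst φ W) = subst (fun a => res ι (φ (ι a))) (res ι W) := by
  ext w
  have hz : Z0 φ := hφ.z0
  have hz' : Z0 (fun a => res ι (φ (ι a))) := fun a => hz (ι a)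
  rw [R1_res_apply, subst_apply hz W (w.map ι) (le_of_eq (List.length_map ι)),
    subst_apply hz' (res ι W) w le_rfl]
  symm
  refine Finset.sum_of_injOn (fun u : List P.A => u.map ι) ?_ ?_ ?_ ?_
  · exact (List.map_injective_iff.2 h.inj).injOn
  · intro u hu
    have h1 := mem_wds.1 (Finset.mem_coe.1 hu)
    exact Finset.mem_coe.2 (mem_wds.2 (by rw [List.length_map]; exact h1))
  · intro u hu h1
    rw [R1_zero h hφ.1 u w, mul_zero]
    rintro ⟨u', hu'⟩
    apply h1
    refine ⟨u', ?_, hu'⟩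
    have h2 := mem_wds.1 hu
    rw [← hu', List.length_map] at h2
    exact Finset.mem_coe.2 (mem_wds.2 h2)
  · intro u _
    rw [R1_wordSub ι φ u w]
    rfl

theorem Iso_res {ι : P.A → Q.A} {S : Set V} (h : FullSub P Q ι S) {φ : Q.A → NC Q.A R} (hφ : Iso Q Q φ) :
    Iso P P fun a => res ι (φ (ι a)) := by
  obtain ⟨h1, N, hN, -⟩ := hφ
  refine ⟨?_, N.submatrix ι ι, ?_⟩
  · intro a w hw
    obtain ⟨h2, h3⟩ := h1 (ι a) (w.map ι) hw
    refine ⟨fun h0 => h2 (by rw [h0]; rfl), ?_⟩
    rw [h.hs, h.ht] at h3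
    exact (isPath_map h _ _ w).1 h3
  · have key : lin (fun a => res ι (φ (ι a))) * N.submatrix ι ι = 1 := by
      ext a b
      have h4 : (lin φ * N) (ι a) (ι b) = (1 : Matrix Q.A Q.A R) (ι a) (ι b) := by rw [hN]
      rw [Matrix.mul_apply] at h4
      rw [Matrix.mul_apply]
      have h5 : (1 : Matrix Q.A Q.A R) (ι a) (ι b) = (1 : Matrix P.A P.A R) a b := by
        rw [Matrix.one_apply, Matrix.one_apply]
        by_cases hab : a = b
        · rw [if_pos hab, if_pos (congrArg ι hab)]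
        · rw [if_neg hab, if_neg (fun h6 => hab (h.inj h6))]
      rw [← h5, ← h4]
      refine Finset.sum_of_injOn ι h.inj.injOn (fun _ _ => Finset.mem_coe.2 (Finset.mem_univ _)) ?_ ?_
      · intro d _ hd
        by_cases h6 : lin φ (ι a) d = 0
        · rw [h6, zero_mul]
        · exfalso
          apply hd
          have h7 : φ (ι a) [d] ≠ 0 := h6
          obtain ⟨-, h8, h9⟩ := h1 (ι a) [d] h7
          have h10 : Q.t d = Q.t (ι a) := h9
          rw [h.hs] at h8
          rw [h.ht] at h10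
          obtain ⟨b', hb'⟩ := h.full d (h8 ▸ (h.mem a).1) (h10 ▸ (h.mem a).2)
          exact ⟨b', Finset.mem_coe.2 (Finset.mem_univ _), hb'⟩
      · intro c _
        rfl
    exact ⟨key, mul_eq_one_comm.1 key⟩

theorem RE_res {ι : P.A → Q.A} {S : Set V} (h : FullSub P Q ι S) {W W' : NC Q.A R} (hr : RE Q Q W W') :
    RE P P (res ι W) (res ι W') := by
  obtain ⟨φ, hφ, hW⟩ := hr
  refine ⟨fun a => res ι (φ (ι a)), Iso_res h hφ, ?_⟩
  rw [← res_subst h hφ, cyc_res, hW, cyc_res]

/-- extension by zero of a potential -/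
theorem exists_ext_pot {ι : P.A → Q.A} {S : Set V} (h : FullSub P Q ι S) {X : NC P.A R} (hX : Pot P X) :
    ∃ Y : NC Q.A R, Pot Q Y ∧ res ι Y = X ∧ ∀ w, Y w ≠ 0 → ∃ u : List P.A, w = u.map ι := by
  classical
  refine ⟨fun w => if hw : ∃ u : List P.A, w = u.map ι then X hw.choose else 0, ?_, ?_, ?_⟩
  · intro w hw
    by_cases h1 : ∃ u : List P.A, w = u.map ι
    · have h2 : X h1.choose ≠ 0 := by
        have h3 : (if hw : ∃ u : List P.A, w = u.map ι then X hw.choose else 0) ≠ 0 := hw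
        rw [dif_pos h1] at h3
        exact h3
      obtain ⟨h4, i, h5⟩ := hX _ h2
      have h6 : w = h1.choose.map ι := h1.choose_spec
      rw [h6]
      exact ⟨fun h0 => h4 (List.map_eq_nil_iff.1 h0), i, (isPath_map h i i _).2 h5⟩
    · exfalso
      apply hw
      exact dif_neg h1
  · ext w
    have h1 : ∃ u : List P.A, w.map ι = u.map ι := ⟨w, rfl⟩
    show (if hw : ∃ u : List P.A, w.map ι = u.map ι then X hw.choose else 0) = X w
    rw [dif_pos h1]
    have h2 : h1.choose = w := (List.map_injective_iff.2 h.inj) h1.choose_spec.symm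
    rw [h2]
  · intro w hw
    by_contra h1
    exact hw (dif_neg h1)

end Cea.N
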