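import Pool.Agent.Lib.MP_cea156_al.N.R3b
import Pool.Agent.Lib.MP_cea156_al.N.R2

/-! R4: a triangle with thin orbits is not generically rigid. Let `T₀ = tenq W` and `F` the polynomial which vanishes on the orbit of `T₀`. For every `T₁`
and all but countably many `s` the potential `W + cub (s (T₁ - T₀))` is right equivalent to `W`, so `F (T₀ + s (T₁ - T₀)) = 0` (`tenq_RE`); a polynomial in `s` which
vanishes at infinitely many `s` vanishes at `1`. So `F = 0`. -/

set_option autoImplicit false

namespace Cea.N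

open Polynomial

theorem R4_cub_zero {V : Type} [DecidableEq V] (u v w : V) {a b c : ℕ} {R : Type} [CommRing R]
    {T : Fin a → Fin b → Fin c → R} (hT : ∀ i j k, T i j k = 0) : cub u v w T = 0 := by
  ext p
  rw [R3_cub]
  refine Finset.sum_eq_zero fun i _ => Finset.sum_eq_zero fun j _ => Finset.sum_eq_zero fun k _ => ?_
  rw [hT, zero_mul]

theorem R4_eval {σ : Type} (F : MvPolynomial σ ℂ) (g : σ → ℂ[X]) (s : ℂ) :
    (MvPolynomial.eval₂ Polynomial.C g F).eval s = MvPolynomial.eval (fun q => (g q).eval s) F := by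
  have h1 : (evalRingHom s) (MvPolynomial.eval₂ Polynomial.C g F) =
      MvPolynomial.eval₂ ((evalRingHom s).comp Polynomial.C) (fun q => (evalRingHom s) (g q)) F :=
    MvPolynomial.hom_eval₂ F Polynomial.C (evalRingHom s) g
  have h2 : (evalRingHom s).comp Polynomial.C = RingHom.id ℂ := by
    ext x
    simp
  rw [h2] at h1
  exact h1

theorem not_RG_of_thin {V : Type} [DecidableEq V] {u v w : V} (huv : u ≠ v) (hvw : v ≠ w) (hwu : w ≠ u) {a b c : ℕ}
    (ht : ∀ T₀ : Ten a b c, ∃ F : MvPolynomial (Fin a × Fin b × Fin c) ℂ, F ≠ 0 ∧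
      ∀ T : Ten a b c, GLeq T₀ T → MvPolynomial.eval (fun p => T p.1 p.2.1 p.2.2) F = 0)
    {W : NC (Tq u v w a b c).A ℂ} (hW : Pot _ W) : ¬ RG (Tq u v w a b c) W := by
  intro hg
  obtain ⟨F, hF, h0⟩ := ht (tenq W)
  apply hF
  refine MvPolynomial.funext fun x => ?_
  rw [map_zero]
  set Y : NC (Tq u v w a b c).A ℂ[X] := cub u v w fun i j k =>
    (Polynomial.X : ℂ[X]) * Polynomial.C (x (i, j, k) - tenq W i j k) with hY
  have hmap : ∀ s : ℂ, mapR (evalRingHom s) Y = cub u v w fun i j k => s * (x (i, j, k) - tenq W i j k) := by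
    intro s
    rw [hY, mapR_cub]
    congr 1
    funext i j k
    simp
  have h1 : mapR (evalRingHom (0 : ℂ)) Y = 0 := by
    rw [hmap]
    exact R4_cub_zero u v w fun i j k => by rw [zero_mul]
  have h2 := hg Y (Pot_cub _) h1
  have h3 : {s : ℂ | RE (Tq u v w a b c) (Tq u v w a b c) W (W + mapR (evalRingHom s) Y)}.Infinite := by
    intro hfin
    apply not_countable_complex
    have h4 := hfin.countable.union h2
    refine h4.mono fun s _ => ?_
    by_cases hs : RE (Tq u v w a b c) (Tq u v w a b c) W (W + mapR (evalRingHom s) Y)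
    · exact Or.inl hs
    · exact Or.inr hs
  set g : Fin a × Fin b × Fin c → ℂ[X] := fun q =>
    Polynomial.C (tenq W q.1 q.2.1 q.2.2) + Polynomial.X * Polynomial.C (x q - tenq W q.1 q.2.1 q.2.2) with hgdef
  have hgs : ∀ (s : ℂ) (q : Fin a × Fin b × Fin c), (g q).eval s =
      tenq W q.1 q.2.1 q.2.2 + s * (x q - tenq W q.1 q.2.1 q.2.2) := by
    intro s q
    simp [hgdef]
  have h5 : MvPolynomial.eval₂ Polynomial.C g F = 0 := by
    refine Polynomial.eq_zero_of_infinite_isRoot _ (h3.mono fun s hs => ?_)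
    have h6 := h0 _ (tenq_RE huv hvw hwu hW hs)
    rw [hmap, tenq_add, tenq_cub] at h6
    change (MvPolynomial.eval₂ Polynomial.C g F).eval s = 0
    rw [R4_eval]
    have h7 : (fun q => (g q).eval s) = fun p : Fin a × Fin b × Fin c =>
        tenq W p.1 p.2.1 p.2.2 + s * (x (p.1, p.2.1, p.2.2) - tenq W p.1 p.2.1 p.2.2) := by
      funext q
      rw [hgs]
    rw [h7]
    exact h6
  have h8 := R4_eval F g 1
  rw [h5, Polynomial.eval_zero] at h8
  have h9 : (fun q => (g q).eval 1) = x := by
    funext q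
    rw [hgs]
    ring
  rw [h9] at h8
  exact h8.symm

end Cea.N
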