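import Pool.Agent.Lib.MP_cea156_al.N.R4
import Pool.Agent.Lib.MP_cea156_al.N.K6b
import Pool.Agent.Lib.MP_cea156_al.N.Q1
import Pool.Agent.Lib.MP_cea156_al.T14
import Pool.Agent.Lib.MP_cea156_al.T16
import Pool.Agent.Lib.MP_cea156_al.T08

/-! R5: a quiver with a unique non-degenerate potential has no triangle of minimal mutation-cyclic type. `exists_fullSub`: in a 2-acyclic quiver `Q.B u v = a > 0` is the number of
arrows `u → v`, and there are no other arrows between `u`, `v`, `w`. `no_min`: up to rotation `c` is the largest of `a`, `b`, `c`. If all are at least 3 then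
`a² + b² + c² ≤ abc` (`min_arith`, after sorting) and `orbit_thin`; if one of them is 2 then, up to rotation, the triple is `(2, b, b)` (from the three inequalities), and
`orbit_thin_pencil` (`b ≥ 4`) with `not_RG_of_thin`, or `not_RG_two` (`b = 2, 3`). -/

set_option autoImplicit false

namespace Cea.N

variable {n : ℕ}

theorem R5_two {Q : Quiv (Fin n)} (hu : UniquePot Q) : Q.TwoAcyclic := by
  obtain ⟨W, hW, hN, _⟩ := hu
  exact hN ⟨Q, W, hW⟩ Relation.ReflTransGen.refl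

theorem R5_na {Q : Quiv (Fin n)} (h2 : Q.TwoAcyclic) {x y : Fin n} {a : ℕ} (ha : 0 < a) (h : Q.B x y = a) :
    na Q x y = a ∧ na Q y x = 0 := by
  have h1 := (twoAcyclic_iff Q).1 h2 x y
  rw [B_eq_na] at h
  omega

theorem R5_equiv (Q : Quiv (Fin n)) {x y : Fin n} {a : ℕ} (h : na Q x y = a) :
    Nonempty (Fin a ≃ {z : Q.A // Q.s z = x ∧ Q.t z = y}) := by
  rw [Q1_na_card] at h
  exact ⟨(Fintype.equivFinOfCardEq h).symm⟩

theorem exists_fullSub {Q : Quiv (Fin n)} (h2 : Q.TwoAcyclic) {u v w : Fin n} (huv : u ≠ v) (hvw : v ≠ w)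
    (hwu : w ≠ u) {a b c : ℕ} (ha : 0 < a) (hb : 0 < b) (hc : 0 < c) (h1 : Q.B u v = a) (h3 : Q.B v w = b)
    (h4 : Q.B w u = c) : ∃ ι : (Tq u v w a b c).A → Q.A, FullSub (Tq u v w a b c) Q ι {u, v, w} := by
  obtain ⟨n1, n1'⟩ := R5_na h2 ha h1
  obtain ⟨n2, n2'⟩ := R5_na h2 hb h3
  obtain ⟨n3, n3'⟩ := R5_na h2 hc h4
  obtain ⟨e1⟩ := R5_equiv Q n1
  obtain ⟨e2⟩ := R5_equiv Q n2
  obtain ⟨e3⟩ := R5_equiv Q n3
  refine ⟨Sum.elim (fun i => (e1 i).1) (Sum.elim (fun i => (e2 i).1) fun i => (e3 i).1), ?_, ?_, ?_, ?_, ?_⟩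
  · rintro (i | i | i) (j | j | j) hij
    · exact congrArg Sum.inl (e1.injective (Subtype.ext hij))
    · exfalso
      have h5 : (e1 i).1 = (e2 j).1 := hij
      exact huv ((e1 i).2.1.symm.trans ((congrArg Q.s h5).trans (e2 j).2.1))
    · exfalso
      have h5 : (e1 i).1 = (e3 j).1 := hij
      exact hwu ((e3 j).2.1.symm.trans ((congrArg Q.s h5.symm).trans (e1 i).2.1))
    · exfalso
      have h5 : (e2 i).1 = (e1 j).1 := hij
      exact huv ((e1 j).2.1.symm.trans ((congrArg Q.s h5.symm).trans (e2 i).2.1))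
    · exact congrArg (fun z => Sum.inr (Sum.inl z)) (e2.injective (Subtype.ext hij))
    · exfalso
      have h5 : (e2 i).1 = (e3 j).1 := hij
      exact hvw ((e2 i).2.1.symm.trans ((congrArg Q.s h5).trans (e3 j).2.1))
    · exfalso
      have h5 : (e3 i).1 = (e1 j).1 := hij
      exact hwu ((e3 i).2.1.symm.trans ((congrArg Q.s h5).trans (e1 j).2.1))
    · exfalso
      have h5 : (e3 i).1 = (e2 j).1 := hij
      exact hvw ((e2 j).2.1.symm.trans ((congrArg Q.s h5.symm).trans (e3 i).2.1))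
    · exact congrArg (fun z => Sum.inr (Sum.inr z)) (e3.injective (Subtype.ext hij))
  · rintro (i | i | i)
    · exact (e1 i).2.1
    · exact (e2 i).2.1
    · exact (e3 i).2.1
  · rintro (i | i | i)
    · exact (e1 i).2.2
    · exact (e2 i).2.2
    · exact (e3 i).2.2
  · rintro (i | i | i)
    · exact ⟨Or.inl rfl, Or.inr (Or.inl rfl)⟩
    · exact ⟨Or.inr (Or.inl rfl), Or.inr (Or.inr rfl)⟩
    · exact ⟨Or.inr (Or.inr rfl), Or.inl rfl⟩
  · intro z hs ht
    have hloop : Q.s z ≠ Q.t z := fun h => h2 z z ⟨h.symm, h.symm⟩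
    have hs' : Q.s z = u ∨ Q.s z = v ∨ Q.s z = w := hs
    have ht' : Q.t z = u ∨ Q.t z = v ∨ Q.t z = w := ht
    rcases hs' with h5 | h5 | h5 <;> rcases ht' with h6 | h6 | h6
    · exact absurd (h5.trans h6.symm) hloop
    · refine ⟨Sum.inl (e1.symm ⟨z, h5, h6⟩), ?_⟩
      show (e1 (e1.symm ⟨z, h5, h6⟩)).1 = z
      rw [Equiv.apply_symm_apply]
    · exact absurd ⟨h5, h6⟩ ((Q1_na_zero Q u w).1 n3' z)
    · exact absurd ⟨h5, h6⟩ ((Q1_na_zero Q v u).1 n1' z)
    · exact absurd (h5.trans h6.symm) hloop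
    · refine ⟨Sum.inr (Sum.inl (e2.symm ⟨z, h5, h6⟩)), ?_⟩
      show (e2 (e2.symm ⟨z, h5, h6⟩)).1 = z
      rw [Equiv.apply_symm_apply]
    · refine ⟨Sum.inr (Sum.inr (e3.symm ⟨z, h5, h6⟩)), ?_⟩
      show (e3 (e3.symm ⟨z, h5, h6⟩)).1 = z
      rw [Equiv.apply_symm_apply]
    · exact absurd ⟨h5, h6⟩ ((Q1_na_zero Q w v).1 n2' z)
    · exact absurd (h5.trans h6.symm) hloop

theorem no_thin {Q : Quiv (Fin n)} (hu : UniquePot Q) {u v w : Fin n} (huv : u ≠ v) (hvw : v ≠ w) (hwu : w ≠ u)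
    {a b c : ℕ} (ha : 0 < a) (hb : 0 < b) (hc : 0 < c) (h1 : Q.B u v = a) (h3 : Q.B v w = b) (h4 : Q.B w u = c)
    (h : a ^ 2 + b ^ 2 + c ^ 2 ≤ a * b * c) : False := by
  obtain ⟨ι, hι⟩ := exists_fullSub (R5_two hu) huv hvw hwu ha hb hc h1 h3 h4
  obtain ⟨W₀, hW₀, hR⟩ := RG_of_unique hu hι
  exact not_RG_of_thin huv hvw hwu (fun T₀ => orbit_thin ha hb hc h T₀) hW₀ hR

theorem no_pencil {Q : Quiv (Fin n)} (hu : UniquePot Q) {u v w : Fin n} (huv : u ≠ v) (hvw : v ≠ w) (hwu : w ≠ u)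
    {b : ℕ} (hb : 2 ≤ b) (h1 : Q.B u v = 2) (h3 : Q.B v w = b) (h4 : Q.B w u = b) : False := by
  have h1' : Q.B u v = ((2 : ℕ) : ℤ) := h1
  obtain ⟨ι, hι⟩ := exists_fullSub (R5_two hu) huv hvw hwu (by norm_num) (by omega) (by omega) h1' h3 h4
  obtain ⟨W₀, hW₀, hR⟩ := RG_of_unique hu hι
  by_cases h5 : 4 ≤ b
  · exact not_RG_of_thin huv hvw hwu (fun T₀ => orbit_thin_pencil h5 T₀) hW₀ hR
  · exact not_RG_two (by omega) huv hvw hwu hW₀ hR

theorem R5_arith {a b c : ℕ} (ha : 3 ≤ a) (hb : 3 ≤ b) (hc : 3 ≤ c)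
    (m1 : 2 * c ≤ a * b) (m2 : 2 * a ≤ b * c) (m3 : 2 * b ≤ c * a) : a ^ 2 + b ^ 2 + c ^ 2 ≤ a * b * c := by
  rcases le_total a b with hab | hab <;> rcases le_total b c with hbc | hbc <;> rcases le_total a c with hac | hac
  · exact min_arith ha hab hbc m1
  · exact min_arith ha hab hbc m1
  · have := min_arith ha hac hbc (by rw [mul_comm a c]; exact m3)
    nlinarith
  · have := min_arith hc hac hab (by exact m3)
    nlinarith
  · have := min_arith hb hab hac (by rw [mul_comm b a]; exact m1)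
    nlinarith
  · have := min_arith hb hbc hac (by exact m2)
    nlinarith
  · have := min_arith hc hbc hab (by rw [mul_comm c b]; exact m2)
    nlinarith
  · have := min_arith hc hbc hab (by rw [mul_comm c b]; exact m2)
    nlinarith

theorem no_min {Q : Quiv (Fin n)} (hu : UniquePot Q) {u v w : Fin n} (huv : u ≠ v) (hvw : v ≠ w) (hwu : w ≠ u)
    {a b c : ℕ} (ha : 2 ≤ a) (hb : 2 ≤ b) (hc : 2 ≤ c) (h1 : Q.B u v = a) (h3 : Q.B v w = b) (h4 : Q.B w u = c)
    (m1 : 2 * c ≤ a * b) (m2 : 2 * a ≤ b * c) (m3 : 2 * b ≤ c * a) : False := by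
  by_cases ha3 : a = 2
  · subst ha3
    have h5 : b = c := by omega
    subst h5
    exact no_pencil hu huv hvw hwu hb h1 h3 h4
  by_cases hb3 : b = 2
  · subst hb3
    have h5 : a = c := by omega
    subst h5
    exact no_pencil hu hvw hwu huv ha h3 h4 h1
  by_cases hc3 : c = 2
  · subst hc3
    have h5 : a = b := by omega
    subst h5
    exact no_pencil hu hwu huv hvw ha h4 h1 h3
  exact no_thin hu huv hvw hwu (by omega) (by omega) (by omega) h1 h3 h4
    (R5_arith (by omega) (by omega) (by omega) m1 m2 m3)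

end Cea.N
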