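import Pool.Agent.Lib.MP_cea156_al.N.R5
import Pool.Agent.Lib.MP_cea156_al.N.M3b

/-! R6: descent to minimal triples. Strong induction on `a + b + c`. If `a * b < 2 * c`, mutate at `v` (`uniquePot_mut`): the new matrix has `B w v = b`, `B v u = a`,
`B u w = a * b - c` (`mutB`, `Q.B` skew-symmetric), and `MC (a * b - c) b a` (`MC_cas`), a smaller triple; similarly for the two other directions after a rotation
(`MC_rot`). Otherwise `no_min`. -/

set_option autoImplicit false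

namespace Cea.N

theorem R6_skew {n : ℕ} (Q : Quiv (Fin n)) (i j : Fin n) : Q.B i j = -Q.B j i := by
  unfold Quiv.B
  ring

/-- the descent step: mutation at the middle vertex -/
theorem R6_step {n : ℕ} (N : ℕ)
    (ih : ∀ {Q : Quiv (Fin n)}, UniquePot Q → ∀ {u v w : Fin n}, u ≠ v → v ≠ w → w ≠ u →
      ∀ {a b c : ℕ}, a + b + c ≤ N → MC a b c → Q.B u v = a → Q.B v w = b → Q.B w u = c → False)
    {Q : Quiv (Fin n)} (hu : UniquePot Q) {u v w : Fin n} (huv : u ≠ v) (hvw : v ≠ w)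
    (hwu : w ≠ u) {a b c : ℕ} (hN : a + b + c ≤ N + 1) (h : MC a b c) (h1 : Q.B u v = a)
    (h3 : Q.B v w = b) (h4 : Q.B w u = c) (hlt : a * b < 2 * c) : False := by
  obtain ⟨Q₁, -, hB, hu₁⟩ := uniquePot_mut hu v
  have h5 : MC (a * b - c) b a := MC_cas h
  have h6 : 2 ≤ a * b - c := (MC_two h5).1
  have h7 : Q₁.B u w = ((a * b - c : ℕ) : ℤ) := by
    rw [hB]
    unfold mutB
    rw [if_neg (by rintro (h | h); exacts [huv h, hvw h.symm]), R6_skew Q u w, h4, h1, h3,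
      Nat.cast_sub (by omega), Nat.cast_mul, max_eq_left (Int.natCast_nonneg a),
      max_eq_left (Int.natCast_nonneg b), max_eq_right (by omega : -(a : ℤ) ≤ 0)]
    ring
  have h8 : Q₁.B w v = (b : ℤ) := by
    rw [hB]
    unfold mutB
    rw [if_pos (Or.inr rfl), ← R6_skew, h3]
  have h9 : Q₁.B v u = (a : ℤ) := by
    rw [hB]
    unfold mutB
    rw [if_pos (Or.inl rfl), ← R6_skew, h1]
  exact ih hu₁ hwu.symm hvw.symm huv.symm (by omega) h5 h7 h8 h9

theorem no_MC {n : ℕ} (N : ℕ) {Q : Quiv (Fin n)} (hu : UniquePot Q) {u v w : Fin n} (huv : u ≠ v) (hvw : v ≠ w)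
    (hwu : w ≠ u) {a b c : ℕ} (hN : a + b + c ≤ N) (h : MC a b c) (h1 : Q.B u v = a) (h3 : Q.B v w = b)
    (h4 : Q.B w u = c) : False := by
  induction N generalizing Q u v w a b c with
  | zero =>
    have := (MC_two h).1
    omega
  | succ N ih =>
    have ih' : ∀ {Q : Quiv (Fin n)}, UniquePot Q → ∀ {u v w : Fin n}, u ≠ v → v ≠ w → w ≠ u →
        ∀ {a b c : ℕ}, a + b + c ≤ N → MC a b c → Q.B u v = a → Q.B v w = b → Q.B w u = c → False :=
      fun {Q} h1 {u v w} h2 h3 h4 {a b c} h5 h6 h7 h8 h9 => ih h1 h2 h3 h4 h5 h6 h7 h8 h9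
    rcases lt_or_ge (a * b) (2 * c) with m1 | m1
    · exact R6_step N ih' hu huv hvw hwu hN h h1 h3 h4 m1
    rcases lt_or_ge (b * c) (2 * a) with m2 | m2
    · exact R6_step N ih' hu hvw hwu huv (by omega) (MC_rot h) h3 h4 h1 m2
    rcases lt_or_ge (c * a) (2 * b) with m3 | m3
    · exact R6_step N ih' hu hwu huv hvw (by omega) (MC_rot (MC_rot h)) h4 h1 h3 m3
    obtain ⟨ha, hb, hc⟩ := MC_two h
    exact no_min hu huv hvw hwu ha hb hc h1 h3 h4 m1 m2 m3

end Cea.N
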