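import Pool.Agent.Lib.MP_cea156_al.N.U2a

/-! U2c: a fixed point. `G a = Dec inr (E - ∑_b G b * subst (Sum.elim (X ∘ inl) G) (K b)) a`, by `exists_fix` with
`M = Q.A → R`. To have honest contractions use the operator which replaces `G` by its restriction `G'` to words with at least one letter
`inr` which are paths from `s a` to `t a` in `th Q`: then `G' b` has no constant term, `subst (Sum.elim (X ∘ inl) G') (K b)` has only words
of length at least 2 and its coefficients at words of length `l` only depend on `G'` at shorter words (`subst_congr_short`). At the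
fixed point `G = G'`, because `Dec` of the right-hand side is supported on such words (`Mk_dec`). -/

set_option autoImplicit false

namespace Cea.N

open Finset

section aux

variable {A R : Type} [CommRing R] [Algebra ℚ R]

theorem U2c_nmk_nil : nmk (Sum.inr : A → A ⊕ A) [] = 0 := rfl

theorem U2c_nmk_inl (c : A) : nmk (Sum.inr : A → A ⊕ A) [Sum.inl c] = 0 := by
  classical
  unfold nmk
  rw [List.filter_cons_of_neg (by simp)]
  rfl

theorem U2c_nmk_inr (c : A) : nmk (Sum.inr : A → A ⊕ A) [Sum.inr c] = 1 := by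
  classical
  unfold nmk
  rw [List.filter_cons_of_pos (by simp)]
  rfl

theorem U2c_Mk_zero (F : NC (A ⊕ A) R) : Mk (Sum.inr : A → A ⊕ A) 0 F := fun _ _ => Nat.zero_le _

theorem U2c_Mk_wordSub [Fintype A] [DecidableEq A] {φ : A ⊕ A → NC (A ⊕ A) R}
    (hφ : ∀ c, Mk (Sum.inr : A → A ⊕ A) 1 (φ (Sum.inr c))) (u : List (A ⊕ A)) :
    Mk (Sum.inr : A → A ⊕ A) (nmk (Sum.inr : A → A ⊕ A) u) (wordSub φ u) := by
  induction u with
  | nil => exact U2c_Mk_zero _
  | cons a u ih =>
    have e : nmk (Sum.inr : A → A ⊕ A) (a :: u) = nmk (Sum.inr : A → A ⊕ A) [a] + nmk (Sum.inr : A → A ⊕ A) u :=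
      nmk_append _ [a] u
    rw [e]
    refine Mk_mul ?_ ih
    cases a with
    | inl c => rw [U2c_nmk_inl]; exact U2c_Mk_zero _
    | inr c => rw [U2c_nmk_inr]; exact hφ c

theorem U2c_Mk_subst [Fintype A] [DecidableEq A] {φ : A ⊕ A → NC (A ⊕ A) R} (hz : Z0 φ)
    (hφ : ∀ c, Mk (Sum.inr : A → A ⊕ A) 1 (φ (Sum.inr c))) {n : ℕ} {f : NC (A ⊕ A) R}
    (hf : Mk (Sum.inr : A → A ⊕ A) n f) : Mk (Sum.inr : A → A ⊕ A) n (subst φ f) := by
  intro w hw
  rw [subst_apply hz f w le_rfl] at hw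
  obtain ⟨u, -, hu⟩ := exists_ne_zero_of_sum_ne_zero hw
  exact (hf u (left_ne_zero_of_mul hu)).trans (U2c_Mk_wordSub hφ u w (right_ne_zero_of_mul hu))

end aux

theorem exists_G {V R : Type} [DecidableEq V] [CommRing R] [Algebra ℚ R] {Q : Quiv V} {K : Q.A → NC (Q.A ⊕ Q.A) R}
    (hK : ∀ a, Mk (Sum.inr : Q.A → Q.A ⊕ Q.A) 1 (K a)) (hK2 : ∀ a, Len 2 (K a))
    (hK3 : ∀ a, Sup (dq Q) (Q.t a) (Q.s a) (K a)) {E : NC (th Q).A R} (hE : Pot (th Q) E)
    (h2 : Mk (Sum.inr : Q.A → Q.A ⊕ Q.A) 2 E) :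
    ∃ G : Q.A → NC (Q.A ⊕ Q.A) R, (∀ a, Mk (Sum.inr : Q.A → Q.A ⊕ Q.A) 1 (G a)) ∧
      (∀ a, Sup (th Q) (Q.s a) (Q.t a) (G a)) ∧
      cyc (∑ a, (G a * (X (Sum.inr a) : NC (Q.A ⊕ Q.A) R) +
        G a * subst (Sum.elim (fun c => (X (Sum.inl c) : NC (Q.A ⊕ Q.A) R)) G) (K a))) = cyc E := by
  classical
  have : Inhabited (Q.A → R) := ⟨0⟩
  -- the restriction
  let cut : (List (Q.A ⊕ Q.A) → Q.A → R) → Q.A → NC (Q.A ⊕ Q.A) R := fun g b w =>
    if 1 ≤ nmk (Sum.inr : Q.A → Q.A ⊕ Q.A) w ∧ (th Q).IsPath (Q.s b) w (Q.t b) then g w b else 0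
  let ph : (List (Q.A ⊕ Q.A) → Q.A → R) → Q.A ⊕ Q.A → NC (Q.A ⊕ Q.A) R := fun g =>
    Sum.elim (fun c => (X (Sum.inl c) : NC (Q.A ⊕ Q.A) R)) (cut g)
  let RH : (List (Q.A ⊕ Q.A) → Q.A → R) → NC (Q.A ⊕ Q.A) R := fun g =>
    E - ∑ b, cut g b * subst (ph g) (K b)
  have hcutM : ∀ g b, Mk (Sum.inr : Q.A → Q.A ⊕ Q.A) 1 (cut g b) := by
    intro g b w hw
    by_contra h
    exact hw (if_neg fun h2 => h h2.1)
  have hcutS : ∀ g b, Sup (th Q) (Q.s b) (Q.t b) (cut g b) := by
    intro g b w hw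
    by_contra h
    exact hw (if_neg fun h2 => h h2.2)
  have hcut0 : ∀ g b, cut g b [] = 0 := by
    intro g b
    by_contra h
    have := hcutM g b [] h
    rw [U2c_nmk_nil] at this
    omega
  have hph0 : ∀ g, Z0 (ph g) := by
    intro g a
    cases a with
    | inl c => rfl
    | inr c => exact hcut0 g c
  have hphS : ∀ g, PS (dq Q) (th Q) (ph g) := by
    intro g a
    cases a with
    | inl c => exact Sup_X (th Q) (Sum.inl c)
    | inr c => exact hcutS g c
  have hSM : ∀ g b, Mk (Sum.inr : Q.A → Q.A ⊕ Q.A) 1 (subst (ph g) (K b)) := fun g b =>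
    U2c_Mk_subst (hph0 g) (fun c => hcutM g c) (hK b)
  have hSS : ∀ g b, Sup (th Q) (Q.t b) (Q.s b) (subst (ph g) (K b)) := fun g b =>
    Sup_subst (hph0 g) (hphS g) (hK3 b)
  have hRM : ∀ g, Mk (Sum.inr : Q.A → Q.A ⊕ Q.A) 2 (RH g) := by
    intro g w hw
    by_cases hE0 : E w = 0
    · have h1 : (∑ b, cut g b * subst (ph g) (K b)) w ≠ 0 := by
        intro h0
        apply hw
        show (E - ∑ b, cut g b * subst (ph g) (K b)) w = 0
        rw [sub_apply, hE0, h0, sub_zero]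
      rw [finsetSum_apply] at h1
      obtain ⟨b, -, hb⟩ := exists_ne_zero_of_sum_ne_zero h1
      exact Mk_mul (hcutM g b) (hSM g b) w hb
    · exact h2 w hE0
  have hRP : ∀ g, Pot (th Q) (RH g) := by
    intro g w hw
    by_cases hE0 : E w = 0
    · have h1 : (∑ b, cut g b * subst (ph g) (K b)) w ≠ 0 := by
        intro h0
        apply hw
        show (E - ∑ b, cut g b * subst (ph g) (K b)) w = 0
        rw [sub_apply, hE0, h0, sub_zero]
      rw [finsetSum_apply] at h1
      obtain ⟨b, -, hb⟩ := exists_ne_zero_of_sum_ne_zero h1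
      refine ⟨?_, Q.s b, Sup_mul (hcutS g b) (hSS g b) w hb⟩
      rintro rfl
      rw [mul_nil, hcut0, zero_mul] at hb
      exact hb rfl
    · exact hE w hE0
  obtain ⟨g, hg⟩ := exists_fix (fun (g : List (Q.A ⊕ Q.A) → Q.A → R) w a =>
    Dec (Sum.inr : Q.A → Q.A ⊕ Q.A) (RH g) a w) (by
    intro f g w hfg
    funext a
    refine dec_congr _ a w ?_
    intro u hu
    have hcc : ∀ b (v : List (Q.A ⊕ Q.A)), v.length < w.length → cut f b v = cut g b v := by
      intro b v hv
      show (if _ then f v b else 0) = (if _ then g v b else 0)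
      rw [hfg v hv]
    have hpc : ∀ a (v : List (Q.A ⊕ Q.A)), v.length < w.length → ph f a v = ph g a v := by
      intro a v hv
      cases a with
      | inl c => rfl
      | inr c => exact hcc c v hv
    show (E - ∑ b, cut f b * subst (ph f) (K b)) u = (E - ∑ b, cut g b * subst (ph g) (K b)) u
    rw [sub_apply, sub_apply, finsetSum_apply, finsetSum_apply]
    congr 1
    refine sum_congr rfl fun b _ => ?_
    rw [mul_apply, mul_apply]
    refine sum_congr rfl fun k hk => ?_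
    rw [mem_range] at hk
    rcases Nat.eq_zero_or_pos k with rfl | hk0
    · rw [List.take_zero, hcut0, hcut0, zero_mul, zero_mul]
    · have hdl : (u.drop k).length = u.length - k := List.length_drop
      have e1 : subst (ph f) (K b) (u.drop k) = subst (ph g) (K b) (u.drop k) := by
        refine subst_congr_short (hph0 f) (hph0 g) (hK2 b) fun a v hv => hpc a v ?_
        omega
      rw [e1]
      by_cases h0 : subst (ph g) (K b) (u.drop k) = 0
      · rw [h0, mul_zero, mul_zero]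
      · have hl := len_subst (hph0 g) (hK2 b) _ h0
        have htl : (u.take k).length = min k u.length := List.length_take
        rw [hcc b (u.take k) (by omega)])
  have hgv : ∀ w a, Dec (Sum.inr : Q.A → Q.A ⊕ Q.A) (RH g) a w = g w a := fun w a =>
    congrFun (congrFun hg w) a
  have hcg : ∀ b, (fun w => g w b) = cut g b := by
    intro b
    funext w
    show g w b = if _ then g w b else 0
    split_ifs with h
    · rfl
    · by_contra hne
      apply h
      rw [← hgv] at hne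
      refine ⟨Mk_dec (hRM g) b w hne, ?_⟩
      have h3 : cyc (RH g) (Sum.inr b :: w) ≠ 0 := right_ne_zero_of_mul hne
      obtain ⟨-, i, h4, h5⟩ := Pot_cyc (hRP g) _ h3
      have h6 : Q.t b = i := h4
      rw [← h6] at h5
      exact h5
  have hD : ∀ a, cut g a = Dec (Sum.inr : Q.A → Q.A ⊕ Q.A) (RH g) a := by
    intro a
    rw [← hcg]
    funext w
    exact (hgv w a).symm
  refine ⟨cut g, hcutM g, hcutS g, ?_⟩
  have h7 : cyc (∑ a, (X (Sum.inr a) : NC (Q.A ⊕ Q.A) R) * Dec (Sum.inr : Q.A → Q.A ⊕ Q.A) (RH g) a) =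
      cyc (RH g) := by
    refine cyc_dec Sum.inr_injective (RH g) fun w hw => ?_
    by_contra h
    have := Mk_cyc (hRM g) w h
    omega
  have h8 : cyc (∑ a, cut g a * (X (Sum.inr a) : NC (Q.A ⊕ Q.A) R)) = cyc (RH g) := by
    rw [← h7, cyc_sum, cyc_sum]
    refine sum_congr rfl fun a _ => ?_
    rw [cyc_mul_comm, hD]
  rw [sum_add_distrib, cyc_add, h8, ← cyc_add]
  congr 1
  show E - ∑ b, cut g b * subst (ph g) (K b) + ∑ a, cut g a * subst (ph g) (K a) = E
  exact sub_add_cancel _ _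

end Cea.N
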