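import Pool.Agent.Lib.MP_cea156_al.N.U2c

/-! U2d: potentials which differ by an element of the square of the Jacobian ideal are right equivalent. Take `K` from `taylor`, `G` from
`exists_G`, `ψ a = subst (ev S) (G a)` (length at least 2) and the substitution `a ↦ X a + ψ a` (`Iso_of_id_add`). -/

set_option autoImplicit false

namespace Cea.N

open Finset

/-- `inl a ↦ a`, `inr a ↦ ∂_a S` -/
def ev {A R : Type} [CommRing R] [DecidableEq A] (S : NC A R) : A ⊕ A → NC A R := Sum.elim X fun a => der a S

theorem U2d_len_mul {A R : Type} [CommRing R] {m n : ℕ} {f g : NC A R} (hf : Len m f) (hg : Len n g) :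
    Len (m + n) (f * g) := by
  intro w hw
  rw [mul_apply] at hw
  obtain ⟨k, hk, hne⟩ := Finset.exists_ne_zero_of_sum_ne_zero hw
  have h1 := hf _ (left_ne_zero_of_mul hne)
  have h2 := hg _ (right_ne_zero_of_mul hne)
  rw [List.length_take] at h1
  rw [List.length_drop] at h2
  rw [Finset.mem_range] at hk
  omega

theorem U2d_len_X {A R : Type} [CommRing R] [DecidableEq A] (a : A) : Len 1 (X a : NC A R) := by
  intro w hw
  unfold X mon at hw
  split_ifs at hw with h
  · rw [h]
    exact le_refl 1
  · exact absurd rfl hw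

theorem U2d_nmk_nil {A : Type} : nmk (Sum.inr : A → A ⊕ A) [] = 0 := by
  unfold nmk
  rw [List.filter_nil, List.length_nil]

theorem U2d_nmk_inl {A : Type} (a : A) (u : List (A ⊕ A)) :
    nmk (Sum.inr : A → A ⊕ A) (Sum.inl a :: u) = nmk (Sum.inr : A → A ⊕ A) u := by
  unfold nmk
  rw [List.filter_cons_of_neg]
  simp

theorem U2d_nmk_inr {A : Type} (a : A) (u : List (A ⊕ A)) :
    nmk (Sum.inr : A → A ⊕ A) (Sum.inr a :: u) = nmk (Sum.inr : A → A ⊕ A) u + 1 := by
  unfold nmk
  rw [List.filter_cons_of_pos]
  · rw [List.length_cons]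
  · simp

theorem U2d_len_wordSub {A R : Type} [CommRing R] [Fintype A] [DecidableEq A] {S : NC A R} (h3 : Len 3 S)
    (u : List (A ⊕ A)) : Len (u.length + nmk (Sum.inr : A → A ⊕ A) u) (wordSub (ev S) u) := by
  induction u with
  | nil =>
    intro w _
    rw [U2d_nmk_nil]
    exact Nat.zero_le _
  | cons x u ih =>
    cases x with
    | inl a =>
      have h := U2d_len_mul (U2d_len_X (R := R) a) ih
      rw [List.length_cons, U2d_nmk_inl]
      have e : u.length + 1 + nmk (Sum.inr : A → A ⊕ A) u = 1 + (u.length + nmk (Sum.inr : A → A ⊕ A) u) := by omega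
      rw [e]
      exact h
    | inr a =>
      have h := U2d_len_mul (len_der (n := 2) h3 a) ih
      rw [List.length_cons, U2d_nmk_inr]
      have e : u.length + 1 + (nmk (Sum.inr : A → A ⊕ A) u + 1) = 2 + (u.length + nmk (Sum.inr : A → A ⊕ A) u) := by
        omega
      rw [e]
      exact h

theorem U2d_z0_ev {A R : Type} [CommRing R] [DecidableEq A] {S : NC A R} (h3 : Len 3 S) : Z0 (ev S) := by
  intro x
  by_contra hne
  cases x with
  | inl a =>
    have h := U2d_len_X (R := R) a [] hne
    rw [List.length_nil] at h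
    omega
  | inr a =>
    have h := len_der (n := 2) h3 a [] hne
    rw [List.length_nil] at h
    omega

theorem len_ev {A R : Type} [CommRing R] [Fintype A] [DecidableEq A] {S : NC A R} (h3 : Len 3 S) {G : NC (A ⊕ A) R}
    (hG : Mk (Sum.inr : A → A ⊕ A) 1 G) : Len 2 (subst (ev S) G) := by
  intro w hw
  rw [subst_apply (U2d_z0_ev h3) G w (le_refl _)] at hw
  obtain ⟨u, _, hne⟩ := Finset.exists_ne_zero_of_sum_ne_zero hw
  have h1 := hG _ (left_ne_zero_of_mul hne)
  have h2 := U2d_len_wordSub h3 u _ (right_ne_zero_of_mul hne)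
  have h4 : 1 ≤ u.length := by
    cases u with
    | nil => rw [U2d_nmk_nil] at h1; omega
    | cons x u => rw [List.length_cons]; omega
  omega

theorem moser {V R : Type} [DecidableEq V] [CommRing R] [Algebra ℚ R] {Q : Quiv V} {S : NC Q.A R} (hS : Pot Q S)
    (h3 : Len 3 S) {E : NC (th Q).A R} (hE : Pot (th Q) E) (h2 : Mk (Sum.inr : Q.A → Q.A ⊕ Q.A) 2 E) :
    RE Q Q S (S + subst (ev S) E) := by
  obtain ⟨K, hK1, hK2, hK3, hT⟩ := taylor hS h3
  obtain ⟨G, hG1, hG2, hG3⟩ := exists_G hK1 hK2 hK3 hE h2
  have hz : Z0 (ev S) := U2d_z0_ev h3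
  have hG0 : ∀ a, G a [] = 0 := by
    intro a
    by_contra hne
    have h := hG1 a [] hne
    rw [U2d_nmk_nil] at h
    omega
  have hzG : Z0 (Sum.elim (fun c => (X (Sum.inl c) : NC (Q.A ⊕ Q.A) R)) G) := by
    intro x
    cases x with
    | inl a =>
      by_contra hne
      have h := U2d_len_X (R := R) (Sum.inl a : Q.A ⊕ Q.A) [] hne
      rw [List.length_nil] at h
      omega
    | inr a => exact hG0 a
  have hzX : Z0 (fun a => (X a : NC Q.A R)) := by
    intro a
    by_contra hne
    have h := U2d_len_X (R := R) a [] hne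
    rw [List.length_nil] at h
    omega
  have hlψ : ∀ a, Len 2 (subst (ev S) (G a)) := fun a => len_ev h3 (hG1 a)
  have hzψ : Z0 (fun a => subst (ev S) (G a)) := by
    intro a
    by_contra hne
    have h := hlψ a [] hne
    rw [List.length_nil] at h
    omega
  have hps : PS (th Q) Q (ev S) := by
    intro x
    cases x with
    | inl a => exact Sup_X Q a
    | inr a => exact Sup_der hS a
  refine ⟨fun a => X a + subst (ev S) (G a), ?_, ?_⟩
  · refine Iso_of_id_add ?_ ?_
    · intro a
      exact Sup_add (Sup_X Q a) (Sup_subst (Q := th Q) hz hps (hG2 a))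
    · intro a
      show Len 2 (X a + subst (ev S) (G a) - X a)
      rw [add_sub_cancel_left]
      exact hlψ a
  · rw [hT Q.A (fun a => X a) (fun a => subst (ev S) (G a)) hzX hzψ]
    have e1 : cyc (subst (ev S) E) = cyc (∑ a, (subst (ev S) (G a) * der a S +
        subst (ev S) (G a) * subst (Sum.elim (fun a => X a) fun a => subst (ev S) (G a)) (K a))) := by
      rw [← cyc_subst_congr hz hG3, subst_sum]
      refine congrArg cyc (Finset.sum_congr rfl fun a _ => ?_)
      rw [subst_add, subst_mul hz, subst_mul hz, subst_X hz, subst_subst hzG hz]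
      have e2 : (fun x => subst (ev S) ((Sum.elim (fun c => (X (Sum.inl c) : NC (Q.A ⊕ Q.A) R)) G) x)) =
          Sum.elim (fun a => X a) fun a => subst (ev S) (G a) := by
        funext x
        cases x with
        | inl c =>
          show subst (ev S) (X (Sum.inl c)) = X c
          rw [subst_X hz]
          rfl
        | inr c => rfl
      rw [e2]
      rfl
    rw [cyc_add, cyc_add, cyc_add, e1, subst_id, Finset.sum_add_distrib, cyc_add]
    have e3 : ∑ a, subst (ev S) (G a) * subst (fun a => X a) (der a S) = ∑ a, subst (ev S) (G a) * der a S :=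
      Finset.sum_congr rfl fun a _ => by rw [subst_id]
    rw [e3, add_assoc]

end Cea.N
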