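import Pool.Agent.Lib.MP_cea156_al.N.A7

/-! U3: the restriction to the reduced parts of an isomorphism of sums of reduced and trivial quivers with potential is an
isomorphism. Matrices: from `Lᵀ 𝒥 L = 𝒥'` one gets `Lᵀ 𝒥 = 𝒥' N`; compare the blocks `(A', P)` and `(P', A)`: `L₂₁ = 0`, `N₂₁ = 0`. -/

set_option autoImplicit false

namespace Cea.N

open Finset Matrix

theorem block_inv {A P A' P' R : Type} [Fintype A] [DecidableEq A] [Fintype P] [DecidableEq P] [Fintype A']
    [DecidableEq A'] [Fintype P'] [DecidableEq P'] [CommRing R] {L : Matrix (A ⊕ P) (A' ⊕ P') R}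
    {N : Matrix (A' ⊕ P') (A ⊕ P) R} (h1 : L * N = 1) (h2 : N * L = 1) {J : Matrix P P R} (hJ : J * J = 1)
    {J' : Matrix P' P' R} (hJ' : J' * J' = 1) (h : Lᵀ * (fromBlocks 0 0 0 J : Matrix (A ⊕ P) (A ⊕ P) R) * L =
      (fromBlocks 0 0 0 J' : Matrix (A' ⊕ P') (A' ⊕ P') R)) :
    L.toBlocks₁₁ * N.toBlocks₁₁ = 1 ∧ N.toBlocks₁₁ * L.toBlocks₁₁ = 1 := by
  have e : Lᵀ * (fromBlocks 0 0 0 J : Matrix (A ⊕ P) (A ⊕ P) R) =
      (fromBlocks 0 0 0 J' : Matrix (A' ⊕ P') (A' ⊕ P') R) * N := by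
    rw [← h, Matrix.mul_assoc (Lᵀ * _) L N, h1, Matrix.mul_one]
  obtain ⟨L11, L12, L21, L22, rfl⟩ : ∃ L11 L12 L21 L22, L = fromBlocks L11 L12 L21 L22 :=
    ⟨_, _, _, _, (fromBlocks_toBlocks L).symm⟩
  obtain ⟨N11, N12, N21, N22, rfl⟩ : ∃ N11 N12 N21 N22, N = fromBlocks N11 N12 N21 N22 :=
    ⟨_, _, _, _, (fromBlocks_toBlocks N).symm⟩
  rw [fromBlocks_transpose, fromBlocks_multiply, fromBlocks_multiply, fromBlocks_inj] at e
  simp only [Matrix.mul_zero, Matrix.zero_mul, add_zero, zero_add] at e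
  obtain ⟨-, e12, e21, -⟩ := e
  have z1 : L21 = 0 := by
    have : L21ᵀ * J * J = 0 := by rw [e12, Matrix.zero_mul]
    rw [Matrix.mul_assoc, hJ, Matrix.mul_one] at this
    have h3 := congrArg Matrix.transpose this
    rwa [Matrix.transpose_transpose, Matrix.transpose_zero] at h3
  have z2 : N21 = 0 := by
    have : J' * (J' * N21) = 0 := by rw [← e21, Matrix.mul_zero]
    rwa [← Matrix.mul_assoc, hJ', Matrix.one_mul] at this
  rw [fromBlocks_multiply, ← fromBlocks_one, fromBlocks_inj] at h1 h2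
  simp only [toBlocks_fromBlocks₁₁]
  constructor
  · have := h1.1
    rwa [z2, Matrix.mul_zero, add_zero] at this
  · have := h2.1
    rwa [z1, Matrix.mul_zero, add_zero] at this

section kil

variable {A P R : Type} [CommRing R]

/-- remove the words which contain letters `inr` -/
def kil (f : NC (A ⊕ P) R) : NC A R := fun w => f (w.map Sum.inl)

theorem U3_wordSub [DecidableEq A] (u : List (A ⊕ P)) (w : List A) [Decidable (u = w.map Sum.inl)] :
    wordSub (Sum.elim (X : A → NC A R) fun _ : P => (0 : NC A R)) u w = if u = w.map Sum.inl then 1 else 0 := by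
  induction u generalizing w with
  | nil =>
    show (1 : NC A R) w = _
    cases w with
    | nil => rw [one_nil]; exact (if_pos rfl).symm
    | cons a w => rw [one_cons, if_neg (by simp)]
  | cons b u ih =>
    classical
    cases b with
    | inl b =>
      rw [show wordSub (Sum.elim (X : A → NC A R) fun _ : P => (0 : NC A R)) (Sum.inl b :: u) =
        (X b : NC A R) * wordSub (Sum.elim (X : A → NC A R) fun _ : P => (0 : NC A R)) u from rfl]
      cases w with
      | nil =>
        rw [mul_nil, if_neg (by simp)]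
        show (mon [b] : NC A R) [] * _ = 0
        rw [mon, if_neg (by simp), zero_mul]
      | cons a w =>
        rw [mul_cons]
        have h0 : (X b : NC A R) [] = 0 := by rw [X, mon, if_neg (by simp)]
        have h1 : shift a (X b : NC A R) = (if a = b then (1 : NC A R) else 0) := by
          ext v
          show (mon [b] : NC A R) (a :: v) = _
          by_cases hab : a = b
          · subst hab
            rw [if_pos rfl, mon, one_apply]
            cases v with
            | nil => simp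
            | cons c v => simp
          · rw [if_neg hab, mon, zero_apply, if_neg (by simp [hab])]
        rw [h0, zero_mul, zero_add, h1]
        by_cases hab : a = b
        · subst hab
          rw [if_pos rfl, one_mul, ih w]
          by_cases h : u = w.map Sum.inl
          · rw [if_pos h, if_pos (by rw [h]; rfl)]
          · rw [if_neg h, if_neg (by
              intro h'
              rw [List.map_cons, List.cons.injEq] at h'
              exact h h'.2)]
        · rw [if_neg hab, zero_mul, zero_apply, if_neg (by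
            intro h'
            rw [List.map_cons, List.cons.injEq] at h'
            exact hab (Sum.inl_injective h'.1).symm)]
    | inr b =>
      rw [show wordSub (Sum.elim (X : A → NC A R) fun _ : P => (0 : NC A R)) (Sum.inr b :: u) =
        (0 : NC A R) * wordSub (Sum.elim (X : A → NC A R) fun _ : P => (0 : NC A R)) u from rfl]
      rw [zero_mul, zero_apply, if_neg]
      intro h'
      cases w with
      | nil => simp at h'
      | cons a w => simp at h'

theorem kil_eq_subst [Fintype A] [Fintype P] [DecidableEq A] (f : NC (A ⊕ P) R) :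
    kil f = subst (Sum.elim X fun _ => 0) f := by
  classical
  ext w
  have hz : Z0 (Sum.elim (X : A → NC A R) fun _ : P => (0 : NC A R)) := by
    intro a
    cases a with
    | inl a =>
      show (mon [a] : NC A R) [] = 0
      rw [mon, if_neg (by simp)]
    | inr a => rfl
  rw [subst_apply hz f w (le_refl _), sum_eq_single (w.map Sum.inl)]
  · rw [U3_wordSub, if_pos rfl, mul_one]
    rfl
  · intro u _ hu
    rw [U3_wordSub, if_neg hu, mul_zero]
  · intro h
    exact absurd (mem_wds.2 (by rw [List.length_map])) h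

theorem cyc_kil (f : NC (A ⊕ P) R) : cyc (kil f) = kil (cyc f) := by
  ext w
  show ∑ k ∈ range w.length, f ((w.rotate k).map Sum.inl) =
    ∑ k ∈ range (w.map Sum.inl).length, f ((w.map Sum.inl).rotate k)
  rw [List.length_map]
  exact sum_congr rfl fun k _ => by rw [List.map_rotate]

end kil

variable {V R : Type} [DecidableEq V] [CommRing R]

theorem U3_wordSub_two {A B : Type} {φ : A → NC B R} (hφ : Z0 φ) (a b : A) (c d : B) :
    wordSub φ [a, b] [c, d] = φ a [c] * φ b [d] := by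
  have := wordSub_diag (R := R) hφ (n := 2) ![a, b] ![c, d]
  rw [Fin.prod_univ_two] at this
  exact this

theorem U3_subst_two {B : Type} {Q : Quiv V} {m : ℕ} {p q : Fin m → V} {S : NC Q.A R} (hS : Len 3 S)
    {φ : (Q.plus p q).A → NC B R} (hφ : Z0 φ) (c d : B) :
    subst φ (plW Q p q S) [c, d] = ∑ i, φ (Sum.inr (Sum.inl i)) [c] * φ (Sum.inr (Sum.inr i)) [d] := by
  classical
  rw [subst_apply hφ _ _ (le_refl _)]
  set F : Fin m → List (Q.plus p q).A := fun i => [Sum.inr (Sum.inl i), Sum.inr (Sum.inr i)] with hF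
  have hFi : Function.Injective F := by
    intro i j hij
    have h1 := (List.cons.inj hij).1
    exact Sum.inl_injective (Sum.inr_injective h1)
  have e : ∑ i, φ (Sum.inr (Sum.inl i)) [c] * φ (Sum.inr (Sum.inr i)) [d] =
      ∑ u ∈ univ.image F, plW Q p q S u * wordSub φ u [c, d] := by
    rw [sum_image fun i _ j _ hij => hFi hij]
    refine sum_congr rfl fun i _ => ?_
    have h1 : plW Q p q S (F i) = 1 := by
      have hn : ¬∃ l : List Q.A, F i = l.map Sum.inl := by
        rintro ⟨l, hl⟩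
        cases l with
        | nil => exact absurd hl (List.cons_ne_nil _ _)
        | cons x l => exact Sum.inr_ne_inl (List.cons.inj hl).1
      unfold plW
      rw [if_neg hn, if_pos ⟨i, rfl⟩, zero_add]
    rw [h1, one_mul]
    exact (U3_wordSub_two hφ _ _ c d).symm
  rw [e]
  symm
  refine sum_subset ?_ ?_
  · intro u hu
    obtain ⟨i, -, rfl⟩ := mem_image.1 hu
    exact mem_wds.2 (le_refl 2)
  · intro u hu hu'
    have h1 : plW Q p q S u = 0 := by
      unfold plW
      rw [if_neg (c := ∃ j : Fin m, u = [Sum.inr (Sum.inl j), Sum.inr (Sum.inr j)]), add_zero]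
      · split_ifs with h
        · obtain ⟨l, rfl⟩ := h
          have h2 : (l.map (Sum.inl : Q.A → Q.A ⊕ (Fin m ⊕ Fin m))).filterMap Sum.getLeft? = l := by
            rw [List.filterMap_map]
            have : (Sum.getLeft? ∘ (Sum.inl : Q.A → Q.A ⊕ (Fin m ⊕ Fin m))) = some := rfl
            rw [this, List.filterMap_some]
          by_contra h3
          have h4 := hS _ h3
          have h5 : (l.map (Sum.inl : Q.A → Q.A ⊕ (Fin m ⊕ Fin m))).length ≤ 2 := mem_wds.1 hu
          rw [List.length_map] at h5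
          have h6 : ((l.map (Sum.inl : Q.A → Q.A ⊕ (Fin m ⊕ Fin m))).filterMap Sum.getLeft?).length = l.length := by
            rw [h2]
          have h7 : 3 ≤ l.length := h6 ▸ h4
          omega
        · rfl
      · rintro ⟨j, rfl⟩
        exact hu' (mem_image.2 ⟨j, mem_univ _, rfl⟩)
    rw [h1, zero_mul]

/-- coefficients at words of length two of the cyclic sum of the image of `S + ∑ x_i y_i` -/
theorem cyc_subst_plW_two {B : Type} {Q : Quiv V} {m : ℕ} {p q : Fin m → V} {S : NC Q.A R} (hS : Len 3 S)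
    {φ : (Q.plus p q).A → NC B R} (hφ : Z0 φ) (c d : B) :
    cyc (subst φ (plW Q p q S)) [c, d] =
      ∑ i, (φ (Sum.inr (Sum.inl i)) [c] * φ (Sum.inr (Sum.inr i)) [d] +
        φ (Sum.inr (Sum.inl i)) [d] * φ (Sum.inr (Sum.inr i)) [c]) := by
  show ∑ k ∈ range 2, subst φ (plW Q p q S) ([c, d].rotate k) = _
  rw [sum_range_succ, sum_range_one, List.rotate_zero]
  show subst φ (plW Q p q S) [c, d] + subst φ (plW Q p q S) [d, c] = _
  rw [U3_subst_two hS hφ, U3_subst_two hS hφ, sum_add_distrib]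

theorem U3_matrix {B : Type} {Q : Quiv V} {m : ℕ} {p q : Fin m → V} {S : NC Q.A R} (hS : Len 3 S)
    {φ : (Q.plus p q).A → NC B R} (hφ : Z0 φ) :
    (lin (A := Q.A ⊕ (Fin m ⊕ Fin m)) φ)ᵀ *
      (fromBlocks 0 0 0 (fromBlocks 0 1 1 0) : Matrix (Q.A ⊕ (Fin m ⊕ Fin m)) (Q.A ⊕ (Fin m ⊕ Fin m)) R) *
      lin (A := Q.A ⊕ (Fin m ⊕ Fin m)) φ = Matrix.of fun c d => cyc (subst φ (plW Q p q S)) [c, d] := by
  ext c d
  rw [Matrix.of_apply, cyc_subst_plW_two hS hφ, Matrix.mul_apply, sum_add_distrib]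
  have h1 : ∀ x : Q.A ⊕ (Fin m ⊕ Fin m), ((lin (A := Q.A ⊕ (Fin m ⊕ Fin m)) φ)ᵀ * (fromBlocks 0 0 0 (fromBlocks 0 1 1 0) :
      Matrix (Q.A ⊕ (Fin m ⊕ Fin m)) (Q.A ⊕ (Fin m ⊕ Fin m)) R)) c x =
      Sum.elim (fun _ => 0) (Sum.elim (fun i => φ (Sum.inr (Sum.inr i)) [c]) fun i => φ (Sum.inr (Sum.inl i)) [c])
        x := by
    intro x
    rw [Matrix.mul_apply, Fintype.sum_sum_type, Fintype.sum_sum_type]
    rcases x with x | x | x
    · simp
    · simp [Matrix.one_apply, lin]
    · simp [Matrix.one_apply, lin]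
  have h2 : ∑ x : Q.A ⊕ (Fin m ⊕ Fin m), ((lin (A := Q.A ⊕ (Fin m ⊕ Fin m)) φ)ᵀ * (fromBlocks 0 0 0 (fromBlocks 0 1 1 0) :
      Matrix (Q.A ⊕ (Fin m ⊕ Fin m)) (Q.A ⊕ (Fin m ⊕ Fin m)) R)) c x * lin (A := Q.A ⊕ (Fin m ⊕ Fin m)) φ x d =
      ∑ i : Fin m, φ (Sum.inr (Sum.inr i)) [c] * φ (Sum.inr (Sum.inl i)) [d] +
      ∑ i : Fin m, φ (Sum.inr (Sum.inl i)) [c] * φ (Sum.inr (Sum.inr i)) [d] := by
    rw [Fintype.sum_sum_type, Fintype.sum_sum_type]
    simp only [h1, Sum.elim_inl, Sum.elim_inr, zero_mul, sum_const_zero, zero_add]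
    rfl
  refine h2.trans ?_
  rw [add_comm]
  congr 1
  exact sum_congr rfl fun i _ => mul_comm _ _

theorem U3_isPath {Q : Quiv V} {m : ℕ} {p q : Fin m → V} (w : List Q.A) (i j : V)
    (h : (Q.plus p q).IsPath i (w.map Sum.inl) j) : Q.IsPath i w j := by
  induction w generalizing i with
  | nil => exact h
  | cons a w ih => exact ⟨h.1, ih _ h.2⟩

theorem red_iso {Q Q' : Quiv V} {m m' : ℕ} {p q : Fin m → V} {p' q' : Fin m' → V} {S : NC Q.A R} {S' : NC Q'.A R}
    (hS : Len 3 S) (hS' : Len 3 S') {φ : (Q.plus p q).A → NC (Q'.plus p' q').A R}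
    (hφ : Iso (Q.plus p q) (Q'.plus p' q') φ) (h : cyc (subst φ (plW Q p q S)) = cyc (plW Q' p' q' S')) :
    Iso Q Q' fun a => kil (φ (Sum.inl a)) := by
  classical
  have hz := hφ.z0
  obtain ⟨h1, N, hN1, hN2⟩ := hφ
  refine ⟨fun a w hw => ?_, ?_⟩
  · have := h1 (Sum.inl a) (w.map Sum.inl) hw
    refine ⟨fun h0 => this.1 (by rw [h0]; rfl), U3_isPath w _ _ this.2⟩
  · have hX : Z0 (fun a => (X a : NC (Q'.plus p' q').A R)) := by
      intro a
      show (mon [a] : NC (Q'.plus p' q').A R) [] = 0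
      rw [mon, if_neg (by simp)]
    have e1 := U3_matrix hS hz
    have e2 : (lin (A := Q'.A ⊕ (Fin m' ⊕ Fin m')) (B := Q'.A ⊕ (Fin m' ⊕ Fin m'))
          (fun a => (X a : NC (Q'.plus p' q').A R)))ᵀ *
        (fromBlocks 0 0 0 (fromBlocks 0 1 1 0) :
        Matrix (Q'.A ⊕ (Fin m' ⊕ Fin m')) (Q'.A ⊕ (Fin m' ⊕ Fin m')) R) *
        lin (A := Q'.A ⊕ (Fin m' ⊕ Fin m')) (B := Q'.A ⊕ (Fin m' ⊕ Fin m'))
          (fun a => (X a : NC (Q'.plus p' q').A R)) = Matrix.of fun c d =>
          cyc (subst (fun a => (X a : NC (Q'.plus p' q').A R)) (plW Q' p' q' S')) [c, d] :=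
      U3_matrix (φ := fun a => (X a : NC (Q'.plus p' q').A R)) hS' hX
    have e3 : lin (A := Q'.A ⊕ (Fin m' ⊕ Fin m')) (B := Q'.A ⊕ (Fin m' ⊕ Fin m'))
        (fun a => (X a : NC (Q'.plus p' q').A R)) = 1 := by
      ext a b
      show (mon [a] : NC (Q'.plus p' q').A R) [b] = _
      rw [mon, Matrix.one_apply]
      by_cases hab : a = b
      · rw [if_pos (by rw [hab]), if_pos hab]
      · rw [if_neg hab]
        exact if_neg fun h' => hab (List.cons.inj h').1.symm
    rw [e3, Matrix.transpose_one, Matrix.one_mul, Matrix.mul_one, subst_id, ← h] at e2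
    have e4 : (lin (A := Q.A ⊕ (Fin m ⊕ Fin m)) (B := Q'.A ⊕ (Fin m' ⊕ Fin m')) φ)ᵀ *
        (fromBlocks 0 0 0 (fromBlocks 0 1 1 0) :
        Matrix (Q.A ⊕ (Fin m ⊕ Fin m)) (Q.A ⊕ (Fin m ⊕ Fin m)) R) *
        lin (A := Q.A ⊕ (Fin m ⊕ Fin m)) (B := Q'.A ⊕ (Fin m' ⊕ Fin m')) φ =
        (fromBlocks 0 0 0 (fromBlocks 0 1 1 0) :
        Matrix (Q'.A ⊕ (Fin m' ⊕ Fin m')) (Q'.A ⊕ (Fin m' ⊕ Fin m')) R) := by
      exact e1.trans e2.symm
    have hJ : ∀ k : ℕ, (fromBlocks 0 1 1 0 : Matrix (Fin k ⊕ Fin k) (Fin k ⊕ Fin k) R) * fromBlocks 0 1 1 0 = 1 := by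
      intro k
      rw [fromBlocks_multiply]
      simp
    have := block_inv (L := lin φ) (N := N) hN1 hN2 (hJ m) (hJ m') e4
    exact ⟨_, this.1, this.2⟩

end Cea.N
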