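import Pool.Agent.Lib.MP_cea156_al.N.U4a
import Pool.Agent.Lib.MP_cea156_al.N.U2d

/-! U4b: the images of the letters `x_i`, `y_i` under an isomorphism are, modulo the new letters `x`, `y`, in the Jacobian ideal
of the new potential. Let `z` be the partner of the letter `z' ` (`der z' (plW S) = X z`). Then
`X z = der z' (subst ψ (plW S')) = ∑_{c'} subst (Sum.elim X (fun _ => subst ψ (der c' (plW S')))) (rot z' (ψ c'))` (`der_subst`); apply
`subst (kil ∘ φ)` and use `subst (kil ∘ φ) ∘ subst ψ = kil`; the letters `c' = inr _` contribute `0`. -/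

set_option autoImplicit false

namespace Cea.N

open Finset

variable {V R : Type} [DecidableEq V] [CommRing R] [Algebra ℚ R] {Q Q' : Quiv V} {m m' : ℕ} {p q : Fin m → V}
  {p' q' : Fin m' → V} {S : NC Q.A R} {S' : NC Q'.A R}

/-- the series in the letters `c = inl c` and `θ_c = inr c` -/
noncomputable def hatX (φ : (Q.plus p q).A → NC (Q'.plus p' q').A R) (ψ : (Q'.plus p' q').A → NC (Q.plus p q).A R)
    (z : (Q.plus p q).A) : NC (th Q').A R :=
  ∑ c : Q'.A, subst (Sum.elim (fun b => subst (fun d => X (Sum.inl d : Q'.A ⊕ Q'.A)) (kil (φ b)))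
    fun _ => X (Sum.inr c : Q'.A ⊕ Q'.A)) (rot z (ψ (Sum.inl c)))

theorem U4b_exists {A B : Type} [Fintype A] {g : A ⊕ Unit → NC B R} (hg : Z0 g) (z : A) (f : NC A R)
    {w : List B} (h : subst g (rot z f) w ≠ 0) : ∃ u v : List A, f (v ++ z :: u) ≠ 0 ∧
      (wordSub g (u.map Sum.inl) * (g (Sum.inr ()) * wordSub g (v.map Sum.inl))) w ≠ 0 := by
  rw [subst_apply hg _ w le_rfl] at h
  obtain ⟨x, _, hx⟩ := Finset.exists_ne_zero_of_sum_ne_zero h
  obtain ⟨u, v, rfl, h1⟩ := rot_ne_zero (left_ne_zero_of_mul hx)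
  refine ⟨u, v, h1, ?_⟩
  have h2 := right_ne_zero_of_mul hx
  rw [wordSub_append] at h2
  exact h2

theorem U4b_wordSub_inl {A B C : Type} (g : A ⊕ C → NC B R) (u : List A) :
    wordSub g (u.map Sum.inl) = wordSub (fun b => g (Sum.inl b)) u := by
  induction u with
  | nil => rfl
  | cons a u ih =>
    show g (Sum.inl a) * wordSub g (u.map Sum.inl) = _
    rw [ih]
    rfl

theorem U4b_zero {A B : Type} [Fintype A] {g : A ⊕ Unit → NC B R} (hg : Z0 g) (h0 : g (Sum.inr ()) = 0) (z : A)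
    (f : NC A R) : subst g (rot z f) = 0 := by
  ext w
  by_contra h
  obtain ⟨u, v, _, h2⟩ := U4b_exists hg z f h
  apply h2
  rw [h0, zero_mul, mul_zero, zero_apply]

theorem U4b_path {i j : V} {w : List Q'.A} (h : (Q'.plus p' q').IsPath i (w.map Sum.inl) j) : Q'.IsPath i w j := by
  induction w generalizing i with
  | nil => exact h
  | cons a w ih => exact ⟨h.1, ih h.2⟩

/-- the substitution used in `hatX` -/
noncomputable def U4b_g (φ : (Q.plus p q).A → NC (Q'.plus p' q').A R) (c : Q'.A) :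
    (Q.plus p q).A ⊕ Unit → NC (th Q').A R :=
  Sum.elim (fun b => subst (fun d => X (Sum.inl d : Q'.A ⊕ Q'.A)) (kil (φ b))) fun _ => X (Sum.inr c : Q'.A ⊕ Q'.A)

theorem U4b_z0g {φ : (Q.plus p q).A → NC (Q'.plus p' q').A R} (hφ : Z0 φ) (c : Q'.A) : Z0 (U4b_g φ c) := by
  rintro (b | b)
  · show subst (fun d => X (Sum.inl d : Q'.A ⊕ Q'.A)) (kil (φ b)) [] = 0
    rw [subst_nil]
    exact hφ b
  · rfl

theorem U4b_hatX {φ : (Q.plus p q).A → NC (Q'.plus p' q').A R} (hφ : Z0 φ)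
    (ψ : (Q'.plus p' q').A → NC (Q.plus p q).A R) (z : (Q.plus p q).A) {w : List (Q'.A ⊕ Q'.A)}
    (h : hatX φ ψ z w ≠ 0) : ∃ (c : Q'.A) (u v : List (Q.plus p q).A), ψ (Sum.inl c) (v ++ z :: u) ≠ 0 ∧
      (wordSub (U4b_g φ c) (u.map Sum.inl) * ((X (Sum.inr c : Q'.A ⊕ Q'.A) : NC (Q'.A ⊕ Q'.A) R) *
        wordSub (U4b_g φ c) (v.map Sum.inl))) w ≠ 0 := by
  unfold hatX at h
  rw [finsetSum_apply] at h
  obtain ⟨c, _, hc⟩ := Finset.exists_ne_zero_of_sum_ne_zero h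
  obtain ⟨u, v, h1, h2⟩ := U4b_exists (U4b_z0g hφ c) z (ψ (Sum.inl c)) hc
  exact ⟨c, u, v, h1, h2⟩

theorem Mk_hatX {φ : (Q.plus p q).A → NC (Q'.plus p' q').A R} (hφ : Z0 φ)
    (ψ : (Q'.plus p' q').A → NC (Q.plus p q).A R) (z : (Q.plus p q).A) :
    Mk (Sum.inr : Q'.A → Q'.A ⊕ Q'.A) 1 (hatX φ ψ z) := by
  intro w hw
  obtain ⟨c, u, v, _, h2⟩ := U4b_hatX hφ ψ z hw
  have m0 : ∀ F : NC (Q'.A ⊕ Q'.A) R, Mk (Sum.inr : Q'.A → Q'.A ⊕ Q'.A) 0 F := fun F w _ => Nat.zero_le _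
  have m1 : Mk (Sum.inr : Q'.A → Q'.A ⊕ Q'.A) 1 (X (Sum.inr c : Q'.A ⊕ Q'.A) : NC (Q'.A ⊕ Q'.A) R) := by
    intro w hw
    have e : w = [Sum.inr c] := by
      by_contra hne
      exact hw (if_neg hne)
    rw [e]
    unfold nmk
    rw [List.filter_cons_of_pos (by simp)]
    simp
  exact Mk_mul (m0 _) (Mk_mul m1 (m0 _)) w h2

theorem Sup_hatX {φ : (Q.plus p q).A → NC (Q'.plus p' q').A R} (hφ : Iso (Q.plus p q) (Q'.plus p' q') φ)
    {ψ : (Q'.plus p' q').A → NC (Q.plus p q).A R} (hψ : Iso (Q'.plus p' q') (Q.plus p q) ψ) (z : (Q.plus p q).A) :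
    Sup (th Q') ((Q.plus p q).t z) ((Q.plus p q).s z) (hatX φ ψ z) := by
  intro w hw
  obtain ⟨c, u, v, h1, h2⟩ := U4b_hatX hφ.z0 ψ z hw
  have hp : (Q.plus p q).IsPath (Q'.s c) (v ++ z :: u) (Q'.t c) := (hψ.1 _ _ h1).2
  rw [isPath_append] at hp
  obtain ⟨l, hv, hl, hu⟩ := hp
  subst hl
  have ps : PS (Q.plus p q) (th Q') fun b => U4b_g φ c (Sum.inl b) := by
    intro b
    have hk : Sup Q' ((Q.plus p q).s b) ((Q.plus p q).t b) (kil (φ b)) := fun w hw =>
      U4b_path (hφ.1 b _ hw).2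
    exact Sup_subst (Q := Q') (Q' := th Q') (fun d => rfl) (fun d => Sup_X (th Q') (Sum.inl d)) hk
  rw [U4b_wordSub_inl, U4b_wordSub_inl] at h2
  have hX : Sup (th Q') (Q'.t c) (Q'.s c) (X (Sum.inr c : Q'.A ⊕ Q'.A) : NC (Q'.A ⊕ Q'.A) R) :=
    Sup_X (th Q') (Sum.inr c)
  exact Sup_mul (Sup_wordSub ps hu) (Sup_mul hX (Sup_wordSub ps hv)) w h2

theorem U4b_main {φ : (Q.plus p q).A → NC (Q'.plus p' q').A R} (hφ : Iso (Q.plus p q) (Q'.plus p' q') φ)
    {ψ : (Q'.plus p' q').A → NC (Q.plus p q).A R} (hψ : Iso (Q'.plus p' q') (Q.plus p q) ψ)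
    (h1 : ∀ b, subst φ (ψ b) = X b) (hS' : Len 3 S')
    (h : cyc (subst ψ (plW Q' p' q' S')) = cyc (plW Q p q S)) (z : (Q.plus p q).A) :
    subst (fun b => (kil (φ b) : NC Q'.A R)) (der z (plW Q p q S)) = subst (ev S') (hatX φ ψ z) := by
  have hz0 : Z0 fun b => (kil (φ b) : NC Q'.A R) := fun b => hφ.z0 b
  -- `subst (kil ∘ φ) = kil ∘ subst φ`
  have ek : ∀ f : NC (Q.plus p q).A R, subst (fun b => (kil (φ b) : NC Q'.A R)) f = kil (subst φ f) := by
    intro f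
    have e0 : ∀ g : NC (Q'.plus p' q').A R, (kil g : NC Q'.A R) =
        subst (Sum.elim X fun _ => 0 : (Q'.plus p' q').A → NC Q'.A R) g := fun g => kil_eq_subst g
    refine Eq.trans ?_ ((subst_subst hφ.z0 (by rintro (a | a) <;> rfl) f).symm.trans (e0 (subst φ f)).symm)
    exact congrArg (fun χ => subst χ f) (funext fun b => e0 (φ b))
  have eid : ∀ D : NC (Q'.plus p' q').A R, subst (fun b => (kil (φ b) : NC Q'.A R)) (subst ψ D) = kil D := by
    intro D
    have e5 : subst φ (subst ψ D) = D := by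
      rw [subst_subst hψ.z0 hφ.z0]
      simp only [h1]
      exact subst_id D
    exact (ek _).trans (congrArg (fun D' : NC (Q'.plus p' q').A R => (kil D' : NC Q'.A R)) e5)
  have l2 : Len 2 (plW Q' p' q' S') := len_plW hS'
  have zd : ∀ a, Z0 (Sum.elim (X : (Q.plus p q).A → NC (Q.plus p q).A R)
      fun _ : Unit => subst ψ (der a (plW Q' p' q' S'))) := by
    rintro a (b | b)
    · rfl
    · show subst ψ (der a (plW Q' p' q' S')) [] = 0
      rw [subst_nil, der_nil]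
      by_contra hne
      have := l2 _ hne
      simp at this
  rw [(der_congr h.symm z).trans (der_subst hψ.z0 l2 z), subst_sum]
  have eT : ∀ a, subst (fun b => (kil (φ b) : NC Q'.A R)) (subst (Sum.elim (X : (Q.plus p q).A → NC (Q.plus p q).A R)
      fun _ : Unit => subst ψ (der a (plW Q' p' q' S'))) (rot z (ψ a))) =
        subst (Sum.elim (fun b => (kil (φ b) : NC Q'.A R)) fun _ : Unit => kil (der a (plW Q' p' q' S')))
          (rot z (ψ a)) := by
    intro a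
    rw [subst_subst (zd a) hz0]
    refine congrArg (fun χ => subst χ (rot z (ψ a))) (funext ?_)
    rintro (b | b)
    · exact subst_X hz0 b
    · exact eid _
  simp only [eT]
  refine (Fintype.sum_sum_type (fun a : Q'.A ⊕ (Fin m' ⊕ Fin m') =>
    subst (Sum.elim (fun b => (kil (φ b) : NC Q'.A R)) fun _ : Unit => kil (der a (plW Q' p' q' S')))
          (rot z (ψ a)))).trans ?_
  have e2 : ∀ y : Fin m' ⊕ Fin m', subst (Sum.elim (fun b => (kil (φ b) : NC Q'.A R)) fun _ : Unit =>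
      kil (der (Sum.inr y : (Q'.plus p' q').A) (plW Q' p' q' S'))) (rot z (ψ (Sum.inr y))) = 0 := by
    intro y
    rw [kil_der_inr]
    refine U4b_zero ?_ rfl z _
    rintro (b | b)
    · exact hφ.z0 b
    · rfl
  rw [Finset.sum_eq_zero (fun y _ => e2 y), add_zero]
  have zev : Z0 (ev S') := by
    rintro (a | a)
    · rfl
    · show der a S' [] = 0
      rw [der_nil]
      by_contra hne
      have := hS' _ hne
      simp at this
  unfold hatX
  rw [subst_sum]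
  refine Finset.sum_congr rfl fun c _ => ?_
  rw [kil_der_inl]
  refine Eq.trans ?_ (subst_subst (U4b_z0g hφ.z0 c) zev _).symm
  refine congrArg (fun χ => subst χ (rot z (ψ (Sum.inl c)))) (funext ?_)
  rintro (b | b)
  · show kil (φ b) = subst (ev S') (subst (fun d => X (Sum.inl d : Q'.A ⊕ Q'.A)) (kil (φ b)))
    rw [subst_subst (fun d => rfl) zev]
    have e3 : (fun d : Q'.A => subst (ev S') (X (Sum.inl d : Q'.A ⊕ Q'.A))) = fun d => X d := by
      funext d
      rw [subst_X zev]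
      rfl
    rw [e3, subst_id]
  · show der c S' = subst (ev S') (X (Sum.inr c : Q'.A ⊕ Q'.A))
    rw [subst_X zev]
    rfl

theorem kil_x {φ : (Q.plus p q).A → NC (Q'.plus p' q').A R} (hφ : Iso (Q.plus p q) (Q'.plus p' q') φ)
    {ψ : (Q'.plus p' q').A → NC (Q.plus p q).A R} (hψ : Iso (Q'.plus p' q') (Q.plus p q) ψ)
    (h1 : ∀ b, subst φ (ψ b) = X b) (hS' : Len 3 S')
    (h : cyc (subst ψ (plW Q' p' q' S')) = cyc (plW Q p q S)) (i : Fin m) :
    kil (φ (Sum.inr (Sum.inl i))) = subst (ev S') (hatX φ ψ (Sum.inr (Sum.inr i))) := by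
  have e := U4b_main hφ hψ h1 hS' h (Sum.inr (Sum.inr i))
  have e' : der (Sum.inr (Sum.inr i) : (Q.plus p q).A) (plW Q p q S) = X (Sum.inr (Sum.inl i) : (Q.plus p q).A) :=
    der_y S i
  refine Eq.trans ?_ ((congrArg (subst fun b => (kil (φ b) : NC Q'.A R)) e').symm.trans e)
  exact (subst_X (φ := fun b => (kil (φ b) : NC Q'.A R)) (fun b => hφ.z0 b) _).symm

theorem kil_y {φ : (Q.plus p q).A → NC (Q'.plus p' q').A R} (hφ : Iso (Q.plus p q) (Q'.plus p' q') φ)
    {ψ : (Q'.plus p' q').A → NC (Q.plus p q).A R} (hψ : Iso (Q'.plus p' q') (Q.plus p q) ψ)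
    (h1 : ∀ b, subst φ (ψ b) = X b) (hS' : Len 3 S')
    (h : cyc (subst ψ (plW Q' p' q' S')) = cyc (plW Q p q S)) (i : Fin m) :
    kil (φ (Sum.inr (Sum.inr i))) = subst (ev S') (hatX φ ψ (Sum.inr (Sum.inl i))) := by
  have e := U4b_main hφ hψ h1 hS' h (Sum.inr (Sum.inl i))
  have e' : der (Sum.inr (Sum.inl i) : (Q.plus p q).A) (plW Q p q S) = X (Sum.inr (Sum.inr i) : (Q.plus p q).A) :=
    der_x S i
  refine Eq.trans ?_ ((congrArg (subst fun b => (kil (φ b) : NC Q'.A R)) e').symm.trans e)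
  exact (subst_X (φ := fun b => (kil (φ b) : NC Q'.A R)) (fun b => hφ.z0 b) _).symm

end Cea.N
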