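import Pool.Agent.Lib.MP_cea156_al.N.H2

/-! X1: the determinantal identity. Let `k → p`, `k → q` be single arrows. Write `x_p'`, `x_q'` for the new variables after mutation at `p`, `q`, and
`x_kp`, `x_kq` for those after mutation at `k` and then at `p`, `q`. Then `D x_q' x_kp - x_p' x_kq = O (D F₁ F₄ - G₁ G₄)` with explicit Laurent monomials. -/

set_option autoImplicit false
set_option linter.unusedSectionVars false

namespace Cea

open Relation

variable {n : ℕ} {K : Type} [Field K] [Algebra ℂ K]

/-- Laurent monomial in the variables of `s` -/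
def lm (s : Seed n K) (e : Fin n → ℤ) : K := ∏ i, s.x i ^ e i

theorem lm_add {s : Seed n K} (h : s.Ok) (e f : Fin n → ℤ) : lm s (fun i => e i + f i) = lm s e * lm s f := by
  unfold lm
  rw [← Finset.prod_mul_distrib]
  exact Finset.prod_congr rfl fun i _ => zpow_add₀ (Ok_ne h i) _ _

theorem lm_ne {s : Seed n K} (h : s.Ok) (e : Fin n → ℤ) : lm s e ≠ 0 :=
  Finset.prod_ne_zero_iff.2 fun i _ => zpow_ne_zero _ (Ok_ne h i)

theorem lm_congr {s : Seed n K} {e f : Fin n → ℤ} (h : ∀ i, e i = f i) : lm s e = lm s f := by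
  have : e = f := funext h
  rw [this]

theorem lm_mul {s : Seed n K} (h : s.Ok) {e f g : Fin n → ℤ} (hg : ∀ i, e i + f i = g i) :
    lm s e * lm s f = lm s g := by
  rw [← lm_add h]
  exact lm_congr hg

theorem lm_zero (s : Seed n K) {e : Fin n → ℤ} (h : ∀ i, e i = 0) : lm s e = 1 := by
  unfold lm
  exact Finset.prod_eq_one fun i _ => by rw [h i, zpow_zero]

theorem lm_single (s : Seed n K) (k : Fin n) (r : ℤ) : lm s (fun i => if i = k then r else 0) = s.x k ^ r := by
  unfold lm
  rw [Finset.prod_eq_single k]
  · show s.x k ^ (if k = k then r else 0) = _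
    rw [if_pos rfl]
  · intro b _ hb
    show s.x b ^ (if b = k then r else 0) = _
    rw [if_neg hb, zpow_zero]
  · intro hk
    exact absurd (Finset.mem_univ k) hk

theorem lm_toNat (s : Seed n K) (m : Fin n → ℤ) : ∏ i, s.x i ^ (m i).toNat = lm s (fun i => max (m i) 0) := by
  unfold lm
  refine Finset.prod_congr rfl fun i _ => ?_
  rw [← zpow_natCast, Int.toNat_eq_max]

theorem exch_lm (s : Seed n K) (k : Fin n) :
    s.exch k = lm s (fun i => max (s.B i k) 0) + lm s (fun i => max (-s.B i k) 0) := by
  unfold Seed.exch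
  rw [lm_toNat s fun i => s.B i k, lm_toNat s fun i => -s.B i k]

/-- monomials after mutation at `k` -/
theorem lm_mut (s : Seed n K) (k : Fin n) (m : Fin n → ℤ) :
    lm (s.mut k) m = (s.exch k / s.x k) ^ m k * lm s (fun i => if i = k then 0 else m i) := by
  unfold lm
  rw [← Finset.mul_prod_erase Finset.univ _ (Finset.mem_univ k),
    ← Finset.mul_prod_erase Finset.univ (fun i => s.x i ^ (if i = k then 0 else m i)) (Finset.mem_univ k)]
  rw [if_pos rfl, zpow_zero, one_mul]
  congr 1
  · simp [Seed.mut]
  · refine Finset.prod_congr rfl fun i hi => ?_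
    have hik : i ≠ k := Finset.ne_of_mem_erase hi
    rw [if_neg hik]
    simp [Seed.mut, Function.update_of_ne hik]

/-- the exchange polynomial at `p` if `B k p = 1` -/
theorem exch_one {s : Seed n K} (h : s.Ok) {k p : Fin n} (hk : s.B k p = 1) :
    s.exch p = s.x k * lm s (fun i => max (if i = k then 0 else s.B i p) 0) +
      lm s (fun i => max (-(if i = k then 0 else s.B i p)) 0) := by
  rw [exch_lm]
  congr 1
  · rw [← zpow_one (s.x k), ← lm_single s k 1]
    refine (lm_mul h fun i => ?_).symm
    by_cases hi : i = k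
    · subst hi
      rw [if_pos rfl, if_pos rfl, hk]
      rfl
    · rw [if_neg hi, if_neg hi, zero_add]
  · refine lm_congr fun i => ?_
    by_cases hi : i = k
    · subst hi
      rw [if_pos rfl, hk]
      rfl
    · rw [if_neg hi]

/-- the exchange polynomial at `p` after mutation at `k`, if `B k p = 1` -/
theorem exch_mut {s : Seed n K} (h : s.Ok) {k p : Fin n} (hk : s.B k p = 1) :
    (s.mut k).exch p = lm s (fun i => max ((if i = k then 0 else s.B i p) + max (s.B i k) 0) 0) +
      s.exch k / s.x k * lm s (fun i => max (-((if i = k then 0 else s.B i p) + max (s.B i k) 0)) 0) := by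
  have hkk : s.B k k = 0 := by
    have := h.2 k k
    omega
  have hpk : p ≠ k := by
    rintro rfl
    omega
  have hB : ∀ i, i ≠ k → (s.mut k).B i p = s.B i p + max (s.B i k) 0 := by
    intro i hi
    show mutB k s.B i p = _
    unfold mutB
    rw [if_neg (by simp [hi, hpk]), hk]
    simp
  have hBk : (s.mut k).B k p = -1 := by
    show mutB k s.B k p = _
    unfold mutB
    rw [if_pos (Or.inl rfl), hk]
  rw [exch_lm, lm_mut, lm_mut]
  congr 1
  · rw [hBk, show max (-1 : ℤ) 0 = 0 from rfl, zpow_zero, one_mul]
    refine lm_congr fun i => ?_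
    by_cases hi : i = k
    · subst hi
      rw [if_pos rfl, if_pos rfl, hkk]
      rfl
    · rw [if_neg hi, if_neg hi, hB i hi]
  · rw [hBk, show max (-(-1 : ℤ)) 0 = 1 from rfl, zpow_one]
    congr 1
    refine lm_congr fun i => ?_
    by_cases hi : i = k
    · subst hi
      rw [if_pos rfl, if_pos rfl, hkk]
      rfl
    · rw [if_neg hi, if_neg hi, hB i hi]

/-- the identity -/
theorem det_identity {s : Seed n K} (h : s.Ok) {k p q : Fin n} (hp : s.B k p = 1) (hq : s.B k q = 1) :
    s.x p * s.x q * (lm s (fun i => max (if i = k then 0 else s.B i p) 0 +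
          max ((if i = k then 0 else s.B i q) + max (s.B i k) 0) 0 - max (if i = k then 0 else s.B i q) 0 -
          max ((if i = k then 0 else s.B i p) + max (s.B i k) 0) 0) * (s.exch q / s.x q) * ((s.mut k).exch p / s.x p) -
        (s.exch p / s.x p) * ((s.mut k).exch q / s.x q)) =
      lm s (fun i => max (-s.B i k) 0) *
        (lm s (fun i => max (if i = k then 0 else s.B i p) 0 +
            max ((if i = k then 0 else s.B i q) + max (s.B i k) 0) 0 -
            max ((if i = k then 0 else s.B i p) + max (s.B i k) 0) 0 +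
            max (-((if i = k then 0 else s.B i p) + max (s.B i k) 0)) 0) -
          lm s (fun i => max (if i = k then 0 else s.B i p) 0 +
            max (-((if i = k then 0 else s.B i q) + max (s.B i k) 0)) 0)) := by
  have hkk : s.B k k = 0 := by
    have := h.2 k k
    omega
  have hxk := Ok_ne h k
  have hxp := Ok_ne h p
  have hxq := Ok_ne h q
  rw [exch_one h hp, exch_one h hq, exch_mut h hp, exch_mut h hq]
  set b : Fin n → ℤ := fun i => if i = k then 0 else s.B i p with hb
  set c : Fin n → ℤ := fun i => if i = k then 0 else s.B i q with hc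
  set a : Fin n → ℤ := fun i => max (s.B i k) 0 with ha
  set F1 := lm s (fun i => max (c i) 0) with hF1
  set F2 := lm s (fun i => max (-c i) 0) with hF2
  set F3 := lm s (fun i => max (b i + a i) 0) with hF3
  set F4 := lm s (fun i => max (-(b i + a i)) 0) with hF4
  set G1 := lm s (fun i => max (b i) 0) with hG1
  set G2 := lm s (fun i => max (-b i) 0) with hG2
  set G3 := lm s (fun i => max (c i + a i) 0) with hG3
  set G4 := lm s (fun i => max (-(c i + a i)) 0) with hG4
  set D := lm s (fun i => max (b i) 0 + max (c i + a i) 0 - max (c i) 0 - max (b i + a i) 0) with hD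
  set Am := lm s (fun i => max (-s.B i k) 0) with hAm
  set Ap := lm s a with hAp
  have hE : s.exch k = Ap + Am := exch_lm s k
  have e1 : D * F1 * F3 = G1 * G3 := by
    rw [hD, hF1, hF3, hG1, hG3, lm_mul h (g := fun i => max (b i) 0 + max (c i + a i) 0 - max (b i + a i) 0)
      (fun i => by ring), lm_mul h (g := fun i => max (b i) 0 + max (c i + a i) 0) (fun i => by ring), lm_add h]
  have e2 : D * F2 * F4 = G2 * G4 := by
    rw [hD, hF2, hF4, hG2, hG4]
    rw [← lm_add h, ← lm_add h, ← lm_add h]
    refine lm_congr fun i => ?_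
    omega
  have e3 : D * F1 * F4 * Ap = G2 * G3 := by
    rw [hD, hF1, hF4, hG2, hG3, hAp]
    rw [← lm_add h, ← lm_add h, ← lm_add h, ← lm_add h]
    refine lm_congr fun i => ?_
    omega
  have e4 : D * F2 * F3 = G1 * G4 * Ap := by
    rw [hD, hF2, hF3, hG1, hG4, hAp]
    rw [← lm_add h, ← lm_add h, ← lm_add h, ← lm_add h]
    refine lm_congr fun i => ?_
    omega
  have e5 : lm s (fun i => max (b i) 0 + max (c i + a i) 0 - max (b i + a i) 0 + max (-(b i + a i)) 0) =
      D * F1 * F4 := by
    rw [hD, hF1, hF4]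
    rw [← lm_add h, ← lm_add h]
    refine lm_congr fun i => ?_
    ring
  have e6 : lm s (fun i => max (b i) 0 + max (-(c i + a i)) 0) = G1 * G4 := by
    rw [hG1, hG4, ← lm_add h]
  rw [e5, e6, hE]
  field_simp
  linear_combination (s.x k) ^ 2 * e1 + (Ap + Am) * e2 + s.x k * e3 + s.x k * e4
end Cea
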