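import Pool.Agent.Lib.MP_cea156_al.N.X1

/-! X2: glueing along the determinantal identity. -/

set_option autoImplicit false
set_option linter.unusedSectionVars false

namespace Cea

open Relation

variable {n : ℕ} {K : Type} [Field K] [Algebra ℂ K]

private theorem X2_reach {M : Finset (Fin n)} {i : Fin n} {s s' : Seed n K} (h : ReachM (M.erase i) s s') :
    ReachM M s s' := by
  induction h with
  | refl => exact Relation.ReflTransGen.refl
  | tail _ h2 ih =>
    obtain ⟨k, hk, e⟩ := h2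
    exact Relation.ReflTransGen.tail ih ⟨k, Finset.mem_of_mem_erase hk, e⟩

private theorem X2_up (M : Finset (Fin n)) (i : Fin n) (s : Seed n K) : upA M s ≤ upA (M.erase i) s := by
  unfold upA
  refine le_iInf₂ fun s' hs' => ?_
  exact iInf₂_le s' (X2_reach hs')

private theorem X2_var (M : Finset (Fin n)) (s : Seed n K) {s' : Seed n K} (h : ReachM M s s') (k : Fin n) :
    s'.x k ∈ clA M s :=
  Algebra.subset_adjoin (Or.inl ⟨s', h, k, rfl⟩)

private theorem X2_inv (M : Finset (Fin n)) (s : Seed n K) {k : Fin n} (hk : k ∉ M) : (s.x k)⁻¹ ∈ clA M s :=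
  Algebra.subset_adjoin (Or.inr ⟨k, hk, rfl⟩)

/-- a power of `x_i` clears the denominators -/
private theorem X2_clear (M : Finset (Fin n)) (s : Seed n K) {i : Fin n} (hx : s.x i ≠ 0) {f : K}
    (hf : f ∈ clA (M.erase i) s) : ∃ a : ℕ, ∀ b, a ≤ b → s.x i ^ b * f ∈ clA M s := by
  have key : ∃ a : ℕ, s.x i ^ a * f ∈ clA M s := by
    unfold clA at hf
    induction hf using Algebra.adjoin_induction with
    | mem z hz =>
      rcases hz with ⟨s', hs', k, rfl⟩ | ⟨k, hk, rfl⟩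
      · exact ⟨0, by rw [pow_zero, one_mul]; exact X2_var M s (X2_reach hs') k⟩
      · by_cases hki : k = i
        · subst hki
          refine ⟨1, ?_⟩
          rw [pow_one, mul_inv_cancel₀ hx]
          exact one_mem _
        · refine ⟨0, ?_⟩
          rw [pow_zero, one_mul]
          refine X2_inv M s fun hkM => hk (Finset.mem_erase.mpr ⟨hki, hkM⟩)
    | algebraMap r => exact ⟨0, by rw [pow_zero, one_mul]; exact Subalgebra.algebraMap_mem _ r⟩
    | add x y _ _ hx' hy' =>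
      obtain ⟨a, ha⟩ := hx'
      obtain ⟨b, hb⟩ := hy'
      refine ⟨a + b, ?_⟩
      have e : s.x i ^ (a + b) * (x + y) = s.x i ^ b * (s.x i ^ a * x) + s.x i ^ a * (s.x i ^ b * y) := by ring
      rw [e]
      exact add_mem (mul_mem (pow_mem (x_mem M s i) b) ha) (mul_mem (pow_mem (x_mem M s i) a) hb)
    | mul x y _ _ hx' hy' =>
      obtain ⟨a, ha⟩ := hx'
      obtain ⟨b, hb⟩ := hy'
      refine ⟨a + b, ?_⟩
      have e : s.x i ^ (a + b) * (x * y) = (s.x i ^ a * x) * (s.x i ^ b * y) := by ring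
      rw [e]
      exact mul_mem ha hb
  obtain ⟨a, ha⟩ := key
  refine ⟨a, fun b hb => ?_⟩
  obtain ⟨c, rfl⟩ := Nat.exists_eq_add_of_le hb
  have e : s.x i ^ (a + c) * f = s.x i ^ c * (s.x i ^ a * f) := by ring
  rw [e]
  exact mul_mem (pow_mem (x_mem M s i) c) ha

theorem lm_mem {M : Finset (Fin n)} {s : Seed n K} {e : Fin n → ℤ} (he : ∀ i ∈ M, 0 ≤ e i) :
    lm s e ∈ clA M s := by
  unfold lm
  refine Subalgebra.prod_mem _ fun i _ => ?_
  by_cases hi : i ∈ M
  · obtain ⟨m, hm⟩ := Int.eq_ofNat_of_zero_le (he i hi)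
    rw [hm, zpow_natCast]
    exact pow_mem (x_mem M s i) m
  · rcases le_total 0 (e i) with h0 | h0
    · obtain ⟨m, hm⟩ := Int.eq_ofNat_of_zero_le h0
      rw [hm, zpow_natCast]
      exact pow_mem (x_mem M s i) m
    · obtain ⟨m, hm⟩ := Int.eq_ofNat_of_zero_le (neg_nonneg.2 h0)
      have h1 : e i = -(m : ℤ) := by omega
      rw [h1, zpow_neg, zpow_natCast, ← inv_pow]
      exact pow_mem (X2_inv M s hi) m

/-- a unit ideal from the identity -/
theorem det_unit (M : Finset (Fin n)) (s : Seed n K) (h : s.Ok) {k p q m : Fin n} (hk : k ∈ M) (hp : p ∈ M) (hq : q ∈ M)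
    (hpq : p ≠ q) (h1 : s.B k p = 1) (h2 : s.B k q = 1) (h3 : ∀ j ∈ M, j ≠ p → j ≠ q → s.B k j ≤ 0)
    (h4 : ∀ j ∈ M, j ≠ k → s.B j q ≤ 0)
    (h5 : ∀ j ∈ M, j ≠ p → j ≠ q → s.B p j ≤ s.B j k ∧ s.B p j ≤ s.B q j)
    (hm : m ∈ M) (h6 : 0 < s.B q m + s.B m p) :
    ∃ α ∈ clA M s, ∃ β ∈ clA M s, ∃ γ ∈ clA M s,
      α * (s.mut q).x q + β * (s.mut p).x p + γ * s.x m = 1 := by
  have hxp := Ok_ne h p
  have hxq := Ok_ne h q
  have hxm := Ok_ne h m
  have sk := h.2
  have hkk : s.B k k = 0 := by have := sk k k; omega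
  have hpp : s.B p p = 0 := by have := sk p p; omega
  have hqq : s.B q q = 0 := by have := sk q q; omega
  have hpk : p ≠ k := by rintro rfl; omega
  have hqk : q ≠ k := by rintro rfl; omega
  have hBpk : s.B p k = -1 := by rw [sk p k, h1]
  have hBqk : s.B q k = -1 := by rw [sk q k, h2]
  have hBpq : s.B p q ≤ 0 := h4 p hp hpk
  have hBqp : 0 ≤ s.B q p := by have := sk q p; omega
  let b : Fin n → ℤ := fun i => if i = k then 0 else s.B i p
  let c : Fin n → ℤ := fun i => if i = k then 0 else s.B i q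
  let a : Fin n → ℤ := fun i => max (s.B i k) 0
  let τ : Fin n → ℤ := fun i => if i ∈ M ∧ i ≠ k ∧ i ≠ p ∧ i ≠ q then min (s.B i k) (s.B q i) - max (s.B p i) 0 else 0
  let o : Fin n → ℤ := fun i => if i = p ∨ i = q then 0 else max (-s.B i k) 0
  have hid := det_identity h h1 h2
  have hAm : lm s (fun i => max (-s.B i k) 0) = s.x p * s.x q * lm s o := by
    rw [← zpow_one (s.x p), ← zpow_one (s.x q), ← lm_single s p 1, ← lm_single s q 1, ← lm_add h, ← lm_add h]
    refine lm_congr fun i => ?_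
    show max (-s.B i k) 0 = (if i = p then 1 else 0) + (if i = q then 1 else 0) + (if i = p ∨ i = q then 0 else max (-s.B i k) 0)
    by_cases hip : i = p
    · subst hip
      rw [if_pos rfl, if_neg hpq, if_pos (Or.inl rfl), hBpk]
      rfl
    · by_cases hiq : i = q
      · subst hiq
        rw [if_neg hip, if_pos rfl, if_pos (Or.inr rfl), hBqk]
        rfl
      · rw [if_neg hip, if_neg hiq, if_neg (by tauto)]
        ring
  rw [hAm, mul_assoc (s.x p * s.x q)] at hid
  have hid2 := mul_left_cancel₀ (mul_ne_zero hxp hxq) hid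
  -- the classification of the vertices in `M`
  have hM : ∀ i ∈ M, (i = k ∨ i = p ∨ i = q) ∨ (i ≠ k ∧ i ≠ p ∧ i ≠ q) := by
    intro i _
    tauto
  have hcase : ∀ i ∈ M, i ≠ k → i ≠ p → i ≠ q → s.B i k = -s.B k i ∧ s.B k i ≤ 0 ∧ s.B i q ≤ 0 ∧ s.B q i = -s.B i q ∧
      s.B p i = -s.B i p ∧ s.B p i ≤ s.B i k ∧ s.B p i ≤ s.B q i := by
    intro i hi hik hip hiq
    exact ⟨sk i k, h3 i hi hip hiq, h4 i hi hik, sk q i, sk p i, (h5 i hi hip hiq).1, (h5 i hi hip hiq).2⟩
  have hτ : ∀ i ∈ M, 0 ≤ τ i := by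
    intro i hi
    show 0 ≤ (if i ∈ M ∧ i ≠ k ∧ i ≠ p ∧ i ≠ q then min (s.B i k) (s.B q i) - max (s.B p i) 0 else 0)
    split_ifs with hif
    · obtain ⟨e1, e2, e3, e4, e5, e6, e7⟩ := hcase i hi hif.2.1 hif.2.2.1 hif.2.2.2
      omega
    · exact le_rfl
  have hval : ∀ i ∈ M, (i = k ∧ a i = 0 ∧ b i = 0 ∧ c i = 0 ∧ τ i = 0 ∧ o i = 0) ∨
      (i = p ∧ a i = 0 ∧ b i = 0 ∧ c i = s.B p q ∧ τ i = 0 ∧ o i = 0) ∨
      (i = q ∧ a i = 0 ∧ b i = s.B q p ∧ c i = 0 ∧ τ i = 0 ∧ o i = 0) ∨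
      (i ≠ k ∧ i ≠ p ∧ i ≠ q ∧ a i = s.B i k ∧ b i = s.B i p ∧ c i = s.B i q ∧
        τ i = min (s.B i k) (s.B q i) - max (s.B p i) 0 ∧ o i = 0) := by
    intro i hi
    by_cases hik : i = k
    · left
      subst hik
      refine ⟨rfl, ?_, if_pos rfl, if_pos rfl, if_neg (by tauto), ?_⟩
      · show max (s.B i i) 0 = 0
        rw [hkk]; rfl
      · show (if i = p ∨ i = q then 0 else max (-s.B i i) 0) = 0
        rw [if_neg (by rintro (e | e); exacts [hpk e.symm, hqk e.symm]), hkk]; rfl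
    · right
      by_cases hip : i = p
      · left
        subst hip
        refine ⟨rfl, ?_, ?_, if_neg hik, if_neg (by tauto), if_pos (Or.inl rfl)⟩
        · show max (s.B i k) 0 = 0
          rw [hBpk]; rfl
        · show (if i = k then 0 else s.B i i) = 0
          rw [if_neg hik, hpp]
      · right
        by_cases hiq : i = q
        · left
          subst hiq
          refine ⟨rfl, ?_, if_neg hik, ?_, if_neg (by tauto), if_pos (Or.inr rfl)⟩
          · show max (s.B i k) 0 = 0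
            rw [hBqk]; rfl
          · show (if i = k then 0 else s.B i i) = 0
            rw [if_neg hik, hqq]
        · right
          obtain ⟨e1, e2, e3, e4, e5, e6, e7⟩ := hcase i hi hik hip hiq
          refine ⟨hik, hip, hiq, ?_, if_neg hik, if_neg hik, if_pos ⟨hi, hik, hip, hiq⟩, ?_⟩
          · show max (s.B i k) 0 = _
            omega
          · show (if i = p ∨ i = q then 0 else max (-s.B i k) 0) = 0
            rw [if_neg (by tauto)]
            omega
  -- exponents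
  let Eu : Fin n → ℤ := fun i => o i + τ i + (max (b i) 0 + max (c i + a i) 0 - max (b i + a i) 0 + max (-(b i + a i)) 0)
  let Ed : Fin n → ℤ := fun i => τ i + (max (b i) 0 + max (c i + a i) 0 - max (c i) 0 - max (b i + a i) 0)
  let Ew : Fin n → ℤ := fun i => o i + τ i + (max (b i) 0 + max (-(c i + a i)) 0)
  have hEu : ∀ i ∈ M, Eu i = 0 := by
    intro i hi
    show o i + τ i + (max (b i) 0 + max (c i + a i) 0 - max (b i + a i) 0 + max (-(b i + a i)) 0) = 0
    rcases hval i hi with ⟨-, e1, e2, e3, e4, e5⟩ | ⟨-, e1, e2, e3, e4, e5⟩ | ⟨-, e1, e2, e3, e4, e5⟩ |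
      ⟨hik, hip, hiq, e1, e2, e3, e4, e5⟩
    · rw [e1, e2, e3, e4, e5]; rfl
    · rw [e1, e2, e3, e4, e5]; omega
    · rw [e1, e2, e3, e4, e5]; omega
    · obtain ⟨f1, f2, f3, f4, f5, f6, f7⟩ := hcase i hi hik hip hiq
      rw [e1, e2, e3, e4, e5]; omega
  have hEd : ∀ i ∈ M, Ed i = 0 := by
    intro i hi
    show τ i + (max (b i) 0 + max (c i + a i) 0 - max (c i) 0 - max (b i + a i) 0) = 0
    rcases hval i hi with ⟨-, e1, e2, e3, e4, e5⟩ | ⟨-, e1, e2, e3, e4, e5⟩ | ⟨-, e1, e2, e3, e4, e5⟩ |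
      ⟨hik, hip, hiq, e1, e2, e3, e4, e5⟩
    · rw [e1, e2, e3, e4]; rfl
    · rw [e1, e2, e3, e4]; omega
    · rw [e1, e2, e3, e4]; omega
    · obtain ⟨f1, f2, f3, f4, f5, f6, f7⟩ := hcase i hi hik hip hiq
      rw [e1, e2, e3, e4]; omega
  have hEw : ∀ i ∈ M, 0 ≤ Ew i ∧ (0 < s.B q i + s.B i p → 0 < Ew i) := by
    intro i hi
    show 0 ≤ o i + τ i + (max (b i) 0 + max (-(c i + a i)) 0) ∧
      (0 < s.B q i + s.B i p → 0 < o i + τ i + (max (b i) 0 + max (-(c i + a i)) 0))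
    rcases hval i hi with ⟨hi', e1, e2, e3, e4, e5⟩ | ⟨hi', e1, e2, e3, e4, e5⟩ | ⟨hi', e1, e2, e3, e4, e5⟩ |
      ⟨hik, hip, hiq, e1, e2, e3, e4, e5⟩
    · rw [e1, e2, e3, e4, e5, hi']; omega
    · have := sk q p
      rw [e1, e2, e3, e4, e5, hi']; omega
    · rw [e1, e2, e3, e4, e5, hi']; omega
    · obtain ⟨f1, f2, f3, f4, f5, f6, f7⟩ := hcase i hi hik hip hiq
      have := hτ i hi
      rw [e1, e2, e3, e5]
      rw [e4] at this ⊢
      omega
  -- the new variables
  have hyq : (s.mut q).x q = s.exch q / s.x q := by simp [Seed.mut]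
  have hyp : (s.mut p).x p = s.exch p / s.x p := by simp [Seed.mut]
  have hykp : ((s.mut k).mut p).x p = (s.mut k).exch p / s.x p := by
    simp [Seed.mut, Function.update_of_ne hpk]
  have hykq : ((s.mut k).mut q).x q = (s.mut k).exch q / s.x q := by
    simp [Seed.mut, Function.update_of_ne hqk]
  have hmkp : (s.mut k).exch p / s.x p ∈ clA M s := by
    rw [← hykp]
    exact X2_var M s ((Relation.ReflTransGen.single ⟨k, hk, rfl⟩).tail ⟨p, hp, rfl⟩) p
  have hmkq : (s.mut k).exch q / s.x q ∈ clA M s := by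
    rw [← hykq]
    exact X2_var M s ((Relation.ReflTransGen.single ⟨k, hk, rfl⟩).tail ⟨q, hq, rfl⟩) q
  set ykp := (s.mut k).exch p / s.x p with hykp'
  set ykq := (s.mut k).exch q / s.x q with hykq'
  set yq := s.exch q / s.x q with hyq'
  set yp := s.exch p / s.x p with hyp'
  -- multiply by `T = lm s τ`
  have hT : lm s Ed * yq * ykp - lm s τ * yp * ykq = lm s Eu - lm s Ew := by
    have e1 : lm s Ed = lm s τ * lm s (fun i => max (b i) 0 + max (c i + a i) 0 - max (c i) 0 - max (b i + a i) 0) :=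
      lm_add h _ _
    have e2 : lm s Eu = lm s o * lm s τ *
        lm s (fun i => max (b i) 0 + max (c i + a i) 0 - max (b i + a i) 0 + max (-(b i + a i)) 0) := by
      rw [← lm_add h, ← lm_add h]
    have e3 : lm s Ew = lm s o * lm s τ * lm s (fun i => max (b i) 0 + max (-(c i + a i)) 0) := by
      rw [← lm_add h, ← lm_add h]
    rw [e1, e2, e3]
    linear_combination lm s τ * hid2
  have hune := lm_ne h Eu
  have hui : (lm s Eu)⁻¹ ∈ clA M s := by
    have e : (lm s Eu)⁻¹ = lm s (fun i => -Eu i) := by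
      refine inv_eq_of_mul_eq_one_right ?_
      rw [lm_mul h (g := fun _ => 0) (fun i => by ring)]
      exact lm_zero s fun _ => rfl
    rw [e]
    exact lm_mem fun i hi => by show 0 ≤ -Eu i; rw [hEu i hi]; rfl
  have hW : ∃ w ∈ clA M s, lm s Ew = w * s.x m := by
    refine ⟨lm s (fun i => Ew i - if i = m then 1 else 0), lm_mem fun i hi => ?_, ?_⟩
    · show 0 ≤ Ew i - if i = m then 1 else 0
      have h7 := hEw i hi
      split_ifs with him
      · subst him
        have := h7.2 h6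
        omega
      · have := h7.1
        omega
    · rw [← zpow_one (s.x m), ← lm_single s m 1, ← lm_add h]
      exact lm_congr fun i => by ring
  obtain ⟨w, hw, hw'⟩ := hW
  refine ⟨(lm s Eu)⁻¹ * (lm s Ed * ykp), mul_mem hui (mul_mem (lm_mem fun i hi => by rw [hEd i hi]) hmkp),
    -((lm s Eu)⁻¹ * (lm s τ * ykq)), neg_mem (mul_mem hui (mul_mem (lm_mem hτ) hmkq)),
    (lm s Eu)⁻¹ * w, mul_mem hui hw, ?_⟩
  rw [hyq, hyp]
  have e8 : lm s Ed * ykp * yq - lm s τ * ykq * yp + w * s.x m = lm s Eu := by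
    rw [← hw']
    linear_combination hT
  have e9 : (lm s Eu)⁻¹ * lm s Eu = 1 := inv_mul_cancel₀ hune
  linear_combination (lm s Eu)⁻¹ * e8 + e9

theorem glue_det (M : Finset (Fin n)) (s : Seed n K) (h : s.Ok) {k p q m : Fin n} (hk : k ∈ M) (hp : p ∈ M) (hq : q ∈ M)
    (hpq : p ≠ q) (h1 : s.B k p = 1) (h2 : s.B k q = 1) (h3 : ∀ j ∈ M, j ≠ p → j ≠ q → s.B k j ≤ 0)
    (h4 : ∀ j ∈ M, j ≠ k → s.B j q ≤ 0)
    (h5 : ∀ j ∈ M, j ≠ p → j ≠ q → s.B p j ≤ s.B j k ∧ s.B p j ≤ s.B q j)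
    (hm : m ∈ M) (h6 : 0 < s.B q m + s.B m p)
    (hu1 : upA (M.erase q) (s.mut q) ≤ clA (M.erase q) (s.mut q))
    (hu2 : upA (M.erase p) (s.mut p) ≤ clA (M.erase p) (s.mut p))
    (hu3 : upA (M.erase m) s ≤ clA (M.erase m) s) : upA M s ≤ clA M s := by
  obtain ⟨α, hα, β, hβ, γ, hγ, hone⟩ := det_unit M s h hk hp hq hpq h1 h2 h3 h4 h5 hm h6
  intro f hf
  have hf1 : f ∈ clA (M.erase q) (s.mut q) := hu1 (X2_up M q (s.mut q) (by rw [upA_mut M s h hq]; exact hf))
  have hf2 : f ∈ clA (M.erase p) (s.mut p) := hu2 (X2_up M p (s.mut p) (by rw [upA_mut M s h hp]; exact hf))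
  have hf3 : f ∈ clA (M.erase m) s := hu3 (X2_up M m s hf)
  obtain ⟨n1, c1⟩ := X2_clear M (s.mut q) (Ok_ne (mut_ok h q) q) hf1
  obtain ⟨n2, c2⟩ := X2_clear M (s.mut p) (Ok_ne (mut_ok h p) p) hf2
  obtain ⟨n3, c3⟩ := X2_clear M s (Ok_ne h m) hf3
  rw [clA_mut M s h hq] at c1
  rw [clA_mut M s h hp] at c2
  have y1 : (s.mut q).x q ∈ clA M s := X2_var M s (ReflTransGen.single ⟨q, hq, rfl⟩) q
  have y2 : (s.mut p).x p ∈ clA M s := X2_var M s (ReflTransGen.single ⟨p, hp, rfl⟩) p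
  let N := n1 + n2 + n3
  let Y : Set (clA M s) := {⟨_, y1⟩, ⟨_, y2⟩, ⟨_, x_mem M s m⟩}
  have hspan : Ideal.span Y = ⊤ := by
    rw [Ideal.eq_top_iff_one]
    have e : (1 : clA M s) = ⟨α, hα⟩ * ⟨_, y1⟩ + ⟨β, hβ⟩ * ⟨_, y2⟩ + ⟨γ, hγ⟩ * ⟨_, x_mem M s m⟩ := by
      apply Subtype.ext
      exact hone.symm
    rw [e]
    refine add_mem (add_mem ?_ ?_) ?_
    · exact Ideal.mul_mem_left _ _ (Ideal.subset_span (by simp [Y]))
    · exact Ideal.mul_mem_left _ _ (Ideal.subset_span (by simp [Y]))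
    · exact Ideal.mul_mem_left _ _ (Ideal.subset_span (by simp [Y]))
  have hpow := Ideal.span_pow_eq_top Y hspan N
  -- the ideal of denominators
  let I : Ideal (clA M s) := {
    carrier := {y | (y : K) * f ∈ clA M s}
    add_mem' := by
      intro a b ha hb
      show ((a + b : clA M s) : K) * f ∈ clA M s
      have e : ((a + b : clA M s) : K) * f = (a : K) * f + (b : K) * f := by push_cast; ring
      rw [e]
      exact add_mem ha hb
    zero_mem' := by
      show ((0 : clA M s) : K) * f ∈ clA M s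
      have e : ((0 : clA M s) : K) * f = 0 := by push_cast; ring
      rw [e]
      exact zero_mem _
    smul_mem' := by
      intro c a ha
      show ((c * a : clA M s) : K) * f ∈ clA M s
      have e : ((c * a : clA M s) : K) * f = (c : K) * ((a : K) * f) := by push_cast; ring
      rw [e]
      exact mul_mem c.2 ha }
  have hle : Ideal.span ((fun x => x ^ N) '' Y) ≤ I := by
    rw [Ideal.span_le]
    rintro _ ⟨y, hy, rfl⟩
    show ((y ^ N : clA M s) : K) * f ∈ clA M s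
    have e : ((y ^ N : clA M s) : K) = (y : K) ^ N := by push_cast; rfl
    rw [e]
    rcases hy with rfl | rfl | rfl
    · exact c1 N (by omega)
    · exact c2 N (by omega)
    · exact c3 N (by omega)
  rw [hpow] at hle
  have h9 : (1 : clA M s) ∈ I := hle trivial
  have h10 : ((1 : clA M s) : K) * f ∈ clA M s := h9
  rwa [show ((1 : clA M s) : K) * f = f by push_cast; ring] at h10

end Cea
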