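import Pool.Agent.Lib.MP_cea156_al.N.HDefs

/-! Reduction by Muller's covers and by determinantal covers. -/

namespace Cea

variable {n : ℕ}

/-- the full subquiver on `M` is reducible to subquivers with property `P` and to sets without arrows, by mutations at vertices in `M`, passage to the
opposite quiver, and two kinds of covers:
* `cover`: for an arrow `i → j` in `M` which is not contained in a bi-infinite path in `M`, pass to `M ∖ i` and `M ∖ j`;
* `det`: the arrows in `M` which start at `k` are one arrow `k → p` and one arrow `k → q`, no other arrow in `M` ends at `q`, and for all other vertices `j` in `M` there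
are at least as many arrows `j → k`, and at least as many arrows `q → j`, as arrows `p → j`; `m` is a vertex in `M` with `B q m + B m p > 0`; pass to `M ∖ q` after mutation at `q`, to
`M ∖ p` after mutation at `p`, and to `M ∖ m`. -/
inductive RedX (P : Finset (Fin n) → Matrix (Fin n) (Fin n) ℤ → Prop) :
    Finset (Fin n) → Matrix (Fin n) (Fin n) ℤ → Prop
  | base {M : Finset (Fin n)} {B : Matrix (Fin n) (Fin n) ℤ} : P M B → RedX P M B
  | disc {M : Finset (Fin n)} {B : Matrix (Fin n) (Fin n) ℤ} : (∀ i ∈ M, ∀ j ∈ M, B i j = 0) → RedX P M B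
  | mutate {M : Finset (Fin n)} {B : Matrix (Fin n) (Fin n) ℤ} {k : Fin n} : k ∈ M → RedX P M (mutB k B) → RedX P M B
  | opp {M : Finset (Fin n)} {B : Matrix (Fin n) (Fin n) ℤ} : RedX P M (-B) → RedX P M B
  | cover {M : Finset (Fin n)} {B : Matrix (Fin n) (Fin n) ℤ} {i j : Fin n} : i ∈ M → j ∈ M → 0 < B i j →
      (FinFrom M B j ∨ FinTo M B i) → RedX P (M.erase i) B → RedX P (M.erase j) B → RedX P M B
  | det {M : Finset (Fin n)} {B : Matrix (Fin n) (Fin n) ℤ} {k p q m : Fin n} : k ∈ M → p ∈ M → q ∈ M → m ∈ M → p ≠ q →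
      B k p = 1 → B k q = 1 → (∀ j ∈ M, j ≠ p → j ≠ q → B k j ≤ 0 ∧ B p j ≤ B j k ∧ B p j ≤ B q j) →
      (∀ j ∈ M, j ≠ k → B j q ≤ 0) → 0 < B q m + B m p → RedX P (M.erase q) (mutB q B) → RedX P (M.erase p) (mutB p B) →
      RedX P (M.erase m) B → RedX P M B

end Cea
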