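import Pool.Agent.Lib.MP_cea156_al.N.X2
import Pool.Agent.Lib.MP_cea156_al.N.XDefs
import Pool.Agent.Lib.MP_cea156_al.N.H4

/-! X3: `A = U` for sets which are reducible by Muller's covers and determinantal covers to mutation-acyclic sets. -/

set_option autoImplicit false
set_option linter.unusedSectionVars false

namespace Cea

open Relation

variable {n : ℕ} {K : Type} [Field K] [Algebra ℂ K]

/-- the opposite seed -/
def Seed.neg (s : Seed n K) : Seed n K := ⟨s.x, -s.B⟩

theorem mutB_neg (k : Fin n) (B : Matrix (Fin n) (Fin n) ℤ) : mutB k (-B) = -mutB k B := by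
  funext i j
  show mutB k (-B) i j = -(mutB k B i j)
  unfold mutB
  split_ifs with h
  · rfl
  · show -B i j + (max (-B i k) 0 * max (-B k j) 0 - max (-(-B i k)) 0 * max (-(-B k j)) 0) = _
    rw [neg_neg, neg_neg]
    ring

theorem neg_exch (s : Seed n K) (k : Fin n) : s.neg.exch k = s.exch k := by
  show ∏ i, s.x i ^ (-s.B i k).toNat + ∏ i, s.x i ^ (-(-s.B i k)).toNat = _
  simp only [neg_neg]
  rw [add_comm]
  rfl

theorem neg_mut (s : Seed n K) (k : Fin n) : s.neg.mut k = (s.mut k).neg := by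
  show (⟨Function.update s.x k (s.neg.exch k / s.x k), mutB k (-s.B)⟩ : Seed n K) = ⟨_, -mutB k s.B⟩
  rw [neg_exch, mutB_neg]
  rfl

theorem neg_neg' (s : Seed n K) : s.neg.neg = s := by
  show (⟨s.x, - -s.B⟩ : Seed n K) = s
  rw [neg_neg]

theorem neg_ok {s : Seed n K} (h : s.Ok) : s.neg.Ok :=
  ⟨h.1, fun i j => by show -s.B i j = -(-s.B j i); rw [h.2 i j]⟩

theorem reachM_neg {M : Finset (Fin n)} {s s' : Seed n K} (h : ReachM M s s') : ReachM M s.neg s'.neg := by
  induction h with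
  | refl => exact ReflTransGen.refl
  | tail _ hk ih =>
    obtain ⟨k, hk, rfl⟩ := hk
    exact ih.tail ⟨k, hk, (neg_mut _ k).symm⟩

theorem laurent_neg (s : Seed n K) : laurent s.neg = laurent s := rfl

theorem upA_neg (M : Finset (Fin n)) (s : Seed n K) : upA M s.neg = upA M s := by
  have key : ∀ s : Seed n K, upA M s.neg ≤ upA M s := by
    intro s
    unfold upA
    refine le_iInf₂ fun s' hs' => ?_
    exact iInf₂_le_of_le s'.neg (reachM_neg hs') (laurent_neg s').le
  refine le_antisymm (key s) ?_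
  have := key s.neg
  rwa [neg_neg'] at this

theorem clA_neg (M : Finset (Fin n)) (s : Seed n K) : clA M s.neg = clA M s := by
  have key : ∀ s : Seed n K, clA M s ≤ clA M s.neg := by
    intro s
    unfold clA
    rw [Algebra.adjoin_le_iff]
    rintro z (⟨s', hs', i, rfl⟩ | ⟨i, hi, rfl⟩)
    · exact Algebra.subset_adjoin (Or.inl ⟨s'.neg, reachM_neg hs', i, rfl⟩)
    · exact Algebra.subset_adjoin (Or.inr ⟨i, hi, rfl⟩)
  refine le_antisymm ?_ (key s)
  have := key s.neg
  rwa [neg_neg'] at this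

theorem le_of_redX {M : Finset (Fin n)} {B : Matrix (Fin n) (Fin n) ℤ} (hr : RedX MutAcycM M B) :
    ∀ s : Seed n K, s.Ok → s.B = B → upA M s ≤ clA M s := by
  induction hr with
  | base hP =>
    intro s h hs
    subst hs
    exact le_of_mutAcycM _ s h hP
  | disc h0 =>
    intro s h hs
    subst hs
    exact (upA_le_isoA _ s h h0).trans (isoA_le_clA _ s h)
  | mutate hk _ ih =>
    intro s h hs
    subst hs
    have h1 := ih (s.mut _) (mut_ok h _) rfl
    rwa [upA_mut _ s h hk, clA_mut _ s h hk] at h1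
  | opp _ ih =>
    intro s h hs
    subst hs
    have h1 := ih s.neg (neg_ok h) rfl
    rwa [upA_neg, clA_neg] at h1
  | cover hi hj hij hf _ _ ih1 ih2 =>
    intro s h hs
    subst hs
    refine glue_pair _ s h ?_ (ih1 s h rfl) (ih2 s h rfl)
    rcases hf with hf | hf
    · exact pair_from _ s h hf _ hi hj hij
    · exact pair_to _ s h hf _ hi hj hij
  | det hk hp hq hm hpq h1 h2 h3 h4 h6 _ _ _ ih1 ih2 ih3 =>
    intro s h hs
    subst hs
    exact glue_det _ s h hk hp hq hpq h1 h2 (fun j hj e1 e2 => (h3 j hj e1 e2).1) h4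
      (fun j hj e1 e2 => (h3 j hj e1 e2).2) hm h6 (ih1 (s.mut _) (mut_ok h _) rfl) (ih2 (s.mut _) (mut_ok h _) rfl)
      (ih3 s h rfl)

theorem X3_skew (k : Fin n) {B : Matrix (Fin n) (Fin n) ℤ} (hB : ∀ i j, B i j = -B j i) (i j : Fin n) :
    mutB k B i j = -mutB k B j i := by
  by_cases h : i = k ∨ j = k
  · have h' : j = k ∨ i = k := h.symm
    simp only [mutB, h, h', if_true]
    rw [hB i j]
  · have h' : ¬ (j = k ∨ i = k) := fun e => h e.symm
    simp only [mutB, h, h', if_false]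
    rw [hB j k, hB k i, neg_neg, neg_neg, hB i j]
    ring

theorem X3_skew2 {r : Matrix (Fin n) (Fin n) ℤ → Matrix (Fin n) (Fin n) ℤ → Prop}
    (hr : ∀ a b, r a b → ∃ k, b = mutB k a) {B B' : Matrix (Fin n) (Fin n) ℤ}
    (h : ReflTransGen r B B') (hB : ∀ i j, B i j = -B j i) : ∀ i j, B' i j = -B' j i := by
  induction h with
  | refl => exact hB
  | tail _ hk ih =>
    obtain ⟨k, rfl⟩ := hr _ _ hk
    exact X3_skew k ih

theorem reachB_neg {M : Finset (Fin n)} {B B' : Matrix (Fin n) (Fin n) ℤ}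
    (h : ReflTransGen (fun a b => ∃ k ∈ M, b = mutB k a) B B') :
    ReflTransGen (fun a b => ∃ k ∈ M, b = mutB k a) (-B) (-B') := by
  induction h with
  | refl => exact ReflTransGen.refl
  | tail _ hk ih =>
    obtain ⟨k, hk, rfl⟩ := hk
    exact ih.tail ⟨k, hk, (mutB_neg k _).symm⟩

theorem mutAcycM_neg {M : Finset (Fin n)} {B : Matrix (Fin n) (Fin n) ℤ} (hB : ∀ i j, B i j = -B j i)
    (h : MutAcycM M B) : MutAcycM M (-B) := by
  obtain ⟨B', h1, r, h2⟩ := h
  refine ⟨-B', reachB_neg h1, fun i => Finset.univ.sup r - r i, ?_⟩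
  intro i hi j hj hij
  have h3 := X3_skew2 (fun a b hab => ⟨hab.choose, hab.choose_spec.2⟩) h1 hB i j
  have h4 : 0 < B' j i := by
    have : 0 < -B' i j := hij
    omega
  have h5 := h2 j hj i hi h4
  have h6 : r i ≤ Finset.univ.sup r := Finset.le_sup (f := r) (Finset.mem_univ i)
  show Finset.univ.sup r - r i < Finset.univ.sup r - r j
  omega

theorem loc_neg {B : Matrix (Fin n) (Fin n) ℤ} (hB : ∀ i j, B i j = -B j i) (hl : Loc B) : Loc (-B) := by
  intro B' h M hM
  have h1 : ReflTransGen (fun a b => ∃ k, b = mutB k a) B (-B') := by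
    have h2 : ReflTransGen (fun a b => ∃ k ∈ (Finset.univ : Finset (Fin n)), b = mutB k a) (-B) B' := by
      refine ReflTransGen.mono ?_ _ _ h
      rintro a b ⟨k, hk⟩
      exact ⟨k, Finset.mem_univ k, hk⟩
    have h3 := reachB_neg h2
    rw [neg_neg] at h3
    refine ReflTransGen.mono ?_ _ _ h3
    rintro a b ⟨k, -, hk⟩
    exact ⟨k, hk⟩
  have h4 : ∀ i j, (-B') i j = -(-B') j i := X3_skew2 (fun a b hab => hab) h1 hB
  have h5 := mutAcycM_neg h4 (hl _ h1 M hM)
  rwa [neg_neg] at h5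

theorem redX_of_loc {M : Finset (Fin n)} {B : Matrix (Fin n) (Fin n) ℤ}
    (hr : RedX (fun M _ => M.card ≤ 3) M B) : (∀ i j, B i j = -B j i) → Loc B → RedX MutAcycM M B := by
  induction hr with
  | base hP => exact fun _ hl => RedX.base (hl _ ReflTransGen.refl _ hP)
  | disc h0 => exact fun _ _ => RedX.disc h0
  | mutate hk _ ih =>
    exact fun hB hl => RedX.mutate hk (ih (X3_skew _ hB) (H4_loc (ReflTransGen.single ⟨_, rfl⟩) hl))
  | opp _ ih => exact fun hB hl => RedX.opp (ih (fun i j => by rw [Matrix.neg_apply, Matrix.neg_apply, hB i j]) (loc_neg hB hl))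
  | cover hi hj hij hf _ _ ih1 ih2 => exact fun hB hl => RedX.cover hi hj hij hf (ih1 hB hl) (ih2 hB hl)
  | det hk hp hq hm hpq h1 h2 h3 h4 h6 _ _ _ ih1 ih2 ih3 =>
    exact fun hB hl => RedX.det hk hp hq hm hpq h1 h2 h3 h4 h6
      (ih1 (X3_skew _ hB) (H4_loc (ReflTransGen.single ⟨_, rfl⟩) hl))
      (ih2 (X3_skew _ hB) (H4_loc (ReflTransGen.single ⟨_, rfl⟩) hl)) (ih3 hB hl)

/-- the general criterion -/
theorem main_redX {B : Matrix (Fin n) (Fin n) ℤ} (hB : ∀ i j, B i j = -B j i)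
    {s : Seed n (FractionRing (MvPolynomial (Fin n) ℂ))} (hs : Reach (initSeed B) s) {M : Finset (Fin n)}
    (hM : RedX MutAcycM M s.B) :
    upperAlg (initSeed B) ≤ Algebra.adjoin ℂ ((clusterAlg (initSeed B) : Set (FractionRing (MvPolynomial (Fin n) ℂ))) ∪
      {z | ∃ i, i ∉ M ∧ z = (s.x i)⁻¹}) := by
  have hok := initSeed_ok B hB
  exact upper_le_adjoin hok hs M (le_of_redX hM s (reach_ok hok hs) rfl)

/-- the criterion with sets of at most three vertices -/
theorem main_redX_loc {B : Matrix (Fin n) (Fin n) ℤ} (hB : ∀ i j, B i j = -B j i) (hl : Loc B)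
    {s : Seed n (FractionRing (MvPolynomial (Fin n) ℂ))} (hs : Reach (initSeed B) s) {M : Finset (Fin n)}
    (hM : RedX (fun M _ => M.card ≤ 3) M s.B) :
    upperAlg (initSeed B) ≤ Algebra.adjoin ℂ ((clusterAlg (initSeed B) : Set (FractionRing (MvPolynomial (Fin n) ℂ))) ∪
      {z | ∃ i, i ∉ M ∧ z = (s.x i)⁻¹}) := by
  have hB' : ReflTransGen (fun a b => ∃ k, b = mutB k a) B s.B := H4_reachB hs
  exact main_redX hB hs (redX_of_loc hM (X3_skew2 (fun a b hab => hab) hB' hB) (H4_loc hB' hl))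

end Cea
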