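import Pool.Agent.Lib.MP_cea156_al.N.X3

/-! X4: a family of quivers with four vertices. -/

set_option autoImplicit false
set_option linter.unusedSectionVars false

namespace Cea

open Relation

variable {n : ℕ}

/-- a triangle with a single arrow `x → y` is mutation-acyclic -/
theorem tri {M : Finset (Fin n)} {B : Matrix (Fin n) (Fin n) ℤ} (hB : ∀ i j, B i j = -B j i) {x y z : Fin n}
    (hM : ∀ i ∈ M, i = x ∨ i = y ∨ i = z) (hx : x ∈ M) (hy : y ∈ M) (hxy : x ≠ y) (hyz : y ≠ z) (hxz : x ≠ z)
    (h1 : B x y = 1) : MutAcycM M B := by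
  have hxx : B x x = 0 := by have := hB x x; omega
  have hyy : B y y = 0 := by have := hB y y; omega
  have hzz : B z z = 0 := by have := hB z z; omega
  have hyx := hB y x
  have hzy := hB z y
  have hxz' := hB x z
  -- acyclicity from a rank function on three vertices
  have acyc : ∀ (C : Matrix (Fin n) (Fin n) ℤ) (u v w : Fin n), (∀ i ∈ M, i = u ∨ i = v ∨ i = w) →
      u ≠ v → v ≠ w → u ≠ w → C u u ≤ 0 → C v v ≤ 0 → C w w ≤ 0 → C v u ≤ 0 → C w v ≤ 0 → C w u ≤ 0 → AcycM M C := by
    intro C u v w hM' e1 e2 e3 f1 f2 f3 f4 f5 f6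
    refine ⟨fun i => if i = u then 0 else if i = v then 1 else 2, ?_⟩
    intro i hi j hj hij
    show (if i = u then 0 else if i = v then 1 else 2) < (if j = u then 0 else if j = v then 1 else 2)
    rcases hM' i hi with rfl | rfl | rfl <;> rcases hM' j hj with rfl | rfl | rfl <;>
      simp only [e1, e1.symm, e2.symm, e3.symm, if_true, if_false] <;> omega
  by_cases ha : B z x ≤ 0
  · -- `x → y`, `x → z`
    by_cases hb : B y z ≤ 0
    · exact ⟨B, ReflTransGen.refl, acyc B x z y (fun i hi => by rcases hM i hi with e | e | e <;> tauto) hxz hyz.symm hxy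
        hxx.le hzz.le hyy.le ha hb (by omega)⟩
    · exact ⟨B, ReflTransGen.refl, acyc B x y z hM hxy hyz hxz hxx.le hyy.le hzz.le (by omega) (by omega) ha⟩
  · by_cases hb : B y z ≤ 0
    · exact ⟨B, ReflTransGen.refl, acyc B z x y (fun i hi => by rcases hM i hi with e | e | e <;> tauto) hxz.symm hxy hyz.symm
        hzz.le hxx.le hyy.le (by omega) (by omega) hb⟩
    · by_cases hab : B y z ≤ B z x
      · -- mutate at `y`
        have m1 : mutB y B y x = -B y x := by unfold mutB; rw [if_pos (Or.inl rfl)]
        have m3 : mutB y B y z = -B y z := by unfold mutB; rw [if_pos (Or.inl rfl)]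
        have m4 : mutB y B x z = B x z + B y z := by
          unfold mutB
          rw [if_neg (by rintro (e | e); exacts [hxy e, hyz e.symm]), h1, show max (1 : ℤ) 0 = 1 from rfl,
            show max (-1 : ℤ) 0 = 0 from rfl, max_eq_left (by omega : (0 : ℤ) ≤ B y z)]
          ring
        have d := X3_skew y hB
        have d1 := d z z
        have d2 := d y y
        have d3 := d x x
        have d4 := d x z
        refine ⟨mutB y B, ReflTransGen.single ⟨y, hy, rfl⟩, acyc _ z y x
          (fun i hi => by rcases hM i hi with e | e | e <;> tauto) hyz.symm hxy.symm hxz.symm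
          (by omega) (by omega) (by omega) ?_ ?_ ?_⟩
        · omega
        · have d5 := d x y
          omega
        · omega
      · -- mutate at `x`
        have m1 : mutB x B x y = -B x y := by unfold mutB; rw [if_pos (Or.inl rfl)]
        have m3 : mutB x B x z = -B x z := by unfold mutB; rw [if_pos (Or.inl rfl)]
        have m4 : mutB x B z y = B z y + B z x := by
          unfold mutB
          rw [if_neg (by rintro (e | e); exacts [hxz e.symm, hxy e.symm]), h1, show max (1 : ℤ) 0 = 1 from rfl,
            show max (-1 : ℤ) 0 = 0 from rfl, max_eq_left (by omega : (0 : ℤ) ≤ B z x)]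
          ring
        have d := X3_skew x hB
        have d1 := d z z
        have d2 := d y y
        have d3 := d x x
        have d4 := d y z
        have d5 := d x y
        have d6 := d x z
        refine ⟨mutB x B, ReflTransGen.single ⟨x, hx, rfl⟩, acyc _ y x z
          (fun i hi => by rcases hM i hi with e | e | e <;> tauto) hxy.symm hxz hyz
          (by omega) (by omega) (by omega) ?_ ?_ ?_⟩
        · omega
        · omega
        · omega

/-- four vertices `0, 1, 2, 3` with arrows `1 → 0` (`k` arrows), `0 → 2`, `0 → 3`, `2 → 1`, `3 → 1` (`c` arrows), `3 → 2` (`l` arrows) -/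
def fam (k c l : ℤ) : Matrix (Fin 4) (Fin 4) ℤ := !![0, -k, 1, 1; k, 0, -1, -c; -1, 1, 0, -l; -1, c, l, 0]

theorem fam_skew (k c l : ℤ) (i j : Fin 4) : fam k c l i j = -fam k c l j i := by
  fin_cases i <;> fin_cases j <;> simp [fam]

theorem fam_redX {k c l : ℤ} (hk : 1 ≤ k) (hc : 1 ≤ c) (hl : 1 ≤ l) : RedX MutAcycM Finset.univ (fam k c l) := by
  have hs := fam_skew k c l
  refine RedX.det (k := 0) (p := 2) (q := 3) (m := 2) (Finset.mem_univ _) (Finset.mem_univ _) (Finset.mem_univ _)
    (Finset.mem_univ _) (by decide) rfl rfl ?_ ?_ ?_ ?_ ?_ ?_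
  · intro j _ hj2 hj3
    fin_cases j
    · simp [fam]
    · simp [fam]
      omega
    · exact absurd rfl hj2
    · exact absurd rfl hj3
  · intro j _ hj0
    fin_cases j
    · exact absurd rfl hj0
    · simp [fam]; omega
    · simp [fam]; omega
    · simp [fam]
  · simp [fam]; omega
  · refine RedX.base (tri (X3_skew 3 hs) (x := 2) (y := 1) (z := 0) ?_ (by decide) (by decide) (by decide) (by decide) (by decide) ?_)
    · decide
    · show mutB 3 (fam k c l) 2 1 = 1
      unfold mutB
      rw [if_neg (by decide)]
      have e1 : max (-l) 0 = 0 := by omega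
      have e2 : max (-c) 0 = 0 := by omega
      simp [fam, e1, e2]
  · refine RedX.base (tri (X3_skew 2 hs) (x := 0) (y := 3) (z := 1) ?_ (by decide) (by decide) (by decide) (by decide) (by decide) ?_)
    · decide
    · show mutB 2 (fam k c l) 0 3 = 1
      unfold mutB
      rw [if_neg (by decide)]
      simp [fam]
      omega
  · refine RedX.base (tri hs (x := 0) (y := 3) (z := 1) ?_ (by decide) (by decide) (by decide) (by decide) (by decide) rfl)
    decide

end Cea
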